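import Mathlib

/-!
# Abstract independent hyperedge percolation

`ι` is a countable set of hyperedges, hyperedge `i` has support `s i` (a finite set of vertices)
and is present (`ω i ≠ 0`) independently with probability `1 - exp (- lam i)`.
-/

namespace Pool.Agent.LoopPerc

open MeasureTheory ProbabilityTheory Filter Topology Set
open scoped ENNReal NNReal

variable {V ι : Type*}

/-- A system of hyperedges with rates. -/
structure HSys (V ι : Type*) where
  /-- the support of a hyperedge -/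
  s : ι → Finset V
  /-- the rate (Poisson intensity) of a hyperedge -/
  lam : ι → ℝ≥0

namespace HSys

variable (H : HSys V ι)

/-- `x` and `y` are in a common present hyperedge of the family `J`. -/
def Adj (J : Set ι) (ω : ι → ℕ) (x y : V) : Prop := ∃ i ∈ J, ω i ≠ 0 ∧ x ∈ H.s i ∧ y ∈ H.s i

/-- `x` and `y` are connected by present hyperedges of the family `J`. -/
def Conn (J : Set ι) (ω : ι → ℕ) (x y : V) : Prop := Relation.ReflTransGen (H.Adj J ω) x y

/-- The cluster of `x` in the family `J`. -/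
def clus (J : Set ι) (ω : ι → ℕ) (x : V) : Set V := {y | H.Conn J ω x y}

/-- hyperedges meeting the set `A` -/
def hit (A : Set V) : Set ι := {i | ∃ x ∈ H.s i, x ∈ A}

/-- The law of the configuration. -/
noncomputable def P : Measure (ι → ℕ) := Measure.infinitePi fun i => poissonMeasure (H.lam i)

instance : IsProbabilityMeasure H.P := by unfold P; infer_instance

variable {H}

lemma Adj.symm {J : Set ι} {ω : ι → ℕ} {x y : V} (h : H.Adj J ω x y) : H.Adj J ω y x := by
  obtain ⟨i, hi, h0, hx, hy⟩ := h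
  exact ⟨i, hi, h0, hy, hx⟩

lemma Conn.symm {J : Set ι} {ω : ι → ℕ} {x y : V} (h : H.Conn J ω x y) : H.Conn J ω y x := by
  induction h with
  | refl => exact Relation.ReflTransGen.refl
  | tail _ hbc ih => exact Relation.ReflTransGen.head hbc.symm ih

lemma Conn.trans {J : Set ι} {ω : ι → ℕ} {x y z : V} (h : H.Conn J ω x y)
    (h' : H.Conn J ω y z) : H.Conn J ω x z := Relation.ReflTransGen.trans h h'

lemma Conn.refl {J : Set ι} {ω : ι → ℕ} (x : V) : H.Conn J ω x x := Relation.ReflTransGen.refl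

lemma Conn.mono {J J' : Set ι} {ω ω' : ι → ℕ} {x y : V} (hJ : J ⊆ J')
    (hω : ∀ i ∈ J, ω i ≠ 0 → ω' i ≠ 0) (h : H.Conn J ω x y) : H.Conn J' ω' x y := by
  refine Relation.ReflTransGen.mono (fun a b hab => ?_) _ _ h
  obtain ⟨i, hi, h0, hx, hy⟩ := hab
  exact ⟨i, hJ hi, hω i hi h0, hx, hy⟩

lemma Conn.mono_set {J J' : Set ι} {ω : ι → ℕ} {x y : V} (hJ : J ⊆ J')
    (h : H.Conn J ω x y) : H.Conn J' ω x y := h.mono hJ (fun _ _ h => h)

lemma mem_clus_self (J : Set ι) (ω : ι → ℕ) (x : V) : x ∈ H.clus J ω x := Conn.refl x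

lemma clus_mono {J J' : Set ι} (hJ : J ⊆ J') (ω : ι → ℕ) (x : V) :
    H.clus J ω x ⊆ H.clus J' ω x := fun _ h => h.mono_set hJ

/-- a present hyperedge of `J` that meets the cluster is contained in it -/
lemma subset_clus {J : Set ι} {ω : ι → ℕ} {x : V} {i : ι} (hi : i ∈ J) (h0 : ω i ≠ 0)
    (hh : i ∈ H.hit (H.clus J ω x)) : (H.s i : Set V) ⊆ H.clus J ω x := by
  obtain ⟨y, hy, hy'⟩ := hh
  intro z hz
  exact Relation.ReflTransGen.tail hy' ⟨i, hi, h0, hy, hz⟩

/-- exploration: if `y` is connected to `x` but is not in the `S`-cluster `A` of `x`, then there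
is a present hyperedge outside of `S` that meets `A` and is connected to `y` avoiding `A` -/
lemma exists_exit {S J : Set ι} {ω : ι → ℕ} {x y : V}
    (h : H.Conn J ω x y) (hy : y ∉ H.clus S ω x) :
    ∃ i ∈ J \ S, ω i ≠ 0 ∧ i ∈ H.hit (H.clus S ω x) ∧
      ∃ v ∈ H.s i, H.Conn (J \ H.hit (H.clus S ω x)) ω v y := by
  induction h with
  | refl => exact absurd (mem_clus_self S ω x) hy
  | @tail b c hab hbc ih =>
    obtain ⟨i, hi, h0, hb, hc⟩ := hbc
    by_cases hh : i ∈ H.hit (H.clus S ω x)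
    · have hiS : i ∉ S := fun hiS => hy (subset_clus hiS h0 hh hc)
      exact ⟨i, ⟨hi, hiS⟩, h0, hh, c, hc, Conn.refl c⟩
    · have hb' : b ∉ H.clus S ω x := fun hb' => hh ⟨b, hb, hb'⟩
      obtain ⟨j, hj, hj0, hjh, v, hv, hvb⟩ := ih hb'
      exact ⟨j, hj, hj0, hjh, v, hv, Relation.ReflTransGen.tail hvb ⟨i, ⟨hi, hh⟩, h0, hb, hc⟩⟩

/-- the cluster equals `A` iff `A` is connected from `x` by hyperedges contained in `A` and no
present hyperedge of `J` leaves `A` -/
lemma clus_eq_iff {J : Set ι} {ω : ι → ℕ} {x : V} {A : Set V} :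
    H.clus J ω x = A ↔ (x ∈ A ∧ (∀ y ∈ A, H.Conn {i ∈ J | (H.s i : Set V) ⊆ A} ω x y)) ∧
      ∀ i ∈ J, ω i ≠ 0 → i ∈ H.hit A → (H.s i : Set V) ⊆ A := by
  constructor
  · rintro rfl
    refine ⟨⟨mem_clus_self _ _ _, fun y hy => ?_⟩, fun i hi h0 hh => subset_clus hi h0 hh⟩
    have hy' : H.Conn J ω x y := hy
    induction hy' with
    | refl => exact Conn.refl x
    | @tail b c hab hbc ih =>
      obtain ⟨i, hi, h0, hb, hc⟩ := hbc
      refine Relation.ReflTransGen.tail (ih hab) ⟨i, ⟨hi, ?_⟩, h0, hb, hc⟩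
      exact subset_clus hi h0 ⟨b, hb, hab⟩
  · rintro ⟨⟨hx, h1⟩, h2⟩
    apply Set.Subset.antisymm
    · intro y hy
      have hy' : H.Conn J ω x y := hy
      induction hy' with
      | refl => exact hx
      | @tail b c hab hbc ih =>
        obtain ⟨i, hi, h0, hb, hc⟩ := hbc
        exact h2 i hi h0 ⟨b, hb, ih hab⟩ hc
    · intro y hy
      exact (h1 y hy).mono_set (fun i hi => hi.1)

/-! ### measurability -/

variable (ι) in
/-- the σ-algebra generated by the coordinates in `J` -/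
@[reducible]
def sig (J : Set ι) : MeasurableSpace (ι → ℕ) :=
  ⨆ i ∈ J, MeasurableSpace.comap (fun ω : ι → ℕ => ω i) ⊤

lemma sig_le (J : Set ι) : sig ι J ≤ MeasurableSpace.pi := by
  refine iSup₂_le fun i _ => ?_
  have h : Measurable (fun ω : ι → ℕ => ω i) := measurable_pi_apply i
  exact h.comap_le

lemma sig_mono {J J' : Set ι} (h : J ⊆ J') : sig ι J ≤ sig ι J' :=
  biSup_mono fun _ hi => h hi

lemma measurableSet_present {J : Set ι} {i : ι} (hi : i ∈ J) :
    MeasurableSet[sig ι J] {ω : ι → ℕ | ω i ≠ 0} := by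
  have h : MeasurableSpace.comap (fun ω : ι → ℕ => ω i) ⊤ ≤ sig ι J :=
    le_iSup₂ (f := fun i (_ : i ∈ J) => MeasurableSpace.comap (fun ω : ι → ℕ => ω i) ⊤) i hi
  exact h _ ⟨{n | n ≠ 0}, trivial, rfl⟩

variable [Countable ι]

lemma measurableSet_adj (J : Set ι) (x y : V) :
    MeasurableSet[sig ι J] {ω | H.Adj J ω x y} := by
  have h : {ω | H.Adj J ω x y} = ⋃ i : ι, ⋃ (_ : i ∈ J ∧ x ∈ H.s i ∧ y ∈ H.s i),
      {ω : ι → ℕ | ω i ≠ 0} := by
    ext ω
    simp only [Adj, mem_ofPred_eq, mem_iUnion, exists_prop]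
    constructor
    · rintro ⟨i, a, b, c, d⟩; exact ⟨i, ⟨a, c, d⟩, b⟩
    · rintro ⟨i, ⟨a, c, d⟩, b⟩; exact ⟨i, a, b, c, d⟩
  rw [h]
  refine MeasurableSet.iUnion fun i => MeasurableSet.iUnion fun hi => ?_
  exact measurableSet_present hi.1

variable [Countable V]

/-- connected by a chain of `n` hyperedges -/
def ConnN (H : HSys V ι) (J : Set ι) (ω : ι → ℕ) : ℕ → V → V → Prop
  | 0, x, y => x = y
  | n + 1, x, y => ∃ z, ConnN H J ω n x z ∧ H.Adj J ω z y

omit [Countable V] [Countable ι] in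
lemma conn_iff_connN {J : Set ι} {ω : ι → ℕ} {x y : V} :
    H.Conn J ω x y ↔ ∃ n, ConnN H J ω n x y := by
  constructor
  · intro h
    induction h with
    | refl => exact ⟨0, rfl⟩
    | @tail b c hab hbc ih =>
      obtain ⟨n, hn⟩ := ih
      exact ⟨n + 1, b, hn, hbc⟩
  · rintro ⟨n, hn⟩
    induction n generalizing y with
    | zero => cases hn; exact Conn.refl x
    | succ n ih =>
      obtain ⟨z, hz, hzy⟩ := hn
      exact Relation.ReflTransGen.tail (ih hz) hzy

lemma measurableSet_connN (J : Set ι) (n : ℕ) (x y : V) :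
    MeasurableSet[sig ι J] {ω | ConnN H J ω n x y} := by
  induction n generalizing y with
  | zero =>
    by_cases h : x = y
    · simp [ConnN, h]
    · simp [ConnN, h]
  | succ n ih =>
    have h : {ω | ConnN H J ω (n + 1) x y} = ⋃ z : V, {ω | ConnN H J ω n x z} ∩ {ω | H.Adj J ω z y} := by
      ext ω; simp [ConnN]
    rw [h]
    exact MeasurableSet.iUnion fun z => (ih z).inter (measurableSet_adj J z y)

lemma measurableSet_conn (J : Set ι) (x y : V) :
    MeasurableSet[sig ι J] {ω | H.Conn J ω x y} := by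
  have h : {ω | H.Conn J ω x y} = ⋃ n : ℕ, {ω | ConnN H J ω n x y} := by
    ext ω; simp [conn_iff_connN]
  rw [h]
  exact MeasurableSet.iUnion fun n => measurableSet_connN J n x y

lemma measurableSet_clus_eq (J : Set ι) (x : V) (A : Set V) :
    MeasurableSet[sig ι (J ∩ H.hit A)] {ω | H.clus J ω x = A} := by
  have h : {ω | H.clus J ω x = A} = {ω | x ∈ A} ∩
      (⋂ y : V, ⋂ (_ : y ∈ A), {ω | H.Conn {i ∈ J | (H.s i : Set V) ⊆ A} ω x y}) ∩
      ⋂ i : ι, ⋂ (_ : i ∈ J ∧ i ∈ H.hit A ∧ ¬ (H.s i : Set V) ⊆ A), {ω : ι → ℕ | ω i ≠ 0}ᶜ := by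
    ext ω
    simp only [mem_ofPred_eq, clus_eq_iff, mem_inter_iff, mem_iInter, mem_compl_iff]
    constructor
    · rintro ⟨⟨h1, h2⟩, h3⟩
      exact ⟨⟨h1, h2⟩, fun i hi h0 => hi.2.2 (h3 i hi.1 h0 hi.2.1)⟩
    · rintro ⟨⟨h1, h2⟩, h3⟩
      refine ⟨⟨h1, h2⟩, fun i hi h0 hh => ?_⟩
      by_contra hc
      exact h3 i ⟨hi, hh, hc⟩ h0
  by_cases hx : x ∈ A
  · rw [h]
    refine MeasurableSet.inter (MeasurableSet.inter ?_ ?_) ?_
    · simp [hx]
    · refine MeasurableSet.iInter fun y => MeasurableSet.iInter fun hy => ?_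
      -- if `s i ⊆ A` and `s i` nonempty then `i ∈ hit A`; empty hyperedges are useless
      have h2 : {ω | H.Conn {i ∈ J | (H.s i : Set V) ⊆ A} ω x y} =
          {ω | H.Conn {i ∈ J | (H.s i : Set V) ⊆ A ∧ i ∈ H.hit A} ω x y} := by
        ext ω
        constructor
        · intro hc
          refine Relation.ReflTransGen.mono (fun a b hab => ?_) _ _ hc
          obtain ⟨i, hi, h0, ha, hb⟩ := hab
          exact ⟨i, ⟨hi.1, hi.2, a, ha, hi.2 ha⟩, h0, ha, hb⟩
        · intro hc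
          exact Conn.mono_set (fun i hi => ⟨hi.1, hi.2.1⟩) hc
      rw [h2]
      have h5 : {i ∈ J | (H.s i : Set V) ⊆ A ∧ i ∈ H.hit A} ⊆ J ∩ H.hit A :=
        fun i hi => ⟨hi.1, hi.2.2⟩
      exact sig_mono h5 _ (measurableSet_conn _ x y)
    · refine MeasurableSet.iInter fun i => MeasurableSet.iInter fun hi => ?_
      exact (measurableSet_present (J := J ∩ H.hit A) ⟨hi.1, hi.2.1⟩).compl
  · have h3 : {ω | H.clus J ω x = A} = ∅ := by
      ext ω
      simp only [mem_ofPred_eq, mem_empty_iff_false, iff_false]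
      rintro rfl
      exact hx (mem_clus_self _ _ _)
    rw [h3]
    exact @MeasurableSet.empty _ (sig ι (J ∩ H.hit A))

end HSys

end Pool.Agent.LoopPerc
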