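import Pool.Agent.LoopPerc.Abs

/-!
# Independence and the exploration (Simon–Lieb type) inequality
-/

namespace Pool.Agent.LoopPerc.HSys

open MeasureTheory ProbabilityTheory Filter Topology Set
open scoped ENNReal NNReal

variable {V ι : Type*} {H : HSys V ι}

lemma iIndep_coord : iIndep (fun i : ι => MeasurableSpace.comap (fun ω : ι → ℕ => ω i) ⊤) H.P := by
  have h : iIndepFun (fun i (ω : ι → ℕ) => ω i) H.P :=
    iIndepFun_infinitePi (P := fun i => poissonMeasure (H.lam i)) (X := fun i (n : ℕ) => n)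
      (fun i => measurable_id)
  exact h

lemma indep_sig {J J' : Set ι} (h : Disjoint J J') : Indep (sig ι J) (sig ι J') H.P :=
  indep_iSup_of_disjoint
    (fun i => (measurable_pi_apply (X := fun _ : ι => ℕ) i).comap_le) iIndep_coord h

lemma P_inter {J J' : Set ι} (h : Disjoint J J') {E E' : Set (ι → ℕ)}
    (hE : MeasurableSet[sig ι J] E) (hE' : MeasurableSet[sig ι J'] E') :
    H.P (E ∩ E') = H.P E * H.P E' :=
  (Indep_iff _ _ _).1 (indep_sig h) E E' hE hE'

lemma P_present (i : ι) : H.P {ω | ω i ≠ 0} = ENNReal.ofReal (1 - Real.exp (-(H.lam i : ℝ))) := by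
  have h1 : H.P {ω | ω i ≠ 0} = poissonMeasure (H.lam i) {n | n ≠ 0} := by
    have h := Measure.infinitePi_map_eval (fun i => poissonMeasure (H.lam i)) i
    rw [← h, Measure.map_apply (measurable_pi_apply i) (by measurability)]
    rfl
  have h2 : ({n : ℕ | n ≠ 0}) = ({0} : Set ℕ)ᶜ := by ext; simp
  rw [h1, h2, prob_compl_eq_one_sub (measurableSet_singleton 0), poissonMeasure_singleton]
  rw [← ENNReal.ofReal_one, ← ENNReal.ofReal_sub _ (by positivity)]
  simp

lemma P_present_le (i : ι) : H.P {ω | ω i ≠ 0} ≤ H.lam i := by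
  rw [P_present]
  refine le_trans (ENNReal.ofReal_le_ofReal (q := (H.lam i : ℝ)) ?_) ?_
  · have := Real.add_one_le_exp (-(H.lam i : ℝ)); linarith
  · rw [ENNReal.ofReal_coe_nnreal]

variable [Countable V] [Countable ι]

/-- connected to the set `T` -/
def ConnT (H : HSys V ι) (J : Set ι) (ω : ι → ℕ) (x : V) (T : Set V) : Prop :=
  ∃ t ∈ T, H.Conn J ω x t

lemma measurableSet_connT (J : Set ι) (x : V) (T : Set V) :
    MeasurableSet[sig ι J] {ω | H.ConnT J ω x T} := by
  have h : {ω | H.ConnT J ω x T} = ⋃ t : V, ⋃ (_ : t ∈ T), {ω | H.Conn J ω x t} := by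
    ext ω; simp [ConnT]
  rw [h]
  exact MeasurableSet.iUnion fun t => MeasurableSet.iUnion fun _ => measurableSet_conn J x t

/-- some vertex of `W` is connected to `T` -/
def ConnWT (H : HSys V ι) (J : Set ι) (ω : ι → ℕ) (W T : Set V) : Prop :=
  ∃ v ∈ W, H.ConnT J ω v T

lemma measurableSet_connWT (J : Set ι) (W T : Set V) :
    MeasurableSet[sig ι J] {ω | H.ConnWT J ω W T} := by
  have h : {ω | H.ConnWT J ω W T} = ⋃ v : V, ⋃ (_ : v ∈ W), {ω | H.ConnT J ω v T} := by
    ext ω; simp [ConnWT]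
  rw [h]
  exact MeasurableSet.iUnion fun t => MeasurableSet.iUnion fun _ => measurableSet_connT J t T

/-- **Exploration inequality.** -/
theorem exploration {S J : Set ι} (x : V) (T : Set V)
    (hfin : ∀ᵐ ω ∂H.P, (H.clus S ω x).Finite) :
    H.P {ω | H.ConnT J ω x T ∧ ¬ H.ConnT S ω x T} ≤
      ∑' A : Finset V, H.P {ω | H.clus S ω x = A} *
        ∑' i : ι, ((J \ S) ∩ H.hit A).indicator
          (fun i => (H.lam i : ℝ≥0∞) * H.P {ω | H.ConnWT (J \ H.hit A) ω (H.s i) T}) i := by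
  classical
  have hsub : {ω | H.ConnT J ω x T ∧ ¬ H.ConnT S ω x T} ⊆
      {ω | ¬ (H.clus S ω x).Finite} ∪ ⋃ A : Finset V, ⋃ i : ι, ⋃ (_ : i ∈ (J \ S) ∩ H.hit A),
        ({ω | H.clus S ω x = A} ∩ ({ω | ω i ≠ 0} ∩
          {ω | H.ConnWT (J \ H.hit A) ω (H.s i) T})) := by
    rintro ω ⟨⟨t, ht, hct⟩, hn⟩
    by_cases hf : (H.clus S ω x).Finite
    · right
      have hA : ((hf.toFinset : Finset V) : Set V) = H.clus S ω x := hf.coe_toFinset
      have hy : t ∉ H.clus S ω x := fun h => hn ⟨t, ht, h⟩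
      obtain ⟨i, hi, h0, hh, v, hv, hvt⟩ := exists_exit hct hy
      simp only [mem_iUnion]
      refine ⟨hf.toFinset, i, ⟨hi, by rw [hA]; exact hh⟩, hA.symm, h0, v, hv, t, ht, ?_⟩
      rw [hA]; exact hvt
    · left; exact hf
  refine (measure_mono hsub).trans ((measure_union_le _ _).trans ?_)
  have h0 : H.P {ω | ¬ (H.clus S ω x).Finite} = 0 := hfin
  rw [h0, zero_add]
  refine (measure_iUnion_le _).trans (ENNReal.tsum_le_tsum fun A => ?_)
  refine (measure_iUnion_le _).trans ?_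
  rw [← ENNReal.tsum_mul_left]
  refine ENNReal.tsum_le_tsum fun i => ?_
  by_cases hi : i ∈ (J \ S) ∩ H.hit A
  · rw [indicator_of_mem hi]
    have h1 : (⋃ (_ : i ∈ (J \ S) ∩ H.hit A),
        ({ω | H.clus S ω x = A} ∩ ({ω | ω i ≠ 0} ∩
          {ω | H.ConnWT (J \ H.hit A) ω (H.s i) T}))) =
        ({ω | H.clus S ω x = A} ∩ ({ω | ω i ≠ 0} ∩
          {ω | H.ConnWT (J \ H.hit A) ω (H.s i) T})) := by
      ext ω; simp [hi.1.1, hi.1.2, hi.2]
    rw [h1]
    have e1 : MeasurableSet[sig ι (S ∩ H.hit A)] {ω | H.clus S ω x = A} :=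
      measurableSet_clus_eq S x A
    have e2 : MeasurableSet[sig ι ({i} : Set ι)] {ω : ι → ℕ | ω i ≠ 0} :=
      measurableSet_present rfl
    have e3 : MeasurableSet[sig ι (J \ H.hit A)] {ω | H.ConnWT (J \ H.hit A) ω (H.s i) T} :=
      measurableSet_connWT _ _ _
    have e4 : MeasurableSet[sig ι ({i} ∪ (J \ H.hit A))]
        ({ω : ι → ℕ | ω i ≠ 0} ∩ {ω | H.ConnWT (J \ H.hit A) ω (H.s i) T}) :=
      @MeasurableSet.inter _ (sig ι ({i} ∪ (J \ H.hit A))) _ _
        (sig_mono subset_union_left _ e2) (sig_mono subset_union_right _ e3)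
    have d1 : Disjoint (S ∩ H.hit A) ({i} ∪ (J \ H.hit A)) := by
      rw [Set.disjoint_left]
      rintro j ⟨hj1, hj2⟩ (hj | hj)
      · rw [mem_singleton_iff] at hj; subst hj; exact hi.1.2 hj1
      · exact hj.2 hj2
    have d2 : Disjoint ({i} : Set ι) (J \ H.hit A) := by
      rw [Set.disjoint_left]
      rintro j hj hj'
      rw [mem_singleton_iff] at hj; subst hj; exact hj'.2 hi.2
    rw [P_inter d1 e1 e4, P_inter d2 e2 e3]
    gcongr
    exact P_present_le i
  · have h1 : (⋃ (_ : i ∈ (J \ S) ∩ H.hit A),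
        ({ω | H.clus S ω x = A} ∩ ({ω | ω i ≠ 0} ∩
          {ω | H.ConnWT (J \ H.hit A) ω (H.s i) T}))) = ∅ := by
      rw [iUnion_eq_empty]
      intro h; exact absurd h hi
    rw [h1]; simp

end Pool.Agent.LoopPerc.HSys
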