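import Pool.Agent.LoopPerc.Walk

/-!
# Consequences of the exploration inequality, translation invariance
-/

namespace Pool.Agent.LoopPerc.HSys

open MeasureTheory ProbabilityTheory Filter Topology Set
open scoped ENNReal NNReal

section general

variable {V ι : Type*} {H : HSys V ι} [Countable V] [Countable ι]

/-- connection probability -/
noncomputable def tau (H : HSys V ι) (J : Set ι) (x y : V) : ℝ≥0∞ := H.P {ω | H.Conn J ω x y}

/-- probability of a connection to a set -/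
noncomputable def tauT (H : HSys V ι) (J : Set ι) (x : V) (T : Set V) : ℝ≥0∞ :=
  H.P {ω | H.ConnT J ω x T}

omit [Countable V] [Countable ι] in
lemma tau_symm (J : Set ι) (x y : V) : H.tau J x y = H.tau J y x := by
  unfold tau
  congr 1
  ext ω
  exact ⟨Conn.symm, Conn.symm⟩

omit [Countable V] [Countable ι] in
lemma tau_mono {J J' : Set ι} (h : J ⊆ J') (x y : V) : H.tau J x y ≤ H.tau J' x y :=
  measure_mono fun _ hω => Conn.mono_set h hω

omit [Countable V] [Countable ι] in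
lemma tauT_mono {J J' : Set ι} (h : J ⊆ J') (x : V) (T : Set V) : H.tauT J x T ≤ H.tauT J' x T := by
  refine measure_mono ?_
  rintro ω ⟨t, ht, hc⟩
  exact ⟨t, ht, hc.mono_set h⟩

omit [Countable V] [Countable ι] in
lemma tauT_mono_target (J : Set ι) (x : V) {T T' : Set V} (h : T ⊆ T') :
    H.tauT J x T ≤ H.tauT J x T' := by
  refine measure_mono ?_
  rintro ω ⟨t, ht, hc⟩
  exact ⟨t, h ht, hc⟩

omit [Countable V] [Countable ι] in
lemma tau_le_one (J : Set ι) (x y : V) : H.tau J x y ≤ 1 := prob_le_one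

omit [Countable V] [Countable ι] in
lemma tauT_le_one (J : Set ι) (x : V) (T : Set V) : H.tauT J x T ≤ 1 := prob_le_one

omit [Countable V] [Countable ι] in
lemma tauT_singleton (J : Set ι) (x y : V) : H.tauT J x {y} = H.tau J x y := by
  unfold tauT tau ConnT
  simp

omit [Countable V] [Countable ι] in
lemma connWT_le (J : Set ι) (W : Finset V) (T : Set V) :
    H.P {ω | H.ConnWT J ω W T} ≤ ∑ v ∈ W, H.tauT J v T := by
  have h : {ω | H.ConnWT J ω W T} ⊆ ⋃ v ∈ W, {ω | H.ConnT J ω v T} := by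
    rintro ω ⟨v, hv, h⟩
    exact mem_biUnion hv h
  exact (measure_mono h).trans (measure_biUnion_finset_le _ _)

/-- **Exploration inequality**, restricted to a family `𝒜` of possible inner clusters. -/
theorem exploration_mem {S J : Set ι} (x : V) (T : Set V) (𝒜 : Set (Finset V)) :
    H.P {ω | H.ConnT J ω x T ∧ ∃ A ∈ 𝒜, H.clus S ω x = A ∧ Disjoint (A : Set V) T} ≤
      ∑' A : Finset V, 𝒜.indicator (fun A : Finset V => H.P {ω | H.clus S ω x = A} *
        ∑' i : ι, ((J \ S) ∩ H.hit A).indicator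
          (fun i => (H.lam i : ℝ≥0∞) * H.P {ω | H.ConnWT (J \ H.hit A) ω (H.s i) T}) i) A := by
  classical
  have hsub : {ω | H.ConnT J ω x T ∧ ∃ A ∈ 𝒜, H.clus S ω x = A ∧ Disjoint (A : Set V) T} ⊆
      ⋃ A : Finset V, ⋃ (_ : A ∈ 𝒜), ⋃ i : ι, ⋃ (_ : i ∈ (J \ S) ∩ H.hit A),
        ({ω | H.clus S ω x = A} ∩ ({ω | ω i ≠ 0} ∩
          {ω | H.ConnWT (J \ H.hit A) ω (H.s i) T})) := by
    rintro ω ⟨⟨t, ht, hct⟩, A, hA𝒜, hA, hdis⟩
    have hy : t ∉ H.clus S ω x := by
      rw [hA]; exact fun h => (Set.disjoint_left.1 hdis) h ht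
    obtain ⟨i, hi, h0, hh, v, hv, hvt⟩ := exists_exit hct hy
    simp only [mem_iUnion]
    refine ⟨A, hA𝒜, i, ⟨hi, by rw [← hA]; exact hh⟩, hA, h0, v, hv, t, ht, ?_⟩
    rw [← hA]; exact hvt
  refine (measure_mono hsub).trans ?_
  refine (measure_iUnion_le _).trans (ENNReal.tsum_le_tsum fun A => ?_)
  by_cases hA𝒜 : A ∈ 𝒜
  swap
  · have : (⋃ (_ : A ∈ 𝒜), ⋃ i : ι, ⋃ (_ : i ∈ (J \ S) ∩ H.hit A),
        ({ω | H.clus S ω x = A} ∩ ({ω | ω i ≠ 0} ∩
          {ω | H.ConnWT (J \ H.hit A) ω (H.s i) T}))) = ∅ := by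
      rw [iUnion_eq_empty]; intro h; exact absurd h hA𝒜
    rw [this]; simp
  rw [indicator_of_mem hA𝒜]
  have hU : (⋃ (_ : A ∈ 𝒜), ⋃ i : ι, ⋃ (_ : i ∈ (J \ S) ∩ H.hit A),
        ({ω | H.clus S ω x = A} ∩ ({ω | ω i ≠ 0} ∩
          {ω | H.ConnWT (J \ H.hit A) ω (H.s i) T}))) = ⋃ i : ι, ⋃ (_ : i ∈ (J \ S) ∩ H.hit A),
        ({ω | H.clus S ω x = A} ∩ ({ω | ω i ≠ 0} ∩
          {ω | H.ConnWT (J \ H.hit A) ω (H.s i) T})) := by ext ω; simp only [mem_iUnion, hA𝒜, exists_prop, true_and]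
  rw [hU]
  refine (measure_iUnion_le _).trans ?_
  rw [← ENNReal.tsum_mul_left]
  refine ENNReal.tsum_le_tsum fun i => ?_
  by_cases hi : i ∈ (J \ S) ∩ H.hit A
  · rw [indicator_of_mem hi]
    have h1 : (⋃ (_ : i ∈ (J \ S) ∩ H.hit A),
        ({ω | H.clus S ω x = A} ∩ ({ω | ω i ≠ 0} ∩
          {ω | H.ConnWT (J \ H.hit A) ω (H.s i) T}))) =
        ({ω | H.clus S ω x = A} ∩ ({ω | ω i ≠ 0} ∩
          {ω | H.ConnWT (J \ H.hit A) ω (H.s i) T})) := by
      ext ω; simp [hi.1.1, hi.1.2, hi.2]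
    rw [h1]
    have e1 : MeasurableSet[sig ι (S ∩ H.hit A)] {ω | H.clus S ω x = A} :=
      measurableSet_clus_eq S x A
    have e2 : MeasurableSet[sig ι ({i} : Set ι)] {ω : ι → ℕ | ω i ≠ 0} :=
      measurableSet_present rfl
    have e3 : MeasurableSet[sig ι (J \ H.hit A)] {ω | H.ConnWT (J \ H.hit A) ω (H.s i) T} :=
      measurableSet_connWT _ _ _
    have e4 : MeasurableSet[sig ι ({i} ∪ (J \ H.hit A))]
        ({ω : ι → ℕ | ω i ≠ 0} ∩ {ω | H.ConnWT (J \ H.hit A) ω (H.s i) T}) :=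
      @MeasurableSet.inter _ (sig ι ({i} ∪ (J \ H.hit A))) _ _
        (sig_mono subset_union_left _ e2) (sig_mono subset_union_right _ e3)
    have d1 : Disjoint (S ∩ H.hit A) ({i} ∪ (J \ H.hit A)) := by
      rw [Set.disjoint_left]
      rintro j ⟨hj1, hj2⟩ (hj | hj)
      · rw [mem_singleton_iff] at hj; subst hj; exact hi.1.2 hj1
      · exact hj.2 hj2
    have d2 : Disjoint ({i} : Set ι) (J \ H.hit A) := by
      rw [Set.disjoint_left]
      rintro j hj hj'
      rw [mem_singleton_iff] at hj; subst hj; exact hj'.2 hi.2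
    rw [P_inter d1 e1 e4, P_inter d2 e2 e3]
    gcongr
    exact P_present_le i
  · have h1 : (⋃ (_ : i ∈ (J \ S) ∩ H.hit A),
        ({ω | H.clus S ω x = A} ∩ ({ω | ω i ≠ 0} ∩
          {ω | H.ConnWT (J \ H.hit A) ω (H.s i) T}))) = ∅ := by
      rw [iUnion_eq_empty]
      intro h; exact absurd h hi
    rw [h1]; simp

/-- sums over the cluster law, in terms of connection probabilities -/
lemma tsum_clus_mul_sum_le (S : Set ι) (x : V) (f : V → ℝ≥0∞) :
    ∑' A : Finset V, H.P {ω | H.clus S ω x = A} * ∑ u ∈ A, f u ≤ ∑' u, H.tau S x u * f u := by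
  classical
  have h1 : ∀ A : Finset V, H.P {ω | H.clus S ω x = A} * ∑ u ∈ A, f u =
      ∑' u : V, (if u ∈ A then H.P {ω | H.clus S ω x = A} * f u else 0) := by
    intro A
    rw [Finset.mul_sum, tsum_eq_sum (s := A)]
    · exact Finset.sum_congr rfl fun u hu => by rw [if_pos hu]
    · intro u hu; rw [if_neg hu]
  simp_rw [h1]
  rw [ENNReal.tsum_comm]
  refine ENNReal.tsum_le_tsum fun u => ?_
  have h2 : ∀ A : Finset V, (if u ∈ A then H.P {ω | H.clus S ω x = A} * f u else 0) =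
      H.P ({ω | H.clus S ω x = A} ∩ {ω | H.Conn S ω x u}) * f u := by
    intro A
    split_ifs with h
    · congr 2
      ext ω
      constructor
      · intro h1
        refine ⟨h1, ?_⟩
        have : u ∈ H.clus S ω x := by rw [h1]; exact h
        exact this
      · exact fun h => h.1
    · have : {ω | H.clus S ω x = A} ∩ {ω | H.Conn S ω x u} = ∅ := by
        ext ω
        simp only [mem_inter_iff, mem_ofPred_eq, mem_empty_iff_false, iff_false, not_and]
        intro h1 h2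
        have : u ∈ H.clus S ω x := h2
        rw [h1] at this
        exact h this
      rw [this]; simp
  simp_rw [h2]
  rw [ENNReal.tsum_mul_right]
  gcongr
  rw [← measure_iUnion]
  · refine measure_mono ?_
    refine iUnion_subset fun A => inter_subset_right
  · intro A B hAB
    rw [Function.onFun, Set.disjoint_left]
    rintro ω ⟨h1, _⟩ ⟨h2, _⟩
    apply hAB
    have : (A : Set V) = B := by rw [← h1, ← h2]
    exact_mod_cast this
  · intro A
    refine MeasurableSet.inter ?_ ?_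
    · exact sig_le _ _ (measurableSet_clus_eq S x A)
    · exact sig_le _ _ (measurableSet_conn S x u)

/-- rate sum over the hyperedges of `K` that contain `u`, with weight `g` -/
noncomputable def rate (H : HSys V ι) (K : Set ι) (u : V) (g : ι → ℝ≥0∞) : ℝ≥0∞ :=
  ∑' i : ι, (K ∩ {i | u ∈ H.s i}).indicator (fun i => (H.lam i : ℝ≥0∞) * g i) i

omit [Countable V] [Countable ι] in
lemma hit_sum_le (K : Set ι) (A : Finset V) (g : ι → ℝ≥0∞) :
    ∑' i : ι, (K ∩ H.hit A).indicator (fun i => (H.lam i : ℝ≥0∞) * g i) i ≤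
      ∑ u ∈ A, H.rate K u g := by
  unfold rate
  rw [← Summable.tsum_finsetSum fun _ _ => ENNReal.summable]
  refine ENNReal.tsum_le_tsum fun i => ?_
  by_cases hi : i ∈ K ∩ H.hit A
  · rw [indicator_of_mem hi]
    obtain ⟨hK, u, hu, huA⟩ := hi
    refine le_trans ?_ (Finset.single_le_sum (fun _ _ => zero_le) (Finset.mem_coe.1 huA))
    rw [indicator_of_mem (show i ∈ K ∩ {i | u ∈ H.s i} from ⟨hK, hu⟩)]
  · rw [indicator_of_notMem hi]; exact zero_le

/-- exploration inequality in summed form -/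
theorem exploration_sum {S J : Set ι} (x : V) (T : Set V)
    (hfin : ∀ᵐ ω ∂H.P, (H.clus S ω x).Finite) (g : ι → ℝ≥0∞)
    (hg : ∀ i ∈ J \ S, ∀ A : Finset V, i ∈ H.hit A →
      H.P {ω | H.ConnWT (J \ H.hit A) ω (H.s i) T} ≤ g i) :
    H.P {ω | H.ConnT J ω x T ∧ ¬ H.ConnT S ω x T} ≤
      ∑' u, H.tau S x u * H.rate (J \ S) u g := by
  refine (exploration x T hfin).trans ?_
  refine le_trans ?_ (tsum_clus_mul_sum_le S x _)
  refine ENNReal.tsum_le_tsum fun A => ?_
  gcongr
  refine le_trans ?_ (hit_sum_le (J \ S) A g)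
  refine ENNReal.tsum_le_tsum fun i => ?_
  by_cases hi : i ∈ (J \ S) ∩ H.hit A
  · rw [indicator_of_mem hi, indicator_of_mem hi]
    gcongr
    exact hg i hi.1 A hi.2
  · rw [indicator_of_notMem hi, indicator_of_notMem hi]

/-- probability bound for a connection, split according to the inner cluster -/
theorem tauT_le {S J : Set ι} (x : V) (T : Set V)
    (hfin : ∀ᵐ ω ∂H.P, (H.clus S ω x).Finite) (g : ι → ℝ≥0∞)
    (hg : ∀ i ∈ J \ S, ∀ A : Finset V, i ∈ H.hit A →
      H.P {ω | H.ConnWT (J \ H.hit A) ω (H.s i) T} ≤ g i) :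
    H.tauT J x T ≤ H.tauT S x T + ∑' u, H.tau S x u * H.rate (J \ S) u g := by
  have h : {ω | H.ConnT J ω x T} ⊆ {ω | H.ConnT S ω x T} ∪
      {ω | H.ConnT J ω x T ∧ ¬ H.ConnT S ω x T} := by
    intro ω hω
    by_cases h : H.ConnT S ω x T
    · left; exact h
    · right; exact ⟨hω, h⟩
  refine (measure_mono h).trans ((measure_union_le _ _).trans ?_)
  exact add_le_add le_rfl (exploration_sum x T hfin g hg)

end general

end Pool.Agent.LoopPerc.HSys
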