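import Pool.Agent.LoopPerc.Trans

/-!
# A priori bounds in the subcritical phase
-/

namespace Pool.Agent.LoopPerc

open MeasureTheory ProbabilityTheory Filter Topology Set
open scoped ENNReal NNReal

/-- dominated convergence to zero for sums in `ℝ≥0∞` -/
lemma tsum_tendsto_zero_of_dominated {α : Type*} [Countable α] (f : ℕ → α → ℝ≥0∞) (g : α → ℝ≥0∞)
    (hg : ∑' a, g a ≠ ⊤) (hle : ∀ n a, f n a ≤ g a)
    (hlim : ∀ a, Tendsto (fun n => f n a) atTop (𝓝 0)) :
    Tendsto (fun n => ∑' a, f n a) atTop (𝓝 0) := by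
  let _ : MeasurableSpace α := ⊤
  have _ : MeasurableSingletonClass α := ⟨fun _ => trivial⟩
  have h := tendsto_lintegral_of_dominated_convergence (μ := (Measure.count : Measure α))
    (F := f) (f := fun _ => 0) g (fun n => measurable_from_top)
    (fun n => Eventually.of_forall (hle n)) (by rwa [lintegral_count]) (Eventually.of_forall hlim)
  simpa [lintegral_count] using h

/-- dyadic iteration -/
lemma dyadic_decay (f : ℝ → ℝ≥0∞) (hf1 : ∀ r, f r ≤ 1) (s : ℝ) (hs : 0 ≤ s) (θ : ℝ≥0∞)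
    (C : ℝ) (r₀ : ℝ) (hr₀ : 1 ≤ r₀)
    (hθ : θ ≤ ENNReal.ofReal ((2 : ℝ) ^ (-s) / 2))
    (h : ∀ r, r₀ ≤ r → f r ≤ θ * f (r / 2) + ENNReal.ofReal (C * r ^ (-s))) :
    ∃ C' : ℝ, 0 < C' ∧ ∀ r, 0 < r → f r ≤ ENNReal.ofReal (C' * r ^ (-s)) := by
  set C' := max (r₀ ^ s) (2 * |C| + 1) with hC'
  have hC'0 : 0 < C' := lt_of_lt_of_le (by positivity) (le_max_right _ _)
  have hbase : ∀ r, 0 < r → r ≤ r₀ → f r ≤ ENNReal.ofReal (C' * r ^ (-s)) := by
    intro r hr0 hr
    refine (hf1 r).trans ?_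
    rw [← ENNReal.ofReal_one]
    refine ENNReal.ofReal_le_ofReal ?_
    have h1 : r ^ s ≤ r₀ ^ s := Real.rpow_le_rpow hr0.le hr hs
    have h2 : r ^ s * r ^ (-s) = 1 := by rw [← Real.rpow_add hr0]; simp
    have h3 : 0 < r ^ (-s) := Real.rpow_pos_of_pos hr0 _
    calc (1 : ℝ) = r ^ s * r ^ (-s) := h2.symm
      _ ≤ C' * r ^ (-s) := by
        apply mul_le_mul_of_nonneg_right _ h3.le
        exact h1.trans (le_max_left _ _)
  have hstep : ∀ k : ℕ, ∀ r, 0 < r → r ≤ r₀ * 2 ^ k → f r ≤ ENNReal.ofReal (C' * r ^ (-s)) := by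
    intro k
    induction k with
    | zero => intro r hr0 hr; exact hbase r hr0 (by simpa using hr)
    | succ k ih =>
      intro r hr0 hr
      by_cases hrr : r ≤ r₀
      · exact hbase r hr0 hrr
      · push Not at hrr
        have h1 := h r hrr.le
        have h2 := ih (r / 2) (by positivity) (by rw [pow_succ] at hr; linarith)
        refine h1.trans ?_
        have h3 : (r / 2) ^ (-s) = 2 ^ s * r ^ (-s) := by
          rw [Real.div_rpow hr0.le (by norm_num), Real.rpow_neg (by norm_num : (0:ℝ) ≤ 2)]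
          field_simp
        have h4 : θ * f (r / 2) ≤ ENNReal.ofReal (C' / 2 * r ^ (-s)) := by
          refine (mul_le_mul' hθ h2).trans ?_
          rw [← ENNReal.ofReal_mul (by positivity)]
          refine ENNReal.ofReal_le_ofReal ?_
          rw [h3]
          have h5 : (2 : ℝ) ^ (-s) * 2 ^ s = 1 := by
            rw [← Real.rpow_add (by norm_num)]; simp
          calc (2 : ℝ) ^ (-s) / 2 * (C' * (2 ^ s * r ^ (-s)))
              = (2 : ℝ) ^ (-s) * 2 ^ s * (C' / 2 * r ^ (-s)) := by ring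
            _ = C' / 2 * r ^ (-s) := by rw [h5, one_mul]
            _ ≤ C' / 2 * r ^ (-s) := le_rfl
        refine (add_le_add h4 le_rfl).trans ?_
        have h6 : 0 < r ^ (-s) := Real.rpow_pos_of_pos hr0 _
        have h7 : C * r ^ (-s) ≤ C' / 2 * r ^ (-s) := by
          apply mul_le_mul_of_nonneg_right _ h6.le
          have : 2 * |C| + 1 ≤ C' := le_max_right _ _
          have := le_abs_self C
          linarith
        refine (add_le_add le_rfl (ENNReal.ofReal_le_ofReal h7)).trans ?_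
        rw [← ENNReal.ofReal_add (by positivity) (by positivity)]
        refine ENNReal.ofReal_le_ofReal (le_of_eq (by ring))
  refine ⟨C', hC'0, fun r hr0 => ?_⟩
  obtain ⟨k, hk⟩ := pow_unbounded_of_one_lt (r / r₀) (by norm_num : (1 : ℝ) < 2)
  refine hstep k r hr0 ?_
  rw [div_lt_iff₀ (by linarith)] at hk
  linarith

end Pool.Agent.LoopPerc
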