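import Pool.Agent.LoopPerc.Limit2f

/-!
# The limit of the one-arm probability
-/

namespace Pool.Agent.LoopPerc.HSys

open MeasureTheory ProbabilityTheory Filter Topology Set
open scoped ENNReal NNReal

variable {d : ℕ} {ι : Type*} {H : HSys (Lat d) ι} [Countable ι] (sh : H.Shift)

/-- complement of the open ball -/
def far (d : ℕ) (r : ℝ) : Set (Lat d) := {y | r ≤ ‖y‖}

omit [Countable ι] in
lemma arm_eq (r : ℝ) : H.arm r = H.tauT Set.univ 0 (far d r) := rfl

omit [Countable ι] in
lemma arm_anti : Antitone H.arm := by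
  intro r r' h
  exact tauT_mono_target _ _ fun y hy => h.trans hy

include sh in
lemma tauT_far_le {v : Lat d} {r ρ : ℝ} (h : ρ ≤ r - ‖v‖) (J : Set ι) :
    H.tauT J v (far d r) ≤ H.arm ρ := by
  refine (tauT_mono (subset_univ _) _ _).trans ?_
  have h5 := sh.tauT_shift v Set.univ 0 (far d r)
  rw [zero_add, preimage_univ] at h5
  rw [h5]
  refine tauT_mono_target _ _ ?_
  intro y hy
  have hy' : r ≤ ‖y + v‖ := hy
  have := norm_add_le y v
  simp only [mem_ofPred_eq]
  linarith

include sh in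
/-- small hyperedges do not connect to distance `ε r` -/
lemma tauT_small_le (hchi : H.chi ≠ ⊤) {t : ℝ} (ht : 0 < t) :
    H.tauT (H.small (t / 4)) 0 (far d t) ≤ H.kap (t / 4) * H.arm (t / 2) := by
  set S := H.ins (t / 4) ∩ H.small (t / 4) with hS
  have h1 := tauT_le (H := H) (S := S) (J := H.small (t / 4)) 0 (far d t)
    (clus_finite sh hchi _ _) (fun i => ∑ v ∈ H.s i, H.tauT (H.small (t / 4)) v (far d t)) (by
      intro i _ A _
      refine (connWT_le _ _ _).trans (Finset.sum_le_sum fun v _ => ?_)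
      exact tauT_mono sdiff_subset _ _)
  refine h1.trans ?_
  have h0 : H.tauT S 0 (far d t) = 0 := by
    refine le_antisymm ?_ zero_le
    refine (tauT_mono inter_subset_left _ _).trans (le_of_eq ?_)
    refine tauT_ins_eq_zero ?_
    intro y hy
    have hy' : t ≤ ‖y‖ := hy
    exact ⟨by rintro rfl; simp at hy'; linarith, by linarith⟩
  rw [h0, zero_add]
  unfold kap
  rw [← ENNReal.tsum_mul_right]
  refine ENNReal.tsum_le_tsum fun u => ?_
  by_cases hu : H.tau S 0 u = 0
  · rw [hu]; simp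
  have huR : ‖u‖ < t / 4 := by
    by_contra hc
    push Not at hc
    have hu0 : u ≠ 0 := by rintro rfl; simp at hc; linarith
    refine hu (le_antisymm ((tau_mono inter_subset_left _ _).trans ?_) zero_le)
    exact (tau_ins_eq_zero hu0 hc).le
  rw [mul_assoc]
  refine mul_le_mul' (tau_mono (subset_univ _) _ _) ?_
  rw [← rate_mul_const]
  have hsub : H.small (t / 4) \ S ⊆ H.small (t / 4) ∩ H.out (t / 4) := by
    rintro i ⟨hi, hi'⟩
    refine ⟨hi, ?_⟩
    by_contra hc
    exact hi' ⟨hc, hi⟩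
  refine (rate_mono_set hsub _ _).trans ?_
  refine le_trans ?_ (rate_mono_set (K := H.small (t / 4) ∩ H.out (t / 4))
    inter_subset_right _ _)
  unfold rate
  refine ENNReal.tsum_le_tsum fun i => ?_
  by_cases hi : i ∈ H.small (t / 4) ∩ H.out (t / 4) ∩ {i | u ∈ H.s i}
  · rw [indicator_of_mem hi, indicator_of_mem hi]
    refine mul_le_mul' le_rfl ?_
    change ∑ v ∈ H.s i, H.tauT (H.small (t / 4)) v (far d t) ≤
      ((H.s i).card : ℝ≥0∞) * H.arm (t / 2)
    rw [← nsmul_eq_mul, ← Finset.sum_const]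
    refine Finset.sum_le_sum fun v hv => ?_
    refine tauT_far_le sh ?_ _
    have h3 := hi.1.1 v hv u hi.2
    have h5 : ‖v‖ ≤ ‖v - u‖ + ‖u‖ := by
      have := norm_add_le (v - u) u; simpa using this
    linarith
  · rw [indicator_of_notMem hi, indicator_of_notMem hi]

/-- main sum for the one-arm probability -/
noncomputable def AT (H : HSys (Lat d) ι) (ε r : ℝ) : ℝ≥0∞ :=
  ∑' A : Finset (Lat d), H.law A * H.mass (H.hit (nearx (ε * r) 0 A) ∩ H.out ((1 - ε) * r))

include sh in
/-- upper bound for the one-arm probability -/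
lemma arm_le (hchi : H.chi ≠ ⊤) {ε r : ℝ} (hε : 0 < ε) (hr : 0 < r) (hε1 : ε ≤ 1) :
    H.arm r ≤ H.AT ε r + (H.kap (ε * r / 4) * H.arm (ε * r / 2) +
      H.chi * H.kb (ε * r / 4) * H.arm (ε * r)) := by
  classical
  set S := H.small (ε * r / 4) with hS
  set B := H.big (ε * r / 4) with hB
  have hεr : ε * r ≤ r := by nlinarith
  have hsub : {ω | H.ConnT Set.univ ω 0 (far d r)} ⊆
      ({ω | H.ConnT S ω 0 (far d (ε * r))} ∪ {ω | ¬ (H.clus S ω 0).Finite}) ∪
      {ω | H.ConnT Set.univ ω 0 (far d r) ∧ ∃ A ∈ {A : Finset (Lat d) | ∀ y ∈ A, ‖y‖ < ε * r},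
        H.clus S ω 0 = A ∧ Disjoint (A : Set (Lat d)) (far d r)} := by
    intro ω hω
    by_cases h : H.ConnT S ω 0 (far d (ε * r))
    · left; left; exact h
    · by_cases hf : (H.clus S ω 0).Finite
      · right
        refine ⟨hω, hf.toFinset, ?_, by simp, ?_⟩
        · intro y hy
          rw [Set.Finite.mem_toFinset] at hy
          by_contra hc
          exact h ⟨y, not_lt.1 hc, hy⟩
        · rw [Set.disjoint_left]
          intro y hy hy'
          have hy1 : y ∈ H.clus S ω 0 := by simpa using hy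
          exact h ⟨y, hεr.trans hy', hy1⟩
      · left; right; exact hf
  have h0 : H.P {ω | ¬ (H.clus S ω 0).Finite} = 0 := clus_finite sh hchi S 0
  rw [arm_eq]
  unfold tauT
  refine (measure_mono hsub).trans ((measure_union_le _ _).trans ?_)
  rw [add_comm]
  have hpart1 : H.P ({ω | H.ConnT S ω 0 (far d (ε * r))} ∪ {ω | ¬ (H.clus S ω 0).Finite}) ≤
      H.kap (ε * r / 4) * H.arm (ε * r / 2) := by
    refine (measure_union_le _ _).trans ?_
    rw [h0, add_zero]
    exact tauT_small_le sh hchi (by positivity)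
  have hd : Set.univ \ S = B := by ext i; simp [hS, hB, big]
  have hpart2 : H.P {ω | H.ConnT Set.univ ω 0 (far d r) ∧
      ∃ A ∈ {A : Finset (Lat d) | ∀ y ∈ A, ‖y‖ < ε * r},
        H.clus S ω 0 = A ∧ Disjoint (A : Set (Lat d)) (far d r)} ≤
      H.AT ε r + H.chi * H.kb (ε * r / 4) * H.arm (ε * r) := by
    refine (exploration_mem (H := H) (S := S) (J := Set.univ) 0 (far d r) _).trans ?_
    rw [hd]
    have h1 : ∀ A : Finset (Lat d), {A : Finset (Lat d) | ∀ y ∈ A, ‖y‖ < ε * r}.indicator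
        (fun A : Finset (Lat d) => H.P {ω | H.clus S ω 0 = A} *
          ∑' i : ι, (B ∩ H.hit A).indicator
            (fun i => (H.lam i : ℝ≥0∞) *
              H.P {ω | H.ConnWT (Set.univ \ H.hit A) ω (H.s i) (far d r)}) i) A ≤
        H.P {ω | H.clus S ω 0 = A} *
          H.mass (H.hit (nearx (ε * r) 0 A) ∩ H.out ((1 - ε) * r)) +
        H.P {ω | H.clus S ω 0 = A} * ∑ u ∈ A, H.kb (ε * r / 4) * H.arm (ε * r) := by
      intro A
      by_cases hA : A ∈ {A : Finset (Lat d) | ∀ y ∈ A, ‖y‖ < ε * r}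
      swap
      · rw [indicator_of_notMem hA]; exact zero_le
      rw [indicator_of_mem hA, ← mul_add]
      refine mul_le_mul' le_rfl ?_
      have hnear : nearx (ε * r) 0 A = A :=
        Finset.filter_true_of_mem fun y hy => by rw [sub_zero]; exact hA y hy
      rw [hnear]
      have h2 : ∀ i, (B ∩ H.hit A).indicator (fun i => (H.lam i : ℝ≥0∞) *
          H.P {ω | H.ConnWT (Set.univ \ H.hit A) ω (H.s i) (far d r)}) i ≤
          (H.hit A ∩ H.out ((1 - ε) * r)).indicator (fun i => (H.lam i : ℝ≥0∞)) i +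
          (B ∩ H.hit A).indicator (fun i => (H.lam i : ℝ≥0∞) *
            (((H.s i).card : ℝ≥0∞) * H.arm (ε * r))) i := by
        intro i
        by_cases hi : i ∈ B ∩ H.hit A
        swap
        · rw [indicator_of_notMem hi]; exact zero_le
        rw [indicator_of_mem hi, indicator_of_mem hi]
        by_cases ho : i ∈ H.out ((1 - ε) * r)
        · rw [indicator_of_mem (show i ∈ H.hit A ∩ H.out ((1 - ε) * r) from ⟨hi.2, ho⟩)]
          refine le_trans ?_ le_self_add
          calc (H.lam i : ℝ≥0∞) * H.P {ω | H.ConnWT (Set.univ \ H.hit A) ω (H.s i) (far d r)}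
              ≤ (H.lam i : ℝ≥0∞) * 1 := mul_le_mul' le_rfl prob_le_one
            _ = _ := mul_one _
        · refine le_trans ?_ le_add_self
          refine mul_le_mul' le_rfl ?_
          refine (connWT_le _ _ _).trans ?_
          rw [← nsmul_eq_mul, ← Finset.sum_const]
          refine Finset.sum_le_sum fun v hv => ?_
          refine tauT_far_le sh ?_ _
          have hv' : ‖v‖ < (1 - ε) * r := by
            by_contra hc
            exact ho ⟨v, hv, not_lt.1 hc⟩
          linarith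
      refine (ENNReal.tsum_le_tsum h2).trans ?_
      rw [ENNReal.tsum_add]
      refine add_le_add le_rfl ?_
      refine (hit_sum_le B A _).trans ?_
      refine Finset.sum_le_sum fun u _ => ?_
      rw [rate_mul_const, rate_card_eq, sum_Kr_big sh]
    refine (ENNReal.tsum_le_tsum h1).trans ?_
    rw [ENNReal.tsum_add]
    refine add_le_add ?_ ?_
    · change H.EC S 0 (fun A => H.mass (H.hit (nearx (ε * r) 0 A) ∩ H.out ((1 - ε) * r))) ≤
        H.EC Set.univ 0 (fun A => H.mass (H.hit (nearx (ε * r) 0 A) ∩ H.out ((1 - ε) * r)))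
      refine EC_mono (subset_univ _) 0 ?_ (clus_finite sh hchi _ _)
      intro A A' hA
      refine mass_mono (inter_subset_inter_left _ ?_)
      rintro i ⟨y, hy, hy'⟩
      exact ⟨y, hy, nearx_mono _ _ hA hy'⟩
    · refine (tsum_clus_mul_sum_le _ _ _).trans ?_
      rw [ENNReal.tsum_mul_right, mul_assoc]
      refine mul_le_mul' (ENNReal.tsum_le_tsum fun u => tau_mono (subset_univ _) _ _) le_rfl
  calc _ ≤ (H.AT ε r + H.chi * H.kb (ε * r / 4) * H.arm (ε * r)) +
        H.kap (ε * r / 4) * H.arm (ε * r / 2) := add_le_add hpart2 hpart1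
    _ = _ := by ring

/-- the event used in the lower bound -/
def lowArm (H : HSys (Lat d) ι) (r : ℝ) (A : Finset (Lat d)) : Set (ι → ℕ) :=
  {ω | H.clus (H.small (r / 4)) ω 0 = A} ∩
    {ω | Pres (H.big (r / 4) ∩ (H.hit A ∩ H.out r)) ω}

lemma tsum_lowArm_le (r : ℝ) : ∑' A, H.P (H.lowArm r A) ≤ H.arm r := by
  rw [← measure_iUnion]
  · refine measure_mono (iUnion_subset fun A => ?_)
    rintro ω ⟨h1, i, ⟨_, ⟨y, hy, hyA⟩, ⟨z, hz, hzr⟩⟩, h0⟩
    have h1' : H.clus (H.small (r / 4)) ω 0 = A := h1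
    have c1 : H.Conn Set.univ ω 0 y := by
      rw [← h1'] at hyA
      exact Conn.mono_set (subset_univ _) hyA
    have c3 : H.Conn Set.univ ω y z := Relation.ReflTransGen.single ⟨i, mem_univ _, h0, hy, hz⟩
    exact ⟨z, hzr, c1.trans c3⟩
  · rintro A A' hA
    rw [Function.onFun, Set.disjoint_left]
    rintro ω ⟨h1, _⟩ ⟨h1', _⟩
    apply hA
    have a : H.clus (H.small (r / 4)) ω 0 = A := h1
    have b : H.clus (H.small (r / 4)) ω 0 = A' := h1'
    have : (A : Set (Lat d)) = A' := by rw [← a, ← b]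
    exact_mod_cast this
  · intro A
    exact (sig_le _ _ (measurableSet_clus_eq _ _ _)).inter (sig_le _ _ (measurableSet_pres _))

omit [Countable ι] in
include sh in
lemma rate_out_le {CM σ : ℝ}
    (hM : ∀ r : ℝ, 0 < r → H.rate Set.univ 0 ((H.out r).indicator fun _ => 1) ≤
      ENNReal.ofReal (CM * r ^ (-σ))) {u : Lat d} {r ρ : ℝ} (hρ : 0 < ρ) (h : ρ ≤ r - ‖u‖) :
    H.rate Set.univ u ((H.out r).indicator fun _ => 1) ≤ ENNReal.ofReal (CM * ρ ^ (-σ)) := by
  have h6 := sh.rate_shift (K := Set.univ) u 0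
    ((H.out r).indicator fun _ => (1 : ℝ≥0∞))
    (fun i => (H.out r).indicator (fun _ => (1 : ℝ≥0∞)) (sh.act u i)) (fun i => rfl)
  rw [zero_add, preimage_univ] at h6
  rw [h6]
  refine le_trans (rate_mono_fun 0 fun i _ => ?_) (hM ρ hρ)
  refine indicator_apply_le' (fun hi => ?_) (fun _ => zero_le)
  obtain ⟨y, hy, hy2⟩ := hi
  rw [indicator_of_mem]
  have hy' : y - u ∈ H.s i := by
    rw [← sh.mem_s_act (v := u)]; simpa using hy
  refine ⟨y - u, hy', ?_⟩
  have := norm_sub_norm_le y u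
  linarith

omit [Countable ι] in
include sh in
lemma mass_hit_out_le {CM σ : ℝ}
    (hM : ∀ r : ℝ, 0 < r → H.rate Set.univ 0 ((H.out r).indicator fun _ => 1) ≤
      ENNReal.ofReal (CM * r ^ (-σ))) {A : Finset (Lat d)} {r ρ : ℝ} (hρ : 0 < ρ)
    (h : ∀ u ∈ A, ρ ≤ r - ‖u‖) :
    H.mass (H.hit A ∩ H.out r) ≤ (A.card : ℝ≥0∞) * ENNReal.ofReal (CM * ρ ^ (-σ)) := by
  have h1 : H.mass (H.hit A ∩ H.out r) ≤
      ∑ u ∈ A, H.rate Set.univ u ((H.out r).indicator fun _ => 1) := by
    refine le_trans ?_ (hit_sum_le Set.univ A _)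
    unfold mass
    refine ENNReal.tsum_le_tsum fun i => ?_
    by_cases hi : i ∈ H.hit A ∩ H.out r
    · rw [indicator_of_mem hi, indicator_of_mem (show i ∈ Set.univ ∩ H.hit A from ⟨trivial, hi.1⟩),
        indicator_of_mem hi.2, mul_one]
    · rw [indicator_of_notMem hi]; exact zero_le
  refine h1.trans ?_
  rw [← nsmul_eq_mul]
  exact Finset.sum_le_card_nsmul _ _ _ fun u hu => rate_out_le sh hM hρ (h u hu)

end Pool.Agent.LoopPerc.HSys
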