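import Pool.Agent.LoopPerc.Arm

/-!
# The limit of the one-arm probability: conclusion
-/

namespace Pool.Agent.LoopPerc.HSys

open MeasureTheory ProbabilityTheory Filter Topology Set
open scoped ENNReal NNReal

variable {d : ℕ} {ι : Type*} {H : HSys (Lat d) ι} [Countable ι] (sh : H.Shift)

include sh in
lemma AT_tendsto {CM σ : ℝ}
    (hM : ∀ r : ℝ, 0 < r → H.rate Set.univ 0 ((H.out r).indicator fun _ => 1) ≤
      ENNReal.ofReal (CM * r ^ (-σ)))
    (hchi : H.chi ≠ ⊤) (L : Finset (Lat d) → ℝ≥0∞)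
    (hL : ∀ A : Finset (Lat d),
      Tendsto (fun r : ℝ => ENNReal.ofReal (r ^ σ) * H.mass (H.hit A ∩ H.out r)) atTop (𝓝 (L A)))
    {ε : ℝ} (hε : 0 < ε) (hε1 : ε ≤ 1 / 4) :
    Tendsto (fun r : ℝ => ENNReal.ofReal (r ^ σ) * H.AT ε r) atTop
      (𝓝 (ENNReal.ofReal ((1 - ε) ^ (-σ)) * ∑' A, H.law A * L A)) ∧
      ENNReal.ofReal ((1 - ε) ^ (-σ)) * ∑' A, H.law A * L A ≠ ⊤ := by
  classical
  set g : Finset (Lat d) → ℝ≥0∞ := fun A =>
    (H.law A * (A.card : ℝ≥0∞)) * ENNReal.ofReal (CM * 2 ^ σ) with hg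
  have hgsum : ∑' A, g A ≠ ⊤ := by
    rw [hg, ENNReal.tsum_mul_right]
    exact ENNReal.mul_ne_top (ne_top_of_le_ne_top hchi sum_law_card_le) ENNReal.ofReal_ne_top
  have hdom : ∀ r : ℝ, 0 < r → ∀ A : Finset (Lat d), ENNReal.ofReal (r ^ σ) *
      (H.law A * H.mass (H.hit (nearx (ε * r) 0 A) ∩ H.out ((1 - ε) * r))) ≤ g A := by
    intro r hr A
    have h1 : H.mass (H.hit (nearx (ε * r) 0 A) ∩ H.out ((1 - ε) * r)) ≤
        (A.card : ℝ≥0∞) * ENNReal.ofReal (CM * (r / 2) ^ (-σ)) := by
      refine (mass_hit_out_le sh hM (ρ := r / 2) (by positivity) ?_).trans ?_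
      · intro u hu
        have hu' : ‖u‖ < ε * r := by
          have := (Finset.mem_filter.1 hu).2; simpa using this
        nlinarith
      · gcongr
        exact Finset.filter_subset _ _
    calc ENNReal.ofReal (r ^ σ) * (H.law A * H.mass _)
        ≤ ENNReal.ofReal (1 * r ^ σ) * (H.law A * ((A.card : ℝ≥0∞) *
            ENNReal.ofReal (CM * (r / 2) ^ (-σ)))) := by
          rw [one_mul]; gcongr
      _ = (H.law A * (A.card : ℝ≥0∞)) *
            (ENNReal.ofReal (1 * r ^ σ) * ENNReal.ofReal (CM * (r / 2) ^ (-σ))) := by ring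
      _ = g A := by rw [rpow_cancel hr (by norm_num) zero_le_one, one_mul]
  have hlim : ∀ A : Finset (Lat d), Tendsto (fun r : ℝ => ENNReal.ofReal (r ^ σ) *
      (H.law A * H.mass (H.hit (nearx (ε * r) 0 A) ∩ H.out ((1 - ε) * r)))) atTop
      (𝓝 (ENNReal.ofReal ((1 - ε) ^ (-σ)) * (H.law A * L A))) := by
    intro A
    have h1 : Tendsto (fun r : ℝ => (1 - ε) * r) atTop atTop :=
      Tendsto.const_mul_atTop (by linarith) tendsto_id
    have h2 := (hL A).comp h1
    have h3 := ENNReal.Tendsto.const_mul (a := H.law A) h2 (Or.inr (measure_ne_top _ _))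
    have h4 := ENNReal.Tendsto.const_mul (a := ENNReal.ofReal ((1 - ε) ^ (-σ))) h3
      (Or.inr ENNReal.ofReal_ne_top)
    refine h4.congr' ?_
    obtain ⟨R, hR⟩ : ∃ R : ℝ, ∀ y ∈ A, ‖y‖ < R := by
      obtain ⟨R, hR⟩ := (A.finite_toSet.image (fun y => ‖y‖)).bddAbove
      exact ⟨R + 1, fun y hy => by linarith [hR ⟨y, hy, rfl⟩]⟩
    filter_upwards [eventually_gt_atTop 0, eventually_gt_atTop (|R| / ε)] with r hr0 hr
    have hnear : nearx (ε * r) 0 A = A := by
      refine Finset.filter_true_of_mem fun y hy => ?_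
      rw [sub_zero]
      rw [div_lt_iff₀ hε] at hr
      have := hR y hy
      have := le_abs_self R
      linarith
    rw [hnear]
    simp only [Function.comp]
    have e1 : ENNReal.ofReal ((1 - ε) ^ (-σ)) * ENNReal.ofReal (((1 - ε) * r) ^ σ) =
        ENNReal.ofReal (r ^ σ) := by
      have h0 : 0 < 1 - ε := by linarith
      rw [← ENNReal.ofReal_mul (by positivity), Real.mul_rpow h0.le hr0.le, Real.rpow_neg h0.le]
      congr 1
      have : (0:ℝ) < (1 - ε) ^ σ := Real.rpow_pos_of_pos h0 σ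
      field_simp
    calc ENNReal.ofReal ((1 - ε) ^ (-σ)) * (H.law A * (ENNReal.ofReal (((1 - ε) * r) ^ σ) *
          H.mass (H.hit A ∩ H.out ((1 - ε) * r))))
        = (ENNReal.ofReal ((1 - ε) ^ (-σ)) * ENNReal.ofReal (((1 - ε) * r) ^ σ)) *
          (H.law A * H.mass (H.hit A ∩ H.out ((1 - ε) * r))) := by ring
      _ = _ := by rw [e1]
  constructor
  · have h := tsum_tendsto_filter (l := (atTop : Filter ℝ))
      (fun r (A : Finset (Lat d)) => ENNReal.ofReal (r ^ σ) *
      (H.law A * H.mass (H.hit (nearx (ε * r) 0 A) ∩ H.out ((1 - ε) * r))))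
      (fun A => ENNReal.ofReal ((1 - ε) ^ (-σ)) * (H.law A * L A)) g hgsum
      ((eventually_gt_atTop 0).mono fun r hr A => hdom r hr A) hlim
    rw [ENNReal.tsum_mul_left] at h
    refine h.congr fun r => ?_
    unfold AT
    rw [ENNReal.tsum_mul_left]
  · rw [← ENNReal.tsum_mul_left]
    refine ne_top_of_le_ne_top hgsum (ENNReal.tsum_le_tsum fun A => ?_)
    exact le_of_tendsto (hlim A) ((eventually_gt_atTop 0).mono fun r hr => hdom r hr A)

include sh in
/-- **Asymptotics of the one-arm probability.** -/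
theorem one_arm_limit {CM σ : ℝ} (hσ : 0 < σ) (hCM : 0 ≤ CM)
    (hM : ∀ r : ℝ, 0 < r → H.rate Set.univ 0 ((H.out r).indicator fun _ => 1) ≤
      ENNReal.ofReal (CM * r ^ (-σ)))
    (hchi : H.chi ≠ ⊤) (hrho : H.rho ≠ ⊤) (L : Finset (Lat d) → ℝ≥0∞) (hLfin : ∀ A, L A ≠ ⊤)
    (hL : ∀ A : Finset (Lat d),
      Tendsto (fun r : ℝ => ENNReal.ofReal (r ^ σ) * H.mass (H.hit A ∩ H.out r)) atTop
        (𝓝 (L A))) :
    Tendsto (fun r : ℝ => ENNReal.ofReal (r ^ σ) * H.arm r) atTop (𝓝 (∑' A, H.law A * L A)) ∧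
      ∑' A, H.law A * L A ≠ ⊤ := by
  classical
  set Λ := ∑' A, H.law A * L A with hΛ
  have hΛfin : Λ ≠ ⊤ := by
    have h1 := (AT_tendsto sh hM hchi L hL (ε := 1 / 4) (by norm_num) le_rfl).2
    intro h
    rw [← hΛ, h] at h1
    exact h1 (ENNReal.mul_top (by
      rw [ne_eq, ENNReal.ofReal_eq_zero, not_le]; positivity))
  refine ⟨?_, hΛfin⟩
  obtain ⟨C, hC, harm⟩ := one_arm sh CM σ hσ.le hCM hM hchi hrho
  refine tendsto_of_le_liminf_of_limsup_le ?_ ?_
  · -- lower bound
    have h1 : ∀ A : Finset (Lat d), H.law A * L A ≤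
        liminf (fun r : ℝ => ENNReal.ofReal (r ^ σ) * H.P (H.lowArm r A)) atTop := by
      intro A
      obtain ⟨R, hR⟩ : ∃ R : ℝ, ∀ y ∈ A, ‖y‖ < R := by
        obtain ⟨R, hR⟩ := (A.finite_toSet.image (fun y => ‖y‖)).bddAbove
        exact ⟨R + 1, fun y hy => by linarith [hR ⟨y, hy, rfl⟩]⟩
      have hr4 : Tendsto (fun r : ℝ => r / 4) atTop atTop :=
        tendsto_id.atTop_div_const (by norm_num)
      set G : ℝ → ℝ≥0∞ := fun r =>
        (H.law A - H.mass (H.big (r / 4) ∩ H.hit A)) *
          ((ENNReal.ofReal (r ^ σ) * H.mass (H.hit A ∩ H.out r)) *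
            ENNReal.ofReal (1 - (H.mass (H.hit A ∩ H.out r)).toReal)) with hG
      have hmass : Tendsto (fun r => H.mass (H.hit A ∩ H.out r)) atTop (𝓝 0) := by
        have a1 : ∀ᶠ r : ℝ in atTop, H.mass (H.hit A ∩ H.out r) ≤
            (A.card : ℝ≥0∞) * ENNReal.ofReal (CM * (r / 2) ^ (-σ)) := by
          filter_upwards [eventually_gt_atTop (2 * |R| + 2)] with r hr
          have hR0 := abs_nonneg R
          have hRabs := le_abs_self R
          refine mass_hit_out_le sh hM (by linarith) fun u hu => ?_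
          have := hR u hu
          linarith
        have a2 : Tendsto (fun r : ℝ => CM * (r / 2) ^ (-σ)) atTop (𝓝 (CM * 0)) :=
          Tendsto.const_mul _ ((tendsto_rpow_neg_atTop hσ).comp
            (tendsto_id.atTop_div_const (by norm_num)))
        have a3 : Tendsto (fun r : ℝ => ENNReal.ofReal (CM * (r / 2) ^ (-σ))) atTop
            (𝓝 (ENNReal.ofReal (CM * 0))) := (ENNReal.continuous_ofReal.tendsto _).comp a2
        rw [mul_zero, ENNReal.ofReal_zero] at a3
        have a4 := ENNReal.Tendsto.const_mul (a := (A.card : ℝ≥0∞)) a3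
          (Or.inr (ENNReal.natCast_ne_top _))
        rw [mul_zero] at a4
        exact tendsto_of_tendsto_of_tendsto_of_le_of_le' tendsto_const_nhds a4
          (Eventually.of_forall fun _ => zero_le) a1
      have hGlim : Tendsto G atTop (𝓝 (H.law A * (L A * 1))) := by
        have a1 : Tendsto (fun r : ℝ => H.law A - H.mass (H.big (r / 4) ∩ H.hit A)) atTop
            (𝓝 (H.law A)) := by
          have := ENNReal.Tendsto.sub (tendsto_const_nhds (x := H.law A))
            ((mass_big_hit_tendsto sh hrho A).comp hr4) (Or.inl (measure_ne_top _ _))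
          simpa [Function.comp] using this
        have b1 : Tendsto (fun r : ℝ => (H.mass (H.hit A ∩ H.out r)).toReal)
            atTop (𝓝 (0 : ℝ≥0∞).toReal) :=
          (ENNReal.tendsto_toReal ENNReal.zero_ne_top).comp hmass
        rw [ENNReal.toReal_zero] at b1
        have b2 : Tendsto (fun r : ℝ => 1 - (H.mass (H.hit A ∩ H.out r)).toReal) atTop
            (𝓝 (1 - 0)) := Tendsto.sub tendsto_const_nhds b1
        have b3 : Tendsto (fun r : ℝ => ENNReal.ofReal
          (1 - (H.mass (H.hit A ∩ H.out r)).toReal)) atTop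
            (𝓝 (ENNReal.ofReal (1 - 0))) := (ENNReal.continuous_ofReal.tendsto _).comp b2
        rw [sub_zero, ENNReal.ofReal_one] at b3
        have a4 := ENNReal.Tendsto.mul (hL A) (Or.inr ENNReal.one_ne_top) b3
          (Or.inr (hLfin _))
        exact ENNReal.Tendsto.mul a1 (Or.inr (by rw [mul_one]; exact hLfin _)) a4
          (Or.inr (measure_ne_top _ _))
      have hGle : ∀ᶠ r : ℝ in atTop, G r ≤ ENNReal.ofReal (r ^ σ) * H.P (H.lowArm r A) := by
        have hmt : ∀ᶠ r : ℝ in atTop, H.mass (H.hit A ∩ H.out r) < 1 :=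
          hmass.eventually (gt_mem_nhds zero_lt_one)
        filter_upwards [eventually_gt_atTop (2 * |R| + 2), hmt] with r hr hm1
        have hR0 := abs_nonneg R
        have hRabs := le_abs_self R
        have hdist : ∀ i, i ∈ H.hit (A : Set (Lat d)) → i ∈ H.out r → i ∈ H.big (r / 4) := by
          rintro i ⟨y, hy, hyA⟩ ⟨z, hz, hzr⟩
          refine mem_big_of_hit hz hy ?_
          have h5 := hR y hyA
          have h7 := norm_sub_norm_le z y
          linarith
        have n3 : H.big (r / 4) ∩ (H.hit A ∩ H.out r) = H.hit A ∩ H.out r := by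
          ext i
          exact ⟨fun h => h.2, fun h => ⟨hdist i h.1 h.2, h⟩⟩
        have e1 := measurableSet_clus_eq (H := H) (H.small (r / 4)) 0 (A : Set (Lat d))
        have e3 := measurableSet_pres (ι := ι) (H.big (r / 4) ∩ (H.hit A ∩ H.out r))
        have d1 : Disjoint (H.small (r / 4) ∩ H.hit A) (H.big (r / 4) ∩ (H.hit A ∩ H.out r)) := by
          rw [Set.disjoint_left]
          rintro i ⟨h1, _⟩ ⟨h2, _⟩
          exact h2 h1
        have hP : H.P (H.lowArm r A) = H.P {ω | H.clus (H.small (r / 4)) ω 0 = A} *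
              H.P {ω | Pres (H.big (r / 4) ∩ (H.hit A ∩ H.out r)) ω} := by
          unfold lowArm
          rw [P_inter d1 e1 e3]
        rw [hP, n3]
        have b1 : H.law A - H.mass (H.big (r / 4) ∩ H.hit A) ≤
            H.P {ω | H.clus (H.small (r / 4)) ω 0 = A} := by
          rw [tsub_le_iff_right]; exact law_le_small _ _
        have b3 := P_pres_ge' (H := H) (H.hit A ∩ H.out r) (ne_top_of_lt hm1)
        calc G r = ENNReal.ofReal (r ^ σ) * ((H.law A - H.mass (H.big (r / 4) ∩ H.hit A)) *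
            (H.mass (H.hit A ∩ H.out r) *
            ENNReal.ofReal (1 - (H.mass (H.hit A ∩ H.out r)).toReal))) := by
              rw [hG]; ring
          _ ≤ _ := by gcongr
      calc H.law A * L A = H.law A * (L A * 1) := by ring
        _ = liminf G atTop := hGlim.liminf_eq.symm
        _ ≤ _ := liminf_le_liminf hGle
    calc Λ ≤ ∑' A, liminf (fun r : ℝ => ENNReal.ofReal (r ^ σ) * H.P (H.lowArm r A)) atTop :=
          ENNReal.tsum_le_tsum h1
      _ ≤ liminf (fun r : ℝ => ∑' A, ENNReal.ofReal (r ^ σ) * H.P (H.lowArm r A)) atTop :=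
          tsum_liminf_le_filter _
      _ ≤ liminf (fun r : ℝ => ENNReal.ofReal (r ^ σ) * H.arm r) atTop := by
          refine liminf_le_liminf (Eventually.of_forall fun r => ?_)
          change ∑' A, ENNReal.ofReal (r ^ σ) * H.P (H.lowArm r A) ≤
            ENNReal.ofReal (r ^ σ) * H.arm r
          rw [ENNReal.tsum_mul_left]
          exact mul_le_mul' le_rfl (tsum_lowArm_le _)
  · -- upper bound
    have h1 : ∀ ε : ℝ, 0 < ε → ε ≤ 1 / 4 →
        limsup (fun r : ℝ => ENNReal.ofReal (r ^ σ) * H.arm r) atTop ≤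
          ENNReal.ofReal ((1 - ε) ^ (-σ)) * Λ := by
      intro ε hε hε1
      have hAT := (AT_tendsto sh hM hchi L hL hε hε1).1
      set E : ℝ → ℝ≥0∞ := fun r =>
        ENNReal.ofReal (1 * C * (2 / ε) ^ σ) * H.kap (ε * r / 4) +
        ENNReal.ofReal (1 * C * (1 / ε) ^ σ) * (H.chi * H.kb (ε * r / 4)) with hE
      have hE0 : Tendsto E atTop (𝓝 0) := by
        have hr4 : Tendsto (fun r : ℝ => ε * r / 4) atTop atTop :=
          (Tendsto.const_mul_atTop hε tendsto_id).atTop_div_const (by norm_num)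
        have t1 := ENNReal.Tendsto.const_mul (a := ENNReal.ofReal (1 * C * (2 / ε) ^ σ))
          ((kap_tendsto' sh hchi hrho).comp hr4) (Or.inr ENNReal.ofReal_ne_top)
        have t2 := ENNReal.Tendsto.const_mul (a := ENNReal.ofReal (1 * C * (1 / ε) ^ σ))
          (ENNReal.Tendsto.const_mul (a := H.chi) ((kb_tendsto hrho).comp hr4) (Or.inr hchi))
          (Or.inr ENNReal.ofReal_ne_top)
        have t3 := t1.add t2
        simp only [mul_zero, add_zero] at t3
        exact t3
      have hle : ∀ᶠ r : ℝ in atTop, ENNReal.ofReal (r ^ σ) * H.arm r ≤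
          ENNReal.ofReal (r ^ σ) * H.AT ε r + E r := by
        filter_upwards [eventually_gt_atTop 0] with r hr
        have c1 : ENNReal.ofReal (r ^ σ) * (H.kap (ε * r / 4) * H.arm (ε * r / 2)) ≤
            ENNReal.ofReal (1 * C * (2 / ε) ^ σ) * H.kap (ε * r / 4) := by
          have e0 : ε * r / 2 = r / (2 / ε) := by field_simp
          calc ENNReal.ofReal (r ^ σ) * (H.kap (ε * r / 4) * H.arm (ε * r / 2))
              ≤ ENNReal.ofReal (1 * r ^ σ) * (H.kap (ε * r / 4) *
                ENNReal.ofReal (C * (r / (2 / ε)) ^ (-σ))) := by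
                rw [one_mul, e0]
                gcongr
                exact harm _ (by positivity)
            _ = (ENNReal.ofReal (1 * r ^ σ) * ENNReal.ofReal (C * (r / (2 / ε)) ^ (-σ))) *
                H.kap (ε * r / 4) := by ring
            _ = _ := by rw [rpow_cancel hr (by positivity) zero_le_one]
        have c2 : ENNReal.ofReal (r ^ σ) * (H.chi * H.kb (ε * r / 4) * H.arm (ε * r)) ≤
            ENNReal.ofReal (1 * C * (1 / ε) ^ σ) * (H.chi * H.kb (ε * r / 4)) := by
          have e0 : ε * r = r / (1 / ε) := by field_simp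
          calc ENNReal.ofReal (r ^ σ) * (H.chi * H.kb (ε * r / 4) * H.arm (ε * r))
              ≤ ENNReal.ofReal (1 * r ^ σ) * (H.chi * H.kb (ε * r / 4) *
                ENNReal.ofReal (C * (r / (1 / ε)) ^ (-σ))) := by
                rw [one_mul]
                gcongr
                rw [e0]
                exact harm _ (by positivity)
            _ = (ENNReal.ofReal (1 * r ^ σ) * ENNReal.ofReal (C * (r / (1 / ε)) ^ (-σ))) *
                (H.chi * H.kb (ε * r / 4)) := by ring
            _ = _ := by rw [rpow_cancel hr (by positivity) zero_le_one]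
        calc ENNReal.ofReal (r ^ σ) * H.arm r
            ≤ ENNReal.ofReal (r ^ σ) * (H.AT ε r + (H.kap (ε * r / 4) * H.arm (ε * r / 2) +
              H.chi * H.kb (ε * r / 4) * H.arm (ε * r))) :=
              mul_le_mul' le_rfl (arm_le sh hchi hε hr (by linarith))
          _ = ENNReal.ofReal (r ^ σ) * H.AT ε r +
              (ENNReal.ofReal (r ^ σ) * (H.kap (ε * r / 4) * H.arm (ε * r / 2)) +
              ENNReal.ofReal (r ^ σ) * (H.chi * H.kb (ε * r / 4) * H.arm (ε * r))) := by ring
          _ ≤ _ := add_le_add le_rfl (add_le_add c1 c2)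
      have h2 := hAT.add hE0
      rw [add_zero] at h2
      rw [← h2.limsup_eq]
      exact limsup_le_limsup hle
    have h3 : Tendsto (fun ε : ℝ => ENNReal.ofReal ((1 - ε) ^ (-σ)) * Λ) (𝓝[>] 0) (𝓝 (1 * Λ)) := by
      have c : ContinuousAt (fun ε : ℝ => (1 - ε) ^ (-σ)) 0 := by
        refine ContinuousAt.rpow_const (by fun_prop) (Or.inl (by norm_num))
      have c1 : Tendsto (fun ε : ℝ => ENNReal.ofReal ((1 - ε) ^ (-σ))) (𝓝 0) (𝓝 1) := by
        have := (ENNReal.continuous_ofReal.tendsto _).comp c.tendsto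
        simp only [sub_zero, Real.one_rpow, ENNReal.ofReal_one] at this
        exact this
      exact ENNReal.Tendsto.mul_const (c1.mono_left nhdsWithin_le_nhds) (Or.inr hΛfin)
    rw [one_mul] at h3
    refine ge_of_tendsto h3 ?_
    filter_upwards [self_mem_nhdsWithin, nhdsWithin_le_nhds (Iic_mem_nhds (show (0:ℝ) < 1 / 4 by norm_num))]
      with ε hε hε1
    exact h1 ε hε hε1

end Pool.Agent.LoopPerc.HSys
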