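import Pool.Agent.LoopPerc.Apriori

/-!
# Bounds on connection probabilities
-/

namespace Pool.Agent.LoopPerc.HSys

open MeasureTheory ProbabilityTheory Filter Topology Set
open scoped ENNReal NNReal

section gen

variable {V ι : Type*} {H : HSys V ι}

lemma rate_mono_set {K K' : Set ι} (h : K ⊆ K') (u : V) (g : ι → ℝ≥0∞) :
    H.rate K u g ≤ H.rate K' u g := by
  refine ENNReal.tsum_le_tsum fun i => ?_
  refine indicator_le_indicator_of_subset (inter_subset_inter_left _ h) (fun _ => zero_le) i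

lemma rate_mono_fun {K : Set ι} (u : V) {g g' : ι → ℝ≥0∞} (h : ∀ i ∈ K, g i ≤ g' i) :
    H.rate K u g ≤ H.rate K u g' := by
  refine ENNReal.tsum_le_tsum fun i => ?_
  by_cases hi : i ∈ K ∩ {i | u ∈ H.s i}
  · rw [indicator_of_mem hi, indicator_of_mem hi]
    gcongr
    exact h i hi.1
  · rw [indicator_of_notMem hi, indicator_of_notMem hi]

lemma rate_add (K : Set ι) (u : V) (g g' : ι → ℝ≥0∞) :
    H.rate K u (fun i => g i + g' i) = H.rate K u g + H.rate K u g' := by
  unfold rate
  rw [← ENNReal.tsum_add]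
  refine tsum_congr fun i => ?_
  by_cases hi : i ∈ K ∩ {i | u ∈ H.s i}
  · simp only [indicator_of_mem hi]; rw [mul_add]
  · simp only [indicator_of_notMem hi]; simp

lemma rate_mul_const (K : Set ι) (u : V) (g : ι → ℝ≥0∞) (c : ℝ≥0∞) :
    H.rate K u (fun i => g i * c) = H.rate K u g * c := by
  unfold rate
  rw [← ENNReal.tsum_mul_right]
  refine tsum_congr fun i => ?_
  by_cases hi : i ∈ K ∩ {i | u ∈ H.s i}
  · simp only [indicator_of_mem hi]; rw [mul_assoc]
  · simp only [indicator_of_notMem hi]; simp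

/-- total rate of the hyperedges of `K` that contain `u` and `v` -/
noncomputable def Kr (H : HSys V ι) (K : Set ι) (u v : V) : ℝ≥0∞ :=
  H.rate K u ({i | v ∈ H.s i}.indicator fun _ => 1)

lemma Kr_mono_set {K K' : Set ι} (h : K ⊆ K') (u v : V) : H.Kr K u v ≤ H.Kr K' u v :=
  rate_mono_set h _ _

lemma Kr_symm (K : Set ι) (u v : V) : H.Kr K u v = H.Kr K v u := by
  classical
  unfold Kr rate
  refine tsum_congr fun i => ?_
  by_cases hK : i ∈ K <;> by_cases hu : u ∈ H.s i <;> by_cases hv : v ∈ H.s i <;>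
    simp [indicator, hK, hu, hv]

lemma rate_sum_eq [Countable V] (K : Set ι) (u : V) (f : V → ℝ≥0∞) :
    H.rate K u (fun i => ∑ v ∈ H.s i, f v) = ∑' v, H.Kr K u v * f v := by
  classical
  unfold Kr rate
  simp_rw [← ENNReal.tsum_mul_right]
  rw [ENNReal.tsum_comm]
  refine tsum_congr fun i => ?_
  by_cases hi : i ∈ K ∩ {i | u ∈ H.s i}
  · simp only [indicator_of_mem hi]
    rw [Finset.mul_sum, tsum_eq_sum (s := H.s i)]
    · refine Finset.sum_congr rfl fun v hv => ?_
      rw [indicator_of_mem (show i ∈ {i | v ∈ H.s i} from hv)]; ring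
    · intro v hv
      rw [indicator_of_notMem (show i ∉ {i | v ∈ H.s i} from hv)]; simp
  · simp only [indicator_of_notMem hi]; simp

lemma rate_card_eq [Countable V] (K : Set ι) (u : V) :
    H.rate K u (fun i => ((H.s i).card : ℝ≥0∞)) = ∑' v, H.Kr K u v := by
  have := rate_sum_eq (H := H) K u (fun _ => 1)
  simpa using this

end gen

section lat

variable {d : ℕ} {ι : Type*} {H : HSys (Lat d) ι}

/-- hyperedges that leave the open ball of radius `R` around the origin -/
def out (H : HSys (Lat d) ι) (R : ℝ) : Set ι := {i | ∃ y ∈ H.s i, R ≤ ‖y‖}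

/-- hyperedges inside the open ball of radius `R` around the origin -/
def ins (H : HSys (Lat d) ι) (R : ℝ) : Set ι := (H.out R)ᶜ

lemma univ_diff_ins (R : ℝ) : univ \ H.ins R = H.out R := by
  ext i; simp [ins]

lemma out_anti {R R' : ℝ} (h : R ≤ R') : H.out R' ⊆ H.out R := by
  rintro i ⟨y, hy, hR⟩
  exact ⟨y, hy, h.trans hR⟩

lemma conn_ins {R : ℝ} {ω : ι → ℕ} {x : Lat d} (h : H.Conn (H.ins R) ω 0 x) :
    x = 0 ∨ ‖x‖ < R := by
  have h' : Relation.ReflTransGen (H.Adj (H.ins R) ω) 0 x := h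
  rcases Relation.ReflTransGen.cases_tail h' with h1 | ⟨c, _, i, hi, _, _, hx⟩
  · left; exact h1
  · right
    by_contra hc
    exact hi ⟨x, hx, not_lt.1 hc⟩

lemma tau_ins_eq_zero {R : ℝ} {x : Lat d} (hx : x ≠ 0) (hR : R ≤ ‖x‖) :
    H.tau (H.ins R) 0 x = 0 := by
  unfold tau
  have : {ω | H.Conn (H.ins R) ω 0 x} = ∅ := by
    ext ω
    simp only [mem_ofPred_eq, mem_empty_iff_false, iff_false]
    intro h
    rcases conn_ins h with h | h
    · exact hx h
    · linarith
  rw [this, measure_empty]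

lemma tauT_ins_eq_zero {R : ℝ} {T : Set (Lat d)} (hT : ∀ x ∈ T, x ≠ 0 ∧ R ≤ ‖x‖) :
    H.tauT (H.ins R) 0 T = 0 := by
  unfold tauT
  have : {ω | H.ConnT (H.ins R) ω 0 T} = ∅ := by
    ext ω
    simp only [mem_ofPred_eq, mem_empty_iff_false, iff_false]
    rintro ⟨x, hx, h⟩
    rcases conn_ins h with h | h
    · exact (hT x hx).1 h
    · linarith [(hT x hx).2]
  rw [this, measure_empty]

variable [Countable ι] (sh : H.Shift)

/-- expected cluster size -/
noncomputable def chi (H : HSys (Lat d) ι) : ℝ≥0∞ := ∑' u, H.tau Set.univ 0 u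

/-- rate of hyperedges through the origin weighted by their size -/
noncomputable def rho (H : HSys (Lat d) ι) : ℝ≥0∞ :=
  H.rate Set.univ 0 (fun i => ((H.s i).card : ℝ≥0∞))

/-- mean size of the hyperedges hitting the cluster of the origin and leaving the ball -/
noncomputable def kap (H : HSys (Lat d) ι) (R : ℝ) : ℝ≥0∞ :=
  ∑' u, H.tau Set.univ 0 u * H.rate (H.out R) u (fun i => ((H.s i).card : ℝ≥0∞))

include sh in
omit [Countable ι] in
lemma rate_univ_card (u : Lat d) :
    H.rate Set.univ u (fun i => ((H.s i).card : ℝ≥0∞)) = H.rho := by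
  have := sh.rate_shift (K := Set.univ) u 0 (fun i => ((H.s i).card : ℝ≥0∞))
    (fun i => ((H.s i).card : ℝ≥0∞)) (fun i => by rw [sh.s_act]; simp)
  rw [zero_add] at this
  rw [this]; rfl

include sh in
lemma sum_tau_univ (x : Lat d) : ∑' u, H.tau Set.univ x u = H.chi := by
  unfold chi
  rw [← (Equiv.addRight x).tsum_eq]
  refine tsum_congr fun u => ?_
  rw [sh.tau_eq_sub sh.inv_univ]
  simp

include sh in
lemma clus_finite (hchi : H.chi ≠ ⊤) (J : Set ι) (x : Lat d) :
    ∀ᵐ ω ∂H.P, (H.clus J ω x).Finite := by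
  have h1 : ∀ᵐ ω ∂H.P, {u | ω ∈ {ω | H.Conn Set.univ ω x u}}.Finite := by
    refine ae_finite_setOfPred_mem ?_
    have : ∑' u, H.P {ω | H.Conn Set.univ ω x u} = H.chi := sum_tau_univ sh x
    rw [this]; exact hchi
  filter_upwards [h1] with ω hω
  refine hω.subset ?_
  intro y hy
  exact Conn.mono_set (subset_univ _) hy

include sh in
lemma kap_tendsto (hchi : H.chi ≠ ⊤) (hrho : H.rho ≠ ⊤) :
    Tendsto (fun n : ℕ => H.kap (n : ℝ)) atTop (𝓝 0) := by
  unfold kap
  refine tsum_tendsto_zero_of_dominated _ (fun u => H.tau Set.univ 0 u * H.rho) ?_ ?_ ?_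
  · rw [ENNReal.tsum_mul_right]
    exact ENNReal.mul_ne_top hchi hrho
  · intro n u
    gcongr
    rw [← rate_univ_card sh u]
    exact rate_mono_set (subset_univ _) _ _
  · intro u
    have h1 : Tendsto (fun n : ℕ => H.rate (H.out n) u (fun i => ((H.s i).card : ℝ≥0∞))) atTop
        (𝓝 0) := by
      unfold rate
      refine tsum_tendsto_zero_of_dominated _ (fun i => (Set.univ ∩ {i | u ∈ H.s i}).indicator
        (fun i => (H.lam i : ℝ≥0∞) * ((H.s i).card : ℝ≥0∞)) i) ?_ ?_ ?_
      · have := rate_univ_card sh u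
        unfold rate at this
        rw [this]; exact hrho
      · intro n i
        exact indicator_le_indicator_of_subset (inter_subset_inter_left _ (subset_univ _))
          (fun _ => zero_le) i
      · intro i
        refine tendsto_const_nhds.congr' ?_
        obtain ⟨R, hR⟩ : ∃ R : ℝ, ∀ y ∈ H.s i, ‖y‖ < R := by
          obtain ⟨R, hR⟩ := ((H.s i).finite_toSet.image (fun y => ‖y‖)).bddAbove
          exact ⟨R + 1, fun y hy => by linarith [hR ⟨y, hy, rfl⟩]⟩
        obtain ⟨N, hN⟩ := exists_nat_ge R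
        filter_upwards [eventually_ge_atTop N] with n hn
        rw [indicator_of_notMem]
        rintro ⟨⟨y, hy, hy'⟩, _⟩
        have := hR y hy
        have h3 : (N : ℝ) ≤ n := by exact_mod_cast hn
        linarith
    have h2 := ENNReal.Tendsto.const_mul (a := H.tau Set.univ 0 u) h1
      (Or.inr (ne_top_of_le_ne_top ENNReal.one_ne_top (tau_le_one _ _ _)))
    simpa using h2

end lat

end Pool.Agent.LoopPerc.HSys
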