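import Pool.Agent.LoopPerc.ClusW

/-!
# Environment part of the law of large numbers along a random walk bridge
(package G of MP_b22ef1_pr, helper7 for helper96)
-/

namespace Pool.Agent.LoopPerc

open MeasureTheory ProbabilityTheory Filter Topology Set
open scoped ENNReal NNReal

namespace Bridge

section General

variable {V ι : Type*} {H : HSys V ι}

lemma mem_clusW {J : Set ι} {ω : ι → ℕ} {W : Set V} {y : V} :
    y ∈ H.clusW J ω W ↔ ∃ v ∈ W, y ∈ H.clus J ω v := Iff.rfl

lemma clusW_eq_biUnion (J : Set ι) (ω : ι → ℕ) (W : Set V) :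
    H.clusW J ω W = ⋃ v ∈ W, H.clus J ω v := by
  ext y; simp [mem_clusW]

lemma clusW_union (J : Set ι) (ω : ι → ℕ) (W W' : Set V) :
    H.clusW J ω (W ∪ W') = H.clusW J ω W ∪ H.clusW J ω W' := by
  simp only [clusW_eq_biUnion, biUnion_union]

lemma clusW_mono {J J' : Set ι} (hJ : J ⊆ J') (ω : ι → ℕ) {W W' : Set V} (hW : W ⊆ W') :
    H.clusW J ω W ⊆ H.clusW J' ω W' := by
  rintro y ⟨v, hv, hy⟩
  exact ⟨v, hW hv, hy.mono_set hJ⟩

variable (H) in
/-- all clusters are finite -/
def AllFin (ω : ι → ℕ) : Prop := ∀ x, (H.clus univ ω x).Finite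

lemma AllFin.clus {ω : ι → ℕ} (h : AllFin H ω) (J : Set ι) (x : V) : (H.clus J ω x).Finite :=
  (h x).subset (HSys.clus_mono (subset_univ _) ω x)

lemma AllFin.clusW {ω : ι → ℕ} (h : AllFin H ω) (J : Set ι) {W : Set V} (hW : W.Finite) :
    (H.clusW J ω W).Finite := by
  rw [clusW_eq_biUnion]
  exact hW.biUnion fun v _ => h.clus J v

variable (H) in
/-- number of vertices connected to `W` -/
noncomputable def vol (J : Set ι) (ω : ι → ℕ) (W : Set V) : ℝ := ((H.clusW J ω W).ncard : ℝ)

lemma vol_nonneg (J : Set ι) (ω : ι → ℕ) (W : Set V) : 0 ≤ vol H J ω W := Nat.cast_nonneg _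

lemma vol_union_le (J : Set ι) (ω : ι → ℕ) (W W' : Set V) :
    vol H J ω (W ∪ W') ≤ vol H J ω W + vol H J ω W' := by
  unfold vol
  rw [clusW_union]
  exact_mod_cast ncard_union_le _ _

lemma vol_empty (J : Set ι) (ω : ι → ℕ) : vol H J ω ∅ = 0 := by
  unfold vol
  rw [clusW_eq_biUnion]
  simp

lemma vol_mono {J J' : Set ι} (hJ : J ⊆ J') {ω : ι → ℕ} (h : AllFin H ω) {W W' : Set V}
    (hW : W ⊆ W') (hfin : W'.Finite) : vol H J ω W ≤ vol H J' ω W' := by
  unfold vol
  exact_mod_cast ncard_le_ncard (clusW_mono hJ ω hW) (h.clusW J' hfin)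

lemma vol_biUnion_le (J : Set ι) (ω : ι → ℕ) {κ : Type*} (s : Finset κ) (W : κ → Set V) :
    vol H J ω (⋃ k ∈ s, W k) ≤ ∑ k ∈ s, vol H J ω (W k) := by
  classical
  induction s using Finset.induction_on with
  | empty => simp [vol_empty]
  | insert a s ha ih =>
    rw [Finset.set_biUnion_insert, Finset.sum_insert ha]
    exact (vol_union_le _ _ _ _).trans (by linarith)

lemma vol_singleton (J : Set ι) (ω : ι → ℕ) (x : V) :
    vol H J ω {x} = ((H.clus J ω x).ncard : ℝ) := by
  unfold vol
  rw [clusW_eq_biUnion]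
  simp

open Classical in
/-- decomposition according to the first visit of a cluster -/
lemma vol_first_visit {J : Set ι} {ω : ι → ℕ} (h : AllFin H ω) (x : ℕ → V) (m : ℕ) :
    vol H J ω (x '' {r | r < m}) = ∑ s ∈ Finset.range m,
      (if ∀ r < s, x r ∉ H.clus J ω (x s) then ((H.clus J ω (x s)).ncard : ℝ) else 0) := by
  induction m with
  | zero => simp [vol_empty]
  | succ m ih =>
    rw [Finset.sum_range_succ, ← ih]
    have h1 : x '' {r | r < m + 1} = (x '' {r | r < m}) ∪ {x m} := by
      ext y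
      constructor
      · rintro ⟨r, hr, rfl⟩
        rcases Nat.lt_succ_iff_lt_or_eq.1 hr with h2 | h2
        · exact Or.inl ⟨r, h2, rfl⟩
        · subst h2; exact Or.inr rfl
      · rintro (⟨r, hr, rfl⟩ | hy)
        · exact ⟨r, Nat.lt_succ_of_lt hr, rfl⟩
        · rw [mem_singleton_iff] at hy
          subst hy
          exact ⟨m, Nat.lt_succ_self m, rfl⟩
    rw [h1]
    have hf1 : (H.clusW J ω (x '' {r | r < m})).Finite :=
      h.clusW J ((finite_lt_nat m).image x)
    have hf2 : (H.clus J ω (x m)).Finite := h.clus J (x m)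
    have h3 : H.clusW J ω {x m} = H.clus J ω (x m) := by
      rw [clusW_eq_biUnion]; simp
    by_cases hv : ∀ r < m, x r ∉ H.clus J ω (x m)
    · rw [if_pos hv]
      unfold vol
      rw [clusW_union, h3, ncard_union_eq _ hf1 hf2]
      · push_cast; ring
      · rw [Set.disjoint_left]
        rintro y ⟨v, ⟨r, hr, rfl⟩, hy⟩ hy'
        exact hv r hr (HSys.Conn.trans hy' hy.symm)
    · rw [if_neg hv, add_zero]
      push Not at hv
      obtain ⟨r, hr, hrm⟩ := hv
      unfold vol
      rw [clusW_union, h3, union_eq_self_of_subset_right]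
      intro y hy
      exact ⟨x r, ⟨r, hr, rfl⟩, HSys.Conn.trans (HSys.Conn.symm hrm) hy⟩

lemma encard_toReal (A : Set V) : ((A.encard : ℝ≥0∞)).toReal = (A.ncard : ℝ) := by
  by_cases h : A.Finite
  · rw [← h.cast_ncard_eq]
    simp
  · rw [encard_eq_top h, Set.Infinite.ncard h]
    simp

variable [Countable V] [Countable ι]

lemma measurableSet_mem_clusW (J : Set ι) (W : Set V) (y : V) :
    MeasurableSet[HSys.sig ι J] {ω | y ∈ H.clusW J ω W} := by
  have h : {ω | y ∈ H.clusW J ω W} = ⋃ v : V, ⋃ (_ : v ∈ W), {ω | H.Conn J ω v y} := by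
    ext ω; simp [HSys.clusW]
  rw [h]
  exact MeasurableSet.iUnion fun v => MeasurableSet.iUnion fun _ =>
    HSys.measurableSet_conn J v y

lemma measurable_encard_clusW (J : Set ι) (W : Set V) :
    Measurable[HSys.sig ι J] fun ω => ((H.clusW J ω W).encard : ℝ≥0∞) := by
  classical
  have h : (fun ω => ((H.clusW J ω W).encard : ℝ≥0∞)) =
      fun ω => ∑' y : V, ({ω | y ∈ H.clusW J ω W}.indicator (fun _ => (1 : ℝ≥0∞)) ω) := by
    funext ω
    rw [← ENNReal.tsum_set_one, tsum_subtype (H.clusW J ω W) (fun _ => (1 : ℝ≥0∞))]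
    rfl
  rw [h]
  refine @Measurable.tsum (ι → ℕ) ℝ≥0∞ V (HSys.sig ι J) _ _ _ _ _ _ _ _ _ _ _ _ fun y => ?_
  exact Measurable.indicator measurable_const (measurableSet_mem_clusW J W y)

lemma measurable_vol (J : Set ι) (W : Set V) :
    Measurable[HSys.sig ι J] fun ω => vol H J ω W := by
  have h : (fun ω => vol H J ω W) = fun ω => ((H.clusW J ω W).encard : ℝ≥0∞).toReal := by
    funext ω
    rw [encard_toReal]
    rfl
  rw [h]
  exact ENNReal.measurable_toReal.comp (measurable_encard_clusW J W)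

lemma measurable_vol' (J : Set ι) (W : Set V) : Measurable fun ω => vol H J ω W :=
  (measurable_vol J W).mono (HSys.sig_le J) le_rfl

/-- product of functions of disjoint families -/
lemma integral_vol_mul {J J' : Set ι} (hJ : Disjoint J J') (W W' : Set V) (a b : ℝ) :
    ∫ ω, (vol H J ω W - a) * (vol H J' ω W' - b) ∂H.P =
      (∫ ω, (vol H J ω W - a) ∂H.P) * ∫ ω, (vol H J' ω W' - b) ∂H.P := by
  have hm1 : Measurable[HSys.sig ι J] fun ω => vol H J ω W - a :=
    (measurable_id.sub_const a).comp (measurable_vol J W)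
  have hm2 : Measurable[HSys.sig ι J'] fun ω => vol H J' ω W' - b :=
    (measurable_id.sub_const b).comp (measurable_vol J' W')
  have hind : IndepFun (fun ω => vol H J ω W - a) (fun ω => vol H J' ω W' - b) H.P := by
    rw [IndepFun_iff_Indep]
    exact indep_of_indep_of_le_left (indep_of_indep_of_le_right (HSys.indep_sig hJ)
      hm2.comap_le) hm1.comap_le
  exact hind.integral_fun_mul_eq_mul_integral
    (hm1.mono (HSys.sig_le J) le_rfl).aestronglyMeasurable
    (hm2.mono (HSys.sig_le J') le_rfl).aestronglyMeasurable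

/-- functions of the cluster of a vertex are a.e. measurable when clusters are finite -/
lemma aestronglyMeasurable_clus (hfin : ∀ᵐ ω ∂H.P, AllFin H ω) (J : Set ι) (x : V)
    (Φ : Set V → ℝ) : AEStronglyMeasurable (fun ω => Φ (H.clus J ω x)) H.P := by
  classical
  let c : (ι → ℕ) → Option (Finset V) := fun ω =>
    if h : (H.clus J ω x).Finite then some h.toFinset else none
  let : MeasurableSpace (Option (Finset V)) := ⊤
  have hc1 : ∀ A : Finset V, c ⁻¹' {some A} = {ω | H.clus J ω x = A} := by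
    intro A
    ext ω
    simp only [mem_preimage, mem_singleton_iff, c]
    constructor
    · intro h
      by_cases hf : (H.clus J ω x).Finite
      · rw [dif_pos hf] at h
        have h' := Option.some.inj h
        show H.clus J ω x = A
        rw [← h', hf.coe_toFinset]
      · rw [dif_neg hf] at h
        exact absurd h (by simp)
    · intro h
      have h' : H.clus J ω x = A := h
      have hf : (H.clus J ω x).Finite := by rw [h']; exact A.finite_toSet
      rw [dif_pos hf]
      congr 1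
      ext y
      simp [h']
  have hcs : ∀ A : Finset V, MeasurableSet (c ⁻¹' {some A}) := by
    intro A
    rw [hc1]
    exact HSys.sig_le _ _ (HSys.measurableSet_clus_eq J x A)
  have hc : Measurable c := by
    apply measurable_to_countable'
    intro o
    cases o with
    | some A => exact hcs A
    | none =>
      have h1 : c ⁻¹' {none} = (⋃ A : Finset V, c ⁻¹' {some A})ᶜ := by
        ext ω
        simp only [mem_preimage, mem_singleton_iff, mem_compl_iff, mem_iUnion, not_exists]
        constructor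
        · intro h A hA
          rw [h] at hA
          exact absurd hA (by simp)
        · intro h
          cases hω : c ω with
          | none => rfl
          | some A => exact absurd hω (h A)
      rw [h1]
      exact (MeasurableSet.iUnion hcs).compl
  let Ψ : Option (Finset V) → ℝ := fun o => match o with
    | some A => Φ (A : Set V)
    | none => 0
  have hΨ : Measurable Ψ := measurable_from_top
  refine ⟨Ψ ∘ c, (hΨ.comp hc).stronglyMeasurable, ?_⟩
  filter_upwards [hfin] with ω hω
  have hf : (H.clus J ω x).Finite := hω.clus J x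
  simp only [Function.comp, c, dif_pos hf, Ψ, hf.coe_toFinset]

section Limit

omit [Countable V] [Countable ι]

/-- a connection uses finitely many hyperedges -/
lemma exists_conn {Jk : ℕ → Set ι} (hmono : Monotone Jk)
    (hU : ∀ i, (H.s i).Nonempty → ∃ k, i ∈ Jk k) {ω : ι → ℕ} {x y : V}
    (h : H.Conn univ ω x y) : ∃ k, H.Conn (Jk k) ω x y := by
  induction h with
  | refl => exact ⟨0, HSys.Conn.refl x⟩
  | @tail b c _ hbc ih =>
    obtain ⟨k, hk⟩ := ih
    obtain ⟨i, _, h0, hb, hc⟩ := hbc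
    obtain ⟨l, hl⟩ := hU i ⟨b, hb⟩
    refine ⟨max k l, HSys.Conn.trans (hk.mono_set (hmono (le_max_left _ _))) ?_⟩
    exact Relation.ReflTransGen.single ⟨i, hmono (le_max_right _ _) hl, h0, hb, hc⟩

lemma eventually_clus_eq {Jk : ℕ → Set ι} (hmono : Monotone Jk)
    (hU : ∀ i, (H.s i).Nonempty → ∃ k, i ∈ Jk k) {ω : ι → ℕ} (h : AllFin H ω) (x : V) :
    ∀ᶠ k in atTop, H.clus (Jk k) ω x = H.clus univ ω x := by
  have h1 : ∀ y ∈ H.clus univ ω x, ∀ᶠ k in atTop, y ∈ H.clus (Jk k) ω x := by
    intro y hy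
    obtain ⟨k, hk⟩ := exists_conn hmono hU hy
    filter_upwards [eventually_ge_atTop k] with l hl
    exact hk.mono_set (hmono hl)
  have h2 : ∀ᶠ k in atTop, ∀ y ∈ H.clus univ ω x, y ∈ H.clus (Jk k) ω x :=
    (Filter.eventually_all_finite (h x)).2 h1
  filter_upwards [h2] with k hk
  exact Subset.antisymm (HSys.clus_mono (subset_univ _) ω x) hk

lemma eventually_clusW_eq {Jk : ℕ → Set ι} (hmono : Monotone Jk)
    (hU : ∀ i, (H.s i).Nonempty → ∃ k, i ∈ Jk k) {ω : ι → ℕ} (h : AllFin H ω) {W : Set V}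
    (hW : W.Finite) :
    ∀ᶠ k in atTop, H.clusW (Jk k) ω W = H.clusW univ ω W := by
  have h1 : ∀ᶠ k in atTop, ∀ x ∈ W, H.clus (Jk k) ω x = H.clus univ ω x :=
    (Filter.eventually_all_finite hW).2 fun x _ => eventually_clus_eq hmono hU h x
  filter_upwards [h1] with k hk
  rw [clusW_eq_biUnion, clusW_eq_biUnion]
  exact iUnion₂_congr hk

end Limit

end General

section Shift

variable {d : ℕ} {ι : Type} {H : HSys (Lat d) ι} (sh : H.Shift)

/-- translated configuration -/
def shiftCfg (v : Lat d) : (ι → ℕ) ≃ᵐ (ι → ℕ) :=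
  MeasurableEquiv.piCongrLeft (fun _ => ℕ) (sh.act v).symm

lemma shiftCfg_apply (v : Lat d) (ω : ι → ℕ) (i : ι) : shiftCfg sh v ω i = ω (sh.act v i) := by
  have h1 : i = (sh.act v).symm (sh.act v i) := by simp
  conv_lhs => rw [h1]
  unfold shiftCfg
  rw [MeasurableEquiv.coe_piCongrLeft]
  exact Equiv.piCongrLeft_apply_apply (P := fun _ : ι => ℕ) ((sh.act v).symm) ω (sh.act v i)

lemma map_shiftCfg (v : Lat d) : Measure.map (shiftCfg sh v) H.P = H.P := by
  have h := Measure.infinitePi_map_piCongrLeft (fun i : ι => poissonMeasure (H.lam i))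
    (sh.act v).symm
  have h2 : (fun i : ι => poissonMeasure (H.lam ((sh.act v).symm i))) =
      fun i => poissonMeasure (H.lam i) := by
    funext i
    congr 1
    rw [← sh.lam_act v ((sh.act v).symm i)]
    simp
  rw [h2] at h
  exact h

lemma measurePreserving_shiftCfg (v : Lat d) : MeasurePreserving (shiftCfg sh v) H.P H.P :=
  ⟨(shiftCfg sh v).measurable, map_shiftCfg sh v⟩

lemma integral_shiftCfg (v : Lat d) (Φ : (ι → ℕ) → ℝ) :
    ∫ ω, Φ (shiftCfg sh v ω) ∂H.P = ∫ ω, Φ ω ∂H.P := by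
  conv_rhs => rw [← map_shiftCfg sh v]
  rw [integral_map_equiv]

lemma adj_shift (v : Lat d) (J : Set ι) (ω : ι → ℕ) (x y : Lat d) :
    H.Adj J (shiftCfg sh v ω) x y ↔ H.Adj (sh.act v '' J) ω (x + v) (y + v) := by
  constructor
  · rintro ⟨i, hi, h0, hx, hy⟩
    rw [shiftCfg_apply] at h0
    refine ⟨sh.act v i, ⟨i, hi, rfl⟩, h0, ?_, ?_⟩
    · rw [sh.s_act, Finset.mem_map]
      exact ⟨x, hx, rfl⟩
    · rw [sh.s_act, Finset.mem_map]
      exact ⟨y, hy, rfl⟩
  · rintro ⟨_, ⟨i, hi, rfl⟩, h0, hx, hy⟩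
    refine ⟨i, hi, by rw [shiftCfg_apply]; exact h0, ?_, ?_⟩
    · rw [sh.s_act, Finset.mem_map] at hx
      obtain ⟨a, ha, hax⟩ := hx
      have : a = x := by simpa using hax
      rwa [← this]
    · rw [sh.s_act, Finset.mem_map] at hy
      obtain ⟨a, ha, hay⟩ := hy
      have : a = y := by simpa using hay
      rwa [← this]

lemma conn_shift (v : Lat d) (J : Set ι) (ω : ι → ℕ) (x y : Lat d) :
    H.Conn J (shiftCfg sh v ω) x y ↔ H.Conn (sh.act v '' J) ω (x + v) (y + v) := by
  constructor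
  · intro h
    exact Relation.ReflTransGen.lift (r := H.Adj J (shiftCfg sh v ω))
      (p := H.Adj (sh.act v '' J) ω) (fun z => z + v)
      (fun a b hab => (adj_shift sh v J ω a b).1 hab) _ _ h
  · intro h
    have h1 := Relation.ReflTransGen.lift (r := H.Adj (sh.act v '' J) ω)
      (p := H.Adj J (shiftCfg sh v ω)) (fun z => z - v) (fun a b hab => by
        show H.Adj J (shiftCfg sh v ω) (a - v) (b - v)
        rw [adj_shift]
        simpa using hab) _ _ h
    simp only [Function.onFun, add_sub_cancel_right] at h1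
    exact h1

lemma clus_shift (v : Lat d) (J : Set ι) (ω : ι → ℕ) (x : Lat d) :
    H.clus (sh.act v '' J) ω (x + v) = (fun z => z + v) '' H.clus J (shiftCfg sh v ω) x := by
  ext y
  constructor
  · intro hy
    refine ⟨y - v, ?_, by simp⟩
    show H.Conn J (shiftCfg sh v ω) x (y - v)
    rw [conn_shift, sub_add_cancel]
    exact hy
  · rintro ⟨z, hz, rfl⟩
    exact (conn_shift sh v J ω x z).1 hz

lemma clusW_shift (v : Lat d) (J : Set ι) (ω : ι → ℕ) (W : Set (Lat d)) :
    H.clusW (sh.act v '' J) ω ((fun z => z + v) '' W) =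
      (fun z => z + v) '' H.clusW J (shiftCfg sh v ω) W := by
  rw [clusW_eq_biUnion, clusW_eq_biUnion, image_iUnion₂, biUnion_image]
  refine iUnion₂_congr fun x _ => ?_
  rw [clus_shift]

lemma vol_shift (v : Lat d) (J : Set ι) (ω : ι → ℕ) (W : Set (Lat d)) :
    vol H (sh.act v '' J) ω ((fun z => z + v) '' W) = vol H J (shiftCfg sh v ω) W := by
  unfold vol
  rw [clusW_shift, ncard_image_of_injective _ (add_left_injective v)]

lemma integral_vol_shift (v : Lat d) (J : Set ι) (W : Set (Lat d)) :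
    ∫ ω, vol H (sh.act v '' J) ω ((fun z => z + v) '' W) ∂H.P = ∫ ω, vol H J ω W ∂H.P := by
  simp only [vol_shift]
  exact integral_shiftCfg sh v (fun ω => vol H J ω W)

lemma integral_clus_shift (x : Lat d) {J : Set ι} (hJ : sh.act x '' J = J)
    (Φ : Set (Lat d) → ℝ) :
    ∫ ω, Φ (H.clus J ω x) ∂H.P = ∫ ω, Φ ((fun z => z + x) '' H.clus J ω 0) ∂H.P := by
  have h1 : ∀ ω, H.clus J ω x = (fun z => z + x) '' H.clus J (shiftCfg sh x ω) 0 := by
    intro ω
    have := clus_shift sh x J ω 0
    rwa [hJ, zero_add] at this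
  simp only [h1]
  exact integral_shiftCfg sh x (fun ω => Φ ((fun z => z + x) '' H.clus J ω 0))

lemma image_act_eq {J : Set ι} (hJ : ∀ v i, sh.act v i ∈ J ↔ i ∈ J) (v : Lat d) :
    sh.act v '' J = J := by
  ext i
  constructor
  · rintro ⟨j, hj, rfl⟩
    exact (hJ v j).2 hj
  · intro hi
    refine ⟨(sh.act v).symm i, ?_, by simp⟩
    rw [← hJ v]
    simpa using hi

lemma image_act_univ (v : Lat d) : sh.act v '' (univ : Set ι) = univ :=
  image_act_eq sh (fun _ _ => by simp) v

variable [Countable ι]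

include sh in
lemma ae_allFin (hχ : ∫⁻ ω, ((H.clus Set.univ ω 0).encard : ℝ≥0∞) ∂H.P < ⊤) :
    ∀ᵐ ω ∂H.P, AllFin H ω := by
  unfold AllFin
  rw [ae_all_iff]
  intro x
  have hmeas : Measurable fun ω => ((H.clus univ ω 0).encard : ℝ≥0∞) := by
    have h := (measurable_encard_clusW (H := H) univ {0}).mono (HSys.sig_le _) le_rfl
    simpa [clusW_eq_biUnion] using h
  have h0 : ∀ᵐ ω ∂H.P, (H.clus univ ω 0).Finite := by
    filter_upwards [ae_lt_top hmeas hχ.ne] with ω hω
    by_contra hinf
    have : (H.clus univ ω 0).encard = ⊤ := Set.encard_eq_top hinf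
    rw [this] at hω
    simp at hω
  have h1 := (measurePreserving_shiftCfg sh x).quasiMeasurePreserving.ae h0
  filter_upwards [h1] with ω hω
  have h2 := clus_shift sh x univ ω 0
  rw [image_act_univ, zero_add] at h2
  rw [h2]
  exact hω.image _

include sh in
lemma integrable_clus (hχ : ∫⁻ ω, ((H.clus Set.univ ω 0).encard : ℝ≥0∞) ∂H.P < ⊤) (x : Lat d) :
    Integrable (fun ω => ((H.clus univ ω x).ncard : ℝ)) H.P := by
  have hmeas : Measurable fun ω => ((H.clus univ ω 0).encard : ℝ≥0∞) := by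
    have h := (measurable_encard_clusW (H := H) univ {0}).mono (HSys.sig_le _) le_rfl
    simpa [clusW_eq_biUnion] using h
  have h0 : Integrable (fun ω => ((H.clus univ ω 0).ncard : ℝ)) H.P := by
    have h := integrable_toReal_of_lintegral_ne_top hmeas.aemeasurable hχ.ne
    simpa only [encard_toReal] using h
  have h1 := (measurePreserving_shiftCfg sh x).integrable_comp_of_integrable h0
  refine h1.congr (Eventually.of_forall fun ω => ?_)
  have h2 := clus_shift sh x univ ω 0
  rw [image_act_univ, zero_add] at h2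
  simp only [Function.comp]
  rw [h2, ncard_image_of_injective _ (add_left_injective x)]

omit [Countable ι] in
include sh in
lemma integral_clus_eq (x : Lat d) :
    ∫ ω, ((H.clus univ ω x).ncard : ℝ) ∂H.P = ∫ ω, ((H.clus univ ω 0).ncard : ℝ) ∂H.P := by
  rw [integral_clus_shift sh x (image_act_univ sh x) (fun A => (A.ncard : ℝ))]
  simp only [ncard_image_of_injective _ (add_left_injective x)]

omit [Countable ι] in
lemma vol_le_sum {J : Set ι} {ω : ι → ℕ} (h : AllFin H ω) (W : Finset (Lat d)) :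
    vol H J ω W ≤ ∑ x ∈ W, ((H.clus univ ω x).ncard : ℝ) := by
  have h1 : vol H J ω W ≤ vol H univ ω W := vol_mono (subset_univ _) h Subset.rfl W.finite_toSet
  have h2 : (W : Set (Lat d)) = ⋃ x ∈ W, {x} := by ext; simp
  refine h1.trans ?_
  conv_lhs => rw [h2]
  refine (vol_biUnion_le _ _ _ _).trans (Finset.sum_le_sum fun x _ => ?_)
  rw [vol_singleton]

include sh in
lemma integrable_vol (hχ : ∫⁻ ω, ((H.clus Set.univ ω 0).encard : ℝ≥0∞) ∂H.P < ⊤)
    (J : Set ι) {W : Set (Lat d)} (hW : W.Finite) : Integrable (fun ω => vol H J ω W) H.P := by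
  refine Integrable.mono' (g := fun ω => ∑ x ∈ hW.toFinset, ((H.clus univ ω x).ncard : ℝ))
    (integrable_finsetSum _ fun x _ => integrable_clus sh hχ x)
    (measurable_vol' J W).aestronglyMeasurable ?_
  filter_upwards [ae_allFin sh hχ] with ω hω
  rw [Real.norm_of_nonneg (vol_nonneg _ _ _)]
  have := vol_le_sum (J := J) hω hW.toFinset
  rwa [hW.coe_toFinset] at this

include sh in
lemma integral_vol_le (hχ : ∫⁻ ω, ((H.clus Set.univ ω 0).encard : ℝ≥0∞) ∂H.P < ⊤)
    (J : Set ι) (W : Finset (Lat d)) :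
    ∫ ω, vol H J ω W ∂H.P ≤ W.card * ∫ ω, ((H.clus univ ω 0).ncard : ℝ) ∂H.P := by
  calc ∫ ω, vol H J ω W ∂H.P ≤ ∫ ω, ∑ x ∈ W, ((H.clus univ ω x).ncard : ℝ) ∂H.P := by
        apply integral_mono_ae (integrable_vol sh hχ J W.finite_toSet)
          (integrable_finsetSum _ fun x _ => integrable_clus sh hχ x)
        filter_upwards [ae_allFin sh hχ] with ω hω
        exact vol_le_sum hω W
    _ = W.card * ∫ ω, ((H.clus univ ω 0).ncard : ℝ) ∂H.P := by
        rw [integral_finsetSum _ fun x _ => integrable_clus sh hχ x]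
        simp only [integral_clus_eq sh]
        simp

/-- monotone limits of families of hyperedges -/
lemma tendsto_integral_vol (sh : H.Shift)
    (hχ : ∫⁻ ω, ((H.clus Set.univ ω 0).encard : ℝ≥0∞) ∂H.P < ⊤)
    {Jk : ℕ → Set ι} (hmono : Monotone Jk) (hU : ∀ i, (H.s i).Nonempty → ∃ k, i ∈ Jk k)
    {W : Set (Lat d)} (hW : W.Finite) :
    Tendsto (fun k => ∫ ω, vol H (Jk k) ω W ∂H.P) atTop (𝓝 (∫ ω, vol H univ ω W ∂H.P)) := by
  apply tendsto_integral_of_dominated_convergence (fun ω => vol H univ ω W)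
  · intro k
    exact (measurable_vol' _ _).aestronglyMeasurable
  · exact integrable_vol sh hχ univ hW
  · intro k
    filter_upwards [ae_allFin sh hχ] with ω hω
    rw [Real.norm_of_nonneg (vol_nonneg _ _ _)]
    exact vol_mono (subset_univ _) hω Subset.rfl hW
  · filter_upwards [ae_allFin sh hχ] with ω hω
    apply tendsto_const_nhds.congr'
    filter_upwards [eventually_clusW_eq hmono hU hω hW] with k hk
    unfold vol
    rw [hk]

lemma tendsto_integral_clus (sh : H.Shift)
    (hχ : ∫⁻ ω, ((H.clus Set.univ ω 0).encard : ℝ≥0∞) ∂H.P < ⊤)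
    {Jk : ℕ → Set ι} (hmono : Monotone Jk) (hU : ∀ i, (H.s i).Nonempty → ∃ k, i ∈ Jk k)
    {Φ : Set (Lat d) → ℝ} {C : ℝ} (hΦ : ∀ A, |Φ A| ≤ C) :
    Tendsto (fun k => ∫ ω, Φ (H.clus (Jk k) ω 0) ∂H.P) atTop
      (𝓝 (∫ ω, Φ (H.clus univ ω 0) ∂H.P)) := by
  apply tendsto_integral_of_dominated_convergence (fun _ => C)
  · intro k
    exact aestronglyMeasurable_clus (ae_allFin sh hχ) _ _ _
  · exact integrable_const C
  · intro k
    exact Eventually.of_forall fun ω => hΦ _
  · filter_upwards [ae_allFin sh hχ] with ω hω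
    apply tendsto_const_nhds.congr'
    filter_upwards [eventually_clus_eq hmono hU hω 0] with k hk
    rw [hk]

end Shift

section Loc

variable {d : ℕ} {ι : Type} {H : HSys (Lat d) ι}

variable (H) in
/-- the nonempty hyperedges contained in the ball of radius `M` around `x` -/
def Loc (x : Lat d) (M : ℕ) : Set ι :=
  {i | (H.s i).Nonempty ∧ (H.s i : Set (Lat d)) ⊆ Metric.closedBall x M}

lemma image_act_Loc (sh : H.Shift) (v x : Lat d) (M : ℕ) :
    sh.act v '' Loc H x M = Loc H (x + v) M := by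
  have key : ∀ i, sh.act v i ∈ Loc H (x + v) M ↔ i ∈ Loc H x M := by
    intro i
    unfold Loc
    rw [Set.mem_ofPred_eq, Set.mem_ofPred_eq, sh.s_act]
    constructor
    · rintro ⟨h1, h2⟩
      refine ⟨by simpa using h1, fun y hy => ?_⟩
      have h3 : y + v ∈ Metric.closedBall (x + v) (M : ℝ) := by
        apply h2
        simp only [Finset.coe_map, addRightEmbedding_apply, mem_image, Finset.mem_coe]
        exact ⟨y, hy, rfl⟩
      simpa [Metric.mem_closedBall, dist_add_right] using h3
    · rintro ⟨h1, h2⟩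
      refine ⟨by simpa using h1, fun y hy => ?_⟩
      simp only [Finset.coe_map, addRightEmbedding_apply, mem_image, Finset.mem_coe] at hy
      obtain ⟨z, hz, rfl⟩ := hy
      have h3 := h2 hz
      simpa [Metric.mem_closedBall, dist_add_right] using h3
  ext i
  constructor
  · rintro ⟨j, hj, rfl⟩
    exact (key j).2 hj
  · intro hi
    refine ⟨(sh.act v).symm i, ?_, by simp⟩
    rw [← key]
    simpa using hi

lemma disjoint_Loc {x y : Lat d} {M : ℕ} (h : 2 * (M : ℝ) < dist x y) :
    Disjoint (Loc H x M) (Loc H y M) := by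
  rw [Set.disjoint_left]
  rintro i ⟨⟨z, hz⟩, h1⟩ ⟨_, h2⟩
  have h3 : dist z x ≤ M := h1 hz
  have h4 : dist z y ≤ M := h2 hz
  have h5 := dist_triangle_left x y z
  linarith

lemma finite_ball (x : Lat d) (r : ℝ) : (Metric.closedBall x r).Finite :=
  (isCompact_closedBall x r).finite_of_discrete

lemma ncard_ball (x : Lat d) (r : ℝ) :
    (Metric.closedBall x r).ncard = (Metric.closedBall (0 : Lat d) r).ncard := by
  have h : Metric.closedBall x r = (fun z => z + x) '' Metric.closedBall (0 : Lat d) r := by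
    ext y
    simp only [Metric.mem_closedBall, mem_image]
    constructor
    · intro hy
      refine ⟨y - x, ?_, by simp⟩
      rwa [← dist_add_right (y - x) 0 x, sub_add_cancel, zero_add]
    · rintro ⟨z, hz, rfl⟩
      rwa [← dist_add_right z 0 x, zero_add] at hz
  rw [h, ncard_image_of_injective _ (add_left_injective x)]

lemma clusW_Loc_subset (x : Lat d) (M : ℕ) (ω : ι → ℕ) (W : Set (Lat d)) :
    H.clusW (Loc H x M) ω W ⊆ W ∪ Metric.closedBall x M := by
  rintro y ⟨v, hv, hvy⟩
  have hvy' : Relation.ReflTransGen (H.Adj (Loc H x M) ω) v y := hvy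
  cases hvy' with
  | refl => exact Or.inl hv
  | tail _ hbc =>
    obtain ⟨i, hi, _, _, hc⟩ := hbc
    exact Or.inr (hi.2 hc)

lemma vol_Loc_le (x : Lat d) (M : ℕ) (ω : ι → ℕ) {W : Set (Lat d)} (hW : W.Finite) :
    vol H (Loc H x M) ω W ≤ W.ncard + (Metric.closedBall (0 : Lat d) M).ncard := by
  unfold vol
  have h1 : (H.clusW (Loc H x M) ω W).ncard ≤ (W ∪ Metric.closedBall x M).ncard :=
    ncard_le_ncard (clusW_Loc_subset x M ω W) (hW.union (finite_ball x M))
  have h2 := ncard_union_le W (Metric.closedBall x (M : ℝ))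
  rw [ncard_ball x] at h2
  exact_mod_cast h1.trans h2

lemma Loc_mono (x : Lat d) : Monotone (Loc H x) := by
  intro M M' hM i hi
  refine ⟨hi.1, hi.2.trans (Metric.closedBall_subset_closedBall ?_)⟩
  exact_mod_cast hM

lemma exists_mem_Loc (x : Lat d) (i : ι) (hi : (H.s i).Nonempty) : ∃ M, i ∈ Loc H x M := by
  obtain ⟨r, hr⟩ := ((H.s i).finite_toSet.isBounded).subset_closedBall x
  obtain ⟨M, hM⟩ := exists_nat_ge r
  exact ⟨M, hi, hr.trans (Metric.closedBall_subset_closedBall hM)⟩

variable [Countable ι]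

/-- the covariance of two local functionals -/
lemma integral_Loc_mul (sh : H.Shift) {x y : Lat d} {M : ℕ} {W W' : Set (Lat d)}
    (hχ : ∫⁻ ω, ((H.clus Set.univ ω 0).encard : ℝ≥0∞) ∂H.P < ⊤)
    (hW : W.Finite) (hW' : W'.Finite) (h : 2 * (M : ℝ) < dist x y) (t : ℝ) :
    ∫ ω, (vol H (Loc H x M) ω ((fun z => z + x) '' W) - t) *
        (vol H (Loc H y M) ω ((fun z => z + y) '' W') - t) ∂H.P =
      (∫ ω, vol H (Loc H 0 M) ω W ∂H.P - t) * (∫ ω, vol H (Loc H 0 M) ω W' ∂H.P - t) := by
  rw [integral_vol_mul (disjoint_Loc h)]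
  rw [integral_sub (integrable_vol sh hχ _ (hW.image _)) (integrable_const t),
    integral_sub (integrable_vol sh hχ _ (hW'.image _)) (integrable_const t)]
  have h1 := integral_vol_shift sh x (Loc H 0 M) W
  rw [image_act_Loc, zero_add] at h1
  have h2 := integral_vol_shift sh y (Loc H 0 M) W'
  rw [image_act_Loc, zero_add] at h2
  rw [h1, h2]
  simp

end Loc

end Bridge

end Pool.Agent.LoopPerc
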