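import Pool.Agent.LoopPerc.RWLink

/-!
# Local central limit estimates for the return probabilities (Tauberian approach)
-/

namespace Pool.Agent.LoopPerc

open MeasureTheory ProbabilityTheory Filter Topology Set
open scoped ENNReal NNReal Real Nat

/-! ### One-dimensional asymptotics -/

lemma sqrt_mul_q1 {t : ℝ} (ht : 0 < t) : √t * q1 t 0 =
    (2 * π)⁻¹ * ∫ u, (Ioc (-π * √t) (π * √t)).indicator
      (fun u => Real.exp (-t * (1 - Real.cos (u / √t)))) u := by
  have hs : 0 < √t := Real.sqrt_pos.2 ht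
  rw [integral_indicator measurableSet_Ioc, ← intervalIntegral.integral_of_le (by
    have := Real.pi_pos
    nlinarith)]
  rw [intervalIntegral.integral_comp_div (fun θ => Real.exp (-t * (1 - Real.cos θ))) hs.ne']
  rw [mul_div_cancel_right₀ _ hs.ne', mul_div_cancel_right₀ _ hs.ne', q1, smul_eq_mul]
  simp
  ring

lemma tendsto_t_one_sub_cos (u : ℝ) :
    Tendsto (fun t : ℝ => -t * (1 - Real.cos (u / √t))) atTop (𝓝 (-(1 / 2) * u ^ 2)) := by
  have h1 : Tendsto (fun t : ℝ => u / √t) atTop (𝓝 0) :=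
    tendsto_const_nhds.div_atTop Real.tendsto_sqrt_atTop
  have h2 : Tendsto (fun t : ℝ => |u| ^ 4 * (5 / 96) / t) atTop (𝓝 0) :=
    tendsto_const_nhds.div_atTop tendsto_id
  rw [← tendsto_sub_nhds_zero_iff]
  refine squeeze_zero_norm' ?_ h2
  have h3 : ∀ᶠ t : ℝ in atTop, |u / √t| ≤ 1 := by
    have := h1.abs
    rw [abs_zero] at this
    exact this.eventually (eventually_le_nhds (by norm_num : (0 : ℝ) < 1))
  filter_upwards [h3, eventually_gt_atTop 0] with t ht1 ht
  have hs : 0 < √t := Real.sqrt_pos.2 ht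
  have h4 := Real.cos_bound ht1
  have h5 : -t * (1 - Real.cos (u / √t)) - -(1 / 2) * u ^ 2 =
      t * (Real.cos (u / √t) - (1 - (u / √t) ^ 2 / 2)) := by
    rw [div_pow, Real.sq_sqrt ht.le]
    field_simp
    ring
  rw [h5, Real.norm_eq_abs, abs_mul, abs_of_pos ht]
  calc t * |Real.cos (u / √t) - (1 - (u / √t) ^ 2 / 2)| ≤ t * (|u / √t| ^ 4 * (5 / 96)) := by gcongr
    _ = |u| ^ 4 * (5 / 96) / t := by
      have h6 : √t ^ 4 = t ^ 2 := by
        rw [show 4 = 2 * 2 from rfl, pow_mul, Real.sq_sqrt ht.le]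
      rw [abs_div, abs_of_pos hs, div_pow, h6]
      field_simp

theorem sqrt_mul_q1_tendsto : Tendsto (fun t => √t * q1 t 0) atTop (𝓝 (√(2 * π))⁻¹) := by
  have hlim : Tendsto (fun t : ℝ => ∫ u, (Ioc (-π * √t) (π * √t)).indicator
      (fun u => Real.exp (-t * (1 - Real.cos (u / √t)))) u) atTop
      (𝓝 (∫ u : ℝ, Real.exp (-(1 / 2) * u ^ 2))) := by
    apply tendsto_integral_filter_of_dominated_convergence
      (fun u => Real.exp (-(2 / π ^ 2) * u ^ 2))
    · filter_upwards with t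
      apply Measurable.aestronglyMeasurable
      apply Measurable.indicator _ measurableSet_Ioc
      fun_prop
    · filter_upwards [eventually_gt_atTop 0] with t ht
      filter_upwards with u
      have hs : 0 < √t := Real.sqrt_pos.2 ht
      by_cases hu : u ∈ Ioc (-π * √t) (π * √t)
      · rw [indicator_of_mem hu, Real.norm_eq_abs, abs_of_pos (Real.exp_pos _)]
        apply Real.exp_le_exp.2
        have h1 : |u / √t| ≤ π := by
          rw [abs_div, abs_of_pos hs, div_le_iff₀ hs, abs_le]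
          constructor <;> linarith [hu.1, hu.2]
        have h2 := Real.cos_le_one_sub_mul_cos_sq h1
        rw [div_pow, Real.sq_sqrt ht.le] at h2
        have h3 : t * (2 / π ^ 2 * (u ^ 2 / t)) = 2 / π ^ 2 * u ^ 2 := by field_simp
        have h4 : t * (2 / π ^ 2 * (u ^ 2 / t)) ≤ t * (1 - Real.cos (u / √t)) := by
          gcongr
          linarith
        linarith
      · rw [indicator_of_notMem hu]
        simp
        positivity
    · exact integrable_exp_neg_mul_sq (by positivity)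
    · filter_upwards with u
      have h1 : ∀ᶠ t : ℝ in atTop, u ∈ Ioc (-π * √t) (π * √t) := by
        have h2 : Tendsto (fun t : ℝ => π * √t) atTop atTop :=
          Real.tendsto_sqrt_atTop.const_mul_atTop Real.pi_pos
        filter_upwards [h2.eventually_gt_atTop |u|] with t ht
        rw [abs_lt] at ht
        exact ⟨by linarith [ht.1], ht.2.le⟩
      have h3 := (Real.continuous_exp.tendsto _).comp (tendsto_t_one_sub_cos u)
      refine h3.congr' ?_
      filter_upwards [h1] with t ht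
      rw [indicator_of_mem ht]
      rfl
  rw [integral_gaussian] at hlim
  have h := hlim.const_mul ((2 * π)⁻¹)
  have hval : (2 * π)⁻¹ * √(π / (1 / 2)) = (√(2 * π))⁻¹ := by
    rw [show π / (1 / 2) = 2 * π by ring]
    have h2 : (0 : ℝ) < 2 * π := by positivity
    have h3 := Real.mul_self_sqrt h2.le
    have h4 : 0 < √(2 * π) := Real.sqrt_pos.2 h2
    field_simp
    rw [sq]
    exact h3
  rw [hval] at h
  refine h.congr' ?_
  filter_upwards [eventually_gt_atTop 0] with t ht
  rw [sqrt_mul_q1 ht]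

lemma q1_nonneg' {t : ℝ} : 0 ≤ q1 t 0 := by
  rw [q1_eq]
  apply integral_nonneg
  intro θ
  simp
  positivity

/-! ### Poisson tails -/

lemma summable_pois (t : ℝ) : Summable (pois t) := by
  have := (hasSum_pois t 1).summable
  simpa using this

lemma tsum_pois (t : ℝ) : ∑' m, pois t m = 1 := by
  have := (hasSum_pois t 1).tsum_eq
  simpa using this

lemma hasSum_pois_even (t : ℝ) : HasSum (fun k => pois t (2 * k)) ((1 + Real.exp (-2 * t)) / 2) := by
  have h1 : Summable fun k => pois t (2 * k) :=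
    (summable_pois t).comp_injective (fun a b h => by simpa using h)
  have h2 : Summable fun k => pois t (2 * k + 1) :=
    (summable_pois t).comp_injective (fun a b h => by simpa using h)
  have h3 := tsum_even_add_odd h1 h2
  have h4 := (hasSum_pois t (-1)).tsum_eq
  have h5 : ∑' k, pois t (2 * k) * (-1) ^ (2 * k) + ∑' k, pois t (2 * k + 1) * (-1) ^ (2 * k + 1) =
      ∑' k, pois t k * (-1) ^ k :=
    tsum_even_add_odd (f := fun k => pois t k * (-1) ^ k) (by simpa [pow_mul] using h1)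
      (by simpa [pow_succ, pow_mul] using h2.neg)
  have e1 : ∀ k, pois t (2 * k) * (-1) ^ (2 * k) = pois t (2 * k) := fun k => by
    rw [pow_mul]; simp
  have e2 : ∀ k, pois t (2 * k + 1) * (-1) ^ (2 * k + 1) = - pois t (2 * k + 1) := fun k => by
    rw [pow_succ, pow_mul]; simp
  simp_rw [e1, e2] at h5
  rw [tsum_neg] at h5
  rw [tsum_pois] at h3
  have h8 : Real.exp (-t * (1 - -1)) = Real.exp (-2 * t) := by congr 1; ring
  rw [h8] at h4
  have h7 : ∑' k, pois t (2 * k) = (1 + Real.exp (-2 * t)) / 2 := by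
    linarith
  rw [← h7]
  exact h1.hasSum

/-- Chernoff bound, general form: `s` is the tilt. -/
lemma chernoff {t s : ℝ} (ht : 0 ≤ t) (hs : 0 < s) (M : ℕ) (P : ℕ → Prop) [DecidablePred P]
    (hP : ∀ m, P m → 1 ≤ s ^ m * (s ^ M)⁻¹) :
    ∑' m, (if P m then pois t m else 0) ≤
      Real.exp (M * (s⁻¹ - 1) - t * (1 - s)) := by
  have h1 := (hasSum_pois t s).mul_right ((s ^ M)⁻¹)
  calc ∑' m, (if P m then pois t m else 0) ≤ ∑' m, pois t m * s ^ m * (s ^ M)⁻¹ := by
        refine Summable.tsum_le_tsum (fun m => ?_) ?_ h1.summable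
        · have h0 := pois_nonneg ht m
          split_ifs with h
          · calc pois t m = pois t m * 1 := by ring
              _ ≤ pois t m * (s ^ m * (s ^ M)⁻¹) := by gcongr; exact hP m h
              _ = _ := by ring
          · positivity
        · refine Summable.of_nonneg_of_le (fun m => ?_) (fun m => ?_) (summable_pois t)
          · split_ifs
            · exact pois_nonneg ht m
            · exact le_rfl
          · split_ifs
            · exact le_rfl
            · exact pois_nonneg ht m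
    _ = Real.exp (-t * (1 - s)) * (s ^ M)⁻¹ := h1.tsum_eq
    _ ≤ Real.exp (-t * (1 - s)) * Real.exp (M * (s⁻¹ - 1)) := by
        gcongr
        have h2 := Real.one_sub_inv_le_log_of_pos hs
        rw [← Real.rpow_natCast, ← Real.rpow_neg hs.le, Real.rpow_def_of_pos hs]
        apply Real.exp_le_exp.2
        have : (0 : ℝ) ≤ M := by positivity
        nlinarith
    _ = _ := by rw [← Real.exp_add]; congr 1; ring

/-- upper tail -/
lemma pois_tail_gt {ε : ℝ} (h0 : 0 < ε) (h1 : ε < 1) (K : ℕ) :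
    ∑' m, (if 2 * K ≤ m then pois (2 * K * (1 - ε)) m else 0) ≤
      Real.exp (-(ε ^ 2 / 2) * K) := by
  have ht : (0 : ℝ) ≤ 2 * K * (1 - ε) := by
    have : (0 : ℝ) ≤ K := by positivity
    nlinarith
  have hs : (0 : ℝ) < (1 - ε / 2)⁻¹ := by
    apply inv_pos.2; linarith
  have hs1 : (1 : ℝ) ≤ (1 - ε / 2)⁻¹ := by
    rw [one_le_inv₀ (by linarith)]; linarith
  refine (chernoff ht hs (2 * K) _ ?_).trans ?_
  · intro m hm
    have : ((1 - ε / 2)⁻¹) ^ (2 * K) ≤ ((1 - ε / 2)⁻¹) ^ m := pow_le_pow_right₀ hs1 hm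
    rw [← div_eq_mul_inv, one_le_div (by positivity)]
    exact this
  · apply Real.exp_le_exp.2
    rw [inv_inv]
    have h2 : (1 - (1 - ε / 2)⁻¹) = -(ε / 2) * (1 - ε / 2)⁻¹ := by
      have : (1 - ε / 2) * (1 - ε / 2)⁻¹ = 1 := mul_inv_cancel₀ (by linarith)
      linear_combination (-1 : ℝ) * this
    rw [h2]
    have hK : (0 : ℝ) ≤ K := by positivity
    push_cast
    have h3 : (1 - ε) * (1 - ε / 2)⁻¹ ≤ 1 - ε / 2 := by
      rw [← div_eq_mul_inv, div_le_iff₀ (by linarith)]
      nlinarith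
    have h4 : 2 * (K : ℝ) * (1 - ε / 2 - 1) - 2 * K * (1 - ε) * (-(ε / 2) * (1 - ε / 2)⁻¹) =
        K * ε * ((1 - ε) * (1 - ε / 2)⁻¹ - 1) := by ring
    rw [h4]
    have h5 : (1 - ε) * (1 - ε / 2)⁻¹ - 1 ≤ -(ε / 2) := by linarith
    calc K * ε * ((1 - ε) * (1 - ε / 2)⁻¹ - 1) ≤ K * ε * (-(ε / 2)) := by gcongr
      _ = _ := by ring

/-- lower tail -/
lemma pois_tail_lt {ε : ℝ} (h0 : 0 < ε) (K : ℕ) :
    ∑' m, (if m ≤ 2 * K then pois (2 * K * (1 + ε)) m else 0) ≤
      Real.exp (-(ε ^ 2 / (2 * (1 + ε / 2))) * K) := by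
  have ht : (0 : ℝ) ≤ 2 * K * (1 + ε) := by positivity
  have hs : (0 : ℝ) < (1 + ε / 2)⁻¹ := by positivity
  have hs1 : (1 + ε / 2)⁻¹ ≤ (1 : ℝ) := by
    rw [inv_le_one₀ (by linarith)]; linarith
  refine (chernoff ht hs (2 * K) _ ?_).trans ?_
  · intro m hm
    have : ((1 + ε / 2)⁻¹) ^ (2 * K) ≤ ((1 + ε / 2)⁻¹) ^ m := pow_le_pow_of_le_one hs.le hs1 hm
    rw [← div_eq_mul_inv, one_le_div (by positivity)]
    exact this
  · apply Real.exp_le_exp.2
    rw [inv_inv]
    have hK : (0 : ℝ) ≤ K := by positivity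
    push_cast
    apply le_of_eq
    have : (1 + ε / 2) ≠ 0 := by linarith
    field_simp
    ring

/-! ### Parity, monotonicity -/

lemma sum_stepVec {d : ℕ} (e : Step d) : ∑ i, stepVec e i = if e.2 then 1 else -1 := by
  unfold stepVec
  rw [Finset.sum_pi_single']
  simp

lemma kern_parity {d : ℕ} (D : Set (Lat d)) (m : ℕ) (x y : Lat d)
    (h : ¬ Even (∑ i, (y - x) i + m)) : kern D m x y = 0 := by
  induction m generalizing x with
  | zero =>
    simp only [kern]
    rw [if_neg]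
    rintro ⟨rfl, -⟩
    simp at h
  | succ m ih =>
    simp only [kern]
    split_ifs
    · refine Finset.sum_eq_zero fun e _ => ?_
      rw [ih, mul_zero]
      intro h2
      apply h
      have h3 : ∑ i, (y - (x + stepVec e)) i = ∑ i, (y - x) i - ∑ i, stepVec e i := by
        rw [← Finset.sum_sub_distrib]
        refine Finset.sum_congr rfl fun i _ => ?_
        simp; ring
      rw [h3, sum_stepVec] at h2
      push_cast
      rcases h2 with ⟨r, hr⟩
      split_ifs at hr with hb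
      · exact ⟨r + 1, by linarith⟩
      · exact ⟨r, by linarith⟩
    · rfl

/-- the even return probabilities -/
noncomputable def ret (d k : ℕ) : ℝ := (kern univ (2 * k) (0 : Lat d) 0).toReal

lemma ret_eq {d : ℕ} (hd : 1 ≤ d) (k : ℕ) : ret d k = ∫ θ, phi θ ^ (2 * k) ∂(nuP d) := by
  rw [ret, kern_univ_eq hd]
  simp

lemma phi_even_nonneg {d : ℕ} (k : ℕ) (θ : Fin d → ℝ) : 0 ≤ phi θ ^ (2 * k) := by
  rw [pow_mul]; positivity

lemma integrable_phi_pow {d : ℕ} (m : ℕ) : Integrable (fun θ => phi θ ^ m) (nuP d) :=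
  integrable_of_cont_bdd (by have := continuous_phi (d := d); fun_prop) 1 fun θ => by
    rw [abs_pow]; exact pow_le_one₀ (abs_nonneg _) (abs_phi_le _)

lemma ret_nonneg (d k : ℕ) : 0 ≤ ret d k := ENNReal.toReal_nonneg

lemma ret_anti {d : ℕ} (hd : 1 ≤ d) : Antitone (ret d) := by
  refine antitone_nat_of_succ_le fun k => ?_
  rw [ret_eq hd, ret_eq hd]
  refine integral_mono (integrable_phi_pow _) (integrable_phi_pow _) fun θ => ?_
  simp only
  rw [show 2 * (k + 1) = 2 * k + 2 by ring, pow_add]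
  have h1 : phi θ ^ 2 ≤ 1 := by
    rw [sq_le_one_iff_abs_le_one]; exact abs_phi_le θ
  have h2 := phi_even_nonneg k θ
  nlinarith

lemma ret_le_one (d k : ℕ) : ret d k ≤ 1 := by
  have := ENNReal.toReal_mono ENNReal.one_ne_top (kern_le_one univ (2 * k) (0 : Lat d) 0)
  simpa [ret] using this

lemma hasSum_ret {d : ℕ} (hd : 1 ≤ d) {t : ℝ} (ht : 0 ≤ t) :
    HasSum (fun k => pois t (2 * k) * ret d k) (q1 (t / d) 0 ^ d) := by
  have h := hasSum_pois_kern hd ht (0 : Lat d)
  simp only [Pi.zero_apply, Finset.prod_const, Finset.card_univ, Fintype.card_fin] at h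
  have h1 : Summable fun k => pois t (2 * k) * ret d k :=
    h.summable.comp_injective (i := fun k => 2 * k) (fun a b h => by simpa using h)
  have hodd : ∀ k, pois t (2 * k + 1) * (kern univ (2 * k + 1) (0 : Lat d) 0).toReal = 0 := by
    intro k
    rw [kern_parity]
    · simp
    · simp
  have h2 : HasSum (fun k => pois t (2 * k + 1) * (kern univ (2 * k + 1) (0 : Lat d) 0).toReal) 0 := by
    simp_rw [hodd]
    exact hasSum_zero
  have h3 := HasSum.even_add_odd
    (f := fun m => pois t m * (kern univ m (0 : Lat d) 0).toReal) h1.hasSum h2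
  have h4 := h3.unique h
  rw [add_zero] at h4
  rw [← h4]
  exact h1.hasSum

lemma ret_upper {d : ℕ} (hd : 1 ≤ d) {ε : ℝ} (h0 : 0 < ε) (h1 : ε < 1) (K : ℕ) :
    ret d K * (1 / 2 - Real.exp (-(ε ^ 2 / 2) * K)) ≤ q1 (2 * K * (1 - ε) / d) 0 ^ d := by
  set t : ℝ := 2 * K * (1 - ε) with ht
  have ht0 : 0 ≤ t := by
    have : (0 : ℝ) ≤ K := by positivity
    rw [ht]; nlinarith
  have hs := hasSum_ret hd ht0
  have he := hasSum_pois_even t
  have htail := pois_tail_gt h0 h1 K
  rw [← ht] at htail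
  have hsplit : ∑' k, pois t (2 * k) ≤
      ∑' k, (if k ≤ K then pois t (2 * k) else 0) + ∑' m, (if 2 * K ≤ m then pois t m else 0) := by
    have hsA : Summable fun k => (if k ≤ K then pois t (2 * k) else 0) := by
      refine Summable.of_nonneg_of_le (fun m => ?_) (fun m => ?_) he.summable
      · split_ifs
        · exact pois_nonneg ht0 _
        · exact le_rfl
      · split_ifs
        · exact le_rfl
        · exact pois_nonneg ht0 _
    have hsB0 : Summable fun m => (if 2 * K ≤ m then pois t m else 0) := by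
      refine Summable.of_nonneg_of_le (fun m => ?_) (fun m => ?_) (summable_pois t)
      · split_ifs
        · exact pois_nonneg ht0 _
        · exact le_rfl
      · split_ifs
        · exact le_rfl
        · exact pois_nonneg ht0 _
    have hinj : Function.Injective (fun k : ℕ => 2 * k) := fun a b h => by simpa using h
    have hsB : Summable fun k => (if 2 * K ≤ 2 * k then pois t (2 * k) else 0) :=
      hsB0.comp_injective hinj
    have h2 : ∑' k, (if 2 * K ≤ 2 * k then pois t (2 * k) else 0) ≤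
        ∑' m, (if 2 * K ≤ m then pois t m else 0) := by
      refine Summable.tsum_le_tsum_of_inj (fun k : ℕ => 2 * k) hinj (fun m _ => ?_) (fun k => le_rfl)
        hsB hsB0
      split_ifs
      · exact pois_nonneg ht0 _
      · exact le_rfl
    refine le_trans ?_ (add_le_add_right h2 _)
    rw [← hsA.tsum_add hsB]
    refine Summable.tsum_le_tsum (fun k => ?_) he.summable (hsA.add hsB)
    have h0' := pois_nonneg ht0 (2 * k)
    split_ifs with h3 h4 h4
    · linarith
    · linarith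
    · linarith
    · omega
  have hmain : ret d K * ∑' k, (if k ≤ K then pois t (2 * k) else 0) ≤ q1 (t / d) 0 ^ d := by
    rw [← tsum_mul_left, ← hs.tsum_eq]
    refine Summable.tsum_le_tsum (fun k => ?_) ?_ hs.summable
    · have h0' := pois_nonneg ht0 (2 * k)
      split_ifs with h3
      · rw [mul_comm]
        exact mul_le_mul_of_nonneg_left (ret_anti hd h3) h0'
      · rw [mul_zero]
        exact mul_nonneg h0' (ret_nonneg _ _)
    · refine Summable.mul_left _ ?_
      refine Summable.of_nonneg_of_le (fun m => ?_) (fun m => ?_) he.summable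
      · split_ifs
        · exact pois_nonneg ht0 _
        · exact le_rfl
      · split_ifs
        · exact le_rfl
        · exact pois_nonneg ht0 _
  refine le_trans ?_ hmain
  refine mul_le_mul_of_nonneg_left ?_ (ret_nonneg _ _)
  rw [he.tsum_eq] at hsplit
  have := Real.exp_pos (-2 * t)
  linarith

lemma ret_lower {d : ℕ} (hd : 1 ≤ d) {ε : ℝ} (h0 : 0 < ε) (K : ℕ) :
    q1 (2 * K * (1 + ε) / d) 0 ^ d - Real.exp (-(ε ^ 2 / (2 * (1 + ε / 2))) * K) ≤
      ret d K * ((1 + Real.exp (-2 * (2 * K * (1 + ε)))) / 2) := by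
  set t : ℝ := 2 * K * (1 + ε) with ht
  have ht0 : 0 ≤ t := by positivity
  have hs := hasSum_ret hd ht0
  have he := hasSum_pois_even t
  have htail := pois_tail_lt h0 K
  rw [← ht] at htail
  have hinj : Function.Injective (fun k : ℕ => 2 * k) := fun a b h => by simpa using h
  have hsB0 : Summable fun m => (if m ≤ 2 * K then pois t m else 0) := by
    refine Summable.of_nonneg_of_le (fun m => ?_) (fun m => ?_) (summable_pois t)
    · split_ifs
      · exact pois_nonneg ht0 _
      · exact le_rfl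
    · split_ifs
      · exact le_rfl
      · exact pois_nonneg ht0 _
  have hsB : Summable fun k => (if 2 * k ≤ 2 * K then pois t (2 * k) else 0) :=
    hsB0.comp_injective hinj
  have h2 : ∑' k, (if 2 * k ≤ 2 * K then pois t (2 * k) else 0) ≤
      ∑' m, (if m ≤ 2 * K then pois t m else 0) := by
    refine Summable.tsum_le_tsum_of_inj (fun k : ℕ => 2 * k) hinj (fun m _ => ?_) (fun k => le_rfl)
      hsB hsB0
    split_ifs
    · exact pois_nonneg ht0 _
    · exact le_rfl
  have h3 : q1 (t / d) 0 ^ d ≤ ∑' k, (if 2 * k ≤ 2 * K then pois t (2 * k) else 0) +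
      ret d K * ∑' k, pois t (2 * k) := by
    rw [← hs.tsum_eq, ← tsum_mul_left, ← hsB.tsum_add (he.summable.mul_left _)]
    refine Summable.tsum_le_tsum (fun k => ?_) hs.summable (hsB.add (he.summable.mul_left _))
    have h0' := pois_nonneg ht0 (2 * k)
    have h1' := ret_nonneg d K
    split_ifs with h4
    · have : pois t (2 * k) * ret d k ≤ pois t (2 * k) * 1 :=
        mul_le_mul_of_nonneg_left (ret_le_one _ _) h0'
      nlinarith [mul_nonneg h0' h1']
    · rw [zero_add, mul_comm]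
      exact mul_le_mul_of_nonneg_right (ret_anti hd (by omega)) h0'
  rw [he.tsum_eq] at h3
  linarith

/-! ### Asymptotics -/

/-- the constant -/
noncomputable def cB (d : ℕ) : ℝ := (√d * (√(2 * π))⁻¹) ^ d

lemma cB_pos {d : ℕ} (hd : 1 ≤ d) : 0 < cB d := by
  unfold cB
  have : (0 : ℝ) < d := by exact_mod_cast hd
  positivity

lemma rpow_half_eq (d : ℕ) {t : ℝ} (ht : 0 ≤ t) : t ^ ((d : ℝ) / 2) = √t ^ d := by
  rw [Real.sqrt_eq_rpow, ← Real.rpow_natCast, ← Real.rpow_mul ht]
  congr 1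
  ring

lemma q1_pow_tendsto {d : ℕ} (hd : 1 ≤ d) :
    Tendsto (fun t : ℝ => t ^ ((d : ℝ) / 2) * q1 (t / d) 0 ^ d) atTop (𝓝 (cB d)) := by
  have hd0 : (0 : ℝ) < d := by exact_mod_cast hd
  have h1 : Tendsto (fun t : ℝ => t / d) atTop atTop := tendsto_id.atTop_div_const hd0
  have h2 := ((sqrt_mul_q1_tendsto.comp h1).const_mul √d).pow d
  refine h2.congr' ?_
  filter_upwards [eventually_ge_atTop 0] with t ht
  rw [rpow_half_eq d ht, ← mul_pow]
  congr 1
  simp only [Function.comp]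
  rw [← mul_assoc, ← Real.sqrt_mul hd0.le, mul_div_cancel₀ _ hd0.ne']

lemma tendsto_exp_neg_nat {c : ℝ} (hc : 0 < c) :
    Tendsto (fun K : ℕ => Real.exp (-c * K)) atTop (𝓝 0) := by
  apply Real.tendsto_exp_atBot.comp
  exact tendsto_natCast_atTop_atTop.const_mul_atTop_of_neg (by linarith)

lemma tendsto_rpow_mul_exp_neg_nat {c : ℝ} (hc : 0 < c) (a : ℝ) :
    Tendsto (fun K : ℕ => (K : ℝ) ^ a * Real.exp (-c * K)) atTop (𝓝 0) :=
  (tendsto_rpow_mul_exp_neg_mul_atTop_nhds_zero a c hc).comp tendsto_natCast_atTop_atTop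

lemma tendsto_scaled_atTop {c : ℝ} (hc : 0 < c) : Tendsto (fun K : ℕ => 2 * (K : ℝ) * c) atTop atTop := by
  have := tendsto_natCast_atTop_atTop (R := ℝ) |>.const_mul_atTop (show (0 : ℝ) < 2 * c by positivity)
  refine this.congr fun K => by ring

lemma scaled_q1_tendsto {d : ℕ} (hd : 1 ≤ d) {c : ℝ} (hc : 0 < c) :
    Tendsto (fun K : ℕ => (K : ℝ) ^ ((d : ℝ) / 2) * q1 (2 * K * c / d) 0 ^ d) atTop
      (𝓝 ((2 * c) ^ (-(d : ℝ) / 2) * cB d)) := by
  have h := ((q1_pow_tendsto hd).comp (tendsto_scaled_atTop hc)).const_mul ((2 * c) ^ (-(d : ℝ) / 2))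
  refine h.congr fun K => ?_
  simp only [Function.comp]
  rw [show 2 * (K : ℝ) * c = (2 * c) * K by ring,
    Real.mul_rpow (x := 2 * c) (y := (K : ℝ)) (by positivity) (by positivity)]
  have h1 : (2 * c) ^ (-(d : ℝ) / 2) * (2 * c) ^ ((d : ℝ) / 2) = 1 := by
    rw [← Real.rpow_add (by positivity), show -(d : ℝ) / 2 + d / 2 = 0 by ring, Real.rpow_zero]
  linear_combination ((K : ℝ) ^ ((d : ℝ) / 2) * q1 (2 * c * K / d) 0 ^ d) * h1

theorem ret_tendsto {d : ℕ} (hd : 1 ≤ d) :
    Tendsto (fun K : ℕ => (K : ℝ) ^ ((d : ℝ) / 2) * ret d K) atTop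
      (𝓝 (2 ^ (-(d : ℝ) / 2) * cB d * 2)) := by
  set c₀ : ℝ := 2 ^ (-(d : ℝ) / 2) * cB d * 2 with hc₀
  -- the function `c ↦ (2c)^(-d/2) cB * 2` is continuous at `1`
  have hcont : Tendsto (fun c : ℝ => (2 * c) ^ (-(d : ℝ) / 2) * cB d * 2) (𝓝 1) (𝓝 c₀) := by
    have h1 : ContinuousAt (fun c : ℝ => (2 * c) ^ (-(d : ℝ) / 2)) 1 := by
      apply ContinuousAt.rpow_const
      · fun_prop
      · left; norm_num
    have h2 := (h1.tendsto.mul_const (cB d)).mul_const 2
    simpa [hc₀] using h2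
  rw [tendsto_order]
  constructor
  · intro a ha
    have h1 : ∀ᶠ c : ℝ in 𝓝 1, a < (2 * c) ^ (-(d : ℝ) / 2) * cB d * 2 :=
      hcont.eventually (lt_mem_nhds ha)
    rw [Metric.eventually_nhds_iff] at h1
    obtain ⟨δ, hδ, h1⟩ := h1
    have hε : (0 : ℝ) < δ / 2 := by positivity
    have h2 := h1 (y := 1 + δ / 2) (by simp [abs_of_pos hδ]; linarith)
    have hexp : (0 : ℝ) < (δ / 2) ^ 2 / (2 * (1 + δ / 2 / 2)) := by positivity
    have h3 := ((scaled_q1_tendsto hd (show (0 : ℝ) < 1 + δ / 2 by positivity)).sub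
      (tendsto_rpow_mul_exp_neg_nat hexp ((d : ℝ) / 2))).div
      (((tendsto_exp_neg_nat (show (0 : ℝ) < 4 * (1 + δ / 2) by positivity)).const_add 1).div_const 2)
      (by norm_num)
    rw [sub_zero, add_zero] at h3
    have h4 : (2 * (1 + δ / 2)) ^ (-(d : ℝ) / 2) * cB d / (1 / 2) =
      (2 * (1 + δ / 2)) ^ (-(d : ℝ) / 2) * cB d * 2 := by ring
    rw [h4] at h3
    filter_upwards [h3.eventually (lt_mem_nhds h2)] with K hK
    refine lt_of_lt_of_le hK ?_
    simp only [Pi.div_apply]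
    rw [div_le_iff₀ (by positivity)]
    have h5 := ret_lower hd hε K
    have hK0 : (0 : ℝ) ≤ (K : ℝ) ^ ((d : ℝ) / 2) := by positivity
    have h6 := mul_le_mul_of_nonneg_left h5 hK0
    have h7 : Real.exp (-2 * (2 * K * (1 + δ / 2))) = Real.exp (-(4 * (1 + δ / 2)) * K) := by
      congr 1; ring
    rw [h7] at h6
    linarith
  · intro a ha
    have h1 : ∀ᶠ c : ℝ in 𝓝 1, (2 * c) ^ (-(d : ℝ) / 2) * cB d * 2 < a :=
      hcont.eventually (gt_mem_nhds ha)
    rw [Metric.eventually_nhds_iff] at h1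
    obtain ⟨δ, hδ, h1⟩ := h1
    set ε : ℝ := min (δ / 2) (1 / 2) with hεdef
    have hε : (0 : ℝ) < ε := by positivity
    have hε1 : ε < 1 := lt_of_le_of_lt (min_le_right _ _) (by norm_num)
    have hεδ : ε < δ := lt_of_le_of_lt (min_le_left _ _) (by linarith)
    have h2 := h1 (y := 1 - ε) (by
      rw [Real.dist_eq, show 1 - ε - 1 = -ε by ring, abs_neg, abs_of_pos hε]
      exact hεδ)
    have hexp : (0 : ℝ) < ε ^ 2 / 2 := by positivity
    have h3 := (scaled_q1_tendsto hd (show (0 : ℝ) < 1 - ε by linarith)).div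
      ((tendsto_exp_neg_nat hexp).const_sub (1 / 2)) (by norm_num)
    rw [sub_zero] at h3
    have h4 : (2 * (1 - ε)) ^ (-(d : ℝ) / 2) * cB d / (1 / 2) =
      (2 * (1 - ε)) ^ (-(d : ℝ) / 2) * cB d * 2 := by ring
    rw [h4] at h3
    have h8 : ∀ᶠ K : ℕ in atTop, 0 < (1 / 2 - Real.exp (-(ε ^ 2 / 2) * K)) := by
      have := ((tendsto_exp_neg_nat hexp).const_sub (1 / 2)).eventually
        (lt_mem_nhds (show (0 : ℝ) < 1 / 2 - 0 by norm_num))
      exact this
    filter_upwards [h3.eventually (gt_mem_nhds h2), h8] with K hK hK8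
    refine lt_of_le_of_lt ?_ hK
    simp only [Pi.div_apply]
    rw [le_div_iff₀ hK8]
    have h5 := ret_upper hd hε hε1 K
    have hK0 : (0 : ℝ) ≤ (K : ℝ) ^ ((d : ℝ) / 2) := by positivity
    have h6 := mul_le_mul_of_nonneg_left h5 hK0
    linarith

theorem kern_even_asymp (d : ℕ) (hd : 1 ≤ d) : ∃ c : ℝ, 0 < c ∧ Tendsto (fun k : ℕ =>
    (k : ℝ) ^ ((d : ℝ) / 2) * (kern Set.univ (2 * k) (0 : Lat d) 0).toReal) atTop (𝓝 c) :=
  ⟨_, by have := cB_pos hd; positivity, ret_tendsto hd⟩

lemma kern_le_ret {d : ℕ} (hd : 1 ≤ d) (k m : ℕ) (hm : 2 * k ≤ m) (x y : Lat d) :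
    (kern univ m x y).toReal ≤ ret d k := by
  rw [kern_univ_eq hd, ret_eq hd]
  refine integral_mono ?_ (integrable_phi_pow _) fun θ => ?_
  · refine integrable_of_cont_bdd (by have := continuous_phi (d := d); fun_prop) 1 fun θ => ?_
    rw [abs_mul, abs_pow]
    calc _ ≤ (1 : ℝ) * 1 := by
          gcongr
          · exact abs_cosprod_le _ _
          · exact pow_le_one₀ (abs_nonneg _) (abs_phi_le _)
      _ = 1 := by ring
  · simp only
    refine (le_abs_self _).trans ?_
    rw [abs_mul, abs_pow]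
    calc _ ≤ 1 * |phi θ| ^ (2 * k) := by
          gcongr ?_ * ?_
          · exact abs_cosprod_le _ _
          · exact pow_le_pow_of_le_one (abs_nonneg _) (abs_phi_le _) hm
      _ = phi θ ^ (2 * k) := by rw [one_mul, pow_mul, sq_abs, ← pow_mul]

theorem kern_le (d : ℕ) (hd : 1 ≤ d) : ∃ C : ℝ, 0 < C ∧ ∀ m : ℕ, 1 ≤ m → ∀ x y : Lat d,
    (kern Set.univ m x y).toReal ≤ C * (m : ℝ) ^ (-(d : ℝ) / 2) := by
  obtain ⟨C₁, hC₁⟩ := (ret_tendsto hd).bddAbove_range
  have hC : ∀ K : ℕ, (K : ℝ) ^ ((d : ℝ) / 2) * ret d K ≤ C₁ := fun K => hC₁ ⟨K, rfl⟩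
  refine ⟨(1 + |C₁|) * 3 ^ ((d : ℝ) / 2), by positivity, fun m hm x y => ?_⟩
  have hm0 : (0 : ℝ) < m := by exact_mod_cast hm
  have hd2 : (0 : ℝ) ≤ (d : ℝ) / 2 := by positivity
  have key : (kern univ m x y).toReal ≤ (1 + |C₁|) * ((3 : ℝ) ^ ((d : ℝ) / 2) * (m : ℝ) ^ (-((d : ℝ) / 2))) := by
    have h3m : (3 : ℝ) ^ ((d : ℝ) / 2) * (m : ℝ) ^ (-((d : ℝ) / 2)) = (3 / m) ^ ((d : ℝ) / 2) := by
      rw [Real.div_rpow (by norm_num) hm0.le, Real.rpow_neg hm0.le]
      exact (div_eq_mul_inv _ _).symm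
    rw [h3m]
    by_cases hm2 : m = 1
    · subst hm2
      have h1 := ENNReal.toReal_mono ENNReal.one_ne_top (kern_le_one univ 1 x y)
      rw [ENNReal.toReal_one] at h1
      have h2 : (1 : ℝ) ≤ (3 / ((1 : ℕ) : ℝ)) ^ ((d : ℝ) / 2) := by
        apply Real.one_le_rpow (by norm_num) hd2
      have h3 : (0 : ℝ) ≤ |C₁| := abs_nonneg _
      nlinarith
    · set k := m / 2 with hk
      have hk1 : 1 ≤ k := by omega
      have hk0 : (0 : ℝ) < k := by exact_mod_cast hk1
      have h1 := kern_le_ret hd k m (by omega) x y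
      have h2 := hC k
      have h3 : ret d k ≤ |C₁| * ((1 : ℝ) / k) ^ ((d : ℝ) / 2) := by
        rw [Real.div_rpow (by norm_num) hk0.le, Real.one_rpow, mul_one_div, le_div_iff₀ (by positivity)]
        calc ret d k * (k : ℝ) ^ ((d : ℝ) / 2) = (k : ℝ) ^ ((d : ℝ) / 2) * ret d k := by ring
          _ ≤ C₁ := h2
          _ ≤ |C₁| := le_abs_self _
      have h4 : ((1 : ℝ) / k) ^ ((d : ℝ) / 2) ≤ (3 / m) ^ ((d : ℝ) / 2) := by
        apply Real.rpow_le_rpow (by positivity) _ hd2
        rw [div_le_div_iff₀ hk0 hm0]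
        have : m ≤ 3 * k := by omega
        have : (m : ℝ) ≤ 3 * k := by exact_mod_cast this
        linarith
      have h5 : (0 : ℝ) ≤ (3 / m) ^ ((d : ℝ) / 2) := by positivity
      calc (kern univ m x y).toReal ≤ |C₁| * ((1 : ℝ) / k) ^ ((d : ℝ) / 2) := h1.trans h3
        _ ≤ |C₁| * (3 / m) ^ ((d : ℝ) / 2) := by gcongr
        _ ≤ _ := by nlinarith
  rw [show -(d : ℝ) / 2 = -((d : ℝ) / 2) by ring, mul_assoc]
  exact key

/-! ### Ratio limit theorem -/

/-- the defect `p_{2k}(0) - p_{2k}(z)` -/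
noncomputable def defect {d : ℕ} (k : ℕ) (z : Lat d) : ℝ :=
  ret d k - (kern univ (2 * k) 0 z).toReal

lemma defect_eq {d : ℕ} (hd : 1 ≤ d) (k : ℕ) (z : Lat d) :
    defect k z = ∫ θ, (1 - Real.cos (∑ j, z j * θ j)) * phi θ ^ (2 * k) ∂(nuP d) := by
  rw [defect, ret_eq hd, kern_univ_eq' hd, ← integral_sub (integrable_phi_pow _)]
  · refine integral_congr_ae (Eventually.of_forall fun θ => ?_)
    simp
    ring
  · refine integrable_of_cont_bdd (by have := continuous_phi (d := d); fun_prop) 1 fun θ => ?_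
    rw [abs_mul, abs_pow]
    calc _ ≤ (1 : ℝ) * 1 := by
          gcongr
          · exact Real.abs_cos_le_one _
          · exact pow_le_one₀ (abs_nonneg _) (abs_phi_le _)
      _ = 1 := by ring

lemma integrable_defect {d : ℕ} (k : ℕ) (z : Lat d) :
    Integrable (fun θ : Fin d → ℝ => (1 - Real.cos (∑ j, z j * θ j)) * phi θ ^ (2 * k)) (nuP d) := by
  refine integrable_of_cont_bdd (by have := continuous_phi (d := d); fun_prop) 2 fun θ => ?_
  rw [abs_mul, abs_pow]
  have h1 := Real.cos_le_one (∑ j, (z j : ℝ) * θ j)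
  have h2 := Real.neg_one_le_cos (∑ j, (z j : ℝ) * θ j)
  calc _ ≤ (2 : ℝ) * 1 := by
        gcongr
        · rw [abs_le]; constructor <;> linarith
        · exact pow_le_one₀ (abs_nonneg _) (abs_phi_le _)
    _ = 2 := by ring

lemma defect_nonneg {d : ℕ} (hd : 1 ≤ d) (k : ℕ) (z : Lat d) : 0 ≤ defect k z := by
  rw [defect_eq hd]
  refine integral_nonneg fun θ => mul_nonneg ?_ (phi_even_nonneg _ _)
  linarith [Real.cos_le_one (∑ j, (z j : ℝ) * θ j)]

lemma one_sub_cos_add (α β : ℝ) :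
    1 - Real.cos (α + β) ≤ 2 * (1 - Real.cos α) + 2 * (1 - Real.cos β) := by
  rw [Real.cos_add]
  have h1 := Real.sin_sq_add_cos_sq α
  have h2 := Real.sin_sq_add_cos_sq β
  nlinarith [sq_nonneg (Real.sin α - Real.sin β), sq_nonneg (Real.cos α + Real.cos β - 2)]

lemma defect_add {d : ℕ} (hd : 1 ≤ d) (k : ℕ) (z w : Lat d) :
    defect k (z + w) ≤ 2 * defect k z + 2 * defect k w := by
  rw [defect_eq hd, defect_eq hd, defect_eq hd, ← integral_const_mul, ← integral_const_mul,
    ← integral_add ((integrable_defect k z).const_mul 2) ((integrable_defect k w).const_mul 2)]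
  refine integral_mono (integrable_defect k _)
    (((integrable_defect k z).const_mul 2).add ((integrable_defect k w).const_mul 2)) fun θ => ?_
  have h1 : ∑ j, ((z + w) j : ℝ) * θ j = ∑ j, (z j : ℝ) * θ j + ∑ j, (w j : ℝ) * θ j := by
    rw [← Finset.sum_add_distrib]
    refine Finset.sum_congr rfl fun j _ => ?_
    simp; ring
  simp only
  rw [h1]
  have h2 := one_sub_cos_add (∑ j, (z j : ℝ) * θ j) (∑ j, (w j : ℝ) * θ j)
  have h3 := phi_even_nonneg k θ
  nlinarith

lemma kern_trans {d : ℕ} (hd : 1 ≤ d) (m : ℕ) (x y z : Lat d) :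
    (kern univ m (x + z) (y + z)).toReal = (kern univ m x y).toReal := by
  rw [kern_univ_eq hd, kern_univ_eq hd, add_sub_add_right_eq_sub]

lemma kern_neg {d : ℕ} (hd : 1 ≤ d) (m : ℕ) (z : Lat d) :
    (kern univ m z 0).toReal = (kern univ m 0 z).toReal := by
  rw [kern_univ_eq hd, kern_univ_eq hd]
  congr 1
  funext θ
  congr 1
  refine Finset.prod_congr rfl fun j _ => ?_
  simp

/-- one step -/
lemma kern_succ' {d : ℕ} (hd : 1 ≤ d) (m : ℕ) (z : Lat d) :
    (kern univ (m + 1) 0 z).toReal =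
      ∑ e : Step d, (2 * (d : ℝ))⁻¹ * (kern univ m 0 (z - stepVec e)).toReal := by
  rw [kern_toReal_succ, if_pos (mem_univ _)]
  refine Finset.sum_congr rfl fun e _ => ?_
  rw [← kern_trans hd m 0 (z - stepVec e) (stepVec e)]
  simp

lemma sum_inv_step {d : ℕ} (hd : 1 ≤ d) (c : ℝ) : ∑ _e : Step d, (2 * (d : ℝ))⁻¹ * c = c := by
  have : (d : ℝ) ≠ 0 := by positivity
  simp
  field_simp

lemma ret_sub_eq {d : ℕ} (hd : 1 ≤ d) (k : ℕ) : ret d k - ret d (k + 1) =
    ∑ e : Step d, ∑ e' : Step d, (2 * (d : ℝ))⁻¹ * ((2 * (d : ℝ))⁻¹ *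
      defect k (-stepVec e - stepVec e' : Lat d)) := by
  have h1 : ret d (k + 1) = ∑ e : Step d, ∑ e' : Step d, (2 * (d : ℝ))⁻¹ * ((2 * (d : ℝ))⁻¹ *
      (kern univ (2 * k) 0 (-stepVec e - stepVec e' : Lat d)).toReal) := by
    rw [ret, show 2 * (k + 1) = (2 * k + 1) + 1 by ring, kern_succ' hd]
    refine Finset.sum_congr rfl fun e _ => ?_
    rw [kern_succ' hd, Finset.mul_sum]
    simp
  have h2 : ret d k = ∑ e : Step d, ∑ e' : Step d, (2 * (d : ℝ))⁻¹ * ((2 * (d : ℝ))⁻¹ * ret d k) := by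
    have h3 : ∀ e : Step d, ∑ e' : Step d, (2 * (d : ℝ))⁻¹ * ((2 * (d : ℝ))⁻¹ * ret d k) =
        (2 * (d : ℝ))⁻¹ * ret d k := fun e => sum_inv_step hd _
    rw [Finset.sum_congr rfl fun e _ => h3 e, sum_inv_step hd]
  rw [h1]
  conv_lhs => rw [h2]
  rw [← Finset.sum_sub_distrib]
  refine Finset.sum_congr rfl fun e _ => ?_
  rw [← Finset.sum_sub_distrib]
  refine Finset.sum_congr rfl fun e' _ => ?_
  rw [defect]
  ring

lemma defect_two_le {d : ℕ} (hd : 1 ≤ d) (e e' : Step d) (k : ℕ) :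
    defect k (-stepVec e - stepVec e' : Lat d) ≤ (2 * d) ^ 2 * (ret d k - ret d (k + 1)) := by
  have hd0 : (0 : ℝ) < d := by exact_mod_cast hd
  rw [ret_sub_eq hd]
  have hnn : ∀ e e' : Step d, 0 ≤ (2 * (d : ℝ))⁻¹ * ((2 * (d : ℝ))⁻¹ *
      defect k (-stepVec e - stepVec e' : Lat d)) := fun e e' => by
    have := defect_nonneg hd k (-stepVec e - stepVec e' : Lat d)
    positivity
  have h1 : (2 * (d : ℝ))⁻¹ * ((2 * (d : ℝ))⁻¹ * defect k (-stepVec e - stepVec e' : Lat d)) ≤
      ∑ e : Step d, ∑ e' : Step d, (2 * (d : ℝ))⁻¹ * ((2 * (d : ℝ))⁻¹ *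
      defect k (-stepVec e - stepVec e' : Lat d)) :=
    (Finset.single_le_sum (f := fun e' => (2 * (d : ℝ))⁻¹ * ((2 * (d : ℝ))⁻¹ *
      defect k (-stepVec e - stepVec e' : Lat d))) (fun e' _ => hnn e e') (Finset.mem_univ e')).trans
    (Finset.single_le_sum (f := fun e => ∑ e' : Step d, (2 * (d : ℝ))⁻¹ * ((2 * (d : ℝ))⁻¹ *
      defect k (-stepVec e - stepVec e' : Lat d)))
      (fun e _ => Finset.sum_nonneg fun e' _ => hnn e e') (Finset.mem_univ e))
  calc defect k (-stepVec e - stepVec e' : Lat d) = (2 * d) ^ 2 *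
        ((2 * (d : ℝ))⁻¹ * ((2 * (d : ℝ))⁻¹ * defect k (-stepVec e - stepVec e' : Lat d))) := by
        field_simp
    _ ≤ _ := by gcongr

/-- `z` is controlled -/
def Ctrl (d : ℕ) (z : Lat d) : Prop := ∃ C : ℝ, ∀ k, defect k z ≤ C * (ret d k - ret d (k + 1))

lemma ctrl_add {d : ℕ} (hd : 1 ≤ d) {z w : Lat d} (hz : Ctrl d z) (hw : Ctrl d w) :
    Ctrl d (z + w) := by
  obtain ⟨C, hC⟩ := hz
  obtain ⟨C', hC'⟩ := hw
  refine ⟨2 * C + 2 * C', fun k => ?_⟩
  have := defect_add hd k z w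
  have h1 := hC k
  have h2 := hC' k
  linarith

lemma stepVec_neg {d : ℕ} (i : Fin d) (b : Bool) : (stepVec (i, !b) : Lat d) = - stepVec (i, b) := by
  unfold stepVec
  rw [← Pi.single_neg]
  cases b <;> simp

lemma ctrl_step {d : ℕ} (hd : 1 ≤ d) (e e' : Step d) : Ctrl d (stepVec e + stepVec e') := by
  obtain ⟨i, b⟩ := e
  obtain ⟨i', b'⟩ := e'
  refine ⟨(2 * d) ^ 2, fun k => ?_⟩
  have h := defect_two_le hd (i, !b) (i', !b') k
  rw [stepVec_neg, stepVec_neg, neg_neg, sub_neg_eq_add] at h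
  exact h

/-- subtracting a step which decreases the `ℓ¹` norm -/
lemma exists_step {d : ℕ} (z : Lat d) (hz : z ≠ 0) :
    ∃ e : Step d, ∑ i, |(z - stepVec e) i| + 1 = ∑ i, |z i| := by
  obtain ⟨i, hi⟩ : ∃ i, z i ≠ 0 := by
    by_contra hcon
    push Not at hcon
    exact hz (funext hcon)
  refine ⟨(i, decide (0 < z i)), ?_⟩
  rw [← Finset.add_sum_erase Finset.univ (fun j => |z j|) (Finset.mem_univ i),
    ← Finset.add_sum_erase Finset.univ (fun j => |(z - stepVec (i, decide (0 < z i))) j|)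
      (Finset.mem_univ i)]
  have h1 : ∑ j ∈ Finset.univ.erase i, |(z - stepVec (i, decide (0 < z i))) j| =
      ∑ j ∈ Finset.univ.erase i, |z j| := by
    refine Finset.sum_congr rfl fun j hj => ?_
    have : j ≠ i := Finset.ne_of_mem_erase hj
    simp [stepVec, this]
  rw [h1]
  have h2 : |(z - stepVec (i, decide (0 < z i))) i| + 1 = |z i| := by
    simp only [stepVec, Pi.sub_apply, Pi.single_eq_same]
    rcases lt_or_gt_of_ne hi with h | h
    · have h' : ¬ 0 < z i := by omega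
      simp only [h', decide_false, Bool.false_eq_true, if_false]
      rw [abs_of_neg h, abs_of_nonpos (by omega)]
      ring
    · simp only [h, decide_true, if_true]
      rw [abs_of_pos h, abs_of_nonneg (by omega)]
      ring
  linarith

lemma abs_sum_parity {d : ℕ} (z : Lat d) : Even (∑ i, z i) ↔ Even (∑ i, |z i|) := by
  have h : Even (∑ i, |z i| - ∑ i, z i) := by
    rw [← Finset.sum_sub_distrib]
    refine Finset.sum_induction _ (fun x : ℤ => Even x) (fun a b ha hb => ha.add hb) ⟨0, by simp⟩ ?_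
    intro i _
    rcases abs_choice (z i) with h | h
    · rw [h, sub_self]; exact ⟨0, by simp⟩
    · rw [h]; exact ⟨-z i, by ring⟩
  rw [Int.even_sub] at h
  exact h.symm

lemma ctrl_zero {d : ℕ} : Ctrl d 0 := by
  refine ⟨0, fun k => ?_⟩
  rw [defect, ret]
  simp

lemma ctrl_of_even {d : ℕ} (hd : 1 ≤ d) (z : Lat d) (hz : Even (∑ i, z i)) : Ctrl d z := by
  rw [abs_sum_parity] at hz
  obtain ⟨r, hr⟩ := hz
  have hr0 : 0 ≤ r := by
    have : 0 ≤ ∑ i, |z i| := Finset.sum_nonneg fun i _ => abs_nonneg _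
    omega
  lift r to ℕ using hr0
  induction r generalizing z with
  | zero =>
    have : z = 0 := by
      funext i
      simp at hr
      have h1 := (Finset.sum_eq_zero_iff_of_nonneg (fun i _ => abs_nonneg (z i))).1 hr i
        (Finset.mem_univ i)
      simpa using h1
    rw [this]
    exact ctrl_zero
  | succ r ih =>
    have hz0 : z ≠ 0 := by
      rintro rfl
      simp at hr
      omega
    obtain ⟨e, he⟩ := exists_step z hz0
    have hz1 : z - stepVec e ≠ 0 := by
      intro h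
      rw [h] at he
      simp at he
      push_cast at hr
      omega
    obtain ⟨e', he'⟩ := exists_step _ hz1
    have h := ih (z - stepVec e - stepVec e') (by push_cast at hr; linarith)
    have h2 := ctrl_add hd h (ctrl_step hd e e')
    have h3 : z - stepVec e - stepVec e' + (stepVec e + stepVec e') = z := by abel
    rwa [h3] at h2

lemma ret_pos_eventually {d : ℕ} (hd : 1 ≤ d) : ∀ᶠ k : ℕ in atTop, 0 < ret d k := by
  have hc : (0 : ℝ) < 2 ^ (-(d : ℝ) / 2) * cB d * 2 := by
    have := cB_pos hd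
    positivity
  filter_upwards [(ret_tendsto hd).eventually (lt_mem_nhds hc)] with k hk
  have h1 := ret_nonneg d k
  rcases h1.lt_or_eq with h | h
  · exact h
  · rw [← h] at hk; simp at hk

lemma ret_ratio {d : ℕ} (hd : 1 ≤ d) :
    Tendsto (fun k : ℕ => ret d (k + 1) / ret d k) atTop (𝓝 1) := by
  have hc : (2 : ℝ) ^ (-(d : ℝ) / 2) * cB d * 2 ≠ 0 := by
    have := cB_pos hd
    positivity
  have h1 := ret_tendsto hd
  have h2 := h1.comp (tendsto_add_atTop_nat 1)
  have h3 := h2.div h1 hc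
  rw [div_self hc] at h3
  have h4 : Tendsto (fun k : ℕ => ((k : ℝ) / (k + 1 : ℕ)) ^ ((d : ℝ) / 2)) atTop (𝓝 1) := by
    have h5 : Tendsto (fun k : ℕ => (k : ℝ) / (k + 1 : ℕ)) atTop (𝓝 1) := by
      simpa using tendsto_natCast_div_add_atTop (1 : ℝ)
    have h6 := h5.rpow_const (p := (d : ℝ) / 2) (Or.inr (by positivity))
    simpa using h6
  have h7 := h4.mul h3
  rw [mul_one] at h7
  refine h7.congr' ?_
  filter_upwards [eventually_gt_atTop 0, ret_pos_eventually hd] with k hk hpos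
  have hk0 : (0 : ℝ) < k := by exact_mod_cast hk
  simp only [Function.comp, Pi.div_apply]
  rw [Real.div_rpow hk0.le (by positivity)]
  have h8 : (0 : ℝ) < (k : ℝ) ^ ((d : ℝ) / 2) := by positivity
  have h9 : (0 : ℝ) < ((k + 1 : ℕ) : ℝ) ^ ((d : ℝ) / 2) := by positivity
  field_simp

lemma ret_ratio_shift {d : ℕ} (hd : 1 ≤ d) (j : ℕ) :
    Tendsto (fun k : ℕ => ret d (k + j) / ret d k) atTop (𝓝 1) := by
  induction j with
  | zero =>
    refine Tendsto.congr' ?_ tendsto_const_nhds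
    filter_upwards [ret_pos_eventually hd] with k hk
    rw [add_zero, div_self hk.ne']
  | succ j ih =>
    have h1 := ((ret_ratio hd).comp (tendsto_add_atTop_nat j)).mul ih
    rw [mul_one] at h1
    refine h1.congr' ?_
    have h2 : ∀ᶠ k : ℕ in atTop, 0 < ret d (k + j) :=
      (tendsto_add_atTop_nat j).eventually (ret_pos_eventually hd)
    filter_upwards [ret_pos_eventually hd, h2] with k hk hk2
    simp only [Function.comp]
    rw [← add_assoc]
    field_simp

lemma kern_ratio_even {d : ℕ} (hd : 1 ≤ d) (z : Lat d) (hz : Even (∑ i, z i)) :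
    Tendsto (fun k : ℕ => (kern univ (2 * k) 0 z).toReal / ret d k) atTop (𝓝 1) := by
  obtain ⟨C, hC⟩ := ctrl_of_even hd z hz
  have h1 : Tendsto (fun k : ℕ => 1 - |C| * (1 - ret d (k + 1) / ret d k)) atTop (𝓝 1) := by
    have := ((ret_ratio hd).const_sub 1).const_mul |C| |>.const_sub 1
    simpa using this
  refine tendsto_of_tendsto_of_tendsto_of_le_of_le' h1 tendsto_const_nhds ?_ ?_
  · filter_upwards [ret_pos_eventually hd] with k hk
    have h2 := hC k
    rw [le_div_iff₀ hk, defect] at *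
    have h3 : 0 ≤ ret d k - ret d (k + 1) := sub_nonneg.2 (ret_anti hd (Nat.le_succ k))
    have h4 : (1 - |C| * (1 - ret d (k + 1) / ret d k)) * ret d k =
        ret d k - |C| * (ret d k - ret d (k + 1)) := by
      field_simp
    rw [h4]
    have h5 : C * (ret d k - ret d (k + 1)) ≤ |C| * (ret d k - ret d (k + 1)) :=
      mul_le_mul_of_nonneg_right (le_abs_self _) h3
    linarith
  · filter_upwards [ret_pos_eventually hd] with k hk
    rw [div_le_one hk]
    have := defect_nonneg hd k z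
    rw [defect] at this
    linarith

lemma kern_ratio_odd {d : ℕ} (hd : 1 ≤ d) (z : Lat d) (hz : ¬ Even (∑ i, z i)) :
    Tendsto (fun k : ℕ => (kern univ (2 * k + 1) 0 z).toReal / ret d k) atTop (𝓝 1) := by
  have h1 : Tendsto (fun k : ℕ => ∑ e : Step d, (2 * (d : ℝ))⁻¹ *
      ((kern univ (2 * k) 0 (z - stepVec e)).toReal / ret d k)) atTop
      (𝓝 (∑ _e : Step d, (2 * (d : ℝ))⁻¹ * 1)) := by
    refine tendsto_finsetSum _ fun e _ => ?_
    refine (kern_ratio_even hd _ ?_).const_mul _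
    have h2 : ∑ i, (z - stepVec e) i = ∑ i, z i - ∑ i, stepVec e i := by
      rw [← Finset.sum_sub_distrib]
      rfl
    rw [h2, sum_stepVec]
    rw [Int.not_even_iff_odd] at hz
    split_ifs
    · exact hz.sub_odd odd_one
    · exact hz.sub_odd (by decide)
  rw [sum_inv_step hd] at h1
  refine h1.congr fun k => ?_
  rw [kern_succ' hd, Finset.sum_div]
  refine Finset.sum_congr rfl fun e _ => by ring

theorem kern_ratio (d : ℕ) (hd : 1 ≤ d) (L : ℕ) (z : Lat d) (hz : Even (∑ i, z i + L)) :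
    Tendsto (fun k : ℕ => (kern Set.univ (2 * k - L) (0 : Lat d) z).toReal /
      (kern Set.univ (2 * k) (0 : Lat d) 0).toReal) atTop (𝓝 1) := by
  -- write `2 k - L = 2 (k - j) + r`, `j = (L + 1) / 2`, `r = 2 j - L`
  rw [← tendsto_add_atTop_iff_nat ((L + 1) / 2)]
  rcases Nat.even_or_odd L with ⟨l, hl⟩ | ⟨l, hl⟩
  · have hz' : Even (∑ i, z i) := by
      have hL : Even (L : ℤ) := ⟨l, by rw [hl]; push_cast; ring⟩
      exact (Int.even_add.1 hz).2 hL
    have hj : (L + 1) / 2 = l := by omega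
    rw [hj]
    have h1 := (kern_ratio_even hd z hz').div (ret_ratio_shift hd l) one_ne_zero
    rw [div_one] at h1
    refine h1.congr' ?_
    filter_upwards [ret_pos_eventually hd] with k hk
    simp only [Pi.div_apply]
    rw [show 2 * (k + l) - L = 2 * k by omega]
    change _ = _ / ret d (k + l)
    rw [div_div_div_cancel_right₀ hk.ne']
  · have hz' : ¬ Even (∑ i, z i) := by
      intro h
      have hL : ¬ Even (L : ℤ) := by
        rw [Int.not_even_iff_odd]
        exact ⟨l, by rw [hl]; push_cast; ring⟩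
      exact hL ((Int.even_add.1 hz).1 h)
    have hj : (L + 1) / 2 = l + 1 := by omega
    rw [hj]
    have h1 := (kern_ratio_odd hd z hz').div (ret_ratio_shift hd (l + 1)) one_ne_zero
    rw [div_one] at h1
    refine h1.congr' ?_
    filter_upwards [ret_pos_eventually hd] with k hk
    simp only [Pi.div_apply]
    rw [show 2 * (k + (l + 1)) - L = 2 * k + 1 by omega]
    change _ = _ / ret d (k + (l + 1))
    rw [div_div_div_cancel_right₀ hk.ne']

end Pool.Agent.LoopPerc
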