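import Pool.Agent.LoopPerc.BridgeMain
import Pool.Agent.LoopPerc.RWTime

/-!
# Law of large numbers along a random walk bridge: the statement of package G
(helper7 for helper96, MP_b22ef1_pr)
-/

namespace Pool.Agent.LoopPerc

open MeasureTheory ProbabilityTheory Filter Topology
open scoped ENNReal NNReal

lemma Bridge.kernAsymp {d : ℕ} (hd : 1 ≤ d) : Bridge.KernAsymp d where
  le := kern_le d hd
  even := kern_even_asymp d hd
  ratio := kern_ratio d hd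

theorem bridge_lln {d : ℕ} (hd : 5 ≤ d) {ι : Type} [Countable ι] (H : HSys (Lat d) ι) (sh : H.Shift)
    (hχ : ∫⁻ ω, ((H.clus Set.univ ω 0).encard : ℝ≥0∞) ∂H.P < ⊤)
    (Jk : ℕ → Set ι) (hmono : Monotone Jk) (hU : ⋃ k, Jk k = Set.univ)
    (hinv : ∀ k v i, sh.act v i ∈ Jk k ↔ i ∈ Jk k) :
    ∃ θ : ℝ, 0 < θ ∧ ∀ η > 0, ∃ k n₀ : ℕ, ∀ n ≥ n₀, Odd n → ∀ J : Set ι, Jk k ⊆ J →
      (∀ v i, sh.act v i ∈ J ↔ i ∈ J) →
      ∑ w : Fin (n + 1) → Step d, (if IsClosedWalk w then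
        ∫ ω, |((H.clusW J ω (range0 w)).ncard : ℝ) / (n + 1) - θ| ∂H.P else 0) ≤
      η * (Finset.univ.filter fun w : Fin (n + 1) → Step d => IsClosedWalk w).card :=
  bridge_lln_of (by omega) (Bridge.kernAsymp (by omega)) H sh hχ Jk hmono hU hinv

end Pool.Agent.LoopPerc
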