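import Pool.Agent.LoopPerc.BridgePos

/-!
# Lower bound for the mean number of vertices connected to a long closed walk
(package G of MP_b22ef1_pr, helper7 for helper96)
-/

namespace Pool.Agent.LoopPerc.Bridge

open MeasureTheory ProbabilityTheory Filter Topology Set
open scoped ENNReal NNReal

variable {d : ℕ}

/-- sum over the closed walks with `n + 1` steps -/
def CS {n : ℕ} (F : (Fin (n + 1) → Step d) → ℝ) : ℝ :=
  ∑ w : Fin (n + 1) → Step d, if stepSum w = 0 then F w else 0

section CS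

variable {n : ℕ}

lemma CS_mono {F G : (Fin (n + 1) → Step d) → ℝ} (h : ∀ w, stepSum w = 0 → F w ≤ G w) :
    CS F ≤ CS G := by
  unfold CS
  apply Finset.sum_le_sum
  intro w _
  split_ifs with hw
  · exact h w hw
  · exact le_rfl

lemma CS_add (F G : (Fin (n + 1) → Step d) → ℝ) : CS (fun w => F w + G w) = CS F + CS G := by
  unfold CS
  rw [← Finset.sum_add_distrib]
  refine Finset.sum_congr rfl fun w _ => ?_
  split_ifs <;> simp

lemma CS_sub (F G : (Fin (n + 1) → Step d) → ℝ) : CS (fun w => F w - G w) = CS F - CS G := by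
  unfold CS
  rw [← Finset.sum_sub_distrib]
  refine Finset.sum_congr rfl fun w _ => ?_
  split_ifs <;> simp

lemma CS_mul_left (c : ℝ) (F : (Fin (n + 1) → Step d) → ℝ) :
    CS (fun w => c * F w) = c * CS F := by
  unfold CS
  rw [Finset.mul_sum]
  refine Finset.sum_congr rfl fun w _ => ?_
  split_ifs <;> simp

lemma CS_const (c : ℝ) : CS (fun _ : Fin (n + 1) → Step d => c) = c * cnt d (n + 1) 0 := by
  unfold CS cnt
  rw [Finset.sum_ite, Finset.sum_const_zero, add_zero, Finset.sum_const, nsmul_eq_mul, mul_comm]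

lemma CS_sum {κ : Type*} (s : Finset κ) (F : κ → (Fin (n + 1) → Step d) → ℝ) :
    CS (fun w => ∑ k ∈ s, F k w) = ∑ k ∈ s, CS (F k) := by
  unfold CS
  rw [Finset.sum_comm]
  refine Finset.sum_congr rfl fun w _ => ?_
  split_ifs <;> simp

lemma CS_congr {F G : (Fin (n + 1) → Step d) → ℝ} (h : ∀ w, stepSum w = 0 → F w = G w) :
    CS F = CS G := by
  unfold CS
  refine Finset.sum_congr rfl fun w _ => ?_
  split_ifs with hw
  · exact h w hw
  · rfl

lemma CS_integral {Ω : Type*} [MeasurableSpace Ω] {μ : Measure Ω}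
    (F : (Fin (n + 1) → Step d) → Ω → ℝ) (hF : ∀ w, Integrable (F w) μ) :
    CS (fun w => ∫ ω, F w ω ∂μ) = ∫ ω, CS (fun w => F w ω) ∂μ := by
  unfold CS
  rw [integral_finsetSum]
  · refine Finset.sum_congr rfl fun w _ => ?_
    split_ifs
    · rfl
    · simp
  · intro w _
    split_ifs
    · exact hF w
    · exact integrable_zero _ _ _

end CS

/-- the `b` steps before time `s`, in reversed order -/
def revF {n : ℕ} (w : Fin (n + 1) → Step d) (s b : ℕ) : Fin b → Step d :=
  fun i => w (Fin.ofNat (n + 1) (s - 1 - i))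

lemma comp_revE {n : ℕ} (w : Fin (n + 1) → Step d) (s b : ℕ) (hb : b ≤ s) (hs : s ≤ n + 1) :
    w ∘ revE n s b hb hs = revF w s b := rfl

lemma sum_shells_le (n L s : ℕ) (hL : 1 ≤ L) (hs : s < n + 1 - L) :
    ∑ l ∈ Finset.Ico (L + 1) (s + 1), (1 / (l : ℝ) ^ 2 + 1 / ((n + 1 : ℝ) - l) ^ 2) ≤
      2 / (L : ℝ) := by
  rw [Finset.sum_add_distrib]
  have hL' : (0 : ℝ) < L := by exact_mod_cast hL
  have h1 : ∑ l ∈ Finset.Ico (L + 1) (s + 1), 1 / (l : ℝ) ^ 2 ≤ 1 / (L : ℝ) := by
    rcases Nat.lt_or_ge s L with h | h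
    · have : Finset.Ico (L + 1) (s + 1) = ∅ := by
        rw [Finset.Ico_eq_empty_iff]; omega
      rw [this, Finset.sum_empty]
      positivity
    · have h2 := sum_inv_sq_tail L s hL h
      have h3 : (0 : ℝ) ≤ 1 / (s : ℝ) := by positivity
      linarith
  have h2 : ∑ l ∈ Finset.Ico (L + 1) (s + 1), 1 / ((n + 1 : ℝ) - l) ^ 2 ≤ 1 / (L : ℝ) := by
    have h3 : ∑ l ∈ Finset.Ico (L + 1) (s + 1), 1 / ((n + 1 : ℝ) - l) ^ 2 =
        ∑ l ∈ Finset.Ico (L + 1) (s + 1), (fun r : ℕ => 1 / (r : ℝ) ^ 2) (n + 1 - l) := by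
      refine Finset.sum_congr rfl fun l hl => ?_
      rw [Finset.mem_Ico] at hl
      simp only
      rw [Nat.cast_sub (by omega)]
      push_cast
      rfl
    rw [h3, ← Finset.sum_image (f := fun r : ℕ => 1 / (r : ℝ) ^ 2) (g := fun l => n + 1 - l)
      (by
        intro l hl l' hl' h
        rw [Finset.mem_coe, Finset.mem_Ico] at hl hl'
        simp only at h
        omega)]
    have h4 : (Finset.Ico (L + 1) (s + 1)).image (fun l => n + 1 - l) ⊆
        Finset.Ico (L + 1) (n + 1) := by
      intro r hr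
      obtain ⟨l, hl, rfl⟩ := Finset.mem_image.1 hr
      rw [Finset.mem_Ico] at hl ⊢
      omega
    refine (Finset.sum_le_sum_of_subset_of_nonneg h4 (fun _ _ _ => by positivity)).trans ?_
    rcases Nat.lt_or_ge n L with h | h
    · have : Finset.Ico (L + 1) (n + 1) = ∅ := by
        rw [Finset.Ico_eq_empty_iff]; omega
      rw [this, Finset.sum_empty]
      positivity
    · have h5 := sum_inv_sq_tail L n hL h
      have h6 : (0 : ℝ) ≤ 1 / (n : ℝ) := by positivity
      linarith
  have h3 : 2 / (L : ℝ) = 1 / (L : ℝ) + 1 / (L : ℝ) := by ring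
  rw [h3]
  linarith

open Classical in
/-- splitting the event that the cluster is avoided at time `L` -/
lemma avoid_ge {n : ℕ} (w : Fin (n + 1) → Step d) {g : Set (Lat d) → ℝ} (hg : ∀ A, 0 ≤ g A)
    (s L : ℕ) (hLs : L ≤ s) (hs : s ≤ n + 1) (A : Set (Lat d)) :
    avoid g (revF w s L) A - ∑ l ∈ Finset.Ico (L + 1) (s + 1),
      (if -stepSum (revF w s l) ∈ A then g A else 0) ≤ avoid g (revF w s s) A := by
  have hpos : ∀ l b : ℕ, l ≤ b → b ≤ s → posF (revF w s b) l = ppos w s - ppos w (s - l) := by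
    intro l b hl hb
    rw [← comp_revE w s b hb hs]
    exact posF_revE w s b hb hs l hl
  have hnn : ∀ l, 0 ≤ (if -stepSum (revF w s l) ∈ A then g A else 0) := by
    intro l; split_ifs
    · exact hg A
    · exact le_rfl
  have hsum : 0 ≤ ∑ l ∈ Finset.Ico (L + 1) (s + 1),
      (if -stepSum (revF w s l) ∈ A then g A else 0) := Finset.sum_nonneg fun l _ => hnn l
  by_cases hc : ∀ l, 1 ≤ l → l ≤ s → -posF (revF w s s) l ∉ A
  · have h1 : avoid g (revF w s s) A = g A := by unfold avoid; rw [if_pos hc]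
    rw [h1]
    have h2 := avoid_le hg (revF w s L) A
    linarith
  · have h1 : avoid g (revF w s s) A = 0 := by unfold avoid; rw [if_neg hc]
    rw [h1]
    push Not at hc
    obtain ⟨l, hl1, hls, hlA⟩ := hc
    rw [hpos l s hls le_rfl] at hlA
    rcases Nat.lt_or_ge L l with hlL | hlL
    · have h2 : g A ≤ ∑ l ∈ Finset.Ico (L + 1) (s + 1),
          (if -stepSum (revF w s l) ∈ A then g A else 0) := by
        have h3 : (if -stepSum (revF w s l) ∈ A then g A else 0) = g A := by
          rw [if_pos]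
          rw [← posF_full, hpos l l le_rfl hls]
          exact hlA
        calc g A = (if -stepSum (revF w s l) ∈ A then g A else 0) := h3.symm
          _ ≤ _ := Finset.single_le_sum (fun l _ => hnn l) (Finset.mem_Ico.2 ⟨by omega, by omega⟩)
      have h3 := avoid_le hg (revF w s L) A
      linarith
    · have h2 : avoid g (revF w s L) A = 0 := by
        unfold avoid
        rw [if_neg]
        push Not
        refine ⟨l, hl1, hlL, ?_⟩
        rw [hpos l L hlL hLs]
        exact hlA
      rw [h2]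
      linarith

open Classical in
/-- a fixed small set is rarely hit -/
lemma CS_hit_le {n l : ℕ} {B : ℝ} (hB : 0 ≤ B) (e : Fin l ↪ Fin (n + 1))
    (hbound : ∀ z : Lat d, ∑ w : Fin (n + 1) → Step d,
      (if stepSum w = 0 then (if stepSum (w ∘ e) = z then (1 : ℝ) else 0) else 0) ≤ B)
    (a : ℕ) (A : Set (Lat d)) :
    CS (fun w : Fin (n + 1) → Step d => if -stepSum (w ∘ e) ∈ A then nct a A else 0) ≤
      (a : ℝ) ^ 2 * B := by
  by_cases hA : A.Finite ∧ A.ncard ≤ a
  · obtain ⟨hfin, hcard⟩ := hA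
    have h1 : ∀ w : Fin (n + 1) → Step d, (if -stepSum (w ∘ e) ∈ A then nct a A else 0) ≤
        ∑ z ∈ hfin.toFinset, (a : ℝ) * (if stepSum (w ∘ e) = -z then (1 : ℝ) else 0) := by
      intro w
      by_cases hw : -stepSum (w ∘ e) ∈ A
      · rw [if_pos hw]
        have h2 : (a : ℝ) * (if stepSum (w ∘ e) = -(-stepSum (w ∘ e)) then (1 : ℝ) else 0) ≤
            ∑ z ∈ hfin.toFinset, (a : ℝ) * (if stepSum (w ∘ e) = -z then (1 : ℝ) else 0) :=
          Finset.single_le_sum (f := fun z => (a : ℝ) *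
            (if stepSum (w ∘ e) = -z then (1 : ℝ) else 0))
            (fun z _ => by positivity) (hfin.mem_toFinset.2 hw)
        rw [neg_neg, if_pos rfl, mul_one] at h2
        exact (nct_le a A).trans h2
      · rw [if_neg hw]
        exact Finset.sum_nonneg fun z _ => by positivity
    calc CS (fun w : Fin (n + 1) → Step d => if -stepSum (w ∘ e) ∈ A then nct a A else 0)
        ≤ CS (fun w : Fin (n + 1) → Step d => ∑ z ∈ hfin.toFinset, (a : ℝ) *
            (if stepSum (w ∘ e) = -z then (1 : ℝ) else 0)) := CS_mono fun w _ => h1 w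
      _ = ∑ z ∈ hfin.toFinset, (a : ℝ) * CS (fun w : Fin (n + 1) → Step d =>
            (if stepSum (w ∘ e) = -z then (1 : ℝ) else 0)) := by
          rw [CS_sum]
          simp only [CS_mul_left]
      _ ≤ ∑ z ∈ hfin.toFinset, (a : ℝ) * B := by
          apply Finset.sum_le_sum
          intro z _
          exact mul_le_mul_of_nonneg_left (hbound (-z)) (Nat.cast_nonneg _)
      _ = (hfin.toFinset.card : ℝ) * (a * B) := by rw [Finset.sum_const, nsmul_eq_mul]
      _ ≤ (a : ℝ) * (a * B) := by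
          apply mul_le_mul_of_nonneg_right _ (by positivity)
          rw [ncard_eq_toFinset_card A hfin] at hcard
          exact_mod_cast hcard
      _ = (a : ℝ) ^ 2 * B := by ring
  · have h1 : nct a A = 0 := by
      unfold nct
      by_cases h2 : A.Finite
      · rw [if_neg (fun h3 => hA ⟨h2, h3⟩)]
      · rw [Set.Infinite.ncard h2]
        simp
    have h2 : CS (fun w : Fin (n + 1) → Step d => if -stepSum (w ∘ e) ∈ A then nct a A else 0) =
        CS (fun _ : Fin (n + 1) → Step d => 0) := by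
      apply CS_congr
      intro w _
      rw [h1]
      simp
    rw [h2, CS_const, zero_mul]
    positivity

variable {ι : Type} {H : HSys (Lat d) ι} [Countable ι]

lemma integral_vol_path' (sh : H.Shift)
    (hχ : ∫⁻ ω, ((H.clus Set.univ ω 0).encard : ℝ≥0∞) ∂H.P < ⊤)
    {J : Set ι} (hJ : ∀ v i, sh.act v i ∈ J ↔ i ∈ J) {n : ℕ} (w : Fin (n + 1) → Step d)
    (m : ℕ) (hm : m ≤ n + 1) :
    ∫ ω, vol H J ω (ppos w '' {r | r < m}) ∂H.P =
      ∑ s ∈ Finset.range m, fv H J nc (revF w s s) := by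
  rw [integral_vol_path sh hχ hJ w m hm,
    ← Finset.sum_attach (Finset.range m) (fun s => fv H J nc (revF w s s))]
  rfl

omit [Countable ι] in
lemma fv_nonneg (J : Set ι) {g : Set (Lat d) → ℝ} (hg : ∀ A, 0 ≤ g A) {s : ℕ}
    (u : Fin s → Step d) : 0 ≤ fv H J g u :=
  integral_nonneg fun _ => avoid_nonneg hg u _

lemma tendsto_nct (sh : H.Shift) (hχ : ∫⁻ ω, ((H.clus Set.univ ω 0).encard : ℝ≥0∞) ∂H.P < ⊤) :
    Tendsto (fun a : ℕ => ∫ ω, nct a (H.clus univ ω 0) ∂H.P) atTop
      (𝓝 (∫ ω, nc (H.clus univ ω 0) ∂H.P)) := by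
  apply tendsto_integral_of_dominated_convergence (fun ω => nc (H.clus univ ω 0))
  · intro a
    exact aestronglyMeasurable_clus (ae_allFin sh hχ) _ _ _
  · exact integrable_nc sh hχ univ
  · intro a
    refine Eventually.of_forall fun ω => ?_
    rw [Real.norm_of_nonneg (nct_nonneg _ _)]
    exact nct_le_nc _ _
  · refine Eventually.of_forall fun ω => ?_
    apply tendsto_const_nhds.congr'
    filter_upwards [eventually_ge_atTop (H.clus univ ω 0).ncard] with a ha
    unfold nct nc
    rw [if_pos ha]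

theorem lower_bound (hd : 4 ≤ d) (h : KernAsymp d) (sh : H.Shift)
    (hχ : ∫⁻ ω, ((H.clus Set.univ ω 0).encard : ℝ≥0∞) ∂H.P < ⊤)
    (Jk : ℕ → Set ι) (hmono : Monotone Jk) (hU : ⋃ k, Jk k = Set.univ)
    (hinv : ∀ k v i, sh.act v i ∈ Jk k ↔ i ∈ Jk k) {ε : ℝ} (hε : 0 < ε) :
    ∃ k n₀ : ℕ, ∀ n ≥ n₀, Odd n →
      (dens H - ε) * ((n : ℝ) + 1) * cnt d (n + 1) 0 ≤
        CS (fun w : Fin (n + 1) → Step d => ∫ ω, vol H (Jk k) ω (range0 w) ∂H.P) := by
  classical
  have hd1 : 1 ≤ d := by omega
  have hε1 : 0 < ε / 5 := by positivity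
  -- truncation
  obtain ⟨a, ha⟩ := ((tendsto_nct sh hχ).eventually
    (lt_mem_nhds (show (∫ ω, nc (H.clus univ ω 0) ∂H.P) - ε / 5 <
      ∫ ω, nc (H.clus univ ω 0) ∂H.P by linarith))).exists
  obtain ⟨C, hC, n₁, hn₁⟩ := return_le hd h
  -- the time `L`
  obtain ⟨L, hL1, hL⟩ : ∃ L : ℕ, 1 ≤ L ∧ (a : ℝ) ^ 2 * C * (2 / L) ≤ ε / 5 := by
    obtain ⟨L, hL⟩ := exists_nat_gt ((a : ℝ) ^ 2 * C * 2 / (ε / 5))
    refine ⟨L + 1, by omega, ?_⟩
    rw [div_lt_iff₀ hε1] at hL
    have h2 : (a : ℝ) ^ 2 * C * (2 / ((L + 1 : ℕ) : ℝ)) =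
        (a : ℝ) ^ 2 * C * 2 / ((L + 1 : ℕ) : ℝ) := by ring
    rw [h2, div_le_iff₀ (by positivity)]
    push_cast
    nlinarith
  -- the family `Jk k`
  have hU' : ∀ i, (H.s i).Nonempty → ∃ k, i ∈ Jk k := by
    intro i _
    have : i ∈ ⋃ k, Jk k := by rw [hU]; trivial
    simpa using this
  have hlim : Tendsto (fun k => EF (fun u : Fin L → Step d => fv H (Jk k) (nct a) u)) atTop
      (𝓝 (EF (fun u : Fin L → Step d => fv H univ (nct a) u))) := by
    unfold EF
    apply Tendsto.div_const
    apply tendsto_finsetSum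
    intro u _
    unfold fv
    apply tendsto_integral_clus sh hχ hmono hU' (Φ := avoid (nct a) u) (C := a)
    intro A
    rw [abs_of_nonneg (avoid_nonneg (nct_nonneg a) u A)]
    exact (avoid_le (nct_nonneg a) u A).trans (nct_le a A)
  have hEF1 : dens H - ε / 5 < EF (fun u : Fin L → Step d => fv H univ (nct a) u) := by
    have h1 : EF (fun u : Fin L → Step d => fv H univ nc u - fv H univ (nct a) u) ≤
        EF (fun _ : Fin L → Step d => (∫ ω, nc (H.clus univ ω 0) ∂H.P) -
          ∫ ω, nct a (H.clus univ ω 0) ∂H.P) := by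
      apply EF_mono
      intro u
      have i1 : Integrable (fun ω => nct a (H.clus univ ω 0)) H.P :=
        integrable_of_le_nc sh hχ univ (fun A => by
          rw [abs_of_nonneg (nct_nonneg a A)]; exact nct_le_nc a A)
      unfold fv
      rw [← integral_sub (integrable_avoid sh hχ _ nc_nonneg (fun _ => le_rfl) _)
        (integrable_avoid sh hχ _ (nct_nonneg a) (nct_le_nc a) _),
        ← integral_sub (integrable_nc sh hχ univ) i1]
      apply integral_mono
      · exact (integrable_avoid sh hχ _ nc_nonneg (fun _ => le_rfl) _).sub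
          (integrable_avoid sh hχ _ (nct_nonneg a) (nct_le_nc a) _)
      · exact (integrable_nc sh hχ univ).sub i1
      · intro ω
        simp only
        unfold avoid
        split_ifs
        · exact le_rfl
        · have := nct_le_nc a (H.clus univ ω 0)
          linarith
    rw [EF_sub, EF_const hd1] at h1
    have h2 := dens_le_av (H := H) L
    unfold av at h2
    linarith
  obtain ⟨k, hk⟩ := (hlim.eventually (lt_mem_nhds (show
    EF (fun u : Fin L → Step d => fv H univ (nct a) u) - ε / 5 < _ by linarith))).exists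
  -- the marginals of the closed walk
  obtain ⟨n₂, hn₂⟩ := marginal_tendsto hd1 h (α := Fin L) (fun u => fv H (Jk k) (nct a) u) hε1
  obtain ⟨n₃, hn₃⟩ := exists_nat_ge (2 * (L : ℝ) * dens H / (ε / 5))
  refine ⟨k, n₁ + n₂ + n₃ + 2 * L, fun n hn hodd => ?_⟩
  obtain ⟨hZ, hret⟩ := hn₁ n (by omega) hodd
  have hZ' : (0 : ℝ) < cnt d (n + 1) 0 := by exact_mod_cast hZ
  have hmarg := hn₂ n (by omega) hodd
  -- one term
  have hterm : ∀ s ∈ Finset.Ico L (n + 1 - L),
      (dens H - 4 * (ε / 5)) * cnt d (n + 1) 0 ≤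
        CS (fun w : Fin (n + 1) → Step d => fv H (Jk k) nc (revF w s s)) := by
    intro s hs
    rw [Finset.mem_Ico] at hs
    have hsn : s ≤ n + 1 := by omega
    have hint : ∀ (w : Fin (n + 1) → Step d) (l : ℕ), Integrable (fun ω =>
        (if -stepSum (revF w s l) ∈ H.clus (Jk k) ω 0 then nct a (H.clus (Jk k) ω 0) else 0))
        H.P := by
      intro w l
      apply integrable_of_le_nc sh hχ (Jk k)
        (Φ := fun A => if -stepSum (revF w s l) ∈ A then nct a A else 0)
      intro A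
      split_ifs
      · rw [abs_of_nonneg (nct_nonneg a A)]
        exact nct_le_nc a A
      · rw [abs_zero]; exact nc_nonneg A
    have h1 : ∀ w : Fin (n + 1) → Step d, stepSum w = 0 →
        fv H (Jk k) (nct a) (revF w s L) - ∑ l ∈ Finset.Ico (L + 1) (s + 1),
          ∫ ω, (if -stepSum (revF w s l) ∈ H.clus (Jk k) ω 0 then
            nct a (H.clus (Jk k) ω 0) else 0) ∂H.P ≤ fv H (Jk k) nc (revF w s s) := by
      intro w _
      have h2 : fv H (Jk k) (nct a) (revF w s s) ≤ fv H (Jk k) nc (revF w s s) := by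
        unfold fv
        apply integral_mono (integrable_avoid sh hχ _ (nct_nonneg a) (nct_le_nc a) _)
          (integrable_avoid sh hχ _ nc_nonneg (fun _ => le_rfl) _)
        intro ω
        exact avoid_mono (nct_le_nc a) _ _
      refine le_trans ?_ h2
      rw [← integral_finsetSum _ (fun l _ => hint w l)]
      unfold fv
      rw [← integral_sub (integrable_avoid sh hχ _ (nct_nonneg a) (nct_le_nc a) _)
        (integrable_finsetSum _ (fun l _ => hint w l))]
      apply integral_mono
      · exact (integrable_avoid sh hχ _ (nct_nonneg a) (nct_le_nc a) _).sub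
          (integrable_finsetSum _ (fun l _ => hint w l))
      · exact integrable_avoid sh hχ _ (nct_nonneg a) (nct_le_nc a) _
      · intro ω
        exact avoid_ge w (nct_nonneg a) s L hs.1 hsn (H.clus (Jk k) ω 0)
    refine le_trans ?_ (CS_mono h1)
    rw [CS_sub, CS_sum]
    have h3 : (EF (fun u : Fin L → Step d => fv H (Jk k) (nct a) u) - ε / 5) * cnt d (n + 1) 0 ≤
        CS (fun w : Fin (n + 1) → Step d => fv H (Jk k) (nct a) (revF w s L)) := by
      have h4 := hmarg (revE n s L hs.1 hsn)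
      have h5 := (abs_le.1 h4).1
      have h6 : CS (fun w : Fin (n + 1) → Step d => fv H (Jk k) (nct a) (revF w s L)) =
          ∑ w : Fin (n + 1) → Step d, (if stepSum w = 0 then
            fv H (Jk k) (nct a) (w ∘ revE n s L hs.1 hsn) else 0) := rfl
      rw [h6]
      linarith
    have h4 : ∑ l ∈ Finset.Ico (L + 1) (s + 1), CS (fun w : Fin (n + 1) → Step d =>
        ∫ ω, (if -stepSum (revF w s l) ∈ H.clus (Jk k) ω 0 then
            nct a (H.clus (Jk k) ω 0) else 0) ∂H.P) ≤ ε / 5 * cnt d (n + 1) 0 := by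
      calc ∑ l ∈ Finset.Ico (L + 1) (s + 1), CS (fun w : Fin (n + 1) → Step d =>
          ∫ ω, (if -stepSum (revF w s l) ∈ H.clus (Jk k) ω 0 then
            nct a (H.clus (Jk k) ω 0) else 0) ∂H.P)
          ≤ ∑ l ∈ Finset.Ico (L + 1) (s + 1), (a : ℝ) ^ 2 *
            (C * (1 / (l : ℝ) ^ 2 + 1 / ((n + 1 : ℝ) - l) ^ 2) * cnt d (n + 1) 0) := by
            apply Finset.sum_le_sum
            intro l hl
            rw [Finset.mem_Ico] at hl
            rw [CS_integral _ (fun w => hint w l)]
            have h5 : ∀ ω, CS (fun w : Fin (n + 1) → Step d =>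
                (if -stepSum (revF w s l) ∈ H.clus (Jk k) ω 0 then
                  nct a (H.clus (Jk k) ω 0) else 0)) ≤ (a : ℝ) ^ 2 *
                (C * (1 / (l : ℝ) ^ 2 + 1 / ((n + 1 : ℝ) - l) ^ 2) * cnt d (n + 1) 0) := by
              intro ω
              exact CS_hit_le (by positivity) (revE n s l (by omega) hsn)
                (fun z => hret l (by omega) (by omega) z _) a (H.clus (Jk k) ω 0)
            calc ∫ ω, CS (fun w : Fin (n + 1) → Step d =>
                (if -stepSum (revF w s l) ∈ H.clus (Jk k) ω 0 then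
                  nct a (H.clus (Jk k) ω 0) else 0)) ∂H.P
                ≤ ∫ _ω, (a : ℝ) ^ 2 * (C * (1 / (l : ℝ) ^ 2 + 1 / ((n + 1 : ℝ) - l) ^ 2) *
                  cnt d (n + 1) 0) ∂H.P := by
                  apply integral_mono
                  · unfold CS
                    apply integrable_finsetSum
                    intro w _
                    split_ifs
                    · exact hint w l
                    · exact integrable_zero _ _ _
                  · exact integrable_const _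
                  · exact h5
              _ = _ := by simp
        _ = (a : ℝ) ^ 2 * C * (∑ l ∈ Finset.Ico (L + 1) (s + 1),
            (1 / (l : ℝ) ^ 2 + 1 / ((n + 1 : ℝ) - l) ^ 2)) * cnt d (n + 1) 0 := by
            rw [Finset.mul_sum, Finset.sum_mul]
            refine Finset.sum_congr rfl fun l _ => ?_
            ring
        _ ≤ (a : ℝ) ^ 2 * C * (2 / L) * cnt d (n + 1) 0 := by
            apply mul_le_mul_of_nonneg_right _ hZ'.le
            exact mul_le_mul_of_nonneg_left (sum_shells_le n L s hL1 hs.2) (by positivity)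
        _ ≤ ε / 5 * cnt d (n + 1) 0 := mul_le_mul_of_nonneg_right hL hZ'.le
    have h5 : (dens H - 4 * (ε / 5)) * cnt d (n + 1) 0 ≤
        (EF (fun u : Fin L → Step d => fv H (Jk k) (nct a) u) - ε / 5) * cnt d (n + 1) 0 -
          ε / 5 * cnt d (n + 1) 0 := by
      rw [← sub_mul]
      apply mul_le_mul_of_nonneg_right _ hZ'.le
      linarith
    linarith
  -- sum
  have hsum : CS (fun w : Fin (n + 1) → Step d => ∫ ω, vol H (Jk k) ω (range0 w) ∂H.P) =
      ∑ s ∈ Finset.range (n + 1), CS (fun w : Fin (n + 1) → Step d =>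
        fv H (Jk k) nc (revF w s s)) := by
    rw [← CS_sum]
    apply CS_congr
    intro w hw
    rw [range0_eq hw]
    exact integral_vol_path' sh hχ (hinv k) w (n + 1) le_rfl
  rw [hsum]
  have hsub : Finset.Ico L (n + 1 - L) ⊆ Finset.range (n + 1) := by
    intro s hs
    rw [Finset.mem_Ico] at hs
    rw [Finset.mem_range]
    omega
  have hge : ∑ s ∈ Finset.Ico L (n + 1 - L), CS (fun w : Fin (n + 1) → Step d =>
        fv H (Jk k) nc (revF w s s)) ≤ ∑ s ∈ Finset.range (n + 1),
        CS (fun w : Fin (n + 1) → Step d => fv H (Jk k) nc (revF w s s)) := by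
    apply Finset.sum_le_sum_of_subset_of_nonneg hsub
    intro s _ _
    have h1 : CS (fun _ : Fin (n + 1) → Step d => 0) ≤
        CS (fun w : Fin (n + 1) → Step d => fv H (Jk k) nc (revF w s s)) :=
      CS_mono fun w _ => fv_nonneg _ nc_nonneg _
    rwa [CS_const, zero_mul] at h1
  refine le_trans ?_ hge
  refine le_trans ?_ (Finset.sum_le_sum hterm)
  rw [Finset.sum_const, Nat.card_Ico, nsmul_eq_mul]
  have h7 : (((n + 1 - L - L : ℕ)) : ℝ) = (n : ℝ) + 1 - 2 * L := by
    rw [Nat.cast_sub (by omega), Nat.cast_sub (by omega)]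
    push_cast
    ring
  rw [h7]
  have h8 : 2 * (L : ℝ) * dens H ≤ ε / 5 * ((n : ℝ) + 1) := by
    rw [div_le_iff₀ hε1] at hn₃
    have h9 : (n₃ : ℝ) ≤ (n : ℝ) + 1 := by
      have : n₃ ≤ n + 1 := by omega
      exact_mod_cast this
    nlinarith
  have hdens : 0 ≤ dens H := (dens_pos hd h sh hχ).le
  have h9 : (dens H - ε) * ((n : ℝ) + 1) ≤ ((n : ℝ) + 1 - 2 * L) * (dens H - 4 * (ε / 5)) := by
    have h10 : 0 ≤ 2 * (L : ℝ) * (4 * (ε / 5)) := by positivity
    nlinarith
  calc (dens H - ε) * ((n : ℝ) + 1) * cnt d (n + 1) 0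
      ≤ (((n : ℝ) + 1 - 2 * L) * (dens H - 4 * (ε / 5))) * cnt d (n + 1) 0 :=
        mul_le_mul_of_nonneg_right h9 hZ'.le
    _ = _ := by ring

end Pool.Agent.LoopPerc.Bridge
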