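import Pool.Agent.LoopPerc.BridgeUpper

/-!
# The law of large numbers along a random walk bridge
(package G of MP_b22ef1_pr, helper7 for helper96)
-/

namespace Pool.Agent.LoopPerc

namespace Bridge

open MeasureTheory ProbabilityTheory Filter Topology Set
open scoped ENNReal NNReal

variable {d : ℕ} {ι : Type} {H : HSys (Lat d) ι} [Countable ι]

/-- the means of the local functionals are close to the full ones -/
lemma exists_radius (sh : H.Shift) (hχ : ∫⁻ ω, ((H.clus Set.univ ω 0).encard : ℝ≥0∞) ∂H.P < ⊤)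
    (b : ℕ) {ε : ℝ} (hε : 0 < ε) : ∃ M : ℕ, ∀ u : Fin b → Step d,
      ∫ ω, vol H univ ω (blk u) ∂H.P - tloc H M u ≤ ε := by
  have h1 : ∀ u : Fin b → Step d, ∀ᶠ M in atTop,
      ∫ ω, vol H univ ω (blk u) ∂H.P - tloc H M u ≤ ε := by
    intro u
    have h2 := tendsto_integral_vol sh hχ (Loc_mono (H := H) 0) (exists_mem_Loc 0) (finite_blk u)
    filter_upwards [h2.eventually (lt_mem_nhds (show (∫ ω, vol H univ ω (blk u) ∂H.P) - ε <
      ∫ ω, vol H univ ω (blk u) ∂H.P by linarith))] with M hM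
    unfold tloc
    linarith
  exact (Filter.eventually_all.2 h1).exists

/-- last vertices of the closed walk, not covered by the blocks -/
noncomputable def lastS {n : ℕ} (w : Fin (n + 1) → Step d) (b : ℕ) : Finset (Lat d) :=
  (Finset.Ico ((n + 1) / b * b) (n + 1)).image (ppos w)

lemma real_bound {V q b t N θ ε S D Ls : ℝ} (hN0 : 0 < N) (hε : 0 < ε) (hθ : 0 ≤ θ)
    (hq : 0 ≤ q) (hqb : q * b ≤ N) (htb : t ≤ b * (θ + ε)) (h1 : V ≤ (S + q * t + D) + Ls)
    (hD : 0 ≤ D) (hLs : 0 ≤ Ls) :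
    max (V / N - θ) 0 ≤ ε + ((ε + S ^ 2 / (ε * N ^ 2)) / 2 + D / N + Ls / N) := by
  have h3 : q * t ≤ N * (θ + ε) := by
    calc q * t ≤ q * (b * (θ + ε)) := mul_le_mul_of_nonneg_left htb hq
      _ = (q * b) * (θ + ε) := by ring
      _ ≤ N * (θ + ε) := mul_le_mul_of_nonneg_right hqb (by linarith)
  have h4 : S ≤ N * ((ε + S ^ 2 / (ε * N ^ 2)) / 2) := by
    have h5 : N * ((ε + S ^ 2 / (ε * N ^ 2)) / 2) = ((ε * N) ^ 2 + S ^ 2) / (2 * (ε * N)) := by
      field_simp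
    rw [h5, le_div_iff₀ (by positivity)]
    nlinarith [sq_nonneg (ε * N - S)]
  apply max_le
  · have h7 : V / N ≤
        (N * ((ε + S ^ 2 / (ε * N ^ 2)) / 2) + N * (θ + ε) + D + Ls) / N := by
      apply div_le_div_of_nonneg_right _ hN0.le
      linarith
    have h8 : (N * ((ε + S ^ 2 / (ε * N ^ 2)) / 2) + N * (θ + ε) + D + Ls) / N =
        (ε + S ^ 2 / (ε * N ^ 2)) / 2 + (θ + ε) + D / N + Ls / N := by
      rw [add_div, add_div, add_div, mul_div_cancel_left₀ _ hN0.ne',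
        mul_div_cancel_left₀ _ hN0.ne']
    linarith
  · have h7 : 0 ≤ S ^ 2 / (ε * N ^ 2) := by positivity
    have h8 : 0 ≤ D / N := by positivity
    have h9 : 0 ≤ Ls / N := by positivity
    linarith

omit [Countable ι] in
/-- the pointwise bound by block functionals -/
lemma pointwise_bound {b M : ℕ} {t ε₁ : ℝ} (hb0 : 0 < b) (hε1 : 0 < ε₁) {θ : ℝ} (hθ : 0 ≤ θ)
    (htb : t ≤ (b : ℝ) * (θ + ε₁)) {n : ℕ} (hb' : b ≤ n + 1)
    (w : Fin (n + 1) → Step d) (hw : stepSum w = 0) (ω : ι → ℕ) (hω : AllFin H ω) :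
    max (vol H univ ω (range0 w) / ((n : ℝ) + 1) - θ) 0 ≤
        ε₁ + ((ε₁ + (∑ j ∈ Finset.range ((n + 1) / b), Yb H M t w b hb' j ω) ^ 2 /
          (ε₁ * ((n : ℝ) + 1) ^ 2)) / 2 +
          (∑ j ∈ Finset.range ((n + 1) / b), (vol H univ ω (blkW w b hb' j) -
            vol H (Loc H (ppos w (j * b)) M) ω (blkW w b hb' j))) / ((n : ℝ) + 1) +
          vol H univ ω (lastS w b) / ((n : ℝ) + 1)) := by
  have hqb : (((n + 1) / b : ℕ) : ℝ) * b ≤ (n : ℝ) + 1 := by
    have : (n + 1) / b * b ≤ n + 1 := Nat.div_mul_le_self _ _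
    exact_mod_cast this
  apply real_bound (q := (((n + 1) / b : ℕ) : ℝ)) (b := b) (t := t) (by positivity) hε1 hθ
    (Nat.cast_nonneg _) hqb htb
  · have h1 : vol H univ ω (range0 w) ≤ ∑ j ∈ Finset.range ((n + 1) / b),
        vol H univ ω (blkW w b hb' j) + vol H univ ω (lastS w b) := by
      have h2 := range0_subset hw b (by omega) hb'
      have h3 : ((⋃ j ∈ Finset.range ((n + 1) / b),
          (fun z => z + ppos w (j * b)) '' blk (w ∘ perE n (j * b) b hb')) ∪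
          ((Finset.Ico ((n + 1) / b * b) (n + 1)).image (ppos w) : Finset (Lat d)) :
            Set (Lat d)).Finite :=
        ((Finset.finite_toSet _).biUnion fun j _ => finite_blkW w b hb' j).union
          (Finset.finite_toSet _)
      refine (vol_mono Subset.rfl hω h2 h3).trans ((vol_union_le _ _ _ _).trans ?_)
      have h4 := vol_biUnion_le (H := H) univ ω (Finset.range ((n + 1) / b))
        (fun j => blkW w b hb' j)
      exact add_le_add h4 le_rfl
    have h2 : ∑ j ∈ Finset.range ((n + 1) / b), vol H univ ω (blkW w b hb' j) =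
        (∑ j ∈ Finset.range ((n + 1) / b), Yb H M t w b hb' j ω) + (((n + 1) / b : ℕ) : ℝ) * t +
          ∑ j ∈ Finset.range ((n + 1) / b), (vol H univ ω (blkW w b hb' j) -
            vol H (Loc H (ppos w (j * b)) M) ω (blkW w b hb' j)) := by
      have h3 : (((n + 1) / b : ℕ) : ℝ) * t = ∑ j ∈ Finset.range ((n + 1) / b), t := by
        rw [Finset.sum_const, Finset.card_range, nsmul_eq_mul]
      rw [h3, ← Finset.sum_add_distrib, ← Finset.sum_add_distrib]
      refine Finset.sum_congr rfl fun j _ => ?_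
      simp only [Yb]
      ring
    rw [h2] at h1
    exact h1
  · apply Finset.sum_nonneg
    intro j _
    exact sub_nonneg.2 (vol_mono (subset_univ (Loc H (ppos w (j * b)) M)) hω
      (Subset.refl (blkW w b hb' j)) (finite_blkW w b hb' j))
  · exact vol_nonneg _ _ _

omit [Countable ι] in
lemma integral_four {f₁ f₂ f₃ : (ι → ℕ) → ℝ} (i₁ : Integrable f₁ H.P) (i₂ : Integrable f₂ H.P)
    (i₃ : Integrable f₃ H.P) (c : ℝ) : ∫ ω, (c + (f₁ ω + f₂ ω + f₃ ω)) ∂H.P =
      c + (∫ ω, f₁ ω ∂H.P + ∫ ω, f₂ ω ∂H.P + ∫ ω, f₃ ω ∂H.P) := by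
  have h1 : Integrable (fun ω => f₁ ω + f₂ ω) H.P := i₁.add i₂
  have h2 : Integrable (fun ω => f₁ ω + f₂ ω + f₃ ω) H.P := h1.add i₃
  rw [integral_add (integrable_const c) h2, integral_add h1 i₃, integral_add i₁ i₂]
  simp

lemma integrable_sumY_sq {b M : ℕ} {t : ℝ} (ht0 : 0 ≤ t) (htK : t ≤ KB d M b) {n : ℕ}
    (hb' : b ≤ n + 1) (w : Fin (n + 1) → Step d) (q : ℕ) :
    Integrable (fun ω => (∑ j ∈ Finset.range q, Yb H M t w b hb' j ω) ^ 2) H.P := by
  have h1 : (fun ω => (∑ j ∈ Finset.range q, Yb H M t w b hb' j ω) ^ 2) = fun ω =>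
      ∑ i ∈ Finset.range q, ∑ j ∈ Finset.range q,
        Yb H M t w b hb' i ω * Yb H M t w b hb' j ω := by
    funext ω
    rw [pow_two, Finset.sum_mul_sum]
  rw [h1]
  exact integrable_finsetSum _ fun i _ => integrable_finsetSum _ fun j _ =>
    integrable_Yb_mul M ht0 htK w hb' i j

/-- the bound for one walk -/
lemma one_walk (sh : H.Shift) (hχ : ∫⁻ ω, ((H.clus Set.univ ω 0).encard : ℝ≥0∞) ∂H.P < ⊤)
    {b M : ℕ} {t ε₁ : ℝ} (hb0 : 0 < b) (hε1 : 0 < ε₁) {θ : ℝ} (hθ : 0 ≤ θ)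
    (ht0 : 0 ≤ t) (htK : t ≤ KB d M b)
    (htb : t ≤ (b : ℝ) * (θ + ε₁)) {n : ℕ} (hb' : b ≤ n + 1)
    (hM : ∀ u : Fin b → Step d, ∫ ω, vol H univ ω (blk u) ∂H.P - tloc H M u ≤ ε₁)
    (hlast : (b : ℝ) * ∫ ω, ((H.clus univ ω 0).ncard : ℝ) ∂H.P ≤ ε₁ * ((n : ℝ) + 1))
    (w : Fin (n + 1) → Step d) (hw : stepSum w = 0) :
    ∫ ω, max (vol H univ ω (range0 w) / ((n : ℝ) + 1) - θ) 0 ∂H.P ≤
        ε₁ + ((ε₁ + (∫ ω, (∑ j ∈ Finset.range ((n + 1) / b), Yb H M t w b hb' j ω) ^ 2 ∂H.P) /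
          (ε₁ * ((n : ℝ) + 1) ^ 2)) / 2 + ε₁ + ε₁) := by
  have hfin : (range0 w).Finite := by
    rw [range0_eq hw]
    exact (finite_lt_nat _).image _
  have hY2 := integrable_sumY_sq (H := H) ht0 htK hb' w ((n + 1) / b)
  have hVint : ∀ (j : ℕ) (J : Set ι), Integrable (fun ω => vol H J ω (blkW w b hb' j)) H.P :=
    fun j J => integrable_vol sh hχ J (finite_blkW w b hb' j)
  have hdint : ∀ j : ℕ, Integrable (fun ω => vol H univ ω (blkW w b hb' j) -
            vol H (Loc H (ppos w (j * b)) M) ω (blkW w b hb' j)) H.P :=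
    fun j => (hVint j _).sub (hVint j _)
  have i0 : Integrable (fun ω => ε₁ + (∑ j ∈ Finset.range ((n + 1) / b),
      Yb H M t w b hb' j ω) ^ 2 / (ε₁ * ((n : ℝ) + 1) ^ 2)) H.P :=
    (integrable_const _).add (hY2.div_const _)
  have i1 : Integrable (fun ω => (ε₁ + (∑ j ∈ Finset.range ((n + 1) / b),
      Yb H M t w b hb' j ω) ^ 2 / (ε₁ * ((n : ℝ) + 1) ^ 2)) / 2) H.P := i0.div_const 2
  have i2 : Integrable (fun ω => (∑ j ∈ Finset.range ((n + 1) / b),
      (vol H univ ω (blkW w b hb' j) -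
            vol H (Loc H (ppos w (j * b)) M) ω (blkW w b hb' j))) / ((n : ℝ) + 1)) H.P :=
    (integrable_finsetSum _ fun j _ => hdint j).div_const _
  have i3 : Integrable (fun ω => vol H univ ω (lastS w b) / ((n : ℝ) + 1)) H.P :=
    (integrable_vol sh hχ univ (Finset.finite_toSet _)).div_const _
  have hmaxint : Integrable (fun ω => max (vol H univ ω (range0 w) / ((n : ℝ) + 1) - θ) 0) H.P :=
    (((integrable_vol sh hχ univ hfin).div_const _).sub (integrable_const _)).sup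
          (integrable_const 0)
  have i12 : Integrable (fun ω => (ε₁ + (∑ j ∈ Finset.range ((n + 1) / b),
      Yb H M t w b hb' j ω) ^ 2 / (ε₁ * ((n : ℝ) + 1) ^ 2)) / 2 +
      (∑ j ∈ Finset.range ((n + 1) / b), (vol H univ ω (blkW w b hb' j) -
            vol H (Loc H (ppos w (j * b)) M) ω (blkW w b hb' j))) / ((n : ℝ) + 1)) H.P :=
    i1.add i2
  have i123 : Integrable (fun ω => (ε₁ + (∑ j ∈ Finset.range ((n + 1) / b),
      Yb H M t w b hb' j ω) ^ 2 / (ε₁ * ((n : ℝ) + 1) ^ 2)) / 2 +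
      (∑ j ∈ Finset.range ((n + 1) / b), (vol H univ ω (blkW w b hb' j) -
            vol H (Loc H (ppos w (j * b)) M) ω (blkW w b hb' j))) / ((n : ℝ) + 1) +
      vol H univ ω (lastS w b) / ((n : ℝ) + 1)) H.P := i12.add i3
  have iall : Integrable (fun ω => ε₁ + ((ε₁ + (∑ j ∈ Finset.range ((n + 1) / b),
      Yb H M t w b hb' j ω) ^ 2 / (ε₁ * ((n : ℝ) + 1) ^ 2)) / 2 +
      (∑ j ∈ Finset.range ((n + 1) / b), (vol H univ ω (blkW w b hb' j) -
            vol H (Loc H (ppos w (j * b)) M) ω (blkW w b hb' j))) / ((n : ℝ) + 1) +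
      vol H univ ω (lastS w b) / ((n : ℝ) + 1))) H.P := (integrable_const ε₁).add i123
  have h1 := integral_mono_ae hmaxint iall (by
    filter_upwards [ae_allFin sh hχ] with ω hω
    exact pointwise_bound hb0 hε1 hθ htb hb' w hw ω hω)
  refine h1.trans ?_
  rw [integral_four i1 i2 i3]
  have e0 : ∫ _ω : ι → ℕ, ε₁ ∂H.P = ε₁ := by simp
  have e1 : ∫ ω, (ε₁ + (∑ j ∈ Finset.range ((n + 1) / b),
      Yb H M t w b hb' j ω) ^ 2 / (ε₁ * ((n : ℝ) + 1) ^ 2)) / 2 ∂H.P =
      (ε₁ + (∫ ω, (∑ j ∈ Finset.range ((n + 1) / b), Yb H M t w b hb' j ω) ^ 2 ∂H.P) /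
        (ε₁ * ((n : ℝ) + 1) ^ 2)) / 2 := by
    rw [integral_div, integral_add (integrable_const _) (hY2.div_const _), integral_div, e0]
  have hN0 : (0 : ℝ) < (n : ℝ) + 1 := by positivity
  have e2 : ∫ ω, (∑ j ∈ Finset.range ((n + 1) / b), (vol H univ ω (blkW w b hb' j) -
          vol H (Loc H (ppos w (j * b)) M) ω (blkW w b hb' j))) / ((n : ℝ) + 1) ∂H.P ≤ ε₁ := by
    rw [integral_div, integral_finsetSum _ fun j _ => hdint j]
    have h2 : ∀ j ∈ Finset.range ((n + 1) / b), ∫ ω, (vol H univ ω (blkW w b hb' j) -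
          vol H (Loc H (ppos w (j * b)) M) ω (blkW w b hb' j)) ∂H.P ≤ ε₁ := by
      intro j _
      rw [integral_sub (hVint j _) (hVint j _)]
      have h3 := integral_vol_shift (H := H) sh (ppos w (j * b)) univ
        (blk (w ∘ perE n (j * b) b hb'))
      rw [image_act_univ] at h3
      have h4 := integral_vol_shift (H := H) sh (ppos w (j * b)) (Loc H 0 M)
        (blk (w ∘ perE n (j * b) b hb'))
      rw [image_act_Loc, zero_add] at h4
      unfold blkW
      rw [h3, h4]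
      exact hM _
    have h3 := Finset.sum_le_sum h2
    rw [Finset.sum_const, Finset.card_range, nsmul_eq_mul] at h3
    rw [div_le_iff₀ hN0]
    refine h3.trans ?_
    rw [mul_comm]
    apply mul_le_mul_of_nonneg_left _ hε1.le
    have : (n + 1) / b ≤ n + 1 := Nat.div_le_self _ _
    exact_mod_cast this
  have e3 : ∫ ω, vol H univ ω (lastS w b) / ((n : ℝ) + 1) ∂H.P ≤ ε₁ := by
    rw [integral_div, div_le_iff₀ hN0]
    refine le_trans ?_ hlast
    refine (integral_vol_le sh hχ univ (lastS w b)).trans ?_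
    apply mul_le_mul_of_nonneg_right _ (integral_nonneg fun _ => Nat.cast_nonneg _)
    exact_mod_cast card_last_le n b (by omega) (ppos w)
  rw [e1]
  linarith

/-- the mean of the positive part of the deviation -/
theorem upper_bound (hd : 4 ≤ d) (h : KernAsymp d) (sh : H.Shift)
    (hχ : ∫⁻ ω, ((H.clus Set.univ ω 0).encard : ℝ≥0∞) ∂H.P < ⊤) {ε : ℝ} (hε : 0 < ε) :
    ∃ n₀ : ℕ, ∀ n ≥ n₀, Odd n → 0 < cnt d (n + 1) 0 ∧
      CS (fun w : Fin (n + 1) → Step d =>
        ∫ ω, max (vol H univ ω (range0 w) / ((n : ℝ) + 1) - dens H) 0 ∂H.P) ≤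
        ε * cnt d (n + 1) 0 := by
  have hd1 : 1 ≤ d := by omega
  obtain ⟨ε₁, hε₁⟩ : ∃ ε₁ : ℝ, ε₁ = ε / 5 := ⟨_, rfl⟩
  have hε1 : 0 < ε₁ := by rw [hε₁]; positivity
  obtain ⟨m, hm⟩ := exists_block hd1 sh hχ hε1
  obtain ⟨b, hb⟩ : ∃ b, b = m + 1 := ⟨_, rfl⟩
  rw [← hb] at hm
  obtain ⟨M, hM⟩ := exists_radius sh hχ b hε1
  obtain ⟨K₁, hK₁, n₁, hn₁⟩ := CS_sq_le hd h sh hχ M b (by omega) (ε := ε₁ ^ 2) (by positivity)
  obtain ⟨t, ht⟩ : ∃ t : ℝ, t = EF (fun u : Fin b → Step d => tloc H M u) := ⟨_, rfl⟩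
  rw [← ht] at hn₁
  obtain ⟨χ, hχr⟩ : ∃ χ : ℝ, χ = ∫ ω, ((H.clus univ ω 0).ncard : ℝ) ∂H.P := ⟨_, rfl⟩
  have hχ0 : 0 ≤ χ := by rw [hχr]; exact integral_nonneg fun _ => Nat.cast_nonneg _
  have ht0 : 0 ≤ t := by
    rw [ht]
    have := EF_mono (d := d) (α := Fin b) (F := fun _ => 0) (G := fun u => tloc H M u)
      (fun u => tloc_nonneg M u)
    rwa [EF_const hd1] at this
  have htK : t ≤ KB d M b := by
    rw [ht]
    have := EF_mono (d := d) (α := Fin b) (F := fun u => tloc H M u) (G := fun _ => KB d M b)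
      (fun u => tloc_le sh hχ M u)
    rwa [EF_const hd1] at this
  have htb : t ≤ (b : ℝ) * (dens H + ε₁) := by
    have h1 : t ≤ EF (fun u : Fin b → Step d => ∫ ω, vol H univ ω (blk u) ∂H.P) := by
      rw [ht]
      apply EF_mono
      intro u
      unfold tloc
      apply integral_mono_ae (integrable_vol sh hχ _ (finite_blk u))
        (integrable_vol sh hχ _ (finite_blk u))
      filter_upwards [ae_allFin sh hχ] with ω hω
      exact vol_mono (subset_univ _) hω Subset.rfl (finite_blk u)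
    refine h1.trans (hm.trans_eq ?_)
    rw [hb]
    push_cast
    ring
  have hdens : 0 < dens H := dens_pos hd h sh hχ
  obtain ⟨n₂, hn₂⟩ := exists_nat_ge ((b : ℝ) * χ / ε₁ + K₁ / ε₁ ^ 2)
  refine ⟨n₁ + n₂ + b, fun n hn hodd => ?_⟩
  obtain ⟨hb', hZ, hsq⟩ := hn₁ n (by omega) hodd
  have hZ' : (0 : ℝ) < cnt d (n + 1) 0 := by exact_mod_cast hZ
  refine ⟨hZ, ?_⟩
  obtain ⟨N, hN⟩ : ∃ N : ℝ, N = (n : ℝ) + 1 := ⟨_, rfl⟩
  have hN0 : 0 < N := by rw [hN]; positivity
  have hNn₂ : (b : ℝ) * χ / ε₁ + K₁ / ε₁ ^ 2 ≤ N := by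
    refine hn₂.trans ?_
    have : n₂ ≤ n + 1 := by omega
    rw [hN]; exact_mod_cast this
  have hlast : (b : ℝ) * χ ≤ ε₁ * N := by
    have h1 : (b : ℝ) * χ / ε₁ ≤ N := by
      have : 0 ≤ K₁ / ε₁ ^ 2 := by positivity
      linarith
    rw [div_le_iff₀ hε1] at h1
    linarith
  have hK₁N : K₁ ≤ ε₁ ^ 2 * N := by
    have h1 : K₁ / ε₁ ^ 2 ≤ N := by
      have : 0 ≤ (b : ℝ) * χ / ε₁ := by positivity
      linarith
    rw [div_le_iff₀ (by positivity)] at h1
    linarith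
  rw [hχr, hN] at hlast
  -- sum over the walks
  have h1 : CS (fun w : Fin (n + 1) → Step d =>
        ∫ ω, max (vol H univ ω (range0 w) / ((n : ℝ) + 1) - dens H) 0 ∂H.P) ≤
      CS (fun w : Fin (n + 1) → Step d => (7 / 2 * ε₁) + (1 / (2 * (ε₁ * N ^ 2))) *
        ∫ ω, (∑ j ∈ Finset.range ((n + 1) / b), Yb H M t w b hb' j ω) ^ 2 ∂H.P) := by
    apply CS_mono
    intro w hw
    refine (one_walk sh hχ (by omega) hε1 hdens.le ht0 htK htb hb' hM hlast w hw).trans_eq ?_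
    rw [← hN]
    field_simp
    ring
  rw [CS_add, CS_const, CS_mul_left] at h1
  rw [← hN] at hsq
  have h2 : (1 / (2 * (ε₁ * N ^ 2))) * CS (fun w : Fin (n + 1) → Step d =>
      ∫ ω, (∑ j ∈ Finset.range ((n + 1) / b), Yb H M t w b hb' j ω) ^ 2 ∂H.P) ≤
      (1 / (2 * (ε₁ * N ^ 2))) * ((N * K₁ + N ^ 2 * ε₁ ^ 2) * cnt d (n + 1) 0) :=
    mul_le_mul_of_nonneg_left hsq (by positivity)
  have h3 : (1 / (2 * (ε₁ * N ^ 2))) * ((N * K₁ + N ^ 2 * ε₁ ^ 2) * cnt d (n + 1) 0) ≤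
      ε₁ * cnt d (n + 1) 0 := by
    rw [← mul_assoc]
    apply mul_le_mul_of_nonneg_right _ hZ'.le
    rw [one_div, inv_mul_le_iff₀ (by positivity)]
    nlinarith
  calc _ ≤ 7 / 2 * ε₁ * cnt d (n + 1) 0 + ε₁ * cnt d (n + 1) 0 := by linarith
    _ = (9 / 2 * ε₁) * cnt d (n + 1) 0 := by ring
    _ ≤ ε * cnt d (n + 1) 0 := by
        apply mul_le_mul_of_nonneg_right _ hZ'.le
        rw [hε₁]
        linarith

end Bridge

open MeasureTheory ProbabilityTheory Filter Topology Set Bridge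
open scoped ENNReal NNReal

/-- Law of large numbers along a random walk bridge, from the local central limit estimates. -/
theorem bridge_lln_of {d : ℕ} (hd : 4 ≤ d) (hk : KernAsymp d) {ι : Type} [Countable ι]
    (H : HSys (Lat d) ι) (sh : H.Shift)
    (hχ : ∫⁻ ω, ((H.clus Set.univ ω 0).encard : ℝ≥0∞) ∂H.P < ⊤)
    (Jk : ℕ → Set ι) (hmono : Monotone Jk) (hU : ⋃ k, Jk k = Set.univ)
    (hinv : ∀ k v i, sh.act v i ∈ Jk k ↔ i ∈ Jk k) :
    ∃ θ : ℝ, 0 < θ ∧ ∀ η > 0, ∃ k n₀ : ℕ, ∀ n ≥ n₀, Odd n → ∀ J : Set ι, Jk k ⊆ J →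
      (∀ v i, sh.act v i ∈ J ↔ i ∈ J) →
      ∑ w : Fin (n + 1) → Step d, (if IsClosedWalk w then
        ∫ ω, |((H.clusW J ω (range0 w)).ncard : ℝ) / (n + 1) - θ| ∂H.P else 0) ≤
      η * (Finset.univ.filter fun w : Fin (n + 1) → Step d => IsClosedWalk w).card := by
  refine ⟨dens H, dens_pos hd hk sh hχ, fun η hη => ?_⟩
  obtain ⟨k, n₁, hn₁⟩ := lower_bound hd hk sh hχ Jk hmono hU hinv (ε := η / 3) (by positivity)
  obtain ⟨n₂, hn₂⟩ := upper_bound (H := H) hd hk sh hχ (ε := η / 3) (by positivity)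
  refine ⟨k, n₁ + n₂, fun n hn hodd J hJ _ => ?_⟩
  have hlow := hn₁ n (by omega) hodd
  obtain ⟨hZ, hup⟩ := hn₂ n (by omega) hodd
  have hZ' : (0 : ℝ) < cnt d (n + 1) 0 := by exact_mod_cast hZ
  have hcard : ((Finset.univ.filter fun w : Fin (n + 1) → Step d => IsClosedWalk w).card : ℝ) =
      cnt d (n + 1) 0 := by
    unfold cnt
    congr 2
    ext w
    simp [isClosedWalk_iff]
  have hsum : ∑ w : Fin (n + 1) → Step d, (if IsClosedWalk w then
        ∫ ω, |((H.clusW J ω (range0 w)).ncard : ℝ) / (n + 1) - dens H| ∂H.P else 0) =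
      CS (fun w : Fin (n + 1) → Step d =>
        ∫ ω, |vol H J ω (range0 w) / ((n : ℝ) + 1) - dens H| ∂H.P) := by
    unfold CS
    refine Finset.sum_congr rfl fun w _ => ?_
    simp only [isClosedWalk_iff]
    rfl
  rw [hsum, hcard]
  have hN0 : (0 : ℝ) < (n : ℝ) + 1 := by positivity
  have hpt : CS (fun w : Fin (n + 1) → Step d =>
        ∫ ω, |vol H J ω (range0 w) / ((n : ℝ) + 1) - dens H| ∂H.P) ≤
      CS (fun w : Fin (n + 1) → Step d =>
        2 * (∫ ω, max (vol H univ ω (range0 w) / ((n : ℝ) + 1) - dens H) 0 ∂H.P) + dens H -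
          ((n : ℝ) + 1)⁻¹ * ∫ ω, vol H (Jk k) ω (range0 w) ∂H.P) := by
    apply CS_mono
    intro w hw
    have hfin : (range0 w).Finite := by
      rw [range0_eq hw]
      exact (finite_lt_nat _).image _
    have i1 : Integrable (fun ω => max (vol H univ ω (range0 w) / ((n : ℝ) + 1) - dens H) 0) H.P :=
      (((integrable_vol sh hχ univ hfin).div_const _).sub (integrable_const _)).sup
          (integrable_const 0)
    have i2 : Integrable (fun ω => vol H (Jk k) ω (range0 w)) H.P := integrable_vol sh hχ _ hfin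
    have i3 : Integrable (fun ω => |vol H J ω (range0 w) / ((n : ℝ) + 1) - dens H|) H.P :=
      (((integrable_vol sh hχ J hfin).div_const _).sub (integrable_const _)).abs
    have i4 : Integrable (fun ω => 2 * max (vol H univ ω (range0 w) / ((n : ℝ) + 1) - dens H) 0 +
        dens H) H.P := (i1.const_mul 2).add (integrable_const _)
    calc ∫ ω, |vol H J ω (range0 w) / ((n : ℝ) + 1) - dens H| ∂H.P
        ≤ ∫ ω, (2 * max (vol H univ ω (range0 w) / ((n : ℝ) + 1) - dens H) 0 + dens H -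
            ((n : ℝ) + 1)⁻¹ * vol H (Jk k) ω (range0 w)) ∂H.P := by
          apply integral_mono_ae i3 (i4.sub (i2.const_mul _))
          filter_upwards [ae_allFin sh hχ] with ω hω
          have h1 : vol H (Jk k) ω (range0 w) ≤ vol H J ω (range0 w) :=
            vol_mono hJ hω Subset.rfl hfin
          have h2 : vol H J ω (range0 w) ≤ vol H univ ω (range0 w) :=
            vol_mono (subset_univ _) hω Subset.rfl hfin
          have h3 : vol H J ω (range0 w) / ((n : ℝ) + 1) ≤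
              vol H univ ω (range0 w) / ((n : ℝ) + 1) := div_le_div_of_nonneg_right h2 hN0.le
          have h4 : ((n : ℝ) + 1)⁻¹ * vol H (Jk k) ω (range0 w) ≤
              vol H J ω (range0 w) / ((n : ℝ) + 1) := by
            rw [div_eq_inv_mul]
            exact mul_le_mul_of_nonneg_left h1 (by positivity)
          have h5 := le_max_left (vol H univ ω (range0 w) / ((n : ℝ) + 1) - dens H) 0
          have h6 := le_max_right (vol H univ ω (range0 w) / ((n : ℝ) + 1) - dens H) 0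
          simp only [Pi.sub_apply]
          rw [abs_le]
          constructor <;> linarith
      _ = _ := by
          rw [integral_sub i4 (i2.const_mul _),
            integral_add (i1.const_mul 2) (integrable_const _), integral_const_mul,
            integral_const_mul]
          simp
  refine hpt.trans ?_
  rw [CS_sub, CS_add, CS_mul_left, CS_const, CS_mul_left]
  have h1 : (dens H - η / 3) * cnt d (n + 1) 0 ≤ ((n : ℝ) + 1)⁻¹ *
      CS (fun w : Fin (n + 1) → Step d => ∫ ω, vol H (Jk k) ω (range0 w) ∂H.P) := by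
    rw [le_inv_mul_iff₀ hN0]
    refine le_of_eq_of_le ?_ hlow
    ring
  linarith

end Pool.Agent.LoopPerc
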