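import Pool.Agent.LoopPerc.BridgePath

/-!
# The mean number of vertices connected to a path
(package G of MP_b22ef1_pr, helper7 for helper96)
-/

namespace Pool.Agent.LoopPerc.Bridge

open MeasureTheory ProbabilityTheory Filter Topology Set
open scoped ENNReal NNReal

variable {d : ℕ} {ι : Type} {H : HSys (Lat d) ι}

open Classical in
/-- weight of a cluster that does not contain the points `- posF u l`, `1 ≤ l ≤ s` -/
noncomputable def avoid (g : Set (Lat d) → ℝ) {s : ℕ} (u : Fin s → Step d) (A : Set (Lat d)) : ℝ :=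
  if ∀ l, 1 ≤ l → l ≤ s → -posF u l ∉ A then g A else 0

variable (H) in
/-- expected weight of the cluster of `0`, if it is not visited by the (reversed) walk -/
noncomputable def fv (J : Set ι) (g : Set (Lat d) → ℝ) {s : ℕ} (u : Fin s → Step d) : ℝ :=
  ∫ ω, avoid g u (H.clus J ω 0) ∂H.P

/-- the number of vertices -/
noncomputable def nc (A : Set (Lat d)) : ℝ := (A.ncard : ℝ)

open Classical in
/-- the number of vertices, truncated -/
noncomputable def nct (a : ℕ) (A : Set (Lat d)) : ℝ := if A.ncard ≤ a then (A.ncard : ℝ) else 0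

lemma nc_nonneg (A : Set (Lat d)) : 0 ≤ nc A := Nat.cast_nonneg _

lemma nct_nonneg (a : ℕ) (A : Set (Lat d)) : 0 ≤ nct a A := by
  unfold nct; split_ifs
  · exact Nat.cast_nonneg _
  · exact le_rfl

lemma nct_le_nc (a : ℕ) (A : Set (Lat d)) : nct a A ≤ nc A := by
  unfold nct nc; split_ifs
  · exact le_rfl
  · exact Nat.cast_nonneg _

lemma nct_le (a : ℕ) (A : Set (Lat d)) : nct a A ≤ a := by
  unfold nct; split_ifs with h
  · exact_mod_cast h
  · exact Nat.cast_nonneg _

lemma avoid_nonneg {g : Set (Lat d) → ℝ} (hg : ∀ A, 0 ≤ g A) {s : ℕ} (u : Fin s → Step d)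
    (A : Set (Lat d)) : 0 ≤ avoid g u A := by
  unfold avoid; split_ifs
  · exact hg A
  · exact le_rfl

lemma avoid_le {g : Set (Lat d) → ℝ} (hg : ∀ A, 0 ≤ g A) {s : ℕ} (u : Fin s → Step d)
    (A : Set (Lat d)) : avoid g u A ≤ g A := by
  unfold avoid; split_ifs
  · exact le_rfl
  · exact hg A

lemma avoid_mono {g g' : Set (Lat d) → ℝ} (hg : ∀ A, g A ≤ g' A) {s : ℕ} (u : Fin s → Step d)
    (A : Set (Lat d)) : avoid g u A ≤ avoid g' u A := by
  unfold avoid; split_ifs
  · exact hg A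
  · exact le_rfl

lemma avoid_restrict {g : Set (Lat d) → ℝ} (hg : ∀ A, 0 ≤ g A) {s L : ℕ} (hL : L ≤ s)
    (u : Fin s → Step d) (v : Fin L → Step d) (huv : ∀ l ≤ L, posF u l = posF v l)
    (A : Set (Lat d)) : avoid g u A ≤ avoid g v A := by
  unfold avoid
  by_cases h : ∀ l, 1 ≤ l → l ≤ s → -posF u l ∉ A
  · rw [if_pos h, if_pos]
    intro l h1 h2
    rw [← huv l h2]
    exact h l h1 (h2.trans hL)
  · rw [if_neg h]
    split_ifs
    · exact hg A
    · exact le_rfl

variable [Countable ι]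

lemma integrable_nc (sh : H.Shift) (hχ : ∫⁻ ω, ((H.clus Set.univ ω 0).encard : ℝ≥0∞) ∂H.P < ⊤)
    (J : Set ι) : Integrable (fun ω => nc (H.clus J ω 0)) H.P := by
  have h := integrable_vol sh hχ J (finite_singleton (0 : Lat d))
  simp only [vol_singleton] at h
  exact h

lemma integrable_of_le_nc (sh : H.Shift)
    (hχ : ∫⁻ ω, ((H.clus Set.univ ω 0).encard : ℝ≥0∞) ∂H.P < ⊤)
    (J : Set ι) {Φ : Set (Lat d) → ℝ} (hΦ : ∀ A, |Φ A| ≤ nc A) :
    Integrable (fun ω => Φ (H.clus J ω 0)) H.P := by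
  refine Integrable.mono' (integrable_nc sh hχ J)
    (aestronglyMeasurable_clus (ae_allFin sh hχ) J 0 Φ) ?_
  exact Eventually.of_forall fun ω => hΦ _

lemma integrable_avoid (sh : H.Shift)
    (hχ : ∫⁻ ω, ((H.clus Set.univ ω 0).encard : ℝ≥0∞) ∂H.P < ⊤)
    (J : Set ι) {g : Set (Lat d) → ℝ} (hg : ∀ A, 0 ≤ g A) (hg' : ∀ A, g A ≤ nc A) {s : ℕ}
    (u : Fin s → Step d) : Integrable (fun ω => avoid g u (H.clus J ω 0)) H.P := by
  refine integrable_of_le_nc sh hχ J (Φ := avoid g u) fun A => ?_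
  rw [abs_of_nonneg (avoid_nonneg hg u A)]
  exact (avoid_le hg u A).trans (hg' A)

/-- the mean number of vertices connected to a path, decomposed according to first visits -/
theorem integral_vol_path (sh : H.Shift)
    (hχ : ∫⁻ ω, ((H.clus Set.univ ω 0).encard : ℝ≥0∞) ∂H.P < ⊤)
    {J : Set ι} (hJ : ∀ v i, sh.act v i ∈ J ↔ i ∈ J) {n : ℕ} (w : Fin (n + 1) → Step d)
    (m : ℕ) (hm : m ≤ n + 1) :
    ∫ ω, vol H J ω (ppos w '' {r | r < m}) ∂H.P =
      ∑ s ∈ (Finset.range m).attach, fv H J nc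
        (w ∘ revE n s.1 s.1 le_rfl ((Finset.mem_range.1 s.2).le.trans hm)) := by
  classical
  have h1 : ∫ ω, vol H J ω (ppos w '' {r | r < m}) ∂H.P =
      ∫ ω, ∑ s ∈ (Finset.range m).attach,
        (if ∀ r < s.1, ppos w r ∉ H.clus J ω (ppos w s.1) then
          ((H.clus J ω (ppos w s.1)).ncard : ℝ) else 0) ∂H.P := by
    apply integral_congr_ae
    filter_upwards [ae_allFin sh hχ] with ω hω
    rw [vol_first_visit hω]
    rw [← Finset.sum_attach]
  have hint : ∀ s ∈ (Finset.range m).attach, Integrable (fun ω =>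
      (if ∀ r < s.1, ppos w r ∉ H.clus J ω (ppos w s.1) then
          ((H.clus J ω (ppos w s.1)).ncard : ℝ) else 0)) H.P := by
    intro s _
    have h2 := integrable_vol sh hχ J (finite_singleton (ppos w s.1))
    simp only [vol_singleton] at h2
    refine Integrable.mono' h2
      (aestronglyMeasurable_clus (ae_allFin sh hχ) J (ppos w s.1)
        (fun A => if ∀ r < s.1, ppos w r ∉ A then ((A.ncard : ℝ)) else 0)) ?_
    refine Eventually.of_forall fun ω => ?_
    split_ifs
    · rw [Real.norm_of_nonneg (Nat.cast_nonneg _)]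
    · rw [norm_zero]; exact Nat.cast_nonneg _
  rw [h1, integral_finsetSum _ hint]
  refine Finset.sum_congr rfl fun s _ => ?_
  have hs : s.1 < m := Finset.mem_range.1 s.2
  have h3 := integral_clus_shift (H := H) sh (ppos w s.1) (image_act_eq sh hJ (ppos w s.1))
    (fun A => if ∀ r < s.1, ppos w r ∉ A then ((A.ncard : ℝ)) else 0)
  rw [h3]
  unfold fv
  congr 1
  funext ω
  unfold avoid nc
  rw [ncard_image_of_injective _ (add_left_injective (ppos w s.1))]
  congr 1
  apply propext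
  constructor
  · intro h l hl1 hl2 hmem
    have h4 := h (s.1 - l) (by omega)
    apply h4
    refine ⟨_, hmem, ?_⟩
    simp only
    rw [posF_revE w s.1 s.1 le_rfl (by omega) l hl2]
    abel
  · rintro h r hr ⟨z, hz, hzr⟩
    simp only at hzr
    have h4 := h (s.1 - r) (by omega) (by omega)
    apply h4
    rw [posF_revE w s.1 s.1 le_rfl (by omega) (s.1 - r) (by omega)]
    have h5 : s.1 - (s.1 - r) = r := by omega
    rw [h5, ← hzr]
    have h6 : -(ppos w s.1 - (z + ppos w s.1)) = z := by abel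
    rw [h6]
    exact hz

variable (H) in
/-- expected weight of the cluster of `0` avoided by the first `s` steps of a free walk -/
noncomputable def av (s : ℕ) : ℝ := EF (fun u : Fin s → Step d => fv H univ nc u)

lemma posF_comp_castSucc {s : ℕ} (u : Fin (s + 1) → Step d) (l : ℕ) (hl : l ≤ s) :
    posF (u ∘ Fin.castSucc) l = posF u l := by
  unfold posF
  refine Finset.sum_congr rfl fun i hi => ?_
  rw [Finset.mem_range] at hi
  rw [dif_pos (by omega), dif_pos (by omega)]
  rfl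

lemma av_antitone (hd : 1 ≤ d) (sh : H.Shift)
    (hχ : ∫⁻ ω, ((H.clus Set.univ ω 0).encard : ℝ≥0∞) ∂H.P < ⊤) : Antitone (av H) := by
  apply antitone_nat_of_succ_le
  intro s
  unfold av
  have h1 := EF_comp hd (Fin.castSuccEmb (n := s)) (fun u : Fin s → Step d => fv H univ nc u)
  rw [← h1]
  apply EF_mono
  intro u
  unfold fv
  apply integral_mono (integrable_avoid sh hχ _ nc_nonneg (fun _ => le_rfl) _)
    (integrable_avoid sh hχ _ nc_nonneg (fun _ => le_rfl) _)
  intro ω
  exact avoid_restrict nc_nonneg (Nat.le_succ s) _ _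
    (fun l hl => (posF_comp_castSucc u l hl).symm) _

omit [Countable ι] in
lemma av_nonneg (s : ℕ) : 0 ≤ av H s := by
  unfold av EF
  apply div_nonneg _ (by positivity)
  apply Finset.sum_nonneg
  intro u _
  exact integral_nonneg fun ω => avoid_nonneg nc_nonneg u _

variable (H) in
/-- the density -/
noncomputable def dens : ℝ := ⨅ s, av H s

lemma tendsto_av (hd : 1 ≤ d) (sh : H.Shift)
    (hχ : ∫⁻ ω, ((H.clus Set.univ ω 0).encard : ℝ≥0∞) ∂H.P < ⊤) :
    Tendsto (av H) atTop (𝓝 (dens H)) :=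
  tendsto_atTop_ciInf (av_antitone hd sh hχ) ⟨0, by rintro _ ⟨s, rfl⟩; exact av_nonneg s⟩

lemma dens_le_av (s : ℕ) : dens H ≤ av H s :=
  ciInf_le ⟨0, by rintro _ ⟨s, rfl⟩; exact av_nonneg s⟩ s

lemma posF_eq_ppos {m : ℕ} (u : Fin (m + 1) → Step d) (l : ℕ) (hl : l ≤ m + 1) :
    posF u l = ppos u l := by
  unfold posF ppos
  refine Finset.sum_congr rfl fun i hi => ?_
  rw [Finset.mem_range] at hi
  rw [dif_pos (by omega)]
  congr 2
  ext
  simp [Nat.mod_eq_of_lt (show i < m + 1 by omega)]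

lemma blk_eq {m : ℕ} (u : Fin (m + 1) → Step d) : blk u = ppos u '' {r | r < m + 1} := by
  unfold blk
  apply image_congr
  intro l hl
  have : l < m + 1 := hl
  exact posF_eq_ppos u l this.le

/-- the mean number of vertices connected to a free path of `m + 1` vertices -/
lemma EF_vol_blk (hd : 1 ≤ d) (sh : H.Shift)
    (hχ : ∫⁻ ω, ((H.clus Set.univ ω 0).encard : ℝ≥0∞) ∂H.P < ⊤) (m : ℕ) :
    EF (fun u : Fin (m + 1) → Step d => ∫ ω, vol H univ ω (blk u) ∂H.P) =
      ∑ s ∈ Finset.range (m + 1), av H s := by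
  have h1 : ∀ u : Fin (m + 1) → Step d, ∫ ω, vol H univ ω (blk u) ∂H.P =
      ∑ s ∈ (Finset.range (m + 1)).attach, fv H univ nc
        (u ∘ revE m s.1 s.1 le_rfl ((Finset.mem_range.1 s.2).le.trans le_rfl)) := by
    intro u
    rw [blk_eq]
    exact integral_vol_path sh hχ (fun _ _ => by simp) u (m + 1) le_rfl
  simp only [h1]
  rw [EF_sum, ← Finset.sum_attach (Finset.range (m + 1)) (av H)]
  refine Finset.sum_congr rfl fun s _ => ?_
  exact EF_comp hd _ (fun u : Fin s.1 → Step d => fv H univ nc u)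

/-- long blocks have mean density close to `dens` -/
lemma exists_block (hd : 1 ≤ d) (sh : H.Shift)
    (hχ : ∫⁻ ω, ((H.clus Set.univ ω 0).encard : ℝ≥0∞) ∂H.P < ⊤) {ε : ℝ} (hε : 0 < ε) :
    ∃ m : ℕ, EF (fun u : Fin (m + 1) → Step d => ∫ ω, vol H univ ω (blk u) ∂H.P) ≤
      ((m : ℝ) + 1) * (dens H + ε) := by
  have h1 := (tendsto_av hd sh hχ).cesaro
  have h2 := h1.comp (tendsto_add_atTop_nat 1)
  have h3 := h2.eventually (gt_mem_nhds (show dens H < dens H + ε by linarith))
  obtain ⟨m, hm⟩ := h3.exists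
  refine ⟨m, ?_⟩
  rw [EF_vol_blk hd sh hχ]
  simp only [Function.comp] at hm
  have hpos : (0 : ℝ) < ((m + 1 : ℕ) : ℝ) := by positivity
  rw [inv_mul_lt_iff₀ hpos] at hm
  push_cast at hm
  linarith

end Pool.Agent.LoopPerc.Bridge
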