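import Pool.Agent.LoopPerc.BridgeWalk
import Pool.Agent.LoopPerc.BridgeEnv

/-!
# Paths for the law of large numbers along a random walk bridge
(package G of MP_b22ef1_pr, helper7 for helper96)
-/

namespace Pool.Agent.LoopPerc.Bridge

open Filter Topology Set

variable {d : ℕ}

/-- position after `l` steps -/
def posF {b : ℕ} (u : Fin b → Step d) (l : ℕ) : Lat d :=
  ∑ i ∈ Finset.range l, if h : i < b then stepVec (u ⟨i, h⟩) else 0

lemma posF_zero {b : ℕ} (u : Fin b → Step d) : posF u 0 = 0 := by simp [posF]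

lemma posF_full {b : ℕ} (u : Fin b → Step d) : posF u b = stepSum u := by
  unfold posF stepSum
  rw [Finset.sum_range]
  refine Finset.sum_congr rfl fun i _ => ?_
  simp

/-- the block of `b` consecutive steps from time `s` on -/
def perE (n s b : ℕ) (hb : b ≤ n + 1) : Fin b ↪ Fin (n + 1) :=
  ⟨fun i => Fin.ofNat (n + 1) (s + i), by
    intro i j h
    have h1 : (s + i.val) % (n + 1) = (s + j.val) % (n + 1) := by
      simpa [Fin.ext_iff] using h
    have h2 : i.val % (n + 1) = j.val % (n + 1) := Nat.ModEq.add_left_cancel' s h1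
    rw [Nat.mod_eq_of_lt (by omega), Nat.mod_eq_of_lt (by omega)] at h2
    exact Fin.ext h2⟩

/-- the `b` steps before time `s`, in reversed order -/
def revE (n s b : ℕ) (hb : b ≤ s) (hs : s ≤ n + 1) : Fin b ↪ Fin (n + 1) :=
  ⟨fun i => Fin.ofNat (n + 1) (s - 1 - i), by
    intro i j h
    have h1 : (s - 1 - i.val) % (n + 1) = (s - 1 - j.val) % (n + 1) := by
      simpa [Fin.ext_iff] using h
    rw [Nat.mod_eq_of_lt (by omega), Nat.mod_eq_of_lt (by omega)] at h1
    exact Fin.ext (by omega)⟩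

lemma ppos_zero {n : ℕ} (w : Fin (n + 1) → Step d) : ppos w 0 = 0 := by simp [ppos]

lemma ppos_succ {n : ℕ} (w : Fin (n + 1) → Step d) (k : ℕ) :
    ppos w (k + 1) = ppos w k + stepVec (w (Fin.ofNat (n + 1) k)) := by
  simp [ppos, Finset.sum_range_succ]

lemma ppos_full {n : ℕ} (w : Fin (n + 1) → Step d) : ppos w (n + 1) = stepSum w := by
  unfold ppos stepSum
  rw [Finset.sum_range]
  refine Finset.sum_congr rfl fun i _ => ?_
  congr 2
  ext
  simp [Nat.mod_eq_of_lt i.2]

lemma isClosedWalk_iff {n : ℕ} (w : Fin (n + 1) → Step d) : IsClosedWalk w ↔ stepSum w = 0 := by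
  unfold IsClosedWalk
  rw [ppos_full]

lemma ppos_add {n : ℕ} (w : Fin (n + 1) → Step d) (s b : ℕ) (hb : b ≤ n + 1) (l : ℕ)
    (hl : l ≤ b) : ppos w (s + l) = posF (w ∘ perE n s b hb) l + ppos w s := by
  unfold ppos posF
  rw [Finset.sum_range_add, add_comm]
  congr 1
  refine Finset.sum_congr rfl fun i hi => ?_
  rw [Finset.mem_range] at hi
  rw [dif_pos (by omega)]
  rfl

lemma posF_revE {n : ℕ} (w : Fin (n + 1) → Step d) (s b : ℕ) (hb : b ≤ s) (hs : s ≤ n + 1)
    (l : ℕ) (hl : l ≤ b) : posF (w ∘ revE n s b hb hs) l = ppos w s - ppos w (s - l) := by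
  induction l with
  | zero => simp [posF_zero]
  | succ l ih =>
    have h1 : posF (w ∘ revE n s b hb hs) (l + 1) =
        posF (w ∘ revE n s b hb hs) l + stepVec (w (Fin.ofNat (n + 1) (s - 1 - l))) := by
      unfold posF
      rw [Finset.sum_range_succ, dif_pos (by omega)]
      rfl
    have h2 : s - l = (s - (l + 1)) + 1 := by omega
    have h3 : s - (l + 1) = s - 1 - l := by omega
    rw [h1, ih (by omega), h2, ppos_succ, h3]
    abel

lemma ppos_period {n : ℕ} {w : Fin (n + 1) → Step d} (hw : stepSum w = 0) (k : ℕ) :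
    ppos w (n + 1 + k) = ppos w k := by
  have h : ppos w (n + 1 + k) = ppos w (n + 1) +
      ∑ i ∈ Finset.range k, stepVec (w (Fin.ofNat (n + 1) (n + 1 + i))) := by
    unfold ppos
    rw [Finset.sum_range_add]
  rw [h, ppos_full, hw, zero_add]
  unfold ppos
  refine Finset.sum_congr rfl fun i _ => ?_
  congr 2
  ext
  simp

lemma ppos_mod {n : ℕ} {w : Fin (n + 1) → Step d} (hw : stepSum w = 0) (k : ℕ) :
    ppos w (k % (n + 1)) = ppos w k := by
  have h : ∀ m k : ℕ, ppos w ((n + 1) * m + k) = ppos w k := by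
    intro m
    induction m with
    | zero => intro k; simp
    | succ m ih =>
      intro k
      have : (n + 1) * (m + 1) + k = n + 1 + ((n + 1) * m + k) := by ring
      rw [this, ppos_period hw, ih]
  conv_rhs => rw [← Nat.div_add_mod k (n + 1)]
  rw [h]

lemma range0_eq {n : ℕ} {w : Fin (n + 1) → Step d} (hw : stepSum w = 0) :
    range0 w = ppos w '' {k | k < n + 1} := by
  ext x
  constructor
  · rintro ⟨k, rfl⟩
    exact ⟨k % (n + 1), Nat.mod_lt _ (Nat.succ_pos n), ppos_mod hw k⟩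
  · rintro ⟨k, _, rfl⟩
    exact ⟨k, rfl⟩

/-- the vertices of a block -/
def blk {b : ℕ} (u : Fin b → Step d) : Set (Lat d) := posF u '' {l | l < b}

lemma finite_blk {b : ℕ} (u : Fin b → Step d) : (blk u).Finite := (finite_lt_nat b).image _

lemma ncard_blk_le {b : ℕ} (u : Fin b → Step d) : (blk u).ncard ≤ b := by
  unfold blk
  refine (ncard_image_le (finite_lt_nat b)).trans ?_
  have : ({l : ℕ | l < b}).ncard = b := by
    have h : ({l : ℕ | l < b}) = ((Finset.range b : Finset ℕ) : Set ℕ) := by ext; simp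
    rw [h, ncard_coe_finset, Finset.card_range]
  omega

/-- the range of a closed walk is covered by the blocks and a short piece -/
lemma range0_subset {n : ℕ} {w : Fin (n + 1) → Step d} (hw : stepSum w = 0) (b : ℕ) (hb0 : 0 < b)
    (hb : b ≤ n + 1) :
    range0 w ⊆ (⋃ j ∈ Finset.range ((n + 1) / b),
      (fun z => z + ppos w (j * b)) '' blk (w ∘ perE n (j * b) b hb)) ∪
      ((Finset.Ico ((n + 1) / b * b) (n + 1)).image (ppos w) : Finset (Lat d)) := by
  rw [range0_eq hw]
  rintro _ ⟨k, hk, rfl⟩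
  have hk' : k < n + 1 := hk
  by_cases hkq : k < (n + 1) / b * b
  · left
    have hj : k / b < (n + 1) / b := (Nat.div_lt_iff_lt_mul hb0).2 hkq
    simp only [mem_iUnion]
    refine ⟨k / b, Finset.mem_range.2 hj, posF (w ∘ perE n (k / b * b) b hb) (k % b),
      ⟨k % b, Nat.mod_lt _ hb0, rfl⟩, ?_⟩
    simp only
    rw [← ppos_add w (k / b * b) b hb (k % b) (Nat.mod_lt _ hb0).le]
    congr 1
    rw [mul_comm]
    exact Nat.div_add_mod k b
  · right
    rw [Finset.mem_coe, Finset.mem_image]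
    exact ⟨k, Finset.mem_Ico.2 ⟨by omega, hk'⟩, rfl⟩

lemma card_last_le (n b : ℕ) (hb0 : 0 < b) (f : ℕ → Lat d) :
    ((Finset.Ico ((n + 1) / b * b) (n + 1)).image f).card ≤ b := by
  refine Finset.card_image_le.trans ?_
  rw [Nat.card_Ico]
  have h1 := Nat.div_add_mod (n + 1) b
  have h2 := Nat.mod_lt (n + 1) hb0
  rw [mul_comm] at h1
  omega

end Pool.Agent.LoopPerc.Bridge
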