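import Pool.Agent.LoopPerc.BridgeMean

/-!
# Positivity of the density (transience of the walk)
(package G of MP_b22ef1_pr, helper7 for helper96)
-/

namespace Pool.Agent.LoopPerc.Bridge

open MeasureTheory ProbabilityTheory Filter Topology Set
open scoped ENNReal NNReal

variable {d : ℕ} {ι : Type} {H : HSys (Lat d) ι}

/-- sums over pairs of times -/
lemma sum_pairs_le {c : ℕ → ℝ} (hc : ∀ r, 0 ≤ c r) {q s : ℕ} (hs : s < q) :
    ∑ t ∈ (Finset.range q).erase s, c ((s - t) + (t - s)) ≤ 2 * ∑ r ∈ Finset.Ico 1 q, c r := by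
  classical
  rw [← Finset.sum_filter_add_sum_filter_not _ (fun t => t < s)]
  have key : ∀ A : Finset ℕ, (∀ t ∈ A, 1 ≤ (s - t) + (t - s) ∧ (s - t) + (t - s) < q) →
      Set.InjOn (fun t => (s - t) + (t - s)) A →
      ∑ t ∈ A, c ((s - t) + (t - s)) ≤ ∑ r ∈ Finset.Ico 1 q, c r := by
    intro A hA hinj
    rw [← Finset.sum_image (f := c) hinj]
    apply Finset.sum_le_sum_of_subset_of_nonneg
    · intro r hr
      obtain ⟨t, ht, rfl⟩ := Finset.mem_image.1 hr
      exact Finset.mem_Ico.2 (hA t ht)
    · intro r _ _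
      exact hc r
  have h1 := key (((Finset.range q).erase s).filter (fun t => t < s)) (by
    intro t ht
    simp only [Finset.mem_filter, Finset.mem_erase, Finset.mem_range] at ht
    omega) (by
    intro t ht t' ht' h
    simp only [Finset.coe_filter, Finset.mem_erase, Finset.mem_range, Set.mem_ofPred_eq] at ht ht' h
    omega)
  have h2 := key (((Finset.range q).erase s).filter (fun t => ¬ t < s)) (by
    intro t ht
    simp only [Finset.mem_filter, Finset.mem_erase, Finset.mem_range] at ht
    omega) (by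
    intro t ht t' ht' h
    simp only [Finset.coe_filter, Finset.mem_erase, Finset.mem_range, Set.mem_ofPred_eq] at ht ht' h
    omega)
  linarith

lemma sum_inv_sq_tail (L m : ℕ) (hL : 1 ≤ L) (hm : L ≤ m) :
    ∑ r ∈ Finset.Ico (L + 1) (m + 1), 1 / (r : ℝ) ^ 2 ≤ 1 / (L : ℝ) - 1 / m := by
  induction m, hm using Nat.le_induction with
  | base => simp
  | succ m hm ih =>
    rw [Finset.sum_Ico_succ_top (by omega)]
    have hm' : (1 : ℝ) ≤ m := by
      have : 1 ≤ m := by omega
      exact_mod_cast this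
    have h1 : 1 / (((m + 1 : ℕ) : ℝ)) ^ 2 ≤ 1 / (m : ℝ) - 1 / ((m + 1 : ℕ) : ℝ) := by
      push_cast
      rw [div_sub_div _ _ (by positivity) (by positivity), div_le_div_iff₀ (by positivity)
        (by positivity)]
      nlinarith
    linarith

lemma sum_inv_sq_le (q : ℕ) : ∑ r ∈ Finset.Ico 1 q, 1 / (r : ℝ) ^ 2 ≤ 2 := by
  rcases Nat.lt_or_ge q 2 with hq | hq
  · have : Finset.Ico 1 q = ∅ := by
      rw [Finset.Ico_eq_empty_iff]; omega
    rw [this]; simp
  · obtain ⟨m, rfl⟩ : ∃ m, q = m + 1 := ⟨q - 1, by omega⟩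
    rw [Finset.sum_eq_sum_Ico_succ_bot (by omega)]
    have h1 := sum_inv_sq_tail 1 m le_rfl (by omega)
    have h2 : (0 : ℝ) ≤ 1 / m := by positivity
    norm_num at h1 ⊢
    have h3 : (0 : ℝ) ≤ (m : ℝ)⁻¹ := by positivity
    linarith

/-- a lower bound for the number of values of a sequence in terms of the number of coincidences -/
lemma card_image_ge {V : Type*} [DecidableEq V] (b : ℕ) (x : ℕ → V) (lam : ℝ) :
    2 * lam * b - lam ^ 2 * (∑ s ∈ Finset.range b, ∑ t ∈ Finset.range b,
      (if x s = x t then (1 : ℝ) else 0)) ≤ ((Finset.range b).image x).card := by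
  set R := (Finset.range b).image x with hR
  let N : V → ℝ := fun y => (((Finset.range b).filter fun l => x l = y).card : ℝ)
  have h1 : ∑ y ∈ R, N y = b := by
    have h := Finset.card_eq_sum_card_image x (Finset.range b)
    rw [Finset.card_range] at h
    conv_rhs => rw [h]
    push_cast
    rfl
  have h2 : ∑ s ∈ Finset.range b, ∑ t ∈ Finset.range b, (if x s = x t then (1 : ℝ) else 0) =
      ∑ y ∈ R, N y ^ 2 := by
    have h3 : ∀ s, ∑ t ∈ Finset.range b, (if x s = x t then (1 : ℝ) else 0) = N (x s) := by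
      intro s
      rw [Finset.sum_ite, Finset.sum_const_zero, add_zero, Finset.sum_const, nsmul_eq_mul, mul_one]
      simp only [N]
      congr 2
      ext t
      simp [eq_comm]
    simp only [h3]
    rw [Finset.sum_comp (f := N) (g := x)]
    refine Finset.sum_congr rfl fun y _ => ?_
    simp only [N, nsmul_eq_mul]
    ring
  have h4 : 0 ≤ ∑ y ∈ R, (1 - lam * N y) ^ 2 := Finset.sum_nonneg fun y _ => sq_nonneg _
  have h5 : ∑ y ∈ R, (1 - lam * N y) ^ 2 = (R.card : ℝ) - 2 * lam * (∑ y ∈ R, N y) +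
      lam ^ 2 * ∑ y ∈ R, N y ^ 2 := by
    rw [Finset.mul_sum, Finset.mul_sum]
    have : (R.card : ℝ) = ∑ y ∈ R, 1 := by simp
    rw [this, ← Finset.sum_sub_distrib, ← Finset.sum_add_distrib]
    refine Finset.sum_congr rfl fun y _ => ?_
    ring
  rw [h5, h1] at h4
  rw [h2]
  linarith

lemma EF_indicator (b : ℕ) (z : Lat d) :
    EF (fun u : Fin b → Step d => if stepSum u = z then (1 : ℝ) else 0) = pr d b z := by
  unfold EF pr cnt
  rw [Finset.sum_ite, Finset.sum_const_zero, add_zero, Finset.sum_const, nsmul_eq_mul, mul_one,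
    Fintype.card_fin]

/-- expected number of coincidences -/
lemma EF_coincidence (hd : 4 ≤ d) (h : KernAsymp d) : ∃ K : ℝ, 0 < K ∧ ∀ m : ℕ,
    EF (fun u : Fin (m + 1) → Step d => ∑ s ∈ Finset.range (m + 1), ∑ t ∈ Finset.range (m + 1),
      (if ppos u s = ppos u t then (1 : ℝ) else 0)) ≤ K * ((m : ℝ) + 1) := by
  have hd1 : 1 ≤ d := by omega
  obtain ⟨C, hC, hCle⟩ := h.pr_le hd1
  have hpow : ∀ r : ℕ, 1 ≤ r → pr d r 0 ≤ C * (1 / (r : ℝ) ^ 2) := by
    intro r hr
    refine (hCle r hr 0).trans (mul_le_mul_of_nonneg_left ?_ hC.le)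
    have hr1 : (1 : ℝ) ≤ r := by exact_mod_cast hr
    have h7 : (r : ℝ) ^ (-(d : ℝ) / 2) ≤ (r : ℝ) ^ (-2 : ℝ) := by
      apply Real.rpow_le_rpow_of_exponent_le hr1
      have : (4 : ℝ) ≤ d := by exact_mod_cast hd
      linarith
    refine h7.trans_eq ?_
    rw [Real.rpow_neg (by linarith), one_div]
    norm_num
  refine ⟨1 + 4 * C, by positivity, fun m => ?_⟩
  rw [EF_sum]
  have hterm : ∀ s t : ℕ, s < m + 1 → t < m + 1 → s ≠ t →
      EF (fun u : Fin (m + 1) → Step d => if ppos u s = ppos u t then (1 : ℝ) else 0) ≤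
        C * (1 / (((s - t) + (t - s) : ℕ) : ℝ) ^ 2) := by
    intro s t hs ht hst
    wlog hlt : s < t generalizing s t with Hw
    · have h1 := Hw t s ht hs (Ne.symm hst) (by omega)
      have h2 : (s - t) + (t - s) = (t - s) + (s - t) := add_comm _ _
      rw [h2]
      refine le_of_eq_of_le ?_ h1
      congr 1
      funext u
      simp [eq_comm]
    · have h1 : (fun u : Fin (m + 1) → Step d => if ppos u s = ppos u t then (1 : ℝ) else 0) =
          fun u => (fun v : Fin (t - s) → Step d => if stepSum v = 0 then (1 : ℝ) else 0)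
            (u ∘ perE m s (t - s) (by omega)) := by
        funext u
        have h2 := ppos_add u s (t - s) (by omega) (t - s) le_rfl
        rw [posF_full] at h2
        have h3 : s + (t - s) = t := by omega
        rw [h3] at h2
        simp only
        congr 1
        apply propext
        rw [h2]
        constructor
        · intro h4
          have := sub_eq_zero.2 h4
          rw [sub_add_cancel_right] at this
          exact neg_eq_zero.1 this
        · intro h4
          rw [h4, zero_add]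
      rw [h1, EF_comp hd1 (perE m s (t - s) (by omega))
        (fun v : Fin (t - s) → Step d => if stepSum v = 0 then (1 : ℝ) else 0), EF_indicator]
      refine (hpow (t - s) (by omega)).trans_eq ?_
      congr 4
      omega
  have hrow : ∀ s ∈ Finset.range (m + 1), EF (fun u : Fin (m + 1) → Step d =>
      ∑ t ∈ Finset.range (m + 1), (if ppos u s = ppos u t then (1 : ℝ) else 0)) ≤ 1 + 4 * C := by
    intro s hs
    rw [EF_sum, ← Finset.add_sum_erase _ _ hs]
    have h1 : EF (fun u : Fin (m + 1) → Step d => if ppos u s = ppos u s then (1 : ℝ) else 0) = 1 := by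
      simp only [if_true]
      exact EF_const hd1 1
    rw [h1]
    have h2 : ∑ t ∈ (Finset.range (m + 1)).erase s,
        EF (fun u : Fin (m + 1) → Step d => if ppos u s = ppos u t then (1 : ℝ) else 0) ≤
        ∑ t ∈ (Finset.range (m + 1)).erase s, C * (1 / (((s - t) + (t - s) : ℕ) : ℝ) ^ 2) := by
      apply Finset.sum_le_sum
      intro t ht
      rw [Finset.mem_erase, Finset.mem_range] at ht
      exact hterm s t (Finset.mem_range.1 hs) ht.2 (Ne.symm ht.1)
    have h3 := sum_pairs_le (c := fun r => C * (1 / (r : ℝ) ^ 2)) (fun r => by positivity)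
      (Finset.mem_range.1 hs)
    have h4 : ∑ r ∈ Finset.Ico 1 (m + 1), C * (1 / (r : ℝ) ^ 2) ≤ C * 2 := by
      rw [← Finset.mul_sum]
      exact mul_le_mul_of_nonneg_left (sum_inv_sq_le _) hC.le
    linarith
  calc ∑ s ∈ Finset.range (m + 1), EF (fun u : Fin (m + 1) → Step d =>
      ∑ t ∈ Finset.range (m + 1), (if ppos u s = ppos u t then (1 : ℝ) else 0))
      ≤ ∑ s ∈ Finset.range (m + 1), (1 + 4 * C) := Finset.sum_le_sum hrow
    _ = (1 + 4 * C) * ((m : ℝ) + 1) := by
        rw [Finset.sum_const, Finset.card_range, nsmul_eq_mul]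
        push_cast
        ring

variable [Countable ι]

/-- the density is positive -/
theorem dens_pos (hd : 4 ≤ d) (h : KernAsymp d) (sh : H.Shift)
    (hχ : ∫⁻ ω, ((H.clus Set.univ ω 0).encard : ℝ≥0∞) ∂H.P < ⊤) : 0 < dens H := by
  classical
  have hd1 : 1 ≤ d := by omega
  obtain ⟨K, hK, hKle⟩ := EF_coincidence hd h
  have hlow : ∀ m : ℕ, 1 / K * ((m : ℝ) + 1) ≤ ∑ s ∈ Finset.range (m + 1), av H s := by
    intro m
    rw [← EF_vol_blk hd1 sh hχ]
    have h1 : ∀ u : Fin (m + 1) → Step d, 2 * (1 / K) * ((m : ℝ) + 1) - (1 / K) ^ 2 *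
        (∑ s ∈ Finset.range (m + 1), ∑ t ∈ Finset.range (m + 1),
          (if ppos u s = ppos u t then (1 : ℝ) else 0)) ≤ ∫ ω, vol H univ ω (blk u) ∂H.P := by
      intro u
      have h2 := card_image_ge (m + 1) (ppos u) (1 / K)
      push_cast at h2
      refine h2.trans ?_
      have h3 : blk u = (((Finset.range (m + 1)).image (ppos u) : Finset (Lat d)) : Set (Lat d)) := by
        rw [blk_eq]
        ext y
        simp
      rw [h3]
      have h4 : ((((Finset.range (m + 1)).image (ppos u)).card : ℕ) : ℝ) =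
          ∫ _ω : ι → ℕ, ((((Finset.range (m + 1)).image (ppos u)).card : ℕ) : ℝ) ∂H.P := by simp
      rw [h4]
      apply integral_mono_ae (integrable_const _)
        (integrable_vol sh hχ univ (Finset.finite_toSet _))
      filter_upwards [ae_allFin sh hχ] with ω hω
      unfold vol
      rw [← ncard_coe_finset]
      have h5 : (((Finset.range (m + 1)).image (ppos u) : Finset (Lat d)) : Set (Lat d)) ⊆
          H.clusW univ ω (((Finset.range (m + 1)).image (ppos u) : Finset (Lat d)) : Set (Lat d)) :=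
        fun y hy => ⟨y, hy, HSys.Conn.refl y⟩
      exact_mod_cast ncard_le_ncard h5 (hω.clusW _ (Finset.finite_toSet _))
    have h6 := EF_mono h1
    rw [EF_sub, EF_const hd1, EF_mul_left] at h6
    refine le_trans ?_ h6
    have h7 := mul_le_mul_of_nonneg_left (hKle m) (show 0 ≤ (1 / K) ^ 2 by positivity)
    have h8 : (1 / K) ^ 2 * (K * ((m : ℝ) + 1)) = 1 / K * ((m : ℝ) + 1) := by
      field_simp
    rw [h8] at h7
    linarith
  have h1 := (tendsto_av hd1 sh hχ).cesaro
  have h2 := h1.comp (tendsto_add_atTop_nat 1)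
  have h3 : 1 / K ≤ dens H := by
    refine ge_of_tendsto' h2 fun m => ?_
    simp only [Function.comp]
    have hpos : (0 : ℝ) < ((m + 1 : ℕ) : ℝ) := by positivity
    rw [le_inv_mul_iff₀ hpos]
    have := hlow m
    push_cast
    linarith
  exact lt_of_lt_of_le (by positivity) h3

end Pool.Agent.LoopPerc.Bridge
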