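import Pool.Agent.LoopPerc.BridgeLower

/-!
# Upper bound for the number of vertices connected to a long closed walk
(package G of MP_b22ef1_pr, helper7 for helper96)
-/

namespace Pool.Agent.LoopPerc.Bridge

open MeasureTheory ProbabilityTheory Filter Topology Set
open scoped ENNReal NNReal

variable {d : ℕ}

lemma EF_prod {α β : Type*} [Fintype α] [Fintype β] [DecidableEq α] [DecidableEq β]
    (f : (α → Step d) → ℝ) (g : (β → Step d) → ℝ) :
    EF (fun v : α ⊕ β → Step d => f (v ∘ Sum.inl) * g (v ∘ Sum.inr)) = EF f * EF g := by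
  unfold EF
  rw [div_mul_div_comm, ← pow_add, Fintype.card_sum]
  congr 1
  rw [← Equiv.sum_comp (Equiv.sumArrowEquivProdArrow α β (Step d)).symm, Fintype.sum_prod_type,
    Finset.sum_mul_sum]
  rfl

/-- a block of the closed walk `w` -/
def blkW {n : ℕ} (w : Fin (n + 1) → Step d) (b : ℕ) (hb : b ≤ n + 1) (j : ℕ) : Set (Lat d) :=
  (fun z => z + ppos w (j * b)) '' blk (w ∘ perE n (j * b) b hb)

lemma finite_blkW {n : ℕ} (w : Fin (n + 1) → Step d) (b : ℕ) (hb : b ≤ n + 1) (j : ℕ) :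
    (blkW w b hb j).Finite := (finite_blk _).image _

lemma ncard_blkW_le {n : ℕ} (w : Fin (n + 1) → Step d) (b : ℕ) (hb : b ≤ n + 1) (j : ℕ) :
    (blkW w b hb j).ncard ≤ b := by
  unfold blkW
  rw [ncard_image_of_injective _ (add_left_injective _)]
  exact ncard_blk_le _

/-- two block starting points are rarely close -/
lemma CS_close_le {n : ℕ} {C : ℝ} (hC : 0 < C)
    (hret : ∀ r, 1 ≤ r → r ≤ n → ∀ (z : Lat d) (e : Fin r ↪ Fin (n + 1)),
      ∑ w : Fin (n + 1) → Step d,
        (if stepSum w = 0 then (if stepSum (w ∘ e) = z then (1 : ℝ) else 0) else 0) ≤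
      C * (1 / (r : ℝ) ^ 2 + 1 / ((n + 1 : ℝ) - r) ^ 2) * cnt d (n + 1) 0)
    {b : ℕ} (hb0 : 0 < b) {i j : ℕ} (hij : i < j) (hj : j < (n + 1) / b) (M : ℕ) :
    CS (fun w : Fin (n + 1) → Step d =>
      if dist (ppos w (i * b)) (ppos w (j * b)) ≤ 2 * (M : ℝ) then (1 : ℝ) else 0) ≤
      (Metric.closedBall (0 : Lat d) (2 * (M : ℝ))).ncard *
        (C * (1 / ((j - i : ℕ) : ℝ) ^ 2 + 1 / ((((n + 1) / b : ℕ) : ℝ) - ((j - i : ℕ) : ℝ)) ^ 2) *
          cnt d (n + 1) 0) := by
  classical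
  set q := (n + 1) / b with hq
  have hqb : q * b ≤ n + 1 := Nat.div_mul_le_self _ _
  set r := (j - i) * b with hr
  have hr1 : 1 ≤ r := Nat.mul_pos (by omega) hb0
  have hrb : r + b ≤ n + 1 := by
    have h1 : (j - i) + 1 ≤ q := by omega
    calc r + b = ((j - i) + 1) * b := by rw [hr]; ring
      _ ≤ q * b := Nat.mul_le_mul_right b h1
      _ ≤ n + 1 := hqb
  have hrn : r ≤ n := by omega
  have hrn' : r ≤ n + 1 := by omega
  let B := finite_ball (0 : Lat d) (2 * (M : ℝ))
  have hdiff : ∀ w : Fin (n + 1) → Step d,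
      ppos w (j * b) = stepSum (w ∘ perE n (i * b) r hrn') + ppos w (i * b) := by
    intro w
    have h1 := ppos_add w (i * b) r hrn' r le_rfl
    rw [posF_full] at h1
    rw [← h1]
    congr 1
    rw [hr, ← add_mul]
    congr 1
    omega
  have hpt : ∀ w : Fin (n + 1) → Step d,
      (if dist (ppos w (i * b)) (ppos w (j * b)) ≤ 2 * (M : ℝ) then (1 : ℝ) else 0) ≤
        ∑ z ∈ B.toFinset, (if stepSum (w ∘ perE n (i * b) r hrn') = z then (1 : ℝ) else 0) := by
    intro w
    split_ifs with h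
    · have h2 : stepSum (w ∘ perE n (i * b) r hrn') ∈ B.toFinset := by
        rw [Set.Finite.mem_toFinset, Metric.mem_closedBall]
        rw [hdiff w, dist_comm] at h
        rwa [← dist_add_right _ 0 (ppos w (i * b)), zero_add]
      have h3 : (if stepSum (w ∘ perE n (i * b) r hrn') = stepSum (w ∘ perE n (i * b) r hrn')
          then (1 : ℝ) else 0) ≤ ∑ z ∈ B.toFinset,
          (if stepSum (w ∘ perE n (i * b) r hrn') = z then (1 : ℝ) else 0) :=
        Finset.single_le_sum (f := fun z =>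
          (if stepSum (w ∘ perE n (i * b) r hrn') = z then (1 : ℝ) else 0))
          (fun z _ => by positivity) h2
      rwa [if_pos rfl] at h3
    · exact Finset.sum_nonneg fun z _ => by positivity
  have hcast : ((r : ℕ) : ℝ) = ((j - i : ℕ) : ℝ) * b := by rw [hr]; push_cast; ring
  have hb1 : (1 : ℝ) ≤ b := by exact_mod_cast hb0
  have hji : (1 : ℝ) ≤ ((j - i : ℕ) : ℝ) := by
    have : 1 ≤ j - i := by omega
    exact_mod_cast this
  have hqji : (1 : ℝ) ≤ (q : ℝ) - ((j - i : ℕ) : ℝ) := by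
    have : (j - i) + 1 ≤ q := by omega
    have h2 : (((j - i : ℕ) : ℝ)) + 1 ≤ q := by exact_mod_cast this
    linarith
  have hqb' : (q : ℝ) * b ≤ n + 1 := by exact_mod_cast hqb
  have hbound : C * (1 / (r : ℝ) ^ 2 + 1 / ((n + 1 : ℝ) - r) ^ 2) * cnt d (n + 1) 0 ≤
      C * (1 / ((j - i : ℕ) : ℝ) ^ 2 + 1 / ((q : ℝ) - ((j - i : ℕ) : ℝ)) ^ 2) *
          cnt d (n + 1) 0 := by
    apply mul_le_mul_of_nonneg_right _ (Nat.cast_nonneg _)
    apply mul_le_mul_of_nonneg_left _ hC.le
    apply add_le_add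
    · apply one_div_le_one_div_of_le (by positivity)
      apply pow_le_pow_left₀ (by positivity)
      rw [hcast]
      nlinarith
    · apply one_div_le_one_div_of_le (by positivity)
      apply pow_le_pow_left₀ (by linarith)
      rw [hcast]
      nlinarith
  calc CS (fun w : Fin (n + 1) → Step d =>
      if dist (ppos w (i * b)) (ppos w (j * b)) ≤ 2 * (M : ℝ) then (1 : ℝ) else 0)
      ≤ CS (fun w : Fin (n + 1) → Step d => ∑ z ∈ B.toFinset,
          (if stepSum (w ∘ perE n (i * b) r hrn') = z then (1 : ℝ) else 0)) :=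
        CS_mono fun w _ => hpt w
    _ = ∑ z ∈ B.toFinset, CS (fun w : Fin (n + 1) → Step d =>
          (if stepSum (w ∘ perE n (i * b) r hrn') = z then (1 : ℝ) else 0)) := by rw [CS_sum]
    _ ≤ ∑ z ∈ B.toFinset, (C * (1 / ((j - i : ℕ) : ℝ) ^ 2 +
          1 / ((q : ℝ) - ((j - i : ℕ) : ℝ)) ^ 2) * cnt d (n + 1) 0) := by
        apply Finset.sum_le_sum
        intro z _
        exact (hret r hr1 hrn z _).trans hbound
    _ = _ := by
        rw [Finset.sum_const, nsmul_eq_mul, ← ncard_eq_toFinset_card _ B]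

variable {ι : Type} {H : HSys (Lat d) ι} [Countable ι]

variable (H) in
/-- mean of the local functional of a block -/
noncomputable def tloc (M : ℕ) {b : ℕ} (u : Fin b → Step d) : ℝ :=
  ∫ ω, vol H (Loc H 0 M) ω (blk u) ∂H.P

variable (H) in
/-- centred local functional of the block `j` -/
noncomputable def Yb (M : ℕ) (t : ℝ) {n : ℕ} (w : Fin (n + 1) → Step d) (b : ℕ) (hb : b ≤ n + 1)
    (j : ℕ) (ω : ι → ℕ) : ℝ := vol H (Loc H (ppos w (j * b)) M) ω (blkW w b hb j) - t

variable (d) in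
/-- bound for the local functionals -/
noncomputable def KB (M b : ℕ) : ℝ := (b : ℝ) + (Metric.closedBall (0 : Lat d) (M : ℝ)).ncard

lemma KB_nonneg (M b : ℕ) : 0 ≤ KB d M b := by unfold KB; positivity

omit [Countable ι] in
lemma abs_Yb_le (M : ℕ) {t : ℝ} {b : ℕ} (ht0 : 0 ≤ t) (ht : t ≤ KB d M b) {n : ℕ}
    (w : Fin (n + 1) → Step d) (hb : b ≤ n + 1) (j : ℕ) (ω : ι → ℕ) :
    |Yb H M t w b hb j ω| ≤ KB d M b := by
  unfold Yb
  have h1 := vol_Loc_le (H := H) (ppos w (j * b)) M ω (finite_blkW w b hb j)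
  have h2 : ((blkW w b hb j).ncard : ℝ) ≤ b := by exact_mod_cast ncard_blkW_le w b hb j
  have h3 := vol_nonneg (H := H) (Loc H (ppos w (j * b)) M) ω (blkW w b hb j)
  rw [abs_le]
  unfold KB at ht ⊢
  constructor <;> linarith

omit [Countable ι] in
lemma tloc_nonneg (M : ℕ) {b : ℕ} (u : Fin b → Step d) : 0 ≤ tloc H M u :=
  integral_nonneg fun _ => vol_nonneg _ _ _

lemma tloc_le (sh : H.Shift) (hχ : ∫⁻ ω, ((H.clus Set.univ ω 0).encard : ℝ≥0∞) ∂H.P < ⊤)
    (M : ℕ) {b : ℕ} (u : Fin b → Step d) : tloc H M u ≤ KB d M b := by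
  unfold tloc
  calc ∫ ω, vol H (Loc H 0 M) ω (blk u) ∂H.P ≤ ∫ _ω, KB d M b ∂H.P := by
        apply integral_mono (integrable_vol sh hχ _ (finite_blk u)) (integrable_const _)
        intro ω
        have h1 := vol_Loc_le (H := H) 0 M ω (finite_blk u)
        have h2 : ((blk u).ncard : ℝ) ≤ b := by exact_mod_cast ncard_blk_le u
        unfold KB
        simp only at h1 ⊢
        linarith
    _ = KB d M b := by simp

lemma integrable_Yb_mul (M : ℕ) {t : ℝ} {b : ℕ} (ht0 : 0 ≤ t) (ht : t ≤ KB d M b) {n : ℕ}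
    (w : Fin (n + 1) → Step d) (hb : b ≤ n + 1) (i j : ℕ) :
    Integrable (fun ω => Yb H M t w b hb i ω * Yb H M t w b hb j ω) H.P := by
  refine Integrable.mono' (integrable_const (KB d M b * KB d M b)) ?_
    (Eventually.of_forall fun ω => ?_)
  · unfold Yb
    exact (((measurable_vol' _ _).sub_const t).mul
      ((measurable_vol' _ _).sub_const t)).aestronglyMeasurable
  · rw [norm_mul]
    exact mul_le_mul (abs_Yb_le M ht0 ht w hb i ω) (abs_Yb_le M ht0 ht w hb j ω) (norm_nonneg _)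
      (KB_nonneg M b)

open Classical in
/-- the covariance of two blocks for a fixed walk -/
lemma integral_Yb_mul_le (sh : H.Shift)
    (hχ : ∫⁻ ω, ((H.clus Set.univ ω 0).encard : ℝ≥0∞) ∂H.P < ⊤)
    (M : ℕ) {t : ℝ} {b : ℕ} (ht0 : 0 ≤ t) (ht : t ≤ KB d M b) {n : ℕ}
    (w : Fin (n + 1) → Step d) (hb : b ≤ n + 1) (i j : ℕ) :
    ∫ ω, Yb H M t w b hb i ω * Yb H M t w b hb j ω ∂H.P ≤
      (tloc H M (w ∘ perE n (i * b) b hb) - t) * (tloc H M (w ∘ perE n (j * b) b hb) - t) +
      2 * KB d M b ^ 2 *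
        (if dist (ppos w (i * b)) (ppos w (j * b)) ≤ 2 * (M : ℝ) then (1 : ℝ) else 0) := by
  by_cases h : dist (ppos w (i * b)) (ppos w (j * b)) ≤ 2 * (M : ℝ)
  · rw [if_pos h]
    have hK : ∀ k : ℕ, |tloc H M (w ∘ perE n (k * b) b hb) - t| ≤ KB d M b := by
      intro k
      have h1 := tloc_nonneg (H := H) M (w ∘ perE n (k * b) b hb)
      have h2 := tloc_le sh hχ M (w ∘ perE n (k * b) b hb)
      rw [abs_le]
      constructor <;> linarith
    have h1 : ∫ ω, Yb H M t w b hb i ω * Yb H M t w b hb j ω ∂H.P ≤ KB d M b ^ 2 := by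
      calc ∫ ω, Yb H M t w b hb i ω * Yb H M t w b hb j ω ∂H.P
          ≤ ∫ _ω, KB d M b ^ 2 ∂H.P := by
            apply integral_mono (integrable_Yb_mul M ht0 ht w hb i j) (integrable_const _)
            intro ω
            simp only
            calc Yb H M t w b hb i ω * Yb H M t w b hb j ω
                ≤ |Yb H M t w b hb i ω * Yb H M t w b hb j ω| := le_abs_self _
              _ = |Yb H M t w b hb i ω| * |Yb H M t w b hb j ω| := abs_mul _ _
              _ ≤ KB d M b * KB d M b := mul_le_mul (abs_Yb_le M ht0 ht w hb i ω)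
                  (abs_Yb_le M ht0 ht w hb j ω) (abs_nonneg _) (KB_nonneg M b)
              _ = KB d M b ^ 2 := by ring
        _ = KB d M b ^ 2 := by simp
    have h2 : -(KB d M b ^ 2) ≤ (tloc H M (w ∘ perE n (i * b) b hb) - t) *
        (tloc H M (w ∘ perE n (j * b) b hb) - t) := by
      have h3 : |(tloc H M (w ∘ perE n (i * b) b hb) - t) *
          (tloc H M (w ∘ perE n (j * b) b hb) - t)| ≤ KB d M b * KB d M b := by
        rw [abs_mul]
        exact mul_le_mul (hK i) (hK j) (abs_nonneg _) ((abs_nonneg _).trans (hK i))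
      have h4 := (abs_le.1 h3).1
      linarith
    linarith
  · rw [if_neg h, mul_zero, add_zero]
    push Not at h
    have h1 := integral_Loc_mul (H := H) sh hχ (W := blk (w ∘ perE n (i * b) b hb))
      (W' := blk (w ∘ perE n (j * b) b hb)) (finite_blk _) (finite_blk _) h t
    exact h1.le

/-- `L²` estimate for the sum of the centred local functionals -/
theorem CS_sq_le (hd : 4 ≤ d) (h : KernAsymp d) (sh : H.Shift)
    (hχ : ∫⁻ ω, ((H.clus Set.univ ω 0).encard : ℝ≥0∞) ∂H.P < ⊤) (M b : ℕ) (hb0 : 0 < b)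
    {ε : ℝ} (hε : 0 < ε) : ∃ K₁ : ℝ, 0 ≤ K₁ ∧ ∃ n₀ : ℕ, ∀ n ≥ n₀, Odd n → ∃ hb : b ≤ n + 1,
      0 < cnt d (n + 1) 0 ∧
      CS (fun w : Fin (n + 1) → Step d => ∫ ω, (∑ j ∈ Finset.range ((n + 1) / b),
        Yb H M (EF (fun u : Fin b → Step d => tloc H M u)) w b hb j ω) ^ 2 ∂H.P) ≤
      (((n : ℝ) + 1) * K₁ + ((n : ℝ) + 1) ^ 2 * ε) * cnt d (n + 1) 0 := by
  classical
  have hd1 : 1 ≤ d := by omega
  set t : ℝ := EF (fun u : Fin b → Step d => tloc H M u) with ht
  have ht0 : 0 ≤ t := by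
    rw [ht]
    have := EF_mono (d := d) (α := Fin b) (F := fun _ => 0) (G := fun u => tloc H M u)
      (fun u => tloc_nonneg M u)
    rwa [EF_const hd1] at this
  have htK : t ≤ KB d M b := by
    rw [ht]
    have := EF_mono (d := d) (α := Fin b) (F := fun u => tloc H M u) (G := fun _ => KB d M b)
      (fun u => tloc_le sh hχ M u)
    rwa [EF_const hd1] at this
  obtain ⟨C, hC, n₁, hn₁⟩ := return_le hd h
  obtain ⟨n₂, hn₂⟩ := marginal_tendsto hd1 h (α := Fin b ⊕ Fin b)
    (fun v => (tloc H M (v ∘ Sum.inl) - t) * (tloc H M (v ∘ Sum.inr) - t)) hε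
  have hEF0 : EF (fun v : Fin b ⊕ Fin b → Step d =>
      (tloc H M (v ∘ Sum.inl) - t) * (tloc H M (v ∘ Sum.inr) - t)) = 0 := by
    rw [EF_prod (fun u : Fin b → Step d => tloc H M u - t) (fun u => tloc H M u - t), EF_sub,
      EF_const hd1, ← ht, sub_self, zero_mul]
  set KK := KB d M b with hKK
  have hKK0 : 0 ≤ KK := by rw [hKK]; unfold KB; positivity
  set BB : ℝ := ((Metric.closedBall (0 : Lat d) (2 * (M : ℝ))).ncard : ℝ) with hBB
  have hBB0 : 0 ≤ BB := by rw [hBB]; positivity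
  refine ⟨KK ^ 2 + 2 * KK ^ 2 * BB * C * 8, by positivity, n₁ + n₂ + b, fun n hn hodd => ?_⟩
  obtain ⟨hZ, hret⟩ := hn₁ n (by omega) hodd
  have hZ' : (0 : ℝ) < cnt d (n + 1) 0 := by exact_mod_cast hZ
  have hb : b ≤ n + 1 := by omega
  refine ⟨hb, hZ, ?_⟩
  have hmarg := hn₂ n (by omega) hodd
  rw [hEF0] at hmarg
  set q := (n + 1) / b with hq
  -- the pairs
  have hpair : ∀ i j : ℕ, i < q → j < q → i ≠ j →
      CS (fun w : Fin (n + 1) → Step d =>
        ∫ ω, Yb H M t w b hb i ω * Yb H M t w b hb j ω ∂H.P) ≤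
      (ε + 2 * KK ^ 2 * BB * C * (1 / (((i - j) + (j - i) : ℕ) : ℝ) ^ 2 +
        1 / ((q : ℝ) - (((i - j) + (j - i) : ℕ) : ℝ)) ^ 2)) * cnt d (n + 1) 0 := by
    intro i j hi hj hij
    wlog hlt : i < j generalizing i j with Hw
    · have h1 := Hw j i hj hi (Ne.symm hij) (by omega)
      have h2 : (i - j) + (j - i) = (j - i) + (i - j) := add_comm _ _
      rw [h2]
      refine le_of_eq_of_le ?_ h1
      apply CS_congr
      intro w _
      congr 1
      funext ω
      ring
    · have h1 : (i - j) + (j - i) = j - i := by omega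
      rw [h1]
      have h2 := CS_mono (F := fun w : Fin (n + 1) → Step d =>
        ∫ ω, Yb H M t w b hb i ω * Yb H M t w b hb j ω ∂H.P) fun w _ =>
          integral_Yb_mul_le sh hχ M ht0 htK w hb i j
      refine h2.trans ?_
      rw [CS_add, CS_mul_left]
      have h3 := CS_close_le hC hret hb0 hlt hj M
      rw [← hq, ← hBB] at h3
      -- the embedding of the two blocks
      have hqb : q * b ≤ n + 1 := Nat.div_mul_le_self _ _
      have hjb : j * b + b ≤ n + 1 := by
        calc j * b + b = (j + 1) * b := by ring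
          _ ≤ q * b := Nat.mul_le_mul_right b hj
          _ ≤ n + 1 := hqb
      have hib : i * b + b ≤ j * b := by
        calc i * b + b = (i + 1) * b := by ring
          _ ≤ j * b := Nat.mul_le_mul_right b hlt
      let e : Fin b ⊕ Fin b ↪ Fin (n + 1) :=
        ⟨Sum.elim (perE n (i * b) b hb) (perE n (j * b) b hb), by
          have hv : ∀ (s : ℕ) (x : Fin b), s + b ≤ n + 1 →
              ((perE n s b hb x : Fin (n + 1)) : ℕ) = s + x := by
            intro s x hs
            show (s + x.val) % (n + 1) = s + x.val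
            apply Nat.mod_eq_of_lt
            omega
          rintro (x | x) (y | y) hxy
          · exact congrArg Sum.inl ((perE n (i * b) b hb).injective hxy)
          · exfalso
            have h5 := congrArg Fin.val hxy
            simp only [Sum.elim_inl, Sum.elim_inr] at h5
            rw [hv (i * b) x (by omega), hv (j * b) y hjb] at h5
            omega
          · exfalso
            have h5 := congrArg Fin.val hxy
            simp only [Sum.elim_inl, Sum.elim_inr] at h5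
            rw [hv (j * b) x hjb, hv (i * b) y (by omega)] at h5
            omega
          · exact congrArg Sum.inr ((perE n (j * b) b hb).injective hxy)⟩
      have h4 := hmarg e
      rw [zero_mul, sub_zero] at h4
      have h5 : CS (fun w : Fin (n + 1) → Step d =>
          (tloc H M (w ∘ perE n (i * b) b hb) - t) * (tloc H M (w ∘ perE n (j * b) b hb) - t)) ≤
          ε * cnt d (n + 1) 0 := (le_abs_self _).trans h4
      have h6 : 2 * KK ^ 2 * CS (fun w : Fin (n + 1) → Step d =>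
          if dist (ppos w (i * b)) (ppos w (j * b)) ≤ 2 * (M : ℝ) then (1 : ℝ) else 0) ≤
          2 * KK ^ 2 * (BB * (C * (1 / ((j - i : ℕ) : ℝ) ^ 2 +
            1 / ((q : ℝ) - ((j - i : ℕ) : ℝ)) ^ 2) * cnt d (n + 1) 0)) :=
        mul_le_mul_of_nonneg_left h3 (by positivity)
      calc _ ≤ ε * cnt d (n + 1) 0 + 2 * KK ^ 2 * (BB * (C * (1 / ((j - i : ℕ) : ℝ) ^ 2 +
            1 / ((q : ℝ) - ((j - i : ℕ) : ℝ)) ^ 2) * cnt d (n + 1) 0)) := add_le_add h5 h6
        _ = _ := by ring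
  have hdiag : ∀ i : ℕ, CS (fun w : Fin (n + 1) → Step d =>
        ∫ ω, Yb H M t w b hb i ω * Yb H M t w b hb i ω ∂H.P) ≤ KK ^ 2 * cnt d (n + 1) 0 := by
    intro i
    rw [← CS_const]
    apply CS_mono
    intro w _
    calc ∫ ω, Yb H M t w b hb i ω * Yb H M t w b hb i ω ∂H.P ≤ ∫ _ω, KK ^ 2 ∂H.P := by
          apply integral_mono (integrable_Yb_mul M ht0 htK w hb i i) (integrable_const _)
          intro ω
          simp only
          rw [← pow_two]
          exact sq_le_sq' (abs_le.1 (abs_Yb_le M ht0 htK w hb i ω)).1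
            (abs_le.1 (abs_Yb_le M ht0 htK w hb i ω)).2
      _ = KK ^ 2 := by simp
  have hshell : ∑ r ∈ Finset.Ico 1 q, (1 / (r : ℝ) ^ 2 + 1 / ((q : ℝ) - r) ^ 2) ≤ 4 := by
    rw [Finset.sum_add_distrib]
    have h1 := sum_inv_sq_le q
    have h2 : ∑ r ∈ Finset.Ico 1 q, 1 / ((q : ℝ) - r) ^ 2 = ∑ r ∈ Finset.Ico 1 q, 1 / (r : ℝ) ^ 2 := by
      apply Finset.sum_bij' (fun r _ => q - r) (fun r _ => q - r)
      · intro r hr; rw [Finset.mem_Ico] at hr ⊢; omega
      · intro r hr; rw [Finset.mem_Ico] at hr ⊢; omega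
      · intro r hr; rw [Finset.mem_Ico] at hr; omega
      · intro r hr; rw [Finset.mem_Ico] at hr; omega
      · intro r hr
        rw [Finset.mem_Ico] at hr
        rw [Nat.cast_sub hr.2.le]
    linarith
  -- expand the square
  have hexp : CS (fun w : Fin (n + 1) → Step d => ∫ ω, (∑ j ∈ Finset.range q,
      Yb H M t w b hb j ω) ^ 2 ∂H.P) = ∑ i ∈ Finset.range q, ∑ j ∈ Finset.range q,
      CS (fun w : Fin (n + 1) → Step d =>
        ∫ ω, Yb H M t w b hb i ω * Yb H M t w b hb j ω ∂H.P) := by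
    simp only [← CS_sum]
    apply CS_congr
    intro w _
    have h1 : ∀ ω, (∑ j ∈ Finset.range q, Yb H M t w b hb j ω) ^ 2 =
        ∑ i ∈ Finset.range q, ∑ j ∈ Finset.range q,
          Yb H M t w b hb i ω * Yb H M t w b hb j ω := by
      intro ω
      rw [pow_two, Finset.sum_mul_sum]
    simp only [h1]
    rw [integral_finsetSum _ fun i _ => integrable_finsetSum _ fun j _ =>
      integrable_Yb_mul M ht0 htK w hb i j]
    refine Finset.sum_congr rfl fun i _ => ?_
    rw [integral_finsetSum _ fun j _ => integrable_Yb_mul M ht0 htK w hb i j]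
  rw [hexp]
  have hq1 : (q : ℝ) ≤ (n : ℝ) + 1 := by
    have : q ≤ n + 1 := Nat.div_le_self _ _
    exact_mod_cast this
  have hrow : ∀ i ∈ Finset.range q, ∑ j ∈ Finset.range q,
      CS (fun w : Fin (n + 1) → Step d =>
        ∫ ω, Yb H M t w b hb i ω * Yb H M t w b hb j ω ∂H.P) ≤
      (KK ^ 2 + 2 * KK ^ 2 * BB * C * 8 + ((n : ℝ) + 1) * ε) * cnt d (n + 1) 0 := by
    intro i hi
    rw [← Finset.add_sum_erase _ _ hi]
    have hi' := Finset.mem_range.1 hi
    have h1 : ∑ j ∈ (Finset.range q).erase i, CS (fun w : Fin (n + 1) → Step d =>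
        ∫ ω, Yb H M t w b hb i ω * Yb H M t w b hb j ω ∂H.P) ≤
        ∑ j ∈ (Finset.range q).erase i, (ε + 2 * KK ^ 2 * BB * C *
          (1 / (((i - j) + (j - i) : ℕ) : ℝ) ^ 2 +
          1 / ((q : ℝ) - (((i - j) + (j - i) : ℕ) : ℝ)) ^ 2)) * cnt d (n + 1) 0 := by
      apply Finset.sum_le_sum
      intro j hj
      rw [Finset.mem_erase, Finset.mem_range] at hj
      exact hpair i j hi' hj.2 (Ne.symm hj.1)
    have h2 := sum_pairs_le (c := fun r : ℕ => 1 / (r : ℝ) ^ 2 + 1 / ((q : ℝ) - r) ^ 2)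
      (fun r => by positivity) hi'
    have h3 : ∑ j ∈ (Finset.range q).erase i, (ε + 2 * KK ^ 2 * BB * C *
          (1 / (((i - j) + (j - i) : ℕ) : ℝ) ^ 2 +
          1 / ((q : ℝ) - (((i - j) + (j - i) : ℕ) : ℝ)) ^ 2)) * cnt d (n + 1) 0 =
        ((((Finset.range q).erase i).card : ℝ) * ε + 2 * KK ^ 2 * BB * C *
          ∑ j ∈ (Finset.range q).erase i, (1 / (((i - j) + (j - i) : ℕ) : ℝ) ^ 2 +
          1 / ((q : ℝ) - (((i - j) + (j - i) : ℕ) : ℝ)) ^ 2)) * cnt d (n + 1) 0 := by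
      rw [← Finset.sum_mul, Finset.sum_add_distrib, Finset.sum_const, nsmul_eq_mul,
        ← Finset.mul_sum]
    have h4 : (((Finset.range q).erase i).card : ℝ) ≤ (n : ℝ) + 1 := by
      have h5 : ((Finset.range q).erase i).card ≤ q := by
        refine (Finset.card_le_card (Finset.erase_subset _ _)).trans ?_
        rw [Finset.card_range]
      have h6 : (((Finset.range q).erase i).card : ℝ) ≤ q := by exact_mod_cast h5
      linarith
    rw [h3] at h1
    have h7 : (((Finset.range q).erase i).card : ℝ) * ε + 2 * KK ^ 2 * BB * C *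
          ∑ j ∈ (Finset.range q).erase i, (1 / (((i - j) + (j - i) : ℕ) : ℝ) ^ 2 +
          1 / ((q : ℝ) - (((i - j) + (j - i) : ℕ) : ℝ)) ^ 2) ≤
        ((n : ℝ) + 1) * ε + 2 * KK ^ 2 * BB * C * 8 := by
      apply add_le_add
      · exact mul_le_mul_of_nonneg_right h4 hε.le
      · apply mul_le_mul_of_nonneg_left _ (by positivity)
        refine h2.trans ?_
        linarith
    have h8 := mul_le_mul_of_nonneg_right h7 hZ'.le
    have h9 := hdiag i
    have h10 : (KK ^ 2 + 2 * KK ^ 2 * BB * C * 8 + ((n : ℝ) + 1) * ε) * cnt d (n + 1) 0 =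
        KK ^ 2 * cnt d (n + 1) 0 +
          (((n : ℝ) + 1) * ε + 2 * KK ^ 2 * BB * C * 8) * cnt d (n + 1) 0 := by ring
    rw [h10]
    exact add_le_add h9 (h1.trans h8)
  refine (Finset.sum_le_sum hrow).trans ?_
  rw [Finset.sum_const, Finset.card_range, nsmul_eq_mul]
  have h11 : 0 ≤ (KK ^ 2 + 2 * KK ^ 2 * BB * C * 8 + ((n : ℝ) + 1) * ε) * cnt d (n + 1) 0 := by
    positivity
  refine (mul_le_mul_of_nonneg_right hq1 h11).trans_eq ?_
  ring

end Pool.Agent.LoopPerc.Bridge
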