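import Pool.Agent.LoopPerc.Walk

/-!
# Walk combinatorics for the law of large numbers along a random walk bridge
(package G of MP_b22ef1_pr, helper7 for helper96)
-/

namespace Pool.Agent.LoopPerc.Bridge

open Filter Topology
open scoped ENNReal NNReal

variable {d : ℕ}

/-- sum of the steps of a finite family -/
def stepSum {α : Type*} [Fintype α] (w : α → Step d) : Lat d := ∑ i, stepVec (w i)

/-- number of walks with `m` steps from `0` to `z` -/
def cnt (d m : ℕ) (z : Lat d) : ℕ :=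
  (Finset.univ.filter fun w : Fin m → Step d => stepSum w = z).card

lemma stepSum_comp_equiv {α β : Type*} [Fintype α] [Fintype β] (e : α ≃ β) (w : β → Step d) :
    stepSum (w ∘ e) = stepSum w := by
  unfold stepSum
  exact Equiv.sum_comp e (fun i => stepVec (w i))

/-- The basic counting lemma: marginals of the steps at the positions `e`. -/
theorem sum_marginal {α β : Type*} [Fintype α] [Fintype β] [DecidableEq α] [DecidableEq β]
    (e : α ↪ β) (F : (α → Step d) → ℝ) (G : Lat d → ℝ) :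
    ∑ w : β → Step d, F (w ∘ e) * G (stepSum w) =
      ∑ u : α → Step d, F u *
        ∑ v : Fin (Fintype.card β - Fintype.card α) → Step d, G (stepSum u + stepSum v) := by
  classical
  set γ := {b : β // b ∉ Set.range e} with hγ
  have hbij : Function.Bijective (Sum.elim e Subtype.val : α ⊕ γ → β) := by
    constructor
    · rintro (a | c) (a' | c') h
      · simp only [Sum.elim_inl] at h
        rw [e.injective h]
      · simp only [Sum.elim_inl, Sum.elim_inr] at h
        exact absurd ⟨a, h⟩ c'.2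
      · simp only [Sum.elim_inl, Sum.elim_inr] at h
        exact absurd ⟨a', h.symm⟩ c.2
      · simp only [Sum.elim_inr] at h
        rw [Subtype.ext h]
    · intro b
      by_cases hb : b ∈ Set.range e
      · obtain ⟨a, rfl⟩ := hb
        exact ⟨Sum.inl a, rfl⟩
      · exact ⟨Sum.inr ⟨b, hb⟩, rfl⟩
  let f : α ⊕ γ ≃ β := Equiv.ofBijective _ hbij
  have hcard : Fintype.card γ = Fintype.card β - Fintype.card α := by
    have h1 : Fintype.card (α ⊕ γ) = Fintype.card β := Fintype.card_congr f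
    rw [Fintype.card_sum] at h1
    omega
  let g : Fin (Fintype.card β - Fintype.card α) ≃ γ := (Fintype.equivFinOfCardEq hcard).symm
  -- the bijection of the functions
  let E : (α → Step d) × (γ → Step d) ≃ (β → Step d) :=
    (Equiv.sumArrowEquivProdArrow α γ (Step d)).symm.trans (Equiv.arrowCongr f (Equiv.refl _))
  have hE1 : ∀ p : (α → Step d) × (γ → Step d), (E p) ∘ e = p.1 := by
    intro p
    funext a
    have h1 : f.symm (e a) = Sum.inl a := by
      rw [Equiv.symm_apply_eq]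
      rfl
    simp [E, Equiv.arrowCongr, h1, Equiv.sumArrowEquivProdArrow]
  have hE2 : ∀ p : (α → Step d) × (γ → Step d), stepSum (E p) = stepSum p.1 + stepSum p.2 := by
    intro p
    rw [← stepSum_comp_equiv f]
    have h1 : (E p) ∘ f = Sum.elim p.1 p.2 := by
      funext x
      simp [E, Equiv.arrowCongr, Equiv.sumArrowEquivProdArrow]
    rw [h1]
    unfold stepSum
    rw [Fintype.sum_sum_type]
    simp
  rw [← Equiv.sum_comp E, Fintype.sum_prod_type]
  refine Finset.sum_congr rfl fun u _ => ?_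
  rw [Finset.mul_sum]
  rw [← Equiv.sum_comp (Equiv.arrowCongr g (Equiv.refl (Step d)))]
  refine Finset.sum_congr rfl fun v _ => ?_
  rw [hE1, hE2]
  congr 3
  rw [← stepSum_comp_equiv g]
  congr 1
  funext x
  simp [Equiv.arrowCongr]

theorem sum_indicator_eq_cnt (m : ℕ) (z : Lat d) :
    ∑ v : Fin m → Step d, (if z + stepSum v = 0 then (1 : ℝ) else 0) = cnt d m (-z) := by
  rw [Finset.sum_ite, Finset.sum_const_zero, add_zero, Finset.sum_const, nsmul_eq_mul, mul_one]
  unfold cnt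
  congr 3
  ext v
  rw [add_comm, add_eq_zero_iff_eq_neg]

/-- marginal of a closed walk -/
theorem sum_closed_marginal {α β : Type*} [Fintype α] [Fintype β] [DecidableEq α] [DecidableEq β]
    (e : α ↪ β) (F : (α → Step d) → ℝ) :
    ∑ w : β → Step d, (if stepSum w = 0 then F (w ∘ e) else 0) =
      ∑ u : α → Step d, F u * cnt d (Fintype.card β - Fintype.card α) (-stepSum u) := by
  have h := sum_marginal e F (fun z => if z = 0 then 1 else 0)
  simp only [sum_indicator_eq_cnt, mul_ite, mul_one, mul_zero] at h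
  exact h

lemma card_step (d : ℕ) : Fintype.card (Step d) = 2 * d := by
  simp [Step, mul_comm]

/-- marginal of a free walk -/
theorem sum_free_marginal {α β : Type*} [Fintype α] [Fintype β] [DecidableEq α] [DecidableEq β]
    (e : α ↪ β) (F : (α → Step d) → ℝ) :
    ∑ w : β → Step d, F (w ∘ e) =
      (2 * (d : ℝ)) ^ (Fintype.card β - Fintype.card α) * ∑ u : α → Step d, F u := by
  have h := sum_marginal e F (fun _ => 1)
  simp only [mul_one, Finset.sum_const, Finset.card_univ, Fintype.card_fun, card_step,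
    Fintype.card_fin, nsmul_eq_mul] at h
  rw [h, ← Finset.sum_mul, mul_comm]
  push_cast
  rfl

/-- expectation for the free walk with steps indexed by `α` -/
noncomputable def EF {α : Type*} [Fintype α] [DecidableEq α] (F : (α → Step d) → ℝ) : ℝ :=
  (∑ u : α → Step d, F u) / (2 * (d : ℝ)) ^ Fintype.card α

theorem EF_comp (hd : 1 ≤ d) {α β : Type*} [Fintype α] [Fintype β] [DecidableEq α] [DecidableEq β]
    (e : α ↪ β) (F : (α → Step d) → ℝ) : EF (fun w : β → Step d => F (w ∘ e)) = EF F := by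
  have hd' : (0 : ℝ) < 2 * d := by
    have : (1 : ℝ) ≤ d := by exact_mod_cast hd
    linarith
  have hc : Fintype.card α ≤ Fintype.card β := Fintype.card_le_of_embedding e
  unfold EF
  rw [sum_free_marginal, div_eq_div_iff (by positivity) (by positivity)]
  have h : (2 * (d : ℝ)) ^ Fintype.card β =
      (2 * (d : ℝ)) ^ (Fintype.card β - Fintype.card α) * (2 * (d : ℝ)) ^ Fintype.card α := by
    rw [← pow_add, Nat.sub_add_cancel hc]
  rw [h]
  ring

lemma EF_mono {α : Type*} [Fintype α] [DecidableEq α] {F G : (α → Step d) → ℝ}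
    (h : ∀ u, F u ≤ G u) : EF F ≤ EF G := by
  unfold EF
  gcongr with u _
  exact h u

lemma EF_const (hd : 1 ≤ d) {α : Type*} [Fintype α] [DecidableEq α] (c : ℝ) :
    EF (fun _ : α → Step d => c) = c := by
  have hd' : (0 : ℝ) < 2 * d := by
    have : (1 : ℝ) ≤ d := by exact_mod_cast hd
    linarith
  unfold EF
  rw [Finset.sum_const, Finset.card_univ, Fintype.card_fun, card_step, nsmul_eq_mul]
  push_cast
  field_simp

lemma EF_sum {α κ : Type*} [Fintype α] [DecidableEq α] (s : Finset κ)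
    (F : κ → (α → Step d) → ℝ) : EF (fun u => ∑ k ∈ s, F k u) = ∑ k ∈ s, EF (F k) := by
  unfold EF
  rw [Finset.sum_comm, Finset.sum_div]

lemma EF_mul_left {α : Type*} [Fintype α] [DecidableEq α] (c : ℝ) (F : (α → Step d) → ℝ) :
    EF (fun u => c * F u) = c * EF F := by
  unfold EF
  rw [← Finset.mul_sum, mul_div_assoc]

lemma EF_add {α : Type*} [Fintype α] [DecidableEq α] (F G : (α → Step d) → ℝ) :
    EF (fun u => F u + G u) = EF F + EF G := by
  unfold EF
  rw [Finset.sum_add_distrib, add_div]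

lemma EF_sub {α : Type*} [Fintype α] [DecidableEq α] (F G : (α → Step d) → ℝ) :
    EF (fun u => F u - G u) = EF F - EF G := by
  unfold EF
  rw [Finset.sum_sub_distrib, sub_div]

lemma cnt_zero (z : Lat d) : cnt d 0 z = if z = 0 then 1 else 0 := by
  unfold cnt stepSum
  by_cases h : z = 0
  · subst h
    simp
  · rw [if_neg h]
    rw [Finset.card_eq_zero, Finset.filter_eq_empty_iff]
    intro w _ hw
    apply h
    rw [← hw]
    simp

lemma cnt_succ (m : ℕ) (z : Lat d) : cnt d (m + 1) z = ∑ e : Step d, cnt d m (z - stepVec e) := by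
  unfold cnt
  rw [← Finset.card_sigma]
  refine Finset.card_bij'
    (i := fun w _ => (⟨w 0, fun i => w i.succ⟩ : Σ _ : Step d, (Fin m → Step d)))
    (j := fun p _ => Fin.cons p.1 p.2) ?_ ?_ ?_ ?_
  · intro w hw
    simp only [Finset.mem_filter, Finset.mem_univ, true_and, Finset.mem_sigma] at hw ⊢
    rw [← hw]
    unfold stepSum
    rw [Fin.sum_univ_succ]
    abel
  · intro p hp
    simp only [Finset.mem_filter, Finset.mem_univ, true_and, Finset.mem_sigma] at hp ⊢
    unfold stepSum at hp ⊢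
    rw [Fin.sum_univ_succ]
    simp only [Fin.cons_zero, Fin.cons_succ]
    rw [hp]
    abel
  · intro w _
    funext i
    refine Fin.cases ?_ (fun i => ?_) i <;> simp
  · intro p _
    simp

/-- the transition probabilities of simple random walk -/
noncomputable def pr (d m : ℕ) (z : Lat d) : ℝ := (cnt d m z : ℝ) / (2 * (d : ℝ)) ^ m

lemma kern_eq (hd : 1 ≤ d) (m : ℕ) (x y : Lat d) :
    kern Set.univ m x y = ENNReal.ofReal (pr d m (y - x)) := by
  have hd' : (0 : ℝ) < 2 * d := by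
    have : (1 : ℝ) ≤ d := by exact_mod_cast hd
    linarith
  induction m generalizing x with
  | zero =>
    simp only [kern, pr, cnt_zero, Set.mem_univ, and_true, pow_zero, div_one]
    by_cases h : x = y
    · simp [h]
    · have h' : y - x ≠ 0 := fun h' => h (sub_eq_zero.1 h').symm
      simp [h, h']
  | succ m ih =>
    simp only [kern, Set.mem_univ, if_true, ih]
    have h2 : (2 * (d : ℝ≥0∞))⁻¹ = ENNReal.ofReal ((2 * (d : ℝ))⁻¹) := by
      rw [ENNReal.ofReal_inv_of_pos hd', ENNReal.ofReal_mul (by norm_num)]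
      simp
    rw [h2]
    have h3 : ∀ e : Step d, ENNReal.ofReal ((2 * (d : ℝ))⁻¹) *
        ENNReal.ofReal (pr d m (y - (x + stepVec e))) =
        ENNReal.ofReal ((2 * (d : ℝ))⁻¹ * pr d m (y - (x + stepVec e))) := by
      intro e
      rw [ENNReal.ofReal_mul (by positivity)]
    simp only [h3]
    rw [← ENNReal.ofReal_sum_of_nonneg]
    · congr 1
      rw [← Finset.mul_sum]
      unfold pr
      rw [← Finset.sum_div, cnt_succ]
      push_cast
      have h4 : ∀ e : Step d, y - (x + stepVec e) = y - x - stepVec e := fun e => by abel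
      simp only [h4]
      rw [pow_succ]
      field_simp
    · intro e _
      unfold pr
      positivity

lemma kern_toReal (hd : 1 ≤ d) (m : ℕ) (x y : Lat d) :
    (kern Set.univ m x y).toReal = pr d m (y - x) := by
  rw [kern_eq hd, ENNReal.toReal_ofReal]
  unfold pr
  positivity

lemma cnt_eq_pr (hd : 1 ≤ d) (m : ℕ) (z : Lat d) :
    (cnt d m z : ℝ) = (2 * (d : ℝ)) ^ m * pr d m z := by
  have hd' : (0 : ℝ) < 2 * d := by
    have : (1 : ℝ) ≤ d := by exact_mod_cast hd
    linarith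
  unfold pr
  field_simp

/-- The local central limit estimates (package C) that are used. -/
structure KernAsymp (d : ℕ) : Prop where
  le : ∃ C : ℝ, 0 < C ∧ ∀ m : ℕ, 1 ≤ m → ∀ x y : Lat d,
    (kern Set.univ m x y).toReal ≤ C * (m : ℝ) ^ (-(d : ℝ) / 2)
  even : ∃ c : ℝ, 0 < c ∧ Tendsto (fun k : ℕ =>
    (k : ℝ) ^ ((d : ℝ) / 2) * (kern Set.univ (2 * k) (0 : Lat d) 0).toReal) atTop (𝓝 c)
  ratio : ∀ (L : ℕ) (z : Lat d), Even (∑ i, z i + L) →
    Tendsto (fun k : ℕ => (kern Set.univ (2 * k - L) (0 : Lat d) z).toReal /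
      (kern Set.univ (2 * k) (0 : Lat d) 0).toReal) atTop (𝓝 1)

lemma KernAsymp.pr_le (hd : 1 ≤ d) (h : KernAsymp d) : ∃ C : ℝ, 0 < C ∧ ∀ m : ℕ, 1 ≤ m →
    ∀ z : Lat d, pr d m z ≤ C * (m : ℝ) ^ (-(d : ℝ) / 2) := by
  obtain ⟨C, hC, h1⟩ := h.le
  refine ⟨C, hC, fun m hm z => ?_⟩
  have := h1 m hm 0 z
  rwa [kern_toReal hd, sub_zero] at this

/-- lower bound for the number of closed walks -/
lemma KernAsymp.le_pr (hd : 1 ≤ d) (h : KernAsymp d) : ∃ c : ℝ, 0 < c ∧ ∃ k₀ : ℕ, 1 ≤ k₀ ∧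
    ∀ k ≥ k₀, c * (k : ℝ) ^ (-(d : ℝ) / 2) ≤ pr d (2 * k) 0 := by
  obtain ⟨c, hc, h1⟩ := h.even
  have h2 := h1.eventually (lt_mem_nhds (show c / 2 < c by linarith))
  obtain ⟨k₀, hk₀⟩ := eventually_atTop.1 h2
  refine ⟨c / 2, by positivity, k₀ + 1, by omega, fun k hk => ?_⟩
  have h3 := (hk₀ k (by omega)).le
  rw [kern_toReal hd, sub_zero] at h3
  have hk : (0 : ℝ) < k := by
    have : 0 < k := by omega
    exact_mod_cast this
  have h4 : (0 : ℝ) < (k : ℝ) ^ (-(d : ℝ) / 2) := Real.rpow_pos_of_pos hk _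
  calc c / 2 * (k : ℝ) ^ (-(d : ℝ) / 2)
      ≤ ((k : ℝ) ^ ((d : ℝ) / 2) * pr d (2 * k) 0) * (k : ℝ) ^ (-(d : ℝ) / 2) :=
        mul_le_mul_of_nonneg_right h3 h4.le
    _ = pr d (2 * k) 0 * ((k : ℝ) ^ ((d : ℝ) / 2) * (k : ℝ) ^ (-(d : ℝ) / 2)) := by ring
    _ = pr d (2 * k) 0 := by
        rw [← Real.rpow_add hk]
        have : (d : ℝ) / 2 + -(d : ℝ) / 2 = 0 := by ring
        rw [this, Real.rpow_zero, mul_one]

lemma parity_stepSum {α : Type*} [Fintype α] (u : α → Step d) :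
    Even (∑ i, (-stepSum u) i + (Fintype.card α : ℤ)) := by
  have h1 : ∀ e : Step d, ∑ i, stepVec e i = if e.2 then 1 else -1 := by
    intro e
    unfold stepVec
    rw [Finset.sum_pi_single']
    simp
  have h2 : ∑ i, (-stepSum u) i = ∑ a : α, -(if (u a).2 then (1 : ℤ) else -1) := by
    unfold stepSum
    simp only [Pi.neg_apply, Finset.sum_apply, Finset.sum_neg_distrib]
    rw [Finset.sum_comm]
    simp only [h1]
  rw [h2]
  have h3 : (Fintype.card α : ℤ) = ∑ a : α, 1 := by simp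
  rw [h3, ← Finset.sum_add_distrib]
  apply Finset.even_sum
  intro a _
  by_cases h : (u a).2
  · simp [h]
  · simp [h]

/-- the law of finitely many steps of a long uniform closed walk is close to that of free steps -/
theorem marginal_tendsto (hd : 1 ≤ d) (h : KernAsymp d) {α : Type*} [Fintype α] [DecidableEq α]
    (F : (α → Step d) → ℝ) {ε : ℝ} (hε : 0 < ε) : ∃ n₀ : ℕ, ∀ n ≥ n₀, Odd n →
      ∀ e : α ↪ Fin (n + 1),
        |∑ w : Fin (n + 1) → Step d, (if stepSum w = 0 then F (w ∘ e) else 0) -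
          EF F * cnt d (n + 1) 0| ≤ ε * cnt d (n + 1) 0 := by
  have hd' : (0 : ℝ) < 2 * d := by
    have : (1 : ℝ) ≤ d := by exact_mod_cast hd
    linarith
  set a := Fintype.card α with ha
  let R : ℕ → ℝ := fun k => ∑ u : α → Step d,
    F u / (2 * (d : ℝ)) ^ a * (pr d (2 * k - a) (-stepSum u) / pr d (2 * k) 0)
  have hR : Tendsto R atTop (𝓝 (EF F)) := by
    have h1 : EF F = ∑ u : α → Step d, F u / (2 * (d : ℝ)) ^ a * 1 := by
      unfold EF
      rw [Finset.sum_div]
      simp [ha]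
    rw [h1]
    apply tendsto_finsetSum
    intro u _
    apply Tendsto.const_mul
    have h2 := h.ratio a (-stepSum u) (parity_stepSum u)
    simpa only [kern_toReal hd, sub_zero] using h2
  have h2 : ∀ᶠ k in atTop, |R k - EF F| < ε := by
    have := Metric.tendsto_atTop.1 hR ε hε
    obtain ⟨N, hN⟩ := this
    filter_upwards [eventually_ge_atTop N] with k hk
    have := hN k hk
    rwa [Real.dist_eq] at this
  obtain ⟨k₁, hk₁⟩ := eventually_atTop.1 h2
  obtain ⟨c, hc, k₂, hk₂1, hk₂⟩ := h.le_pr hd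
  refine ⟨2 * (k₁ + k₂ + a), fun n hn hodd e => ?_⟩
  obtain ⟨k, hk⟩ : ∃ k, n + 1 = 2 * k := by
    obtain ⟨m, hm⟩ := hodd
    exact ⟨m + 1, by omega⟩
  have hkk₁ : k₁ ≤ k := by omega
  have hkk₂ : k₂ ≤ k := by omega
  have hka : a ≤ 2 * k := by omega
  have hpos : 0 < pr d (2 * k) 0 := by
    refine lt_of_lt_of_le ?_ (hk₂ k hkk₂)
    have : (0 : ℝ) < k := by
      have : 0 < k := by omega
      exact_mod_cast this
    positivity
  have hZ : (cnt d (n + 1) 0 : ℝ) = (2 * (d : ℝ)) ^ (2 * k) * pr d (2 * k) 0 := by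
    rw [hk, cnt_eq_pr hd]
  have hsum : ∑ w : Fin (n + 1) → Step d, (if stepSum w = 0 then F (w ∘ e) else 0) =
      R k * cnt d (n + 1) 0 := by
    rw [sum_closed_marginal, hZ, Finset.sum_mul]
    refine Finset.sum_congr rfl fun u _ => ?_
    rw [Fintype.card_fin, hk, ← ha, cnt_eq_pr hd]
    have h5 : (2 * (d : ℝ)) ^ (2 * k) = (2 * (d : ℝ)) ^ (2 * k - a) * (2 * (d : ℝ)) ^ a := by
      rw [← pow_add, Nat.sub_add_cancel hka]
    rw [h5]
    field_simp
  rw [hsum, ← sub_mul, abs_mul]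
  have h6 : |(cnt d (n + 1) 0 : ℝ)| = cnt d (n + 1) 0 := abs_of_nonneg (by positivity)
  rw [h6]
  exact mul_le_mul_of_nonneg_right (hk₁ k hkk₁).le (by positivity)

/-- the law of a long partial sum of a uniform closed walk -/
theorem return_le (hd : 4 ≤ d) (h : KernAsymp d) : ∃ C : ℝ, 0 < C ∧ ∃ n₀ : ℕ, ∀ n ≥ n₀, Odd n →
    0 < cnt d (n + 1) 0 ∧
    ∀ r, 1 ≤ r → r ≤ n → ∀ (z : Lat d) (e : Fin r ↪ Fin (n + 1)),
      ∑ w : Fin (n + 1) → Step d,
        (if stepSum w = 0 then (if stepSum (w ∘ e) = z then (1 : ℝ) else 0) else 0) ≤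
      C * (1 / (r : ℝ) ^ 2 + 1 / ((n + 1 : ℝ) - r) ^ 2) * cnt d (n + 1) 0 := by
  have hd1 : 1 ≤ d := by omega
  have hd' : (0 : ℝ) < 2 * d := by
    have : (1 : ℝ) ≤ d := by exact_mod_cast hd1
    linarith
  obtain ⟨C, hC, hCle⟩ := h.pr_le hd1
  obtain ⟨c, hc, k₀, hk₀1, hk₀⟩ := h.le_pr hd1
  refine ⟨C * C / c, by positivity, 2 * k₀, fun n hn hodd => ?_⟩
  obtain ⟨k, hk⟩ : ∃ k, n + 1 = 2 * k := by
    obtain ⟨m, hm⟩ := hodd
    exact ⟨m + 1, by omega⟩
  have hkk₀ : k₀ ≤ k := by omega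
  have hkpos : (0 : ℝ) < k := by
    have : 0 < k := by omega
    exact_mod_cast this
  have hkr : (n : ℝ) + 1 = 2 * k := by exact_mod_cast hk
  have hlow := hk₀ k hkk₀
  have hpk : (0 : ℝ) < (k : ℝ) ^ (-(d : ℝ) / 2) := Real.rpow_pos_of_pos hkpos _
  have hpos : 0 < pr d (2 * k) 0 := lt_of_lt_of_le (by positivity) hlow
  have hZ : (cnt d (n + 1) 0 : ℝ) = (2 * (d : ℝ)) ^ (2 * k) * pr d (2 * k) 0 := by
    rw [hk, cnt_eq_pr hd1]
  refine ⟨?_, fun r hr1 hrn z e => ?_⟩
  · have : (0 : ℝ) < cnt d (n + 1) 0 := by rw [hZ]; positivity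
    exact_mod_cast this
  have hsum : ∑ w : Fin (n + 1) → Step d,
      (if stepSum w = 0 then (if stepSum (w ∘ e) = z then (1 : ℝ) else 0) else 0) =
      (2 * (d : ℝ)) ^ (2 * k) * (pr d r z * pr d (n + 1 - r) (-z)) := by
    rw [sum_closed_marginal e (fun u => if stepSum u = z then (1 : ℝ) else 0)]
    have h1 : ∀ u : Fin r → Step d, (if stepSum u = z then (1 : ℝ) else 0) *
        (cnt d (Fintype.card (Fin (n + 1)) - Fintype.card (Fin r)) (-stepSum u) : ℝ) =
        (if stepSum u = z then (1 : ℝ) else 0) * (cnt d (n + 1 - r) (-z) : ℝ) := by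
      intro u
      by_cases hu : stepSum u = z
      · simp [hu]
      · simp [hu]
    rw [Finset.sum_congr rfl fun u _ => h1 u, ← Finset.sum_mul]
    have h2 : ∑ u : Fin r → Step d, (if stepSum u = z then (1 : ℝ) else 0) = cnt d r z := by
      rw [Finset.sum_ite, Finset.sum_const_zero, add_zero, Finset.sum_const, nsmul_eq_mul, mul_one]
      rfl
    rw [h2, cnt_eq_pr hd1, cnt_eq_pr hd1]
    have h5 : (2 * (d : ℝ)) ^ (2 * k) = (2 * (d : ℝ)) ^ r * (2 * (d : ℝ)) ^ (n + 1 - r) := by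
      rw [← pow_add]
      congr 1
      omega
    rw [h5]
    ring
  have hA : pr d r z ≤ C * (r : ℝ) ^ (-(d : ℝ) / 2) := hCle r hr1 z
  have hB : pr d (n + 1 - r) (-z) ≤ C * (((n + 1 - r : ℕ) : ℝ)) ^ (-(d : ℝ) / 2) :=
    hCle (n + 1 - r) (by omega) (-z)
  have hBc : (((n + 1 - r : ℕ) : ℝ)) = (n + 1 : ℝ) - r := by
    rw [Nat.cast_sub (by omega)]
    push_cast
    ring
  rw [hBc] at hB
  set s : ℝ := (n + 1 : ℝ) - r with hs
  have hs1 : 1 ≤ s := by
    have : (r : ℝ) ≤ n := by exact_mod_cast hrn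
    rw [hs]
    linarith
  have hr1' : (1 : ℝ) ≤ r := by exact_mod_cast hr1
  have hsr : s + r = 2 * k := by rw [hs, ← hkr]; ring
  have hpow : ∀ t : ℝ, 1 ≤ t → t ^ (-(d : ℝ) / 2) ≤ 1 / t ^ 2 := by
    intro t ht
    have h7 : t ^ (-(d : ℝ) / 2) ≤ t ^ (-2 : ℝ) := by
      apply Real.rpow_le_rpow_of_exponent_le ht
      have : (4 : ℝ) ≤ d := by exact_mod_cast hd
      linarith
    refine h7.trans_eq ?_
    rw [Real.rpow_neg (by linarith), one_div]
    norm_num
  have hmono : ∀ t : ℝ, (k : ℝ) ≤ t → t ^ (-(d : ℝ) / 2) ≤ (k : ℝ) ^ (-(d : ℝ) / 2) := by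
    intro t ht
    apply Real.rpow_le_rpow_of_nonpos hkpos ht
    have : (4 : ℝ) ≤ d := by exact_mod_cast hd
    linarith
  have hprod : (r : ℝ) ^ (-(d : ℝ) / 2) * s ^ (-(d : ℝ) / 2) ≤
      (1 / (r : ℝ) ^ 2 + 1 / s ^ 2) * (k : ℝ) ^ (-(d : ℝ) / 2) := by
    have hr0 : (0 : ℝ) < (r : ℝ) ^ (-(d : ℝ) / 2) := Real.rpow_pos_of_pos (by linarith) _
    have hs0 : (0 : ℝ) < s ^ (-(d : ℝ) / 2) := Real.rpow_pos_of_pos (by linarith) _
    have i1 : 0 ≤ 1 / (r : ℝ) ^ 2 := by positivity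
    have i2 : 0 ≤ 1 / s ^ 2 := by positivity
    rcases le_total (k : ℝ) s with hks | hks
    · calc (r : ℝ) ^ (-(d : ℝ) / 2) * s ^ (-(d : ℝ) / 2)
          ≤ (1 / (r : ℝ) ^ 2) * (k : ℝ) ^ (-(d : ℝ) / 2) :=
            mul_le_mul (hpow r hr1') (hmono s hks) hs0.le i1
        _ ≤ _ := mul_le_mul_of_nonneg_right (by linarith) hpk.le
    · have hkr' : (k : ℝ) ≤ r := by linarith
      calc (r : ℝ) ^ (-(d : ℝ) / 2) * s ^ (-(d : ℝ) / 2)
          = s ^ (-(d : ℝ) / 2) * (r : ℝ) ^ (-(d : ℝ) / 2) := mul_comm _ _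
        _ ≤ (1 / s ^ 2) * (k : ℝ) ^ (-(d : ℝ) / 2) :=
            mul_le_mul (hpow s hs1) (hmono r hkr') hr0.le i2
        _ ≤ _ := mul_le_mul_of_nonneg_right (by linarith) hpk.le
  have hpr0 : ∀ m (z : Lat d), 0 ≤ pr d m z := fun m z => by unfold pr; positivity
  rw [hsum, hZ]
  have hfin : pr d r z * pr d (n + 1 - r) (-z) ≤
      C * C / c * (1 / (r : ℝ) ^ 2 + 1 / s ^ 2) * pr d (2 * k) 0 := by
    calc pr d r z * pr d (n + 1 - r) (-z)
        ≤ (C * (r : ℝ) ^ (-(d : ℝ) / 2)) * (C * s ^ (-(d : ℝ) / 2)) :=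
          mul_le_mul hA hB (hpr0 _ _) (by positivity)
      _ = C * C * ((r : ℝ) ^ (-(d : ℝ) / 2) * s ^ (-(d : ℝ) / 2)) := by ring
      _ ≤ C * C * ((1 / (r : ℝ) ^ 2 + 1 / s ^ 2) * (k : ℝ) ^ (-(d : ℝ) / 2)) :=
          mul_le_mul_of_nonneg_left hprod (by positivity)
      _ = C * C / c * (1 / (r : ℝ) ^ 2 + 1 / s ^ 2) * (c * (k : ℝ) ^ (-(d : ℝ) / 2)) := by
          field_simp
      _ ≤ C * C / c * (1 / (r : ℝ) ^ 2 + 1 / s ^ 2) * pr d (2 * k) 0 :=
          mul_le_mul_of_nonneg_left hlow (by positivity)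
  calc (2 * (d : ℝ)) ^ (2 * k) * (pr d r z * pr d (n + 1 - r) (-z))
      ≤ (2 * (d : ℝ)) ^ (2 * k) * (C * C / c * (1 / (r : ℝ) ^ 2 + 1 / s ^ 2) * pr d (2 * k) 0) :=
        mul_le_mul_of_nonneg_left hfin (by positivity)
    _ = _ := by ring

end Pool.Agent.LoopPerc.Bridge
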