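import Pool.Agent.LoopPerc.Cap5

/-!
# Capacity asymptotics
-/

namespace Pool.Agent.LoopPerc.Cap

open MeasureTheory ProbabilityTheory Filter Topology
open scoped ENNReal NNReal

/-! ### Euclidean norm on the lattice -/

/-- embedding of the lattice in Euclidean space -/
noncomputable def toE {d : ℕ} (x : Lat d) : EuclideanSpace ℝ (Fin d) :=
  WithLp.toLp 2 (fun i => (x i : ℝ))

lemma enorm2_eq {d : ℕ} (x : Lat d) : enorm2 x = ‖toE x‖ := by
  unfold enorm2 toE
  rw [EuclideanSpace.norm_eq]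
  simp

lemma toE_add {d : ℕ} (x y : Lat d) : toE (x + y) = toE x + toE y := by
  unfold toE
  ext i
  simp

lemma enorm2_add_sub_le {d : ℕ} (x v : Lat d) : |enorm2 (x + v) - enorm2 x| ≤ enorm2 v := by
  rw [enorm2_eq, enorm2_eq, enorm2_eq, toE_add]
  have := abs_norm_sub_norm_le (toE x + toE v) (toE x)
  rwa [add_sub_cancel_left] at this

lemma abs_le_enorm2 {d : ℕ} (x : Lat d) (i : Fin d) : |(x i : ℝ)| ≤ enorm2 x := by
  unfold enorm2
  rw [← Real.sqrt_sq_eq_abs]
  refine Real.sqrt_le_sqrt ?_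
  exact Finset.single_le_sum (f := fun i => (x i : ℝ) ^ 2) (fun j _ => sq_nonneg _)
    (Finset.mem_univ i)

lemma tendsto_enorm2 (d : ℕ) : Tendsto (fun x : Lat d => enorm2 x) cofinite atTop := by
  rw [tendsto_atTop]
  intro R
  rw [Filter.eventually_cofinite]
  refine (Set.finite_Icc (fun _ : Fin d => (-⌈|R|⌉ : ℤ)) (fun _ => (⌈|R|⌉ : ℤ))).subset ?_
  intro x hx
  simp only [Set.mem_ofPred_eq, not_le] at hx
  have h1 : ∀ i, |(x i : ℝ)| ≤ (⌈|R|⌉ : ℝ) := fun i =>
    (abs_le_enorm2 x i).trans (hx.le.trans ((le_abs_self R).trans (Int.le_ceil _)))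
  constructor
  · intro i
    have := (abs_le.1 (h1 i)).1
    exact_mod_cast this
  · intro i
    have := (abs_le.1 (h1 i)).2
    exact_mod_cast this

lemma tendsto_enorm2_ratio {d : ℕ} (v : Lat d) :
    Tendsto (fun x : Lat d => enorm2 (x + v) / enorm2 x) cofinite (𝓝 1) := by
  have h0 := tendsto_enorm2 d
  have h1 : Tendsto (fun x : Lat d => enorm2 v / enorm2 x) cofinite (𝓝 0) :=
    tendsto_const_nhds.div_atTop h0
  have h2 : Tendsto (fun x : Lat d => enorm2 (x + v) / enorm2 x - 1) cofinite (𝓝 0) := by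
    refine squeeze_zero_norm' ?_ h1
    filter_upwards [h0.eventually_gt_atTop 0] with x hx
    rw [Real.norm_eq_abs, show enorm2 (x + v) / enorm2 x - 1 =
      (enorm2 (x + v) - enorm2 x) / enorm2 x by field_simp, abs_div, abs_of_pos hx]
    exact div_le_div_of_nonneg_right (enorm2_add_sub_le x v) hx.le
  have := h2.add_const 1
  simpa using this

lemma green_shift_asymp {d : ℕ} (c₀ : ℝ)
    (hG3 : Tendsto (fun x : Lat d => enorm2 x ^ (d - 2) * (green Set.univ 0 x).toReal)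
      cofinite (𝓝 c₀)) (v : Lat d) :
    Tendsto (fun x : Lat d => enorm2 x ^ (d - 2) * gr Set.univ 0 (x + v)) cofinite (𝓝 c₀) := by
  have hinj : Tendsto (fun x : Lat d => x + v) cofinite cofinite :=
    (add_left_injective v).tendsto_cofinite
  have h1 := hG3.comp hinj
  have h2 : Tendsto (fun x : Lat d => (enorm2 (x + v) / enorm2 x) ^ (d - 2)) cofinite
      (𝓝 (1 ^ (d - 2))) := (tendsto_enorm2_ratio v).pow _
  rw [one_pow] at h2
  have h3 := h1.div h2 one_ne_zero
  rw [div_one] at h3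
  refine h3.congr' ?_
  filter_upwards [(tendsto_enorm2 d).eventually_gt_atTop 0,
    ((tendsto_enorm2 d).comp hinj).eventually_gt_atTop 0] with x hx hx'
  simp only [Function.comp_apply] at hx'
  simp only [Function.comp_apply, Pi.div_apply, div_pow]
  unfold gr
  have e1 : enorm2 (x + v) ^ (d - 2) ≠ 0 := (pow_pos hx' _).ne'
  have e2 : enorm2 x ^ (d - 2) ≠ 0 := (pow_pos hx _).ne'
  field_simp

lemma gr_univ_eq {d : ℕ} (w z : Lat d) : gr Set.univ w z = gr Set.univ 0 (w + -z) := by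
  rw [gr_symm]
  unfold gr
  have := green_univ_add_right z (0 : Lat d) (w + -z)
  rw [zero_add, neg_add_cancel_right] at this
  rw [this]

lemma green_far_asymp {d : ℕ} (c₀ : ℝ)
    (hG3 : Tendsto (fun x : Lat d => enorm2 x ^ (d - 2) * (green Set.univ 0 x).toReal)
      cofinite (𝓝 c₀)) (z : Lat d) :
    Tendsto (fun w : Lat d => enorm2 w ^ (d - 2) * gr Set.univ w z) cofinite (𝓝 c₀) := by
  refine (green_shift_asymp c₀ hG3 (-z)).congr fun w => ?_
  rw [gr_univ_eq w z]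

lemma green_compare {d : ℕ} (c₀ : ℝ)
    (hG3 : Tendsto (fun x : Lat d => enorm2 x ^ (d - 2) * (green Set.univ 0 x).toReal)
      cofinite (𝓝 c₀)) (hc₀ : 0 < c₀) (z z' : Lat d) (ε : ℝ) (hε : 0 < ε) :
    ∀ᶠ w in cofinite, gr Set.univ w z ≤ (1 + ε) * gr Set.univ w z' := by
  have h1 := green_far_asymp c₀ hG3 z
  have h2 := green_far_asymp c₀ hG3 z'
  have h3 := h1.div h2 hc₀.ne'
  rw [div_self hc₀.ne'] at h3
  have h4 := h3.eventually (gt_mem_nhds (show (1 : ℝ) < 1 + ε by linarith))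
  filter_upwards [h4, (tendsto_enorm2 d).eventually_gt_atTop 0,
    h2.eventually (lt_mem_nhds hc₀)] with w hw hw0 hwp
  simp only [Pi.div_apply] at hw
  have hρ : 0 < enorm2 w ^ (d - 2) := pow_pos hw0 _
  rw [div_lt_iff₀ hwp] at hw
  have : enorm2 w ^ (d - 2) * gr Set.univ w z ≤
      enorm2 w ^ (d - 2) * ((1 + ε) * gr Set.univ w z') := by
    calc _ ≤ (1 + ε) * (enorm2 w ^ (d - 2) * gr Set.univ w z') := hw.le
      _ = _ := by ring
  exact le_of_mul_le_mul_left this hρ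

/-! ### The box -/

lemma box_eq_sdiff (d n : ℕ) : (Set.univ : Set (Lat d)) \ (box d n)ᶜ = box d n := by
  ext x; simp

lemma eventually_mem_box {d : ℕ} (x : Lat d) : ∀ᶠ n : ℕ in atTop, x ∈ box d n := by
  filter_upwards [Filter.eventually_gt_atTop ⌈‖x‖⌉₊] with n hn
  unfold box
  rw [Set.mem_ofPred_eq]
  exact lt_of_le_of_lt (Nat.le_ceil _) (by exact_mod_cast hn)

lemma box_mono {d m n : ℕ} (h : m ≤ n) : box d m ⊆ box d n := by
  intro x hx
  unfold box at *
  rw [Set.mem_ofPred_eq] at *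
  exact hx.trans_le (by exact_mod_cast h)

/-- the Green function of walks leaving the box -/
lemma gr_sub_box {d : ℕ} (hd : 1 ≤ d) (hG : green (Set.univ : Set (Lat d)) 0 0 ≠ ⊤) (n : ℕ)
    (y z : Lat d) : gr Set.univ y z - gr (box d n) y z =
      (∑' w, hitd Set.univ (box d n)ᶜ y w * green Set.univ w z).toReal := by
  have h := green_decomp Set.univ (box d n)ᶜ y z
  rw [box_eq_sdiff] at h
  have hne : ∑' w, hitd Set.univ (box d n)ᶜ y w * green Set.univ w z ≠ ⊤ := by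
    intro h'
    rw [h', add_top] at h
    exact green_ne_top hd hG _ _ _ h
  unfold gr
  rw [h, ENNReal.toReal_add (green_ne_top hd hG _ _ _) hne]
  ring

lemma hitd_of_notMem_T {d : ℕ} {D T : Set (Lat d)} {w : Lat d} (hw : w ∉ T)
    (x : Lat d) : hitd D T x w = 0 := by
  unfold hitd
  simp [hitk_of_notMem_T hw]

lemma box_compare {d : ℕ} (hd : 1 ≤ d) (hG : green (Set.univ : Set (Lat d)) 0 0 ≠ ⊤) (c₀ : ℝ)
    (hG3 : Tendsto (fun x : Lat d => enorm2 x ^ (d - 2) * (green Set.univ 0 x).toReal)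
      cofinite (𝓝 c₀)) (hc₀ : 0 < c₀) (y z z' : Lat d) (ε : ℝ) (hε : 0 < ε) :
    ∀ᶠ n : ℕ in atTop, gr Set.univ y z - gr (box d n) y z ≤
      (1 + ε) * (gr Set.univ y z' - gr (box d n) y z') := by
  have h1 := green_compare c₀ hG3 hc₀ z z' ε hε
  rw [Filter.eventually_cofinite] at h1
  have h2 : ∀ᶠ n : ℕ in atTop, ∀ w ∈ {w | ¬ gr Set.univ w z ≤ (1 + ε) * gr Set.univ w z'},
      w ∈ box d n := (Filter.eventually_all_finite h1).2 fun w _ => eventually_mem_box w
  filter_upwards [h2] with n hn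
  rw [gr_sub_box hd hG, gr_sub_box hd hG]
  have hne : ∀ z, ∑' w, hitd Set.univ (box d n)ᶜ y w * green Set.univ w z ≠ ⊤ := by
    intro z h'
    have h := green_decomp Set.univ (box d n)ᶜ y z
    rw [h', add_top] at h
    exact green_ne_top hd hG _ _ _ h
  have h3 : ∑' w, hitd Set.univ (box d n)ᶜ y w * green Set.univ w z ≤
      ENNReal.ofReal (1 + ε) * ∑' w, hitd Set.univ (box d n)ᶜ y w * green Set.univ w z' := by
    rw [← ENNReal.tsum_mul_left]
    refine ENNReal.tsum_le_tsum fun w => ?_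
    by_cases hw : w ∈ box d n
    · rw [hitd_of_notMem_T (show w ∉ (box d n)ᶜ from fun h => h hw), zero_mul]
      exact bot_le
    · have h4 : gr Set.univ w z ≤ (1 + ε) * gr Set.univ w z' := by
        by_contra h
        exact hw (hn w h)
      have h5 : green Set.univ w z ≤ ENNReal.ofReal (1 + ε) * green Set.univ w z' := by
        unfold gr at h4
        rw [← ENNReal.ofReal_toReal (green_ne_top hd hG Set.univ w z),
          ← ENNReal.ofReal_toReal (green_ne_top hd hG Set.univ w z'),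
          ← ENNReal.ofReal_mul (by linarith)]
        exact ENNReal.ofReal_le_ofReal h4
      calc _ ≤ hitd Set.univ (box d n)ᶜ y w * (ENNReal.ofReal (1 + ε) * green Set.univ w z') :=
            mul_le_mul_right h5 _
        _ = _ := by ring
  have h6 := ENNReal.toReal_mono (ENNReal.mul_ne_top ENNReal.ofReal_ne_top (hne z')) h3
  rwa [ENNReal.toReal_mul, ENNReal.toReal_ofReal (by linarith)] at h6

lemma tendsto_of_compare {I : Type*} {l : Filter I} {ρ f g : I → ℝ} {κ : ℝ}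
    (hρ : ∀ᶠ i in l, 0 ≤ ρ i) (hf : Tendsto (fun i => ρ i * f i) l (𝓝 κ))
    (hf0 : ∀ i, 0 ≤ f i)
    (h1 : ∀ ε > 0, ∀ᶠ i in l, g i ≤ (1 + ε) * f i)
    (h2 : ∀ ε > 0, ∀ᶠ i in l, f i ≤ (1 + ε) * g i) :
    Tendsto (fun i => ρ i * g i) l (𝓝 κ) := by
  have h3 : Tendsto (fun i => ρ i * g i - ρ i * f i) l (𝓝 0) := by
    rw [Metric.tendsto_nhds]
    intro δ hδ
    have hb : ∀ᶠ i in l, ρ i * f i < |κ| + 1 :=
      hf.eventually (gt_mem_nhds (by have := le_abs_self κ; linarith))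
    set ε := δ / (2 * (|κ| + 1)) with hε
    have hκ : 0 < |κ| + 1 := by positivity
    have hε0 : 0 < ε := by positivity
    filter_upwards [hρ, hb, h1 ε hε0, h2 ε hε0] with i hi hb h1 h2
    rw [Real.dist_eq, sub_zero]
    have hfi := hf0 i
    have hρf : 0 ≤ ρ i * f i := mul_nonneg hi hfi
    have e1 : ε * (|κ| + 1) = δ / 2 := by rw [hε]; field_simp
    have e2 : ε * (ρ i * f i) ≤ δ / 2 := by
      rw [← e1]; exact mul_le_mul_of_nonneg_left hb.le hε0.le
    rw [abs_lt]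
    constructor
    · have h3 : f i ≤ g i + ε * f i := by
        rcases le_total (g i) (f i) with h | h
        · nlinarith
        · nlinarith
      have h4 : ρ i * f i ≤ ρ i * (g i + ε * f i) := mul_le_mul_of_nonneg_left h3 hi
      nlinarith
    · have h4 : ρ i * g i ≤ ρ i * ((1 + ε) * f i) := mul_le_mul_of_nonneg_left h1 hi
      nlinarith
  have := h3.add hf
  simpa using this

lemma conv_box {d : ℕ} (hd : 3 ≤ d) (hG : green (Set.univ : Set (Lat d)) 0 0 ≠ ⊤) (c₀ κ : ℝ)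
    (hG3 : Tendsto (fun x : Lat d => enorm2 x ^ (d - 2) * (green Set.univ 0 x).toReal)
      cofinite (𝓝 c₀)) (hc₀ : 0 < c₀)
    (hG4 : Tendsto (fun n : ℕ => (n : ℝ) ^ (d - 2) *
      ((green Set.univ (0 : Lat d) 0).toReal - (green (box d n) 0 0).toReal)) atTop (𝓝 κ)) :
    Conv atTop (fun n : ℕ => (n : ℝ) ^ (d - 2)) (fun n : ℕ => (box d n)ᶜ)
      (Set.univ : Set (Lat d)) := by
  have hd1 : 1 ≤ d := by omega
  have hnn : ∀ y z : Lat d, ∀ n, 0 ≤ gr Set.univ y z - gr (box d n) y z := fun y z n =>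
    sub_nonneg.2 (gr_mono hd1 hG (Set.subset_univ _) y z)
  have h1 : ∀ z : Lat d, Tendsto (fun n : ℕ => (n : ℝ) ^ (d - 2) *
      (gr Set.univ 0 z - gr (box d n) 0 z)) atTop (𝓝 κ) := by
    intro z
    refine tendsto_of_compare (f := fun n => gr Set.univ (0 : Lat d) 0 - gr (box d n) 0 0)
      (Filter.Eventually.of_forall fun n => by positivity) hG4 (hnn 0 0) ?_ ?_
    · intro ε hε
      exact box_compare hd1 hG c₀ hG3 hc₀ 0 z 0 ε hε
    · intro ε hε
      exact box_compare hd1 hG c₀ hG3 hc₀ 0 0 z ε hε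
  intro y z
  refine ⟨κ, ?_⟩
  simp only [box_eq_sdiff]
  refine tendsto_of_compare (f := fun n => gr Set.univ y 0 - gr (box d n) y 0)
      (Filter.Eventually.of_forall fun n => by positivity) ?_ (hnn y 0) ?_ ?_
  · refine (h1 y).congr fun n => ?_
    rw [gr_symm Set.univ, gr_symm (box d n)]
  · intro ε hε
    exact box_compare hd1 hG c₀ hG3 hc₀ y z 0 ε hε
  · intro ε hε
    exact box_compare hd1 hG c₀ hG3 hc₀ y 0 z ε hε

end Pool.Agent.LoopPerc.Cap

namespace Pool.Agent.LoopPerc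

open MeasureTheory ProbabilityTheory Filter Topology
open scoped ENNReal NNReal
open Cap

open Classical in
theorem cap_box (d : ℕ) (hd : 3 ≤ d) (hG : green (Set.univ : Set (Lat d)) 0 0 ≠ ⊤) (c₀ κ : ℝ)
    (hG3 : Tendsto (fun x : Lat d => enorm2 x ^ (d - 2) * (green Set.univ 0 x).toReal)
      cofinite (𝓝 c₀)) (hc₀ : 0 < c₀)
    (hG4 : Tendsto (fun n : ℕ => (n : ℝ) ^ (d - 2) *
      ((green Set.univ (0 : Lat d) 0).toReal - (green (box d n) 0 0).toReal)) atTop (𝓝 κ))
    (A : Finset (Lat d)) : ∃ L : ℝ, 0 ≤ L ∧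
    Tendsto (fun n : ℕ => (n : ℝ) ^ (d - 2) * (∑' c : Cycle (Lat d),
      (if (∃ a ∈ A, a ∈ c) ∧ (∃ x ∈ c, x ∉ box d n) then (loopMeasure c : ℝ≥0∞) else 0)).toReal)
      atTop (𝓝 L) := by
  have hd1 : 1 ≤ d := by omega
  have hρ : Tendsto (fun n : ℕ => (n : ℝ) ^ (d - 2)) atTop atTop :=
    (tendsto_pow_atTop (by omega)).comp tendsto_natCast_atTop_atTop
  obtain ⟨-, L, hL⟩ := massHit_tendsto hd1 hG hρ
    (T := fun n : ℕ => (box d n)ᶜ) (fun a => by
      filter_upwards [eventually_mem_box a] with n hn h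
      exact h hn) A Set.univ (conv_box hd hG c₀ κ hG3 hc₀ hG4)
  refine ⟨L, ge_of_tendsto' hL fun n => by positivity, hL.congr fun n => ?_⟩
  congr 2
  unfold massHit
  refine tsum_congr fun c => ?_
  have e : ((∃ a ∈ A, a ∈ c) ∧ (∃ x ∈ c, x ∈ (box d n)ᶜ) ∧ ∀ x ∈ c, x ∈ Set.univ) ↔
      ((∃ a ∈ A, a ∈ c) ∧ (∃ x ∈ c, x ∉ box d n)) := by
    simp
  by_cases h : (∃ a ∈ A, a ∈ c) ∧ (∃ x ∈ c, x ∉ box d n)
  · rw [if_pos h, if_pos (e.2 h)]
  · rw [if_neg h, if_neg (fun h' => h (e.1 h'))]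

end Pool.Agent.LoopPerc

/-! ### Two far away sets -/

namespace Pool.Agent.LoopPerc.Cap

open MeasureTheory ProbabilityTheory Filter Topology
open scoped ENNReal NNReal

lemma pair_aux {d : ℕ} (hd : 1 ≤ d) (hG : green (Set.univ : Set (Lat d)) 0 0 ≠ ⊤) (c₀ : ℝ)
    (hG3 : Tendsto (fun x : Lat d => enorm2 x ^ (d - 2) * (green Set.univ 0 x).toReal)
      cofinite (𝓝 c₀)) (B : Finset (Lat d)) : ∀ y b : Lat d, ∃ L : ℝ,
    Tendsto (fun x : Lat d => enorm2 x ^ (d - 2) *
      gr (Set.univ \ (B : Set (Lat d))) (y - x) b) cofinite (𝓝 L) := by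
  classical
  induction B using Finset.induction_on with
  | empty =>
    intro y b
    refine ⟨c₀, (green_shift_asymp c₀ hG3 (b - y)).congr fun x => ?_⟩
    rw [Finset.coe_empty, Set.sdiff_empty]
    congr 1
    unfold gr
    have := green_univ_add_right (y - x) (0 : Lat d) (x + (b - y))
    rw [zero_add, show x + (b - y) + (y - x) = b by abel] at this
    rw [this]
  | insert b' B hb' ih =>
    intro y b
    obtain ⟨L1, h1⟩ := ih y b
    obtain ⟨L2, h2⟩ := ih y b'
    have e1 : Set.univ \ ((insert b' B : Finset (Lat d)) : Set (Lat d)) =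
        (Set.univ \ (B : Set (Lat d))) \ {b'} := by
      ext x
      simp only [Finset.coe_insert, Set.mem_sdiff, Set.mem_univ, true_and, Set.mem_insert_iff,
        Set.mem_singleton_iff, not_or]
      tauto
    have hmem : b' ∈ Set.univ \ (B : Set (Lat d)) := ⟨Set.mem_univ _, by simpa using hb'⟩
    refine ⟨_, (h1.sub (h2.mul_const (gr (Set.univ \ (B : Set (Lat d))) b' b /
      gr (Set.univ \ (B : Set (Lat d))) b' b'))).congr fun x => ?_⟩
    rw [e1, gr_remove hd hG _ b' _ _ hmem]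
    ring

lemma pair_conv {d : ℕ} (hd : 1 ≤ d) (hG : green (Set.univ : Set (Lat d)) 0 0 ≠ ⊤) (c₀ : ℝ)
    (hG3 : Tendsto (fun x : Lat d => enorm2 x ^ (d - 2) * (green Set.univ 0 x).toReal)
      cofinite (𝓝 c₀)) (B : Finset (Lat d)) :
    Conv cofinite (fun x : Lat d => enorm2 x ^ (2 * (d - 2)))
      (fun x => {u | ∃ b ∈ B, b + x = u}) (Set.univ : Set (Lat d)) := by
  classical
  induction B using Finset.induction_on with
  | empty =>
    intro y z
    refine ⟨0, ?_⟩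
    simpa using tendsto_const_nhds
  | insert b' B hb' ih =>
    intro y z
    obtain ⟨L1, h1⟩ := ih y z
    obtain ⟨L2, h2⟩ := pair_aux hd hG c₀ hG3 B y b'
    obtain ⟨L3, h3⟩ := pair_aux hd hG c₀ hG3 B z b'
    refine ⟨_, (h1.add ((h2.mul h3).div_const
      (gr (Set.univ \ (B : Set (Lat d))) b' b'))).congr fun x => ?_⟩
    set D : Set (Lat d) := Set.univ \ {u | ∃ b ∈ B, b + x = u} with hD
    have e1 : Set.univ \ {u | ∃ b ∈ insert b' B, b + x = u} = D \ {b' + x} := by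
      ext u
      simp only [hD, Set.mem_sdiff, Set.mem_univ, true_and, Set.mem_ofPred_eq,
        Finset.mem_insert, Set.mem_singleton_iff]
      constructor
      · intro h
        exact ⟨fun ⟨b, hb, hu⟩ => h ⟨b, Or.inr hb, hu⟩, fun hu => h ⟨b', Or.inl rfl, hu.symm⟩⟩
      · rintro ⟨h1, h2⟩ ⟨b, hb | hb, hu⟩
        · exact h2 (by rw [← hu, hb])
        · exact h1 ⟨b, hb, hu⟩
    have hmem : b' + x ∈ D := by
      refine ⟨Set.mem_univ _, ?_⟩
      rintro ⟨b, hb, hbx⟩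
      exact hb' (add_right_cancel hbx ▸ hb)
    have e2 : {u | u + x ∈ D} = Set.univ \ (B : Set (Lat d)) := by
      ext u
      simp only [hD, Set.mem_sdiff, Set.mem_univ, true_and, Set.mem_ofPred_eq, Finset.mem_coe]
      constructor
      · intro h hu
        exact h ⟨u, hu, rfl⟩
      · rintro h ⟨b, hb, hbx⟩
        exact h (add_right_cancel hbx ▸ hb)
    have t : ∀ u v : Lat d, gr D (u + x) (v + x) = gr (Set.univ \ (B : Set (Lat d))) u v := by
      intro u v
      unfold gr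
      rw [green_add_right, e2]
    have t1 : gr D y (b' + x) = gr (Set.univ \ (B : Set (Lat d))) (y - x) b' := by
      rw [← t, sub_add_cancel]
    have t2 : gr D (b' + x) z = gr (Set.univ \ (B : Set (Lat d))) (z - x) b' := by
      rw [gr_symm, ← t, sub_add_cancel]
    have t3 : gr D (b' + x) (b' + x) = gr (Set.univ \ (B : Set (Lat d))) b' b' := t _ _
    rw [e1, gr_remove hd hG D (b' + x) y z hmem, t1, t2, t3]
    have hp : enorm2 x ^ (2 * (d - 2)) = enorm2 x ^ (d - 2) * enorm2 x ^ (d - 2) := by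
      rw [two_mul, pow_add]
    simp only [hp]
    ring

end Pool.Agent.LoopPerc.Cap

namespace Pool.Agent.LoopPerc

open MeasureTheory ProbabilityTheory Filter Topology
open scoped ENNReal NNReal
open Cap

theorem green_remove (d : ℕ) (hd : 1 ≤ d) (hG : green (Set.univ : Set (Lat d)) 0 0 ≠ ⊤)
    (D : Set (Lat d)) (a y z : Lat d) (ha : a ∈ D) :
    (green D y z).toReal = (green (D \ {a}) y z).toReal +
      (green D y a).toReal * (green D a z).toReal / (green D a a).toReal :=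
  Cap.green_remove d hd hG D a y z ha

open Classical in
theorem loops_through_eq_log (d : ℕ) (hd : 1 ≤ d) (hG : green (Set.univ : Set (Lat d)) 0 0 ≠ ⊤)
    (D : Set (Lat d)) (a : Lat d) (ha : a ∈ D) :
    ∑' c : Cycle (Lat d), (if a ∈ c ∧ ∀ x ∈ c, x ∈ D then (loopMeasure c : ℝ≥0∞) else 0) =
      ENNReal.ofReal (Real.log (green D a a).toReal) :=
  Cap.loops_through_eq_log d hd hG D a ha

open Classical in
theorem cap_pair (d : ℕ) (hd : 3 ≤ d) (hG : green (Set.univ : Set (Lat d)) 0 0 ≠ ⊤) (c₀ : ℝ)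
    (hG3 : Tendsto (fun x : Lat d => enorm2 x ^ (d - 2) * (green Set.univ 0 x).toReal)
      cofinite (𝓝 c₀)) (hc₀ : 0 < c₀)
    (A B : Finset (Lat d)) : ∃ L : ℝ, 0 ≤ L ∧
    Tendsto (fun x : Lat d => enorm2 x ^ (2 * (d - 2)) * (∑' c : Cycle (Lat d),
      (if (∃ a ∈ A, a ∈ c) ∧ (∃ b ∈ B, b + x ∈ c) then (loopMeasure c : ℝ≥0∞) else 0)).toReal)
      cofinite (𝓝 L) := by
  have hd1 : 1 ≤ d := by omega
  have : NeBot (cofinite : Filter (Lat d)) := by
    have : Infinite (Lat d) := by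
      have : Nonempty (Fin d) := ⟨⟨0, by omega⟩⟩
      infer_instance
    infer_instance
  have hρ : Tendsto (fun x : Lat d => enorm2 x ^ (2 * (d - 2))) cofinite atTop :=
    (tendsto_pow_atTop (by omega)).comp (tendsto_enorm2 d)
  obtain ⟨-, L, hL⟩ := massHit_tendsto hd1 hG hρ
    (T := fun x : Lat d => {u | ∃ b ∈ B, b + x = u}) (fun a => by
      rw [Filter.eventually_cofinite]
      refine (B.image fun b => a - b).finite_toSet.subset ?_
      intro x hx
      simp only [Set.mem_ofPred_eq, not_not] at hx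
      obtain ⟨b, hb, hbx⟩ := hx
      rw [Finset.coe_image]
      exact ⟨b, hb, by rw [← hbx]; simp⟩) A Set.univ (pair_conv hd1 hG c₀ hG3 B)
  refine ⟨L, ge_of_tendsto' hL fun x => ?_, hL.congr fun x => ?_⟩
  · have : 0 ≤ enorm2 x := Real.sqrt_nonneg _
    positivity
  congr 2
  unfold massHit
  refine tsum_congr fun c => ?_
  have e : ((∃ a ∈ A, a ∈ c) ∧ (∃ u ∈ c, u ∈ {u | ∃ b ∈ B, b + x = u}) ∧
      ∀ u ∈ c, u ∈ (Set.univ : Set (Lat d))) ↔
      ((∃ a ∈ A, a ∈ c) ∧ (∃ b ∈ B, b + x ∈ c)) := by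
    constructor
    · rintro ⟨h1, ⟨u, hu, b, hb, rfl⟩, -⟩
      exact ⟨h1, b, hb, hu⟩
    · rintro ⟨h1, b, hb, hbx⟩
      exact ⟨h1, ⟨_, hbx, b, hb, rfl⟩, fun u _ => Set.mem_univ u⟩
  by_cases h : (∃ a ∈ A, a ∈ c) ∧ (∃ b ∈ B, b + x ∈ c)
  · rw [if_pos h, if_pos (e.2 h)]
  · rw [if_neg h, if_neg (fun h' => h (e.1 h'))]

end Pool.Agent.LoopPerc
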