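import Pool.Agent.LoopPerc.Walk

/-!
# Green function algebra, part 1: first passage decomposition
-/

namespace Pool.Agent.LoopPerc.Cap

open MeasureTheory ProbabilityTheory Filter Topology
open scoped ENNReal NNReal

/-! ### Convolution sums in `ℝ≥0∞` -/

lemma tsum_conv (a b : ℕ → ℝ≥0∞) :
    ∑' m, ∑ k ∈ Finset.range (m + 1), a k * b (m - k) = (∑' k, a k) * ∑' k, b k := by
  have h1 : ∀ m, ∑ k ∈ Finset.range (m + 1), a k * b (m - k) =
      ∑' k, if k ≤ m then a k * b (m - k) else 0 := by
    intro m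
    rw [tsum_eq_sum (s := Finset.range (m + 1))]
    · refine Finset.sum_congr rfl fun k hk => ?_
      rw [if_pos (Nat.lt_succ_iff.1 (Finset.mem_range.1 hk))]
    · intro k hk
      rw [if_neg]
      intro h
      exact hk (Finset.mem_range.2 (Nat.lt_succ_iff.2 h))
  simp_rw [h1]
  rw [ENNReal.tsum_comm, ← ENNReal.tsum_mul_right]
  refine tsum_congr fun k => ?_
  rw [← ENNReal.tsum_mul_left, ← (add_right_injective k).tsum_eq]
  · refine tsum_congr fun i => ?_
    rw [if_pos (Nat.le_add_right k i), Nat.add_sub_cancel_left]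
  · intro m hm
    rw [Function.mem_support] at hm
    have : k ≤ m := by
      by_contra h
      exact hm (if_neg h)
    exact ⟨m - k, by simp only; omega⟩

/-! ### First hitting kernels -/

open Classical in
/-- First hitting kernel: probability that the walk started at `x` hits `T` for the first time
at time `k`, at the point `w`, being in `D` before. -/
noncomputable def hitk {d : ℕ} (D T : Set (Lat d)) : ℕ → Lat d → Lat d → ℝ≥0∞
  | 0, x, w => if x = w ∧ x ∈ T then 1 else 0
  | k + 1, x, w => if x ∈ D \ T then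
      ∑ e : Step d, (2 * (d : ℝ≥0∞))⁻¹ * hitk D T k (x + stepVec e) w else 0

open Classical in
lemma kern_zero {d : ℕ} (D : Set (Lat d)) (x y : Lat d) :
    kern D 0 x y = if x = y ∧ x ∈ D then 1 else 0 := rfl

open Classical in
lemma kern_succ {d : ℕ} (D : Set (Lat d)) (m : ℕ) (x y : Lat d) :
    kern D (m + 1) x y = if x ∈ D then
      ∑ e : Step d, (2 * (d : ℝ≥0∞))⁻¹ * kern D m (x + stepVec e) y else 0 := rfl

open Classical in
lemma hitk_zero {d : ℕ} (D T : Set (Lat d)) (x w : Lat d) :
    hitk D T 0 x w = if x = w ∧ x ∈ T then 1 else 0 := rfl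

open Classical in
lemma hitk_succ {d : ℕ} (D T : Set (Lat d)) (k : ℕ) (x w : Lat d) :
    hitk D T (k + 1) x w = if x ∈ D \ T then
      ∑ e : Step d, (2 * (d : ℝ≥0∞))⁻¹ * hitk D T k (x + stepVec e) w else 0 := rfl

lemma kern_of_notMem {d : ℕ} {D : Set (Lat d)} {x : Lat d} (hx : x ∉ D) (m : ℕ) (y : Lat d) :
    kern D m x y = 0 := by
  cases m with
  | zero => rw [kern_zero, if_neg (fun h => hx h.2)]
  | succ m => rw [kern_succ, if_neg hx]

lemma kern_of_notMem_right {d : ℕ} {D : Set (Lat d)} {y : Lat d} (hy : y ∉ D) (m : ℕ)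
    (x : Lat d) : kern D m x y = 0 := by
  induction m generalizing x with
  | zero =>
    rw [kern_zero, if_neg]
    rintro ⟨rfl, h⟩
    exact hy h
  | succ m ih =>
    rw [kern_succ]
    split_ifs with h
    · simp [ih]
    · rfl

lemma hitk_of_notMem_T {d : ℕ} {D T : Set (Lat d)} {w : Lat d} (hw : w ∉ T) (k : ℕ)
    (x : Lat d) : hitk D T k x w = 0 := by
  induction k generalizing x with
  | zero =>
    rw [hitk_zero, if_neg]
    rintro ⟨rfl, h⟩
    exact hw h
  | succ m ih =>
    rw [hitk_succ]
    split_ifs with h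
    · simp [ih]
    · rfl

lemma kern_mono {d : ℕ} {D D' : Set (Lat d)} (h : D ⊆ D') (m : ℕ) (x y : Lat d) :
    kern D m x y ≤ kern D' m x y := by
  induction m generalizing x with
  | zero =>
    rw [kern_zero, kern_zero]
    by_cases hx : x = y ∧ x ∈ D
    · rw [if_pos hx, if_pos ⟨hx.1, h hx.2⟩]
    · rw [if_neg hx]; exact bot_le
  | succ m ih =>
    rw [kern_succ, kern_succ]
    by_cases hx : x ∈ D
    · rw [if_pos hx, if_pos (h hx)]
      exact Finset.sum_le_sum fun e _ => mul_le_mul_right (ih _) _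
    · rw [if_neg hx]; exact bot_le

lemma sum_step_const {d : ℕ} (hd : 1 ≤ d) (c : ℝ≥0∞) :
    ∑ _e : Step d, (2 * (d : ℝ≥0∞))⁻¹ * c = c := by
  have h0 : (2 * (d : ℝ≥0∞)) ≠ 0 := by
    have : (d : ℝ≥0∞) ≠ 0 := by exact_mod_cast (by omega : d ≠ 0)
    exact mul_ne_zero two_ne_zero this
  have h1 : (2 * (d : ℝ≥0∞)) ≠ ⊤ := ENNReal.mul_ne_top (by simp) (ENNReal.natCast_ne_top d)
  rw [Finset.sum_const, Finset.card_univ, Fintype.card_prod, Fintype.card_fin, Fintype.card_bool,
    nsmul_eq_mul, ← mul_assoc]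
  have : ((d * 2 : ℕ) : ℝ≥0∞) = 2 * (d : ℝ≥0∞) := by push_cast; ring
  rw [this, ENNReal.mul_inv_cancel h0 h1, one_mul]

/-- first passage decomposition -/
lemma kern_decomp {d : ℕ} (D T : Set (Lat d)) (m : ℕ) (y z : Lat d) :
    kern D m y z = kern (D \ T) m y z +
      ∑ k ∈ Finset.range (m + 1), ∑' w, hitk D T k y w * kern D (m - k) w z := by
  induction m generalizing y with
  | zero =>
    rw [Finset.sum_range_one, kern_zero, kern_zero]
    by_cases hT : y ∈ T
    · rw [if_neg (show ¬ (y = z ∧ y ∈ D \ T) from fun h => h.2.2 hT), zero_add, tsum_eq_single y]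
      · have h0 : hitk D T 0 y y = 1 := by rw [hitk_zero, if_pos ⟨rfl, hT⟩]
        rw [h0, one_mul, Nat.sub_zero, kern_zero]
      · intro w hw
        rw [hitk_zero, if_neg (fun h => hw h.1.symm), zero_mul]
    · have : ∑' w, hitk D T 0 y w * kern D (0 - 0) w z = 0 := by
        refine ENNReal.tsum_eq_zero.2 fun w => ?_
        rw [hitk_zero, if_neg (fun h => hT h.2), zero_mul]
      rw [this, add_zero]
      have e : (y = z ∧ y ∈ D) ↔ (y = z ∧ y ∈ D \ T) := by
        constructor
        · rintro ⟨h1, h2⟩; exact ⟨h1, h2, hT⟩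
        · rintro ⟨h1, h2⟩; exact ⟨h1, h2.1⟩
      by_cases h : y = z ∧ y ∈ D
      · rw [if_pos h, if_pos (e.1 h)]
      · rw [if_neg h, if_neg (fun h' => h (e.2 h'))]
  | succ m ih =>
    rw [Finset.sum_range_succ']
    by_cases hT : y ∈ T
    · have h1 : kern (D \ T) (m + 1) y z = 0 := kern_of_notMem (fun h => h.2 hT) _ _
      have h2 : ∀ k, ∑' w, hitk D T (k + 1) y w * kern D (m + 1 - (k + 1)) w z = 0 := by
        intro k
        refine ENNReal.tsum_eq_zero.2 fun w => ?_
        rw [hitk_succ, if_neg (fun h => h.2 hT), zero_mul]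
      rw [h1, zero_add, Finset.sum_eq_zero (fun k _ => h2 k), zero_add, tsum_eq_single y]
      · rw [hitk_zero, if_pos ⟨rfl, hT⟩, one_mul, Nat.sub_zero]
      · intro w hw
        rw [hitk_zero, if_neg (fun h => hw h.1.symm), zero_mul]
    · have h0 : ∑' w, hitk D T 0 y w * kern D (m + 1 - 0) w z = 0 := by
        refine ENNReal.tsum_eq_zero.2 fun w => ?_
        rw [hitk_zero, if_neg (fun h => hT h.2), zero_mul]
      rw [h0, add_zero]
      by_cases hD : y ∈ D
      · rw [kern_succ, if_pos hD, kern_succ, if_pos (show y ∈ D \ T from ⟨hD, hT⟩)]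
        have h3 : ∀ k, ∑' w, hitk D T (k + 1) y w * kern D (m + 1 - (k + 1)) w z =
            ∑ e : Step d, (2 * (d : ℝ≥0∞))⁻¹ *
              ∑' w, hitk D T k (y + stepVec e) w * kern D (m - k) w z := by
          intro k
          simp_rw [← ENNReal.tsum_mul_left]
          rw [← Summable.tsum_finsetSum (fun _ _ => ENNReal.summable)]
          refine tsum_congr fun w => ?_
          rw [hitk_succ, if_pos (show y ∈ D \ T from ⟨hD, hT⟩), Finset.sum_mul,
            Nat.add_sub_add_right]
          refine Finset.sum_congr rfl fun e _ => ?_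
          rw [mul_assoc]
        rw [Finset.sum_congr rfl (fun k _ => h3 k), Finset.sum_comm, ← Finset.sum_add_distrib]
        refine Finset.sum_congr rfl fun e _ => ?_
        rw [ih (y + stepVec e), mul_add, Finset.mul_sum]
      · rw [kern_of_notMem hD, kern_of_notMem (fun h => hD h.1), zero_add]
        refine (Finset.sum_eq_zero fun k _ => ?_).symm
        refine ENNReal.tsum_eq_zero.2 fun w => ?_
        rw [hitk_succ, if_neg (fun h => hD h.1), zero_mul]

/-- hitting distribution -/
noncomputable def hitd {d : ℕ} (D T : Set (Lat d)) (y w : Lat d) : ℝ≥0∞ := ∑' k, hitk D T k y w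

lemma green_decomp {d : ℕ} (D T : Set (Lat d)) (y z : Lat d) :
    green D y z = green (D \ T) y z + ∑' w, hitd D T y w * green D w z := by
  have h1 : green D y z = ∑' m, (kern (D \ T) m y z +
      ∑ k ∈ Finset.range (m + 1), ∑' w, hitk D T k y w * kern D (m - k) w z) :=
    tsum_congr fun m => kern_decomp D T m y z
  rw [h1, ENNReal.tsum_add]
  congr 1
  have h2 : ∀ m, ∑ k ∈ Finset.range (m + 1), ∑' w, hitk D T k y w * kern D (m - k) w z =
      ∑' w, ∑ k ∈ Finset.range (m + 1), hitk D T k y w * kern D (m - k) w z := fun m =>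
    (Summable.tsum_finsetSum (fun _ _ => ENNReal.summable)).symm
  simp_rw [h2]
  rw [ENNReal.tsum_comm]
  refine tsum_congr fun w => ?_
  rw [tsum_conv (fun k => hitk D T k y w) (fun k => kern D k w z)]
  rfl

/-- the total hitting probability is at most one -/
lemma tsum_hitd_le {d : ℕ} (hd : 1 ≤ d) (D T : Set (Lat d)) (y : Lat d) :
    ∑' w, hitd D T y w ≤ 1 := by
  have h1 : ∀ n (y : Lat d), ∑ k ∈ Finset.range n, ∑' w, hitk D T k y w ≤ 1 := by
    intro n
    induction n with
    | zero => intro y; simp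
    | succ n ih =>
      intro y
      rw [Finset.sum_range_succ']
      by_cases hT : y ∈ T
      · have h2 : ∀ k, ∑' w, hitk D T (k + 1) y w = 0 := by
          intro k
          refine ENNReal.tsum_eq_zero.2 fun w => ?_
          rw [hitk_succ, if_neg (fun h => h.2 hT)]
        rw [Finset.sum_eq_zero (fun k _ => h2 k), zero_add, tsum_eq_single y]
        · rw [hitk_zero, if_pos ⟨rfl, hT⟩]
        · intro w hw
          rw [hitk_zero, if_neg (fun h => hw h.1.symm)]
      · have h0 : ∑' w, hitk D T 0 y w = 0 := by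
          refine ENNReal.tsum_eq_zero.2 fun w => ?_
          rw [hitk_zero, if_neg (fun h => hT h.2)]
        rw [h0, add_zero]
        by_cases hD : y ∈ D
        · have h3 : ∀ k, ∑' w, hitk D T (k + 1) y w =
              ∑ e : Step d, (2 * (d : ℝ≥0∞))⁻¹ * ∑' w, hitk D T k (y + stepVec e) w := by
            intro k
            simp_rw [← ENNReal.tsum_mul_left]
            rw [← Summable.tsum_finsetSum (fun _ _ => ENNReal.summable)]
            refine tsum_congr fun w => ?_
            rw [hitk_succ, if_pos (show y ∈ D \ T from ⟨hD, hT⟩)]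
          rw [Finset.sum_congr rfl (fun k _ => h3 k), Finset.sum_comm]
          calc ∑ e : Step d, ∑ k ∈ Finset.range n,
                (2 * (d : ℝ≥0∞))⁻¹ * ∑' w, hitk D T k (y + stepVec e) w
              = ∑ e : Step d, (2 * (d : ℝ≥0∞))⁻¹ *
                  ∑ k ∈ Finset.range n, ∑' w, hitk D T k (y + stepVec e) w := by
                refine Finset.sum_congr rfl fun e _ => ?_
                rw [Finset.mul_sum]
            _ ≤ ∑ _e : Step d, (2 * (d : ℝ≥0∞))⁻¹ * 1 :=
                Finset.sum_le_sum fun e _ => mul_le_mul_right (ih _) _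
            _ = 1 := sum_step_const hd 1
        · rw [Finset.sum_eq_zero]
          · exact zero_le_one
          · intro k _
            refine ENNReal.tsum_eq_zero.2 fun w => ?_
            rw [hitk_succ, if_neg (fun h => hD h.1)]
  unfold hitd
  rw [ENNReal.tsum_comm]
  exact ENNReal.tsum_le_of_sum_range_le fun n => h1 n y

end Pool.Agent.LoopPerc.Cap
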