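import Pool.Agent.LoopPerc.Cap1

/-!
# Green function algebra, part 2: symmetry, translations, removal of a point
-/

namespace Pool.Agent.LoopPerc.Cap

open MeasureTheory ProbabilityTheory Filter Topology
open scoped ENNReal NNReal

/-- the opposite step -/
def negStep (d : ℕ) : Equiv.Perm (Step d) where
  toFun e := (e.1, !e.2)
  invFun e := (e.1, !e.2)
  left_inv e := by simp
  right_inv e := by simp

lemma stepVec_negStep {d : ℕ} (e : Step d) : stepVec (negStep d e) = - stepVec e := by
  obtain ⟨i, b⟩ := e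
  unfold stepVec negStep
  simp only [Equiv.coe_fn_mk]
  rw [← Pi.single_neg]
  congr 1
  cases b <;> simp

/-- last step decomposition -/
lemma kern_succ_last {d : ℕ} (D : Set (Lat d)) (m : ℕ) (x y : Lat d) :
    (y ∈ D → kern D (m + 1) x y =
      ∑ e : Step d, (2 * (d : ℝ≥0∞))⁻¹ * kern D m x (y + stepVec e)) := by
  intro hy
  induction m generalizing x with
  | zero =>
    rw [kern_succ]
    split_ifs with hx
    · rw [← Equiv.sum_comp (negStep d)]
      refine Finset.sum_congr rfl fun e _ => ?_
      rw [kern_zero, kern_zero, stepVec_negStep]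
      congr 1
      by_cases h : x = y + stepVec e
      · subst h
        rw [if_pos ⟨by abel, by simpa using hy⟩, if_pos ⟨rfl, hx⟩]
      · rw [if_neg, if_neg (fun h' => h h'.1)]
        rintro ⟨h1, -⟩
        exact h (by rw [← h1]; abel)
    · symm
      refine Finset.sum_eq_zero fun e _ => ?_
      rw [kern_of_notMem hx, mul_zero]
  | succ m ih =>
    rw [kern_succ]
    split_ifs with hx
    · simp_rw [ih]
      have h2 : ∀ e : Step d, kern D (m + 1) x (y + stepVec e) =
          ∑ e' : Step d, (2 * (d : ℝ≥0∞))⁻¹ * kern D m (x + stepVec e') (y + stepVec e) := by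
        intro e
        rw [kern_succ, if_pos hx]
      simp_rw [h2, Finset.mul_sum]
      rw [Finset.sum_comm]
    · symm
      refine Finset.sum_eq_zero fun e _ => ?_
      rw [kern_of_notMem hx, mul_zero]

lemma kern_symm {d : ℕ} (D : Set (Lat d)) (m : ℕ) (x y : Lat d) :
    kern D m x y = kern D m y x := by
  induction m generalizing x y with
  | zero =>
    rw [kern_zero, kern_zero]
    by_cases h : x = y
    · subst h; rfl
    · rw [if_neg (fun h' => h h'.1), if_neg (fun h' => h h'.1.symm)]
  | succ m ih =>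
    by_cases hx : x ∈ D
    · rw [kern_succ, if_pos hx, kern_succ_last D m y x hx]
      refine Finset.sum_congr rfl fun e _ => ?_
      rw [ih]
    · rw [kern_of_notMem hx, kern_of_notMem_right hx]

lemma green_symm {d : ℕ} (D : Set (Lat d)) (x y : Lat d) : green D x y = green D y x :=
  tsum_congr fun m => kern_symm D m x y

lemma kern_add_right {d : ℕ} (D : Set (Lat d)) (v : Lat d) (m : ℕ) (x y : Lat d) :
    kern D m (x + v) (y + v) = kern {u | u + v ∈ D} m x y := by
  induction m generalizing x with
  | zero =>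
    rw [kern_zero, kern_zero]
    by_cases h : x = y ∧ x + v ∈ D
    · rw [if_pos ⟨by rw [h.1], h.2⟩, if_pos (show x = y ∧ x ∈ {u | u + v ∈ D} from h)]
    · rw [if_neg, if_neg (show ¬ (x = y ∧ x ∈ {u | u + v ∈ D}) from h)]
      rintro ⟨h1, h2⟩
      exact h ⟨add_right_cancel h1, h2⟩
  | succ m ih =>
    rw [kern_succ, kern_succ]
    by_cases h : x + v ∈ D
    · rw [if_pos h, if_pos (show x ∈ {u | u + v ∈ D} from h)]
      refine Finset.sum_congr rfl fun e _ => ?_
      rw [show x + v + stepVec e = (x + stepVec e) + v by abel, ih]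
    · rw [if_neg h, if_neg (show x ∉ {u | u + v ∈ D} from h)]

lemma green_add_right {d : ℕ} (D : Set (Lat d)) (v : Lat d) (x y : Lat d) :
    green D (x + v) (y + v) = green {u | u + v ∈ D} x y :=
  tsum_congr fun m => kern_add_right D v m x y

lemma green_univ_add_right {d : ℕ} (v : Lat d) (x y : Lat d) :
    green Set.univ (x + v) (y + v) = green Set.univ x y := by
  rw [green_add_right]; rfl

lemma green_mono {d : ℕ} {D D' : Set (Lat d)} (h : D ⊆ D') (x y : Lat d) :
    green D x y ≤ green D' x y := ENNReal.tsum_le_tsum fun m => kern_mono h m x y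

lemma green_of_notMem {d : ℕ} {D : Set (Lat d)} {x : Lat d} (hx : x ∉ D) (y : Lat d) :
    green D x y = 0 := by
  unfold green
  simp [kern_of_notMem hx]

lemma green_of_notMem_right {d : ℕ} {D : Set (Lat d)} {y : Lat d} (hy : y ∉ D) (x : Lat d) :
    green D x y = 0 := by
  unfold green
  simp [kern_of_notMem_right hy]

lemma one_le_green {d : ℕ} {D : Set (Lat d)} {a : Lat d} (ha : a ∈ D) : 1 ≤ green D a a := by
  refine le_trans (le_of_eq ?_) (ENNReal.le_tsum 0)
  rw [kern_zero, if_pos ⟨rfl, ha⟩]

lemma green_decomp_point {d : ℕ} (D : Set (Lat d)) (a y z : Lat d) :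
    green D y z = green (D \ {a}) y z + hitd D {a} y a * green D a z := by
  rw [green_decomp D {a} y z, tsum_eq_single a]
  intro w hw
  have : hitd D {a} y w = 0 := by
    unfold hitd
    simp [hitk_of_notMem_T (show w ∉ ({a} : Set (Lat d)) from hw)]
  rw [this, zero_mul]

lemma green_to_point {d : ℕ} (D : Set (Lat d)) (a y : Lat d) :
    green D y a = hitd D {a} y a * green D a a := by
  have h := green_decomp_point D a y a
  rwa [green_of_notMem_right (fun h : a ∈ D \ {a} => h.2 rfl), zero_add] at h

lemma hitd_point_le {d : ℕ} (hd : 1 ≤ d) (D T : Set (Lat d)) (y a : Lat d) :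
    hitd D T y a ≤ 1 := (ENNReal.le_tsum a).trans (tsum_hitd_le hd D T y)

lemma green_le_diag {d : ℕ} (hd : 1 ≤ d) (D : Set (Lat d)) (y a : Lat d) :
    green D y a ≤ green D a a := by
  rw [green_to_point]
  calc hitd D {a} y a * green D a a ≤ 1 * green D a a := by
        exact mul_le_mul_left (hitd_point_le hd _ _ _ _) _
    _ = green D a a := one_mul _

lemma green_univ_diag {d : ℕ} (a : Lat d) :
    green Set.univ a a = green Set.univ (0 : Lat d) 0 := by
  have := green_univ_add_right a (0 : Lat d) 0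
  rwa [zero_add] at this

lemma green_ne_top {d : ℕ} (hd : 1 ≤ d) (hG : green (Set.univ : Set (Lat d)) 0 0 ≠ ⊤)
    (D : Set (Lat d)) (y z : Lat d) : green D y z ≠ ⊤ := by
  refine ne_top_of_le_ne_top hG ?_
  calc green D y z ≤ green Set.univ y z := green_mono (Set.subset_univ _) _ _
    _ ≤ green Set.univ z z := green_le_diag hd _ _ _
    _ = green Set.univ 0 0 := green_univ_diag z

/-- real version of the Green function -/
noncomputable def gr {d : ℕ} (D : Set (Lat d)) (x y : Lat d) : ℝ := (green D x y).toReal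

lemma gr_nonneg {d : ℕ} (D : Set (Lat d)) (x y : Lat d) : 0 ≤ gr D x y := ENNReal.toReal_nonneg

lemma gr_symm {d : ℕ} (D : Set (Lat d)) (x y : Lat d) : gr D x y = gr D y x := by
  unfold gr; rw [green_symm]

lemma gr_mono {d : ℕ} (hd : 1 ≤ d) (hG : green (Set.univ : Set (Lat d)) 0 0 ≠ ⊤)
    {D D' : Set (Lat d)} (h : D ⊆ D') (x y : Lat d) : gr D x y ≤ gr D' x y :=
  ENNReal.toReal_mono (green_ne_top hd hG _ _ _) (green_mono h x y)

lemma one_le_gr {d : ℕ} (hd : 1 ≤ d) (hG : green (Set.univ : Set (Lat d)) 0 0 ≠ ⊤)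
    {D : Set (Lat d)} {a : Lat d} (ha : a ∈ D) : 1 ≤ gr D a a := by
  have := ENNReal.toReal_mono (green_ne_top hd hG D a a) (one_le_green ha)
  rwa [ENNReal.toReal_one] at this

theorem green_remove (d : ℕ) (hd : 1 ≤ d) (hG : green (Set.univ : Set (Lat d)) 0 0 ≠ ⊤)
    (D : Set (Lat d)) (a y z : Lat d) (ha : a ∈ D) :
    (green D y z).toReal = (green (D \ {a}) y z).toReal +
      (green D y a).toReal * (green D a z).toReal / (green D a a).toReal := by
  have h1 := green_decomp_point D a y z
  have h2 := green_to_point D a y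
  have hne : hitd D {a} y a ≠ ⊤ :=
    ne_top_of_le_ne_top ENNReal.one_ne_top (hitd_point_le hd _ _ _ _)
  rw [h1, ENNReal.toReal_add (green_ne_top hd hG _ _ _)
    (ENNReal.mul_ne_top hne (green_ne_top hd hG _ _ _)), h2, ENNReal.toReal_mul,
    ENNReal.toReal_mul]
  have h3 : (green D a a).toReal ≠ 0 := by
    have := one_le_gr hd hG ha
    unfold gr at this
    positivity
  congr 1
  field_simp

lemma gr_remove {d : ℕ} (hd : 1 ≤ d) (hG : green (Set.univ : Set (Lat d)) 0 0 ≠ ⊤)
    (D : Set (Lat d)) (a y z : Lat d) (ha : a ∈ D) :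
    gr (D \ {a}) y z = gr D y z - gr D y a * gr D a z / gr D a a := by
  have := green_remove d hd hG D a y z ha
  unfold gr
  linarith

end Pool.Agent.LoopPerc.Cap
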