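import Pool.Agent.LoopPerc.Cap2

/-!
# Green function algebra, part 3: closed walks through a point
-/

namespace Pool.Agent.LoopPerc.Cap

open MeasureTheory ProbabilityTheory Filter Topology
open scoped ENNReal NNReal

lemma inv_two_d_ne_top {d : ℕ} (hd : 1 ≤ d) : (2 * (d : ℝ≥0∞))⁻¹ ≠ ⊤ := by
  rw [ENNReal.inv_ne_top]
  have : (d : ℝ≥0∞) ≠ 0 := by exact_mod_cast (by omega : d ≠ 0)
  exact mul_ne_zero two_ne_zero this

lemma kern_ne_top {d : ℕ} (hd : 1 ≤ d) (D : Set (Lat d)) (m : ℕ) (x y : Lat d) :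
    kern D m x y ≠ ⊤ := by
  induction m generalizing x with
  | zero =>
    rw [kern_zero]
    split_ifs <;> simp
  | succ m ih =>
    rw [kern_succ]
    split_ifs
    · rw [ENNReal.sum_ne_top]
      exact fun e _ => ENNReal.mul_ne_top (inv_two_d_ne_top hd) (ih _)
    · simp

/-- first return probabilities to `a` -/
noncomputable def fret {d : ℕ} (D : Set (Lat d)) (a : Lat d) : ℕ → ℝ≥0∞
  | 0 => 0
  | k + 1 => ∑ e : Step d, (2 * (d : ℝ≥0∞))⁻¹ * hitk D {a} k (a + stepVec e) a

/-- closed walks from `a` which make their last return after `k` steps before the end -/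
noncomputable def SS {d : ℕ} (D : Set (Lat d)) (a : Lat d) (i k : ℕ) : ℝ≥0∞ :=
  ∑' x, kern D i a x * hitk D {a} k x a

lemma hitk_point_of_notMem {d : ℕ} {D : Set (Lat d)} {a x : Lat d} (ha : a ∈ D) (hx : x ∉ D)
    (k : ℕ) : hitk D {a} k x a = 0 := by
  cases k with
  | zero =>
    rw [hitk_zero, if_neg]
    rintro ⟨rfl, -⟩
    exact hx ha
  | succ k => rw [hitk_succ, if_neg (fun h => hx h.1)]

lemma hitk_succ_self {d : ℕ} (D : Set (Lat d)) (a w : Lat d) (k : ℕ) :
    hitk D {a} (k + 1) a w = 0 := by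
  rw [hitk_succ, if_neg (fun h => h.2 rfl)]

lemma SS_succ {d : ℕ} (D : Set (Lat d)) (a : Lat d) (ha : a ∈ D) (i k : ℕ) :
    SS D a (i + 1) k = SS D a i (k + 1) + kern D i a a * fret D a (k + 1) := by
  unfold SS
  have h1 : ∀ y, kern D (i + 1) a y * hitk D {a} k y a =
      ∑ e : Step d, (2 * (d : ℝ≥0∞))⁻¹ * kern D i a (y + stepVec e) * hitk D {a} k y a := by
    intro y
    by_cases hy : y ∈ D
    · rw [kern_succ_last D i a y hy, Finset.sum_mul]
    · rw [hitk_point_of_notMem ha hy]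
      simp
  simp_rw [h1]
  rw [Summable.tsum_finsetSum (fun _ _ => ENNReal.summable)]
  have h2 : ∀ e : Step d, ∑' y, (2 * (d : ℝ≥0∞))⁻¹ * kern D i a (y + stepVec e) *
      hitk D {a} k y a = ∑' x, (2 * (d : ℝ≥0∞))⁻¹ * kern D i a x *
      hitk D {a} k (x + stepVec (negStep d e)) a := by
    intro e
    rw [← (Equiv.addRight (stepVec e)).tsum_eq (fun x => (2 * (d : ℝ≥0∞))⁻¹ * kern D i a x *
      hitk D {a} k (x + stepVec (negStep d e)) a)]
    refine tsum_congr fun y => ?_
    simp only [Equiv.coe_addRight, stepVec_negStep, add_neg_cancel_right]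
  rw [Finset.sum_congr rfl (fun e _ => h2 e),
    Equiv.sum_comp (negStep d) (fun e => ∑' x, (2 * (d : ℝ≥0∞))⁻¹ * kern D i a x *
      hitk D {a} k (x + stepVec e) a),
    ← Summable.tsum_finsetSum (fun _ _ => ENNReal.summable)]
  have h3 : ∀ x, ∑ e : Step d, (2 * (d : ℝ≥0∞))⁻¹ * kern D i a x *
      hitk D {a} k (x + stepVec e) a = kern D i a x * hitk D {a} (k + 1) x a +
      (if x = a then kern D i a a * fret D a (k + 1) else 0) := by
    intro x
    have h4 : ∑ e : Step d, (2 * (d : ℝ≥0∞))⁻¹ * kern D i a x *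
        hitk D {a} k (x + stepVec e) a = kern D i a x * ∑ e : Step d, (2 * (d : ℝ≥0∞))⁻¹ *
          hitk D {a} k (x + stepVec e) a := by
      rw [Finset.mul_sum]
      refine Finset.sum_congr rfl fun e _ => ?_
      ring
    rw [h4]
    by_cases hxa : x = a
    · subst hxa
      rw [if_pos rfl, hitk_succ_self, mul_zero, zero_add]
      rfl
    · rw [if_neg hxa, add_zero]
      by_cases hx : x ∈ D
      · rw [hitk_succ, if_pos (show x ∈ D \ {a} from ⟨hx, hxa⟩)]
      · rw [kern_of_notMem_right hx, zero_mul, zero_mul]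
  simp_rw [h3]
  rw [ENNReal.tsum_add, tsum_ite_eq]

lemma SS_zero {d : ℕ} (D : Set (Lat d)) (a : Lat d) (ha : a ∈ D) (k : ℕ) :
    SS D a 0 k = if k = 0 then 1 else 0 := by
  unfold SS
  rw [tsum_eq_single a]
  · rw [kern_zero, if_pos ⟨rfl, ha⟩, one_mul]
    cases k with
    | zero => rw [hitk_zero, if_pos ⟨rfl, rfl⟩, if_pos rfl]
    | succ k => rw [hitk_succ_self, if_neg (Nat.succ_ne_zero k)]
  · intro x hx
    rw [kern_zero, if_neg (fun h => hx h.1.symm), zero_mul]

lemma SS_eq {d : ℕ} (D : Set (Lat d)) (a : Lat d) (ha : a ∈ D) (i k : ℕ) :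
    SS D a i k = (if i + k = 0 then 1 else 0) +
      ∑ l ∈ Finset.range i, kern D (i - 1 - l) a a * fret D a (k + l + 1) := by
  induction i generalizing k with
  | zero => rw [SS_zero D a ha]; simp
  | succ i ih =>
    rw [SS_succ D a ha, ih, Finset.sum_range_succ', if_neg (by omega), if_neg (by omega),
      zero_add, zero_add]
    congr 1
    refine Finset.sum_congr rfl fun l _ => ?_
    congr 2
    · omega
    · congr 1; omega

lemma SS_zero_right {d : ℕ} (D : Set (Lat d)) (a : Lat d) (i : ℕ) :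
    SS D a i 0 = kern D i a a := by
  unfold SS
  rw [tsum_eq_single a]
  · rw [hitk_zero, if_pos ⟨rfl, rfl⟩, mul_one]
  · intro x hx
    rw [hitk_zero, if_neg (fun h => hx h.1), mul_zero]

/-- power series of returns and of first returns -/
noncomputable def serU {d : ℕ} (D : Set (Lat d)) (a : Lat d) : PowerSeries ℝ≥0∞ :=
  PowerSeries.mk fun m => kern D m a a

noncomputable def serF {d : ℕ} (D : Set (Lat d)) (a : Lat d) : PowerSeries ℝ≥0∞ :=
  PowerSeries.mk fun m => fret D a m

lemma serU_eq {d : ℕ} (D : Set (Lat d)) (a : Lat d) (ha : a ∈ D) :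
    serU D a = 1 + serF D a * serU D a := by
  ext m
  rw [map_add, PowerSeries.coeff_mul, Finset.Nat.sum_antidiagonal_eq_sum_range_succ
    (fun i j => PowerSeries.coeff i (serF D a) * PowerSeries.coeff j (serU D a))]
  unfold serU serF
  simp only [PowerSeries.coeff_mk, PowerSeries.coeff_one]
  rw [← SS_zero_right, SS_eq D a ha, add_zero, Finset.sum_range_succ']
  have h0 : fret D a 0 = 0 := rfl
  rw [h0, zero_mul, add_zero]
  congr 1
  refine Finset.sum_congr rfl fun l hl => ?_
  rw [Finset.mem_range] at hl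
  rw [mul_comm, zero_add]
  congr 2
  omega

/-- total mass of pairs (base point, closed walk of length `m` in `D` through `a`) -/
lemma sum_SS_eq {d : ℕ} (D : Set (Lat d)) (a : Lat d) (ha : a ∈ D) (m : ℕ) :
    ∑ k ∈ Finset.range (m + 1), SS D a (m + 1 - k) k =
      PowerSeries.coeff m (PowerSeries.derivative ℝ≥0∞ (serF D a) * serU D a) := by
  have h1 : ∀ k ∈ Finset.range (m + 1), SS D a (m + 1 - k) k =
      ∑ j ∈ Finset.Ico (k + 1) (m + 2), kern D (m + 1 - j) a a * fret D a j := by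
    intro k hk
    rw [Finset.mem_range] at hk
    rw [SS_eq D a ha, if_neg (by omega), zero_add, Finset.sum_Ico_eq_sum_range,
      show m + 2 - (k + 1) = m + 1 - k by omega]
    refine Finset.sum_congr rfl fun l hl => ?_
    rw [show m + 1 - k - 1 - l = m + 1 - (k + 1 + l) by omega,
      show k + l + 1 = k + 1 + l by omega]
  rw [Finset.sum_congr rfl h1, Finset.sum_comm' (t' := Finset.range (m + 2))
    (s' := fun j => Finset.range j)]
  · rw [PowerSeries.coeff_mul, Finset.Nat.sum_antidiagonal_eq_sum_range_succ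
      (fun i j => PowerSeries.coeff i (PowerSeries.derivative ℝ≥0∞ (serF D a)) *
        PowerSeries.coeff j (serU D a)), Finset.sum_range_succ']
    simp only [Finset.range_zero, Finset.card_empty, zero_nsmul, add_zero, Finset.sum_const,
      Finset.card_range, PowerSeries.coeff_derivative, serF, serU, PowerSeries.coeff_mk]
    refine Finset.sum_congr rfl fun j _ => ?_
    rw [nsmul_eq_mul, Nat.add_sub_add_right]
    push_cast
    ring
  · intro k j
    simp only [Finset.mem_range, Finset.mem_Ico]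
    omega

lemma coeff_serF_pow_mul {d : ℕ} (D : Set (Lat d)) (a : Lat d) (V : PowerSeries ℝ≥0∞)
    {j k : ℕ} (h : j < k) : PowerSeries.coeff j (serF D a ^ k * V) = 0 := by
  have h1 : (PowerSeries.X : PowerSeries ℝ≥0∞) ∣ serF D a := by
    rw [PowerSeries.X_dvd_iff, ← PowerSeries.coeff_zero_eq_constantCoeff_apply]
    unfold serF
    rw [PowerSeries.coeff_mk]
    rfl
  have h2 : (PowerSeries.X : PowerSeries ℝ≥0∞) ^ k ∣ serF D a ^ k * V :=
    (pow_dvd_pow_of_dvd h1 k).mul_right V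
  exact PowerSeries.X_pow_dvd_iff.1 h2 j h

lemma coeff_serF_pow {d : ℕ} (D : Set (Lat d)) (a : Lat d)
    {j k : ℕ} (h : j < k) : PowerSeries.coeff j (serF D a ^ k) = 0 := by
  have := coeff_serF_pow_mul D a 1 h
  rwa [mul_one] at this

lemma coeff_serU_eq {d : ℕ} (D : Set (Lat d)) (a : Lat d) (ha : a ∈ D) (j : ℕ) :
    PowerSeries.coeff j (serU D a) = ∑' k, PowerSeries.coeff j (serF D a ^ k) := by
  have h1 : ∀ K, serU D a = ∑ k ∈ Finset.range K, serF D a ^ k + serF D a ^ K * serU D a := by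
    intro K
    induction K with
    | zero => simp
    | succ K ih =>
      rw [Finset.sum_range_succ]
      calc serU D a = ∑ k ∈ Finset.range K, serF D a ^ k + serF D a ^ K * serU D a := ih
        _ = ∑ k ∈ Finset.range K, serF D a ^ k +
            serF D a ^ K * (1 + serF D a * serU D a) := by rw [← serU_eq D a ha]
        _ = _ := by ring
  rw [h1 (j + 1), map_add, coeff_serF_pow_mul D a _ (Nat.lt_succ_self j), add_zero, map_sum,
    tsum_eq_sum (s := Finset.range (j + 1))]
  intro k hk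
  exact coeff_serF_pow D a (by simpa using hk)

lemma tsum_coeff_mul (f g : PowerSeries ℝ≥0∞) :
    ∑' m, PowerSeries.coeff m (f * g) =
      (∑' m, PowerSeries.coeff m f) * ∑' m, PowerSeries.coeff m g := by
  rw [← tsum_conv]
  refine tsum_congr fun m => ?_
  rw [PowerSeries.coeff_mul, Finset.Nat.sum_antidiagonal_eq_sum_range_succ
    (fun i j => PowerSeries.coeff i f * PowerSeries.coeff j g)]

lemma tsum_coeff_pow (f : PowerSeries ℝ≥0∞) (k : ℕ) :
    ∑' m, PowerSeries.coeff m (f ^ k) = (∑' m, PowerSeries.coeff m f) ^ k := by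
  induction k with
  | zero =>
    rw [pow_zero, pow_zero, tsum_eq_single 0]
    · simp
    · intro m hm
      rw [PowerSeries.coeff_one, if_neg hm]
  | succ k ih => rw [pow_succ, tsum_coeff_mul, ih, pow_succ]

/-- total first return probability -/
noncomputable def retF {d : ℕ} (D : Set (Lat d)) (a : Lat d) : ℝ≥0∞ := ∑' m, fret D a m

lemma green_eq_one_add {d : ℕ} (D : Set (Lat d)) (a : Lat d) (ha : a ∈ D) :
    green D a a = 1 + retF D a * green D a a := by
  have h1 : green D a a = ∑' m, PowerSeries.coeff m (serU D a) := by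
    unfold serU green
    simp only [PowerSeries.coeff_mk]
  have h2 : retF D a = ∑' m, PowerSeries.coeff m (serF D a) := by
    unfold serF retF
    simp only [PowerSeries.coeff_mk]
  have h3 : ∑' m, PowerSeries.coeff m (serU D a) =
      ∑' m, PowerSeries.coeff m (1 + serF D a * serU D a) := by
    conv_lhs => rw [serU_eq D a ha]
  have h4 : ∑' m, PowerSeries.coeff m (1 : PowerSeries ℝ≥0∞) = 1 := by
    have := tsum_coeff_pow (1 : PowerSeries ℝ≥0∞) 0
    rwa [pow_zero, pow_zero] at this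
  rw [h1, h2]
  calc ∑' m, PowerSeries.coeff m (serU D a)
      = ∑' m, PowerSeries.coeff m (1 + serF D a * serU D a) := h3
    _ = _ := by
      simp_rw [map_add]
      rw [ENNReal.tsum_add, tsum_coeff_mul, h4]

lemma tsum_SS_eq {d : ℕ} (D : Set (Lat d)) (a : Lat d) (ha : a ∈ D) :
    ∑' n : ℕ, ((n : ℝ≥0∞) + 1)⁻¹ * ∑ k ∈ Finset.range (n + 1), SS D a (n + 1 - k) k =
      ∑' k : ℕ, ((k : ℝ≥0∞) + 1)⁻¹ * retF D a ^ (k + 1) := by
  have h1 : ∀ n : ℕ, ((n : ℝ≥0∞) + 1)⁻¹ * ∑ k ∈ Finset.range (n + 1), SS D a (n + 1 - k) k =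
      ∑' k : ℕ, ((k : ℝ≥0∞) + 1)⁻¹ * PowerSeries.coeff (n + 1) (serF D a ^ (k + 1)) := by
    intro n
    rw [sum_SS_eq D a ha]
    have h2 : PowerSeries.coeff n (PowerSeries.derivative ℝ≥0∞ (serF D a) * serU D a) =
        ∑' k, PowerSeries.coeff n (PowerSeries.derivative ℝ≥0∞ (serF D a) * serF D a ^ k) := by
      rw [PowerSeries.coeff_mul]
      simp_rw [PowerSeries.coeff_mul]
      rw [Summable.tsum_finsetSum (fun _ _ => ENNReal.summable)]
      refine Finset.sum_congr rfl fun p _ => ?_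
      rw [ENNReal.tsum_mul_left, ← coeff_serU_eq D a ha]
    rw [h2, ← ENNReal.tsum_mul_left]
    refine tsum_congr fun k => ?_
    have h3 := congrArg (PowerSeries.coeff n) (PowerSeries.derivative_pow (serF D a) (k + 1))
    rw [PowerSeries.coeff_derivative, Nat.add_sub_cancel] at h3
    have h4 : PowerSeries.coeff n (((k + 1 : ℕ) : PowerSeries ℝ≥0∞) * serF D a ^ k *
        PowerSeries.derivative ℝ≥0∞ (serF D a)) = ((k : ℝ≥0∞) + 1) *
        PowerSeries.coeff n (PowerSeries.derivative ℝ≥0∞ (serF D a) * serF D a ^ k) := by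
      rw [mul_assoc, ← nsmul_eq_mul, map_nsmul, nsmul_eq_mul,
        mul_comm (serF D a ^ k) _]
      push_cast
      rfl
    rw [h4] at h3
    set x := PowerSeries.coeff n (PowerSeries.derivative ℝ≥0∞ (serF D a) * serF D a ^ k)
    set y := PowerSeries.coeff (n + 1) (serF D a ^ (k + 1))
    have hn0 : (n : ℝ≥0∞) + 1 ≠ 0 := by positivity
    have hn1 : (n : ℝ≥0∞) + 1 ≠ ⊤ := by simp
    have hk0 : (k : ℝ≥0∞) + 1 ≠ 0 := by positivity
    have hk1 : (k : ℝ≥0∞) + 1 ≠ ⊤ := by simp
    calc ((n : ℝ≥0∞) + 1)⁻¹ * x = ((n : ℝ≥0∞) + 1)⁻¹ * (((k : ℝ≥0∞) + 1)⁻¹ *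
          (((k : ℝ≥0∞) + 1) * x)) := by
            rw [← mul_assoc (((k : ℝ≥0∞) + 1)⁻¹), ENNReal.inv_mul_cancel hk0 hk1, one_mul]
      _ = ((n : ℝ≥0∞) + 1)⁻¹ * (((k : ℝ≥0∞) + 1)⁻¹ * (y * ((n : ℝ≥0∞) + 1))) := by rw [← h3]
      _ = ((k : ℝ≥0∞) + 1)⁻¹ * y * (((n : ℝ≥0∞) + 1)⁻¹ * ((n : ℝ≥0∞) + 1)) := by ring
      _ = ((k : ℝ≥0∞) + 1)⁻¹ * y := by rw [ENNReal.inv_mul_cancel hn0 hn1, mul_one]
  simp_rw [h1]
  rw [ENNReal.tsum_comm]
  refine tsum_congr fun k => ?_
  rw [ENNReal.tsum_mul_left]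
  congr 1
  have h5 : retF D a = ∑' m, PowerSeries.coeff m (serF D a) := by
    unfold serF retF
    simp only [PowerSeries.coeff_mk]
  rw [h5, ← tsum_coeff_pow, tsum_eq_zero_add'
    (f := fun m => PowerSeries.coeff m (serF D a ^ (k + 1))) ENNReal.summable,
    coeff_serF_pow D a (Nat.succ_pos k), zero_add]

lemma tsum_retF_eq {d : ℕ} (hd : 1 ≤ d) (hG : green (Set.univ : Set (Lat d)) 0 0 ≠ ⊤)
    (D : Set (Lat d)) (a : Lat d) (ha : a ∈ D) :
    ∑' k : ℕ, ((k : ℝ≥0∞) + 1)⁻¹ * retF D a ^ (k + 1) =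
      ENNReal.ofReal (Real.log (green D a a).toReal) := by
  have hg := green_eq_one_add D a ha
  have hne := green_ne_top hd hG D a a
  have h1 := one_le_gr hd hG ha
  unfold gr at h1
  have hmul : retF D a * green D a a ≠ ⊤ := by
    intro h
    rw [h] at hg
    exact hne (by rw [hg]; simp)
  have hF : retF D a ≠ ⊤ := by
    intro h
    rw [h, ENNReal.top_mul] at hmul
    · exact hmul rfl
    · have := one_le_green ha
      intro h0
      rw [h0] at this
      simp at this
  have hg' := congrArg ENNReal.toReal hg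
  rw [ENNReal.toReal_add ENNReal.one_ne_top hmul, ENNReal.toReal_mul, ENNReal.toReal_one] at hg'
  set G := (green D a a).toReal
  set x := (retF D a).toReal with hx
  have hx0 : 0 ≤ x := ENNReal.toReal_nonneg
  have hG0 : 0 < G := by linarith
  have hx1 : 1 - x = G⁻¹ := by
    field_simp
    linarith
  have hxlt : x < 1 := by
    have : 0 < G⁻¹ := by positivity
    linarith
  have hs := Real.hasSum_pow_div_log_of_abs_lt_one (x := x) (by rw [abs_of_nonneg hx0]; exact hxlt)
  have h2 : -Real.log (1 - x) = Real.log G := by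
    rw [hx1, Real.log_inv, neg_neg]
  rw [h2] at hs
  rw [← hs.tsum_eq, ENNReal.ofReal_tsum_of_nonneg (fun n => by positivity) hs.summable]
  refine tsum_congr fun k => ?_
  rw [ENNReal.ofReal_div_of_pos (by positivity), ENNReal.ofReal_pow hx0, hx,
    ENNReal.ofReal_toReal hF, div_eq_mul_inv, mul_comm]
  congr 2
  rw [ENNReal.ofReal_add (by positivity) zero_le_one, ENNReal.ofReal_natCast, ENNReal.ofReal_one]

end Pool.Agent.LoopPerc.Cap
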