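import Pool.Agent.LoopPerc.Walk

/-!
# Loops and closed walks (package D)
-/

namespace Pool.Agent.LoopPerc

open MeasureTheory ProbabilityTheory Filter Topology
open scoped ENNReal NNReal

/-! ### positions of periodic walks -/

lemma ofNat_add' (n i j : ℕ) :
    Fin.ofNat (n + 1) (i + j) = Fin.ofNat (n + 1) i + Fin.ofNat (n + 1) j := by
  ext
  simp [Fin.ofNat, Fin.val_add, Nat.add_mod]

lemma ofNat_val (n : ℕ) (i : Fin (n + 1)) : Fin.ofNat (n + 1) (i : ℕ) = i := by
  ext
  simp [Fin.ofNat, Nat.mod_eq_of_lt i.2]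

lemma ofNat_self (n : ℕ) : Fin.ofNat (n + 1) (n + 1) = 0 := by
  ext
  simp [Fin.ofNat]

lemma ofNat_zero' (n : ℕ) : Fin.ofNat (n + 1) 0 = 0 := by
  ext
  simp [Fin.ofNat]

lemma ofNat_one' (n : ℕ) : Fin.ofNat (n + 1) 1 = 1 := by
  ext
  simp [Fin.ofNat]

section

variable {d n : ℕ}

lemma ppos_zero (w : Fin (n + 1) → Step d) : ppos w 0 = 0 := by simp [ppos]

lemma ppos_succ (w : Fin (n + 1) → Step d) (k : ℕ) :
    ppos w (k + 1) = ppos w k + stepVec (w (Fin.ofNat (n + 1) k)) := by
  rw [ppos, Finset.sum_range_succ]; rfl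

/-- (closedness is not needed) -/
lemma ppos_rot' (k i : ℕ) (w : Fin (n + 1) → Step d) :
    ppos (rot k w) i = ppos w (k + i) - ppos w k := by
  induction i with
  | zero => simp [ppos_zero]
  | succ i ih =>
    rw [ppos_succ, ih, ← add_assoc, ppos_succ, rot, ← ofNat_add', add_comm i k]
    abel

theorem ppos_rot (d n k i : ℕ) (w : Fin (n + 1) → Step d) (_hw : IsClosedWalk w) :
    ppos (rot k w) i = ppos w (k + i) - ppos w k := ppos_rot' k i w

lemma ppos_period (k : ℕ) (w : Fin (n + 1) → Step d) :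
    ppos w (k + (n + 1)) = ppos w k + ppos w (n + 1) := by
  induction k with
  | zero => simp [ppos_zero]
  | succ k ih =>
    have e : k + 1 + (n + 1) = (k + (n + 1)) + 1 := by ring
    rw [e, ppos_succ, ih, ppos_succ w k, ofNat_add', ofNat_self, add_zero]
    abel

lemma isClosedWalk_rot (k : ℕ) (w : Fin (n + 1) → Step d) :
    IsClosedWalk (rot k w) ↔ IsClosedWalk w := by
  rw [IsClosedWalk, IsClosedWalk, ppos_rot', ppos_period]
  simp

/-- rotation as a permutation -/
def rotEquiv (d n k : ℕ) : Equiv.Perm (Fin (n + 1) → Step d) :=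
  (Equiv.addRight (Fin.ofNat (n + 1) k)).symm.arrowCongr (Equiv.refl _)

lemma rotEquiv_apply (k : ℕ) (w : Fin (n + 1) → Step d) : rotEquiv d n k w = rot k w := by
  funext j
  simp [rotEquiv, rot, Equiv.arrowCongr]

end

/-- rotation invariance of sums over closed walks: re-root at time `k` -/
theorem sum_closed_rot (d n k : ℕ) (F : (Fin (n + 1) → Step d) → ℝ≥0∞) :
    ∑ w : Fin (n + 1) → Step d, (if IsClosedWalk w then F (rot k w) else 0) =
      ∑ w : Fin (n + 1) → Step d, (if IsClosedWalk w then F w else 0) := by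
  refine Fintype.sum_equiv (rotEquiv d n k) _ _ fun w => ?_
  rw [rotEquiv_apply]
  simp only [isClosedWalk_rot]

/-! ### steps -/

lemma stepVec_injective (d : ℕ) : Function.Injective (stepVec (d := d)) := by
  rintro ⟨i, a⟩ ⟨j, b⟩ h
  have h1 := congrFun h i
  have h2 := congrFun h j
  simp only [stepVec, Pi.single_eq_same] at h1 h2
  by_cases hij : i = j
  · subst hij
    rw [Pi.single_eq_same] at h1
    cases a <;> cases b <;> simp_all
  · rw [Pi.single_eq_of_ne hij] at h1
    cases a <;> simp at h1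

lemma abs_stepVec {d : ℕ} (e : Step d) : ∑ i, |stepVec e i| = 1 := by
  obtain ⟨j, b⟩ := e
  rw [Finset.sum_eq_single j]
  · cases b <;> simp [stepVec]
  · intro i _ hij
    simp [stepVec, Pi.single_eq_of_ne hij]
  · simp

lemma stepVec_ne_zero {d : ℕ} (e : Step d) : stepVec e ≠ 0 := by
  intro h
  have := abs_stepVec e
  rw [h] at this
  simp at this

lemma exists_stepVec {d : ℕ} {z : Lat d} (h : ∑ i, |z i| = 1) : ∃ e : Step d, z = stepVec e := by
  have h1 : ∃ j, z j ≠ 0 := by
    by_contra hcon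
    push Not at hcon
    rw [Finset.sum_eq_zero (fun i _ => by rw [hcon i, abs_zero])] at h
    exact zero_ne_one h
  obtain ⟨j, hj⟩ := h1
  rw [← Finset.add_sum_erase _ _ (Finset.mem_univ j)] at h
  have h2 : 1 ≤ |z j| := Int.one_le_abs hj
  have h3 : 0 ≤ ∑ i ∈ Finset.univ.erase j, |z i| := Finset.sum_nonneg fun i _ => abs_nonneg _
  have h4 : ∑ i ∈ Finset.univ.erase j, |z i| = 0 := by omega
  have h5 : |z j| = 1 := by omega
  rw [Finset.sum_eq_zero_iff_of_nonneg (fun i _ => abs_nonneg _)] at h4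
  have h6 : ∀ i, i ≠ j → z i = 0 := fun i hi =>
    abs_eq_zero.1 (h4 i (Finset.mem_erase.2 ⟨hi, Finset.mem_univ _⟩))
  rcases (abs_eq zero_le_one).1 h5 with h7 | h7
  · refine ⟨(j, true), ?_⟩
    funext i
    by_cases hi : i = j
    · subst hi; simp [stepVec, h7]
    · rw [h6 i hi]; simp [stepVec, Pi.single_eq_of_ne hi]
  · refine ⟨(j, false), ?_⟩
    funext i
    by_cases hi : i = j
    · subst hi; simp [stepVec, h7]
    · rw [h6 i hi]; simp [stepVec, Pi.single_eq_of_ne hi]

lemma Q_eq_sum {d : ℕ} (hd : 1 ≤ d) (x y : Lat d) :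
    ((Q x y : ℝ≥0) : ℝ≥0∞) = ∑ e : Step d, if y = x + stepVec e then (2 * (d : ℝ≥0∞))⁻¹ else 0 := by
  have hd0 : (2 * (d : ℝ≥0)) ≠ 0 := by
    have : (d : ℝ≥0) ≠ 0 := by exact_mod_cast (by omega : d ≠ 0)
    positivity
  by_cases h : ∑ i, |x i - y i| = 1
  · have h' : ∑ i, |(y - x) i| = 1 := by
      rw [← h]
      exact Finset.sum_congr rfl fun i _ => by rw [Pi.sub_apply, abs_sub_comm]
    obtain ⟨e, he⟩ := exists_stepVec h'
    rw [Finset.sum_eq_single e]
    · rw [Q, if_pos h, if_pos (by rw [← he]; abel)]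
      rw [one_div, ENNReal.coe_inv hd0]
      push_cast
      rfl
    · intro e' _ hne
      rw [if_neg]
      intro h2
      apply hne
      apply stepVec_injective
      rw [← he, h2]; abel
    · simp
  · rw [Q, if_neg h, ENNReal.coe_zero, Finset.sum_eq_zero]
    intro e _
    rw [if_neg]
    rintro rfl
    apply h
    rw [← abs_stepVec e]
    refine Finset.sum_congr rfl fun i _ => ?_
    rw [Pi.add_apply, sub_add_cancel_left, abs_neg]

/-! ### kernels as sums over walks -/

lemma ppos_cons {d n : ℕ} (e : Step d) (w : Fin (n + 1) → Step d) (k : ℕ) (hk : k ≤ n + 1) :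
    ppos (Fin.cons e w : Fin (n + 2) → Step d) (k + 1) = stepVec e + ppos w k := by
  induction k with
  | zero => rw [ppos_succ, ppos_zero, ppos_zero, ofNat_zero']; simp
  | succ k ih =>
    have e1 : Fin.ofNat (n + 1 + 1) (k + 1) = Fin.succ (Fin.ofNat (n + 1) k) := by
      ext
      simp only [Fin.ofNat, Fin.val_succ]
      rw [Nat.mod_eq_of_lt (by omega), Nat.mod_eq_of_lt (by omega)]
    rw [ppos_succ, ih (by omega), ppos_succ, e1, Fin.cons_succ]
    abel

lemma sum_cons {d n : ℕ} (F : (Fin (n + 2) → Step d) → ℝ≥0∞) :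
    ∑ w : Fin (n + 2) → Step d, F w =
      ∑ e : Step d, ∑ w : Fin (n + 1) → Step d, F (Fin.cons e w : Fin (n + 2) → Step d) := by
  rw [← (Fin.consEquiv (fun _ : Fin (n + 2) => Step d)).sum_comp, Fintype.sum_prod_type]
  rfl

open Classical in
theorem kern_succ_eq_sum (d : ℕ) (D : Set (Lat d)) (n : ℕ) (x y : Lat d) :
    kern D (n + 1) x y = ∑ w : Fin (n + 1) → Step d,
      if x + ppos w (n + 1) = y ∧ ∀ k ≤ n + 1, x + ppos w k ∈ D then
        ((2 * (d : ℝ≥0∞))⁻¹) ^ (n + 1) else 0 := by
  induction n generalizing x with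
  | zero =>
    rw [← (Equiv.funUnique (Fin 1) (Step d)).symm.sum_comp, kern]
    by_cases hx : x ∈ D
    · rw [if_pos hx]
      refine Finset.sum_congr rfl fun e _ => ?_
      have e1 : ppos ((Equiv.funUnique (Fin 1) (Step d)).symm e) 1 = stepVec e := by
        rw [ppos_succ, ppos_zero, zero_add]; rfl
      rw [kern, zero_add, pow_one, e1]
      have e2 : (∀ k ≤ 1, x + ppos ((Equiv.funUnique (Fin 1) (Step d)).symm e) k ∈ D) ↔
          x + stepVec e ∈ D := by
        constructor
        · intro h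
          rw [← e1]; exact h 1 le_rfl
        · intro h k hk
          rcases Nat.le_one_iff_eq_zero_or_eq_one.1 hk with rfl | rfl
          · rw [ppos_zero, add_zero]; exact hx
          · rw [e1]; exact h
      simp only [e2, mul_ite, mul_one, mul_zero]
    · rw [if_neg hx]
      symm
      apply Finset.sum_eq_zero
      intro e _
      rw [if_neg]
      rintro ⟨-, h⟩
      have := h 0 (Nat.zero_le _)
      rw [ppos_zero, add_zero] at this
      exact hx this
  | succ n ih =>
    rw [kern, sum_cons]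
    by_cases hx : x ∈ D
    · rw [if_pos hx]
      refine Finset.sum_congr rfl fun e _ => ?_
      rw [ih, Finset.mul_sum]
      refine Finset.sum_congr rfl fun w _ => ?_
      rw [ppos_cons e w (n + 1) le_rfl]
      have e2 : (∀ k ≤ n + 1 + 1, x + ppos (Fin.cons e w : Fin (n + 2) → Step d) k ∈ D) ↔
          ∀ k ≤ n + 1, x + stepVec e + ppos w k ∈ D := by
        constructor
        · intro h k hk
          have := h (k + 1) (by omega)
          rw [ppos_cons e w k hk, ← add_assoc] at this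
          exact this
        · intro h k hk
          rcases k with _ | k
          · rw [ppos_zero, add_zero]; exact hx
          · rw [ppos_cons e w k (by omega), ← add_assoc]
            exact h k (by omega)
      simp only [e2, ← add_assoc, mul_ite, mul_zero, ← pow_succ']
    · rw [if_neg hx]
      symm
      apply Finset.sum_eq_zero
      intro e _
      apply Finset.sum_eq_zero
      intro w _
      rw [if_neg]
      rintro ⟨-, h⟩
      have := h 0 (Nat.zero_le _)
      rw [ppos_zero, add_zero] at this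
      exact hx this

/-! ### loops and based walks -/

section Lists

variable {d : ℕ}

lemma rotate_ofFn {α : Type*} {n : ℕ} (v : Fin (n + 1) → α) (k : ℕ) :
    (List.ofFn v).rotate k = List.ofFn fun i => v (i + Fin.ofNat (n + 1) k) := by
  apply List.ext_getElem
  · simp
  · intro i h1 h2
    rw [List.getElem_rotate]
    simp only [List.getElem_ofFn, List.length_ofFn]
    congr 1
    ext
    simp only [Fin.val_add, Fin.ofNat]
    rw [Nat.add_mod_mod]

lemma zipWith_ofFn {α β γ : Type*} (f : α → β → γ) {n : ℕ} (u : Fin n → α) (v : Fin n → β) :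
    List.zipWith f (List.ofFn u) (List.ofFn v) = List.ofFn fun i => f (u i) (v i) := by
  apply List.ext_getElem
  · simp
  · intro i h1 h2
    simp

lemma basedWeight_ofFn {n : ℕ} (v : Fin (n + 1) → Lat d) :
    ((basedWeight (List.ofFn v) : ℝ≥0) : ℝ≥0∞) =
      if 2 ≤ n + 1 then ((n : ℝ≥0∞) + 1)⁻¹ * ∏ i, ((Q (v i) (v (i + 1)) : ℝ≥0) : ℝ≥0∞) else 0 := by
  rw [basedWeight, List.length_ofFn]
  by_cases h : 2 ≤ n + 1
  · rw [if_pos h, if_pos h, rotate_ofFn, zipWith_ofFn, List.prod_ofFn]
    have hn : ((n + 1 : ℕ) : ℝ≥0) ≠ 0 := by exact_mod_cast Nat.succ_ne_zero n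
    rw [div_eq_mul_inv, mul_comm, ENNReal.coe_mul, ENNReal.coe_inv hn, ENNReal.ofNNReal_finsetProd]
    rw [ofNat_one']
    push_cast
    rfl
  · rw [if_neg h, if_neg h, ENNReal.coe_zero]

lemma closed_iff {n : ℕ} (v : Fin (n + 1) → Lat d) (w : Fin (n + 1) → Step d) :
    (∀ i, v (i + 1) = v i + stepVec (w i)) ↔
      (IsClosedWalk w ∧ ∀ k : Fin (n + 1), v k = v 0 + ppos w k) := by
  constructor
  · intro h
    have h1 : ∀ k : ℕ, v (Fin.ofNat (n + 1) k) = v 0 + ppos w k := by
      intro k
      induction k with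
      | zero => rw [ofNat_zero', ppos_zero, add_zero]
      | succ k ih => rw [ofNat_add', ofNat_one', h, ih, ppos_succ, add_assoc]
    refine ⟨?_, fun k => ?_⟩
    · have h2 := h1 (n + 1)
      rw [ofNat_self] at h2
      rw [IsClosedWalk]
      exact left_eq_add.1 h2
    · have := h1 k
      rwa [ofNat_val] at this
  · rintro ⟨h0, h1⟩ i
    have h2 : ∀ k : ℕ, k ≤ n + 1 → v (Fin.ofNat (n + 1) k) = v 0 + ppos w k := by
      intro k hk
      rcases hk.lt_or_eq with hk | rfl
      · have := h1 (Fin.ofNat (n + 1) k)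
        rw [this]
        congr 2
        simp [Fin.ofNat, Nat.mod_eq_of_lt hk]
      · rw [ofNat_self, h0, add_zero]
    have h3 := h2 (i + 1) (by omega)
    rw [ofNat_add', ofNat_val, ofNat_one', ppos_succ, ofNat_val, ← add_assoc, ← h1] at h3
    exact h3

open Classical in
lemma prod_Q (hd : 1 ≤ d) {n : ℕ} (v : Fin (n + 1) → Lat d) :
    ∏ i, ((Q (v i) (v (i + 1)) : ℝ≥0) : ℝ≥0∞) =
      ∑ w : Fin (n + 1) → Step d,
        if IsClosedWalk w ∧ ∀ k : Fin (n + 1), v k = v 0 + ppos w k then
          ((2 * (d : ℝ≥0∞))⁻¹) ^ (n + 1) else 0 := by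
  simp only [Q_eq_sum hd]
  rw [Finset.prod_univ_sum, Fintype.piFinset_univ]
  refine Finset.sum_congr rfl fun w _ => ?_
  rw [Finset.prod_ite_zero]
  simp only [Finset.mem_univ, true_implies, closed_iff, Finset.prod_const, Finset.card_univ,
    Fintype.card_fin]

lemma not_closed_zero (w : Fin (0 + 1) → Step d) : ¬ IsClosedWalk w := by
  intro h
  rw [IsClosedWalk, ppos_succ, ppos_zero, zero_add] at h
  exact stepVec_ne_zero _ h

open Classical in
lemma tsum_walk {n : ℕ} (w : Fin (n + 1) → Step d) (G : (Fin (n + 1) → Lat d) → ℝ≥0∞) :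
    ∑' v : Fin (n + 1) → Lat d, (if ∀ k : Fin (n + 1), v k = v 0 + ppos w k then G v else 0) =
      ∑' x : Lat d, G fun k => x + ppos w k := by
  have hinj : Function.Injective fun (x : Lat d) => fun (k : Fin (n + 1)) => x + ppos w k := by
    intro x y hxy
    have := congrFun hxy 0
    simpa using this
  rw [← hinj.tsum_eq]
  · refine tsum_congr fun x => ?_
    rw [if_pos]
    intro k
    have : ppos w ((0 : Fin (n + 1)) : ℕ) = 0 := ppos_zero w
    show x + ppos w k = x + ppos w ((0 : Fin (n + 1)) : ℕ) + ppos w k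
    rw [this, add_zero]
  · intro v hv
    rw [Function.mem_support] at hv
    refine ⟨v 0, ?_⟩
    by_contra hne
    apply hv
    rw [if_neg]
    intro h
    exact hne (funext fun k => (h k).symm)

lemma tsum_fixed_length (hd : 1 ≤ d) (n : ℕ) (h : List (Lat d) → ℝ≥0∞) :
    ∑' v : Fin (n + 1) → Lat d, ((basedWeight (List.ofFn v) : ℝ≥0) : ℝ≥0∞) * h (List.ofFn v) =
      ∑' x : Lat d, ∑ w : Fin (n + 1) → Step d,
        if IsClosedWalk w then
          ((n : ℝ≥0∞) + 1)⁻¹ * ((2 * (d : ℝ≥0∞))⁻¹) ^ (n + 1) * h (verts x w)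
        else 0 := by
  classical
  by_cases hn : 2 ≤ n + 1
  · have h1 : ∀ v : Fin (n + 1) → Lat d,
        ((basedWeight (List.ofFn v) : ℝ≥0) : ℝ≥0∞) * h (List.ofFn v) =
        ∑' w : Fin (n + 1) → Step d, if ∀ k : Fin (n + 1), v k = v 0 + ppos w k then
          (if IsClosedWalk w then ((n : ℝ≥0∞) + 1)⁻¹ * ((2 * (d : ℝ≥0∞))⁻¹) ^ (n + 1) *
            h (List.ofFn v) else 0) else 0 := by
      intro v
      rw [basedWeight_ofFn, if_pos hn, prod_Q hd, Finset.mul_sum, Finset.sum_mul, tsum_fintype]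
      refine Finset.sum_congr rfl fun w _ => ?_
      by_cases h1 : ∀ k : Fin (n + 1), v k = v 0 + ppos w k
      · by_cases h2 : IsClosedWalk w
        · rw [if_pos ⟨h2, h1⟩, if_pos h1, if_pos h2]
        · rw [if_neg (fun h => h2 h.1), if_pos h1, if_neg h2, mul_zero, zero_mul]
      · rw [if_neg (fun h => h1 h.2), if_neg h1, mul_zero, zero_mul]
    rw [tsum_congr h1, ENNReal.tsum_comm]
    simp only [tsum_walk _ (fun v => if IsClosedWalk _ then _ * h (List.ofFn v) else 0)]
    rw [ENNReal.tsum_comm]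
    refine tsum_congr fun x => ?_
    rw [tsum_fintype]
    rfl
  · have hn0 : n = 0 := by omega
    subst hn0
    have h1 : ∀ v : Fin (0 + 1) → Lat d,
        ((basedWeight (List.ofFn v) : ℝ≥0) : ℝ≥0∞) * h (List.ofFn v) = 0 := by
      intro v
      rw [basedWeight_ofFn, if_neg hn, zero_mul]
    rw [tsum_congr h1, tsum_zero]
    symm
    rw [ENNReal.tsum_eq_zero]
    intro x
    apply Finset.sum_eq_zero
    intro w _
    rw [if_neg (not_closed_zero w)]

lemma tsum_list_eq {α : Type*} (F : List α → ℝ≥0∞) :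
    ∑' l : List α, F l = F [] + ∑' n : ℕ, ∑' v : Fin (n + 1) → α, F (List.ofFn v) := by
  have key : ∑' l : List α, F l = ∑' n : ℕ, ∑' v : Fin n → α, F (List.ofFn v) := by
    rw [← List.equivSigmaTuple.symm.tsum_eq, ENNReal.tsum_sigma']
    exact tsum_congr fun n => tsum_congr fun v => rfl
  have h0 : ∑' v : Fin 0 → α, F (List.ofFn v) = F [] := by
    have hu : ∀ v : Fin 0 → α, F (List.ofFn v) = F [] := fun v => by rw [List.ofFn_zero]
    rw [tsum_congr hu, tsum_fintype, Finset.sum_const]
    simp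
  rw [key, tsum_eq_zero_add' ENNReal.summable, h0]

lemma tsum_lists (hd : 1 ≤ d) (h : List (Lat d) → ℝ≥0∞) :
    ∑' l : List (Lat d), ((basedWeight l : ℝ≥0) : ℝ≥0∞) * h l =
      ∑' x : Lat d, ∑' n : ℕ, ∑ w : Fin (n + 1) → Step d,
        if IsClosedWalk w then
          ((n : ℝ≥0∞) + 1)⁻¹ * ((2 * (d : ℝ≥0∞))⁻¹) ^ (n + 1) * h (verts x w)
        else 0 := by
  rw [tsum_list_eq, ENNReal.tsum_comm]
  have h0 : ((basedWeight ([] : List (Lat d)) : ℝ≥0) : ℝ≥0∞) * h [] = 0 := by
    have : basedWeight ([] : List (Lat d)) = 0 := by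
      rw [basedWeight, if_neg]
      simp
    rw [this, ENNReal.coe_zero, zero_mul]
  rw [h0, zero_add]
  exact tsum_congr fun n => tsum_fixed_length hd n h

lemma finite_fiber (c : Cycle (Lat d)) : Finite {l : List (Lat d) // (l : Cycle (Lat d)) = c} := by
  induction c using Quotient.inductionOn' with
  | h l₀ =>
    have : {l : List (Lat d) | (l : Cycle (Lat d)) = (l₀ : Cycle (Lat d))} ⊆
        (fun k => l₀.rotate k) '' Set.Iic l₀.length := by
      intro l hl
      have h1 : l₀ ~r l := by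
        have := Cycle.coe_eq_coe.1 (Set.mem_ofPred.1 hl)
        exact this.symm
      obtain ⟨k, hk, hk'⟩ := List.isRotated_iff_mod.1 h1
      exact ⟨k, hk, hk'⟩
    exact ((Set.finite_Iic _).image _).subset this

lemma coe_loopMeasure (c : Cycle (Lat d)) : ((loopMeasure c : ℝ≥0) : ℝ≥0∞) =
    ∑' l : {l : List (Lat d) // (l : Cycle (Lat d)) = c}, ((basedWeight l.1 : ℝ≥0) : ℝ≥0∞) := by
  have := finite_fiber c
  rw [loopMeasure, ENNReal.coe_tsum]
  exact summable_of_hasFiniteSupport (Set.toFinite _)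

end Lists

theorem tsum_loopMeasure_mul (d : ℕ) (hd : 1 ≤ d) (h : Cycle (Lat d) → ℝ≥0∞) :
    ∑' c : Cycle (Lat d), (loopMeasure c : ℝ≥0∞) * h c =
      ∑' x : Lat d, ∑' n : ℕ, ∑ w : Fin (n + 1) → Step d,
        if IsClosedWalk w then
          ((n : ℝ≥0∞) + 1)⁻¹ * ((2 * (d : ℝ≥0∞))⁻¹) ^ (n + 1) * h (verts x w : Cycle (Lat d))
        else 0 := by
  rw [← tsum_lists hd (fun l => h (l : Cycle (Lat d))),
    ← (Equiv.sigmaFiberEquiv (fun l : List (Lat d) => (l : Cycle (Lat d)))).tsum_eq,
    ENNReal.tsum_sigma']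
  refine tsum_congr fun c => ?_
  rw [coe_loopMeasure, ← ENNReal.tsum_mul_right]
  refine tsum_congr fun l => ?_
  obtain ⟨l, rfl⟩ := l
  rfl

/-! ### re-rooting at a visited vertex -/

lemma ppos_mod {d n : ℕ} {w : Fin (n + 1) → Step d} (hw : IsClosedWalk w) (m : ℕ) :
    ppos w (m % (n + 1)) = ppos w m := by
  have h : ∀ q k : ℕ, ppos w (k + (n + 1) * q) = ppos w k := by
    intro q
    induction q with
    | zero => intro k; simp
    | succ q ih =>
      intro k
      rw [Nat.mul_succ, ← add_assoc, ppos_period, ih, hw, add_zero]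
  conv_rhs => rw [← Nat.mod_add_div m (n + 1)]
  rw [h]

lemma verts_rot {d n : ℕ} {w : Fin (n + 1) → Step d} (hw : IsClosedWalk w) (a : Lat d) (k : ℕ) :
    (verts a (rot k w) : Cycle (Lat d)) = (verts (a - ppos w k) w : Cycle (Lat d)) := by
  rw [Cycle.coe_eq_coe]
  have h : verts a (rot k w) = (verts (a - ppos w k) w).rotate k := by
    rw [verts, verts, rotate_ofFn]
    congr 1
    funext i
    rw [ppos_rot', Fin.val_add, Fin.ofNat, Nat.add_mod_mod, ppos_mod hw, add_comm k]
    abel
  rw [h]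
  exact List.IsRotated.forall _ _

lemma mem_verts {d n : ℕ} {w : Fin (n + 1) → Step d} {x a : Lat d} :
    a ∈ (verts x w : Cycle (Lat d)) ↔ ∃ k : Fin (n + 1), x + ppos w k = a := by
  rw [Cycle.mem_coe_iff, verts, List.mem_ofFn]

open Classical in
/-- re-rooting at a visit of `a` -/
theorem tsum_loops_through_le (d : ℕ) (hd : 1 ≤ d) (a : Lat d) (h : Cycle (Lat d) → ℝ≥0∞) :
    ∑' c : Cycle (Lat d), (if a ∈ c then (loopMeasure c : ℝ≥0∞) * h c else 0) ≤
      ∑' n : ℕ, ∑ w : Fin (n + 1) → Step d, if IsClosedWalk w then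
        ((2 * (d : ℝ≥0∞))⁻¹) ^ (n + 1) * h (verts a w : Cycle (Lat d)) else 0 := by
  have h1 : ∀ c : Cycle (Lat d), (if a ∈ c then (loopMeasure c : ℝ≥0∞) * h c else 0) =
      (loopMeasure c : ℝ≥0∞) * (if a ∈ c then h c else 0) := fun c => by
    rw [mul_ite, mul_zero]
  rw [tsum_congr h1, tsum_loopMeasure_mul d hd, ENNReal.tsum_comm]
  refine ENNReal.tsum_le_tsum fun n => ?_
  set q : ℝ≥0∞ := ((2 * (d : ℝ≥0∞))⁻¹) ^ (n + 1) with hq
  have h2 : ∀ x : Lat d, (∑ w : Fin (n + 1) → Step d, if IsClosedWalk w then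
      ((n : ℝ≥0∞) + 1)⁻¹ * q * (if a ∈ (verts x w : Cycle (Lat d)) then
        h (verts x w : Cycle (Lat d)) else 0) else 0) ≤
      ∑ k : Fin (n + 1), ∑ w : Fin (n + 1) → Step d, if x = a - ppos w k then
        (if IsClosedWalk w then ((n : ℝ≥0∞) + 1)⁻¹ * (q * h (verts a (rot k w) : Cycle (Lat d)))
          else 0) else 0 := by
    intro x
    rw [Finset.sum_comm]
    refine Finset.sum_le_sum fun w _ => ?_
    by_cases hw : IsClosedWalk w
    · rw [if_pos hw]
      by_cases ha : a ∈ (verts x w : Cycle (Lat d))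
      · rw [if_pos ha]
        obtain ⟨k, hk⟩ := mem_verts.1 ha
        have hx : x = a - ppos w k := by rw [← hk]; abel
        refine le_trans (le_of_eq ?_) (Finset.single_le_sum (fun _ _ => zero_le)
          (Finset.mem_univ k))
        rw [if_pos hx, if_pos hw, verts_rot hw, ← hx, mul_assoc]
      · rw [if_neg ha, mul_zero]
        exact zero_le
    · rw [if_neg hw]
      exact zero_le
  refine (ENNReal.tsum_le_tsum h2).trans (le_of_eq ?_)
  have h3 : ∀ k : Fin (n + 1), (∑' x : Lat d, ∑ w : Fin (n + 1) → Step d, if x = a - ppos w k then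
        (if IsClosedWalk w then ((n : ℝ≥0∞) + 1)⁻¹ * (q * h (verts a (rot k w) : Cycle (Lat d)))
          else 0) else 0) = ((n : ℝ≥0∞) + 1)⁻¹ * ∑ w : Fin (n + 1) → Step d,
            if IsClosedWalk w then q * h (verts a w : Cycle (Lat d)) else 0 := by
    intro k
    rw [Summable.tsum_finsetSum (fun _ _ => ENNReal.summable)]
    simp only [tsum_ite_eq]
    rw [← sum_closed_rot d n k (fun w => q * h (verts a w : Cycle (Lat d))), Finset.mul_sum]
    refine Finset.sum_congr rfl fun w _ => ?_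
    rw [mul_ite, mul_zero]
  rw [Summable.tsum_finsetSum (fun _ _ => ENNReal.summable), Finset.sum_congr rfl fun k _ => h3 k,
    Finset.sum_const, Finset.card_univ, Fintype.card_fin, nsmul_eq_mul, ← mul_assoc]
  have h4 : ((n + 1 : ℕ) : ℝ≥0∞) * ((n : ℝ≥0∞) + 1)⁻¹ = 1 := by
    push_cast
    apply ENNReal.mul_inv_cancel
    · positivity
    · exact ENNReal.add_ne_top.2 ⟨ENNReal.natCast_ne_top n, ENNReal.one_ne_top⟩
  rw [h4, one_mul]

/-! ### the cluster of the problem -/

lemma mem_cycle_toFinset {d : ℕ} {c : Cycle (Lat d)} {x : Lat d} : x ∈ c.toFinset ↔ x ∈ c := by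
  induction c using Quotient.inductionOn' with
  | h l =>
    show x ∈ (l : Cycle (Lat d)).toFinset ↔ x ∈ (l : Cycle (Lat d))
    rw [Cycle.coe_toFinset, Cycle.mem_coe_iff, List.mem_toFinset]

instance countable_cycle (d : ℕ) : Countable (Cycle (Lat d)) := by
  unfold Cycle; infer_instance

lemma exists_based {d : ℕ} {c : Cycle (Lat d)} (hc : loopMeasure c ≠ 0) :
    ∃ l : List (Lat d), (l : Cycle (Lat d)) = c ∧ basedWeight l ≠ 0 := by
  by_contra hcon
  push Not at hcon
  apply hc
  rw [loopMeasure]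
  have : ∀ l : {l : List (Lat d) // (l : Cycle (Lat d)) = c}, basedWeight l.1 = 0 :=
    fun l => hcon l.1 l.2
  rw [tsum_congr this, tsum_zero]

lemma adj_of_basedWeight {d : ℕ} {l : List (Lat d)} (hl : basedWeight l ≠ 0) (i : ℕ)
    (hi : i + 1 < l.length) : ∑ j, |(l[i]) j - (l[i + 1]) j| = 1 := by
  have h2 : 2 ≤ l.length := by
    by_contra h
    rw [basedWeight, if_neg h] at hl
    exact hl rfl
  rw [basedWeight, if_pos h2] at hl
  by_contra hcon
  apply hl
  rw [div_eq_zero_iff]
  left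
  apply List.prod_eq_zero
  rw [List.mem_iff_getElem]
  refine ⟨i, by simp; omega, ?_⟩
  rw [List.getElem_zipWith, List.getElem_rotate]
  have h3 : (i + 1) % l.length = i + 1 := Nat.mod_eq_of_lt hi
  simp only [h3]
  rw [Q, if_neg hcon]

lemma traverses_getElem {d : ℕ} (l : List (Lat d)) (i : ℕ) (hi : i + 1 < l.length) :
    Traverses (l : Cycle (Lat d)) l[i] l[i + 1] := by
  refine ⟨l.drop (i + 2) ++ l.take i, Or.inl ?_⟩
  rw [Cycle.coe_eq_coe]
  refine List.IsRotated.symm ?_
  have h : l[i] :: l[i + 1] :: (l.drop (i + 2) ++ l.take i) = l.rotate i := by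
    rw [List.rotate_eq_drop_append_take (by omega), List.drop_eq_getElem_cons (by omega : i < _),
      List.drop_eq_getElem_cons (by omega : i + 1 < _)]
    rfl
  rw [h]
  exact List.IsRotated.forall _ _

lemma Traverses.mem {d : ℕ} {c : Cycle (Lat d)} {x y : Lat d} (h : Traverses c x y) :
    x ∈ c ∧ y ∈ c := by
  obtain ⟨l, rfl | rfl⟩ := h <;> simp

lemma IsOpenEdge.symm {d : ℕ} {N : Cycle (Lat d) → ℕ} {x y : Lat d} (h : IsOpenEdge N x y) :
    IsOpenEdge N y x := by
  obtain ⟨h1, c, hc, l, hl⟩ := h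
  refine ⟨?_, c, hc, l, hl.symm⟩
  rw [← h1]
  exact Finset.sum_congr rfl fun i _ => abs_sub_comm _ _

lemma rtg_symm {d : ℕ} {N : Cycle (Lat d) → ℕ} {x y : Lat d}
    (h : Relation.ReflTransGen (IsOpenEdge N) x y) : Relation.ReflTransGen (IsOpenEdge N) y x := by
  induction h with
  | refl => exact Relation.ReflTransGen.refl
  | tail _ hbc ih => exact Relation.ReflTransGen.head hbc.symm ih

/-- the cluster of the problem is the abstract cluster of the loop system -/
theorem cluster_eq_clus (d : ℕ) (_hd : 1 ≤ d) (α : ℝ≥0) :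
    ∀ᵐ N ∂(soup d α), cluster N = (loopSys d α).clus Set.univ N 0 := by
  have hae : ∀ᵐ N ∂(soup d α), ∀ c : Cycle (Lat d), loopMeasure c = 0 → N c = 0 := by
    rw [ae_all_iff]
    intro c
    by_cases hc : loopMeasure c = 0
    · have h1 : soup d α {N | N c ≠ 0} = 0 := by
        rw [← loopSys_P]
        have h2 := (loopSys d α).P_present_le c
        have h3 : (loopSys d α).lam c = 0 := by
          show α * loopMeasure c = 0
          rw [hc, mul_zero]
        rw [h3, ENNReal.coe_zero] at h2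
        exact le_antisymm h2 zero_le
      have h4 : ∀ᵐ N ∂(soup d α), ¬ (N c ≠ 0) := measure_eq_zero_iff_ae_notMem.1 h1
      filter_upwards [h4] with N hN _
      exact not_not.1 hN
    · exact Filter.Eventually.of_forall fun N h => absurd h hc
  filter_upwards [hae] with N hN
  have h1 : ∀ x y, IsOpenEdge N x y → (loopSys d α).Adj Set.univ N x y := by
    rintro x y ⟨-, c, hc, ht⟩
    refine ⟨c, Set.mem_univ _, by omega, ?_, ?_⟩
    · exact mem_cycle_toFinset.2 ht.mem.1
    · exact mem_cycle_toFinset.2 ht.mem.2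
  have h2 : ∀ x y, (loopSys d α).Adj Set.univ N x y →
      Relation.ReflTransGen (IsOpenEdge N) x y := by
    rintro x y ⟨c, -, hc, hx, hy⟩
    have hm : loopMeasure c ≠ 0 := fun h => hc (hN c h)
    obtain ⟨l, rfl, hl⟩ := exists_based hm
    have hx' : x ∈ l := Cycle.mem_coe_iff.1 (mem_cycle_toFinset.1 hx)
    have hy' : y ∈ l := Cycle.mem_coe_iff.1 (mem_cycle_toFinset.1 hy)
    have h3 : ∀ i (hi : i < l.length), Relation.ReflTransGen (IsOpenEdge N)
        (l[0]'(by omega)) l[i] := by
      intro i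
      induction i with
      | zero => intro hi; exact Relation.ReflTransGen.refl
      | succ i ih =>
        intro hi
        refine Relation.ReflTransGen.tail (ih (by omega)) ⟨adj_of_basedWeight hl i hi, _, ?_,
          traverses_getElem l i hi⟩
        exact Nat.one_le_iff_ne_zero.2 hc
    obtain ⟨i, hi, rfl⟩ := List.mem_iff_getElem.1 hx'
    obtain ⟨j, hj, rfl⟩ := List.mem_iff_getElem.1 hy'
    exact (rtg_symm (h3 i hi)).trans (h3 j hj)
  ext y
  constructor
  · intro h
    exact Relation.ReflTransGen.mono h1 _ _ h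
  · intro h
    have h' : Relation.ReflTransGen ((loopSys d α).Adj Set.univ N) 0 y := h
    induction h' with
    | refl => exact Relation.ReflTransGen.refl
    | tail hab hbc ih => exact Relation.ReflTransGen.trans (ih hab) (h2 _ _ hbc)

/-! ### translations -/

lemma Q_add {d : ℕ} (x y v : Lat d) : Q (x + v) (y + v) = Q x y := by
  simp only [Q, Pi.add_apply, add_sub_add_right_eq_sub]

lemma basedWeight_map {d : ℕ} (l : List (Lat d)) (v : Lat d) :
    basedWeight (l.map (· + v)) = basedWeight l := by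
  rw [basedWeight, basedWeight, List.length_map, ← List.map_rotate, List.zipWith_map]
  simp only [Q_add]

lemma map_map_neg {d : ℕ} (c : Cycle (Lat d)) (v : Lat d) :
    (c.map (· + v)).map (· + -v) = c := by
  induction c using Quotient.inductionOn' with
  | h l =>
    show Cycle.map _ (Cycle.map _ (l : Cycle (Lat d))) = (l : Cycle (Lat d))
    rw [Cycle.map_coe, Cycle.map_coe, List.map_map]
    congr 1
    conv_rhs => rw [← List.map_id l]
    congr 1
    funext x
    simp

/-- translations act on loops -/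
def shiftEquiv (d : ℕ) (v : Lat d) : Equiv.Perm (Cycle (Lat d)) where
  toFun c := c.map (· + v)
  invFun c := c.map (· + -v)
  left_inv c := map_map_neg c v
  right_inv c := by simpa using map_map_neg c (-v)

lemma loopMeasure_map {d : ℕ} (c : Cycle (Lat d)) (v : Lat d) :
    loopMeasure (c.map (· + v)) = loopMeasure c := by
  have hinj : Function.Injective (fun c : Cycle (Lat d) => c.map (· + v)) :=
    (shiftEquiv d v).injective
  rw [loopMeasure, loopMeasure]
  symm
  let e : {l : List (Lat d) // (l : Cycle (Lat d)) = c} ≃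
      {l : List (Lat d) // (l : Cycle (Lat d)) = c.map (· + v)} :=
    (Equiv.listEquivOfEquiv (Equiv.addRight v)).subtypeEquiv (fun l => by
      show (l : Cycle (Lat d)) = c ↔ ((l.map (· + v) : List (Lat d)) : Cycle (Lat d)) = c.map (· + v)
      rw [← Cycle.map_coe]
      exact hinj.eq_iff.symm)
  rw [← e.tsum_eq]
  refine tsum_congr fun l => ?_
  exact (basedWeight_map l.1 v).symm

theorem exists_shift (d : ℕ) (_hd : 1 ≤ d) (α : ℝ≥0) : ∃ sh : (loopSys d α).Shift,
    (∀ v (c : Cycle (Lat d)), sh.act v c = c.map (· + v)) := by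
  refine ⟨⟨shiftEquiv d, fun v c => ?_, fun v c => ?_⟩, fun v c => rfl⟩
  · show (c.map (· + v)).toFinset = c.toFinset.map (addRightEmbedding v)
    induction c using Quotient.inductionOn' with
    | h l =>
      show (Cycle.map _ (l : Cycle (Lat d))).toFinset = (l : Cycle (Lat d)).toFinset.map _
      rw [Cycle.map_coe, Cycle.coe_toFinset, Cycle.coe_toFinset]
      ext y
      simp
  · show α * loopMeasure (c.map (· + v)) = α * loopMeasure c
    rw [loopMeasure_map]

end Pool.Agent.LoopPerc
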