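import Pool.Agent.LoopPerc.Cap3
import Pool.Agent.LoopPerc.LoopsWalks

/-!
# Loops through a point
-/

namespace Pool.Agent.LoopPerc.Cap

open MeasureTheory ProbabilityTheory Filter Topology
open scoped ENNReal NNReal

lemma mem_verts_pos {d n : ℕ} (x y : Lat d) (w : Fin (n + 1) → Step d) :
    y ∈ verts x w ↔ ∃ k ≤ n, y = x + ppos w k := by
  unfold verts
  rw [List.mem_ofFn]
  constructor
  · rintro ⟨k, rfl⟩
    exact ⟨k, Nat.lt_succ_iff.1 k.2, rfl⟩
  · rintro ⟨k, hk, rfl⟩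
    exact ⟨⟨k, Nat.lt_succ_iff.2 hk⟩, rfl⟩

open Classical in
/-- closed walks with a given base point, in `D`, through `a` -/
lemma sum_walks_through {d : ℕ} (hd : 1 ≤ d) (D : Set (Lat d)) (a : Lat d) (ha : a ∈ D) (n : ℕ)
    (x : Lat d) :
    ∑ w : Fin (n + 1) → Step d, (if IsClosedWalk w then
      (if a ∈ verts x w ∧ ∀ y ∈ verts x w, y ∈ D then ((2 * (d : ℝ≥0∞))⁻¹) ^ (n + 1) else 0)
        else 0) =
      ∑ k ∈ Finset.range (n + 1), kern D (n + 1 - k) a x * hitk D {a} k x a := by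
  have h1 : ∀ E : Set (Lat d), kern E (n + 1) x x = ∑ w : Fin (n + 1) → Step d,
      if IsClosedWalk w ∧ ∀ y ∈ verts x w, y ∈ E then ((2 * (d : ℝ≥0∞))⁻¹) ^ (n + 1) else 0 := by
    intro E
    rw [kern_succ_eq_sum]
    refine Finset.sum_congr rfl fun w _ => ?_
    have e : (x + ppos w (n + 1) = x ∧ ∀ k ≤ n + 1, x + ppos w k ∈ E) ↔
        (IsClosedWalk w ∧ ∀ y ∈ verts x w, y ∈ E) := by
      constructor
      · rintro ⟨h1, h2⟩
        refine ⟨by unfold IsClosedWalk; simpa using h1, ?_⟩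
        intro y hy
        obtain ⟨k, hk, rfl⟩ := (mem_verts_pos x y w).1 hy
        exact h2 k (by omega)
      · rintro ⟨h1, h2⟩
        unfold IsClosedWalk at h1
        refine ⟨by rw [h1, add_zero], ?_⟩
        intro k hk
        rcases Nat.lt_or_ge n k with h | h
        · have : k = n + 1 := by omega
          rw [this, h1, add_zero]
          refine h2 x ((mem_verts_pos x x w).2 ⟨0, Nat.zero_le _, ?_⟩)
          simp [ppos]
        · exact h2 _ ((mem_verts_pos x _ w).2 ⟨k, h, rfl⟩)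
    by_cases h : IsClosedWalk w ∧ ∀ y ∈ verts x w, y ∈ E
    · rw [if_pos h, if_pos (e.2 h)]
    · rw [if_neg h, if_neg (fun h' => h (e.1 h'))]
  have h2 := kern_decomp D {a} (n + 1) x x
  have h3 : ∑ k ∈ Finset.range (n + 1 + 1), ∑' w, hitk D {a} k x w * kern D (n + 1 - k) w x =
      ∑ k ∈ Finset.range (n + 1), kern D (n + 1 - k) a x * hitk D {a} k x a := by
    have h4 : ∀ k, ∑' w, hitk D {a} k x w * kern D (n + 1 - k) w x =
        kern D (n + 1 - k) a x * hitk D {a} k x a := by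
      intro k
      rw [tsum_eq_single a, mul_comm]
      intro w hw
      rw [hitk_of_notMem_T (show w ∉ ({a} : Set (Lat d)) from hw), zero_mul]
    simp_rw [h4]
    rw [Finset.sum_range_succ]
    have h5 : kern D (n + 1 - (n + 1)) a x * hitk D {a} (n + 1) x a = 0 := by
      rw [Nat.sub_self]
      by_cases hx : x = a
      · subst hx; rw [hitk_succ_self, mul_zero]
      · rw [kern_zero, if_neg (fun h => hx h.1.symm), zero_mul]
    rw [h5, add_zero]
  rw [h3] at h2
  have h6 : kern D (n + 1) x x = kern (D \ {a}) (n + 1) x x +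
      ∑ w : Fin (n + 1) → Step d, (if IsClosedWalk w then
      (if a ∈ verts x w ∧ ∀ y ∈ verts x w, y ∈ D then ((2 * (d : ℝ≥0∞))⁻¹) ^ (n + 1) else 0)
        else 0) := by
    rw [h1 D, h1 (D \ {a}), ← Finset.sum_add_distrib]
    refine Finset.sum_congr rfl fun w _ => ?_
    by_cases hc : IsClosedWalk w
    · by_cases hD : ∀ y ∈ verts x w, y ∈ D
      · by_cases hav : a ∈ verts x w
        · rw [if_pos ⟨hc, hD⟩, if_neg (fun h => (h.2 a hav).2 rfl), if_pos hc,
            if_pos ⟨hav, hD⟩, zero_add]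
        · rw [if_pos ⟨hc, hD⟩, if_pos, if_pos hc, if_neg (fun h => hav h.1), add_zero]
          refine ⟨hc, fun y hy => ⟨hD y hy, ?_⟩⟩
          rintro rfl
          exact hav hy
      · rw [if_neg (fun h => hD h.2), if_neg (fun h => hD fun y hy => (h.2 y hy).1), if_pos hc,
          if_neg (fun h => hD h.2), add_zero]
    · rw [if_neg (fun h => hc h.1), if_neg (fun h => hc h.1), if_neg hc, add_zero]
  rw [h2] at h6
  exact ((ENNReal.add_right_inj (kern_ne_top hd _ _ _ _)).1 h6).symm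

open Classical in
theorem loops_through_eq_log (d : ℕ) (hd : 1 ≤ d) (hG : green (Set.univ : Set (Lat d)) 0 0 ≠ ⊤)
    (D : Set (Lat d)) (a : Lat d) (ha : a ∈ D) :
    ∑' c : Cycle (Lat d), (if a ∈ c ∧ ∀ x ∈ c, x ∈ D then (loopMeasure c : ℝ≥0∞) else 0) =
      ENNReal.ofReal (Real.log (green D a a).toReal) := by
  rw [← tsum_retF_eq hd hG D a ha, ← tsum_SS_eq D a ha]
  have h1 : ∀ c : Cycle (Lat d), (if a ∈ c ∧ ∀ x ∈ c, x ∈ D then (loopMeasure c : ℝ≥0∞) else 0) =
      (loopMeasure c : ℝ≥0∞) * (if a ∈ c ∧ ∀ x ∈ c, x ∈ D then 1 else 0) := by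
    intro c
    split_ifs <;> simp
  rw [tsum_congr h1, tsum_loopMeasure_mul d hd, ENNReal.tsum_comm]
  refine tsum_congr fun n => ?_
  unfold SS
  rw [← Summable.tsum_finsetSum (fun _ _ => ENNReal.summable), ← ENNReal.tsum_mul_left]
  refine tsum_congr fun x => ?_
  rw [← sum_walks_through hd D a ha n x, Finset.mul_sum]
  refine Finset.sum_congr rfl fun w _ => ?_
  have e : (a ∈ (verts x w : Cycle (Lat d)) ∧ ∀ y ∈ (verts x w : Cycle (Lat d)), y ∈ D) ↔
      (a ∈ verts x w ∧ ∀ y ∈ verts x w, y ∈ D) := by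
    simp only [Cycle.mem_coe_iff]
  by_cases hc : IsClosedWalk w
  · rw [if_pos hc, if_pos hc]
    by_cases h : a ∈ verts x w ∧ ∀ y ∈ verts x w, y ∈ D
    · rw [if_pos h, if_pos (e.2 h), mul_one]
    · rw [if_neg h, if_neg (fun h' => h (e.1 h')), mul_zero, mul_zero]
  · rw [if_neg hc, if_neg hc, mul_zero]

end Pool.Agent.LoopPerc.Cap
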