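import Pool.Agent.LoopPerc.Cap4

/-!
# Capacity asymptotics: abstract part
-/

namespace Pool.Agent.LoopPerc.Cap

open MeasureTheory ProbabilityTheory Filter Topology
open scoped ENNReal NNReal

open Classical in
/-- mass of the loops in `D` which hit `A` and `T` -/
noncomputable def massHit {d : ℕ} (D : Set (Lat d)) (A : Finset (Lat d)) (T : Set (Lat d)) :
    ℝ≥0∞ :=
  ∑' c : Cycle (Lat d), if (∃ a ∈ A, a ∈ c) ∧ (∃ x ∈ c, x ∈ T) ∧ ∀ x ∈ c, x ∈ D then
    (loopMeasure c : ℝ≥0∞) else 0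

open Classical in
lemma massHit_empty {d : ℕ} (D T : Set (Lat d)) : massHit D (∅ : Finset (Lat d)) T = 0 := by
  unfold massHit
  refine ENNReal.tsum_eq_zero.2 fun c => ?_
  rw [if_neg]
  rintro ⟨⟨a, ha, -⟩, -⟩
  exact absurd ha (Finset.notMem_empty a)

open Classical in
lemma massHit_insert {d : ℕ} (D T : Set (Lat d)) (a : Lat d) (A : Finset (Lat d)) :
    massHit D (insert a A) T = massHit D {a} T + massHit (D \ {a}) A T := by
  unfold massHit
  rw [← ENNReal.tsum_add]
  refine tsum_congr fun c => ?_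
  by_cases hT : ∃ x ∈ c, x ∈ T
  · by_cases hD : ∀ x ∈ c, x ∈ D
    · by_cases hac : a ∈ c
      · rw [if_pos ⟨⟨a, Finset.mem_insert_self _ _, hac⟩, hT, hD⟩,
          if_pos ⟨⟨a, Finset.mem_singleton_self _, hac⟩, hT, hD⟩,
          if_neg (fun h => (h.2.2 a hac).2 rfl), add_zero]
      · have h1 : ¬ ((∃ b ∈ ({a} : Finset (Lat d)), b ∈ c) ∧ (∃ x ∈ c, x ∈ T) ∧
            ∀ x ∈ c, x ∈ D) := by
          rintro ⟨⟨b, hb, hbc⟩, -⟩
          rw [Finset.mem_singleton] at hb
          exact hac (hb ▸ hbc)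
        rw [if_neg h1, zero_add]
        have hD' : ∀ x ∈ c, x ∈ D \ {a} := fun x hx => ⟨hD x hx, fun h => hac (h ▸ hx)⟩
        by_cases hA : ∃ b ∈ A, b ∈ c
        · obtain ⟨b, hb, hbc⟩ := hA
          rw [if_pos ⟨⟨b, Finset.mem_insert_of_mem hb, hbc⟩, hT, hD⟩,
            if_pos ⟨⟨b, hb, hbc⟩, hT, hD'⟩]
        · rw [if_neg, if_neg (fun h => hA h.1)]
          rintro ⟨⟨b, hb, hbc⟩, -⟩
          rcases Finset.mem_insert.1 hb with rfl | hb
          · exact hac hbc
          · exact hA ⟨b, hb, hbc⟩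
    · rw [if_neg (fun h => hD h.2.2), if_neg (fun h => hD h.2.2),
        if_neg (fun h => hD fun x hx => (h.2.2 x hx).1), add_zero]
  · rw [if_neg (fun h => hT h.2.1), if_neg (fun h => hT h.2.1), if_neg (fun h => hT h.2.1),
      add_zero]

open Classical in
lemma massHit_of_notMem {d : ℕ} (D T : Set (Lat d)) (a : Lat d) (ha : a ∉ D) :
    massHit D {a} T = 0 := by
  unfold massHit
  refine ENNReal.tsum_eq_zero.2 fun c => ?_
  rw [if_neg]
  rintro ⟨⟨b, hb, hbc⟩, -, hD⟩
  rw [Finset.mem_singleton] at hb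
  exact ha (hD a (hb ▸ hbc))

open Classical in
lemma massHit_single {d : ℕ} (hd : 1 ≤ d) (hG : green (Set.univ : Set (Lat d)) 0 0 ≠ ⊤)
    (D T : Set (Lat d)) (a : Lat d) (ha : a ∈ D) (haT : a ∉ T) :
    ENNReal.ofReal (Real.log (gr D a a)) =
      ENNReal.ofReal (Real.log (gr (D \ T) a a)) + massHit D {a} T := by
  unfold gr
  rw [← loops_through_eq_log d hd hG D a ha, ← loops_through_eq_log d hd hG (D \ T) a ⟨ha, haT⟩]
  unfold massHit
  rw [← ENNReal.tsum_add]
  refine tsum_congr fun c => ?_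
  by_cases hac : a ∈ c
  · by_cases hD : ∀ x ∈ c, x ∈ D
    · by_cases hT : ∃ x ∈ c, x ∈ T
      · rw [if_pos ⟨hac, hD⟩, if_neg, if_pos ⟨⟨a, Finset.mem_singleton_self _, hac⟩, hT, hD⟩,
          zero_add]
        rintro ⟨-, h⟩
        obtain ⟨x, hx, hxT⟩ := hT
        exact (h x hx).2 hxT
      · rw [if_pos ⟨hac, hD⟩, if_pos, if_neg (fun h => hT h.2.1), add_zero]
        exact ⟨hac, fun x hx => ⟨hD x hx, fun h => hT ⟨x, hx, h⟩⟩⟩
    · rw [if_neg (fun h => hD h.2), if_neg (fun h => hD fun x hx => (h.2 x hx).1),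
        if_neg (fun h => hD h.2.2), add_zero]
  · rw [if_neg (fun h => hac h.1), if_neg (fun h => hac h.1), if_neg, add_zero]
    rintro ⟨⟨b, hb, hbc⟩, -⟩
    rw [Finset.mem_singleton] at hb
    exact hac (hb ▸ hbc)

lemma massHit_single_toReal {d : ℕ} (hd : 1 ≤ d)
    (hG : green (Set.univ : Set (Lat d)) 0 0 ≠ ⊤)
    (D T : Set (Lat d)) (a : Lat d) (ha : a ∈ D) (haT : a ∉ T) :
    massHit D {a} T ≠ ⊤ ∧
      (massHit D {a} T).toReal = Real.log (gr D a a) - Real.log (gr (D \ T) a a) := by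
  have h := massHit_single hd hG D T a ha haT
  have hne : massHit D {a} T ≠ ⊤ := by
    intro h'
    rw [h', add_top] at h
    exact ENNReal.ofReal_ne_top h
  refine ⟨hne, ?_⟩
  have h2 := congrArg ENNReal.toReal h
  rw [ENNReal.toReal_add ENNReal.ofReal_ne_top hne,
    ENNReal.toReal_ofReal (Real.log_nonneg (one_le_gr hd hG ha)),
    ENNReal.toReal_ofReal (Real.log_nonneg (one_le_gr hd hG (show a ∈ D \ T from ⟨ha, haT⟩)))]
    at h2
  linarith

/-- convergence of the rescaled difference of Green functions -/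
def Conv {d : ℕ} {I : Type*} (l : Filter I) (ρ : I → ℝ) (T : I → Set (Lat d))
    (D : Set (Lat d)) : Prop :=
  ∀ y z, ∃ c : ℝ, Tendsto (fun i => ρ i * (gr D y z - gr (D \ T i) y z)) l (𝓝 c)

lemma tendsto_of_scaled {I : Type*} {l : Filter I} {ρ X : I → ℝ} {x c : ℝ}
    (hρ : Tendsto ρ l atTop) (h : Tendsto (fun i => ρ i * (x - X i)) l (𝓝 c)) :
    Tendsto X l (𝓝 x) := by
  have h1 : Tendsto (fun i => (ρ i)⁻¹ * (ρ i * (x - X i))) l (𝓝 (0 * c)) :=
    (tendsto_inv_atTop_zero.comp hρ).mul h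
  rw [zero_mul] at h1
  have h2 : Tendsto (fun i => x - X i) l (𝓝 0) := by
    refine h1.congr' ?_
    filter_upwards [hρ.eventually_gt_atTop 0] with i hi
    rw [← mul_assoc, inv_mul_cancel₀ hi.ne', one_mul]
  have h3 : Tendsto (fun i => x - (x - X i)) l (𝓝 (x - 0)) := tendsto_const_nhds.sub h2
  simpa using h3

lemma conv_remove {d : ℕ} (hd : 1 ≤ d) (hG : green (Set.univ : Set (Lat d)) 0 0 ≠ ⊤)
    {I : Type*} {l : Filter I} {ρ : I → ℝ} {T : I → Set (Lat d)} (hρ : Tendsto ρ l atTop)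
    (hT : ∀ a, ∀ᶠ i in l, a ∉ T i) (D : Set (Lat d)) (hD : Conv l ρ T D) (a : Lat d) :
    Conv l ρ T (D \ {a}) := by
  by_cases ha : a ∈ D
  · intro y z
    obtain ⟨c1, h1⟩ := hD y z
    obtain ⟨c2, h2⟩ := hD y a
    obtain ⟨c3, h3⟩ := hD a z
    obtain ⟨c4, h4⟩ := hD a a
    have t2 := tendsto_of_scaled hρ h2
    have t3 := tendsto_of_scaled hρ h3
    have t4 := tendsto_of_scaled hρ h4
    have hpos : 0 < gr D a a := by
      have := one_le_gr hd hG ha
      linarith
    have key := ((h1.sub ((h2.mul_const (gr D a z / gr D a a)).add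
      ((t2.mul h3).div_const (gr D a a)))).add
      ((t2.mul t3).mul (h4.div ((t4.const_mul (gr D a a))) (by positivity))))
    refine ⟨_, key.congr' ?_⟩
    filter_upwards [hT a, t4.eventually (lt_mem_nhds hpos)] with i hi hXi
    have e1 : (D \ {a}) \ T i = (D \ T i) \ {a} := by
      ext x; simp only [Set.mem_sdiff, Set.mem_singleton_iff]; tauto
    rw [e1, gr_remove hd hG D a y z ha, gr_remove hd hG (D \ T i) a y z ⟨ha, hi⟩]
    have hne : gr D a a ≠ 0 := hpos.ne'
    have hne' : gr (D \ T i) a a ≠ 0 := hXi.ne'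
    simp only [Pi.div_apply]
    field_simp
    ring
  · have : D \ {a} = D := by
      ext x
      simp only [Set.mem_sdiff, Set.mem_singleton_iff, and_iff_left_iff_imp]
      rintro hx rfl
      exact ha hx
    rw [this]
    exact hD

lemma tendsto_log_diff {I : Type*} {l : Filter I} {ρ X : I → ℝ} {x c : ℝ}
    (hρ : Tendsto ρ l atTop) (hx : 0 < x) (h : Tendsto (fun i => ρ i * (x - X i)) l (𝓝 c)) :
    Tendsto (fun i => ρ i * (Real.log x - Real.log (X i))) l (𝓝 (c / x)) := by
  have hX := tendsto_of_scaled hρ h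
  have h1 : Tendsto (fun i => ρ i * (x - X i) / x) l (𝓝 (c / x)) := h.div_const x
  have h2 : Tendsto (fun i => ρ i * (x - X i) / X i) l (𝓝 (c / x)) := h.div hX hx.ne'
  refine tendsto_of_tendsto_of_tendsto_of_le_of_le' h1 h2 ?_ ?_
  · filter_upwards [hρ.eventually_gt_atTop 0, hX.eventually (lt_mem_nhds hx)] with i hi hXi
    have : (x - X i) / x ≤ Real.log x - Real.log (X i) := by
      have := Real.log_le_sub_one_of_pos (show 0 < X i / x by positivity)
      rw [Real.log_div hXi.ne' hx.ne'] at this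
      have e : (x - X i) / x = 1 - X i / x := by field_simp
      linarith
    calc ρ i * (x - X i) / x = ρ i * ((x - X i) / x) := by ring
      _ ≤ _ := mul_le_mul_of_nonneg_left this hi.le
  · filter_upwards [hρ.eventually_gt_atTop 0, hX.eventually (lt_mem_nhds hx)] with i hi hXi
    have : Real.log x - Real.log (X i) ≤ (x - X i) / X i := by
      have := Real.log_le_sub_one_of_pos (show 0 < x / X i by positivity)
      rw [Real.log_div hx.ne' hXi.ne'] at this
      have e : (x - X i) / X i = x / X i - 1 := by field_simp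
      linarith
    calc _ ≤ ρ i * ((x - X i) / X i) := mul_le_mul_of_nonneg_left this hi.le
      _ = ρ i * (x - X i) / X i := by ring

lemma massHit_tendsto {d : ℕ} (hd : 1 ≤ d) (hG : green (Set.univ : Set (Lat d)) 0 0 ≠ ⊤)
    {I : Type*} {l : Filter I} {ρ : I → ℝ} {T : I → Set (Lat d)} (hρ : Tendsto ρ l atTop)
    (hT : ∀ a, ∀ᶠ i in l, a ∉ T i) (A : Finset (Lat d)) :
    ∀ (D : Set (Lat d)), Conv l ρ T D →
      (∀ᶠ i in l, massHit D A (T i) ≠ ⊤) ∧
      ∃ L : ℝ, Tendsto (fun i => ρ i * (massHit D A (T i)).toReal) l (𝓝 L) := by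
  classical
  induction A using Finset.induction_on with
  | empty =>
    intro D _
    simp only [massHit_empty]
    exact ⟨by simp, 0, by simpa using tendsto_const_nhds⟩
  | insert a A haA ih =>
    intro D hD
    obtain ⟨h1, L1, h2⟩ := ih (D \ {a}) (conv_remove hd hG hρ hT D hD a)
    by_cases ha : a ∈ D
    · obtain ⟨c, hc⟩ := hD a a
      have h3 := tendsto_log_diff hρ (by have := one_le_gr hd hG ha; linarith) hc
      have h4 : ∀ᶠ i in l, massHit D {a} (T i) ≠ ⊤ ∧ (massHit D {a} (T i)).toReal =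
          Real.log (gr D a a) - Real.log (gr (D \ T i) a a) := by
        filter_upwards [hT a] with i hi
        exact massHit_single_toReal hd hG D (T i) a ha hi
      refine ⟨?_, c / gr D a a + L1, ?_⟩
      · filter_upwards [h1, h4] with i hi1 hi4
        rw [massHit_insert]
        exact ENNReal.add_ne_top.2 ⟨hi4.1, hi1⟩
      · refine (h3.add h2).congr' ?_
        filter_upwards [h1, h4] with i hi1 hi4
        rw [massHit_insert, ENNReal.toReal_add hi4.1 hi1, hi4.2]
        ring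
    · refine ⟨?_, L1, ?_⟩
      · filter_upwards [h1] with i hi1
        rw [massHit_insert, massHit_of_notMem D _ a ha, zero_add]
        exact hi1
      · refine h2.congr fun i => ?_
        rw [massHit_insert, massHit_of_notMem D _ a ha, zero_add]

end Pool.Agent.LoopPerc.Cap
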