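import Pool.Agent.LoopPerc.Walk

/-!
# The cluster of a set of vertices, the range of a closed walk: definitions
-/

namespace Pool.Agent.LoopPerc

open MeasureTheory ProbabilityTheory Filter Topology
open scoped ENNReal NNReal

/-- the set of vertices whose `J`-cluster meets `W` -/
def HSys.clusW {V ι : Type*} (H : HSys V ι) (J : Set ι) (ω : ι → ℕ) (W : Set V) : Set V :=
  {y | ∃ v ∈ W, H.Conn J ω v y}

/-- the vertices visited by a closed walk started at `0` -/
def range0 {d n : ℕ} (w : Fin (n + 1) → Step d) : Set (Lat d) := {x | ∃ k, x = ppos w k}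

end Pool.Agent.LoopPerc
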