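import Mathlib

/-!
# Loop percolation on `ℤ^d`: definitions

The random walk loop soup of Chang and Sapozhnikov (Phase transition in loop percolation).
-/

namespace Pool.Agent.LoopPerc

open MeasureTheory ProbabilityTheory Filter Topology
open scoped ENNReal NNReal

/-- The lattice `ℤ^d`. -/
abbrev Lat (d : ℕ) : Type := Fin d → ℤ

/-- Transition matrix of simple random walk on `ℤ^d`: `Q x y = 1/(2d)` if `|x - y|₁ = 1`,
and `0` otherwise. -/
noncomputable def Q {d : ℕ} (x y : Lat d) : ℝ≥0 :=
  if ∑ i, |x i - y i| = 1 then 1 / (2 * (d : ℝ≥0)) else 0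

/-- The weight `(1/n) Q(x₁,x₂) ⋯ Q(xₙ₋₁,xₙ) Q(xₙ,x₁)` of the based loop `l = (x₁, …, xₙ)`,
`n ≥ 2`. (Lists of length `< 2` are not based loops and get weight `0`.) -/
noncomputable def basedWeight {d : ℕ} (l : List (Lat d)) : ℝ≥0 :=
  if 2 ≤ l.length then (List.zipWith Q l (l.rotate 1)).prod / (l.length : ℝ≥0) else 0

/-- The loop measure `μ` on loops, i.e. on equivalence classes of based loops under cyclic
rotation: the push-forward of the measure `basedWeight` on based loops. -/
noncomputable def loopMeasure {d : ℕ} (c : Cycle (Lat d)) : ℝ≥0 :=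
  ∑' l : {l : List (Lat d) // (l : Cycle (Lat d)) = c}, basedWeight l.1

/-- The law of the loop soup `𝓛_α` (a Poisson point process of loops of intensity `α μ`): the
numbers `N c` of copies of the loops `c` are independent Poisson variables of mean `α μ(c)`. -/
noncomputable def soup (d : ℕ) (α : ℝ≥0) : Measure (Cycle (Lat d) → ℕ) :=
  Measure.infinitePi fun c => poissonMeasure (α * loopMeasure c)

instance (d : ℕ) (α : ℝ≥0) : IsProbabilityMeasure (soup d α) := by
  unfold soup; infer_instance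

/-- The loop `c` traverses the edge `{x, y}`: `x` and `y` are cyclically consecutive in `c`, in
one of the two orders. -/
def Traverses {d : ℕ} (c : Cycle (Lat d)) (x y : Lat d) : Prop :=
  ∃ l : List (Lat d), c = ((x :: y :: l : List (Lat d)) : Cycle (Lat d)) ∨
    c = ((y :: x :: l : List (Lat d)) : Cycle (Lat d))

/-- The edge `{x, y}` of `ℤ^d` is open: some loop of the soup traverses it. -/
def IsOpenEdge {d : ℕ} (N : Cycle (Lat d) → ℕ) (x y : Lat d) : Prop :=
  ∑ i, |x i - y i| = 1 ∧ ∃ c, 1 ≤ N c ∧ Traverses c x y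

/-- The open cluster of the origin. -/
def cluster {d : ℕ} (N : Cycle (Lat d) → ℕ) : Set (Lat d) :=
  {y | Relation.ReflTransGen (IsOpenEdge N) 0 y}

/-- The expected number of vertices in the cluster of the origin. -/
noncomputable def meanSize (d : ℕ) (α : ℝ≥0) : ℝ≥0∞ :=
  ∫⁻ N, ((cluster N).encard : ℝ≥0∞) ∂(soup d α)

/-- `α_# = sup {α > 0 : E[#C_α(0)] < ∞}`. -/
noncomputable def alphaSharp (d : ℕ) : ℝ≥0∞ :=
  sSup {a | ∃ α : ℝ≥0, 0 < α ∧ meanSize d α < ⊤ ∧ a = α}

/-- The Euclidean norm on `ℤ^d`. -/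
noncomputable def enorm2 {d : ℕ} (x : Lat d) : ℝ := Real.sqrt (∑ i, (x i : ℝ) ^ 2)

end Pool.Agent.LoopPerc
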