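import Pool.Agent.LoopPerc.Abs2

/-!
# Generating functions of clusters: the abstract recursion

If the generating function `E θ ^ |C_J(v)|` is controlled (by `F`) after revealing the cluster of `v`
in a subfamily `Λ v`, the other hyperedges being taken into account through the weights `w`, then
`E θ ^ |C_J(W)| ≤ F ^ |W|` for all finite sets `W` of vertices and all finite families `J`.
-/

namespace Pool.Agent.LoopPerc.HSys

open MeasureTheory ProbabilityTheory Filter Topology Set
open scoped ENNReal NNReal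

variable {V ι : Type*} {H : HSys V ι}

/-- the union of the `J`-clusters of the vertices of `W` -/
def cluW (H : HSys V ι) (J : Set ι) (ω : ι → ℕ) (W : Set V) : Set V :=
  {y | ∃ v ∈ W, H.Conn J ω v y}

/-- the union of the supports of the present hyperedges of `I` -/
def pres (H : HSys V ι) (I : Set ι) (ω : ι → ℕ) : Set V := {x | ∃ i ∈ I, ω i ≠ 0 ∧ x ∈ H.s i}

lemma cluW_empty (J : Set ι) (ω : ι → ℕ) : H.cluW J ω ∅ = ∅ := by
  ext y; simp [cluW]

lemma cluW_singleton (J : Set ι) (ω : ι → ℕ) (v : V) : H.cluW J ω {v} = H.clus J ω v := by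
  ext y; simp [cluW, clus]

lemma cluW_union (J : Set ι) (ω : ι → ℕ) (W W' : Set V) :
    H.cluW J ω (W ∪ W') = H.cluW J ω W ∪ H.cluW J ω W' := by
  ext y
  simp only [cluW, mem_union, mem_ofPred_eq]
  constructor
  · rintro ⟨v, hv | hv, h⟩
    · exact Or.inl ⟨v, hv, h⟩
    · exact Or.inr ⟨v, hv, h⟩
  · rintro (⟨v, hv, h⟩ | ⟨v, hv, h⟩)
    · exact ⟨v, Or.inl hv, h⟩
    · exact ⟨v, Or.inr hv, h⟩

lemma conn_subset {J : Set ι} {ω : ι → ℕ} {v y : V} (h : H.Conn J ω v y) :
    y = v ∨ ∃ i ∈ J, y ∈ H.s i := by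
  cases h with
  | refl => exact Or.inl rfl
  | tail _ hbc =>
    obtain ⟨i, hi, _, _, hc⟩ := hbc
    exact Or.inr ⟨i, hi, hc⟩

lemma cluW_subset (J : Set ι) (ω : ι → ℕ) (W : Set V) :
    H.cluW J ω W ⊆ W ∪ ⋃ i ∈ J, (H.s i : Set V) := by
  rintro y ⟨v, hv, h⟩
  rcases conn_subset h with rfl | ⟨i, hi, hy⟩
  · exact Or.inl hv
  · exact Or.inr (mem_iUnion₂.2 ⟨i, hi, hy⟩)

lemma pres_subset (I : Set ι) (ω : ι → ℕ) : H.pres I ω ⊆ ⋃ i ∈ I, (H.s i : Set V) := by
  rintro y ⟨i, hi, _, hy⟩
  exact mem_iUnion₂.2 ⟨i, hi, hy⟩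

/-- connections that end outside of the cluster of `v` avoid the cluster of `v` -/
lemma conn_avoid {J : Set ι} {ω : ι → ℕ} {v w y : V} (h : H.Conn J ω w y)
    (hy : y ∉ H.clus J ω v) : H.Conn (J \ H.hit (H.clus J ω v)) ω w y := by
  induction h with
  | refl => exact Conn.refl _
  | @tail b c hab hbc ih =>
    obtain ⟨i, hi, h0, hb, hc⟩ := hbc
    have hh : i ∉ H.hit (H.clus J ω v) := fun hh => hy (subset_clus hi h0 hh hc)
    have hb' : b ∉ H.clus J ω v := fun hb' => hh ⟨b, hb, hb'⟩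
    exact Relation.ReflTransGen.tail (ih hb') ⟨i, ⟨hi, hh⟩, h0, hb, hc⟩

lemma cluW_insert_subset (J : Set ι) (ω : ι → ℕ) (v : V) (W : Set V) :
    H.cluW J ω (insert v W) ⊆ H.clus J ω v ∪ H.cluW (J \ H.hit (H.clus J ω v)) ω W := by
  rintro y ⟨w, hw, h⟩
  by_cases hy : y ∈ H.clus J ω v
  · exact Or.inl hy
  · right
    rcases hw with rfl | hw
    · exact absurd h hy
    · exact ⟨w, hw, conn_avoid h hy⟩

lemma clus_subset_pres (J S : Set ι) (ω : ι → ℕ) (v : V) :
    H.clus J ω v ⊆ H.clus S ω v ∪ H.cluW (J \ H.hit (H.clus S ω v)) ω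
      (H.pres ((J \ S) ∩ H.hit (H.clus S ω v)) ω) := by
  intro y hy
  by_cases hy' : y ∈ H.clus S ω v
  · exact Or.inl hy'
  · right
    obtain ⟨i, hi, h0, hh, w, hw, hc⟩ := exists_exit hy hy'
    exact ⟨w, ⟨i, ⟨hi, hh⟩, h0, hw⟩, hc⟩

/-! ### measurability -/

lemma measurable_ncard {Ω : Type*} {m : MeasurableSpace Ω} (f : Ω → Set V) (U : Set V)
    (hU : U.Finite) (hf' : ∀ ω, f ω ⊆ U) (hf : ∀ x, MeasurableSet {ω | x ∈ f ω}) :
    Measurable fun ω => (f ω).ncard := by
  classical
  have h : (fun ω => (f ω).ncard) = fun ω => ∑ x ∈ hU.toFinset, if x ∈ f ω then 1 else 0 := by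
    funext ω
    rw [Finset.sum_ite, Finset.sum_const_zero, add_zero, ← Finset.card_eq_sum_ones,
      ← Set.ncard_coe_finset]
    congr 1
    ext x
    simp only [Finset.coe_filter, Finite.mem_toFinset, mem_ofPred_eq]
    exact ⟨fun hx => ⟨hf' ω hx, hx⟩, fun hx => hx.2⟩
  rw [h]
  exact Finset.measurable_sum _ fun x _ => Measurable.ite (hf x) measurable_const measurable_const

section Meas

variable [Countable V] [Countable ι]

omit [Countable V] in
lemma measurableSet_mem_pres (I : Set ι) (x : V) :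
    MeasurableSet[sig ι I] {ω | x ∈ H.pres I ω} := by
  have h : {ω | x ∈ H.pres I ω} = ⋃ i : ι, ⋃ (_ : i ∈ I ∧ x ∈ H.s i), {ω : ι → ℕ | ω i ≠ 0} := by
    ext ω
    simp only [pres, mem_ofPred_eq, mem_iUnion, exists_prop]
    constructor
    · rintro ⟨i, a, b, c⟩; exact ⟨i, ⟨a, c⟩, b⟩
    · rintro ⟨i, ⟨a, c⟩, b⟩; exact ⟨i, a, b, c⟩
  rw [h]
  exact MeasurableSet.iUnion fun i => MeasurableSet.iUnion fun hi => measurableSet_present hi.1

lemma measurableSet_mem_cluW {m : MeasurableSpace (ι → ℕ)} {J : Set ι} (hm : sig ι J ≤ m)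
    (Wf : (ι → ℕ) → Set V) (hW : ∀ x, MeasurableSet[m] {ω | x ∈ Wf ω}) (y : V) :
    MeasurableSet[m] {ω | y ∈ H.cluW J ω (Wf ω)} := by
  have h : {ω | y ∈ H.cluW J ω (Wf ω)} = ⋃ x : V, ({ω | x ∈ Wf ω} ∩ {ω | H.Conn J ω x y}) := by
    ext ω
    simp [cluW]
  rw [h]
  exact MeasurableSet.iUnion fun x => (hW x).inter (hm _ (measurableSet_conn J x y))

lemma measurable_pow_cluW {m : MeasurableSpace (ι → ℕ)} {J I : Set ι} (hJ : J.Finite)
    (hI : I.Finite) (hm : sig ι J ≤ m) (hm' : sig ι I ≤ m) (W : Finset V) (θ : ℝ≥0∞) :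
    Measurable[m] fun ω => θ ^ (H.cluW J ω (W ∪ H.pres I ω)).ncard := by
  have h1 : ((W : Set V) ∪ (⋃ i ∈ I, (H.s i : Set V)) ∪ ⋃ i ∈ J, (H.s i : Set V)).Finite := by
    refine Set.Finite.union (Set.Finite.union W.finite_toSet ?_) ?_
    · exact hI.biUnion fun i _ => (H.s i).finite_toSet
    · exact hJ.biUnion fun i _ => (H.s i).finite_toSet
  have h2 : Measurable[m] fun ω => (H.cluW J ω (W ∪ H.pres I ω)).ncard := by
    refine measurable_ncard _ _ h1 (fun ω => ?_) (fun y => ?_)
    · refine (cluW_subset _ _ _).trans (union_subset_union_left _ ?_)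
      exact union_subset_union_right _ (pres_subset I ω)
    · refine measurableSet_mem_cluW hm _ (fun x => ?_) y
      have h3 : {ω : ι → ℕ | x ∈ (W : Set V) ∪ H.pres I ω} =
          {ω : ι → ℕ | x ∈ (W : Set V)} ∪ {ω | x ∈ H.pres I ω} := rfl
      rw [h3]
      refine MeasurableSet.union ?_ (hm' _ (measurableSet_mem_pres I x))
      exact MeasurableSet.const _
  exact (Measurable.of_discrete (f := fun k : ℕ => θ ^ k)).comp h2

omit [Countable V] [Countable ι] in
lemma lintegral_mul_indep {J J' : Set ι} (h : Disjoint J J') {f g : (ι → ℕ) → ℝ≥0∞}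
    (hf : Measurable[sig ι J] f) (hg : Measurable[sig ι J'] g) :
    ∫⁻ ω, f ω * g ω ∂H.P = (∫⁻ ω, f ω ∂H.P) * ∫⁻ ω, g ω ∂H.P :=
  lintegral_mul_eq_lintegral_mul_lintegral_of_independent_measurableSpace
    (sig_le J) (sig_le J') (indep_sig h) hf hg

omit [Countable V] [Countable ι] in
lemma lintegral_ind {J : Set ι} {E : Set (ι → ℕ)} (hE : MeasurableSet[sig ι J] E) :
    ∫⁻ ω, E.indicator (fun _ => (1 : ℝ≥0∞)) ω ∂H.P = H.P E := by
  have h := sig_le J _ hE
  rw [lintegral_indicator h]; simp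

omit [Countable V] [Countable ι] in
lemma lintegral_ind_mul_indep {J J' : Set ι} (h : Disjoint J J') {E : Set (ι → ℕ)}
    {g : (ι → ℕ) → ℝ≥0∞} (hE : MeasurableSet[sig ι J] E) (hg : Measurable[sig ι J'] g) :
    ∫⁻ ω, E.indicator (fun _ => (1 : ℝ≥0∞)) ω * g ω ∂H.P = H.P E * ∫⁻ ω, g ω ∂H.P := by
  have hf : Measurable[sig ι J] (E.indicator (fun _ => (1 : ℝ≥0∞))) :=
    Measurable.indicator measurable_const hE
  rw [lintegral_mul_indep h hf hg, lintegral_ind hE]

/-- the generating function of the union of the `J`-clusters of `W` and of the present hyperedges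
of `I` -/
noncomputable def gen (H : HSys V ι) (θ : ℝ≥0∞) (J I : Set ι) (W : Finset V) : ℝ≥0∞ :=
  ∫⁻ ω, θ ^ (H.cluW J ω (W ∪ H.pres I ω)).ncard ∂H.P

open Classical in
lemma gen_insert {θ : ℝ≥0∞} {J I : Set ι} (hJ : J.Finite) (hI : I.Finite) {i : ι} (hiJ : i ∉ J)
    (hiI : i ∉ I) (W : Finset V) :
    H.gen θ J (insert i I) W ≤
      H.P {ω | ω i ≠ 0}ᶜ * H.gen θ J I W + H.P {ω | ω i ≠ 0} * H.gen θ J I (W ∪ H.s i) := by
  have hE : MeasurableSet[sig ι {i}] {ω : ι → ℕ | ω i ≠ 0} := measurableSet_present rfl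
  have hd : Disjoint ({i} : Set ι) (J ∪ I) := by
    rw [Set.disjoint_left]
    rintro j hj (hj' | hj')
    · rw [mem_singleton_iff] at hj; subst hj; exact hiJ hj'
    · rw [mem_singleton_iff] at hj; subst hj; exact hiI hj'
  have hm : ∀ W' : Finset V,
      Measurable[sig ι (J ∪ I)] fun ω => θ ^ (H.cluW J ω (W' ∪ H.pres I ω)).ncard := fun W' =>
    measurable_pow_cluW hJ hI (sig_mono subset_union_left) (sig_mono subset_union_right) W' θ
  have hm' : ∀ W' : Finset V,
      Measurable fun ω => θ ^ (H.cluW J ω (W' ∪ H.pres I ω)).ncard := fun W' =>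
    (hm W').mono (sig_le _) le_rfl
  have h1 : ∀ ω : ι → ℕ, θ ^ (H.cluW J ω (W ∪ H.pres (insert i I) ω)).ncard ≤
      ({ω : ι → ℕ | ω i ≠ 0}ᶜ).indicator (fun _ => (1 : ℝ≥0∞)) ω *
        θ ^ (H.cluW J ω (W ∪ H.pres I ω)).ncard +
      ({ω : ι → ℕ | ω i ≠ 0}).indicator (fun _ => (1 : ℝ≥0∞)) ω *
        θ ^ (H.cluW J ω ((W ∪ H.s i : Finset V) ∪ H.pres I ω)).ncard := by
    intro ω
    by_cases h : ω i = 0
    · have h2 : H.pres (insert i I) ω = H.pres I ω := by
        ext x
        constructor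
        · rintro ⟨j, hj, h0, hx⟩
          rcases hj with rfl | hj
          · exact absurd h h0
          · exact ⟨j, hj, h0, hx⟩
        · rintro ⟨j, hj, h0, hx⟩
          exact ⟨j, Or.inr hj, h0, hx⟩
      rw [h2]
      simp [h]
    · have h2 : (W : Set V) ∪ H.pres (insert i I) ω =
          ((W ∪ H.s i : Finset V) : Set V) ∪ H.pres I ω := by
        ext x
        simp only [Finset.coe_union, mem_union, Finset.mem_coe]
        constructor
        · rintro (hx | ⟨j, hj, h0, hx⟩)
          · exact Or.inl (Or.inl hx)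
          · rcases hj with rfl | hj
            · exact Or.inl (Or.inr hx)
            · exact Or.inr ⟨j, hj, h0, hx⟩
        · rintro ((hx | hx) | ⟨j, hj, h0, hx⟩)
          · exact Or.inl hx
          · exact Or.inr ⟨i, Or.inl rfl, h, hx⟩
          · exact Or.inr ⟨j, Or.inr hj, h0, hx⟩
      rw [h2]
      simp [h]
  unfold gen
  refine (lintegral_mono h1).trans ?_
  rw [lintegral_add_left]
  · refine add_le_add (le_of_eq ?_) (le_of_eq ?_)
    · exact lintegral_ind_mul_indep hd hE.compl (hm W)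
    · exact lintegral_ind_mul_indep hd hE (hm _)
  · refine Measurable.mul ?_ (hm' W)
    exact measurable_const.indicator (sig_le _ _ hE).compl

open Classical in
lemma gen_le {θ F : ℝ≥0∞} (hF : 1 ≤ F) {w : ι → ℝ≥0∞}
    (hw : ∀ i, F ^ (H.s i).card ≤ 1 + w i) {J : Set ι} (hJ : J.Finite)
    (hG : ∀ W : Finset V, H.gen θ J ∅ W ≤ F ^ W.card) (I : Finset ι)
    (hd : Disjoint J (I : Set ι)) (W : Finset V) :
    H.gen θ J I W ≤ F ^ W.card * ∏ i ∈ I, (1 + H.lam i * w i) := by
  induction I using Finset.induction_on generalizing W with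
  | empty => simpa using hG W
  | @insert i I hi ih =>
    rw [Finset.coe_insert] at hd ⊢
    rw [Set.disjoint_left] at hd
    have hiJ : i ∉ J := fun h => hd h (mem_insert _ _)
    have hd' : Disjoint J (I : Set ι) := by
      rw [Set.disjoint_left]
      exact fun j hj hj' => hd hj (mem_insert_of_mem _ hj')
    refine (gen_insert hJ I.finite_toSet hiJ (by simpa using hi) W).trans ?_
    rw [Finset.prod_insert hi]
    have e1 := ih hd' W
    have e2 := ih hd' (W ∪ H.s i)
    have e3 : F ^ (W ∪ H.s i).card ≤ F ^ W.card * (1 + w i) := by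
      refine (pow_le_pow_right₀ hF (Finset.card_union_le _ _)).trans ?_
      rw [pow_add]
      gcongr
      exact hw i
    have e4 : H.P {ω | ω i ≠ 0}ᶜ + H.P {ω | ω i ≠ 0} = 1 := by
      rw [add_comm, measure_add_measure_compl (by measurability), measure_univ]
    calc H.P {ω | ω i ≠ 0}ᶜ * H.gen θ J I W + H.P {ω | ω i ≠ 0} * H.gen θ J I (W ∪ H.s i)
        ≤ H.P {ω | ω i ≠ 0}ᶜ * (F ^ W.card * ∏ i ∈ I, (1 + H.lam i * w i)) +
          H.P {ω | ω i ≠ 0} * (F ^ W.card * (1 + w i) * ∏ i ∈ I, (1 + H.lam i * w i)) := by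
          gcongr
          exact e2.trans (by gcongr)
      _ = F ^ W.card * (((H.P {ω | ω i ≠ 0}ᶜ + H.P {ω | ω i ≠ 0}) + H.P {ω | ω i ≠ 0} * w i) *
          ∏ i ∈ I, (1 + H.lam i * w i)) := by ring
      _ ≤ F ^ W.card * ((1 + H.lam i * w i) * ∏ i ∈ I, (1 + H.lam i * w i)) := by
          rw [e4]
          gcongr
          exact P_present_le i

omit [Countable V] [Countable ι] in
lemma gen_empty_empty (θ : ℝ≥0∞) (J : Set ι) : H.gen θ J ∅ ∅ = 1 := by
  have h : ∀ ω : ι → ℕ, H.pres ∅ ω = ∅ := by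
    intro ω; ext x; simp [pres]
  simp [gen, h, cluW_empty]

omit [Countable V] [Countable ι] in
lemma clus_finite_of_finite {J : Set ι} (hJ : J.Finite) (ω : ι → ℕ) (v : V) : (H.clus J ω v).Finite := by
  rw [← cluW_singleton]
  refine Set.Finite.subset ?_ (cluW_subset _ _ _)
  exact (finite_singleton v).union (hJ.biUnion fun i _ => (H.s i).finite_toSet)

omit [Countable V] [Countable ι] in
lemma pow_ncard_le {θ : ℝ≥0∞} (hθ : 1 ≤ θ) {A B C : Set V} (h : A ⊆ B ∪ C) (hB : B.Finite)
    (hC : C.Finite) : θ ^ A.ncard ≤ θ ^ B.ncard * θ ^ C.ncard := by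
  rw [← pow_add]
  exact pow_le_pow_right₀ hθ ((ncard_le_ncard h (hB.union hC)).trans (ncard_union_le B C))

/-- summing over the possible values of the cluster of `v` -/
lemma lintegral_clus_le {θ : ℝ≥0∞} (hθ : 1 ≤ θ) {J S : Set ι} (hJ : J.Finite)
    (hS : S ⊆ J) (v : V) (K I : Finset V → Set ι) (hK : ∀ A, K A ⊆ J) (hI : ∀ A, I A ⊆ J)
    (hKS : ∀ A : Finset V, Disjoint (S ∩ H.hit A) (K A ∪ I A)) (W : Finset V) (f : (ι → ℕ) → Set V)
    (hf : ∀ ω, ∀ A : Finset V, H.clus S ω v = A → f ω ⊆ A ∪ H.cluW (K A) ω (W ∪ H.pres (I A) ω)) :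
    ∫⁻ ω, θ ^ (f ω).ncard ∂H.P ≤
      ∑' A : Finset V, H.P {ω | H.clus S ω v = A} * (θ ^ A.card * H.gen θ (K A) (I A) W) := by
  have hE : ∀ A : Finset V, MeasurableSet[sig ι (S ∩ H.hit A)] {ω | H.clus S ω v = A} :=
    fun A => measurableSet_clus_eq S v A
  have hm : ∀ A : Finset V,
      Measurable[sig ι (K A ∪ I A)] fun ω => θ ^ (H.cluW (K A) ω (W ∪ H.pres (I A) ω)).ncard :=
    fun A => measurable_pow_cluW (hJ.subset (hK A)) (hJ.subset (hI A))
      (sig_mono subset_union_left) (sig_mono subset_union_right) W θ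
  have h1 : ∀ ω : ι → ℕ, θ ^ (f ω).ncard ≤
      ∑' A : Finset V, ({ω | H.clus S ω v = A}).indicator (fun _ => (1 : ℝ≥0∞)) ω *
        (θ ^ A.card * θ ^ (H.cluW (K A) ω (W ∪ H.pres (I A) ω)).ncard) := by
    intro ω
    have hfin : (H.clus S ω v).Finite := clus_finite_of_finite (hJ.subset hS) ω v
    refine le_trans ?_ (ENNReal.le_tsum hfin.toFinset)
    have hA : H.clus S ω v = ((hfin.toFinset : Finset V) : Set V) := hfin.coe_toFinset.symm
    rw [indicator_of_mem (show ω ∈ {ω | H.clus S ω v = ((hfin.toFinset : Finset V) : Set V)} from hA),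
      one_mul]
    have h2 := hf ω _ hA
    refine (pow_ncard_le hθ h2 hfin.toFinset.finite_toSet ?_).trans ?_
    · refine Set.Finite.subset ?_ (cluW_subset _ _ _)
      refine Set.Finite.union (W.finite_toSet.union ?_) ?_
      · refine Set.Finite.subset ?_ (pres_subset _ _)
        exact (hJ.subset (hI _)).biUnion fun i _ => (H.s i).finite_toSet
      · exact (hJ.subset (hK _)).biUnion fun i _ => (H.s i).finite_toSet
    · rw [ncard_coe_finset]
  refine (lintegral_mono h1).trans ?_
  rw [lintegral_tsum]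
  · refine ENNReal.tsum_le_tsum fun A => le_of_eq ?_
    have h3 : Measurable[sig ι (K A ∪ I A)]
        fun ω => θ ^ A.card * θ ^ (H.cluW (K A) ω (W ∪ H.pres (I A) ω)).ncard :=
      (hm A).const_mul _
    rw [lintegral_ind_mul_indep (hKS A) (hE A) h3]
    congr 1
    rw [lintegral_const_mul _ ((hm A).mono (sig_le _) le_rfl)]
    rfl
  · intro A
    refine (Measurable.mul ?_ ?_).aemeasurable
    · exact measurable_const.indicator (sig_le _ _ (hE A))
    · exact ((hm A).mono (sig_le _) le_rfl).const_mul _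

lemma tsum_clus_eq {θ : ℝ≥0∞} {J : Set ι} (hJ : J.Finite) (v : V) :
    ∑' A : Finset V, H.P {ω | H.clus J ω v = A} * θ ^ A.card =
      ∫⁻ ω, θ ^ (H.clus J ω v).ncard ∂H.P := by
  have h1 : ∀ ω : ι → ℕ, θ ^ (H.clus J ω v).ncard =
      ∑' A : Finset V, ({ω | H.clus J ω v = A}).indicator (fun _ => (1 : ℝ≥0∞)) ω *
        (θ ^ A.card) := by
    intro ω
    have hfin : (H.clus J ω v).Finite := clus_finite_of_finite hJ ω v
    have hA : H.clus J ω v = ((hfin.toFinset : Finset V) : Set V) := hfin.coe_toFinset.symm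
    rw [tsum_eq_single hfin.toFinset]
    · rw [indicator_of_mem
        (show ω ∈ {ω | H.clus J ω v = ((hfin.toFinset : Finset V) : Set V)} from hA), one_mul,
        ← ncard_coe_finset, ← hA]
    · intro B hB
      rw [indicator_of_notMem, zero_mul]
      intro h
      apply hB
      have h' : H.clus J ω v = (B : Set V) := h
      apply Finset.coe_injective
      exact h'.symm.trans hA
  have hE : ∀ A : Finset V, MeasurableSet {ω | H.clus J ω v = A} :=
    fun A => sig_le _ _ (measurableSet_clus_eq J v A)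
  simp_rw [h1]
  rw [lintegral_tsum]
  · refine tsum_congr fun A => ?_
    rw [lintegral_mul_const _ (measurable_const.indicator (hE A)), lintegral_indicator (hE A)]
    simp
  · intro A
    exact ((measurable_const.indicator (hE A)).mul_const _).aemeasurable

open Classical in
/-- **The recursion for the generating functions.** -/
theorem gen_le_pow {θ F : ℝ≥0∞} (hθ : 1 ≤ θ) (hF : 1 ≤ F) {w : ι → ℝ≥0∞}
    (hw : ∀ i, F ^ (H.s i).card ≤ 1 + w i) (S : Set ι) (Λ : V → Set ι)
    (hstar : ∀ J : Finset ι, (J : Set ι) ⊆ S → ∀ v : V,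
      ∑' A : Finset V, H.P {ω | H.clus (J ∩ Λ v) ω v = A} * (θ ^ A.card *
        ∏ i ∈ J.filter (fun i => i ∉ Λ v ∧ i ∈ H.hit A), (1 + H.lam i * w i)) ≤ F)
    (J : Finset ι) (hJ : (J : Set ι) ⊆ S) (W : Finset V) :
    H.gen θ J ∅ W ≤ F ^ W.card := by
  induction J using Finset.strongInduction generalizing W with
  | H J ih =>
    have hpres : ∀ ω : ι → ℕ, H.pres (∅ : Set ι) ω = ∅ := by
      intro ω; ext x; simp [pres]
    -- one vertex
    have h1 : ∀ v : V, ∫⁻ ω, θ ^ (H.clus J ω v).ncard ∂H.P ≤ F := by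
      intro v
      refine le_trans ?_ (hstar J hJ v)
      refine (lintegral_clus_le hθ J.finite_toSet (S := (J : Set ι) ∩ Λ v) inter_subset_left v
        (fun A => ((J.filter fun i => i ∉ H.hit A : Finset ι) : Set ι))
        (fun A => ((J.filter fun i => i ∉ Λ v ∧ i ∈ H.hit A : Finset ι) : Set ι))
        (fun A i hi => (Finset.mem_filter.1 (Finset.mem_coe.1 hi)).1)
        (fun A i hi => (Finset.mem_filter.1 (Finset.mem_coe.1 hi)).1) ?_ ∅
        (fun ω => H.clus J ω v) ?_).trans ?_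
      · intro A
        rw [Set.disjoint_left]
        rintro j ⟨⟨hj1, hj2⟩, hj3⟩ (hj | hj)
        · simp only [Finset.coe_filter, mem_ofPred_eq] at hj
          exact hj.2 hj3
        · simp only [Finset.coe_filter, mem_ofPred_eq] at hj
          exact hj.2.1 hj2
      · intro ω A hA
        have h2 := clus_subset_pres (H := H) (J : Set ι) ((J : Set ι) ∩ Λ v) ω v
        rw [hA] at h2
        refine h2.trans (union_subset_union_right _ ?_)
        rintro y ⟨x, ⟨i, hi, h0, hx⟩, hc⟩
        refine ⟨x, Or.inr ⟨i, ?_, h0, hx⟩, hc.mono_set ?_⟩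
        · simp only [Finset.coe_filter, mem_ofPred_eq]
          exact ⟨hi.1.1, fun hh => hi.1.2 ⟨hi.1.1, hh⟩, hi.2⟩
        · intro j hj
          simp only [Finset.coe_filter, mem_ofPred_eq]
          exact ⟨hj.1, hj.2⟩
      · refine ENNReal.tsum_le_tsum fun A => ?_
        gcongr
        rcases (J.filter fun i => i ∉ Λ v ∧ i ∈ H.hit A).eq_empty_or_nonempty with he | he
        · rw [he]
          simp [gen_empty_empty]
        · have hss : J.filter (fun i => i ∉ H.hit A) ⊂ J := by
            obtain ⟨i, hi⟩ := he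
            rw [Finset.mem_filter] at hi
            refine Finset.filter_ssubset.2 ⟨i, hi.1, ?_⟩
            simpa using hi.2.2
          have h3 := gen_le (H := H) (θ := θ) hF hw (J.filter fun i => i ∉ H.hit A).finite_toSet
            (fun W => ih _ hss (fun i hi => hJ (Finset.filter_subset _ _ hi)) W)
            (J.filter fun i => i ∉ Λ v ∧ i ∈ H.hit A) (by
              rw [Finset.disjoint_coe, Finset.disjoint_left]
              intro j hj hj'
              rw [Finset.mem_filter] at hj hj'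
              exact hj.2 hj'.2.2) ∅
          simpa using h3
    -- several vertices
    induction W using Finset.induction_on with
    | empty => simp [gen_empty_empty]
    | @insert v W hv ihW =>
      have h4 : H.gen θ J ∅ (insert v W) ≤
          ∑' A : Finset V, H.P {ω | H.clus J ω v = A} * (θ ^ A.card *
            H.gen θ ((J.filter fun i => i ∉ H.hit A : Finset ι) : Set ι) ∅ W) := by
        unfold gen
        refine lintegral_clus_le hθ J.finite_toSet (S := (J : Set ι)) subset_rfl v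
          (fun A => ((J.filter fun i => i ∉ H.hit A : Finset ι) : Set ι)) (fun _ => ∅)
          (fun A i hi => (Finset.mem_filter.1 (Finset.mem_coe.1 hi)).1)
          (fun A => empty_subset _) ?_ W _ ?_
        · intro A
          rw [Set.disjoint_left]
          rintro j ⟨hj1, hj3⟩ (hj | hj)
          · simp only [Finset.coe_filter, mem_ofPred_eq] at hj
            exact hj.2 hj3
          · exact hj
        · intro ω A hA
          have h2 := cluW_insert_subset (H := H) (J : Set ι) ω v W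
          rw [hA] at h2
          rw [hpres, union_empty, union_empty, Finset.coe_insert]
          refine h2.trans (union_subset_union_right _ ?_)
          rintro y ⟨x, hx, hc⟩
          refine ⟨x, hx, hc.mono_set ?_⟩
          intro j hj
          simp only [Finset.coe_filter, mem_ofPred_eq]
          exact ⟨hj.1, hj.2⟩
      refine h4.trans ?_
      rw [Finset.card_insert_of_notMem hv, pow_succ']
      calc ∑' A : Finset V, H.P {ω | H.clus J ω v = A} * (θ ^ A.card *
            H.gen θ ((J.filter fun i => i ∉ H.hit A : Finset ι) : Set ι) ∅ W)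
          ≤ ∑' A : Finset V, H.P {ω | H.clus J ω v = A} * θ ^ A.card * F ^ W.card := by
            refine ENNReal.tsum_le_tsum fun A => ?_
            rw [mul_assoc]
            gcongr
            by_cases hss : J.filter (fun i => i ∉ H.hit A) = J
            · rw [hss]; exact ihW
            · exact ih _ ((Finset.filter_subset _ _).ssubset_of_ne hss)
                (fun i hi => hJ (Finset.filter_subset _ _ hi)) W
        _ = (∫⁻ ω, θ ^ (H.clus J ω v).ncard ∂H.P) * F ^ W.card := by
            rw [ENNReal.tsum_mul_right, tsum_clus_eq J.finite_toSet]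
        _ ≤ F * F ^ W.card := by
            gcongr
            exact h1 v

end Meas

/-! ### finite subfamilies -/

lemma conn_finset {S : Set ι} {ω : ι → ℕ} {x y : V} (h : H.Conn S ω x y) :
    ∃ J : Finset ι, (J : Set ι) ⊆ S ∧ H.Conn J ω x y := by
  classical
  induction h with
  | refl => exact ⟨∅, by simp, Conn.refl _⟩
  | @tail b c _ hbc ih =>
    obtain ⟨J, hJ, hc⟩ := ih
    obtain ⟨i, hi, h0, hb, hc'⟩ := hbc
    refine ⟨insert i J, ?_, ?_⟩
    · rw [Finset.coe_insert]
      exact insert_subset hi hJ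
    · refine Relation.ReflTransGen.tail (hc.mono_set ?_) ⟨i, ?_, h0, hb, hc'⟩
      · rw [Finset.coe_insert]; exact subset_insert _ _
      · rw [Finset.coe_insert]; exact mem_insert _ _

lemma encard_eq_tsum (A : Set V) :
    (A.encard : ℝ≥0∞) = ∑' y : V, A.indicator (fun _ => (1 : ℝ≥0∞)) y := by
  rw [← ENNReal.tsum_set_one, tsum_subtype A (fun _ => (1 : ℝ≥0∞))]

lemma exists_finset_encard {S : Set ι} {ω : ι → ℕ} {x : V} {a : ℝ≥0∞}
    (h : a < ((H.clus S ω x).encard : ℝ≥0∞)) :
    ∃ J : Finset ι, (J : Set ι) ⊆ S ∧ a < ((H.clus J ω x).encard : ℝ≥0∞) := by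
  classical
  rw [encard_eq_tsum, ENNReal.tsum_eq_iSup_sum, lt_iSup_iff] at h
  obtain ⟨T, hT⟩ := h
  have h1 : ∀ y : V, ∃ J : Finset ι, (J : Set ι) ⊆ S ∧ (H.Conn S ω x y → H.Conn J ω x y) := by
    intro y
    by_cases hy : H.Conn S ω x y
    · obtain ⟨J, hJ, hc⟩ := conn_finset hy
      exact ⟨J, hJ, fun _ => hc⟩
    · exact ⟨∅, by simp, fun h => absurd h hy⟩
  choose f hf hf' using h1
  refine ⟨T.biUnion f, ?_, ?_⟩
  · rw [Finset.coe_biUnion]
    exact iUnion₂_subset fun y _ => hf y
  · refine hT.trans_le ?_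
    rw [encard_eq_tsum]
    refine le_trans (Finset.sum_le_sum fun y hy => ?_) (ENNReal.sum_le_tsum T)
    by_cases hc : y ∈ H.clus S ω x
    · have hc' : y ∈ H.clus (T.biUnion f : Finset ι) ω x := by
        refine Conn.mono_set ?_ (hf' y hc)
        exact_mod_cast Finset.subset_biUnion_of_mem f hy
      rw [indicator_of_mem hc, indicator_of_mem hc']
    · rw [indicator_of_notMem hc]
      exact zero_le

/-- the cluster in a family is the increasing limit of the clusters in the finite subfamilies -/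
lemma P_encard_le_of_finset [Countable V] [Countable ι] (S : Set ι) (x : V) (a c : ℝ≥0∞)
    (h : ∀ J : Finset ι, (J : Set ι) ⊆ S → H.P {ω | a < ((H.clus J ω x).encard : ℝ≥0∞)} ≤ c) :
    H.P {ω | a < ((H.clus S ω x).encard : ℝ≥0∞)} ≤ c := by
  classical
  set E : Finset ι → Set (ι → ℕ) := fun J =>
    {ω | a < ((H.clus (J.filter fun i => i ∈ S : Finset ι) ω x).encard : ℝ≥0∞)} with hE
  have hmono : Monotone E := by
    intro J J' hJ ω hω
    have hω' : a < ((H.clus (J.filter fun i => i ∈ S : Finset ι) ω x).encard : ℝ≥0∞) := hω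
    refine lt_of_lt_of_le hω' ?_
    have h1 : H.clus (J.filter fun i => i ∈ S : Finset ι) ω x ⊆
        H.clus (J'.filter fun i => i ∈ S : Finset ι) ω x :=
      clus_mono (by exact_mod_cast Finset.filter_subset_filter _ hJ) ω x
    exact_mod_cast encard_le_encard h1
  have hU : {ω | a < ((H.clus S ω x).encard : ℝ≥0∞)} ⊆ ⋃ J, E J := by
    intro ω hω
    obtain ⟨J, hJ, hJ'⟩ := exists_finset_encard hω
    refine mem_iUnion.2 ⟨J, ?_⟩
    have h2 : J.filter (fun i => i ∈ S) = J := Finset.filter_true_of_mem fun i hi => hJ hi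
    rw [hE]
    simp only [mem_ofPred_eq]
    rw [h2]; exact hJ'
  refine (measure_mono hU).trans ?_
  rw [hmono.directed_le.measure_iUnion]
  exact iSup_le fun J => h _ fun i hi => (Finset.mem_filter.1 (Finset.mem_coe.1 hi)).2

end Pool.Agent.LoopPerc.HSys
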