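import Pool.Agent.LoopPerc.Walk
import Pool.Agent.LoopPerc.ExpGen

/-!
# Exponential moments of truncated clusters
-/

namespace Pool.Agent.LoopPerc

open MeasureTheory ProbabilityTheory Filter Topology Set
open scoped ENNReal NNReal

namespace HSys

/-! ### translation invariance -/

section Shift

variable {d : ℕ} {ι : Type*} {H : HSys (Lat d) ι}

lemma map_P_act (sh : H.Shift) (v : Lat d) : H.P.map (fun ω i => ω (sh.act v i)) = H.P := by
  classical
  have hf : Measurable (fun (ω : ι → ℕ) (i : ι) => ω (sh.act v i)) :=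
    measurable_pi_lambda _ fun i => measurable_pi_apply _
  unfold P
  refine Measure.eq_infinitePi _ fun s t ht => ?_
  rw [Measure.map_apply hf (MeasurableSet.pi s.countable_toSet fun i _ => ht i)]
  have h1 : (fun (ω : ι → ℕ) (i : ι) => ω (sh.act v i)) ⁻¹' (Set.pi s t) =
      Set.pi ((s.image (sh.act v) : Finset ι) : Set ι) fun j => t ((sh.act v).symm j) := by
    ext ω
    simp only [mem_preimage, Set.mem_pi, Finset.mem_coe, Finset.mem_image]
    constructor
    · rintro h j ⟨i, hi, rfl⟩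
      simpa using h i hi
    · intro h i hi
      simpa using h _ ⟨i, hi, rfl⟩
  rw [h1, Measure.infinitePi_pi _ (fun j _ => ht _), Finset.prod_image (by simp)]
  refine Finset.prod_congr rfl fun i _ => ?_
  rw [sh.lam_act]; simp

lemma mem_s_act (sh : H.Shift) (v : Lat d) (i : ι) (x : Lat d) :
    x + v ∈ H.s (sh.act v i) ↔ x ∈ H.s i := by
  rw [sh.s_act]
  simp [addRightEmbedding]

lemma mem_s_act' (sh : H.Shift) (v : Lat d) (i : ι) (x : Lat d) :
    x ∈ H.s (sh.act v i) ↔ x - v ∈ H.s i := by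
  rw [← mem_s_act sh v i (x - v), sub_add_cancel]

lemma conn_univ_act (sh : H.Shift) (v : Lat d) (ω : ι → ℕ) (x y : Lat d) :
    H.Conn univ (fun i => ω (sh.act v i)) x y ↔ H.Conn univ ω (x + v) (y + v) := by
  constructor
  · intro h
    induction h with
    | refl => exact Conn.refl _
    | @tail b c _ hbc ih =>
      obtain ⟨i, -, h0, hb, hc⟩ := hbc
      exact Relation.ReflTransGen.tail ih ⟨sh.act v i, mem_univ _, h0, (mem_s_act sh v i b).2 hb,
        (mem_s_act sh v i c).2 hc⟩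
  · intro h
    have h' : ∀ z, H.Conn univ ω (x + v) z → H.Conn univ (fun i => ω (sh.act v i)) x (z - v) := by
      intro z hz
      induction hz with
      | refl => rw [add_sub_cancel_right]; exact Conn.refl _
      | @tail b c _ hbc ih =>
        obtain ⟨i, -, h0, hb, hc⟩ := hbc
        refine Relation.ReflTransGen.tail ih ⟨(sh.act v).symm i, mem_univ _, ?_, ?_, ?_⟩
        · simpa using h0
        · rw [← mem_s_act' sh v]; simpa using hb
        · rw [← mem_s_act' sh v]; simpa using hc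
    have := h' _ h
    rwa [add_sub_cancel_right] at this

variable [Countable ι]

lemma tau_act (sh : H.Shift) (v x y : Lat d) :
    H.P {ω | H.Conn univ ω (x + v) (y + v)} = H.P {ω | H.Conn univ ω x y} := by
  have hf : Measurable (fun (ω : ι → ℕ) (i : ι) => ω (sh.act v i)) :=
    measurable_pi_lambda _ fun i => measurable_pi_apply _
  conv_rhs => rw [← map_P_act sh v]
  rw [Measure.map_apply hf (sig_le _ _ (measurableSet_conn univ x y))]
  congr 1
  ext ω
  exact (conn_univ_act sh v ω x y).symm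

/-- the expected size of the cluster -/
lemma lintegral_encard_clus (J : Set ι) (x : Lat d) :
    ∫⁻ ω, ((H.clus J ω x).encard : ℝ≥0∞) ∂H.P = ∑' y : Lat d, H.P {ω | H.Conn J ω x y} := by
  have h1 : ∀ ω : ι → ℕ, ((H.clus J ω x).encard : ℝ≥0∞) =
      ∑' y : Lat d, ({ω | H.Conn J ω x y}).indicator (fun _ => (1 : ℝ≥0∞)) ω := by
    intro ω
    rw [← ENNReal.tsum_set_one, tsum_subtype (H.clus J ω x) (fun _ => (1 : ℝ≥0∞))]
    rfl
  have hE : ∀ y : Lat d, MeasurableSet {ω | H.Conn J ω x y} :=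
    fun y => sig_le _ _ (measurableSet_conn J x y)
  simp_rw [h1]
  rw [lintegral_tsum fun y => (measurable_const.indicator (hE y)).aemeasurable]
  refine tsum_congr fun y => ?_
  rw [lintegral_indicator (hE y)]; simp

end Shift

end HSys

/-! ### boxes -/

/-- the box of radius `R` around `v` -/
noncomputable def bx {d : ℕ} (R : ℕ) (v : Lat d) : Finset (Lat d) :=
  Finset.Icc (v - fun _ => (R : ℤ)) (v + fun _ => (R : ℤ))

lemma card_bx {d : ℕ} (R : ℕ) (v : Lat d) : (bx R v).card = (2 * R + 1) ^ d := by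
  unfold bx
  rw [Pi.card_Icc]
  simp only [Pi.sub_apply, Pi.add_apply, Int.card_Icc]
  rw [Finset.prod_congr rfl (g := fun _ => 2 * R + 1)]
  · simp
  · intro i _; omega

lemma mem_bx {d : ℕ} {R : ℕ} {v x : Lat d} : x ∈ bx R v ↔ ∀ j, |x j - v j| ≤ R := by
  unfold bx
  rw [Finset.mem_Icc, Pi.le_def, Pi.le_def, ← forall_and]
  refine forall_congr' fun j => ?_
  simp only [Pi.sub_apply, Pi.add_apply, abs_le]
  constructor
  · rintro ⟨h1, h2⟩; constructor <;> linarith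
  · rintro ⟨h1, h2⟩; constructor <;> linarith

lemma self_mem_bx {d : ℕ} (R : ℕ) (v : Lat d) : v ∈ bx R v := by
  rw [mem_bx]; intro j; simp

lemma mem_bx_add {d : ℕ} {R : ℕ} {v x w : Lat d} : x + w ∈ bx R (v + w) ↔ x ∈ bx R v := by
  rw [mem_bx, mem_bx]
  simp

lemma bx_mono {d : ℕ} {R R' : ℕ} (h : R ≤ R') (v : Lat d) : bx R v ⊆ bx R' v := by
  intro x hx
  rw [mem_bx] at hx ⊢
  intro j
  exact (hx j).trans (by exact_mod_cast h)

lemma exists_bx {d : ℕ} (A : Finset (Lat d)) : ∃ R : ℕ, A ⊆ bx R 0 := by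
  classical
  refine ⟨∑ x ∈ A, ∑ j, (x j).natAbs, fun x hx => ?_⟩
  rw [mem_bx]
  intro j
  have h1 : (x j).natAbs ≤ ∑ j, (x j).natAbs :=
    Finset.single_le_sum (f := fun j => (x j).natAbs) (fun _ _ => Nat.zero_le _) (Finset.mem_univ j)
  have h2 : ∑ j, (x j).natAbs ≤ ∑ x ∈ A, ∑ j, (x j).natAbs :=
    Finset.single_le_sum (f := fun x : Lat d => ∑ j, (x j).natAbs) (fun _ _ => Nat.zero_le _) hx
  simp only [Pi.zero_apply, sub_zero]
  rw [Int.abs_eq_natAbs]
  exact_mod_cast h1.trans h2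

/-! ### real inequalities -/

lemma exp_sub_one_le {x : ℝ} (hx : 0 ≤ x) : Real.exp x - 1 ≤ x + x ^ 2 * Real.exp x := by
  have h1 : Real.exp x - 1 ≤ x * Real.exp x := by
    have h := Real.add_one_le_exp (-x)
    have h2 : Real.exp (-x) * Real.exp x = 1 := by rw [← Real.exp_add]; simp
    nlinarith [Real.exp_pos x]
  nlinarith [Real.exp_pos x]

lemma exp_le_one_add_two {x : ℝ} (hx : 0 ≤ x) (hx1 : x ≤ 1) : Real.exp x ≤ 1 + 2 * x := by
  have h := Real.abs_exp_sub_one_sub_id_le (x := x) (by rw [abs_of_nonneg hx]; exact hx1)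
  have h2 := (abs_le.1 h).2
  nlinarith

lemma prod_le_one_add_two {ι : Type*} (I : Finset ι) (a : ι → ℝ≥0∞) (t : ℝ) (ht : 0 ≤ t)
    (h : ENNReal.ofReal t + ∑ i ∈ I, a i ≤ 1) :
    ENNReal.ofReal (Real.exp t) * ∏ i ∈ I, (1 + a i) ≤
      1 + 2 * (ENNReal.ofReal t + ∑ i ∈ I, a i) := by
  have hfin : ∀ i ∈ I, a i ≠ ⊤ := by
    intro i hi
    have h1 : a i ≤ 1 := (Finset.single_le_sum (f := a) (fun _ _ => zero_le) hi).trans
      (le_add_self.trans h)
    exact ne_top_of_le_ne_top ENNReal.one_ne_top h1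
  have h1 : ∑ i ∈ I, a i = ENNReal.ofReal (∑ i ∈ I, (a i).toReal) := by
    rw [ENNReal.ofReal_sum_of_nonneg fun i _ => ENNReal.toReal_nonneg]
    exact Finset.sum_congr rfl fun i hi => (ENNReal.ofReal_toReal (hfin i hi)).symm
  have h2 : ∏ i ∈ I, (1 + a i) = ENNReal.ofReal (∏ i ∈ I, (1 + (a i).toReal)) := by
    rw [ENNReal.ofReal_prod_of_nonneg fun i _ => add_nonneg zero_le_one ENNReal.toReal_nonneg]
    refine Finset.prod_congr rfl fun i hi => ?_
    rw [ENNReal.ofReal_add zero_le_one ENNReal.toReal_nonneg, ENNReal.ofReal_one,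
      ENNReal.ofReal_toReal (hfin i hi)]
  have h3 : 0 ≤ ∑ i ∈ I, (a i).toReal := Finset.sum_nonneg fun i _ => ENNReal.toReal_nonneg
  have h4 : t + ∑ i ∈ I, (a i).toReal ≤ 1 := by
    rw [h1, ← ENNReal.ofReal_add ht h3, ← ENNReal.ofReal_one] at h
    exact (ENNReal.ofReal_le_ofReal_iff zero_le_one).1 h
  have h5 : Real.exp t * ∏ i ∈ I, (1 + (a i).toReal) ≤ 1 + 2 * (t + ∑ i ∈ I, (a i).toReal) := by
    refine le_trans ?_ (exp_le_one_add_two (add_nonneg ht h3) h4)
    rw [Real.exp_add, Real.exp_sum]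
    gcongr with i hi
    rw [add_comm]
    exact Real.add_one_le_exp _
  rw [h1, h2, ← ENNReal.ofReal_mul (Real.exp_pos _).le, ← ENNReal.ofReal_add ht h3,
    show (2 : ℝ≥0∞) = ENNReal.ofReal 2 by simp, ← ENNReal.ofReal_mul (by norm_num),
    ← ENNReal.ofReal_one, ← ENNReal.ofReal_add zero_le_one (by positivity)]
  exact ENNReal.ofReal_le_ofReal h5

/-- the weight of a hyperedge of length `l < n`, `e ^ (g l) ≤ n ^ (1/8)` -/
lemma exp_weight_le {g n l s : ℝ} (hg : 0 ≤ g) (hs : 0 ≤ s) (hsl : s ≤ l) (hln : l ≤ n)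
    (he : Real.exp (g * l) ≤ n ^ ((1 : ℝ) / 8)) :
    Real.exp (g * s) - 1 ≤ g * l + g ^ 2 * n ^ ((7 : ℝ) / 8) * l ^ ((5 : ℝ) / 4) := by
  have hl : 0 ≤ l := hs.trans hsl
  have hn : 0 ≤ n := hl.trans hln
  have h1 : Real.exp (g * s) ≤ Real.exp (g * l) := Real.exp_le_exp.2 (by gcongr)
  have h2 := exp_sub_one_le (x := g * l) (by positivity)
  have h3 : l ^ 2 = l ^ ((5 : ℝ) / 4) * l ^ ((3 : ℝ) / 4) := by
    rcases hl.eq_or_lt with rfl | hl
    · rw [Real.zero_rpow (by norm_num)]; norm_num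
    · rw [← Real.rpow_add hl, ← Real.rpow_natCast]; norm_num
  have h4 : l ^ ((3 : ℝ) / 4) ≤ n ^ ((3 : ℝ) / 4) := Real.rpow_le_rpow hl hln (by norm_num)
  have h5 : n ^ ((3 : ℝ) / 4) * n ^ ((1 : ℝ) / 8) = n ^ ((7 : ℝ) / 8) := by
    rcases hn.eq_or_lt with rfl | hn
    · rw [Real.zero_rpow (by norm_num), Real.zero_rpow (by norm_num), Real.zero_rpow (by norm_num)]
      norm_num
    · rw [← Real.rpow_add hn]; norm_num
  have h6 : (g * l) ^ 2 * Real.exp (g * l) ≤ g ^ 2 * n ^ ((7 : ℝ) / 8) * l ^ ((5 : ℝ) / 4) := by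
    calc (g * l) ^ 2 * Real.exp (g * l) = g ^ 2 * (l ^ ((5 : ℝ) / 4) * l ^ ((3 : ℝ) / 4)) *
          Real.exp (g * l) := by rw [← h3]; ring
      _ ≤ g ^ 2 * (l ^ ((5 : ℝ) / 4) * n ^ ((3 : ℝ) / 4)) * n ^ ((1 : ℝ) / 8) := by gcongr
      _ = g ^ 2 * (n ^ ((3 : ℝ) / 4) * n ^ ((1 : ℝ) / 8)) * l ^ ((5 : ℝ) / 4) := by ring
      _ = _ := by rw [h5]
  linarith

/-! ### the numerical condition of the recursion -/

namespace HSys

section Star

variable {d : ℕ} {ι : Type*} {H : HSys (Lat d) ι}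

open Classical in
/-- `∑_{i ∋ u} f i` -/
noncomputable def vsum (H : HSys (Lat d) ι) (f : ι → ℝ≥0∞) (u : Lat d) : ℝ≥0∞ :=
  ∑' i, if u ∈ H.s i then f i else 0

lemma vsum_mono {f g : ι → ℝ≥0∞} {u : Lat d} (h : ∀ i, u ∈ H.s i → f i ≤ g i) :
    H.vsum f u ≤ H.vsum g u := by
  refine ENNReal.tsum_le_tsum fun i => ?_
  split_ifs with hi
  · exact h i hi
  · exact le_rfl

lemma vsum_add (f g : ι → ℝ≥0∞) (u : Lat d) :
    H.vsum (fun i => f i + g i) u = H.vsum f u + H.vsum g u := by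
  unfold vsum
  rw [← ENNReal.tsum_add]
  refine tsum_congr fun i => ?_
  split_ifs <;> simp

lemma vsum_mul_left (c : ℝ≥0∞) (f : ι → ℝ≥0∞) (u : Lat d) :
    H.vsum (fun i => c * f i) u = c * H.vsum f u := by
  unfold vsum
  rw [← ENNReal.tsum_mul_left]
  refine tsum_congr fun i => ?_
  split_ifs <;> simp

lemma vsum_act (sh : H.Shift) {f f' : ι → ℝ≥0∞} (v : Lat d) (hf : ∀ i, f (sh.act v i) = f' i)
    (u : Lat d) : H.vsum f (u + v) = H.vsum f' u := by
  unfold vsum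
  rw [← (sh.act v).tsum_eq]
  refine tsum_congr fun i => ?_
  rw [hf]
  simp only [mem_s_act]

lemma sum_le_vsum (f : ι → ℝ≥0∞) (A : Finset (Lat d)) (I : Finset ι)
    (hI : ∀ i ∈ I, i ∈ H.hit A) : ∑ i ∈ I, f i ≤ ∑ u ∈ A, H.vsum f u := by
  classical
  calc ∑ i ∈ I, f i ≤ ∑ i ∈ I, ∑ u ∈ A, (if u ∈ H.s i then f i else 0) := by
        refine Finset.sum_le_sum fun i hi => ?_
        obtain ⟨u, hu, hu'⟩ := hI i hi
        have h := Finset.single_le_sum (f := fun u => if u ∈ H.s i then f i else 0)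
          (fun _ _ => zero_le) (Finset.mem_coe.1 hu')
        simpa [hu] using h
    _ = ∑ u ∈ A, ∑ i ∈ I, (if u ∈ H.s i then f i else 0) := Finset.sum_comm
    _ ≤ ∑ u ∈ A, H.vsum f u := by
        refine Finset.sum_le_sum fun u _ => ?_
        unfold vsum
        refine le_trans (ENNReal.sum_le_tsum I) (le_of_eq (tsum_congr fun i => ?_))
        congr

variable [Countable ι]

lemma tsum_clus_mem_le (J : Set ι) (v u : Lat d) [∀ A : Finset (Lat d), Decidable (u ∈ A)] :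
    ∑' A : Finset (Lat d), (if u ∈ A then H.P {ω | H.clus J ω v = A} else 0) ≤
      H.P {ω | H.Conn univ ω v u} := by
  have h1 : ∀ A : Finset (Lat d), (if u ∈ A then H.P {ω | H.clus J ω v = A} else 0) =
      H.P (if u ∈ A then {ω | H.clus J ω v = A} else ∅) := by
    intro A; split_ifs <;> simp
  simp_rw [h1]
  refine (tsum_meas_le_meas_iUnion_of_disjoint H.P ?_ ?_).trans (measure_mono ?_)
  · intro A
    split_ifs
    · exact sig_le _ _ (measurableSet_clus_eq J v A)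
    · exact MeasurableSet.empty
  · intro A B hAB
    rw [Function.onFun, Set.disjoint_left]
    intro ω hω hω'
    split_ifs at hω hω'
    · exact hAB (Finset.coe_injective (Eq.trans (Eq.symm hω) hω'))
    · exact hω'
    · exact hω
    · exact hω
  · intro ω hω
    obtain ⟨A, hA⟩ := mem_iUnion.1 hω
    split_ifs at hA with hu
    · have h2 : H.clus J ω v = A := hA
      have h3 : u ∈ H.clus J ω v := by rw [h2]; exact hu
      exact Conn.mono_set (subset_univ _) h3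
    · exact absurd hA (notMem_empty _)

lemma tsum_clus_sum_le (J : Set ι) (v : Lat d) (Φ : Lat d → ℝ≥0∞) :
    ∑' A : Finset (Lat d), H.P {ω | H.clus J ω v = A} * ∑ u ∈ A, Φ u ≤
      ∑' u, H.P {ω | H.Conn univ ω v u} * Φ u := by
  classical
  calc ∑' A : Finset (Lat d), H.P {ω | H.clus J ω v = A} * ∑ u ∈ A, Φ u
      = ∑' A : Finset (Lat d), ∑' u, (if u ∈ A then H.P {ω | H.clus J ω v = A} else 0) * Φ u := by
        refine tsum_congr fun A => ?_
        rw [tsum_eq_sum (s := A) (by intro u hu; simp [hu]), Finset.mul_sum]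
        exact Finset.sum_congr rfl fun u hu => by simp [hu]
    _ = ∑' u, ∑' A : Finset (Lat d), (if u ∈ A then H.P {ω | H.clus J ω v = A} else 0) * Φ u :=
        ENNReal.tsum_comm
    _ ≤ ∑' u, H.P {ω | H.Conn univ ω v u} * Φ u := by
        refine ENNReal.tsum_le_tsum fun u => ?_
        rw [ENNReal.tsum_mul_right]
        gcongr
        exact tsum_clus_mem_le J v u

lemma tsum_clus_one {J : Set ι} (hJ : J.Finite) (v : Lat d) :
    ∑' A : Finset (Lat d), H.P {ω | H.clus J ω v = A} = 1 := by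
  have h := tsum_clus_eq (H := H) (θ := 1) hJ v
  simpa using h

open Classical in
/-- outer hyperedges: `∑_u τ(v,u) ∑_{i ∋ u, s i ⊄ bx R v} L i` -/
noncomputable def kapF (H : HSys (Lat d) ι) (L : ι → ℝ≥0∞) (R : ℕ) (v : Lat d) : ℝ≥0∞ :=
  ∑' u, H.P {ω | H.Conn univ ω v u} * H.vsum (fun i => if H.s i ⊆ bx R v then 0 else L i) u

open Classical in
theorem star_le (R : ℕ) (v : Lat d) (J : Finset ι) (lam g q : ℝ) (hlam : 0 ≤ lam)
    (w L1 L2 : ι → ℝ≥0∞) (χ ρ : ℝ≥0∞) (hL : ∀ i, L1 i ≤ L2 i)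
    (hw : ∀ i ∈ J, H.lam i * w i ≤ ENNReal.ofReal g * L1 i + ENNReal.ofReal q * L2 i)
    (hρ : ∀ u, H.vsum L2 u = ρ) (hχ : ∑' u, H.P {ω | H.Conn univ ω v u} = χ)
    (hsmall : ENNReal.ofReal (lam * (2 * R + 1) ^ d) +
      ((2 * R + 1) ^ d : ℝ≥0∞) * (ENNReal.ofReal g * ρ + ENNReal.ofReal q * ρ) ≤ 1) :
    ∑' A : Finset (Lat d), H.P {ω | H.clus (J ∩ {i | H.s i ⊆ bx R v}) ω v = A} *
      (ENNReal.ofReal (Real.exp lam) ^ A.card *
        ∏ i ∈ J.filter (fun i => i ∉ {i | H.s i ⊆ bx R v} ∧ i ∈ H.hit A), (1 + H.lam i * w i)) ≤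
      1 + 2 * (ENNReal.ofReal (lam * (2 * R + 1) ^ d) +
        (ENNReal.ofReal g * H.kapF L1 R v + ENNReal.ofReal q * (χ * ρ))) := by
  set b : ℝ := (2 * R + 1) ^ d with hb
  set Λ : Set ι := {i | H.s i ⊆ bx R v} with hΛ
  set I : Finset (Lat d) → Finset ι := fun A => J.filter (fun i => i ∉ Λ ∧ i ∈ H.hit A) with hI
  set f : ι → ℝ≥0∞ := fun i => ENNReal.ofReal g * (if H.s i ⊆ bx R v then 0 else L1 i) +
    ENNReal.ofReal q * L2 i with hf
  have hfΦ : ∀ u, H.vsum f u = ENNReal.ofReal g *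
      H.vsum (fun i => if H.s i ⊆ bx R v then 0 else L1 i) u + ENNReal.ofReal q * ρ := by
    intro u
    rw [hf, vsum_add, vsum_mul_left, vsum_mul_left, hρ]
  have hfΦ' : ∀ u, H.vsum f u ≤ ENNReal.ofReal g * ρ + ENNReal.ofReal q * ρ := by
    intro u
    rw [hfΦ]
    gcongr
    rw [← hρ u]
    refine vsum_mono fun i _ => ?_
    split_ifs
    · exact zero_le
    · exact hL i
  have hsum : ∀ A : Finset (Lat d), ∑ i ∈ I A, H.lam i * w i ≤ ∑ u ∈ A, H.vsum f u := by
    intro A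
    refine le_trans (Finset.sum_le_sum fun i hi => ?_)
      (sum_le_vsum f A (I A) fun i hi => (Finset.mem_filter.1 hi).2.2)
    rw [hI, Finset.mem_filter] at hi
    have h1 : ¬ H.s i ⊆ bx R v := hi.2.1
    rw [hf]
    simp only [if_neg h1]
    exact hw i hi.1
  have hterm : ∀ A : Finset (Lat d), H.P {ω | H.clus (J ∩ Λ) ω v = A} *
      (ENNReal.ofReal (Real.exp lam) ^ A.card * ∏ i ∈ I A, (1 + H.lam i * w i)) ≤
      H.P {ω | H.clus (J ∩ Λ) ω v = A} + 2 * (H.P {ω | H.clus (J ∩ Λ) ω v = A} *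
        ENNReal.ofReal (lam * b) + H.P {ω | H.clus (J ∩ Λ) ω v = A} * ∑ u ∈ A, H.vsum f u) := by
    intro A
    by_cases hA : A ⊆ bx R v
    · have hcard : (A.card : ℝ) ≤ b := by
        have h1 := Finset.card_le_card hA
        rw [card_bx] at h1
        rw [hb]
        exact_mod_cast h1
      have h2 : ENNReal.ofReal (lam * A.card) ≤ ENNReal.ofReal (lam * b) :=
        ENNReal.ofReal_le_ofReal (by gcongr)
      have h3 : ∑ u ∈ A, H.vsum f u ≤
          ((2 * R + 1) ^ d : ℝ≥0∞) * (ENNReal.ofReal g * ρ + ENNReal.ofReal q * ρ) := by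
        refine (Finset.sum_le_sum fun u _ => hfΦ' u).trans ?_
        rw [Finset.sum_const, nsmul_eq_mul]
        gcongr
        have h1 := Finset.card_le_card hA
        rw [card_bx] at h1
        exact_mod_cast h1
      have h4 : ENNReal.ofReal (lam * A.card) + ∑ i ∈ I A, H.lam i * w i ≤ 1 :=
        (add_le_add h2 ((hsum A).trans h3)).trans hsmall
      have h5 := prod_le_one_add_two (I A) (fun i => H.lam i * w i) (lam * A.card)
        (by positivity) h4
      have h6 : ENNReal.ofReal (Real.exp (lam * A.card)) = ENNReal.ofReal (Real.exp lam) ^ A.card := by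
        rw [← ENNReal.ofReal_pow (Real.exp_pos _).le, ← Real.exp_nat_mul, mul_comm]
      rw [h6] at h5
      calc H.P {ω | H.clus (J ∩ Λ) ω v = A} *
          (ENNReal.ofReal (Real.exp lam) ^ A.card * ∏ i ∈ I A, (1 + H.lam i * w i))
          ≤ H.P {ω | H.clus (J ∩ Λ) ω v = A} *
            (1 + 2 * (ENNReal.ofReal (lam * b) + ∑ u ∈ A, H.vsum f u)) := by
            gcongr
            refine h5.trans ?_
            gcongr
            exact hsum A
        _ = _ := by ring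
    · have h0 : {ω | H.clus (J ∩ Λ) ω v = A} = ∅ := by
        ext ω
        simp only [mem_ofPred_eq, mem_empty_iff_false, iff_false]
        intro h
        apply hA
        intro y hy
        have hy' : y ∈ H.clus (J ∩ Λ) ω v := by rw [h]; exact hy
        rcases conn_subset hy' with rfl | ⟨i, hi, hyi⟩
        · exact self_mem_bx _ _
        · exact hi.2 hyi
      rw [h0]; simp
  refine (ENNReal.tsum_le_tsum hterm).trans ?_
  rw [ENNReal.tsum_add, ENNReal.tsum_mul_left, ENNReal.tsum_add, ENNReal.tsum_mul_right,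
    tsum_clus_one (J.finite_toSet.subset inter_subset_left), one_mul]
  gcongr
  refine (tsum_clus_sum_le _ v _).trans (le_of_eq ?_)
  simp_rw [hfΦ, mul_add]
  rw [ENNReal.tsum_add]
  congr 1
  · unfold kapF
    rw [← ENNReal.tsum_mul_left]
    refine tsum_congr fun u => ?_
    ring
  · rw [ENNReal.tsum_mul_right, hχ]
    ring

lemma kap_act (sh : H.Shift) {L : ι → ℝ≥0∞} (hL : ∀ v i, L (sh.act v i) = L i) (R : ℕ)
    (v : Lat d) : H.kapF L R v = H.kapF L R 0 := by
  classical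
  unfold kapF
  rw [← (Equiv.addRight v).tsum_eq]
  refine tsum_congr fun u => ?_
  simp only [Equiv.coe_addRight]
  congr 1
  · have h := tau_act sh v 0 u
    rw [zero_add] at h
    exact h
  · refine vsum_act sh v (fun i => ?_) u
    have h : H.s (sh.act v i) ⊆ bx R v ↔ H.s i ⊆ bx R 0 := by
      constructor
      · intro h x hx
        have h1 := h ((mem_s_act sh v i x).2 hx)
        rw [← mem_bx_add (w := v), zero_add]; exact h1
      · intro h x hx
        have h1 := h ((mem_s_act' sh v i x).1 hx)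
        rw [← mem_bx_add (w := v), zero_add, sub_add_cancel] at h1; exact h1
    simp only [h, hL]

omit [Countable ι] in
lemma exists_kap_le {L : ι → ℝ≥0∞}
    (hfin : ∑' u, H.P {ω | H.Conn univ ω 0 u} * H.vsum L u ≠ ⊤) {ε : ℝ≥0∞} (hε : 0 < ε) :
    ∃ R : ℕ, H.kapF L R 0 ≤ ε := by
  classical
  set F : Lat d × ι → ℝ≥0∞ := fun p => H.P {ω | H.Conn univ ω 0 p.1} *
    (if p.1 ∈ H.s p.2 then L p.2 else 0) with hF
  have h1 : ∑' p, F p ≠ ⊤ := by
    rw [ENNReal.tsum_prod']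
    convert hfin using 3 with u
    rw [hF]
    simp only
    rw [ENNReal.tsum_mul_left]
    congr 1
  obtain ⟨T, hT⟩ := ((ENNReal.tendsto_tsum_compl_atTop_zero h1).eventually_le_const hε).exists
  obtain ⟨R, hR⟩ := exists_bx (T.biUnion fun p => H.s p.2)
  refine ⟨R, le_trans ?_ hT⟩
  have h2 : H.kapF L R 0 = ∑' p : Lat d × ι, (if H.s p.2 ⊆ bx R 0 then 0 else F p) := by
    rw [ENNReal.tsum_prod']
    unfold kapF
    refine tsum_congr fun u => ?_
    unfold vsum
    rw [← ENNReal.tsum_mul_left]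
    refine tsum_congr fun i => ?_
    rw [hF]
    simp only
    split_ifs <;> simp
  have h3 : ∑' (b : { x // x ∉ T }), F ↑b = ∑' p, ({p | p ∉ T} : Set (Lat d × ι)).indicator F p :=
    tsum_subtype ({p | p ∉ T} : Set (Lat d × ι)) F
  rw [h2, h3]
  refine ENNReal.tsum_le_tsum fun p => ?_
  split_ifs with h
  · exact zero_le
  · rw [indicator_of_mem]
    intro hp
    exact h fun x hx => hR (Finset.mem_biUnion.2 ⟨p, hp, hx⟩)

omit [Countable ι] in
open Classical in
lemma vsum_rate_lt_top (len : ι → ℕ) (C : ℝ) (hrate : ∀ m : ℕ, 1 ≤ m →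
      ∑' i : ι, (if 0 ∈ H.s i ∧ len i = m then (H.lam i : ℝ≥0∞) else 0) ≤
        ENNReal.ofReal (C * (m : ℝ) ^ (-(5 : ℝ) / 2))) :
    H.vsum (fun i => H.lam i * ENNReal.ofReal ((len i : ℝ) ^ ((5 : ℝ) / 4))) 0 < ⊤ := by
  have h1 : H.vsum (fun i => H.lam i * ENNReal.ofReal ((len i : ℝ) ^ ((5 : ℝ) / 4))) 0 =
      ∑' m : ℕ, ENNReal.ofReal ((m : ℝ) ^ ((5 : ℝ) / 4)) *
        ∑' i : ι, (if 0 ∈ H.s i ∧ len i = m then (H.lam i : ℝ≥0∞) else 0) := by
    simp_rw [← ENNReal.tsum_mul_left]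
    rw [ENNReal.tsum_comm]
    unfold vsum
    refine tsum_congr fun i => ?_
    rw [tsum_eq_single (len i)]
    · simp only [and_true]
      split_ifs
      · ring
      · simp
    · intro m hm
      rw [if_neg (fun h => hm h.2.symm), mul_zero]
  have h2 : ∀ m : ℕ, ENNReal.ofReal ((m : ℝ) ^ ((5 : ℝ) / 4)) *
        ∑' i : ι, (if 0 ∈ H.s i ∧ len i = m then (H.lam i : ℝ≥0∞) else 0) ≤
      ENNReal.ofReal (|C| * (m : ℝ) ^ (-(5 : ℝ) / 4)) := by
    intro m
    rcases Nat.eq_zero_or_pos m with rfl | hm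
    · simp
    · refine (mul_le_mul_right (hrate m hm) _).trans ?_
      rw [← ENNReal.ofReal_mul (by positivity)]
      refine ENNReal.ofReal_le_ofReal ?_
      have hm' : (0 : ℝ) < m := by exact_mod_cast hm
      calc (m : ℝ) ^ ((5 : ℝ) / 4) * (C * (m : ℝ) ^ (-(5 : ℝ) / 2))
          ≤ (m : ℝ) ^ ((5 : ℝ) / 4) * (|C| * (m : ℝ) ^ (-(5 : ℝ) / 2)) := by
            gcongr
            exact le_abs_self C
        _ = |C| * ((m : ℝ) ^ ((5 : ℝ) / 4) * (m : ℝ) ^ (-(5 : ℝ) / 2)) := by ring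
        _ = |C| * (m : ℝ) ^ (-(5 : ℝ) / 4) := by
            rw [← Real.rpow_add hm']; norm_num
  rw [h1]
  refine lt_of_le_of_lt (ENNReal.tsum_le_tsum h2) ?_
  have h3 : Summable fun m : ℕ => |C| * (m : ℝ) ^ (-(5 : ℝ) / 4) :=
    (Real.summable_nat_rpow.2 (by norm_num)).mul_left _
  rw [← ENNReal.ofReal_tsum_of_nonneg (fun m => by positivity) h3]
  exact ENNReal.ofReal_lt_top

end Star

end HSys

/-! ### the choice of the parameters -/

lemma tendsto_log_div : Tendsto (fun n : ℕ => Real.log n / n) atTop (𝓝 0) := by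
  have h := (isLittleO_log_rpow_atTop (r := 1) one_pos).tendsto_div_nhds_zero
  have h2 := h.comp tendsto_natCast_atTop_atTop
  refine h2.congr fun n => ?_
  simp

lemma tendsto_log_div_mul :
    Tendsto (fun n : ℕ => Real.log n / n * (n : ℝ) ^ ((7 : ℝ) / 8)) atTop (𝓝 0) := by
  have h := (isLittleO_log_rpow_atTop (r := 1 / 8) (by norm_num)).tendsto_div_nhds_zero
  have h2 := h.comp tendsto_natCast_atTop_atTop
  refine h2.congr' ?_
  filter_upwards [eventually_ge_atTop 1] with n hn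
  have hn' : (0 : ℝ) < n := by exact_mod_cast hn
  simp only [Function.comp]
  have h3 : (n : ℝ) ^ ((7 : ℝ) / 8) * (n : ℝ) ^ ((1 : ℝ) / 8) = n := by
    rw [← Real.rpow_add hn']; norm_num
  rw [div_eq_iff (by positivity), mul_assoc, h3, div_mul_cancel₀ _ hn'.ne']

lemma eventually_small (b K' c₁ c₂ : ℝ) (hK : 0 ≤ K') (hb : 0 ≤ b) :
    ∀ᶠ n : ℕ in atTop, ∀ lam g q : ℝ, lam = K' * Real.log n / n → g = 4 * b * lam →
      q = g ^ 2 * (n : ℝ) ^ ((7 : ℝ) / 8) →
      lam * b + b * (g * c₁ + q * c₁) ≤ 1 ∧ q * c₂ ≤ g / 8 ∧ g ≤ 1 := by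
  have t1 : Tendsto (fun n : ℕ => K' * Real.log n / n) atTop (𝓝 0) := by
    have := tendsto_log_div.const_mul K'
    rw [mul_zero] at this
    exact this.congr fun n => by ring
  have t2 : Tendsto (fun n : ℕ => 4 * b * (K' * Real.log n / n)) atTop (𝓝 0) := by
    have := t1.const_mul (4 * b)
    rwa [mul_zero] at this
  have t3 : Tendsto (fun n : ℕ => 4 * b * (K' * Real.log n / n) * (n : ℝ) ^ ((7 : ℝ) / 8)) atTop
      (𝓝 0) := by
    have := tendsto_log_div_mul.const_mul (4 * b * K')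
    rw [mul_zero] at this
    exact this.congr fun n => by ring
  have t4 : Tendsto (fun n : ℕ => (4 * b * (K' * Real.log n / n)) ^ 2 * (n : ℝ) ^ ((7 : ℝ) / 8))
      atTop (𝓝 0) := by
    have := t2.mul t3
    rw [mul_zero] at this
    exact this.congr fun n => by ring
  have t5 : Tendsto (fun n : ℕ => K' * Real.log n / n * b +
      b * (4 * b * (K' * Real.log n / n) * c₁ +
        (4 * b * (K' * Real.log n / n)) ^ 2 * (n : ℝ) ^ ((7 : ℝ) / 8) * c₁)) atTop (𝓝 0) := by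
    have := (t1.mul_const b).add (((t2.mul_const c₁).add (t4.mul_const c₁)).const_mul b)
    simpa using this
  have t6 : Tendsto (fun n : ℕ => 4 * b * (K' * Real.log n / n) * (n : ℝ) ^ ((7 : ℝ) / 8) * c₂)
      atTop (𝓝 0) := by
    have := t3.mul_const c₂
    rwa [zero_mul] at this
  filter_upwards [t5.eventually_le_const one_pos, t6.eventually_le_const (u := 1 / 8) (by norm_num),
    t2.eventually_le_const one_pos] with n e1 e2 e3 lam g q hlam hg hq
  subst hlam hg hq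
  refine ⟨e1, ?_, e3⟩
  have h0 : 0 ≤ 4 * b * (K' * Real.log n / n) := by
    have := Real.log_natCast_nonneg n
    positivity
  calc (4 * b * (K' * Real.log n / n)) ^ 2 * (n : ℝ) ^ ((7 : ℝ) / 8) * c₂
      = 4 * b * (K' * Real.log n / n) *
        (4 * b * (K' * Real.log n / n) * (n : ℝ) ^ ((7 : ℝ) / 8) * c₂) := by ring
    _ ≤ 4 * b * (K' * Real.log n / n) * (1 / 8) := by gcongr
    _ = _ := by ring

/-- the generating function bound for one `n` -/
lemma gen_bound {d : ℕ} {ι : Type*} [Countable ι] {H : HSys (Lat d) ι}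
    {len : ι → ℕ} (hlen : ∀ i, (H.s i).card ≤ len i) {L1 L2 : ι → ℝ≥0∞}
    (hL1 : ∀ i, L1 i = H.lam i * ENNReal.ofReal (len i))
    (hL2 : ∀ i, L2 i = H.lam i * ENNReal.ofReal ((len i : ℝ) ^ ((5 : ℝ) / 4)))
    {χ ρ : ℝ} (hχ0 : 0 ≤ χ) (hρ0 : 0 ≤ ρ) (hρ : ∀ u, H.vsum L2 u = ENNReal.ofReal ρ)
    (hχ : ∀ v, ∑' u, H.P {ω | H.Conn univ ω v u} = ENNReal.ofReal χ) {R : ℕ}
    (hR : ∀ v, H.kapF L1 R v ≤ ENNReal.ofReal (1 / 8)) {K' δ lam g q b : ℝ} (n : ℕ) (hn : 1 ≤ n)
    (hK : 0 < K') (hb : b = (2 * R + 1) ^ d) (hδ1 : δ ≤ 1) (hδ : 4 * b * K' * δ ≤ 1 / 8)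
    (hlam : lam = K' * Real.log n / n) (hg : g = 4 * b * lam)
    (hq : q = g ^ 2 * (n : ℝ) ^ ((7 : ℝ) / 8))
    (hs1 : lam * b + b * (g * ρ + q * ρ) ≤ 1) (hs2 : q * (χ * ρ) ≤ g / 8) (J : Finset ι)
    (hJ : (J : Set ι) ⊆ {i | (len i : ℝ) < δ * n}) :
    ∫⁻ ω, ENNReal.ofReal (Real.exp lam) ^ (H.clus J ω 0).ncard ∂H.P ≤
      ENNReal.ofReal (Real.exp g) := by
  classical
  have hn' : (0 : ℝ) < n := by exact_mod_cast hn
  have hn1 : (1 : ℝ) ≤ n := by exact_mod_cast hn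
  have hlog : 0 ≤ Real.log n := Real.log_nonneg hn1
  have hb0 : 0 ≤ b := by rw [hb]; positivity
  have hlam0 : 0 ≤ lam := by rw [hlam]; positivity
  have hg0 : 0 ≤ g := by rw [hg]; positivity
  have hq0 : 0 ≤ q := by rw [hq]; positivity
  set w : ι → ℝ≥0∞ := fun i => ENNReal.ofReal (Real.exp (g * (H.s i).card) - 1) with hw
  have hexp1 : ∀ i, 0 ≤ Real.exp (g * (H.s i).card) - 1 := fun i =>
    sub_nonneg.2 (Real.one_le_exp (by positivity))
  have hθ : 1 ≤ ENNReal.ofReal (Real.exp lam) := by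
    rw [← ENNReal.ofReal_one]; exact ENNReal.ofReal_le_ofReal (Real.one_le_exp hlam0)
  have hF : 1 ≤ ENNReal.ofReal (Real.exp g) := by
    rw [← ENNReal.ofReal_one]; exact ENNReal.ofReal_le_ofReal (Real.one_le_exp hg0)
  have hFw : ∀ i, ENNReal.ofReal (Real.exp g) ^ (H.s i).card ≤ 1 + w i := by
    intro i
    rw [hw, ← ENNReal.ofReal_pow (Real.exp_pos _).le, ← Real.exp_nat_mul, mul_comm, ]
    simp only
    rw [← ENNReal.ofReal_one, ← ENNReal.ofReal_add zero_le_one (hexp1 i)]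
    refine ENNReal.ofReal_le_ofReal ?_
    linarith
  have hwJ : ∀ i ∈ {i | (len i : ℝ) < δ * n}, H.lam i * w i ≤
      ENNReal.ofReal g * L1 i + ENNReal.ofReal q * L2 i := by
    intro i hi
    have hi' : (len i : ℝ) < δ * n := hi
    have h1 : (len i : ℝ) ≤ n := hi'.le.trans (by nlinarith)
    have h2 : Real.exp (g * len i) ≤ (n : ℝ) ^ ((1 : ℝ) / 8) := by
      rw [Real.rpow_def_of_pos hn']
      refine Real.exp_le_exp.2 ?_
      calc g * len i ≤ g * (δ * n) := by gcongr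
        _ = 4 * b * K' * δ * Real.log n := by
            rw [hg, hlam]; field_simp
        _ ≤ 1 / 8 * Real.log n := by gcongr
        _ = _ := by ring
    have h3 := exp_weight_le (s := ((H.s i).card : ℝ)) hg0 (by positivity)
      (by exact_mod_cast hlen i) h1 h2
    rw [hL1, hL2]
    calc H.lam i * w i ≤ H.lam i * ENNReal.ofReal (g * len i +
          g ^ 2 * (n : ℝ) ^ ((7 : ℝ) / 8) * (len i : ℝ) ^ ((5 : ℝ) / 4)) := by
          rw [hw]
          simp only
          gcongr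
      _ = H.lam i * (ENNReal.ofReal g * ENNReal.ofReal (len i) +
          ENNReal.ofReal q * ENNReal.ofReal ((len i : ℝ) ^ ((5 : ℝ) / 4))) := by
          rw [← hq, ← ENNReal.ofReal_mul hg0, ← ENNReal.ofReal_mul hq0,
            ← ENNReal.ofReal_add (by positivity) (by positivity)]
      _ = _ := by ring
  have hL12 : ∀ i, L1 i ≤ L2 i := by
    intro i
    rw [hL1, hL2]
    gcongr
    rcases Nat.eq_zero_or_pos (len i) with h | h
    · rw [h]; simp
    · have h1 : (1 : ℝ) ≤ len i := by exact_mod_cast h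
      calc (len i : ℝ) = (len i : ℝ) ^ (1 : ℝ) := (Real.rpow_one _).symm
        _ ≤ (len i : ℝ) ^ ((5 : ℝ) / 4) := Real.rpow_le_rpow_of_exponent_le h1 (by norm_num)
  have hbE : ((2 * R + 1) ^ d : ℝ≥0∞) = ENNReal.ofReal b := by
    rw [hb, ENNReal.ofReal_pow (by positivity), ENNReal.ofReal_add (by positivity) zero_le_one,
      ENNReal.ofReal_mul (by norm_num)]
    simp
  have hsmall : ENNReal.ofReal (lam * (2 * R + 1) ^ d) + ((2 * R + 1) ^ d : ℝ≥0∞) *
      (ENNReal.ofReal g * ENNReal.ofReal ρ + ENNReal.ofReal q * ENNReal.ofReal ρ) ≤ 1 := by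
    rw [hbE, ← hb, ← ENNReal.ofReal_mul hg0, ← ENNReal.ofReal_mul hq0,
      ← ENNReal.ofReal_add (by positivity) (by positivity), ← ENNReal.ofReal_mul hb0,
      ← ENNReal.ofReal_add (by positivity) (by positivity), ← ENNReal.ofReal_one]
    exact ENNReal.ofReal_le_ofReal hs1
  have hstar : ∀ J : Finset ι, (J : Set ι) ⊆ {i | (len i : ℝ) < δ * n} → ∀ v : Lat d,
      ∑' A : Finset (Lat d), H.P {ω | H.clus (J ∩ {i | H.s i ⊆ bx R v}) ω v = A} *
      (ENNReal.ofReal (Real.exp lam) ^ A.card *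
        ∏ i ∈ J.filter (fun i => i ∉ {i | H.s i ⊆ bx R v} ∧ i ∈ H.hit A), (1 + H.lam i * w i)) ≤
      ENNReal.ofReal (Real.exp g) := by
    intro J hJ v
    refine (HSys.star_le R v J lam g q hlam0 w L1 L2 (ENNReal.ofReal χ) (ENNReal.ofReal ρ) hL12
      (fun i hi => hwJ i (hJ hi)) hρ (hχ v) hsmall).trans ?_
    calc 1 + 2 * (ENNReal.ofReal (lam * (2 * R + 1) ^ d) + (ENNReal.ofReal g * H.kapF L1 R v +
          ENNReal.ofReal q * (ENNReal.ofReal χ * ENNReal.ofReal ρ)))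
        ≤ 1 + 2 * (ENNReal.ofReal (lam * (2 * R + 1) ^ d) + (ENNReal.ofReal g *
          ENNReal.ofReal (1 / 8) + ENNReal.ofReal q * (ENNReal.ofReal χ * ENNReal.ofReal ρ))) := by
          gcongr
          exact hR v
      _ = ENNReal.ofReal (1 + 2 * (lam * b + (g * (1 / 8) + q * (χ * ρ)))) := by
          rw [← ENNReal.ofReal_mul hχ0, ← ENNReal.ofReal_mul hg0, ← ENNReal.ofReal_mul hq0,
            ← ENNReal.ofReal_add (by positivity) (by positivity), ← hb,
            ← ENNReal.ofReal_add (by positivity) (by positivity),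
            show (2 : ℝ≥0∞) = ENNReal.ofReal 2 by simp, ← ENNReal.ofReal_mul (by norm_num),
            ← ENNReal.ofReal_one, ← ENNReal.ofReal_add zero_le_one (by positivity)]
      _ ≤ ENNReal.ofReal (Real.exp g) := by
          refine ENNReal.ofReal_le_ofReal ?_
          have h1 := Real.add_one_le_exp g
          have h2 : lam * b = g / 4 := by rw [hg]; ring
          rw [h2]
          linarith
  have h := HSys.gen_le_pow hθ hF hFw {i | (len i : ℝ) < δ * n} (fun v => {i | H.s i ⊆ bx R v})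
    (fun J hJ v => by convert hstar J hJ v) J hJ {0}
  have h2 : ∀ ω : ι → ℕ, H.cluW J ω (({0} : Finset (Lat d)) ∪ H.pres ∅ ω) = H.clus J ω 0 := by
    intro ω
    have h3 : H.pres ∅ ω = ∅ := by ext x; simp [HSys.pres]
    rw [h3, union_empty, Finset.coe_singleton, HSys.cluW_singleton]
  unfold HSys.gen at h
  simp_rw [h2] at h
  simpa using h

/-- Markov's inequality for one `n` and one finite family -/
lemma markov_bound {d : ℕ} {ι : Type*} [Countable ι] {H : HSys (Lat d) ι}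
    {lam g ε K : ℝ} (n : ℕ) (hn : 1 ≤ n) (hε : 0 < ε)
    (hlam : lam = (|K| + 1) / ε * Real.log n / n) (hg1 : g ≤ 1) (J : Finset ι)
    (h : ∫⁻ ω, ENNReal.ofReal (Real.exp lam) ^ (H.clus J ω 0).ncard ∂H.P ≤
      ENNReal.ofReal (Real.exp g)) :
    H.P {ω | ENNReal.ofReal (ε * n) < ((H.clus J ω 0).encard : ℝ≥0∞)} ≤
      ENNReal.ofReal (Real.exp 1 * (n : ℝ) ^ (-K)) := by
  have hn' : (0 : ℝ) < n := by exact_mod_cast hn
  have hn1 : (1 : ℝ) ≤ n := by exact_mod_cast hn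
  have hlog : 0 ≤ Real.log n := Real.log_nonneg hn1
  have hlam0 : 0 ≤ lam := by rw [hlam]; positivity
  have hexp : lam * (ε * n) = (|K| + 1) * Real.log n := by
    rw [hlam]; field_simp
  have hm : Measurable fun ω => ENNReal.ofReal (Real.exp lam) ^ (H.clus J ω 0).ncard := by
    have h1 := (HSys.measurable_pow_cluW (H := H) (J := (J : Set ι)) (I := ∅) J.finite_toSet
      finite_empty (HSys.sig_le _) (HSys.sig_le _) {0} (ENNReal.ofReal (Real.exp lam)))
    have h2 : ∀ ω : ι → ℕ, H.cluW J ω (({0} : Finset (Lat d)) ∪ H.pres ∅ ω) = H.clus J ω 0 := by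
      intro ω
      have h3 : H.pres ∅ ω = ∅ := by ext x; simp [HSys.pres]
      rw [h3, union_empty, Finset.coe_singleton, HSys.cluW_singleton]
    simp_rw [h2] at h1
    exact h1
  have hsub : {ω | ENNReal.ofReal (ε * n) < ((H.clus J ω 0).encard : ℝ≥0∞)} ⊆
      {ω | ENNReal.ofReal (Real.exp (lam * (ε * n))) ≤
        ENNReal.ofReal (Real.exp lam) ^ (H.clus J ω 0).ncard} := by
    intro ω hω
    have hω' : ENNReal.ofReal (ε * n) < ((H.clus J ω 0).encard : ℝ≥0∞) := hω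
    have hfin : (H.clus J ω 0).Finite := HSys.clus_finite_of_finite J.finite_toSet ω 0
    rw [← hfin.cast_ncard_eq] at hω'
    have h1 : ε * n < (H.clus J ω 0).ncard := by
      have h2 : ENNReal.ofReal (ε * n) < ENNReal.ofReal ((H.clus J ω 0).ncard : ℝ) := by
        rw [ENNReal.ofReal_natCast]
        simpa using hω'
      exact (ENNReal.ofReal_lt_ofReal_iff_of_nonneg (by positivity)).1 h2
    simp only [mem_ofPred_eq]
    rw [← ENNReal.ofReal_pow (Real.exp_pos _).le, ← Real.exp_nat_mul]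
    refine ENNReal.ofReal_le_ofReal (Real.exp_le_exp.2 ?_)
    rw [mul_comm ((H.clus J ω 0).ncard : ℝ)]
    gcongr
  refine (measure_mono hsub).trans ?_
  refine (meas_ge_le_lintegral_div hm.aemeasurable ?_ ENNReal.ofReal_ne_top).trans ?_
  · simp [Real.exp_pos]
  · refine (ENNReal.div_le_div_right h _).trans ?_
    rw [← ENNReal.ofReal_div_of_pos (Real.exp_pos _)]
    refine ENNReal.ofReal_le_ofReal ?_
    rw [hexp, div_eq_mul_inv, ← Real.exp_neg]
    have h1 : Real.exp (-((|K| + 1) * Real.log n)) = (n : ℝ) ^ (-(|K| + 1)) := by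
      rw [Real.rpow_def_of_pos hn']; congr 1; ring
    rw [h1]
    have h2 : (n : ℝ) ^ (-(|K| + 1)) ≤ (n : ℝ) ^ (-K) := by
      refine Real.rpow_le_rpow_of_exponent_le hn1 ?_
      have := le_abs_self K
      linarith
    gcongr

open Classical in
/-- **Polynomial tail of the truncated cluster.** -/
theorem truncated_cluster_tail {d : ℕ} {ι : Type} [Countable ι] (H : HSys (Lat d) ι) (sh : H.Shift)
    (len : ι → ℕ) (hlen : ∀ i, (H.s i).card ≤ len i) (hlen_act : ∀ v i, len (sh.act v i) = len i)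
    (hχ : ∫⁻ ω, ((H.clus Set.univ ω 0).encard : ℝ≥0∞) ∂H.P < ⊤)
    (C : ℝ) (hrate : ∀ m : ℕ, 1 ≤ m →
      ∑' i : ι, (if 0 ∈ H.s i ∧ len i = m then (H.lam i : ℝ≥0∞) else 0) ≤
        ENNReal.ofReal (C * (m : ℝ) ^ (-(5 : ℝ) / 2)))
    (ε K : ℝ) (hε : 0 < ε) :
    ∃ δ > 0, ∀ δ' ≤ δ, ∃ C' : ℝ, ∀ n : ℕ, 1 ≤ n →
      H.P {ω | ENNReal.ofReal (ε * n) < ((H.clus {i | (len i : ℝ) < δ' * n} ω 0).encard : ℝ≥0∞)} ≤
        ENNReal.ofReal (C' * (n : ℝ) ^ (-K)) := by
  set L1 : ι → ℝ≥0∞ := fun i => H.lam i * ENNReal.ofReal (len i) with hL1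
  set L2 : ι → ℝ≥0∞ := fun i => H.lam i * ENNReal.ofReal ((len i : ℝ) ^ ((5 : ℝ) / 4)) with hL2
  set χ := ∑' u, H.P {ω | H.Conn univ ω 0 u} with hχdef
  have hχ' : χ ≠ ⊤ := by
    rw [hχdef, ← HSys.lintegral_encard_clus]; exact hχ.ne
  set ρ := H.vsum L2 0 with hρdef
  have hρ' : ρ ≠ ⊤ := (HSys.vsum_rate_lt_top len C hrate).ne
  have hL12 : ∀ i, L1 i ≤ L2 i := by
    intro i
    rw [hL1, hL2]
    simp only
    gcongr
    rcases Nat.eq_zero_or_pos (len i) with h | h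
    · rw [h]; simp
    · have h1 : (1 : ℝ) ≤ len i := by exact_mod_cast h
      calc (len i : ℝ) = (len i : ℝ) ^ (1 : ℝ) := (Real.rpow_one _).symm
        _ ≤ (len i : ℝ) ^ ((5 : ℝ) / 4) := Real.rpow_le_rpow_of_exponent_le h1 (by norm_num)
  have hρu : ∀ u, H.vsum L2 u = ENNReal.ofReal ρ.toReal := by
    intro u
    rw [ENNReal.ofReal_toReal hρ', hρdef]
    have h := HSys.vsum_act sh (f := L2) (f' := L2) u (fun i => by
      rw [hL2]; simp only [hlen_act, sh.lam_act]) 0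
    rw [zero_add] at h
    exact h
  have hχv : ∀ v, ∑' u, H.P {ω | H.Conn univ ω v u} = ENNReal.ofReal χ.toReal := by
    intro v
    rw [ENNReal.ofReal_toReal hχ', hχdef, ← (Equiv.addRight v).tsum_eq]
    refine tsum_congr fun u => ?_
    simp only [Equiv.coe_addRight]
    have h := HSys.tau_act sh v 0 u
    rw [zero_add] at h
    exact h
  obtain ⟨R, hR⟩ : ∃ R, H.kapF L1 R 0 ≤ ENNReal.ofReal (1 / 8) := by
    refine HSys.exists_kap_le ?_ (by simp)
    refine ne_top_of_le_ne_top (ENNReal.mul_ne_top hχ' hρ') ?_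
    rw [hχdef, ← ENNReal.tsum_mul_right]
    refine ENNReal.tsum_le_tsum fun u => ?_
    gcongr
    have h1 := hρu u
    rw [ENNReal.ofReal_toReal hρ'] at h1
    rw [← h1]
    exact HSys.vsum_mono fun i _ => hL12 i
  have hRv : ∀ v, H.kapF L1 R v ≤ ENNReal.ofReal (1 / 8) := by
    intro v
    rw [HSys.kap_act sh (fun v i => by rw [hL1]; simp only [hlen_act, sh.lam_act]) R v]
    exact hR
  set b : ℝ := (2 * R + 1) ^ d with hb
  have hb0 : 0 < b := by rw [hb]; positivity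
  set K' : ℝ := (|K| + 1) / ε with hK'
  have hK0 : 0 < K' := by rw [hK']; positivity
  set δ : ℝ := min 1 (1 / (32 * K' * b)) with hδ
  have hδ0 : 0 < δ := by rw [hδ]; positivity
  have hδ1 : δ ≤ 1 := min_le_left _ _
  have hδ2 : 4 * b * K' * δ ≤ 1 / 8 := by
    calc 4 * b * K' * δ ≤ 4 * b * K' * (1 / (32 * K' * b)) := by
          gcongr
          exact min_le_right _ _
      _ = 1 / 8 := by field_simp; norm_num
  obtain ⟨n₀, hn₀⟩ := eventually_atTop.1
    (eventually_small b K' ρ.toReal (χ.toReal * ρ.toReal) hK0.le hb0.le)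
  refine ⟨δ, hδ0, fun δ' hδ' => ⟨Real.exp 1 + (n₀ : ℝ) ^ |K|, fun n hn => ?_⟩⟩
  have hn' : (0 : ℝ) < n := by exact_mod_cast hn
  have hn1 : (1 : ℝ) ≤ n := by exact_mod_cast hn
  rcases lt_or_ge n n₀ with hlt | hge
  · refine prob_le_one.trans ?_
    rw [← ENNReal.ofReal_one]
    refine ENNReal.ofReal_le_ofReal ?_
    have h1 : (n : ℝ) ^ |K| ≤ (n₀ : ℝ) ^ |K| :=
      Real.rpow_le_rpow hn'.le (by exact_mod_cast hlt.le) (abs_nonneg K)
    have h2 : (n : ℝ) ^ (-|K|) ≤ (n : ℝ) ^ (-K) :=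
      Real.rpow_le_rpow_of_exponent_le hn1 (neg_le_neg (le_abs_self K))
    have h3 : (n : ℝ) ^ |K| * (n : ℝ) ^ (-|K|) = 1 := by
      rw [← Real.rpow_add hn']; simp
    calc (1 : ℝ) = (n : ℝ) ^ |K| * (n : ℝ) ^ (-|K|) := h3.symm
      _ ≤ (Real.exp 1 + (n₀ : ℝ) ^ |K|) * (n : ℝ) ^ (-K) := by
        have := Real.exp_pos 1
        gcongr
        linarith
  · obtain ⟨hs1, hs2, hs3⟩ := hn₀ n hge _ _ _ rfl rfl rfl
    refine HSys.P_encard_le_of_finset _ _ _ _ fun J hJ => ?_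
    have hJ' : (J : Set ι) ⊆ {i | (len i : ℝ) < δ * n} := by
      intro i hi
      have h : (len i : ℝ) < δ' * n := hJ hi
      exact h.trans_le (by gcongr)
    have h1 := gen_bound hlen (fun i => rfl) (fun i => rfl) ENNReal.toReal_nonneg
      ENNReal.toReal_nonneg hρu hχv hRv n hn hK0 hb hδ1 hδ2 rfl rfl rfl hs1 hs2 J hJ'
    refine (markov_bound (ε := ε) (K := K) n hn hε rfl hs3 J h1).trans ?_
    refine ENNReal.ofReal_le_ofReal ?_
    gcongr
    have : 0 ≤ (n₀ : ℝ) ^ |K| := by positivity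
    linarith

end Pool.Agent.LoopPerc
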