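import Pool.Agent.LoopPerc.RWFourier

/-!
# Random walk kernels and the one-dimensional kernel (Poissonization)
-/

namespace Pool.Agent.LoopPerc

open MeasureTheory ProbabilityTheory Filter Topology Set
open scoped ENNReal NNReal Real Nat

/-- Poisson weights -/
noncomputable def pois (t : ℝ) (m : ℕ) : ℝ := Real.exp (-t) * t ^ m / m !

lemma pois_nonneg {t : ℝ} (ht : 0 ≤ t) (m : ℕ) : 0 ≤ pois t m := by
  unfold pois; positivity

lemma hs_congr {f g : ℕ → ℝ} {a b : ℝ} (h : HasSum f a) (hf : ∀ m, g m = f m) (hab : b = a) :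
    HasSum g b := by
  have : g = f := funext hf
  subst this
  subst hab
  exact h

lemma hasSum_pois (t c : ℝ) : HasSum (fun m => pois t m * c ^ m) (Real.exp (-t * (1 - c))) := by
  have h := NormedSpace.expSeries_div_hasSum_exp (𝔸 := ℝ) (t * c)
  rw [← Real.exp_eq_exp_ℝ] at h
  have h2 := h.mul_left (Real.exp (-t))
  rw [← Real.exp_add] at h2
  refine hs_congr h2 (fun m => ?_) ?_
  · rw [pois, mul_pow]
    ring
  · congr 1; ring

lemma lintegral_pois (m : ℕ) : ∫⁻ t in Ioi (0 : ℝ), ENNReal.ofReal (pois t m) = 1 := by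
  have hm : (0 : ℝ) < m + 1 := by positivity
  have h1 : ∀ t ∈ Ioi (0 : ℝ), Real.exp (-t) * t ^ ((m + 1 : ℝ) - 1) / m ! = pois t m := by
    intro t ht
    rw [pois, add_sub_cancel_right, Real.rpow_natCast]
  have hint : IntegrableOn (fun t => pois t m) (Ioi 0) := by
    refine IntegrableOn.congr_fun ((Real.GammaIntegral_convergent hm).div_const (m ! : ℝ)) h1
      measurableSet_Ioi
  rw [← ofReal_integral_eq_lintegral_ofReal hint]
  · have : ∫ t in Ioi (0 : ℝ), pois t m = 1 := by
      rw [← setIntegral_congr_fun measurableSet_Ioi h1, integral_div,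
        ← Real.Gamma_eq_integral hm, Real.Gamma_nat_eq_factorial]
      field_simp
    rw [this]; simp
  · filter_upwards [ae_restrict_mem measurableSet_Ioi] with t ht
    exact pois_nonneg (le_of_lt ht) m

lemma exp_phi {d : ℕ} (hd : 1 ≤ d) (t : ℝ) (θ : Fin d → ℝ) :
    Real.exp (-t * (1 - phi θ)) = ∏ i, Real.exp (-(t / d) * (1 - Real.cos (θ i))) := by
  rw [← Real.exp_sum, ← Finset.mul_sum]
  congr 1
  rw [Finset.sum_sub_distrib, phi]
  have : (d : ℝ) ≠ 0 := by positivity
  simp
  field_simp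

/-- Poissonized Fourier formula -/
theorem hasSum_pois_kern {d : ℕ} (hd : 1 ≤ d) {t : ℝ} (ht : 0 ≤ t) (x : Lat d) :
    HasSum (fun m => pois t m * (kern univ m 0 x).toReal) (∏ i, q1 (t / d) (x i)) := by
  set F : ℕ → (Fin d → ℝ) → ℝ := fun m θ =>
    pois t m * ((∏ j, Real.cos (x j * θ j)) * phi θ ^ m) with hF
  have hFle : ∀ m θ, |F m θ| ≤ pois t m := by
    intro m θ
    simp only [hF]
    rw [abs_mul, abs_mul, abs_pow, abs_of_nonneg (pois_nonneg ht m)]
    calc _ ≤ pois t m * (1 * 1) := by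
          gcongr
          · exact pois_nonneg ht m
          · exact abs_cosprod_le _ _
          · exact pow_le_one₀ (abs_nonneg _) (abs_phi_le _)
      _ = _ := by ring
  have hFc : ∀ m, Continuous (F m) := by
    intro m
    have := continuous_phi (d := d)
    simp only [hF]
    fun_prop
  have hFi : ∀ m, Integrable (F m) (nuP d) := fun m => integrable_of_cont_bdd (hFc m) _ (hFle m)
  have hsp : Summable (pois t) := by
    have := (hasSum_pois t 1).summable
    simpa using this
  have hs : Summable fun m => ∫ θ, ‖F m θ‖ ∂(nuP d) := by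
    refine Summable.of_nonneg_of_le (fun m => integral_nonneg fun θ => norm_nonneg _)
      (fun m => ?_) hsp
    calc ∫ θ, ‖F m θ‖ ∂(nuP d) ≤ ∫ θ, pois t m ∂(nuP d) :=
          integral_mono (hFi m).norm (integrable_const _) fun θ => hFle m θ
      _ = pois t m := by simp
  have h := hasSum_integral_of_summable_integral_norm hFi hs
  have h1 : ∀ m, ∫ θ, F m θ ∂(nuP d) = pois t m * (kern univ m 0 x).toReal := by
    intro m
    simp only [hF]
    rw [integral_const_mul, kern_univ_eq hd]
    simp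
  refine hs_congr h (fun m => (h1 m).symm) ?_
  have h2 : ∀ θ : Fin d → ℝ, ∑' m, F m θ =
      ∏ i, (Real.cos (x i * θ i) * Real.exp (-(t / d) * (1 - Real.cos (θ i)))) := by
    intro θ
    rw [Finset.prod_mul_distrib, ← exp_phi hd t θ]
    have h3 := (hasSum_pois t (phi θ)).mul_left (∏ j, Real.cos (x j * θ j))
    rw [← h3.tsum_eq]
    refine tsum_congr fun m => ?_
    simp only [hF]
    ring
  simp_rw [h2]
  rw [nuP, integral_fintype_prod_eq_prod
    (f := fun (i : Fin d) (θ : ℝ) => Real.cos (x i * θ) * Real.exp (-(t / d) * (1 - Real.cos θ)))]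
  simp_rw [q1_eq]

lemma green_link (f : ℕ → ℝ) (hf : ∀ m, 0 ≤ f m) (g : ℝ → ℝ)
    (h : ∀ t, 0 < t → HasSum (fun m => pois t m * f m) (g t)) :
    ∑' m, ENNReal.ofReal (f m) = ∫⁻ t in Ioi (0 : ℝ), ENNReal.ofReal (g t) := by
  have h1 : ∀ m, ENNReal.ofReal (f m) =
      ∫⁻ t in Ioi (0 : ℝ), ENNReal.ofReal (pois t m) * ENNReal.ofReal (f m) := by
    intro m
    rw [lintegral_mul_const _ (by unfold pois; fun_prop), lintegral_pois, one_mul]
  rw [tsum_congr h1]
  rw [← lintegral_tsum (fun m => by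
    apply Measurable.aemeasurable
    unfold pois
    fun_prop)]
  refine setLIntegral_congr_fun measurableSet_Ioi fun t ht => ?_
  have ht' : 0 < t := ht
  rw [← (h t ht').tsum_eq, ENNReal.ofReal_tsum_of_nonneg
    (fun m => mul_nonneg (pois_nonneg ht'.le m) (hf m)) (h t ht').summable]
  refine tsum_congr fun m => ?_
  rw [ENNReal.ofReal_mul (pois_nonneg ht'.le m)]

theorem green_univ_eq (d : ℕ) (hd : 1 ≤ d) (x : Lat d) :
    green Set.univ 0 x = ∫⁻ t in Set.Ioi (0 : ℝ), ENNReal.ofReal (∏ i, q1 (t / d) (x i)) := by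
  rw [green, ← green_link (fun m => (kern univ m 0 x).toReal) (fun m => ENNReal.toReal_nonneg)
    _ (fun t ht => hasSum_pois_kern hd ht.le x)]
  refine tsum_congr fun m => ?_
  rw [ENNReal.ofReal_toReal (kern_ne_top _ _ _ _)]

/-- eigenvalue angles -/
noncomputable def vt (n : ℕ) (j : ℕ) : ℝ := π * (2 * j + 1) / (2 * n)

lemma q1box_eq (n : ℕ) (t : ℝ) : q1box n t =
    (n : ℝ)⁻¹ * ∑ j : Fin n, Real.exp (-t * (1 - Real.cos (vt n j))) := by
  rw [q1box, Finset.sum_range, one_div]
  rfl

lemma sum_cos_vt_aux (α : ℝ) (n : ℕ) :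
    2 * Real.sin α * ∑ j ∈ Finset.range n, Real.cos ((2 * j + 1) * α) = Real.sin (2 * n * α) := by
  induction n with
  | zero => simp
  | succ n ih =>
    rw [Finset.sum_range_succ, mul_add, ih]
    push_cast
    have h1 : 2 * ((n : ℝ) + 1) * α = (2 * n + 1) * α + α := by ring
    have h2 : 2 * (n : ℝ) * α = (2 * n + 1) * α - α := by ring
    rw [h1, h2, Real.sin_add, Real.sin_sub]
    ring

lemma sum_cos_vt {n : ℕ} (hn : 1 ≤ n) (k : ℤ) (hk : k ≠ 0) (hkn : |k| ≤ n) :
    ∑ j : Fin n, Real.cos (k * vt n j) = 0 := by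
  have hn' : (0 : ℝ) < n := by exact_mod_cast hn
  have h := sum_cos_vt_aux (π * k / (2 * n)) n
  have h1 : 2 * (n : ℝ) * (π * k / (2 * n)) = k * π := by field_simp
  rw [h1, Real.sin_int_mul_pi, Finset.sum_range] at h
  have h2 : Real.sin (π * k / (2 * n)) ≠ 0 := by
    have hk2 : |(k : ℝ)| ≤ n := by exact_mod_cast hkn
    obtain ⟨hk3, hk4⟩ := abs_le.1 hk2
    intro h0
    rcases lt_or_gt_of_ne hk with hneg | hpos
    · have hneg' : (k : ℝ) < 0 := by exact_mod_cast hneg
      have : Real.sin (-(π * k / (2 * n))) = 0 := by rw [Real.sin_neg, h0, neg_zero]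
      have h5 : 0 < -(π * k / (2 * n)) := by
        rw [← neg_div]
        apply div_pos _ (by positivity)
        have := Real.pi_pos
        nlinarith
      have h6 : -(π * k / (2 * n)) < π := by
        rw [← neg_div, div_lt_iff₀ (by positivity)]
        have := Real.pi_pos
        nlinarith
      exact absurd this (Real.sin_pos_of_pos_of_lt_pi h5 h6).ne'
    · have hpos' : (0 : ℝ) < k := by exact_mod_cast hpos
      have h5 : 0 < π * k / (2 * n) := by positivity
      have h6 : π * k / (2 * n) < π := by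
        rw [div_lt_iff₀ (by positivity)]
        have := Real.pi_pos
        nlinarith
      exact absurd h0 (Real.sin_pos_of_pos_of_lt_pi h5 h6).ne'
  have h3 : ∀ j : Fin n, (k : ℝ) * vt n j = (2 * (j : ℕ) + 1) * (π * k / (2 * n)) := by
    intro j
    unfold vt
    field_simp
  simp_rw [h3]
  rcases mul_eq_zero.1 h with h4 | h4
  · exact absurd (by simpa using h4) h2
  · exact h4

lemma cos_vt_boundary {n : ℕ} (hn : 1 ≤ n) (j : ℕ) (k : ℤ) (hk : |k| = n) :
    Real.cos (k * vt n j) = 0 := by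
  have hn' : (0 : ℝ) < n := by exact_mod_cast hn
  have h : Real.cos (n * vt n j) = 0 := by
    rw [Real.cos_eq_zero_iff]
    refine ⟨j, ?_⟩
    unfold vt
    push_cast
    field_simp
  rcases abs_eq (by positivity : (0 : ℤ) ≤ n) |>.1 hk with h1 | h1
  · rw [h1]; exact_mod_cast h
  · rw [h1]; push_cast; rw [neg_mul, Real.cos_neg]; exact h

lemma mem_box {d n : ℕ} (hn : 1 ≤ n) (x : Lat d) : x ∈ box d n ↔ ∀ i, |x i| < (n : ℤ) := by
  have hn' : (0 : ℝ) < n := by exact_mod_cast hn
  rw [box, mem_ofPred_eq, pi_norm_lt_iff hn']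
  refine forall_congr' fun i => ?_
  rw [Int.norm_eq_abs]
  exact_mod_cast Iff.rfl

theorem kern_box_eq {d : ℕ} (hd : 1 ≤ d) {n : ℕ} (hn : 1 ≤ n) (m : ℕ) (x : Lat d)
    (hx : ∀ i, |x i| ≤ (n : ℤ)) :
    (kern (box d n) m x 0).toReal = ((n : ℝ)⁻¹) ^ d * ∑ j : Fin d → Fin n,
      (∏ i, Real.cos (x i * vt n (j i))) * phi (fun i => vt n (j i)) ^ m := by
  have hn' : (n : ℝ) ≠ 0 := by positivity
  have hbd : ∀ m, (∃ i, |x i| = (n : ℤ)) → ((n : ℝ)⁻¹) ^ d * ∑ j : Fin d → Fin n,
      (∏ i, Real.cos (x i * vt n (j i))) * phi (fun i => vt n (j i)) ^ m = 0 := by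
    rintro m ⟨i, hi⟩
    rw [Finset.sum_eq_zero, mul_zero]
    intro j _
    rw [Finset.prod_eq_zero (Finset.mem_univ i) (cos_vt_boundary hn _ _ hi), zero_mul]
  induction m generalizing x with
  | zero =>
    rw [kern_toReal_zero]
    by_cases hx0 : x = 0
    · subst hx0
      have : (0 : Lat d) ∈ box d n := by
        rw [mem_box hn]
        intro i
        simp
        omega
      simp [this, hn']
    · rw [if_neg (by tauto)]
      obtain ⟨i, hi⟩ : ∃ i, x i ≠ 0 := by
        by_contra hcon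
        push Not at hcon
        exact hx0 (funext hcon)
      have h1 := Finset.prod_univ_sum (R := ℝ) (fun _ : Fin d => (Finset.univ : Finset (Fin n)))
        (fun i j => Real.cos (x i * vt n j))
      simp only [Fintype.piFinset_univ] at h1
      simp only [pow_zero, mul_one]
      rw [← h1, Finset.prod_eq_zero (Finset.mem_univ i) (sum_cos_vt hn _ hi (hx i)), mul_zero]
  | succ m ih =>
    rw [kern_toReal_succ]
    by_cases hxb : x ∈ box d n
    · rw [if_pos hxb]
      have hxe : ∀ e : Step d, ∀ i, |(x + stepVec e) i| ≤ (n : ℤ) := by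
        intro e i
        rw [mem_box hn] at hxb
        have h2 := hxb i
        have h3 : |stepVec e i| ≤ 1 := by
          unfold stepVec
          by_cases h : i = e.1
          · subst h
            simp
            split_ifs <;> simp
          · simp [Pi.single_eq_of_ne h]
        have h4 := abs_add_le (x i) (stepVec e i)
        simp only [Pi.add_apply]
        omega
      have hbd' : ∀ e : Step d, ∀ m, (∃ i, |(x + stepVec e) i| = (n : ℤ)) →
          ((n : ℝ)⁻¹) ^ d * ∑ j : Fin d → Fin n,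
          (∏ i, Real.cos ((x + stepVec e) i * vt n (j i))) * phi (fun i => vt n (j i)) ^ m = 0 := by
        rintro e m ⟨i, hi⟩
        rw [Finset.sum_eq_zero, mul_zero]
        intro j _
        rw [Finset.prod_eq_zero (Finset.mem_univ i) (cos_vt_boundary hn _ _ hi), zero_mul]
      have h5 : ∀ e : Step d, (kern (box d n) m (x + stepVec e) 0).toReal = _ := fun e =>
        ih (x + stepVec e) (hxe e) (hbd' e)
      simp_rw [h5]
      rw [Finset.sum_congr rfl fun e _ => mul_left_comm _ _ _, ← Finset.mul_sum]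
      congr 1
      simp_rw [Finset.mul_sum]
      rw [Finset.sum_comm]
      refine Finset.sum_congr rfl fun j _ => ?_
      have h6 := sum_cosprod_step hd (fun i => vt n (j i)) (-x)
      have h7 : ∀ e : Step d, ∏ i, Real.cos (((-x - stepVec e) i : ℤ) * vt n (j i)) =
          ∏ i, Real.cos (((x + stepVec e) i : ℤ) * vt n (j i)) := by
        intro e
        refine Finset.prod_congr rfl fun i _ => ?_
        rw [show (-x - stepVec e) i = - (x + stepVec e) i by simp; ring]
        push_cast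
        rw [neg_mul, Real.cos_neg]
      have h8 : ∏ i, Real.cos (((-x) i : ℤ) * vt n (j i)) =
          ∏ i, Real.cos ((x i : ℤ) * vt n (j i)) := by
        refine Finset.prod_congr rfl fun i _ => ?_
        rw [Pi.neg_apply]
        push_cast
        rw [neg_mul, Real.cos_neg]
      rw [h8] at h6
      rw [pow_succ, mul_comm (phi _ ^ m), ← mul_assoc, mul_comm (∏ i, _) (phi _), ← h6,
        Finset.sum_mul]
      refine Finset.sum_congr rfl fun e _ => ?_
      rw [h7]
      ring
    · rw [if_neg hxb, hbd]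
      rw [mem_box hn] at hxb
      push Not at hxb
      obtain ⟨i, hi⟩ := hxb
      exact ⟨i, le_antisymm (hx i) hi⟩

theorem hasSum_pois_kern_box {d : ℕ} (hd : 1 ≤ d) {n : ℕ} (hn : 1 ≤ n) (t : ℝ) :
    HasSum (fun m => pois t m * (kern (box d n) m 0 0).toReal) (q1box n (t / d) ^ d) := by
  have h1 : ∀ m, (kern (box d n) m 0 0).toReal = ((n : ℝ)⁻¹) ^ d * ∑ j : Fin d → Fin n,
      phi (fun i => vt n (j i)) ^ m := by
    intro m
    rw [kern_box_eq hd hn m 0 (by simp)]
    simp
  simp_rw [h1]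
  have h2 : q1box n (t / d) ^ d = ((n : ℝ)⁻¹) ^ d * ∑ j : Fin d → Fin n,
      Real.exp (-t * (1 - phi (fun i => vt n (j i)))) := by
    rw [q1box_eq, mul_pow]
    congr 1
    rw [← Fin.prod_const, Finset.prod_univ_sum]
    simp only [Fintype.piFinset_univ]
    refine Finset.sum_congr rfl fun j _ => ?_
    rw [exp_phi hd]
  rw [h2]
  have h3 : HasSum (fun m => ∑ j : Fin d → Fin n, pois t m * phi (fun i => vt n (j i)) ^ m)
      (∑ j : Fin d → Fin n, Real.exp (-t * (1 - phi (fun i => vt n (j i))))) :=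
    hasSum_sum fun j _ => hasSum_pois t _
  refine hs_congr (h3.mul_left (((n : ℝ)⁻¹) ^ d)) (fun m => ?_) rfl
  rw [Finset.mul_sum, Finset.mul_sum, Finset.mul_sum]
  refine Finset.sum_congr rfl fun j _ => by ring

lemma kern_mono {d : ℕ} {D D' : Set (Lat d)} (h : D ⊆ D') (m : ℕ) (x y : Lat d) :
    kern D m x y ≤ kern D' m x y := by
  induction m generalizing x with
  | zero =>
    simp only [kern]
    split_ifs with h1 h2
    · exact le_rfl
    · exact absurd ⟨h1.1, h h1.2⟩ h2
    · simp
    · exact le_rfl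
  | succ m ih =>
    simp only [kern]
    split_ifs with h1 h2
    · exact Finset.sum_le_sum fun e _ => mul_le_mul_right (ih _) _
    · exact absurd (h h1) h2
    · simp
    · exact le_rfl

theorem green_box_eq (d : ℕ) (hd : 1 ≤ d) (n : ℕ) (hn : 1 ≤ n) :
    green Set.univ (0 : Lat d) 0 = green (box d n) 0 0 +
      ∫⁻ t in Set.Ioi (0 : ℝ), ENNReal.ofReal (q1 (t / d) 0 ^ d - q1box n (t / d) ^ d) := by
  have hle : ∀ m, (kern (box d n) m 0 0).toReal ≤ (kern univ m (0 : Lat d) 0).toReal := fun m =>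
    ENNReal.toReal_mono (kern_ne_top _ _ _ _) (kern_mono (subset_univ _) _ _ _)
  rw [← green_link
    (fun m => (kern univ m (0 : Lat d) 0).toReal - (kern (box d n) m 0 0).toReal)
    (fun m => sub_nonneg.2 (hle m)) (fun t => q1 (t / d) 0 ^ d - q1box n (t / d) ^ d)
    (fun t ht => by
      have h1 := (hasSum_pois_kern hd ht.le (0 : Lat d)).sub (hasSum_pois_kern_box hd hn t)
      simp only [Pi.zero_apply, Finset.prod_const, Finset.card_univ, Fintype.card_fin] at h1
      exact hs_congr h1 (fun m => by ring) rfl)]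
  rw [green, green, ← ENNReal.tsum_add]
  refine tsum_congr fun m => ?_
  rw [ENNReal.ofReal_sub _ ENNReal.toReal_nonneg, ENNReal.ofReal_toReal (kern_ne_top _ _ _ _),
    ENNReal.ofReal_toReal (kern_ne_top _ _ _ _),
    add_tsub_cancel_of_le (kern_mono (subset_univ _) _ _ _)]

end Pool.Agent.LoopPerc
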