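import Pool.Agent.LoopPerc.RW1D
import Pool.Agent.LoopPerc.RWLink

/-!
# Facts about the Green function
-/

namespace Pool.Agent.LoopPerc

open MeasureTheory ProbabilityTheory Filter Topology Set
open scoped ENNReal NNReal

lemma prod_q1_nonneg {d : ℕ} (hd : 1 ≤ d) (x : Lat d) {t : ℝ} (ht : 0 ≤ t) :
    0 ≤ ∏ i, q1 (t / d) (x i) := by
  have h := hasSum_pois_kern hd ht x
  exact h.nonneg fun m => mul_nonneg (pois_nonneg ht m) ENNReal.toReal_nonneg

lemma q1_sub_box_nonneg {d : ℕ} (hd : 1 ≤ d) {n : ℕ} (hn : 1 ≤ n) {t : ℝ} (ht : 0 ≤ t) :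
    0 ≤ q1 (t / d) 0 ^ d - q1box n (t / d) ^ d := by
  have h1 := hasSum_pois_kern hd ht (0 : Lat d)
  have h2 := hasSum_pois_kern_box hd hn t
  have h3 := h1.sub h2
  have e : ∏ i : Fin d, q1 (t / d) ((0 : Lat d) i) = q1 (t / d) 0 ^ d := by simp
  rw [e] at h3
  refine h3.nonneg fun m => ?_
  rw [← mul_sub]
  refine mul_nonneg (pois_nonneg ht m) (sub_nonneg.2 ?_)
  exact ENNReal.toReal_mono (kern_ne_top _ _ _ _) (kern_mono (subset_univ _) _ _ _)

lemma green_ne_top {d : ℕ} (hd : 3 ≤ d) (x : Lat d) : green (Set.univ : Set (Lat d)) 0 x ≠ ⊤ := by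
  rw [green_univ_eq d (by omega)]
  exact (q1_prod_integrable d hd x).lintegral_lt_top.ne

lemma green_toReal {d : ℕ} (hd : 3 ≤ d) (x : Lat d) :
    (green (Set.univ : Set (Lat d)) 0 x).toReal =
      ∫ t in Set.Ioi (0 : ℝ), ∏ i, q1 (t / d) (x i) := by
  rw [green_univ_eq d (by omega), integral_eq_lintegral_of_nonneg_ae]
  · refine (ae_restrict_iff' measurableSet_Ioi).2 (Eventually.of_forall fun t ht => ?_)
    exact prod_q1_nonneg (by omega) x (le_of_lt ht)
  · exact (q1_prod_integrable d hd x).aestronglyMeasurable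

lemma green_asymp {d : ℕ} (hd : 3 ≤ d) : ∃ c : ℝ, 0 < c ∧ Tendsto (fun x : Lat d =>
    enorm2 x ^ (d - 2) * (green Set.univ 0 x).toReal) cofinite (𝓝 c) := by
  obtain ⟨c, hc, h⟩ := q1_green_asymp d hd
  refine ⟨c, hc, h.congr fun x => ?_⟩
  rw [green_toReal hd]

lemma green_box_asymp {d : ℕ} (hd : 3 ≤ d) : ∃ κ : ℝ, 0 < κ ∧ Tendsto (fun n : ℕ =>
    (n : ℝ) ^ (d - 2) * ((green Set.univ (0 : Lat d) 0).toReal -
      (green (box d n) 0 0).toReal)) atTop (𝓝 κ) := by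
  obtain ⟨κ, hκ, h⟩ := q1_box_asymp d hd
  refine ⟨κ, hκ, h.congr' ?_⟩
  filter_upwards [eventually_ge_atTop 1] with n hn
  congr 1
  have h1 := green_box_eq d (by omega) n hn
  have h0 := green_ne_top hd (0 : Lat d)
  rw [h1] at h0
  have h2 : green (box d n) (0 : Lat d) 0 ≠ ⊤ := fun h' => h0 (by rw [h']; simp)
  have h3 : ∫⁻ t in Set.Ioi (0 : ℝ), ENNReal.ofReal (q1 (t / d) 0 ^ d - q1box n (t / d) ^ d) ≠ ⊤ :=
    fun h' => h0 (by rw [h']; simp)
  rw [h1, ENNReal.toReal_add h2 h3, add_sub_cancel_left, integral_eq_lintegral_of_nonneg_ae]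
  · refine (ae_restrict_iff' measurableSet_Ioi).2 (Eventually.of_forall fun t ht => ?_)
    exact q1_sub_box_nonneg (by omega) hn (le_of_lt ht)
  · have c1 : Continuous fun t : ℝ => q1 (t / d) 0 := by
      exact (continuous_q1 0).comp (continuous_id.div_const _)
    have c2 : Continuous fun t : ℝ => q1box n (t / d) := by
      unfold q1box; fun_prop
    exact ((c1.pow d).sub (c2.pow d)).aestronglyMeasurable

end Pool.Agent.LoopPerc
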