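import Pool.Agent.LoopPerc.Upper

/-!
# Asymptotics of the two-point function
-/

namespace Pool.Agent.LoopPerc.HSys

open MeasureTheory ProbabilityTheory Filter Topology Set
open scoped ENNReal NNReal

variable {d : ℕ} {ι : Type*} {H : HSys (Lat d) ι}

lemma mass_hit_hit_le (K : Set ι) (X Y : Finset (Lat d)) :
    H.mass (K ∩ H.hit X ∩ H.hit Y) ≤ ∑ u ∈ X, ∑ w ∈ Y, H.Kr K u w := by
  classical
  unfold mass Kr rate
  simp_rw [← Summable.tsum_finsetSum fun _ _ => ENNReal.summable]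
  refine ENNReal.tsum_le_tsum fun i => ?_
  by_cases hi : i ∈ K ∩ H.hit X ∩ H.hit Y
  · rw [indicator_of_mem hi]
    obtain ⟨⟨hK, u, hu, huX⟩, w, hw, hwY⟩ := hi
    refine le_trans ?_ (Finset.single_le_sum (fun _ _ => zero_le) (Finset.mem_coe.1 huX))
    refine le_trans ?_ (Finset.single_le_sum (fun _ _ => zero_le) (Finset.mem_coe.1 hwY))
    rw [indicator_of_mem (show i ∈ K ∩ {i | u ∈ H.s i} from ⟨hK, hu⟩),
      indicator_of_mem (show i ∈ {i | w ∈ H.s i} from hw), mul_one]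
  · rw [indicator_of_notMem hi]; exact zero_le

/-- total size rate of the big hyperedges through the origin -/
noncomputable def kb (H : HSys (Lat d) ι) (r : ℝ) : ℝ≥0∞ := ∑' v, H.Kr (H.big r) 0 v

lemma Kr_big (sh : H.Shift) (r : ℝ) (u v : Lat d) :
    H.Kr (H.big r) u v = H.Kr (H.big r) 0 (v - u) := by
  have h1 : ∀ i, v ∈ H.s (sh.act u i) ↔ v - u ∈ H.s i := by
    intro i
    have := sh.mem_s_act (v := u) (i := i) (x := v - u)
    rwa [sub_add_cancel] at this
  have := sh.rate_shift (K := H.big r) u 0 ({i | v ∈ H.s i}.indicator fun _ => (1 : ℝ≥0∞))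
    ({i | v - u ∈ H.s i}.indicator fun _ => (1 : ℝ≥0∞)) (fun i => by
      by_cases h : v - u ∈ H.s i
      · rw [indicator_of_mem (show i ∈ {i | v - u ∈ H.s i} from h),
          indicator_of_mem (show sh.act u i ∈ {i | v ∈ H.s i} from (h1 i).2 h)]
      · rw [indicator_of_notMem (show i ∉ {i | v - u ∈ H.s i} from h),
          indicator_of_notMem (show sh.act u i ∉ {i | v ∈ H.s i} from fun h' => h ((h1 i).1 h'))])
  rw [zero_add, (big_inv sh r).preimage] at this
  exact this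

lemma Kr_big_neg (sh : H.Shift) (r : ℝ) (v : Lat d) :
    H.Kr (H.big r) 0 (-v) = H.Kr (H.big r) 0 v := by
  rw [Kr_symm, Kr_big sh]; simp

lemma sum_Kr_big (sh : H.Shift) (r : ℝ) (u : Lat d) : ∑' v, H.Kr (H.big r) u v = H.kb r := by
  unfold kb
  rw [← (Equiv.addRight u).tsum_eq]
  refine tsum_congr fun v => ?_
  rw [Kr_big sh]; simp

lemma sum_Kr_big' (sh : H.Shift) (r : ℝ) (w : Lat d) : ∑' u, H.Kr (H.big r) u w = H.kb r := by
  rw [← sum_Kr_big sh r w]
  exact tsum_congr fun u => Kr_symm _ _ _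

lemma tendsto_zero_of_antitone {f : ℝ → ℝ≥0∞} (hf : Antitone f)
    (h : Tendsto (fun n : ℕ => f n) atTop (𝓝 0)) : Tendsto f atTop (𝓝 0) := by
  rw [ENNReal.tendsto_nhds_zero] at h ⊢
  intro ε hε
  obtain ⟨N, hN⟩ := (h ε hε).exists_forall_of_atTop
  filter_upwards [eventually_ge_atTop (N : ℝ)] with r hr
  exact (hf hr).trans (hN N le_rfl)

variable (sh : H.Shift)

lemma kap_anti [Countable ι] : Antitone H.kap := fun _ _ h =>
  ENNReal.tsum_le_tsum fun _ => mul_le_mul' le_rfl (rate_mono_set (out_anti h) _ _)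

lemma kb_anti : Antitone H.kb := fun _ _ h =>
  ENNReal.tsum_le_tsum fun _ => Kr_mono_set (big_anti h) _ _

lemma rate_big_tendsto [Countable ι] (g : ι → ℝ≥0∞) (hg : H.rate Set.univ 0 g ≠ ⊤) :
    Tendsto (fun n : ℕ => H.rate (H.big n) 0 g) atTop (𝓝 0) := by
  unfold rate
  refine tsum_tendsto_zero_of_dominated _ (fun i => (Set.univ ∩ {i | (0 : Lat d) ∈ H.s i}).indicator
    (fun i => (H.lam i : ℝ≥0∞) * g i) i) ?_ ?_ ?_
  · unfold rate at hg; exact hg
  · intro n i
    exact indicator_le_indicator_of_subset (inter_subset_inter_left _ (subset_univ _))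
      (fun _ => zero_le) i
  · intro i
    refine tendsto_const_nhds.congr' ?_
    obtain ⟨R, hR⟩ : ∃ R : ℝ, ∀ y ∈ H.s i, ‖y‖ < R := by
      obtain ⟨R, hR⟩ := ((H.s i).finite_toSet.image (fun y => ‖y‖)).bddAbove
      exact ⟨R + 1, fun y hy => by linarith [hR ⟨y, hy, rfl⟩]⟩
    obtain ⟨N, hN⟩ := exists_nat_ge (R + R)
    filter_upwards [eventually_ge_atTop N] with n hn
    rw [indicator_of_notMem]
    rintro ⟨hb, _⟩
    apply hb
    intro y hy z hz
    have h1 := hR y hy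
    have h2 := hR z hz
    have h3 : (N : ℝ) ≤ n := by exact_mod_cast hn
    have h4 := norm_sub_le y z
    linarith

lemma kb_eq (r : ℝ) : H.kb r = H.rate (H.big r) 0 (fun i => ((H.s i).card : ℝ≥0∞)) := by
  rw [rate_card_eq]; rfl

lemma kb_tendsto [Countable ι] (hrho : H.rho ≠ ⊤) : Tendsto H.kb atTop (𝓝 0) := by
  refine tendsto_zero_of_antitone kb_anti ?_
  simp_rw [kb_eq]
  exact rate_big_tendsto _ hrho

include sh in
lemma kap_tendsto' [Countable ι] (hchi : H.chi ≠ ⊤) (hrho : H.rho ≠ ⊤) :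
    Tendsto H.kap atTop (𝓝 0) :=
  tendsto_zero_of_antitone kap_anti (kap_tendsto sh hchi hrho)

/-! ### the error term -/

/-- the two-point function as a function of the difference -/
noncomputable def tf (H : HSys (Lat d) ι) (x : Lat d) : ℝ≥0∞ := H.tau Set.univ 0 x

/-- the kernel of big hyperedges -/
noncomputable def kf (H : HSys (Lat d) ι) (r : ℝ) (x : Lat d) : ℝ≥0∞ := H.Kr (H.big r) 0 x

include sh in
lemma Qerr_eq [Countable ι] (r : ℝ) (x v : Lat d) :
    H.Qerr r x v = conv H.tf (conv (H.kf r) H.tf) (x - v) := by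
  unfold Qerr conv
  rw [← (Equiv.subLeft x).tsum_eq]
  refine tsum_congr fun w => ?_
  have h1 : H.tau Set.univ x ((Equiv.subLeft x) w) = H.tf w := by
    rw [sh.tau_eq_sub sh.inv_univ]
    simp only [Equiv.subLeft_apply, sub_sub_cancel_left, tf]
    exact sh.tau_zero_neg sh.inv_univ w
  rw [h1]
  congr 1
  rw [← (Equiv.subLeft ((Equiv.subLeft x) w)).tsum_eq]
  refine tsum_congr fun z => ?_
  have h2 : H.Kr (H.big r) ((Equiv.subLeft x) w)
      ((Equiv.subLeft ((Equiv.subLeft x) w)) z) = H.kf r z := by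
    rw [Kr_big sh]
    simp only [Equiv.subLeft_apply, sub_sub_cancel_left, kf]
    exact Kr_big_neg sh r z
  have h3 : H.tau Set.univ ((Equiv.subLeft ((Equiv.subLeft x) w)) z) v = H.tf (x - v - w - z) := by
    rw [sh.tau_eq_sub sh.inv_univ]
    simp only [Equiv.subLeft_apply, tf]
    rw [← sh.tau_zero_neg sh.inv_univ]
    congr 1
    abel
  rw [h2, h3]

include sh in
lemma errTerm_eq [Countable ι] (r : ℝ) (x : Lat d) :
    H.errTerm r x = conv H.tf (conv (H.kf r) (conv H.tf (conv (H.kf r) H.tf))) x := by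
  unfold errTerm
  rw [conv]
  refine tsum_congr fun u => ?_
  change H.tf u * _ = H.tf u * _
  congr 1
  rw [conv, ← (Equiv.addLeft u).tsum_eq]
  refine tsum_congr fun v => ?_
  rw [Kr_big sh, Qerr_eq sh]
  simp only [Equiv.coe_addLeft, add_sub_cancel_left, kf]
  congr 2
  abel

include sh in
lemma errTerm_le [Countable ι] (r ρ : ℝ) (T : ℝ≥0∞) (x : Lat d) (hx : ρ ≤ ‖x‖)
    (h1 : supN H.tf (ρ / 16) ≤ T) (h2 : supN (H.kf r) (ρ / 16) ≤ T) (hρ : 0 ≤ ρ) :
    H.errTerm r x ≤ H.kb r * T * (H.chi ^ 3 * 2 + H.chi ^ 2 * H.kb r * 3) := by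
  have e1 : ∑' x, H.tf x = H.chi := rfl
  have e2 : ∑' x, H.kf r x = H.kb r := rfl
  have hq : ∀ f : Lat d → ℝ≥0∞, ∀ a : ℝ, ρ / 16 ≤ a → supN f a ≤ supN f (ρ / 16) :=
    fun f a ha => supN_anti f ha
  set q1 := conv (H.kf r) H.tf with hq1
  set q2 := conv H.tf q1 with hq2
  set q3 := conv (H.kf r) q2 with hq3
  have s1 : ∑' x, q1 x = H.kb r * H.chi := by rw [hq1, tsum_conv, e1, e2]
  have s2 : ∑' x, q2 x = H.chi * (H.kb r * H.chi) := by rw [hq2, tsum_conv, e1, s1]
  have s3 : ∑' x, q3 x = H.kb r * (H.chi * (H.kb r * H.chi)) := by rw [hq3, tsum_conv, e2, s2]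
  have b1 : supN q1 (ρ / 8) ≤ T * H.chi + H.kb r * T := by
    refine (supN_conv _ _ _).trans ?_
    rw [e1, e2]
    refine add_le_add (mul_le_mul' ((hq _ _ (by linarith)).trans h2) le_rfl)
      (mul_le_mul' le_rfl ((hq _ _ (by linarith)).trans h1))
  have b2 : supN q2 (ρ / 4) ≤ T * (H.kb r * H.chi) + H.chi * (T * H.chi + H.kb r * T) := by
    refine (supN_conv _ _ _).trans ?_
    rw [s1, e1]
    refine add_le_add (mul_le_mul' ((hq _ _ (by linarith)).trans h1) le_rfl)
      (mul_le_mul' le_rfl ((supN_anti _ (by linarith)).trans b1))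
  have b3 : supN q3 (ρ / 2) ≤ T * (H.chi * (H.kb r * H.chi)) +
      H.kb r * (T * (H.kb r * H.chi) + H.chi * (T * H.chi + H.kb r * T)) := by
    refine (supN_conv _ _ _).trans ?_
    rw [s2, e2]
    refine add_le_add (mul_le_mul' ((hq _ _ (by linarith)).trans h2) le_rfl)
      (mul_le_mul' le_rfl ((supN_anti _ (by linarith)).trans b2))
  rw [errTerm_eq sh]
  refine (le_supN hx).trans ?_
  refine (supN_conv _ _ _).trans ?_
  rw [s3, e1]
  refine (add_le_add (mul_le_mul' ((hq _ _ (by linarith)).trans h1) le_rfl)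
      (mul_le_mul' le_rfl b3)).trans (le_of_eq ?_)
  ring

end Pool.Agent.LoopPerc.HSys
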