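import Pool.Agent.LoopPerc.Limit2

/-!
# The main term of the two-point function
-/

namespace Pool.Agent.LoopPerc.HSys

open MeasureTheory ProbabilityTheory Filter Topology Set
open scoped ENNReal NNReal

variable {d : ℕ} {ι : Type*} {H : HSys (Lat d) ι}

open Classical in
/-- the part of `A` in the ball of radius `r` around `x` -/
noncomputable def nearx (r : ℝ) (x : Lat d) (A : Finset (Lat d)) : Finset (Lat d) :=
  A.filter fun y => ‖y - x‖ < r

open Classical in
/-- indicator of being far -/
noncomputable def farx (r : ℝ) (x y : Lat d) : ℝ≥0∞ := if ‖y - x‖ < r then 0 else 1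

lemma nearx_mono (r : ℝ) (x : Lat d) : Monotone (nearx r x) := by
  classical
  intro A B h
  exact Finset.filter_subset_filter _ h

lemma mass_split (K : Set ι) (r : ℝ) (x : Lat d) (A A' : Finset (Lat d)) :
    H.mass (K ∩ H.hit A ∩ H.hit A') ≤ H.mass (K ∩ H.hit (nearx r 0 A) ∩ H.hit (nearx r x A')) +
      ((∑ u ∈ A, ∑ w ∈ A', farx r 0 u * H.Kr K u w) +
      ∑ u ∈ A, ∑ w ∈ A', farx r x w * H.Kr K u w) := by
  classical
  have h1 : K ∩ H.hit A ∩ H.hit A' ⊆ (K ∩ H.hit (nearx r 0 A) ∩ H.hit (nearx r x A')) ∪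
      ((K ∩ H.hit (A.filter fun u => ¬ ‖u - 0‖ < r) ∩ H.hit A') ∪
      (K ∩ H.hit A ∩ H.hit (A'.filter fun w => ¬ ‖w - x‖ < r))) := by
    rintro i ⟨⟨hK, u, hu, huA⟩, w, hw, hwA⟩
    by_cases h : ‖u - 0‖ < r
    · by_cases h' : ‖w - x‖ < r
      · left
        exact ⟨⟨hK, u, hu, by simpa [nearx] using ⟨huA, by simpa using h⟩⟩, w, hw,
          by simpa [nearx] using ⟨hwA, h'⟩⟩
      · right; right
        exact ⟨⟨hK, u, hu, huA⟩, w, hw, by simpa using ⟨hwA, not_lt.1 h'⟩⟩
    · right; left
      exact ⟨⟨hK, u, hu, by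
        simp only [Finset.coe_filter, mem_ofPred_eq]
        exact ⟨huA, h⟩⟩, w, hw, hwA⟩
  refine (mass_mono h1).trans ((mass_union_le _ _).trans (add_le_add le_rfl
    ((mass_union_le _ _).trans (add_le_add ?_ ?_))))
  · refine (mass_hit_hit_le _ _ _).trans ?_
    rw [Finset.sum_filter]
    refine Finset.sum_le_sum fun u _ => ?_
    by_cases h : ‖u - 0‖ < r
    · rw [if_neg (not_not.2 h)]; exact zero_le
    · rw [if_pos h]
      refine Finset.sum_le_sum fun w _ => ?_
      simp only [farx, if_neg h, one_mul]; exact le_rfl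
  · refine (mass_hit_hit_le _ _ _).trans ?_
    refine Finset.sum_le_sum fun u _ => ?_
    rw [Finset.sum_filter]
    refine Finset.sum_le_sum fun w _ => ?_
    by_cases h : ‖w - x‖ < r
    · rw [if_neg (not_not.2 h)]; exact zero_le
    · rw [if_pos h]; simp only [farx, if_neg h, one_mul]; exact le_rfl

variable [Countable ι] (sh : H.Shift)

lemma EC2_sum_le (S : Set ι) (x y : Lat d) (g : Lat d → Lat d → ℝ≥0∞) :
    H.EC S x (fun A => H.EC S y fun A' => ∑ u ∈ A, ∑ w ∈ A', g u w) ≤
      ∑' u, H.tau S x u * ∑' w, H.tau S y w * g u w := by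
  refine le_trans (EC_mono_fun S x fun A => ?_) (EC_sum_le S x _)
  refine le_trans (le_of_eq ?_) (Finset.sum_le_sum fun u _ => EC_sum_le S y (fun w => g u w))
  unfold EC
  rw [← Summable.tsum_finsetSum fun _ _ => ENNReal.summable]
  exact tsum_congr fun A' => by rw [Finset.mul_sum]

/-- law of the cluster of the origin -/
noncomputable def law (H : HSys (Lat d) ι) (A : Finset (Lat d)) : ℝ≥0∞ :=
  H.P {ω | H.clus Set.univ ω 0 = A}

/-- main sum -/
noncomputable def MT (H : HSys (Lat d) ι) (r : ℝ) (x : Lat d) : ℝ≥0∞ :=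
  ∑' p : Finset (Lat d) × Finset (Lat d), H.law p.1 * H.law p.2 *
    H.mass (H.big r ∩ H.hit (nearx r 0 p.1) ∩ H.hit ((fun y => y + x) '' (nearx r 0 p.2 : Set (Lat d))))

include sh in
lemma EC_univ_shift (x : Lat d) (f : Finset (Lat d) → ℝ≥0∞) :
    H.EC Set.univ x f = ∑' A : Finset (Lat d), H.law A * f (A.map (addRightEmbedding x)) := by
  unfold EC law
  rw [← (Equiv.finsetCongr (Equiv.addRight x)).tsum_eq]
  refine tsum_congr fun A => ?_
  have h1 : (Equiv.finsetCongr (Equiv.addRight x)) A = A.map (addRightEmbedding x) := rfl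
  rw [h1]
  congr 1
  rw [← sh.P_clus_shift sh.inv_univ x]
  congr 1
  ext ω
  simp

include sh in
lemma mainTerm_le (hchi : H.chi ≠ ⊤) (r : ℝ) (x : Lat d) :
    H.mainTerm r x ≤ H.MT r x + 2 * (H.supTau r * (H.chi * H.kb r)) := by
  classical
  unfold mainTerm
  have h1 : H.EC (H.small r) 0 (fun A => H.EC (H.small r) x fun A' =>
      H.mass (H.big r ∩ H.hit A ∩ H.hit A')) ≤
      H.EC (H.small r) 0 (fun A => H.EC (H.small r) x fun A' =>
        H.mass (H.big r ∩ H.hit (nearx r 0 A) ∩ H.hit (nearx r x A'))) +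
      (H.EC (H.small r) 0 (fun A => H.EC (H.small r) x fun A' =>
        ∑ u ∈ A, ∑ w ∈ A', farx r 0 u * H.Kr (H.big r) u w) +
      H.EC (H.small r) 0 (fun A => H.EC (H.small r) x fun A' =>
        ∑ u ∈ A, ∑ w ∈ A', farx r x w * H.Kr (H.big r) u w)) := by
    rw [← EC_add, ← EC_add]
    refine EC_mono_fun _ _ fun A => ?_
    rw [← EC_add, ← EC_add]
    exact EC_mono_fun _ _ fun A' => mass_split _ r x A A'
  refine h1.trans (add_le_add ?_ ?_)
  · -- monotonicity in the family and translation
    have h2 : H.EC (H.small r) 0 (fun A => H.EC (H.small r) x fun A' =>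
        H.mass (H.big r ∩ H.hit (nearx r 0 A) ∩ H.hit (nearx r x A'))) ≤
        H.EC Set.univ 0 (fun A => H.EC Set.univ x fun A' =>
        H.mass (H.big r ∩ H.hit (nearx r 0 A) ∩ H.hit (nearx r x A'))) := by
      have hhit : ∀ {X Y : Set (Lat d)}, X ⊆ Y → H.hit X ⊆ H.hit Y := by
        rintro X Y hXY i ⟨y, hy, hy'⟩
        exact ⟨y, hy, hXY hy'⟩
      refine le_trans (EC_mono_fun _ _ fun A => ?_) (EC_mono (subset_univ _) 0 ?_
        (clus_finite sh hchi _ _))
      · refine EC_mono (subset_univ _) x ?_ (clus_finite sh hchi _ _)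
        intro B B' hB
        exact mass_mono (inter_subset_inter_right _ (hhit (by exact_mod_cast nearx_mono r x hB)))
      · intro B B' hB
        refine EC_mono_fun _ _ fun A' => ?_
        exact mass_mono (inter_subset_inter_left _ (inter_subset_inter_right _
          (hhit (by exact_mod_cast nearx_mono r 0 hB))))
    refine h2.trans (le_of_eq ?_)
    unfold MT
    rw [ENNReal.tsum_prod']
    unfold EC
    refine tsum_congr fun A => ?_
    change H.law A * H.EC Set.univ x (fun A' =>
        H.mass (H.big r ∩ H.hit (nearx r 0 A) ∩ H.hit (nearx r x A'))) = _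
    rw [EC_univ_shift sh, ← ENNReal.tsum_mul_left]
    refine tsum_congr fun A' => ?_
    rw [← mul_assoc]
    congr 3
    ext i
    simp only [hit, mem_ofPred_eq, nearx]
    refine exists_congr fun y => and_congr_right fun _ => ?_
    simp only [Finset.coe_filter, Finset.mem_map, addRightEmbedding_apply, mem_ofPred_eq, mem_image,
      sub_zero]
    constructor
    · rintro ⟨⟨z, hz, rfl⟩, h⟩
      exact ⟨z, ⟨hz, by simpa using h⟩, rfl⟩
    · rintro ⟨z, ⟨hz, h⟩, rfl⟩
      exact ⟨⟨z, hz, rfl⟩, by simpa using h⟩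
  · rw [two_mul]
    refine add_le_add ?_ ?_
    · refine (EC2_sum_le _ _ _ _).trans ?_
      have h3 : ∀ u, H.tau (H.small r) 0 u * ∑' w, H.tau (H.small r) x w *
          (farx r 0 u * H.Kr (H.big r) u w) ≤
          ∑' w, H.supTau r * (H.tau Set.univ x w * H.Kr (H.big r) u w) := by
        intro u
        rw [← ENNReal.tsum_mul_left]
        refine ENNReal.tsum_le_tsum fun w => ?_
        by_cases h : ‖u - 0‖ < r
        · simp only [farx, if_pos h, zero_mul, mul_zero]; exact zero_le
        · simp only [farx, if_neg h, one_mul]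
          refine mul_le_mul' ?_ (mul_le_mul' (tau_mono (subset_univ _) _ _) le_rfl)
          refine (tau_mono (subset_univ _) _ _).trans (tau_le_supTau ?_)
          simpa using h
      refine (ENNReal.tsum_le_tsum h3).trans (le_of_eq ?_)
      rw [ENNReal.tsum_comm]
      simp_rw [ENNReal.tsum_mul_left, sum_Kr_big' sh]
      rw [ENNReal.tsum_mul_right, sum_tau_univ sh]
    · refine (EC2_sum_le _ _ _ _).trans ?_
      have h3 : ∀ u, H.tau (H.small r) 0 u * ∑' w, H.tau (H.small r) x w *
          (farx r x w * H.Kr (H.big r) u w) ≤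
          H.tau Set.univ 0 u * (H.supTau r * H.kb r) := by
        intro u
        refine mul_le_mul' (tau_mono (subset_univ _) _ _) ?_
        rw [← sum_Kr_big sh r u, ← ENNReal.tsum_mul_left]
        refine ENNReal.tsum_le_tsum fun w => ?_
        by_cases h : ‖w - x‖ < r
        · simp [farx, h]
        · simp only [farx, if_neg h, one_mul]
          refine mul_le_mul' ?_ le_rfl
          refine (tau_mono (subset_univ _) _ _).trans ?_
          rw [sh.tau_eq_sub sh.inv_univ]
          exact tau_le_supTau (not_lt.1 h)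
      refine (ENNReal.tsum_le_tsum h3).trans (le_of_eq ?_)
      rw [ENNReal.tsum_mul_right]
      change H.chi * _ = _
      ring

end Pool.Agent.LoopPerc.HSys
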