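import Pool.Agent.LoopPerc.Limit2b

/-!
# The limit of the two-point function
-/

namespace Pool.Agent.LoopPerc

open MeasureTheory ProbabilityTheory Filter Topology Set
open scoped ENNReal NNReal

/-- dominated convergence for sums in `ℝ≥0∞`, general filter -/
lemma tsum_tendsto_filter {α β : Type*} [Countable α] {l : Filter β} [l.IsCountablyGenerated]
    (f : β → α → ℝ≥0∞) (F g : α → ℝ≥0∞)
    (hg : ∑' a, g a ≠ ⊤) (hle : ∀ᶠ n in l, ∀ a, f n a ≤ g a)
    (hlim : ∀ a, Tendsto (fun n => f n a) l (𝓝 (F a))) :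
    Tendsto (fun n => ∑' a, f n a) l (𝓝 (∑' a, F a)) := by
  let _ : MeasurableSpace α := ⊤
  have _ : MeasurableSingletonClass α := ⟨fun _ => trivial⟩
  have h := tendsto_lintegral_filter_of_dominated_convergence (μ := (Measure.count : Measure α))
    (F := f) (f := F) (l := l) g (Eventually.of_forall fun n => measurable_from_top)
    (hle.mono fun n hn => Eventually.of_forall hn) (by rwa [lintegral_count])
    (Eventually.of_forall hlim)
  simpa [lintegral_count] using h

/-- Fatou for sums in `ℝ≥0∞`, general filter -/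
lemma tsum_liminf_le_filter {α β : Type*} [Countable α] {l : Filter β} [l.IsCountablyGenerated]
    (f : β → α → ℝ≥0∞) :
    ∑' a, liminf (fun n => f n a) l ≤ liminf (fun n => ∑' a, f n a) l := by
  let _ : MeasurableSpace α := ⊤
  have _ : MeasurableSingletonClass α := ⟨fun _ => trivial⟩
  have h := lintegral_liminf_le (μ := (Measure.count : Measure α)) (f := f) (u := l)
    (fun n => measurable_from_top)
  simpa [lintegral_count] using h

lemma tendsto_norm_cofinite {d : ℕ} : Tendsto (fun x : Lat d => ‖x‖) cofinite atTop := by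
  rw [← cocompact_eq_cofinite]
  exact tendsto_norm_cocompact_atTop

instance cofinite_countablyGenerated {d : ℕ} :
    (cofinite : Filter (Lat d)).IsCountablyGenerated := by
  rw [← cocompact_eq_cofinite, ← Metric.cobounded_eq_cocompact, ← comap_norm_atTop]
  infer_instance

lemma cofinite_neBot {d : ℕ} (hd : 0 < d) : (cofinite : Filter (Lat d)).NeBot := by
  have : Nonempty (Fin d) := ⟨⟨0, hd⟩⟩
  have : Infinite (Lat d) := inferInstance
  infer_instance

namespace HSys

variable {d : ℕ} {ι : Type*} {H : HSys (Lat d) ι} [Countable ι] (sh : H.Shift)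

omit [Countable ι] in
lemma supTau_le {C s : ℝ} (hC : 0 < C) (hs : 0 ≤ s)
    (h : ∀ x : Lat d, x ≠ 0 → H.tau Set.univ 0 x ≤ ENNReal.ofReal (C * ‖x‖ ^ (-s)))
    {r : ℝ} (hr : 0 < r) : H.supTau r ≤ ENNReal.ofReal (C * r ^ (-s)) := by
  refine iSup₂_le fun y hy => ?_
  have hy0 : y ≠ 0 := by rintro rfl; simp at hy; linarith
  refine (h y hy0).trans (ENNReal.ofReal_le_ofReal ?_)
  refine mul_le_mul_of_nonneg_left ?_ hC.le
  exact Real.rpow_le_rpow_of_nonpos hr hy (by linarith)

omit [Countable ι] in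
include sh in
lemma Kr_univ_le {CK s : ℝ} (hs : 0 ≤ s) (hCK : 0 ≤ CK)
    (hK : ∀ v : Lat d, v ≠ 0 → H.Kr Set.univ 0 v ≤ ENNReal.ofReal (CK * ‖v‖ ^ (-s)))
    {r : ℝ} (hr : 0 < r) {u w : Lat d} (h : r ≤ ‖w - u‖) :
    H.Kr Set.univ u w ≤ ENNReal.ofReal (CK * r ^ (-s)) := by
  rw [Kr_univ sh]
  refine (hK _ (by intro h0; rw [h0] at h; simp at h; linarith)).trans
    (ENNReal.ofReal_le_ofReal ?_)
  exact mul_le_mul_of_nonneg_left (Real.rpow_le_rpow_of_nonpos hr h (by linarith)) hCK

lemma sum_law_card_le : ∑' A : Finset (Lat d), H.law A * (A.card : ℝ≥0∞) ≤ H.chi := by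
  have := EC_sum_le (H := H) Set.univ 0 (fun _ => 1)
  simp only [mul_one] at this
  refine le_trans (le_of_eq ?_) this
  unfold EC law
  refine tsum_congr fun A => ?_
  simp

lemma law_le_small (r : ℝ) (A : Finset (Lat d)) :
    H.law A ≤ H.P {ω | H.clus (H.small r) ω 0 = A} + H.mass (H.big r ∩ H.hit A) := by
  have hsub : {ω | H.clus Set.univ ω 0 = A} ⊆ {ω | H.clus (H.small r) ω 0 = A} ∪
      {ω | Pres (H.big r ∩ H.hit A) ω} := by
    intro ω hω
    by_cases h : Pres (H.big r ∩ H.hit A) ω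
    · right; exact h
    · left
      have hω' : H.clus Set.univ ω 0 = A := hω
      rw [clus_eq_iff] at hω'
      change H.clus (H.small r) ω 0 = A
      rw [clus_eq_iff]
      obtain ⟨⟨h1, h2⟩, h3⟩ := hω'
      refine ⟨⟨h1, fun y hy => ?_⟩, fun i _ h0 hh => h3 i (mem_univ _) h0 hh⟩
      refine Relation.ReflTransGen.mono (fun a b hab => ?_) _ _ (h2 y hy)
      obtain ⟨i, hi, h0, ha, hb⟩ := hab
      refine ⟨i, ⟨?_, hi.2⟩, h0, ha, hb⟩
      by_contra hc
      exact h ⟨i, ⟨hc, a, ha, hi.2 ha⟩, h0⟩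
  refine (measure_mono hsub).trans ((measure_union_le _ _).trans ?_)
  exact add_le_add le_rfl (P_pres_le _)

include sh in
lemma mass_big_hit_tendsto (hrho : H.rho ≠ ⊤) (A : Finset (Lat d)) :
    Tendsto (fun r : ℝ => H.mass (H.big r ∩ H.hit A)) atTop (𝓝 0) := by
  have h1 : ∀ r, H.mass (H.big r ∩ H.hit A) ≤ (A.card : ℝ≥0∞) * H.kb r := by
    intro r
    have h2 := hit_sum_le (H := H) (H.big r) A (fun _ => 1)
    simp only [mul_one] at h2
    refine h2.trans ?_
    rw [← nsmul_eq_mul, ← Finset.sum_const]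
    refine Finset.sum_le_sum fun u _ => ?_
    rw [← sum_Kr_big sh r u, ← rate_card_eq]
    unfold rate
    refine ENNReal.tsum_le_tsum fun i => ?_
    by_cases hi : i ∈ H.big r ∩ {i | u ∈ H.s i}
    · rw [indicator_of_mem hi, indicator_of_mem hi]
      refine mul_le_mul' le_rfl ?_
      have : 1 ≤ (H.s i).card := Finset.card_pos.2 ⟨u, hi.2⟩
      change (1 : ℝ≥0∞) ≤ ((H.s i).card : ℝ≥0∞)
      exact_mod_cast this
    · rw [indicator_of_notMem hi, indicator_of_notMem hi]
  have h3 : Tendsto (fun r : ℝ => (A.card : ℝ≥0∞) * H.kb r) atTop (𝓝 0) := by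
    have := ENNReal.Tendsto.const_mul (a := (A.card : ℝ≥0∞)) (kb_tendsto hrho)
      (Or.inr (ENNReal.natCast_ne_top _))
    simpa using this
  exact tendsto_of_tendsto_of_tendsto_of_le_of_le tendsto_const_nhds h3 (fun _ => zero_le) h1

end HSys

end Pool.Agent.LoopPerc
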