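import Pool.Agent.LoopPerc.Limit2c

/-!
# The limit of the two-point function: conclusion
-/

namespace Pool.Agent.LoopPerc.HSys

open MeasureTheory ProbabilityTheory Filter Topology Set
open scoped ENNReal NNReal

variable {d : ℕ} {ι : Type*} {H : HSys (Lat d) ι} [Countable ι] (sh : H.Shift)

/-- translate of a finite set -/
def tset (B : Finset (Lat d)) (x : Lat d) : Set (Lat d) := (fun y => y + x) '' (B : Set (Lat d))

include sh in
/-- the main sum converges -/
lemma MT_tendsto (hd : 0 < d) {CK s : ℝ} (hs : 0 < s) (hCK : 0 ≤ CK)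
    (hK : ∀ v : Lat d, v ≠ 0 → H.Kr Set.univ 0 v ≤ ENNReal.ofReal (CK * ‖v‖ ^ (-s)))
    (hchi : H.chi ≠ ⊤) (W : Lat d → ℝ≥0∞) (CW : ℝ) (hCW : 0 ≤ CW)
    (hW : ∀ x : Lat d, x ≠ 0 → W x ≤ ENNReal.ofReal (CW * ‖x‖ ^ s))
    (L : Finset (Lat d) → Finset (Lat d) → ℝ≥0∞)
    (hL : ∀ A B : Finset (Lat d), Tendsto (fun x => W x * H.mass (H.hit A ∩ H.hit (tset B x))) cofinite (𝓝 (L A B))) :
    Tendsto (fun x => W x * H.MT (‖x‖ / 4) x) cofinite
      (𝓝 (∑' p : Finset (Lat d) × Finset (Lat d), H.law p.1 * H.law p.2 * L p.1 p.2)) ∧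
    ∑' p : Finset (Lat d) × Finset (Lat d), H.law p.1 * H.law p.2 * L p.1 p.2 ≠ ⊤ := by
  classical
  set CC : ℝ≥0∞ := ENNReal.ofReal (CW * (CK * 2 ^ s)) with hCC
  set g : Finset (Lat d) × Finset (Lat d) → ℝ≥0∞ :=
    fun p => (H.law p.1 * (p.1.card : ℝ≥0∞)) * (H.law p.2 * (p.2.card : ℝ≥0∞)) * CC with hg
  have hgsum : ∑' p, g p ≠ ⊤ := by
    rw [hg, ENNReal.tsum_mul_right]
    refine ENNReal.mul_ne_top ?_ ENNReal.ofReal_ne_top
    rw [ENNReal.tsum_prod']
    simp_rw [ENNReal.tsum_mul_left]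
    rw [ENNReal.tsum_mul_right]
    exact ENNReal.mul_ne_top (ne_top_of_le_ne_top hchi sum_law_card_le)
      (ne_top_of_le_ne_top hchi sum_law_card_le)
  have hdom : ∀ x : Lat d, x ≠ 0 → ∀ p : Finset (Lat d) × Finset (Lat d),
      W x * (H.law p.1 * H.law p.2 * H.mass (H.big (‖x‖ / 4) ∩ H.hit (nearx (‖x‖ / 4) 0 p.1) ∩
        H.hit ((fun y => y + x) '' (nearx (‖x‖ / 4) 0 p.2 : Set (Lat d))))) ≤ g p := by
    intro x hx p
    have hxn : 0 < ‖x‖ := norm_pos_iff.2 hx
    have h1 : H.mass (H.big (‖x‖ / 4) ∩ H.hit (nearx (‖x‖ / 4) 0 p.1) ∩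
        H.hit ((fun y => y + x) '' (nearx (‖x‖ / 4) 0 p.2 : Set (Lat d)))) ≤
        (p.1.card : ℝ≥0∞) * ((p.2.card : ℝ≥0∞) * ENNReal.ofReal (CK * (‖x‖ / 2) ^ (-s))) := by
      have h2 : ((fun y => y + x) '' (nearx (‖x‖ / 4) 0 p.2 : Set (Lat d))) =
          ((nearx (‖x‖ / 4) 0 p.2).map (addRightEmbedding x) : Finset (Lat d)) := by
        ext y; simp
      rw [h2]
      refine (mass_hit_hit_le _ _ _).trans ?_
      have h3 : ∀ u ∈ nearx (‖x‖ / 4) 0 p.1, ∑ w ∈ (nearx (‖x‖ / 4) 0 p.2).map (addRightEmbedding x),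
          H.Kr (H.big (‖x‖ / 4)) u w ≤
          (p.2.card : ℝ≥0∞) * ENNReal.ofReal (CK * (‖x‖ / 2) ^ (-s)) := by
        intro u hu
        have hu' : ‖u‖ < ‖x‖ / 4 := by
          have := (Finset.mem_filter.1 hu).2; simpa using this
        rw [Finset.sum_map]
        refine (Finset.sum_le_card_nsmul _ _ (ENNReal.ofReal (CK * (‖x‖ / 2) ^ (-s))) ?_).trans ?_
        · intro w hw
          have hw' : ‖w‖ < ‖x‖ / 4 := by
            have := (Finset.mem_filter.1 hw).2; simpa using this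
          refine (Kr_mono_set (subset_univ _) _ _).trans ?_
          refine Kr_univ_le sh hs.le hCK hK (by positivity) ?_
          simp only [addRightEmbedding_apply]
          have h5 : ‖x‖ ≤ ‖w + x - u‖ + (‖w‖ + ‖u‖) := by
            have h6 : x = (w + x - u) - (w - u) := by abel
            calc ‖x‖ = ‖(w + x - u) - (w - u)‖ := by rw [← h6]
              _ ≤ ‖w + x - u‖ + ‖w - u‖ := norm_sub_le _ _
              _ ≤ _ := by gcongr; exact norm_sub_le _ _
          linarith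
        · rw [nsmul_eq_mul]
          gcongr
          exact Finset.filter_subset _ _
      refine (Finset.sum_le_card_nsmul _ _ _ h3).trans ?_
      rw [nsmul_eq_mul]
      gcongr
      exact Finset.filter_subset _ _
    calc W x * (H.law p.1 * H.law p.2 * H.mass _)
        ≤ ENNReal.ofReal (CW * ‖x‖ ^ s) * (H.law p.1 * H.law p.2 *
          ((p.1.card : ℝ≥0∞) * ((p.2.card : ℝ≥0∞) * ENNReal.ofReal (CK * (‖x‖ / 2) ^ (-s))))) := by
          gcongr
          exact hW x hx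
      _ = (H.law p.1 * (p.1.card : ℝ≥0∞)) * (H.law p.2 * (p.2.card : ℝ≥0∞)) *
          (ENNReal.ofReal (CW * ‖x‖ ^ s) * ENNReal.ofReal (CK * (‖x‖ / 2) ^ (-s))) := by ring
      _ = g p := by
          rw [hg]
          congr 1
          rw [← ENNReal.ofReal_mul (by positivity), hCC]
          congr 1
          rw [Real.div_rpow hxn.le (by norm_num), Real.rpow_neg hxn.le,
            Real.rpow_neg (by norm_num : (0:ℝ) ≤ 2)]
          have : (0:ℝ) < ‖x‖ ^ s := Real.rpow_pos_of_pos hxn s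
          field_simp
  have hlim : ∀ p : Finset (Lat d) × Finset (Lat d), Tendsto (fun x =>
      W x * (H.law p.1 * H.law p.2 * H.mass (H.big (‖x‖ / 4) ∩ H.hit (nearx (‖x‖ / 4) 0 p.1) ∩
        H.hit ((fun y => y + x) '' (nearx (‖x‖ / 4) 0 p.2 : Set (Lat d)))))) cofinite
        (𝓝 (H.law p.1 * H.law p.2 * L p.1 p.2)) := by
    intro p
    have h1 : Tendsto (fun x => H.law p.1 * H.law p.2 *
        (W x * H.mass (H.hit p.1 ∩ H.hit (tset p.2 x)))) cofinite
        (𝓝 (H.law p.1 * H.law p.2 * L p.1 p.2)) := by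
      refine ENNReal.Tendsto.const_mul (hL p.1 p.2) (Or.inr ?_)
      exact ENNReal.mul_ne_top (measure_ne_top _ _) (measure_ne_top _ _)
    refine h1.congr' ?_
    obtain ⟨R, hR⟩ : ∃ R : ℝ, ∀ y ∈ p.1 ∪ p.2, ‖y‖ < R := by
      obtain ⟨R, hR⟩ := ((p.1 ∪ p.2).finite_toSet.image (fun y => ‖y‖)).bddAbove
      exact ⟨R + 1, fun y hy => by linarith [hR ⟨y, hy, rfl⟩]⟩
    filter_upwards [tendsto_norm_cofinite.eventually_gt_atTop (4 * |R| + 4)] with x hx
    have hRabs := le_abs_self R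
    have hR0 := abs_nonneg R
    have n1 : nearx (‖x‖ / 4) 0 p.1 = p.1 := by
      refine Finset.filter_true_of_mem fun y hy => ?_
      have := hR y (Finset.mem_union_left _ hy)
      rw [sub_zero]; linarith
    have n2 : nearx (‖x‖ / 4) 0 p.2 = p.2 := by
      refine Finset.filter_true_of_mem fun y hy => ?_
      have := hR y (Finset.mem_union_right _ hy)
      rw [sub_zero]; linarith
    have n3 : H.big (‖x‖ / 4) ∩ H.hit p.1 ∩ H.hit (tset p.2 x) = H.hit p.1 ∩ H.hit (tset p.2 x) := by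
      ext i
      constructor
      · rintro ⟨⟨_, h1⟩, h2⟩; exact ⟨h1, h2⟩
      · rintro ⟨⟨y, hy, hyA⟩, ⟨z, hz, hzB⟩⟩
        refine ⟨⟨mem_big_of_hit hy hz ?_, y, hy, hyA⟩, z, hz, hzB⟩
        obtain ⟨b, hb, rfl⟩ := hzB
        have h5 := hR y (Finset.mem_union_left _ hyA)
        have h6 := hR b (Finset.mem_union_right _ hb)
        have h7 : ‖x‖ ≤ ‖y - (b + x)‖ + (‖y‖ + ‖b‖) := by
          have h8 : x = -(y - (b + x)) + (y - b) := by abel
          calc ‖x‖ = ‖-(y - (b + x)) + (y - b)‖ := by rw [← h8]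
            _ ≤ ‖-(y - (b + x))‖ + ‖y - b‖ := norm_add_le _ _
            _ ≤ _ := by rw [norm_neg]; gcongr; exact norm_sub_le _ _
        linarith
    rw [n1, n2]
    change _ = W x * (H.law p.1 * H.law p.2 * H.mass (H.big (‖x‖ / 4) ∩ H.hit p.1 ∩ H.hit (tset p.2 x)))
    rw [n3]; ring
  have hev : ∀ᶠ x : Lat d in cofinite, x ≠ 0 := by
    have := (Set.finite_singleton (0 : Lat d)).compl_mem_cofinite
    filter_upwards [this] with x hx using hx
  constructor
  · have h := tsum_tendsto_filter (l := (cofinite : Filter (Lat d)))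
      (fun x (p : Finset (Lat d) × Finset (Lat d)) =>
      W x * (H.law p.1 * H.law p.2 * H.mass (H.big (‖x‖ / 4) ∩ H.hit (nearx (‖x‖ / 4) 0 p.1) ∩
        H.hit ((fun y => y + x) '' (nearx (‖x‖ / 4) 0 p.2 : Set (Lat d))))))
      (fun p => H.law p.1 * H.law p.2 * L p.1 p.2) g hgsum
      (hev.mono fun x hx p => hdom x hx p) hlim
    refine h.congr fun x => ?_
    unfold MT
    rw [ENNReal.tsum_mul_left]
  · refine ne_top_of_le_ne_top hgsum (ENNReal.tsum_le_tsum fun p => ?_)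
    have := cofinite_neBot hd
    exact le_of_tendsto (hlim p) (hev.mono fun x hx => hdom x hx p)

end Pool.Agent.LoopPerc.HSys
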