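import Pool.Agent.LoopPerc.Limit2d

/-!
# The limit of the two-point function: upper and lower bound
-/

namespace Pool.Agent.LoopPerc.HSys

open MeasureTheory ProbabilityTheory Filter Topology Set
open scoped ENNReal NNReal

variable {d : ℕ} {ι : Type*} {H : HSys (Lat d) ι} [Countable ι] (sh : H.Shift)

lemma rpow_cancel {a b c n s : ℝ} (hn : 0 < n) (hc : 0 < c) (ha : 0 ≤ a) :
    ENNReal.ofReal (a * n ^ s) * ENNReal.ofReal (b * (n / c) ^ (-s)) =
      ENNReal.ofReal (a * b * c ^ s) := by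
  rw [← ENNReal.ofReal_mul (by positivity)]
  congr 1
  rw [Real.div_rpow hn.le hc.le, Real.rpow_neg hn.le, Real.rpow_neg hc.le]
  have : (0:ℝ) < n ^ s := Real.rpow_pos_of_pos hn s
  have : (0:ℝ) < c ^ s := Real.rpow_pos_of_pos hc s
  field_simp

include sh in
/-- upper bound with explicit error -/
lemma W_tau_le {CK s : ℝ} (hs : 0 < s) (hCK : 0 ≤ CK)
    (hK : ∀ v : Lat d, v ≠ 0 → H.Kr Set.univ 0 v ≤ ENNReal.ofReal (CK * ‖v‖ ^ (-s)))
    (hchi : H.chi ≠ ⊤) (hrho : H.rho ≠ ⊤) (W : Lat d → ℝ≥0∞) (CW : ℝ) (hCW : 0 ≤ CW)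
    (hW : ∀ x : Lat d, x ≠ 0 → W x ≤ ENNReal.ofReal (CW * ‖x‖ ^ s)) :
    ∃ E : Lat d → ℝ≥0∞, Tendsto E cofinite (𝓝 0) ∧ ∀ x, x ≠ 0 →
      W x * H.tau Set.univ 0 x ≤ W x * H.MT (‖x‖ / 4) x + E x := by
  obtain ⟨C, hC, h2⟩ := two_point sh CK s hs.le hCK hK hchi hrho
  set C' := max C CK with hC'
  have hC'0 : 0 < C' := lt_of_lt_of_le hC (le_max_left _ _)
  have hsup : ∀ r, 0 < r → H.supTau r ≤ ENNReal.ofReal (C' * r ^ (-s)) := by
    intro r hr
    refine (supTau_le hC hs.le h2 hr).trans (ENNReal.ofReal_le_ofReal ?_)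
    exact mul_le_mul_of_nonneg_right (le_max_left _ _) (Real.rpow_pos_of_pos hr _).le
  have hsup' : ∀ ρ r, 0 < r → supN (H.kf ρ) r ≤ ENNReal.ofReal (C' * r ^ (-s)) := by
    intro ρ r hr
    refine iSup₂_le fun y hy => ?_
    refine (Kr_mono_set (subset_univ _) _ _).trans ?_
    refine (Kr_univ_le sh hs.le hCK hK hr (by simpa using hy)).trans (ENNReal.ofReal_le_ofReal ?_)
    exact mul_le_mul_of_nonneg_right (le_max_right _ _) (Real.rpow_pos_of_pos hr _).le
  set E : Lat d → ℝ≥0∞ := fun x =>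
    ENNReal.ofReal (CW * C' * 2 ^ s) * H.kap (‖x‖ / 4) +
    2 * (ENNReal.ofReal (CW * C' * 4 ^ s) * (H.chi * H.kb (‖x‖ / 4))) +
    ENNReal.ofReal (CW * C' * 16 ^ s) * (H.kb (‖x‖ / 4) *
      (H.chi ^ 3 * 2 + H.chi ^ 2 * H.kb (‖x‖ / 4) * 3)) with hE
  refine ⟨E, ?_, ?_⟩
  · have hn4 : Tendsto (fun x : Lat d => ‖x‖ / 4) cofinite atTop :=
      tendsto_norm_cofinite.atTop_div_const (by norm_num)
    have hkap := (kap_tendsto' sh hchi hrho).comp hn4
    have hkb := (kb_tendsto hrho).comp hn4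
    have t1 : Tendsto (fun x : Lat d => ENNReal.ofReal (CW * C' * 2 ^ s) * H.kap (‖x‖ / 4)) cofinite
        (𝓝 0) := by
      have := ENNReal.Tendsto.const_mul (a := ENNReal.ofReal (CW * C' * 2 ^ s)) hkap
        (Or.inr ENNReal.ofReal_ne_top)
      simpa using this
    have t2 : Tendsto (fun x : Lat d => 2 * (ENNReal.ofReal (CW * C' * 4 ^ s) *
        (H.chi * H.kb (‖x‖ / 4)))) cofinite (𝓝 0) := by
      have h1 := ENNReal.Tendsto.const_mul (a := H.chi) hkb (Or.inr hchi)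
      have h2 := ENNReal.Tendsto.const_mul (a := ENNReal.ofReal (CW * C' * 4 ^ s)) h1
        (Or.inr ENNReal.ofReal_ne_top)
      have h3 := ENNReal.Tendsto.const_mul (a := (2 : ℝ≥0∞)) h2 (Or.inr (by norm_num))
      simpa using h3
    have t3 : Tendsto (fun x : Lat d => ENNReal.ofReal (CW * C' * 16 ^ s) * (H.kb (‖x‖ / 4) *
      (H.chi ^ 3 * 2 + H.chi ^ 2 * H.kb (‖x‖ / 4) * 3))) cofinite (𝓝 0) := by
      have h1 := ENNReal.Tendsto.const_mul (a := H.chi ^ 2) hkb (Or.inr (ENNReal.pow_ne_top hchi))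
      have h2 := ENNReal.Tendsto.mul_const (b := (3 : ℝ≥0∞)) h1 (Or.inr (by norm_num))
      have h3 : Tendsto (fun x : Lat d => H.chi ^ 3 * 2 + H.chi ^ 2 * H.kb (‖x‖ / 4) * 3) cofinite
          (𝓝 (H.chi ^ 3 * 2 + 0)) := by
        refine Tendsto.add tendsto_const_nhds ?_
        simpa [Function.comp] using h2
      have h4 := ENNReal.Tendsto.mul hkb (Or.inr (by
        rw [add_zero]; exact ENNReal.mul_ne_top (ENNReal.pow_ne_top hchi) (by norm_num))) h3
        (Or.inr (by simp))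
      have h5 := ENNReal.Tendsto.const_mul (a := ENNReal.ofReal (CW * C' * 16 ^ s)) h4
        (Or.inr ENNReal.ofReal_ne_top)
      simpa [Function.comp] using h5
    have := (t1.add t2).add t3
    simpa [hE] using this
  · intro x hx
    have hn : 0 < ‖x‖ := norm_pos_iff.2 hx
    have b0 := tau_le_main sh hchi (‖x‖ / 4) x
    have b1 := tau_small_le sh hchi hn (le_refl ‖x‖)
    have b2 := mainTerm_le sh hchi (‖x‖ / 4) x
    have b3 := errTerm_le sh (‖x‖ / 4) ‖x‖ (ENNReal.ofReal (C' * (‖x‖ / 16) ^ (-s))) x le_rfl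
      (hsup (‖x‖ / 16) (by positivity)) (hsup' _ (‖x‖ / 16) (by positivity)) hn.le
    have c1 : W x * (H.kap (‖x‖ / 4) * H.supTau (‖x‖ / 2)) ≤
        ENNReal.ofReal (CW * C' * 2 ^ s) * H.kap (‖x‖ / 4) := by
      calc W x * (H.kap (‖x‖ / 4) * H.supTau (‖x‖ / 2))
          ≤ ENNReal.ofReal (CW * ‖x‖ ^ s) * (H.kap (‖x‖ / 4) *
            ENNReal.ofReal (C' * (‖x‖ / 2) ^ (-s))) := by
            gcongr
            · exact hW x hx
            · exact hsup _ (by positivity)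
        _ = (ENNReal.ofReal (CW * ‖x‖ ^ s) * ENNReal.ofReal (C' * (‖x‖ / 2) ^ (-s))) *
            H.kap (‖x‖ / 4) := by ring
        _ = _ := by rw [rpow_cancel hn (by norm_num) hCW]
    have c2 : W x * (2 * (H.supTau (‖x‖ / 4) * (H.chi * H.kb (‖x‖ / 4)))) ≤
        2 * (ENNReal.ofReal (CW * C' * 4 ^ s) * (H.chi * H.kb (‖x‖ / 4))) := by
      calc W x * (2 * (H.supTau (‖x‖ / 4) * (H.chi * H.kb (‖x‖ / 4))))
          ≤ ENNReal.ofReal (CW * ‖x‖ ^ s) * (2 * (ENNReal.ofReal (C' * (‖x‖ / 4) ^ (-s)) *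
            (H.chi * H.kb (‖x‖ / 4)))) := by
            gcongr
            · exact hW x hx
            · exact hsup _ (by positivity)
        _ = 2 * ((ENNReal.ofReal (CW * ‖x‖ ^ s) * ENNReal.ofReal (C' * (‖x‖ / 4) ^ (-s))) *
            (H.chi * H.kb (‖x‖ / 4))) := by ring
        _ = _ := by rw [rpow_cancel hn (by norm_num) hCW]
    have c3 : W x * H.errTerm (‖x‖ / 4) x ≤
        ENNReal.ofReal (CW * C' * 16 ^ s) * (H.kb (‖x‖ / 4) *
      (H.chi ^ 3 * 2 + H.chi ^ 2 * H.kb (‖x‖ / 4) * 3)) := by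
      calc W x * H.errTerm (‖x‖ / 4) x
          ≤ ENNReal.ofReal (CW * ‖x‖ ^ s) * (H.kb (‖x‖ / 4) *
            ENNReal.ofReal (C' * (‖x‖ / 16) ^ (-s)) *
            (H.chi ^ 3 * 2 + H.chi ^ 2 * H.kb (‖x‖ / 4) * 3)) := by
            exact mul_le_mul' (hW x hx) b3
        _ = (ENNReal.ofReal (CW * ‖x‖ ^ s) * ENNReal.ofReal (C' * (‖x‖ / 16) ^ (-s))) *
            (H.kb (‖x‖ / 4) * (H.chi ^ 3 * 2 + H.chi ^ 2 * H.kb (‖x‖ / 4) * 3)) := by ring
        _ = _ := by rw [rpow_cancel hn (by norm_num) hCW]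
    calc W x * H.tau Set.univ 0 x
        ≤ W x * (H.kap (‖x‖ / 4) * H.supTau (‖x‖ / 2) +
          (H.MT (‖x‖ / 4) x + 2 * (H.supTau (‖x‖ / 4) * (H.chi * H.kb (‖x‖ / 4)))) +
          H.errTerm (‖x‖ / 4) x) := by
          refine mul_le_mul' le_rfl (b0.trans ?_)
          exact add_le_add (add_le_add b1 b2) le_rfl
      _ = W x * H.MT (‖x‖ / 4) x + (W x * (H.kap (‖x‖ / 4) * H.supTau (‖x‖ / 2)) +
          W x * (2 * (H.supTau (‖x‖ / 4) * (H.chi * H.kb (‖x‖ / 4)))) +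
          W x * H.errTerm (‖x‖ / 4) x) := by ring
      _ ≤ W x * H.MT (‖x‖ / 4) x + E x := by
          refine add_le_add le_rfl ?_
          exact add_le_add (add_le_add c1 c2) c3

/-- the event used in the lower bound -/
def lowEv (H : HSys (Lat d) ι) (r : ℝ) (x : Lat d) (p : Finset (Lat d) × Finset (Lat d)) :
    Set (ι → ℕ) :=
  {ω | H.clus (H.small r) ω 0 = p.1} ∩ ({ω | H.clus (H.small r) ω x = tset p.2 x} ∩
    {ω | Pres (H.big r ∩ (H.hit p.1 ∩ H.hit (tset p.2 x))) ω})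

lemma measurableSet_lowEv (r : ℝ) (x : Lat d) (p : Finset (Lat d) × Finset (Lat d)) :
    MeasurableSet (H.lowEv r x p) :=
  (sig_le _ _ (measurableSet_clus_eq _ _ _)).inter
    ((sig_le _ _ (measurableSet_clus_eq _ _ _)).inter (sig_le _ _ (measurableSet_pres _)))

/-- lower bound by disjoint events -/
lemma tsum_lowEv_le (r : ℝ) (x : Lat d) : ∑' p, H.P (H.lowEv r x p) ≤ H.tau Set.univ 0 x := by
  rw [← measure_iUnion]
  · refine measure_mono (iUnion_subset fun p => ?_)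
    rintro ω ⟨h1, h2, i, ⟨_, ⟨y, hy, hyA⟩, ⟨z, hz, hzB⟩⟩, h0⟩
    have h1' : H.clus (H.small r) ω 0 = p.1 := h1
    have h2' : H.clus (H.small r) ω x = tset p.2 x := h2
    have c1 : H.Conn Set.univ ω 0 y := by
      rw [← h1'] at hyA
      exact Conn.mono_set (subset_univ _) hyA
    have c2 : H.Conn Set.univ ω x z := by
      rw [← h2'] at hzB
      exact Conn.mono_set (subset_univ _) hzB
    have c3 : H.Conn Set.univ ω y z := Relation.ReflTransGen.single ⟨i, mem_univ _, h0, hy, hz⟩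
    exact (c1.trans c3).trans c2.symm
  · rintro p q hpq
    rw [Function.onFun, Set.disjoint_left]
    rintro ω ⟨h1, h2, _⟩ ⟨h1', h2', _⟩
    apply hpq
    have e1 : (p.1 : Set (Lat d)) = q.1 := by
      have a : H.clus (H.small r) ω 0 = p.1 := h1
      have b : H.clus (H.small r) ω 0 = q.1 := h1'
      rw [← a, ← b]
    have e2 : tset p.2 x = tset q.2 x := by
      have a : H.clus (H.small r) ω x = tset p.2 x := h2
      have b : H.clus (H.small r) ω x = tset q.2 x := h2'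
      rw [← a, ← b]
    have e3 : (p.2 : Set (Lat d)) = q.2 :=
      (Set.image_injective.2 (add_left_injective x)) e2
    exact Prod.ext (by exact_mod_cast e1) (by exact_mod_cast e3)
  · intro p; exact measurableSet_lowEv r x p

end Pool.Agent.LoopPerc.HSys
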