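import Pool.Agent.LoopPerc.Limit2e

/-!
# The limit of the two-point function: conclusion
-/

namespace Pool.Agent.LoopPerc.HSys

open MeasureTheory ProbabilityTheory Filter Topology Set
open scoped ENNReal NNReal

variable {d : ℕ} {ι : Type*} {H : HSys (Lat d) ι} [Countable ι] (sh : H.Shift)

lemma one_sub_exp_ge {m : ℝ} (hm : 0 ≤ m) : m * (1 - m) ≤ 1 - Real.exp (-m) := by
  have h1 : 1 + m ≤ Real.exp m := by have := Real.add_one_le_exp m; linarith
  have h2 : Real.exp (-m) ≤ 1 / (1 + m) := by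
    rw [Real.exp_neg, ← one_div]
    exact one_div_le_one_div_of_le (by linarith) h1
  have h3 : m * (1 - m) ≤ 1 - 1 / (1 + m) := by
    have h4 : 1 - 1 / (1 + m) = m / (1 + m) := by field_simp; ring
    rw [h4, le_div_iff₀ (by linarith)]
    nlinarith [mul_nonneg hm hm, mul_nonneg (mul_nonneg hm hm) hm]
  linarith

omit [Countable ι] in
lemma P_pres_ge' (K : Set ι) (hK : H.mass K ≠ ⊤) :
    H.mass K * ENNReal.ofReal (1 - (H.mass K).toReal) ≤ H.P {ω | Pres K ω} := by
  refine le_trans ?_ (P_pres_ge K hK)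
  nth_rewrite 1 [← ENNReal.ofReal_toReal hK]
  rw [← ENNReal.ofReal_mul ENNReal.toReal_nonneg]
  exact ENNReal.ofReal_le_ofReal (one_sub_exp_ge ENNReal.toReal_nonneg)

omit [Countable ι] in
include sh in
/-- rates of hyperedges hitting two distant sets are small -/
lemma mass_hit_tset_tendsto {CK s : ℝ} (hs : 0 < s) (hCK : 0 ≤ CK)
    (hK : ∀ v : Lat d, v ≠ 0 → H.Kr Set.univ 0 v ≤ ENNReal.ofReal (CK * ‖v‖ ^ (-s)))
    (A B : Finset (Lat d)) :
    Tendsto (fun x => H.mass (H.hit A ∩ H.hit (tset B x))) cofinite (𝓝 0) := by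
  classical
  obtain ⟨R, hR⟩ : ∃ R : ℝ, ∀ y ∈ A ∪ B, ‖y‖ < R := by
    obtain ⟨R, hR⟩ := ((A ∪ B).finite_toSet.image (fun y => ‖y‖)).bddAbove
    exact ⟨R + 1, fun y hy => by linarith [hR ⟨y, hy, rfl⟩]⟩
  have h1 : ∀ᶠ x : Lat d in cofinite, H.mass (H.hit A ∩ H.hit (tset B x)) ≤
      (A.card : ℝ≥0∞) * ((B.card : ℝ≥0∞) * ENNReal.ofReal (CK * (‖x‖ / 2) ^ (-s))) := by
    filter_upwards [tendsto_norm_cofinite.eventually_gt_atTop (4 * |R| + 4)] with x hx
    have hRabs := le_abs_self R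
    have hR0 := abs_nonneg R
    have e : H.hit A ∩ H.hit (tset B x) =
        Set.univ ∩ H.hit A ∩ H.hit ((B.map (addRightEmbedding x) : Finset (Lat d)) : Set (Lat d)) := by
      rw [univ_inter]
      congr 2
      unfold tset
      ext y; simp
    rw [e]
    refine (mass_hit_hit_le _ _ _).trans ?_
    have h3 : ∀ u ∈ A, ∑ w ∈ B.map (addRightEmbedding x), H.Kr Set.univ u w ≤
        (B.card : ℝ≥0∞) * ENNReal.ofReal (CK * (‖x‖ / 2) ^ (-s)) := by
      intro u hu
      rw [Finset.sum_map, ← nsmul_eq_mul]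
      refine Finset.sum_le_card_nsmul _ _ _ fun w hw => ?_
      refine Kr_univ_le sh hs.le hCK hK (by linarith) ?_
      simp only [addRightEmbedding_apply]
      have h5 : ‖x‖ ≤ ‖w + x - u‖ + (‖w‖ + ‖u‖) := by
        have h6 : x = (w + x - u) - (w - u) := by abel
        calc ‖x‖ = ‖(w + x - u) - (w - u)‖ := by rw [← h6]
          _ ≤ ‖w + x - u‖ + ‖w - u‖ := norm_sub_le _ _
          _ ≤ _ := by gcongr; exact norm_sub_le _ _
      have h7 := hR u (Finset.mem_union_left _ hu)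
      have h8 := hR w (Finset.mem_union_right _ hw)
      linarith
    refine (Finset.sum_le_card_nsmul _ _ _ h3).trans ?_
    rw [nsmul_eq_mul]
  have h2 : Tendsto (fun x : Lat d => (A.card : ℝ≥0∞) * ((B.card : ℝ≥0∞) *
      ENNReal.ofReal (CK * (‖x‖ / 2) ^ (-s)))) cofinite (𝓝 0) := by
    have a1 : Tendsto (fun x : Lat d => CK * (‖x‖ / 2) ^ (-s)) cofinite (𝓝 (CK * 0)) := by
      refine Tendsto.const_mul _ ?_
      exact (tendsto_rpow_neg_atTop hs).comp (tendsto_norm_cofinite.atTop_div_const (by norm_num))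
    have a2 := (ENNReal.continuous_ofReal.tendsto _).comp a1
    simp only [mul_zero, ENNReal.ofReal_zero] at a2
    have a3 := ENNReal.Tendsto.const_mul (a := (B.card : ℝ≥0∞)) a2 (Or.inr (ENNReal.natCast_ne_top _))
    have a4 := ENNReal.Tendsto.const_mul (a := (A.card : ℝ≥0∞)) a3 (Or.inr (ENNReal.natCast_ne_top _))
    simpa [Function.comp] using a4
  exact tendsto_of_tendsto_of_tendsto_of_le_of_le' tendsto_const_nhds h2
    (Eventually.of_forall fun _ => zero_le) h1

include sh in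
/-- **Asymptotics of the two-point function.** -/
theorem two_point_limit (hd : 0 < d) {CK s : ℝ} (hs : 0 < s) (hCK : 0 ≤ CK)
    (hK : ∀ v : Lat d, v ≠ 0 → H.Kr Set.univ 0 v ≤ ENNReal.ofReal (CK * ‖v‖ ^ (-s)))
    (hchi : H.chi ≠ ⊤) (hrho : H.rho ≠ ⊤) (W : Lat d → ℝ≥0∞) (CW : ℝ) (hCW : 0 ≤ CW)
    (hW : ∀ x : Lat d, x ≠ 0 → W x ≤ ENNReal.ofReal (CW * ‖x‖ ^ s))
    (L : Finset (Lat d) → Finset (Lat d) → ℝ≥0∞) (hLfin : ∀ A B, L A B ≠ ⊤)
    (hL : ∀ A B : Finset (Lat d),
      Tendsto (fun x => W x * H.mass (H.hit A ∩ H.hit (tset B x))) cofinite (𝓝 (L A B))) :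
    Tendsto (fun x => W x * H.tau Set.univ 0 x) cofinite
      (𝓝 (∑' p : Finset (Lat d) × Finset (Lat d), H.law p.1 * H.law p.2 * L p.1 p.2)) ∧
    ∑' p : Finset (Lat d) × Finset (Lat d), H.law p.1 * H.law p.2 * L p.1 p.2 ≠ ⊤ := by
  classical
  obtain ⟨hMT, hfin⟩ := MT_tendsto sh hd hs hCK hK hchi W CW hCW hW L hL
  refine ⟨?_, hfin⟩
  have := cofinite_neBot hd
  obtain ⟨E, hE0, hE⟩ := W_tau_le sh hs hCK hK hchi hrho W CW hCW hW
  have hev : ∀ᶠ x : Lat d in cofinite, x ≠ 0 := by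
    have := (Set.finite_singleton (0 : Lat d)).compl_mem_cofinite
    filter_upwards [this] with x hx using hx
  have hn4 : Tendsto (fun x : Lat d => ‖x‖ / 4) cofinite atTop :=
    tendsto_norm_cofinite.atTop_div_const (by norm_num)
  refine tendsto_of_le_liminf_of_limsup_le ?_ ?_
  · -- lower bound
    have h1 : ∀ p : Finset (Lat d) × Finset (Lat d), H.law p.1 * H.law p.2 * L p.1 p.2 ≤
        liminf (fun x => W x * H.P (H.lowEv (‖x‖ / 4) x p)) cofinite := by
      intro p
      obtain ⟨R, hR⟩ : ∃ R : ℝ, ∀ y ∈ p.1 ∪ p.2, ‖y‖ < R := by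
        obtain ⟨R, hR⟩ := ((p.1 ∪ p.2).finite_toSet.image (fun y => ‖y‖)).bddAbove
        exact ⟨R + 1, fun y hy => by linarith [hR ⟨y, hy, rfl⟩]⟩
      set G : Lat d → ℝ≥0∞ := fun x =>
        (H.law p.1 - H.mass (H.big (‖x‖ / 4) ∩ H.hit p.1)) *
        ((H.law p.2 - H.mass (H.big (‖x‖ / 4) ∩ H.hit p.2)) *
          ((W x * H.mass (H.hit p.1 ∩ H.hit (tset p.2 x))) *
            ENNReal.ofReal (1 - (H.mass (H.hit p.1 ∩ H.hit (tset p.2 x))).toReal))) with hG
      have hmass := mass_hit_tset_tendsto sh hs hCK hK p.1 p.2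
      have hGlim : Tendsto G cofinite (𝓝 (H.law p.1 * (H.law p.2 * (L p.1 p.2 * 1)))) := by
        have a1 : Tendsto (fun x : Lat d => H.law p.1 - H.mass (H.big (‖x‖ / 4) ∩ H.hit p.1)) cofinite
            (𝓝 (H.law p.1)) := by
          have := ENNReal.Tendsto.sub (tendsto_const_nhds (x := H.law p.1))
            ((mass_big_hit_tendsto sh hrho p.1).comp hn4) (Or.inl (measure_ne_top _ _))
          simpa [Function.comp] using this
        have a2 : Tendsto (fun x : Lat d => H.law p.2 - H.mass (H.big (‖x‖ / 4) ∩ H.hit p.2)) cofinite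
            (𝓝 (H.law p.2)) := by
          have := ENNReal.Tendsto.sub (tendsto_const_nhds (x := H.law p.2))
            ((mass_big_hit_tendsto sh hrho p.2).comp hn4) (Or.inl (measure_ne_top _ _))
          simpa [Function.comp] using this
        have a3 : Tendsto (fun x : Lat d => ENNReal.ofReal
            (1 - (H.mass (H.hit p.1 ∩ H.hit (tset p.2 x))).toReal)) cofinite (𝓝 1) := by
          have b1 : Tendsto (fun x : Lat d => (H.mass (H.hit p.1 ∩ H.hit (tset p.2 x))).toReal)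
              cofinite (𝓝 (0 : ℝ≥0∞).toReal) :=
            (ENNReal.tendsto_toReal ENNReal.zero_ne_top).comp hmass
          rw [ENNReal.toReal_zero] at b1
          have b2 : Tendsto (fun x : Lat d =>
              1 - (H.mass (H.hit p.1 ∩ H.hit (tset p.2 x))).toReal) cofinite (𝓝 (1 - 0)) :=
            Tendsto.sub tendsto_const_nhds b1
          have b3 : Tendsto (fun x : Lat d => ENNReal.ofReal
            (1 - (H.mass (H.hit p.1 ∩ H.hit (tset p.2 x))).toReal)) cofinite
              (𝓝 (ENNReal.ofReal (1 - 0))) := (ENNReal.continuous_ofReal.tendsto _).comp b2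
          rwa [sub_zero, ENNReal.ofReal_one] at b3
        have a4 := ENNReal.Tendsto.mul (hL p.1 p.2) (Or.inr ENNReal.one_ne_top) a3
          (Or.inr (hLfin _ _))
        have a5 := ENNReal.Tendsto.mul a2 (Or.inr (by
          rw [mul_one]; exact hLfin _ _)) a4 (Or.inr (measure_ne_top _ _))
        exact ENNReal.Tendsto.mul a1 (Or.inr (ENNReal.mul_ne_top (measure_ne_top _ _) (by
          rw [mul_one]; exact hLfin _ _))) a5 (Or.inr (measure_ne_top _ _))
      have hGle : ∀ᶠ x in cofinite, G x ≤ W x * H.P (H.lowEv (‖x‖ / 4) x p) := by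
        have hmt : ∀ᶠ x : Lat d in cofinite, H.mass (H.hit p.1 ∩ H.hit (tset p.2 x)) < 1 :=
          hmass.eventually (gt_mem_nhds zero_lt_one)
        filter_upwards [tendsto_norm_cofinite.eventually_gt_atTop (4 * |R| + 4), hmt] with x hx hm1
        have hRabs := le_abs_self R
        have hR0 := abs_nonneg R
        have hdist : ∀ i, i ∈ H.hit p.1 → i ∈ H.hit (tset p.2 x) → i ∈ H.big (‖x‖ / 4) := by
          rintro i ⟨y, hy, hyA⟩ ⟨z, hz, hzB⟩
          refine mem_big_of_hit hy hz ?_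
          obtain ⟨b, hb, rfl⟩ := hzB
          have h5 := hR y (Finset.mem_union_left _ hyA)
          have h6 := hR b (Finset.mem_union_right _ hb)
          have h7 : ‖x‖ ≤ ‖y - (b + x)‖ + (‖y‖ + ‖b‖) := by
            have h8 : x = -(y - (b + x)) + (y - b) := by abel
            calc ‖x‖ = ‖-(y - (b + x)) + (y - b)‖ := by rw [← h8]
              _ ≤ ‖-(y - (b + x))‖ + ‖y - b‖ := norm_add_le _ _
              _ ≤ _ := by rw [norm_neg]; gcongr; exact norm_sub_le _ _
          linarith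
        have n3 : H.big (‖x‖ / 4) ∩ (H.hit p.1 ∩ H.hit (tset p.2 x)) =
            H.hit p.1 ∩ H.hit (tset p.2 x) := by
          ext i
          exact ⟨fun h => h.2, fun h => ⟨hdist i h.1 h.2, h⟩⟩
        have e1 := measurableSet_clus_eq (H := H) (H.small (‖x‖ / 4)) 0 (p.1 : Set (Lat d))
        have e2 := measurableSet_clus_eq (H := H) (H.small (‖x‖ / 4)) x (tset p.2 x)
        have e3 := measurableSet_pres (ι := ι) (H.big (‖x‖ / 4) ∩ (H.hit p.1 ∩ H.hit (tset p.2 x)))
        have d2 : Disjoint (H.small (‖x‖ / 4) ∩ H.hit (tset p.2 x))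
            (H.big (‖x‖ / 4) ∩ (H.hit p.1 ∩ H.hit (tset p.2 x))) := by
          rw [Set.disjoint_left]
          rintro i ⟨h1, _⟩ ⟨h2, _⟩
          exact h2 h1
        have d1 : Disjoint (H.small (‖x‖ / 4) ∩ H.hit p.1)
            ((H.small (‖x‖ / 4) ∩ H.hit (tset p.2 x)) ∪
              (H.big (‖x‖ / 4) ∩ (H.hit p.1 ∩ H.hit (tset p.2 x)))) := by
          rw [Set.disjoint_left]
          rintro i ⟨h1, h2⟩ (⟨h3, h4⟩ | ⟨h3, _⟩)
          · exact hdist i h2 h4 h1
          · exact h3 h1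
        have e4 := @MeasurableSet.inter _ (sig ι ((H.small (‖x‖ / 4) ∩ H.hit (tset p.2 x)) ∪
              (H.big (‖x‖ / 4) ∩ (H.hit p.1 ∩ H.hit (tset p.2 x))))) _ _
          (sig_mono subset_union_left _ e2) (sig_mono subset_union_right _ e3)
        have hP : H.P (H.lowEv (‖x‖ / 4) x p) = H.P {ω | H.clus (H.small (‖x‖ / 4)) ω 0 = p.1} *
            (H.P {ω | H.clus (H.small (‖x‖ / 4)) ω x = tset p.2 x} *
              H.P {ω | Pres (H.big (‖x‖ / 4) ∩ (H.hit p.1 ∩ H.hit (tset p.2 x))) ω}) := by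
          unfold lowEv
          rw [P_inter d1 e1 e4, P_inter d2 e2 e3]
        have hP2 : H.P {ω | H.clus (H.small (‖x‖ / 4)) ω x = tset p.2 x} =
            H.P {ω | H.clus (H.small (‖x‖ / 4)) ω 0 = p.2} :=
          sh.P_clus_shift (small_inv sh _) x _
        rw [hP, hP2, n3]
        have b1 : H.law p.1 - H.mass (H.big (‖x‖ / 4) ∩ H.hit p.1) ≤
            H.P {ω | H.clus (H.small (‖x‖ / 4)) ω 0 = p.1} := by
          rw [tsub_le_iff_right]; exact law_le_small _ _
        have b2 : H.law p.2 - H.mass (H.big (‖x‖ / 4) ∩ H.hit p.2) ≤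
            H.P {ω | H.clus (H.small (‖x‖ / 4)) ω 0 = p.2} := by
          rw [tsub_le_iff_right]; exact law_le_small _ _
        have b3 := P_pres_ge' (H := H) (H.hit p.1 ∩ H.hit (tset p.2 x))
          (ne_top_of_lt hm1)
        calc G x = W x * ((H.law p.1 - H.mass (H.big (‖x‖ / 4) ∩ H.hit p.1)) *
            ((H.law p.2 - H.mass (H.big (‖x‖ / 4) ∩ H.hit p.2)) *
            (H.mass (H.hit p.1 ∩ H.hit (tset p.2 x)) *
            ENNReal.ofReal (1 - (H.mass (H.hit p.1 ∩ H.hit (tset p.2 x))).toReal)))) := by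
              rw [hG]; ring
          _ ≤ _ := by gcongr
      have := hGlim.liminf_eq
      calc H.law p.1 * H.law p.2 * L p.1 p.2 = H.law p.1 * (H.law p.2 * (L p.1 p.2 * 1)) := by ring
        _ = liminf G cofinite := this.symm
        _ ≤ _ := liminf_le_liminf hGle
    calc ∑' p : Finset (Lat d) × Finset (Lat d), H.law p.1 * H.law p.2 * L p.1 p.2
        ≤ ∑' p, liminf (fun x => W x * H.P (H.lowEv (‖x‖ / 4) x p)) cofinite :=
          ENNReal.tsum_le_tsum h1
      _ ≤ liminf (fun x => ∑' p, W x * H.P (H.lowEv (‖x‖ / 4) x p)) cofinite :=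
          tsum_liminf_le_filter _
      _ ≤ liminf (fun x => W x * H.tau Set.univ 0 x) cofinite := by
          refine liminf_le_liminf (Eventually.of_forall fun x => ?_)
          change ∑' p, W x * H.P (H.lowEv (‖x‖ / 4) x p) ≤ W x * H.tau Set.univ 0 x
          rw [ENNReal.tsum_mul_left]
          exact mul_le_mul' le_rfl (tsum_lowEv_le _ _)
  · have h2 : Tendsto (fun x => W x * H.MT (‖x‖ / 4) x + E x) cofinite
        (𝓝 (∑' p : Finset (Lat d) × Finset (Lat d), H.law p.1 * H.law p.2 * L p.1 p.2 + 0)) :=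
      hMT.add hE0
    rw [add_zero] at h2
    rw [← h2.limsup_eq]
    exact limsup_le_limsup (hev.mono fun x hx => hE x hx)

end Pool.Agent.LoopPerc.HSys
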