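import Pool.Agent.LoopPerc.VolMain

/-!
# Rates of the loop system
-/

namespace Pool.Agent.LoopPerc

open MeasureTheory ProbabilityTheory Filter Topology Set HSys
open scoped ENNReal NNReal

lemma tail_pow_le (s : ℝ) (hs : 1 < s) : ∃ C : ℝ, 0 < C ∧ ∀ N : ℕ, 1 ≤ N →
    ∑' n : ℕ, (if N ≤ n + 1 then ENNReal.ofReal (((n : ℝ) + 1) ^ (-s)) else 0) ≤
      ENNReal.ofReal (C * (N : ℝ) ^ (1 - s)) := by
  have h0 : Tendsto (fun k : ℕ => ((k : ℝ) + 1) ^ ((s - 1) + 1) * ((k : ℝ) + 1) ^ (-s)) atTop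
      (𝓝 1) := by
    refine tendsto_const_nhds.congr fun k => ?_
    have hk : (0 : ℝ) < (k : ℝ) + 1 := by positivity
    rw [← Real.rpow_add hk]
    simp
  obtain ⟨hsum, hlim⟩ := tail_asymp (fun k => ((k : ℝ) + 1) ^ (-s)) (s - 1) (by linarith) 1 h0
  obtain ⟨C, hC⟩ := hlim.bddAbove_range
  refine ⟨|C| + 1, by positivity, fun N hN => ?_⟩
  obtain ⟨K, rfl⟩ : ∃ K, N = K + 1 := ⟨N - 1, by omega⟩
  have h1 : ∑' n : ℕ, (if K + 1 ≤ n + 1 then ENNReal.ofReal (((n : ℝ) + 1) ^ (-s)) else 0) =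
      ∑' k : ℕ, ENNReal.ofReal ((((K + k : ℕ) : ℝ) + 1) ^ (-s)) := by
    rw [← (add_right_injective K).tsum_eq]
    · refine tsum_congr fun k => ?_
      rw [if_pos (by omega)]
    · intro j hj
      rw [Function.mem_support] at hj
      have : K + 1 ≤ j + 1 := by
        by_contra hc
        rw [if_neg hc] at hj
        exact hj rfl
      exact ⟨j - K, by simp only; omega⟩
  have hs' : Summable fun k : ℕ => (((K + k : ℕ) : ℝ) + 1) ^ (-s) := by
    have := (summable_nat_add_iff K).2 hsum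
    simpa [add_comm] using this
  rw [h1, ← ENNReal.ofReal_tsum_of_nonneg (fun k => by positivity) hs']
  refine ENNReal.ofReal_le_ofReal ?_
  have h2 := hC ⟨K, rfl⟩
  simp only at h2
  have hK : (0 : ℝ) < (K : ℝ) + 1 := by positivity
  have h3 : ∑' k : ℕ, (((K + k : ℕ) : ℝ) + 1) ^ (-s) ≤ C * ((K : ℝ) + 1) ^ (-(s - 1)) := by
    rw [Real.rpow_neg hK.le, ← div_eq_mul_inv, le_div_iff₀ (Real.rpow_pos_of_pos hK _), mul_comm]
    exact h2
  have h4 : (-(s - 1)) = 1 - s := by ring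
  rw [h4] at h3
  refine h3.trans ?_
  push_cast
  have h5 : 0 < ((K : ℝ) + 1) ^ (1 - s) := Real.rpow_pos_of_pos hK _
  have := le_abs_self C
  nlinarith

lemma mem_s_loopSys {d : ℕ} {α : ℝ≥0} {u : Lat d} {c : Cycle (Lat d)} :
    u ∈ (loopSys d α).s c ↔ u ∈ c := by
  simp only [loopSys]
  induction c using Quotient.inductionOn' with
  | h l =>
    change u ∈ (l : Cycle (Lat d)).toFinset ↔ u ∈ (l : Cycle (Lat d))
    rw [Cycle.coe_toFinset, List.mem_toFinset, Cycle.mem_coe_iff]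

lemma coe_lam_loopSys {d : ℕ} {α : ℝ≥0} (c : Cycle (Lat d)) :
    (((loopSys d α).lam c : ℝ≥0) : ℝ≥0∞) = α * (loopMeasure c : ℝ≥0∞) := by
  simp [loopSys]

/-- mass of the loops through a vertex in terms of closed walks -/
lemma rate_loopSys_le {d : ℕ} (hd : 1 ≤ d) (α : ℝ≥0) (K : Set (Cycle (Lat d))) (u : Lat d)
    (g : Cycle (Lat d) → ℝ≥0∞) :
    (loopSys d α).rate K u g ≤ α * ∑' n : ℕ, ∑ w : Fin (n + 1) → Step d,
      if IsClosedWalk w then ((2 * (d : ℝ≥0∞))⁻¹) ^ (n + 1) *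
        K.indicator g (verts u w : Cycle (Lat d)) else 0 := by
  classical
  refine le_trans (le_of_eq ?_) (mul_le_mul' le_rfl
    (tsum_loops_through_le d hd u (K.indicator g)))
  unfold rate
  rw [← ENNReal.tsum_mul_left]
  refine tsum_congr fun c => ?_
  have hmem : c ∈ {i | u ∈ (loopSys d α).s i} ↔ u ∈ c := mem_s_loopSys
  have hlam := coe_lam_loopSys (α := α) c
  by_cases h1 : c ∈ K
  · by_cases h2 : u ∈ c
    · rw [if_pos h2, indicator_of_mem (show c ∈ K ∩ {i | u ∈ (loopSys d α).s i} from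
        ⟨h1, hmem.2 h2⟩), indicator_of_mem h1, hlam, mul_assoc]
    · rw [if_neg h2, indicator_of_notMem (fun h => h2 (hmem.1 h.2)), mul_zero]
  · rw [indicator_of_notMem (fun h => h1 h.1), indicator_of_notMem h1]
    simp

/-- mass of long loops through a vertex -/
lemma rate_long_le {d : ℕ} (hd : 1 ≤ d) (α : ℝ≥0) (N : ℕ) (u : Lat d)
    (g : Cycle (Lat d) → ℝ≥0∞) (f : ℕ → ℝ≥0∞) (hg : ∀ c, g c ≤ f c.length) :
    (loopSys d α).rate (shortLoops d N)ᶜ u g ≤ α * ∑' n : ℕ, if N ≤ n + 1 then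
      f (n + 1) * kern (Set.univ : Set (Lat d)) (n + 1) 0 0 else 0 := by
  classical
  refine (rate_loopSys_le hd α _ u g).trans (mul_le_mul' le_rfl (ENNReal.tsum_le_tsum fun n => ?_))
  by_cases hn : N ≤ n + 1
  · rw [if_pos hn]
    calc ∑ w : Fin (n + 1) → Step d, (if IsClosedWalk w then ((2 * (d : ℝ≥0∞))⁻¹) ^ (n + 1) *
          (shortLoops d N)ᶜ.indicator g (verts u w : Cycle (Lat d)) else 0)
        ≤ ∑ w : Fin (n + 1) → Step d, (if IsClosedWalk w then ((2 * (d : ℝ≥0∞))⁻¹) ^ (n + 1) *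
          f (n + 1) else 0) := by
          refine Finset.sum_le_sum fun w _ => ?_
          split_ifs
          · refine mul_le_mul' le_rfl ?_
            refine (indicator_le_self' (fun _ _ => zero_le) _).trans ?_
            have := hg (verts u w : Cycle (Lat d))
            rwa [length_verts] at this
          · exact le_rfl
      _ = f (n + 1) * kern (Set.univ : Set (Lat d)) (n + 1) 0 0 := by
          rw [kern_eq_numClosed, ← Finset.sum_filter, Finset.sum_const, nsmul_eq_mul, numClosed]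
          ring
  · rw [if_neg hn]
    refine le_of_eq (Finset.sum_eq_zero fun w _ => ?_)
    split_ifs
    · rw [indicator_of_notMem, mul_zero]
      simp only [shortLoops, mem_compl_iff, mem_ofPred_eq, length_verts, not_not]
      omega
    · rfl

lemma kern_le_ofReal {d : ℕ} {C : ℝ} (hC : ∀ m : ℕ, 1 ≤ m → ∀ x y : Lat d,
    (kern Set.univ m x y).toReal ≤ C * (m : ℝ) ^ (-(d : ℝ) / 2)) (m : ℕ) (hm : 1 ≤ m) (x y : Lat d) :
    kern Set.univ m x y ≤ ENNReal.ofReal (C * (m : ℝ) ^ (-(d : ℝ) / 2)) := by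
  rw [← ENNReal.ofReal_toReal (kern_ne_top Set.univ m x y)]
  exact ENNReal.ofReal_le_ofReal (hC m hm x y)

lemma card_s_le {d : ℕ} {α : ℝ≥0} (c : Cycle (Lat d)) :
    ((loopSys d α).s c).card ≤ c.length := by
  simp only [loopSys]
  induction c using Quotient.inductionOn' with
  | h l =>
    change (l : Cycle (Lat d)).toFinset.card ≤ (l : Cycle (Lat d)).length
    rw [Cycle.coe_toFinset, Cycle.length_coe]
    exact List.toFinset_card_le l

/-- total rate of the long loops through a vertex -/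
lemma rate_long_one {d : ℕ} (hd : 5 ≤ d) (α : ℝ≥0) : ∃ C : ℝ, 0 < C ∧ ∀ N : ℕ, 1 ≤ N →
    ∀ u : Lat d, (loopSys d α).rate (shortLoops d N)ᶜ u (fun _ => 1) ≤
      ENNReal.ofReal (C * (N : ℝ) ^ (1 - (d : ℝ) / 2)) := by
  obtain ⟨C₁, hC₁, hk⟩ := kern_le d (by omega)
  have hd' : (5 : ℝ) ≤ d := by exact_mod_cast hd
  obtain ⟨C₂, hC₂, ht⟩ := tail_pow_le ((d : ℝ) / 2) (by linarith)
  refine ⟨(α + 1) * (C₁ * C₂), by positivity, fun N hN u => ?_⟩
  refine (rate_long_le (by omega) α N u (fun _ => 1) (fun _ => 1) (fun _ => le_rfl)).trans ?_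
  have h1 : ∀ n : ℕ, (if N ≤ n + 1 then 1 * kern (Set.univ : Set (Lat d)) (n + 1) 0 0 else 0) ≤
      ENNReal.ofReal C₁ * (if N ≤ n + 1 then ENNReal.ofReal (((n : ℝ) + 1) ^ (-((d : ℝ) / 2)))
        else 0) := by
    intro n
    split_ifs
    · rw [one_mul, ← ENNReal.ofReal_mul hC₁.le]
      have := kern_le_ofReal hk (n + 1) (by omega) (0 : Lat d) 0
      push_cast at this
      rw [neg_div] at this
      exact this
    · exact zero_le
  calc (α : ℝ≥0∞) * ∑' n : ℕ, (if N ≤ n + 1 then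
        1 * kern (Set.univ : Set (Lat d)) (n + 1) 0 0 else 0)
      ≤ (α : ℝ≥0∞) * (ENNReal.ofReal C₁ * ENNReal.ofReal (C₂ * (N : ℝ) ^ (1 - (d : ℝ) / 2))) := by
        refine mul_le_mul' le_rfl ((ENNReal.tsum_le_tsum h1).trans ?_)
        rw [ENNReal.tsum_mul_left]
        exact mul_le_mul' le_rfl (ht N hN)
    _ ≤ _ := by
        rw [← ENNReal.ofReal_mul hC₁.le, ← ENNReal.ofReal_coe_nnreal,
          ← ENNReal.ofReal_mul (NNReal.coe_nonneg _)]
        refine ENNReal.ofReal_le_ofReal ?_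
        have h2 : (0 : ℝ) ≤ (N : ℝ) ^ (1 - (d : ℝ) / 2) := by positivity
        have h3 : 0 ≤ C₁ * C₂ * (N : ℝ) ^ (1 - (d : ℝ) / 2) := by positivity
        nlinarith

/-- total length of the long loops through a vertex -/
lemma rate_long_card {d : ℕ} (hd : 5 ≤ d) (α : ℝ≥0) : ∃ C : ℝ, 0 < C ∧ ∀ N : ℕ, 1 ≤ N →
    ∀ u : Lat d, (loopSys d α).rate (shortLoops d N)ᶜ u
      (fun c => (((loopSys d α).s c).card : ℝ≥0∞)) ≤
      ENNReal.ofReal (C * (N : ℝ) ^ (2 - (d : ℝ) / 2)) := by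
  obtain ⟨C₁, hC₁, hk⟩ := kern_le d (by omega)
  have hd' : (5 : ℝ) ≤ d := by exact_mod_cast hd
  obtain ⟨C₂, hC₂, ht⟩ := tail_pow_le ((d : ℝ) / 2 - 1) (by linarith)
  refine ⟨(α + 1) * (C₁ * C₂), by positivity, fun N hN u => ?_⟩
  refine (rate_long_le (by omega) α N u _ (fun m => (m : ℝ≥0∞))
    (fun c => by exact_mod_cast card_s_le c)).trans ?_
  have h1 : ∀ n : ℕ, (if N ≤ n + 1 then ((n + 1 : ℕ) : ℝ≥0∞) *
      kern (Set.univ : Set (Lat d)) (n + 1) 0 0 else 0) ≤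
      ENNReal.ofReal C₁ * (if N ≤ n + 1 then
        ENNReal.ofReal (((n : ℝ) + 1) ^ (-((d : ℝ) / 2 - 1))) else 0) := by
    intro n
    split_ifs
    · rw [← ENNReal.ofReal_mul hC₁.le]
      have := kern_le_ofReal hk (n + 1) (by omega) (0 : Lat d) 0
      push_cast at this
      have hn : (0 : ℝ) < (n : ℝ) + 1 := by positivity
      have e1 : ((n + 1 : ℕ) : ℝ≥0∞) = ENNReal.ofReal ((n : ℝ) + 1) := by
        rw [← Nat.cast_succ, ENNReal.ofReal_natCast]
      rw [e1]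
      refine (mul_le_mul' le_rfl this).trans ?_
      rw [← ENNReal.ofReal_mul hn.le]
      refine ENNReal.ofReal_le_ofReal (le_of_eq ?_)
      have e2 : ((n : ℝ) + 1) ^ (-((d : ℝ) / 2 - 1)) =
          ((n : ℝ) + 1) * ((n : ℝ) + 1) ^ (-(d : ℝ) / 2) := by
        rw [← Real.rpow_one_add' hn.le (by linarith)]
        congr 1; ring
      rw [e2]; ring
    · exact zero_le
  calc (α : ℝ≥0∞) * ∑' n : ℕ, (if N ≤ n + 1 then ((n + 1 : ℕ) : ℝ≥0∞) *
        kern (Set.univ : Set (Lat d)) (n + 1) 0 0 else 0)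
      ≤ (α : ℝ≥0∞) * (ENNReal.ofReal C₁ *
          ENNReal.ofReal (C₂ * (N : ℝ) ^ (1 - ((d : ℝ) / 2 - 1)))) := by
        refine mul_le_mul' le_rfl ((ENNReal.tsum_le_tsum h1).trans ?_)
        rw [ENNReal.tsum_mul_left]
        exact mul_le_mul' le_rfl (ht N hN)
    _ ≤ _ := by
        rw [← ENNReal.ofReal_mul hC₁.le, ← ENNReal.ofReal_coe_nnreal,
          ← ENNReal.ofReal_mul (NNReal.coe_nonneg _)]
        refine ENNReal.ofReal_le_ofReal ?_
        have e3 : 1 - ((d : ℝ) / 2 - 1) = 2 - (d : ℝ) / 2 := by ring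
        rw [e3]
        have h2 : (0 : ℝ) ≤ (N : ℝ) ^ (2 - (d : ℝ) / 2) := by positivity
        have h3 : 0 ≤ C₁ * C₂ * (N : ℝ) ^ (2 - (d : ℝ) / 2) := by positivity
        nlinarith

lemma rho_ne_top {d : ℕ} (hd : 5 ≤ d) (α : ℝ≥0) : (loopSys d α).rho ≠ ⊤ := by
  classical
  obtain ⟨C, hC, h⟩ := rate_long_card hd α
  have h1 := h 1 le_rfl 0
  refine ne_top_of_le_ne_top (ENNReal.ofReal_ne_top (r := C * ((1 : ℕ) : ℝ) ^ (2 - (d : ℝ) / 2)))
    (le_trans ?_ h1)
  unfold rho rate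
  refine ENNReal.tsum_le_tsum fun c => ?_
  by_cases hc : c ∈ (Set.univ : Set (Cycle (Lat d))) ∩ {i | (0 : Lat d) ∈ (loopSys d α).s i}
  · rw [indicator_of_mem hc, indicator_of_mem]
    refine ⟨?_, hc.2⟩
    simp only [shortLoops, mem_compl_iff, mem_ofPred_eq, not_lt]
    have h2 := card_s_le (α := α) c
    have h3 : 0 < ((loopSys d α).s c).card := Finset.card_pos.2 ⟨0, hc.2⟩
    omega
  · rw [indicator_of_notMem hc]; exact zero_le

/-- rate of the loops of a given length through the origin -/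
lemma rate_len_le {d : ℕ} (hd : 5 ≤ d) (α : ℝ≥0) : ∃ C : ℝ, ∀ m : ℕ, 1 ≤ m →
    ∑' c : Cycle (Lat d), (if 0 ∈ (loopSys d α).s c ∧ c.length = m then
      ((loopSys d α).lam c : ℝ≥0∞) else 0) ≤ ENNReal.ofReal (C * (m : ℝ) ^ (-(5 : ℝ) / 2)) := by
  classical
  obtain ⟨C₁, hC₁, hk⟩ := kern_le d (by omega)
  have hd' : (5 : ℝ) ≤ d := by exact_mod_cast hd
  refine ⟨α * C₁, fun m hm => ?_⟩
  obtain ⟨k, rfl⟩ : ∃ k, m = k + 1 := ⟨m - 1, by omega⟩
  have h1 : ∑' c : Cycle (Lat d), (if 0 ∈ (loopSys d α).s c ∧ c.length = k + 1 then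
      ((loopSys d α).lam c : ℝ≥0∞) else 0) =
      (loopSys d α).rate {c | c.length = k + 1} 0 (fun _ => 1) := by
    unfold rate
    refine tsum_congr fun c => ?_
    by_cases h : 0 ∈ (loopSys d α).s c ∧ c.length = k + 1
    · rw [if_pos h, indicator_of_mem (show c ∈ {c : Cycle (Lat d) | c.length = k + 1} ∩
        {i | (0 : Lat d) ∈ (loopSys d α).s i} from ⟨h.2, h.1⟩), mul_one]
    · rw [if_neg h, indicator_of_notMem (fun h' => h ⟨h'.2, h'.1⟩)]
  rw [h1]
  refine (rate_loopSys_le (by omega) α _ 0 _).trans ?_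
  have h2 : ∑' n : ℕ, ∑ w : Fin (n + 1) → Step d,
      (if IsClosedWalk w then ((2 * (d : ℝ≥0∞))⁻¹) ^ (n + 1) *
        {c : Cycle (Lat d) | c.length = k + 1}.indicator (fun _ => 1)
          (verts (0 : Lat d) w : Cycle (Lat d)) else 0) =
      kern (Set.univ : Set (Lat d)) (k + 1) 0 0 := by
    rw [tsum_eq_single k]
    · rw [kern_eq_numClosed, ← Finset.sum_filter, numClosed]
      rw [Finset.sum_congr rfl (g := fun _ => ((2 * (d : ℝ≥0∞))⁻¹) ^ (k + 1)), Finset.sum_const,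
        nsmul_eq_mul]
      intro w _
      rw [indicator_of_mem, mul_one]
      simp only [mem_ofPred_eq, length_verts]
    · intro n hn
      refine Finset.sum_eq_zero fun w _ => ?_
      split_ifs
      · rw [indicator_of_notMem, mul_zero]
        simp only [mem_ofPred_eq, length_verts]
        omega
      · rfl
  rw [h2]
  refine (mul_le_mul' le_rfl (kern_le_ofReal hk (k + 1) (by omega) (0 : Lat d) 0)).trans ?_
  rw [← ENNReal.ofReal_coe_nnreal, ← ENNReal.ofReal_mul (NNReal.coe_nonneg _)]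
  refine ENNReal.ofReal_le_ofReal ?_
  rw [mul_assoc]
  refine mul_le_mul_of_nonneg_left (mul_le_mul_of_nonneg_left ?_ hC₁.le) (NNReal.coe_nonneg _)
  refine Real.rpow_le_rpow_of_exponent_le ?_ (by linarith)
  exact_mod_cast hm

end Pool.Agent.LoopPerc
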