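import Pool.Agent.LoopPerc.GreenFacts
import Pool.Agent.LoopPerc.Cap
import Pool.Agent.LoopPerc.LoopRates
import Pool.Agent.LoopPerc.Limit2f
import Pool.Agent.LoopPerc.ArmLimit

/-!
# The two-point function and the one-arm probability of the loop soup
-/

namespace Pool.Agent.LoopPerc

open MeasureTheory ProbabilityTheory Filter Topology Set HSys
open scoped ENNReal NNReal

section norms

variable {d : ℕ}

lemma norm_le_enorm2 (x : Lat d) : ‖x‖ ≤ enorm2 x := by
  rw [pi_norm_le_iff_of_nonneg (enorm2_nonneg x)]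
  intro i
  rw [Int.norm_eq_abs]
  have := Cap.abs_le_enorm2 x i
  exact this

lemma enorm2_le_norm (x : Lat d) : enorm2 x ≤ d * ‖x‖ := by
  refine (enorm2_le_sum x).trans ?_
  calc ∑ i, |(x i : ℝ)| ≤ ∑ _i : Fin d, ‖x‖ := by
        refine Finset.sum_le_sum fun i _ => ?_
        have := norm_le_pi_norm x i
        rwa [Int.norm_eq_abs] at this
    _ = d * ‖x‖ := by simp

lemma lt_norm_iff_ceil (y : Lat d) {r : ℝ} (hr : 0 < r) : r ≤ ‖y‖ ↔ (⌈r⌉₊ : ℝ) ≤ ‖y‖ := by
  have h1 : (0 : ℝ) < (⌈r⌉₊ : ℝ) := by exact_mod_cast Nat.ceil_pos.2 hr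
  rw [← not_lt, ← not_lt, not_iff_not, pi_norm_lt_iff hr, pi_norm_lt_iff h1]
  refine forall_congr' fun i => ?_
  have h2 : ‖y i‖ = ((y i).natAbs : ℝ) := by
    rw [Int.norm_eq_abs, Nat.cast_natAbs, Int.cast_abs]
  rw [h2, ← Nat.lt_ceil, Nat.cast_lt]

end norms

lemma exists_real_limit {X : Type*} {l : Filter X} {f : X → ℝ≥0∞} {T : ℝ≥0∞} (hT : T ≠ ⊤)
    (h : Tendsto f l (𝓝 T)) : ∃ L : ℝ, 0 ≤ L ∧ Tendsto f l (𝓝 (ENNReal.ofReal L)) :=
  ⟨T.toReal, ENNReal.toReal_nonneg, by rwa [ENNReal.ofReal_toReal hT]⟩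

variable {d : ℕ}

lemma mem_hit_loopSys {α : ℝ≥0} {A : Set (Lat d)} {c : Cycle (Lat d)} :
    c ∈ (loopSys d α).hit A ↔ ∃ a ∈ A, a ∈ c := by
  constructor
  · rintro ⟨x, hx, hA⟩
    exact ⟨x, hA, mem_s_loopSys.1 hx⟩
  · rintro ⟨x, hA, hx⟩
    exact ⟨x, mem_s_loopSys.2 hx, hA⟩

lemma mass_loopSys (α : ℝ≥0) (K : Set (Cycle (Lat d))) (q : Cycle (Lat d) → Prop)
    [DecidablePred q] (h : ∀ c, c ∈ K ↔ q c) :
    (loopSys d α).mass K = α * ∑' c : Cycle (Lat d), if q c then (loopMeasure c : ℝ≥0∞) else 0 := by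
  unfold mass
  rw [← ENNReal.tsum_mul_left]
  refine tsum_congr fun c => ?_
  by_cases hc : q c
  · rw [if_pos hc, indicator_of_mem ((h c).2 hc), coe_lam_loopSys]
  · rw [if_neg hc, indicator_of_notMem (fun h' => hc ((h c).1 h')), mul_zero]

/-- the loops through a finite set have finite mass -/
lemma tsum_loops_ne_top (hd : 5 ≤ d) (A : Finset (Lat d)) (q : Cycle (Lat d) → Prop)
    [DecidablePred q] (hq : ∀ c, q c → ∃ a ∈ A, a ∈ c) :
    ∑' c : Cycle (Lat d), (if q c then (loopMeasure c : ℝ≥0∞) else 0) ≠ ⊤ := by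
  classical
  obtain ⟨C, hC, hr⟩ := rate_long_one hd 1
  have h1 : ∑' c : Cycle (Lat d), (if q c then (loopMeasure c : ℝ≥0∞) else 0) ≤
      (loopSys d 1).mass (univ ∩ (loopSys d 1).hit A) := by
    rw [mass_loopSys 1 _ (fun c => ∃ a ∈ A, a ∈ c)]
    · rw [ENNReal.coe_one, one_mul]
      refine ENNReal.tsum_le_tsum fun c => ?_
      by_cases hc : q c
      · rw [if_pos hc, if_pos (hq c hc)]
      · rw [if_neg hc]; exact zero_le
    · intro c
      rw [univ_inter, mem_hit_loopSys]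
      rfl
  have h2 := hit_sum_le (H := loopSys d 1) univ A (fun _ => 1)
  simp only [mul_one] at h2
  refine ne_top_of_le_ne_top ?_ (h1.trans h2)
  refine (ENNReal.sum_lt_top.2 fun u _ => ?_).ne
  refine lt_of_le_of_lt (le_trans ?_ (hr 1 le_rfl u)) ENNReal.ofReal_lt_top
  unfold rate
  refine ENNReal.tsum_le_tsum fun c => ?_
  by_cases hc : c ∈ univ ∩ {i | u ∈ (loopSys d 1).s i}
  · rw [indicator_of_mem hc, indicator_of_mem]
    refine ⟨?_, hc.2⟩
    simp only [shortLoops, mem_compl_iff, mem_ofPred_eq, not_lt]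
    have h2 := card_s_le (α := 1) c
    have h3 : 0 < ((loopSys d 1).s c).card := Finset.card_pos.2 ⟨u, hc.2⟩
    omega
  · rw [indicator_of_notMem hc]; exact zero_le

/-- **The two-point function.** -/
theorem loop_two_point (hd : 5 ≤ d) (α : ℝ≥0) (sh : (loopSys d α).Shift)
    (hchi : (loopSys d α).chi ≠ ⊤) :
    ∃ L : ℝ, 0 ≤ L ∧ Tendsto (fun x : Lat d => ENNReal.ofReal (enorm2 x ^ (2 * (d - 2))) *
      (loopSys d α).tau Set.univ 0 x) cofinite (𝓝 (ENNReal.ofReal L)) := by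
  classical
  obtain ⟨c₀, hc₀, hG3⟩ := green_asymp (d := d) (by omega)
  have hG := green_ne_top (d := d) (by omega) 0
  have hcap := cap_pair d (by omega) hG c₀ hG3 hc₀
  choose L hL0 hL using hcap
  set s : ℕ := 2 * (d - 2) with hs
  have hs1 : 0 < s := by omega
  -- bound for the kernel
  obtain ⟨C, hC⟩ := (hL {0} {0}).bddAbove_range_of_cofinite
  have hmass : ∀ (A B : Finset (Lat d)) (x : Lat d),
      (loopSys d α).mass ((loopSys d α).hit A ∩ (loopSys d α).hit (tset B x)) =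
      α * ∑' c : Cycle (Lat d), (if (∃ a ∈ A, a ∈ c) ∧ (∃ b ∈ B, b + x ∈ c) then
        (loopMeasure c : ℝ≥0∞) else 0) := by
    intro A B x
    refine mass_loopSys α _ _ fun c => ?_
    rw [mem_inter_iff, mem_hit_loopSys, mem_hit_loopSys]
    refine and_congr Iff.rfl ?_
    constructor
    · rintro ⟨_, ⟨b, hb, rfl⟩, hc⟩
      exact ⟨b, hb, hc⟩
    · rintro ⟨b, hb, hc⟩
      exact ⟨b + x, ⟨b, hb, rfl⟩, hc⟩
  have hne : ∀ (A B : Finset (Lat d)) (x : Lat d),
      ∑' c : Cycle (Lat d), (if (∃ a ∈ A, a ∈ c) ∧ (∃ b ∈ B, b + x ∈ c) then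
        (loopMeasure c : ℝ≥0∞) else 0) ≠ ⊤ := fun A B x =>
    tsum_loops_ne_top hd A (fun c => (∃ a ∈ A, a ∈ c) ∧ (∃ b ∈ B, b + x ∈ c)) fun c hc => hc.1
  have hK : ∀ v : Lat d, v ≠ 0 → (loopSys d α).Kr Set.univ 0 v ≤
      ENNReal.ofReal ((α * |C|) * ‖v‖ ^ (-(s : ℝ))) := by
    intro v hv
    have hv' : 0 < ‖v‖ := norm_pos_iff.2 hv
    have h1 : (loopSys d α).Kr Set.univ 0 v = α * ∑' c : Cycle (Lat d),
        (if (∃ a ∈ ({0} : Finset (Lat d)), a ∈ c) ∧ (∃ b ∈ ({0} : Finset (Lat d)), b + v ∈ c) then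
        (loopMeasure c : ℝ≥0∞) else 0) := by
      unfold Kr rate
      rw [← ENNReal.tsum_mul_left]
      refine tsum_congr fun c => ?_
      by_cases h0 : (0 : Lat d) ∈ c
      · rw [indicator_of_mem (show c ∈ univ ∩ {i | (0 : Lat d) ∈ (loopSys d α).s i} from
          ⟨trivial, mem_s_loopSys.2 h0⟩), coe_lam_loopSys]
        by_cases h1 : v ∈ c
        · rw [indicator_of_mem (show c ∈ {i | v ∈ (loopSys d α).s i} from mem_s_loopSys.2 h1),
            if_pos ⟨⟨0, by simp, h0⟩, ⟨0, by simp, by simpa using h1⟩⟩, mul_one]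
        · rw [indicator_of_notMem (show c ∉ {i | v ∈ (loopSys d α).s i} from
            fun h => h1 (mem_s_loopSys.1 h)), if_neg, mul_zero, mul_zero]
          rintro ⟨-, b, hb, hb'⟩
          rw [Finset.mem_singleton] at hb
          subst hb
          exact h1 (by simpa using hb')
      · rw [indicator_of_notMem (fun h => h0 (mem_s_loopSys.1 h.2)), if_neg, mul_zero]
        rintro ⟨⟨a, ha, ha'⟩, -⟩
        rw [Finset.mem_singleton] at ha
        subst ha
        exact h0 ha'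
    have h2 := hC ⟨v, rfl⟩
    simp only at h2
    rw [h1, ← ENNReal.ofReal_toReal (hne {0} {0} v), ← ENNReal.ofReal_coe_nnreal,
      ← ENNReal.ofReal_mul (NNReal.coe_nonneg _)]
    refine ENNReal.ofReal_le_ofReal ?_
    rw [mul_assoc]
    refine mul_le_mul_of_nonneg_left ?_ (NNReal.coe_nonneg _)
    rw [Real.rpow_neg hv'.le, Real.rpow_natCast, ← div_eq_mul_inv, le_div_iff₀ (by positivity),
      mul_comm]
    calc ‖v‖ ^ s * _ ≤ enorm2 v ^ s * _ := by
          refine mul_le_mul_of_nonneg_right ?_ ENNReal.toReal_nonneg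
          exact pow_le_pow_left₀ (norm_nonneg _) (norm_le_enorm2 v) _
      _ ≤ C := h2
      _ ≤ |C| := le_abs_self C
  have hlim : ∀ A B : Finset (Lat d), Tendsto (fun x : Lat d => ENNReal.ofReal (enorm2 x ^ s) *
      (loopSys d α).mass ((loopSys d α).hit A ∩ (loopSys d α).hit (tset B x))) cofinite
      (𝓝 (ENNReal.ofReal (α * L A B))) := by
    intro A B
    have h1 := ((hL A B).const_mul (α : ℝ))
    have h2 := (ENNReal.continuous_ofReal.tendsto _).comp h1
    refine h2.congr fun x => ?_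
    simp only [Function.comp]
    rw [hmass A B x, ENNReal.ofReal_mul (NNReal.coe_nonneg _),
      ENNReal.ofReal_mul (by have := enorm2_nonneg x; positivity), ENNReal.ofReal_coe_nnreal,
      ENNReal.ofReal_toReal (hne A B x)]
    ring
  obtain ⟨h3, h4⟩ := two_point_limit sh (by omega) (s := (s : ℝ)) (by exact_mod_cast hs1)
    (by positivity) hK hchi (rho_ne_top hd α) (fun x => ENNReal.ofReal (enorm2 x ^ s))
    ((d : ℝ) ^ s) (by positivity) (by
      intro x _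
      refine ENNReal.ofReal_le_ofReal ?_
      rw [Real.rpow_natCast, ← mul_pow]
      exact pow_le_pow_left₀ (enorm2_nonneg x) (enorm2_le_norm x) _)
    (fun A B => ENNReal.ofReal (α * L A B)) (fun A B => ENNReal.ofReal_ne_top) hlim
  exact exists_real_limit h4 h3

/-- **The one-arm probability.** -/
theorem loop_one_arm (hd : 5 ≤ d) (α : ℝ≥0) (sh : (loopSys d α).Shift)
    (hchi : (loopSys d α).chi ≠ ⊤) :
    ∃ L : ℝ, 0 ≤ L ∧ Tendsto (fun r : ℝ => ENNReal.ofReal (r ^ ((d - 2 : ℕ) : ℝ)) *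
      (loopSys d α).arm r) atTop (𝓝 (ENNReal.ofReal L)) := by
  classical
  obtain ⟨c₀, hc₀, hG3⟩ := green_asymp (d := d) (by omega)
  obtain ⟨κ, hκ, hG4⟩ := green_box_asymp (d := d) (by omega)
  have hG := green_ne_top (d := d) (by omega) 0
  have hcap := cap_box d (by omega) hG c₀ κ hG3 hc₀ hG4
  choose L hL0 hL using hcap
  obtain ⟨C, hC⟩ := (hL {0}).bddAbove_range
  have hne : ∀ (A : Finset (Lat d)) (n : ℕ),
      ∑' c : Cycle (Lat d), (if (∃ a ∈ A, a ∈ c) ∧ (∃ x ∈ c, x ∉ box d n) then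
        (loopMeasure c : ℝ≥0∞) else 0) ≠ ⊤ := fun A n =>
    tsum_loops_ne_top hd A (fun c => (∃ a ∈ A, a ∈ c) ∧ (∃ x ∈ c, x ∉ box d n)) fun c hc => hc.1
  have hout : ∀ r : ℝ, 0 < r → ∀ c : Cycle (Lat d), c ∈ (loopSys d α).out r ↔
      ∃ x ∈ c, x ∉ box d ⌈r⌉₊ := by
    intro r hr c
    constructor
    · rintro ⟨y, hy, hy'⟩
      refine ⟨y, mem_s_loopSys.1 hy, ?_⟩
      rw [lt_norm_iff_ceil y hr] at hy'
      simp only [box, mem_ofPred_eq, not_lt]
      exact hy'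
    · rintro ⟨y, hy, hy'⟩
      refine ⟨y, mem_s_loopSys.2 hy, ?_⟩
      rw [lt_norm_iff_ceil y hr]
      simp only [box, mem_ofPred_eq, not_lt] at hy'
      exact hy'
  have hceil1 : ∀ r : ℝ, 0 < r → (0 : ℝ) < (⌈r⌉₊ : ℝ) := fun r hr => by
    exact_mod_cast Nat.ceil_pos.2 hr
  have hM : ∀ r : ℝ, 0 < r → (loopSys d α).rate Set.univ 0
      (((loopSys d α).out r).indicator fun _ => 1) ≤
      ENNReal.ofReal ((α * |C|) * r ^ (-((d - 2 : ℕ) : ℝ))) := by
    intro r hr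
    have h1 : (loopSys d α).rate Set.univ 0 (((loopSys d α).out r).indicator fun _ => 1) =
        α * ∑' c : Cycle (Lat d), (if (∃ a ∈ ({0} : Finset (Lat d)), a ∈ c) ∧
          (∃ x ∈ c, x ∉ box d ⌈r⌉₊) then (loopMeasure c : ℝ≥0∞) else 0) := by
      unfold rate
      rw [← ENNReal.tsum_mul_left]
      refine tsum_congr fun c => ?_
      by_cases h0 : (0 : Lat d) ∈ c
      · rw [indicator_of_mem (show c ∈ univ ∩ {i | (0 : Lat d) ∈ (loopSys d α).s i} from
          ⟨trivial, mem_s_loopSys.2 h0⟩), coe_lam_loopSys]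
        by_cases h1 : c ∈ (loopSys d α).out r
        · rw [indicator_of_mem h1, if_pos ⟨⟨0, by simp, h0⟩, (hout r hr c).1 h1⟩, mul_one]
        · rw [indicator_of_notMem h1, if_neg, mul_zero, mul_zero]
          rintro ⟨-, h⟩
          exact h1 ((hout r hr c).2 h)
      · rw [indicator_of_notMem (fun h => h0 (mem_s_loopSys.1 h.2)), if_neg, mul_zero]
        rintro ⟨⟨a, ha, ha'⟩, -⟩
        rw [Finset.mem_singleton] at ha
        subst ha
        exact h0 ha'
    have h2 := hC ⟨⌈r⌉₊, rfl⟩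
    simp only at h2
    rw [h1, ← ENNReal.ofReal_toReal (hne {0} ⌈r⌉₊), ← ENNReal.ofReal_coe_nnreal,
      ← ENNReal.ofReal_mul (NNReal.coe_nonneg _)]
    refine ENNReal.ofReal_le_ofReal ?_
    rw [mul_assoc]
    refine mul_le_mul_of_nonneg_left ?_ (NNReal.coe_nonneg _)
    rw [Real.rpow_neg hr.le, Real.rpow_natCast, ← div_eq_mul_inv, le_div_iff₀ (by positivity),
      mul_comm]
    calc r ^ (d - 2) * _ ≤ (⌈r⌉₊ : ℝ) ^ (d - 2) * _ := by
          refine mul_le_mul_of_nonneg_right ?_ ENNReal.toReal_nonneg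
          exact pow_le_pow_left₀ hr.le (Nat.le_ceil r) _
      _ ≤ C := h2
      _ ≤ |C| := le_abs_self C
  have hratio : Tendsto (fun r : ℝ => (r / (⌈r⌉₊ : ℝ)) ^ (d - 2)) atTop (𝓝 1) := by
    have h1 : Tendsto (fun r : ℝ => r / (⌈r⌉₊ : ℝ)) atTop (𝓝 1) := by
      have := (tendsto_nat_ceil_div_atTop (R := ℝ)).inv₀ one_ne_zero
      rw [inv_one] at this
      refine this.congr fun r => ?_
      rw [inv_div]
    simpa using h1.pow (d - 2)
  have hlim : ∀ A : Finset (Lat d), Tendsto (fun r : ℝ =>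
      ENNReal.ofReal (r ^ ((d - 2 : ℕ) : ℝ)) *
      (loopSys d α).mass ((loopSys d α).hit A ∩ (loopSys d α).out r)) atTop
      (𝓝 (ENNReal.ofReal (α * L A))) := by
    intro A
    have hn : Tendsto (fun r : ℝ => ⌈r⌉₊) atTop atTop := tendsto_nat_ceil_atTop
    have h1 := (((hL A).comp hn).const_mul (α : ℝ)).mul hratio
    rw [mul_one] at h1
    have h2 := (ENNReal.continuous_ofReal.tendsto _).comp h1
    refine h2.congr' ?_
    filter_upwards [eventually_gt_atTop 0] with r hr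
    have hc := hceil1 r hr
    simp only [Function.comp]
    have hmass : (loopSys d α).mass ((loopSys d α).hit A ∩ (loopSys d α).out r) =
        α * ∑' c : Cycle (Lat d), (if (∃ a ∈ A, a ∈ c) ∧ (∃ x ∈ c, x ∉ box d ⌈r⌉₊) then
          (loopMeasure c : ℝ≥0∞) else 0) := by
      refine mass_loopSys α _ _ fun c => ?_
      rw [mem_inter_iff, mem_hit_loopSys, hout r hr c]
      exact and_congr Iff.rfl Iff.rfl
    set T := ∑' c : Cycle (Lat d), (if (∃ a ∈ A, a ∈ c) ∧ (∃ x ∈ c, x ∉ box d ⌈r⌉₊) then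
          (loopMeasure c : ℝ≥0∞) else 0) with hT
    have hTne : T ≠ ⊤ := hne A ⌈r⌉₊
    rw [hmass, Real.rpow_natCast]
    have e1 : (α : ℝ) * ((⌈r⌉₊ : ℝ) ^ (d - 2) * T.toReal) * (r / (⌈r⌉₊ : ℝ)) ^ (d - 2) =
        r ^ (d - 2) * (α * T.toReal) := by
      rw [div_pow]
      field_simp
    rw [e1, ENNReal.ofReal_mul (by positivity), ENNReal.ofReal_mul (NNReal.coe_nonneg _),
      ENNReal.ofReal_coe_nnreal, ENNReal.ofReal_toReal hTne]
  obtain ⟨h3, h4⟩ := one_arm_limit sh (σ := ((d - 2 : ℕ) : ℝ)) (by exact_mod_cast (by omega : 0 < d - 2))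
    (by positivity) hM hchi (rho_ne_top hd α) (fun A => ENNReal.ofReal (α * L A))
    (fun A => ENNReal.ofReal_ne_top) hlim
  exact exists_real_limit h4 h3

end Pool.Agent.LoopPerc
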