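import Pool.Agent.LoopPerc.TwoPoint

/-!
# Tools: cluster expectations, convolutions, presence in a family of hyperedges
-/

namespace Pool.Agent.LoopPerc

open MeasureTheory ProbabilityTheory Filter Topology Set
open scoped ENNReal NNReal

/-- dominated convergence for sums in `ℝ≥0∞` -/
lemma tsum_tendsto_of_dominated {α : Type*} [Countable α] (f : ℕ → α → ℝ≥0∞) (F g : α → ℝ≥0∞)
    (hg : ∑' a, g a ≠ ⊤) (hle : ∀ n a, f n a ≤ g a)
    (hlim : ∀ a, Tendsto (fun n => f n a) atTop (𝓝 (F a))) :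
    Tendsto (fun n => ∑' a, f n a) atTop (𝓝 (∑' a, F a)) := by
  let _ : MeasurableSpace α := ⊤
  have _ : MeasurableSingletonClass α := ⟨fun _ => trivial⟩
  have h := tendsto_lintegral_of_dominated_convergence (μ := (Measure.count : Measure α))
    (F := f) (f := F) g (fun n => measurable_from_top)
    (fun n => Eventually.of_forall (hle n)) (by rwa [lintegral_count]) (Eventually.of_forall hlim)
  simpa [lintegral_count] using h

/-- Fatou for sums in `ℝ≥0∞` -/
lemma tsum_liminf_le {α : Type*} [Countable α] (f : ℕ → α → ℝ≥0∞) :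
    ∑' a, liminf (fun n => f n a) atTop ≤ liminf (fun n => ∑' a, f n a) atTop := by
  let _ : MeasurableSpace α := ⊤
  have _ : MeasurableSingletonClass α := ⟨fun _ => trivial⟩
  have h := lintegral_liminf_le (μ := (Measure.count : Measure α)) (f := f) (u := atTop)
    (fun n => measurable_from_top)
  simpa [lintegral_count] using h

/-! ### convolutions -/

section conv

variable {d : ℕ}

/-- convolution -/
noncomputable def conv (f g : Lat d → ℝ≥0∞) (x : Lat d) : ℝ≥0∞ := ∑' y, f y * g (x - y)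

/-- supremum outside of a ball -/
noncomputable def supN (f : Lat d → ℝ≥0∞) (r : ℝ) : ℝ≥0∞ := ⨆ (y : Lat d) (_ : r ≤ ‖y‖), f y

lemma le_supN {f : Lat d → ℝ≥0∞} {r : ℝ} {y : Lat d} (h : r ≤ ‖y‖) : f y ≤ supN f r :=
  le_iSup₂ (f := fun (y : Lat d) (_ : r ≤ ‖y‖) => f y) y h

lemma supN_anti (f : Lat d → ℝ≥0∞) {r r' : ℝ} (h : r ≤ r') : supN f r' ≤ supN f r :=
  iSup₂_le fun _ hy => le_supN (h.trans hy)

lemma tsum_conv (f g : Lat d → ℝ≥0∞) : ∑' x, conv f g x = (∑' x, f x) * ∑' x, g x := by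
  unfold conv
  rw [ENNReal.tsum_comm]
  rw [← ENNReal.tsum_mul_right]
  refine tsum_congr fun y => ?_
  rw [ENNReal.tsum_mul_left, ← (Equiv.addRight y).tsum_eq (fun x => g (x - y))]
  simp

lemma supN_conv (f g : Lat d → ℝ≥0∞) (r : ℝ) :
    supN (conv f g) r ≤ supN f (r / 2) * ∑' x, g x + (∑' x, f x) * supN g (r / 2) := by
  refine iSup₂_le fun x hx => ?_
  unfold conv
  have h1 : ∀ y, f y * g (x - y) ≤ supN f (r / 2) * g (x - y) + f y * supN g (r / 2) := by
    intro y
    by_cases hy : r / 2 ≤ ‖y‖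
    · exact (mul_le_mul' (le_supN hy) le_rfl).trans le_self_add
    · have : r / 2 ≤ ‖x - y‖ := by
        have := norm_sub_norm_le x y
        push Not at hy
        linarith
      exact (mul_le_mul' le_rfl (le_supN this)).trans le_add_self
  refine (ENNReal.tsum_le_tsum h1).trans ?_
  rw [ENNReal.tsum_add, ENNReal.tsum_mul_left, ENNReal.tsum_mul_right]
  have h2 : ∑' y, g (x - y) = ∑' y, g y := (Equiv.subLeft x).tsum_eq g
  rw [h2]

end conv

namespace HSys

section gen

variable {V ι : Type*} {H : HSys V ι}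

/-- total rate of a family -/
noncomputable def mass (H : HSys V ι) (K : Set ι) : ℝ≥0∞ :=
  ∑' i, K.indicator (fun i => (H.lam i : ℝ≥0∞)) i

lemma mass_mono {K K' : Set ι} (h : K ⊆ K') : H.mass K ≤ H.mass K' :=
  ENNReal.tsum_le_tsum fun i => indicator_le_indicator_of_subset h (fun _ => zero_le) i

lemma mass_union_le (K K' : Set ι) : H.mass (K ∪ K') ≤ H.mass K + H.mass K' := by
  classical
  unfold mass
  rw [← ENNReal.tsum_add]
  refine ENNReal.tsum_le_tsum fun i => ?_
  by_cases h : i ∈ K <;> by_cases h' : i ∈ K' <;> simp [indicator, h, h']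

/-- some hyperedge of `K` is present -/
def Pres (K : Set ι) (ω : ι → ℕ) : Prop := ∃ i ∈ K, ω i ≠ 0

variable [Countable ι]

omit H in
lemma measurableSet_pres (K : Set ι) : MeasurableSet[sig ι K] {ω : ι → ℕ | Pres K ω} := by
  have h : {ω : ι → ℕ | Pres K ω} = ⋃ i : ι, ⋃ (_ : i ∈ K), {ω : ι → ℕ | ω i ≠ 0} := by
    ext ω; simp [Pres]
  rw [h]
  exact MeasurableSet.iUnion fun i => MeasurableSet.iUnion fun hi => measurableSet_present hi

lemma P_pres_le (K : Set ι) : H.P {ω | Pres K ω} ≤ H.mass K := by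
  have h : {ω : ι → ℕ | Pres K ω} = ⋃ i : ι, ⋃ (_ : i ∈ K), {ω : ι → ℕ | ω i ≠ 0} := by
    ext ω; simp [Pres]
  rw [h]
  refine (measure_iUnion_le _).trans (ENNReal.tsum_le_tsum fun i => ?_)
  by_cases hi : i ∈ K
  · rw [indicator_of_mem hi]
    have : (⋃ (_ : i ∈ K), {ω : ι → ℕ | ω i ≠ 0}) = {ω : ι → ℕ | ω i ≠ 0} := by
      ext ω; simp [hi]
    rw [this]
    exact P_present_le i
  · rw [indicator_of_notMem hi]
    have : (⋃ (_ : i ∈ K), {ω : ι → ℕ | ω i ≠ 0}) = ∅ := by
      ext ω; simp [hi]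
    rw [this, measure_empty]

omit [Countable ι] in
lemma P_pres_ge (K : Set ι) (hK : H.mass K ≠ ⊤) :
    ENNReal.ofReal (1 - Real.exp (-(H.mass K).toReal)) ≤ H.P {ω | Pres K ω} := by
  classical
  -- finite subfamilies
  have hfin : ∀ F : Finset ι, (∀ i ∈ F, i ∈ K) →
      ENNReal.ofReal (1 - Real.exp (-(∑ i ∈ F, (H.lam i : ℝ)))) ≤ H.P {ω | Pres K ω} := by
    intro F hF
    have h1 : H.P (Set.pi (F : Set ι) fun _ => ({0} : Set ℕ)) =
        ENNReal.ofReal (Real.exp (-(∑ i ∈ F, (H.lam i : ℝ)))) := by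
      unfold HSys.P
      rw [Measure.infinitePi_pi _ (fun i _ => measurableSet_singleton 0)]
      simp only [poissonMeasure_singleton]
      rw [← Finset.sum_neg_distrib, Real.exp_sum, ENNReal.ofReal_prod_of_nonneg
        (fun i _ => (Real.exp_pos _).le)]
      refine Finset.prod_congr rfl fun i _ => ?_
      simp
    have h2 : (Set.pi (F : Set ι) fun _ => ({0} : Set ℕ))ᶜ ⊆ {ω : ι → ℕ | Pres K ω} := by
      intro ω hω
      simp only [mem_compl_iff, Set.mem_pi, Finset.mem_coe, mem_singleton_iff, not_forall] at hω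
      obtain ⟨i, hi, h0⟩ := hω
      exact ⟨i, hF i hi, h0⟩
    have hm : MeasurableSet (Set.pi (F : Set ι) fun _ => ({0} : Set ℕ)) :=
      MeasurableSet.pi F.countable_toSet fun i _ => measurableSet_singleton 0
    refine le_trans (le_of_eq ?_) (measure_mono h2)
    rw [prob_compl_eq_one_sub hm, h1, ← ENNReal.ofReal_one,
      ← ENNReal.ofReal_sub _ (Real.exp_pos _).le]
  have hsum : Summable (K.indicator fun i => (H.lam i : ℝ)) := by
    have h1 : ∑' i, ((K.indicator (fun i => H.lam i) i : ℝ≥0) : ℝ≥0∞) ≠ ⊤ := by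
      have : ∀ i, ((K.indicator (fun i => H.lam i) i : ℝ≥0) : ℝ≥0∞) =
          K.indicator (fun i => (H.lam i : ℝ≥0∞)) i := by
        intro i; by_cases hi : i ∈ K <;> simp [hi]
      simp_rw [this]; exact hK
    have h2 := ENNReal.tsum_coe_ne_top_iff_summable.1 h1
    have h3 : (K.indicator fun i => (H.lam i : ℝ)) = fun i => ((K.indicator (fun i => H.lam i) i : ℝ≥0) : ℝ) := by
      ext i; by_cases hi : i ∈ K <;> simp [hi]
    rw [h3]
    exact NNReal.summable_coe.2 h2
  have hmass : (H.mass K).toReal = ∑' i, K.indicator (fun i => (H.lam i : ℝ)) i := by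
    unfold mass
    rw [ENNReal.tsum_toReal_eq]
    · refine tsum_congr fun i => ?_
      by_cases hi : i ∈ K <;> simp [hi]
    · intro i; by_cases hi : i ∈ K <;> simp [hi]
  have hT := hsum.hasSum
  rw [← hmass] at hT
  have hcont : Continuous fun x : ℝ => ENNReal.ofReal (1 - Real.exp (-x)) :=
    ENNReal.continuous_ofReal.comp (by fun_prop)
  have h3 := (hcont.tendsto _).comp hT
  refine le_of_tendsto h3 (Eventually.of_forall fun F => ?_)
  simp only [Function.comp]
  have h4 : ∑ i ∈ F, K.indicator (fun i => (H.lam i : ℝ)) i =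
      ∑ i ∈ F.filter (fun i => i ∈ K), (H.lam i : ℝ) := by
    rw [Finset.sum_filter]
    refine Finset.sum_congr rfl fun i _ => ?_
    by_cases hi : i ∈ K <;> simp [hi]
  rw [h4]
  exact hfin _ (fun i hi => (Finset.mem_filter.1 hi).2)

variable [Countable V]

/-- expectation of a function of the cluster -/
noncomputable def EC (H : HSys V ι) (J : Set ι) (x : V) (f : Finset V → ℝ≥0∞) : ℝ≥0∞ :=
  ∑' A : Finset V, H.P {ω | H.clus J ω x = A} * f A

omit [Countable V] [Countable ι] in
lemma EC_mono_fun (J : Set ι) (x : V) {f g : Finset V → ℝ≥0∞} (h : ∀ A, f A ≤ g A) :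
    H.EC J x f ≤ H.EC J x g := ENNReal.tsum_le_tsum fun A => mul_le_mul' le_rfl (h A)

omit [Countable V] [Countable ι] in
lemma EC_add (J : Set ι) (x : V) (f g : Finset V → ℝ≥0∞) :
    H.EC J x (fun A => f A + g A) = H.EC J x f + H.EC J x g := by
  unfold EC
  rw [← ENNReal.tsum_add]
  exact tsum_congr fun A => mul_add _ _ _

omit [Countable V] [Countable ι] in
lemma EC_mul_const (J : Set ι) (x : V) (f : Finset V → ℝ≥0∞) (c : ℝ≥0∞) :
    H.EC J x (fun A => f A * c) = H.EC J x f * c := by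
  unfold EC
  rw [← ENNReal.tsum_mul_right]
  exact tsum_congr fun A => by rw [mul_assoc]

lemma EC_sum_le (J : Set ι) (x : V) (f : V → ℝ≥0∞) :
    H.EC J x (fun A => ∑ u ∈ A, f u) ≤ ∑' u, H.tau J x u * f u := tsum_clus_mul_sum_le J x f

open Classical in
/-- `EC` as an integral -/
lemma EC_eq_lintegral (J : Set ι) (x : V) (f : Finset V → ℝ≥0∞) :
    H.EC J x f = ∫⁻ ω, (if h : (H.clus J ω x).Finite then f h.toFinset else 0) ∂H.P := by
  have h1 : ∀ ω, (if h : (H.clus J ω x).Finite then f h.toFinset else 0) =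
      ∑' A : Finset V, ({ω | H.clus J ω x = A}.indicator (fun _ => f A) ω : ℝ≥0∞) := by
    intro ω
    by_cases h : (H.clus J ω x).Finite
    · rw [dif_pos h, tsum_eq_single h.toFinset]
      · rw [indicator_of_mem]
        simp
      · intro A hA
        rw [indicator_of_notMem]
        intro hω
        apply hA
        have h2 : H.clus J ω x = A := hω
        ext y
        rw [Set.Finite.mem_toFinset, h2]; simp
    · rw [dif_neg h]
      symm
      rw [ENNReal.tsum_eq_zero]
      intro A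
      rw [indicator_of_notMem]
      intro hω
      apply h
      have h2 : H.clus J ω x = A := hω
      rw [h2]; exact A.finite_toSet
  simp_rw [h1]
  rw [lintegral_tsum]
  · unfold EC
    refine tsum_congr fun A => ?_
    rw [lintegral_indicator_const (sig_le _ _ (measurableSet_clus_eq J x A)), mul_comm]
  · intro A
    exact (measurable_const.indicator (sig_le _ _ (measurableSet_clus_eq J x A))).aemeasurable

lemma EC_mono {J J' : Set ι} (h : J ⊆ J') (x : V) {f : Finset V → ℝ≥0∞} (hf : Monotone f)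
    (hfin : ∀ᵐ ω ∂H.P, (H.clus J' ω x).Finite) : H.EC J x f ≤ H.EC J' x f := by
  classical
  rw [EC_eq_lintegral, EC_eq_lintegral]
  refine lintegral_mono_ae ?_
  filter_upwards [hfin] with ω hω
  rw [dif_pos hω, dif_pos (hω.subset (clus_mono h ω x))]
  apply hf
  intro y hy
  rw [Set.Finite.mem_toFinset] at hy ⊢
  exact clus_mono h ω x hy

/-- probability that the cluster of `x` meets `W` as a sum over the cluster law -/
lemma tauT_eq_EC (J : Set ι) (x : V) (W : Set V)
    (hfin : ∀ᵐ ω ∂H.P, (H.clus J ω x).Finite) :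
    H.tauT J x W = H.EC J x ({A : Finset V | ∃ y ∈ A, y ∈ W}.indicator fun _ => 1) := by
  classical
  rw [EC_eq_lintegral]
  unfold tauT
  rw [← lintegral_indicator_one (sig_le _ _ (measurableSet_connT J x W))]
  refine lintegral_congr_ae ?_
  filter_upwards [hfin] with ω hω
  rw [dif_pos hω]
  by_cases h : H.ConnT J ω x W
  · rw [indicator_of_mem (show ω ∈ {ω | H.ConnT J ω x W} from h), indicator_of_mem]
    · rfl
    · obtain ⟨t, ht, hc⟩ := h
      exact ⟨t, by rw [Set.Finite.mem_toFinset]; exact hc, ht⟩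
  · rw [indicator_of_notMem (show ω ∉ {ω | H.ConnT J ω x W} from h), indicator_of_notMem]
    rintro ⟨t, ht, hc⟩
    rw [Set.Finite.mem_toFinset] at ht
    exact h ⟨t, hc, ht⟩

end gen

end HSys

end Pool.Agent.LoopPerc
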