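import Pool.Agent.LoopPerc.ClusW
import Pool.Agent.LoopPerc.Tools

/-!
# The volume of the cluster: reduction to one big hyperedge
-/

namespace Pool.Agent.LoopPerc.HSys

open MeasureTheory ProbabilityTheory Filter Topology Set
open scoped ENNReal NNReal

variable {V ι : Type*} {H : HSys V ι}

/-- the cluster avoids `hit A` once it is disjoint from the cluster `A` -/
lemma conn_diff_hit {S : Set ι} {ω : ι → ℕ} {x v z : V} (hv : v ∉ H.clus S ω x)
    (h : H.Conn S ω v z) : H.Conn (S \ H.hit (H.clus S ω x)) ω v z := by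
  induction h with
  | refl => exact Conn.refl v
  | @tail b c hab hbc ih =>
    obtain ⟨i, hi, h0, hb, hc⟩ := hbc
    refine Relation.ReflTransGen.tail ih ⟨i, ⟨hi, ?_⟩, h0, hb, hc⟩
    intro hh
    have h1 : b ∈ H.clus S ω x := subset_clus hi h0 hh hb
    have h2 : H.Conn S ω x b := h1
    exact hv (h2.trans (Conn.symm hab))

/-- exit from a set that is closed under the present hyperedges of `S` -/
lemma exists_exit' {J : Set ι} {ω : ι → ℕ} {x y : V} {W : Set V}
    (h : H.Conn J ω x y) (hx : x ∈ W) (hy : y ∉ W) :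
    ∃ i ∈ J, ω i ≠ 0 ∧ i ∈ H.hit W ∧ ¬ (H.s i : Set V) ⊆ W := by
  induction h with
  | refl => exact absurd hx hy
  | @tail b c hab hbc ih =>
    by_cases hb : b ∈ W
    · obtain ⟨i, hi, h0, hbi, hci⟩ := hbc
      exact ⟨i, hi, h0, ⟨b, hbi, hb⟩, fun hs => hy (hs hci)⟩
    · exact ih hb

lemma subset_clusW (S : Set ι) (ω : ι → ℕ) (W : Set V) : W ⊆ H.clusW S ω W :=
  fun v hv => ⟨v, hv, Conn.refl v⟩

lemma subset_clusW_of_hit {S : Set ι} {ω : ι → ℕ} {W : Set V} {i : ι} (hi : i ∈ S)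
    (h0 : ω i ≠ 0) (hh : i ∈ H.hit (H.clusW S ω W)) : (H.s i : Set V) ⊆ H.clusW S ω W := by
  obtain ⟨y, hy, v, hv, hc⟩ := hh
  intro z hz
  exact ⟨v, hv, Relation.ReflTransGen.tail hc ⟨i, hi, h0, hy, hz⟩⟩

lemma clusW_subset_clus {S : Set ι} {ω : ι → ℕ} {x : V} {i : ι}
    (h0 : ω i ≠ 0) (hh : i ∈ H.hit (H.clus S ω x)) :
    H.clusW S ω (H.s i) ⊆ H.clus Set.univ ω x := by
  rintro y ⟨v, hv, hc⟩
  have h1 : v ∈ H.clus Set.univ ω x := by
    have h2 : i ∈ H.hit (H.clus Set.univ ω x) := by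
      obtain ⟨z, hz, hz'⟩ := hh
      exact ⟨z, hz, clus_mono (subset_univ _) ω x hz'⟩
    exact subset_clus (mem_univ i) h0 h2 hv
  exact Conn.trans h1 (hc.mono_set (subset_univ _))

/-- the main term of the volume tail: a big hyperedge hits the cluster and has a large cluster -/
noncomputable def volMain (H : HSys V ι) (S : Set ι) (x : V) (n : ℕ) : ℝ≥0∞ :=
  ∑' i, Sᶜ.indicator (fun i => (H.lam i : ℝ≥0∞) *
    H.P {ω | i ∈ H.hit (H.clus S ω x) ∧ (n : ℕ∞) < (H.clusW S ω (H.s i)).encard}) i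

variable [Countable V] [Countable ι]

lemma measurableSet_hit_clus (S : Set ι) (x : V) (i : ι) :
    MeasurableSet[sig ι S] {ω | i ∈ H.hit (H.clus S ω x)} := by
  have h : {ω | i ∈ H.hit (H.clus S ω x)} = ⋃ v : V, ⋃ (_ : v ∈ H.s i), {ω | H.Conn S ω x v} := by
    ext ω; simp [hit, clus]
  rw [h]
  exact MeasurableSet.iUnion fun v => MeasurableSet.iUnion fun _ => measurableSet_conn S x v

lemma measurableSet_mem_clusW (S : Set ι) (W : Set V) (y : V) :
    MeasurableSet[sig ι S] {ω | y ∈ H.clusW S ω W} := by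
  have h : {ω | y ∈ H.clusW S ω W} = ⋃ v : V, ⋃ (_ : v ∈ W), {ω | H.Conn S ω v y} := by
    ext ω; simp [clusW]
  rw [h]
  exact MeasurableSet.iUnion fun v => MeasurableSet.iUnion fun _ => measurableSet_conn S v y

omit [Countable V] [Countable ι] in
lemma lt_encard_iff {n : ℕ} {s : Set V} :
    (n : ℕ∞) < s.encard ↔ ∃ F : Finset V, F.card = n + 1 ∧ ∀ y ∈ F, y ∈ s := by
  rw [← ENat.add_one_le_iff (ENat.natCast_ne_top n)]
  constructor
  · intro h
    obtain ⟨t, ht, hc⟩ := Set.exists_subset_encard_eq h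
    have hf : t.Finite := by
      rw [← Set.encard_lt_top_iff, hc]
      exact_mod_cast ENat.natCast_lt_top (n + 1)
    refine ⟨hf.toFinset, ?_, fun y hy => ht (by simpa using hy)⟩
    rw [hf.encard_eq_coe_toFinset_card] at hc
    exact_mod_cast hc
  · rintro ⟨F, hF, hs⟩
    calc ((n : ℕ∞) + 1) = (F : Set V).encard := by rw [Set.encard_coe_eq_coe_finsetCard, hF]; simp
      _ ≤ s.encard := Set.encard_le_encard (fun y hy => hs y hy)

omit [Countable ι] in
/-- measurability of the size of a random set -/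
lemma measurableSet_lt_encard {m : MeasurableSpace (ι → ℕ)} (A : (ι → ℕ) → Set V)
    (hA : ∀ y, MeasurableSet[m] {ω | y ∈ A ω}) (n : ℕ) :
    MeasurableSet[m] {ω | (n : ℕ∞) < (A ω).encard} := by
  have h : {ω | (n : ℕ∞) < (A ω).encard} =
      ⋃ F : Finset V, ⋃ (_ : F.card = n + 1), ⋂ y ∈ F, {ω | y ∈ A ω} := by
    ext ω
    simp only [mem_ofPred_eq, lt_encard_iff, mem_iUnion, mem_iInter, exists_prop]
  rw [h]
  refine MeasurableSet.iUnion fun F => MeasurableSet.iUnion fun _ => ?_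
  exact Finset.measurableSet_biInter F fun y _ => hA y

lemma measurableSet_main (S : Set ι) (x : V) (i : ι) (n : ℕ) :
    MeasurableSet[sig ι S]
      {ω | i ∈ H.hit (H.clus S ω x) ∧ (n : ℕ∞) < (H.clusW S ω (H.s i)).encard} :=
  (measurableSet_hit_clus S x i).inter
    (measurableSet_lt_encard _ (fun y => measurableSet_mem_clusW S _ y) n)


/-- bound for a functional of the cluster that grows at most linearly -/
lemma tsum_clus_le (S : Set ι) (x : V) {χ c : ℝ≥0∞} (hχ : ∑' u, H.tau S x u ≤ χ)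
    (G : Finset V → ℝ≥0∞) (hG : ∀ A, G A ≤ A.card * c) :
    ∑' A : Finset V, H.P {ω | H.clus S ω x = A} * G A ≤ χ * c := by
  calc _ ≤ ∑' A : Finset V, H.P {ω | H.clus S ω x = A} * ∑ u ∈ A, c := by
        refine ENNReal.tsum_le_tsum fun A => mul_le_mul' le_rfl ?_
        simpa [nsmul_eq_mul] using hG A
    _ ≤ ∑' u, H.tau S x u * c := tsum_clus_mul_sum_le S x _
    _ = (∑' u, H.tau S x u) * c := ENNReal.tsum_mul_right
    _ ≤ χ * c := mul_le_mul' hχ le_rfl

omit [Countable V] [Countable ι] in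
lemma tsum_lam_sum (B : Set ι) (f : V → ℝ≥0∞) :
    ∑' i, B.indicator (fun i => (H.lam i : ℝ≥0∞) * ∑ u ∈ H.s i, f u) i =
      ∑' u, f u * H.rate B u (fun _ => 1) := by
  classical
  unfold rate
  simp_rw [← ENNReal.tsum_mul_left]
  rw [ENNReal.tsum_comm]
  refine tsum_congr fun i => ?_
  by_cases hi : i ∈ B
  · rw [indicator_of_mem hi, Finset.mul_sum, tsum_eq_sum (s := H.s i)]
    · refine Finset.sum_congr rfl fun u hu => ?_
      rw [indicator_of_mem (show i ∈ B ∩ {i | u ∈ H.s i} from ⟨hi, hu⟩)]; ring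
    · intro u hu
      rw [indicator_of_notMem (fun h => hu h.2)]; simp
  · rw [indicator_of_notMem hi]
    symm
    rw [ENNReal.tsum_eq_zero]
    intro u
    rw [indicator_of_notMem (fun h => hi h.1)]; simp

omit [Countable V] [Countable ι] in
lemma P_hit_clusW_le (J : Set ι) (W : Finset V) (i : ι) :
    H.P {ω | i ∈ H.hit (H.clusW J ω W)} ≤ ∑ v ∈ W, ∑ u ∈ H.s i, H.tau J v u := by
  have h : {ω | i ∈ H.hit (H.clusW J ω W)} ⊆ ⋃ v ∈ W, ⋃ u ∈ H.s i, {ω | H.Conn J ω v u} := by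
    rintro ω ⟨u, hu, v, hv, hc⟩
    exact mem_biUnion (show v ∈ (W : Set V) from hv) (mem_biUnion (show u ∈ (H.s i : Set V) from hu) hc)
  refine (measure_mono h).trans ((measure_biUnion_finset_le _ _).trans ?_)
  exact Finset.sum_le_sum fun v _ => measure_biUnion_finset_le _ _

omit [Countable V] [Countable ι] in
lemma tsum_hit_clusW_le (B J : Set ι) (W : Finset V) {β χ : ℝ≥0∞}
    (hβ : ∀ u, H.rate B u (fun _ => 1) ≤ β) (hχ : ∀ v, ∑' u, H.tau Set.univ v u ≤ χ) :
    ∑' i, B.indicator (fun i => (H.lam i : ℝ≥0∞) * H.P {ω | i ∈ H.hit (H.clusW J ω W)}) i ≤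
      W.card * (χ * β) := by
  calc _ ≤ ∑' i, ∑ v ∈ W, B.indicator (fun i => (H.lam i : ℝ≥0∞) *
          ∑ u ∈ H.s i, H.tau J v u) i := by
        refine ENNReal.tsum_le_tsum fun i => ?_
        by_cases hi : i ∈ B
        · simp only [indicator_of_mem hi]
          rw [← Finset.mul_sum]
          exact mul_le_mul' le_rfl (P_hit_clusW_le J W i)
        · simp only [indicator_of_notMem hi]; exact zero_le
    _ = ∑ v ∈ W, ∑' u, H.tau J v u * H.rate B u (fun _ => 1) := by
        rw [Summable.tsum_finsetSum fun _ _ => ENNReal.summable]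
        exact Finset.sum_congr rfl fun v _ => tsum_lam_sum B _
    _ ≤ ∑ v ∈ W, χ * β := by
        refine Finset.sum_le_sum fun v _ => ?_
        calc _ ≤ ∑' u, H.tau Set.univ v u * β :=
              ENNReal.tsum_le_tsum fun u => mul_le_mul' (tau_mono (subset_univ _) _ _) (hβ u)
          _ = (∑' u, H.tau Set.univ v u) * β := ENNReal.tsum_mul_right
          _ ≤ χ * β := mul_le_mul' (hχ v) le_rfl
    _ = _ := by simp

/-- upper bound of the volume tail -/
theorem vol_upper (S : Set ι) (x : V) (n : ℕ) {β κ χ : ℝ≥0∞}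
    (hβ : ∀ u, H.rate Sᶜ u (fun _ => 1) ≤ β)
    (hκ : ∀ u, H.rate Sᶜ u (fun i => ((H.s i).card : ℝ≥0∞)) ≤ κ)
    (hχ : ∀ v, ∑' u, H.tau Set.univ v u ≤ χ) :
    H.P {ω | (n : ℕ∞) < (H.clus Set.univ ω x).encard} ≤
      H.P {ω | (n : ℕ∞) < (H.clus S ω x).encard} + H.volMain S x n +
        χ * (n * β * β + κ * (χ * β)) := by
  classical
  have hsub : {ω | (n : ℕ∞) < (H.clus Set.univ ω x).encard} ⊆
      ({ω | (n : ℕ∞) < (H.clus S ω x).encard} ∪
      ⋃ i : ι, ⋃ (_ : i ∈ Sᶜ), ({ω : ι → ℕ | ω i ≠ 0} ∩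
        {ω | i ∈ H.hit (H.clus S ω x) ∧ (n : ℕ∞) < (H.clusW S ω (H.s i)).encard})) ∪
      ⋃ A : Finset V, ⋃ (_ : A.card ≤ n), ⋃ i : ι, ⋃ (_ : i ∈ Sᶜ ∩ H.hit A), ⋃ j : ι,
        ⋃ (_ : j ∈ Sᶜ ∧ j ≠ i), ({ω | H.clus S ω x = A} ∩ ({ω : ι → ℕ | ω i ≠ 0} ∩
          ({ω : ι → ℕ | ω j ≠ 0} ∩
            {ω | j ∈ H.hit A ∨ j ∈ H.hit (H.clusW (S \ H.hit A) ω (H.s i))}))) := by
    intro ω hω
    have hω' : (n : ℕ∞) < (H.clus Set.univ ω x).encard := hω
    by_cases h1 : (n : ℕ∞) < (H.clus S ω x).encard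
    · left; left; exact h1
    push Not at h1
    have hfin : (H.clus S ω x).Finite := Set.finite_of_encard_le_coe h1
    obtain ⟨y, hy, hyS⟩ : ∃ y ∈ H.clus Set.univ ω x, y ∉ H.clus S ω x := by
      by_contra hc
      push Not at hc
      exact absurd (Set.encard_le_encard hc) (not_le.2 (lt_of_le_of_lt h1 hω'))
    obtain ⟨i, hi, h0, hh, -⟩ := exists_exit hy hyS
    by_cases h2 : (n : ℕ∞) < (H.clusW S ω (H.s i)).encard
    · left; right
      exact mem_iUnion.2 ⟨i, mem_iUnion.2 ⟨hi.2, h0, hh, h2⟩⟩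
    push Not at h2
    right
    obtain ⟨y', hy', hyW⟩ : ∃ y ∈ H.clus Set.univ ω x, y ∉ H.clusW S ω (H.s i) := by
      by_contra hc
      push Not at hc
      exact absurd (Set.encard_le_encard hc) (not_le.2 (lt_of_le_of_lt h2 hω'))
    have hxW : x ∈ H.clusW S ω (H.s i) := by
      obtain ⟨z, hz, hz'⟩ := hh
      exact ⟨z, hz, Conn.symm hz'⟩
    obtain ⟨j, -, hj0, hjh, hjn⟩ := exists_exit' hy' hxW hyW
    have hjS : j ∉ S := fun hjS => hjn (subset_clusW_of_hit hjS hj0 hjh)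
    have hji : j ≠ i := by
      rintro rfl
      exact hjn (subset_clusW S ω _)
    have hA : ((hfin.toFinset : Finset V) : Set V) = H.clus S ω x := hfin.coe_toFinset
    have hcard : hfin.toFinset.card ≤ n := by
      rw [hfin.encard_eq_coe_toFinset_card] at h1
      exact_mod_cast h1
    simp only [mem_iUnion]
    refine ⟨hfin.toFinset, hcard, i, ⟨hi.2, by rw [hA]; exact hh⟩, j, ⟨hjS, hji⟩,
      hA.symm, h0, hj0, ?_⟩
    simp only [mem_ofPred_eq, hA]
    obtain ⟨z, hz, v, hv, hc⟩ := hjh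
    by_cases hvA : v ∈ H.clus S ω x
    · left
      exact ⟨z, hz, Conn.trans hvA hc⟩
    · right
      exact ⟨z, hz, v, hv, conn_diff_hit hvA hc⟩
  refine (measure_mono hsub).trans ((measure_union_le _ _).trans (add_le_add
    ((measure_union_le _ _).trans (add_le_add le_rfl ?_)) ?_))
  · refine (measure_iUnion_le _).trans (ENNReal.tsum_le_tsum fun i => ?_)
    by_cases hi : i ∈ Sᶜ
    · rw [indicator_of_mem hi]
      have h1 : (⋃ (_ : i ∈ Sᶜ), ({ω : ι → ℕ | ω i ≠ 0} ∩
        {ω | i ∈ H.hit (H.clus S ω x) ∧ (n : ℕ∞) < (H.clusW S ω (H.s i)).encard})) =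
          ({ω : ι → ℕ | ω i ≠ 0} ∩
        {ω | i ∈ H.hit (H.clus S ω x) ∧ (n : ℕ∞) < (H.clusW S ω (H.s i)).encard}) := by
        simp only [hi, iUnion_true]
      rw [h1, P_inter (J := {i}) (J' := S) (by simpa using hi) (measurableSet_present rfl)
        (measurableSet_main S x i n)]
      exact mul_le_mul' (P_present_le i) le_rfl
    · have h1 : (⋃ (_ : i ∈ Sᶜ), ({ω : ι → ℕ | ω i ≠ 0} ∩
        {ω | i ∈ H.hit (H.clus S ω x) ∧ (n : ℕ∞) < (H.clusW S ω (H.s i)).encard})) = ∅ := by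
        rw [iUnion_eq_empty]; intro h; exact absurd h hi
      rw [h1, measure_empty]; exact zero_le
  · refine (measure_iUnion_le _).trans ?_
    refine le_trans (ENNReal.tsum_le_tsum fun A => ?_)
      (tsum_clus_le S x (c := n * β * β + κ * (χ * β)) (G := fun A => if A.card ≤ n then
        (A.card * β) * (A.card * β) + A.card * κ * (χ * β) else 0)
        ((ENNReal.tsum_le_tsum fun u => tau_mono (subset_univ _) _ _).trans (hχ x)) ?_)
    · by_cases hAn : A.card ≤ n
      swap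
      · have h1 : (⋃ (_ : A.card ≤ n), ⋃ i : ι, ⋃ (_ : i ∈ Sᶜ ∩ H.hit A), ⋃ j : ι,
          ⋃ (_ : j ∈ Sᶜ ∧ j ≠ i), ({ω | H.clus S ω x = A} ∩ ({ω : ι → ℕ | ω i ≠ 0} ∩
          ({ω : ι → ℕ | ω j ≠ 0} ∩
            {ω | j ∈ H.hit A ∨ j ∈ H.hit (H.clusW (S \ H.hit A) ω (H.s i))})))) = ∅ := by
          rw [iUnion_eq_empty]; intro h; exact absurd h hAn
        rw [h1, measure_empty]; exact zero_le
      rw [if_pos hAn]
      simp only [hAn, iUnion_true]
      refine (measure_iUnion_le _).trans ?_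
      have key : ∀ i : ι, H.P (⋃ (_ : i ∈ Sᶜ ∩ H.hit A), ⋃ j : ι,
          ⋃ (_ : j ∈ Sᶜ ∧ j ≠ i), ({ω | H.clus S ω x = A} ∩ ({ω : ι → ℕ | ω i ≠ 0} ∩
          ({ω : ι → ℕ | ω j ≠ 0} ∩
            {ω | j ∈ H.hit A ∨ j ∈ H.hit (H.clusW (S \ H.hit A) ω (H.s i))})))) ≤
          H.P {ω | H.clus S ω x = A} * (Sᶜ ∩ H.hit A).indicator (fun i => (H.lam i : ℝ≥0∞) *
            (A.card * β + (H.s i).card * (χ * β))) i := by
        intro i
        by_cases hi : i ∈ Sᶜ ∩ H.hit A
        swap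
        · have h1 : (⋃ (_ : i ∈ Sᶜ ∩ H.hit A), ⋃ j : ι,
            ⋃ (_ : j ∈ Sᶜ ∧ j ≠ i), ({ω | H.clus S ω x = A} ∩ ({ω : ι → ℕ | ω i ≠ 0} ∩
            ({ω : ι → ℕ | ω j ≠ 0} ∩
              {ω | j ∈ H.hit A ∨ j ∈ H.hit (H.clusW (S \ H.hit A) ω (H.s i))})))) = ∅ := by
            rw [iUnion_eq_empty]; intro h; exact absurd h hi
          rw [h1, measure_empty]; exact zero_le
        rw [indicator_of_mem hi]
        have h0 : (⋃ (_ : i ∈ Sᶜ ∩ H.hit A), ⋃ j : ι,
            ⋃ (_ : j ∈ Sᶜ ∧ j ≠ i), ({ω | H.clus S ω x = A} ∩ ({ω : ι → ℕ | ω i ≠ 0} ∩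
            ({ω : ι → ℕ | ω j ≠ 0} ∩
              {ω | j ∈ H.hit A ∨ j ∈ H.hit (H.clusW (S \ H.hit A) ω (H.s i))})))) = ⋃ j : ι,
            ⋃ (_ : j ∈ Sᶜ ∧ j ≠ i), ({ω | H.clus S ω x = A} ∩ ({ω : ι → ℕ | ω i ≠ 0} ∩
            ({ω : ι → ℕ | ω j ≠ 0} ∩
              {ω | j ∈ H.hit A ∨ j ∈ H.hit (H.clusW (S \ H.hit A) ω (H.s i))}))) := by
          ext ω; simp only [mem_iUnion, hi, exists_prop, true_and]
        rw [h0]
        refine (measure_iUnion_le _).trans ?_
        have key2 : ∀ j : ι, H.P (⋃ (_ : j ∈ Sᶜ ∧ j ≠ i), ({ω | H.clus S ω x = A} ∩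
            ({ω : ι → ℕ | ω i ≠ 0} ∩ ({ω : ι → ℕ | ω j ≠ 0} ∩
              {ω | j ∈ H.hit A ∨ j ∈ H.hit (H.clusW (S \ H.hit A) ω (H.s i))})))) ≤
            H.P {ω | H.clus S ω x = A} * (H.lam i * ((Sᶜ ∩ H.hit A).indicator
              (fun j => (H.lam j : ℝ≥0∞) * 1) j + Sᶜ.indicator (fun j => (H.lam j : ℝ≥0∞) *
              H.P {ω | j ∈ H.hit (H.clusW (S \ H.hit A) ω (H.s i))}) j)) := by
          intro j
          by_cases hj : j ∈ Sᶜ ∧ j ≠ i
          swap
          · have h1 : (⋃ (_ : j ∈ Sᶜ ∧ j ≠ i), ({ω | H.clus S ω x = A} ∩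
              ({ω : ι → ℕ | ω i ≠ 0} ∩ ({ω : ι → ℕ | ω j ≠ 0} ∩
              {ω | j ∈ H.hit A ∨ j ∈ H.hit (H.clusW (S \ H.hit A) ω (H.s i))})))) = ∅ := by
              rw [iUnion_eq_empty]; intro h; exact absurd h hj
            rw [h1, measure_empty]; exact zero_le
          have h1 : (⋃ (_ : j ∈ Sᶜ ∧ j ≠ i), ({ω | H.clus S ω x = A} ∩
            ({ω : ι → ℕ | ω i ≠ 0} ∩ ({ω : ι → ℕ | ω j ≠ 0} ∩
              {ω | j ∈ H.hit A ∨ j ∈ H.hit (H.clusW (S \ H.hit A) ω (H.s i))})))) =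
              ({ω | H.clus S ω x = A} ∩
            ({ω : ι → ℕ | ω i ≠ 0} ∩ ({ω : ι → ℕ | ω j ≠ 0} ∩
              {ω | j ∈ H.hit A ∨ j ∈ H.hit (H.clusW (S \ H.hit A) ω (H.s i))}))) := by
            ext ω; simp only [mem_iUnion, exists_prop]
            exact ⟨fun h => h.2, fun h => ⟨hj, h⟩⟩
          rw [h1]
          have e1 : MeasurableSet[sig ι (S ∩ H.hit A)] {ω | H.clus S ω x = A} :=
            measurableSet_clus_eq S x A
          have e2 : MeasurableSet[sig ι ({i} : Set ι)] {ω : ι → ℕ | ω i ≠ 0} :=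
            measurableSet_present rfl
          have e3 : MeasurableSet[sig ι ({j} : Set ι)] {ω : ι → ℕ | ω j ≠ 0} :=
            measurableSet_present rfl
          have e4 : MeasurableSet[sig ι (S \ H.hit A)]
              {ω | j ∈ H.hit A ∨ j ∈ H.hit (H.clusW (S \ H.hit A) ω (H.s i))} := by
            have h2 : {ω | j ∈ H.hit A ∨ j ∈ H.hit (H.clusW (S \ H.hit A) ω (H.s i))} =
                {ω : ι → ℕ | j ∈ H.hit (A : Set V)} ∪ ⋃ z : V, ⋃ (_ : z ∈ H.s j),
                  {ω | z ∈ H.clusW (S \ H.hit A) ω (H.s i)} := by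
              ext ω; simp [hit]
            rw [h2]
            refine MeasurableSet.union (MeasurableSet.const _) (MeasurableSet.iUnion fun z =>
              MeasurableSet.iUnion fun _ => measurableSet_mem_clusW _ _ _)
          have e5 : MeasurableSet[sig ι ({j} ∪ (S \ H.hit A))] ({ω : ι → ℕ | ω j ≠ 0} ∩
              {ω | j ∈ H.hit A ∨ j ∈ H.hit (H.clusW (S \ H.hit A) ω (H.s i))}) :=
            @MeasurableSet.inter _ (sig ι ({j} ∪ (S \ H.hit A))) _ _
              (sig_mono subset_union_left _ e3) (sig_mono subset_union_right _ e4)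
          have e6 : MeasurableSet[sig ι ({i} ∪ ({j} ∪ (S \ H.hit A)))] ({ω : ι → ℕ | ω i ≠ 0} ∩
              ({ω : ι → ℕ | ω j ≠ 0} ∩
              {ω | j ∈ H.hit A ∨ j ∈ H.hit (H.clusW (S \ H.hit A) ω (H.s i))})) :=
            @MeasurableSet.inter _ (sig ι ({i} ∪ ({j} ∪ (S \ H.hit A)))) _ _
              (sig_mono subset_union_left _ e2) (sig_mono subset_union_right _ e5)
          have d1 : Disjoint (S ∩ H.hit A) ({i} ∪ ({j} ∪ (S \ H.hit A))) := by
            rw [Set.disjoint_left]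
            rintro l ⟨hl1, hl2⟩ (hl | hl | hl)
            · rw [mem_singleton_iff] at hl; subst hl; exact hi.1 hl1
            · rw [mem_singleton_iff] at hl; subst hl; exact hj.1 hl1
            · exact hl.2 hl2
          have d2 : Disjoint ({i} : Set ι) ({j} ∪ (S \ H.hit A)) := by
            rw [Set.disjoint_left]
            rintro l hl (hl' | hl')
            · rw [mem_singleton_iff] at hl hl'; subst hl; exact hj.2 hl'.symm
            · rw [mem_singleton_iff] at hl; subst hl; exact hi.1 hl'.1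
          have d3 : Disjoint ({j} : Set ι) (S \ H.hit A) := by
            rw [Set.disjoint_left]
            rintro l hl hl'
            rw [mem_singleton_iff] at hl; subst hl; exact hj.1 hl'.1
          rw [P_inter d1 e1 e6, P_inter d2 e2 e5, P_inter d3 e3 e4]
          refine mul_le_mul' le_rfl (mul_le_mul' (P_present_le i) ?_)
          by_cases hjA : j ∈ H.hit A
          · rw [indicator_of_mem (show j ∈ Sᶜ ∩ H.hit A from ⟨hj.1, hjA⟩)]
            exact le_trans (mul_le_mul' (P_present_le j) prob_le_one) le_self_add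
          · rw [indicator_of_mem hj.1]
            refine le_trans ?_ le_add_self
            refine mul_le_mul' (P_present_le j) (measure_mono ?_)
            rintro ω (h | h)
            · exact absurd h hjA
            · exact h
        refine (ENNReal.tsum_le_tsum key2).trans ?_
        rw [ENNReal.tsum_mul_left, ENNReal.tsum_mul_left, ENNReal.tsum_add]
        refine mul_le_mul' le_rfl (mul_le_mul' le_rfl (add_le_add ?_
          (tsum_hit_clusW_le _ _ _ hβ hχ)))
        refine (hit_sum_le Sᶜ A (fun _ => 1)).trans ?_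
        refine (Finset.sum_le_sum fun u _ => hβ u).trans ?_
        simp
      refine (ENNReal.tsum_le_tsum key).trans ?_
      rw [ENNReal.tsum_mul_left]
      refine mul_le_mul' le_rfl ?_
      refine (hit_sum_le Sᶜ A _).trans ?_
      have h3 : ∀ u, H.rate Sᶜ u (fun i => A.card * β + (H.s i).card * (χ * β)) ≤
          β * (A.card * β) + κ * (χ * β) := by
        intro u
        rw [rate_add]
        refine add_le_add ?_ ?_
        · have h4 := rate_mul_const (H := H) Sᶜ u (fun _ => 1) (A.card * β)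
          simp only [one_mul] at h4
          rw [h4]
          exact mul_le_mul' (hβ u) le_rfl
        · rw [rate_mul_const]
          exact mul_le_mul' (hκ u) le_rfl
      refine (Finset.sum_le_sum fun u _ => h3 u).trans ?_
      rw [Finset.sum_const, nsmul_eq_mul]
      refine le_of_eq ?_
      ring
    · intro A
      split_ifs with hA
      · have h1 : (A.card : ℝ≥0∞) ≤ n := by exact_mod_cast hA
        calc (A.card : ℝ≥0∞) * β * (A.card * β) + A.card * κ * (χ * β)
            ≤ (A.card : ℝ≥0∞) * β * (n * β) + A.card * κ * (χ * β) := by gcongr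
          _ = A.card * (n * β * β + κ * (χ * β)) := by ring
      · exact zero_le

end Pool.Agent.LoopPerc.HSys
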