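import Pool.Agent.LoopPerc.LoopsWalks
import Pool.Agent.LoopPerc.Volume

/-!
# Monotonicity of the mean cluster size in the intensity, measurability, norms in the cluster
-/

namespace Pool.Agent.LoopPerc

open MeasureTheory ProbabilityTheory Filter Topology Set
open scoped ENNReal NNReal

/-! ### measurability of the cluster -/

/-- `y` can be reached from the origin by `n` open edges -/
def reachN {d : ℕ} (N : Cycle (Lat d) → ℕ) : ℕ → Lat d → Prop
  | 0, y => y = 0
  | n + 1, y => ∃ z, reachN N n z ∧ IsOpenEdge N z y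

lemma mem_cluster_iff {d : ℕ} {N : Cycle (Lat d) → ℕ} {y : Lat d} :
    y ∈ cluster N ↔ ∃ n, reachN N n y := by
  constructor
  · intro h
    have h' : Relation.ReflTransGen (IsOpenEdge N) 0 y := h
    clear h
    induction h' with
    | refl => exact ⟨0, rfl⟩
    | @tail b c hab hbc ih =>
      obtain ⟨n, hn⟩ := ih
      exact ⟨n + 1, b, hn, hbc⟩
  · rintro ⟨n, hn⟩
    induction n generalizing y with
    | zero =>
      have hn' : y = 0 := hn
      subst hn'
      exact Relation.ReflTransGen.refl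
    | succ n ih =>
      obtain ⟨z, hz, hzy⟩ := hn
      exact Relation.ReflTransGen.tail (ih hz) hzy

lemma measurableSet_isOpenEdge (d : ℕ) (x y : Lat d) :
    MeasurableSet {N : Cycle (Lat d) → ℕ | IsOpenEdge N x y} := by
  by_cases h : ∑ i, |x i - y i| = 1
  · have h2 : {N : Cycle (Lat d) → ℕ | IsOpenEdge N x y} =
        ⋃ c : Cycle (Lat d), ⋃ (_ : Traverses c x y), {N | 1 ≤ N c} := by
      ext N
      simp only [IsOpenEdge, mem_ofPred_eq, mem_iUnion, exists_prop]
      constructor
      · rintro ⟨-, c, h1, h2⟩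
        exact ⟨c, h2, h1⟩
      · rintro ⟨c, h2, h1⟩
        exact ⟨h, c, h1, h2⟩
    rw [h2]
    refine MeasurableSet.iUnion fun c => MeasurableSet.iUnion fun _ => ?_
    exact measurableSet_le measurable_const (measurable_pi_apply c)
  · have h2 : {N : Cycle (Lat d) → ℕ | IsOpenEdge N x y} = ∅ := by
      ext N
      simp [IsOpenEdge, h]
    rw [h2]
    exact MeasurableSet.empty

lemma measurableSet_reachN (d : ℕ) (n : ℕ) (y : Lat d) :
    MeasurableSet {N : Cycle (Lat d) → ℕ | reachN N n y} := by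
  induction n generalizing y with
  | zero =>
    by_cases h : y = 0
    · simp [reachN, h]
    · simp [reachN, h]
  | succ n ih =>
    have h : {N : Cycle (Lat d) → ℕ | reachN N (n + 1) y} =
        ⋃ z : Lat d, {N | reachN N n z} ∩ {N | IsOpenEdge N z y} := by
      ext N
      simp [reachN]
    rw [h]
    exact MeasurableSet.iUnion fun z => (ih z).inter (measurableSet_isOpenEdge d z y)

theorem measurableSet_mem_cluster (d : ℕ) (y : Lat d) :
    MeasurableSet {N : Cycle (Lat d) → ℕ | y ∈ cluster N} := by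
  have h : {N : Cycle (Lat d) → ℕ | y ∈ cluster N} = ⋃ n : ℕ, {N | reachN N n y} := by
    ext N
    simp [mem_cluster_iff]
  rw [h]
  exact MeasurableSet.iUnion fun n => measurableSet_reachN d n y

lemma measurable_encard_cluster (d : ℕ) :
    Measurable fun N : Cycle (Lat d) → ℕ => ((cluster N).encard : ℝ≥0∞) := by
  have h : ∀ N : Cycle (Lat d) → ℕ, ((cluster N).encard : ℝ≥0∞) =
      ∑' y : Lat d, ({N : Cycle (Lat d) → ℕ | y ∈ cluster N}).indicator (fun _ => (1 : ℝ≥0∞)) N := by
    intro N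
    rw [← ENNReal.tsum_set_one, tsum_subtype (cluster N) (fun _ => (1 : ℝ≥0∞))]
    rfl
  simp_rw [h]
  exact Measurable.tsum fun y =>
    measurable_const.indicator (measurableSet_mem_cluster d y)

/-! ### the monotone coupling -/

lemma IsOpenEdge.mono {d : ℕ} {N N' : Cycle (Lat d) → ℕ} (h : ∀ c, N c ≤ N' c) {x y : Lat d}
    (hxy : IsOpenEdge N x y) : IsOpenEdge N' x y := by
  obtain ⟨h1, c, hc, ht⟩ := hxy
  exact ⟨h1, c, hc.trans (h c), ht⟩

lemma cluster_mono {d : ℕ} {N N' : Cycle (Lat d) → ℕ} (h : ∀ c, N c ≤ N' c) :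
    cluster N ⊆ cluster N' := fun _ hy =>
  Relation.ReflTransGen.mono (fun _ _ hab => IsOpenEdge.mono h hab) _ _ hy

/-- the law of two independent soups -/
noncomputable def soup2 (d : ℕ) (α β : ℝ≥0) : Measure (Cycle (Lat d) → ℕ × ℕ) :=
  Measure.infinitePi fun c =>
    (poissonMeasure (α * loopMeasure c)).prod (poissonMeasure (β * loopMeasure c))

lemma soup2_map_fst (d : ℕ) (α β : ℝ≥0) :
    (soup2 d α β).map (fun W c => (W c).1) = soup d α := by
  unfold soup2 soup
  rw [Measure.infinitePi_map_pi (f := fun _ => Prod.fst) _ (fun _ => measurable_fst)]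
  congr 1
  funext c
  simp

lemma soup2_map_add (d : ℕ) (α β : ℝ≥0) :
    (soup2 d α β).map (fun W c => (W c).1 + (W c).2) = soup d (α + β) := by
  unfold soup2 soup
  rw [Measure.infinitePi_map_pi (f := fun _ (p : ℕ × ℕ) => p.1 + p.2) _
    (fun _ => measurable_fst.add measurable_snd)]
  congr 1
  funext c
  rw [add_mul, ← poissonMeasure_conv_poissonMeasure]
  rfl

theorem meanSize_mono (d : ℕ) {α α' : ℝ≥0} (h : α ≤ α') : meanSize d α ≤ meanSize d α' := by
  obtain ⟨β, rfl⟩ := exists_add_of_le h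
  unfold meanSize
  rw [← soup2_map_fst d α β, ← soup2_map_add d α β,
    lintegral_map (measurable_encard_cluster d) (by fun_prop),
    lintegral_map (measurable_encard_cluster d) (by fun_prop)]
  refine lintegral_mono fun W => ?_
  have h1 : (cluster fun c => (W c).1) ⊆ cluster fun c => (W c).1 + (W c).2 :=
    cluster_mono fun c => Nat.le_add_right _ _
  exact ENat.toENNReal_le.2 (Set.encard_le_encard h1)

theorem meanSize_lt_top_of_lt (d : ℕ) {α : ℝ≥0} (h : (α : ℝ≥0∞) < alphaSharp d) :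
    meanSize d α < ⊤ := by
  unfold alphaSharp at h
  obtain ⟨a, ⟨α', h0, h1, rfl⟩, h2⟩ := lt_sSup_iff.1 h
  exact (meanSize_mono d (by exact_mod_cast h2.le)).trans_lt h1

/-! ### norms -/

lemma exists_nat_norm {d : ℕ} (y : Lat d) : ∃ k : ℕ, ‖y‖ = (k : ℝ) := by
  refine ⟨Finset.univ.sup fun i => (y i).natAbs, le_antisymm ?_ ?_⟩
  · rw [pi_norm_le_iff_of_nonneg (Nat.cast_nonneg _)]
    intro i
    rw [Int.norm_eq_abs, ← Int.cast_abs, Int.abs_eq_natAbs]
    have := Finset.le_sup (f := fun i => (y i).natAbs) (Finset.mem_univ i)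
    exact_mod_cast this
  · by_cases hd : (Finset.univ : Finset (Fin d)).Nonempty
    · obtain ⟨i, -, hi⟩ := Finset.exists_mem_eq_sup Finset.univ hd fun i => (y i).natAbs
      rw [hi]
      refine le_trans ?_ (norm_le_pi_norm y i)
      rw [Int.norm_eq_abs, ← Int.cast_abs, Int.abs_eq_natAbs]
      simp
    · rw [Finset.not_nonempty_iff_eq_empty.1 hd]
      simp

lemma norm_le_of_adj {d : ℕ} {x y : Lat d} (h : ∑ i, |x i - y i| = 1) : ‖y‖ ≤ ‖x‖ + 1 := by
  have h1 : ‖x - y‖ ≤ 1 := by
    rw [pi_norm_le_iff_of_nonneg zero_le_one]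
    intro i
    rw [Int.norm_eq_abs, ← Int.cast_abs]
    have h2 : |(x - y) i| ≤ ∑ i, |x i - y i| :=
      Finset.single_le_sum (f := fun i => |x i - y i|) (fun j _ => abs_nonneg _)
        (Finset.mem_univ i)
    rw [h] at h2
    exact_mod_cast h2
  have h3 : ‖y‖ ≤ ‖x‖ + ‖x - y‖ := by
    have := norm_sub_norm_le y x
    rw [norm_sub_rev] at this
    linarith
  linarith

theorem exists_norm_eq (d : ℕ) (N : Cycle (Lat d) → ℕ) (n : ℕ) :
    (∃ z ∈ cluster N, ‖z‖ = (n : ℝ)) ↔ ∃ y ∈ cluster N, (n : ℝ) ≤ ‖y‖ := by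
  constructor
  · rintro ⟨z, hz, h⟩
    exact ⟨z, hz, h.ge⟩
  · rintro ⟨y, hy, h⟩
    have hy' : Relation.ReflTransGen (IsOpenEdge N) 0 y := hy
    clear hy
    induction hy' with
    | refl =>
      refine ⟨0, Relation.ReflTransGen.refl, ?_⟩
      rw [norm_zero] at h ⊢
      exact le_antisymm (Nat.cast_nonneg n) h
    | @tail b c hab hbc ih =>
      by_cases hb : (n : ℝ) ≤ ‖b‖
      · exact ih hb
      · refine ⟨c, Relation.ReflTransGen.tail hab hbc, le_antisymm ?_ h⟩
        obtain ⟨k, hk⟩ := exists_nat_norm b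
        have h1 := norm_le_of_adj hbc.1
        rw [hk] at hb h1
        have h2 : k + 1 ≤ n := by
          rw [not_le] at hb
          exact_mod_cast hb
        have h3 : ((k + 1 : ℕ) : ℝ) ≤ n := by exact_mod_cast h2
        push_cast at h3
        linarith

end Pool.Agent.LoopPerc
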