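import Pool.Agent.LoopPerc.RW1DE

/-!
# Package A (one-dimensional kernel, scaling limits)

The three theorems `q1_prod_integrable`, `q1_green_asymp` (file `RW1DC`) and `q1_box_asymp`
(file `RW1DE`).
-/
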