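import Pool.Agent.LoopPerc.Walk

/-!
# The one-dimensional kernel: basic bounds (package A, part 1)
-/

namespace Pool.Agent.LoopPerc

open MeasureTheory ProbabilityTheory Filter Topology Set
open scoped ENNReal NNReal

/-- the entire function in the contour shift -/
noncomputable def q1G (t : ℝ) (k : ℤ) (z : ℂ) : ℂ :=
  Complex.exp (Complex.I * k * z) * Complex.exp (-t * (1 - Complex.cos z))

lemma q1G_periodic (t : ℝ) (k : ℤ) (z : ℂ) : q1G t k (z + 2 * Real.pi) = q1G t k z := by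
  unfold q1G
  rw [Complex.cos_add_two_pi]
  congr 1
  rw [mul_add, Complex.exp_add]
  have : Complex.exp (Complex.I * k * (2 * Real.pi)) = 1 := by
    rw [Complex.exp_eq_one_iff]
    exact ⟨k, by ring⟩
  rw [this, mul_one]

lemma q1G_differentiable (t : ℝ) (k : ℤ) : Differentiable ℂ (q1G t k) := by
  unfold q1G
  fun_prop

lemma q1G_continuous (t : ℝ) (k : ℤ) : Continuous (q1G t k) :=
  (q1G_differentiable t k).continuous

lemma q1_eq_re (t : ℝ) (k : ℤ) :
    q1 t k = (2 * Real.pi)⁻¹ * (∫ θ in (-Real.pi)..Real.pi, q1G t k θ).re := by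
  unfold q1
  congr 1
  have h := intervalIntegral.intervalIntegral_re (μ := volume) (𝕜 := ℂ) (f := fun θ : ℝ => q1G t k θ)
    (a := -Real.pi) (b := Real.pi)
    (((q1G_continuous t k).comp Complex.continuous_ofReal).intervalIntegrable _ _)
  simp only [RCLike.re_eq_complex_re] at h
  rw [← h]
  apply intervalIntegral.integral_congr
  intro θ _
  unfold q1G
  simp only
  have h1 : Complex.exp (-t * (1 - Complex.cos θ)) = ((Real.exp (-t * (1 - Real.cos θ)) : ℝ) : ℂ) := by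
    push_cast
    rfl
  rw [h1, Complex.re_mul_ofReal]
  congr 1
  rw [show Complex.I * (k : ℂ) * (θ : ℂ) = ((k * θ : ℝ) : ℂ) * Complex.I by push_cast; ring,
    Complex.exp_ofReal_mul_I_re]

lemma q1G_shift (t : ℝ) (k : ℤ) (η : ℝ) :
    ∫ θ in (-Real.pi)..Real.pi, q1G t k θ =
      ∫ θ in (-Real.pi)..Real.pi, q1G t k (θ + η * Complex.I) := by
  have h := Complex.integral_boundary_rect_eq_zero_of_differentiableOn (q1G t k)
    (⟨-Real.pi, 0⟩ : ℂ) (⟨Real.pi, η⟩ : ℂ) (q1G_differentiable t k).differentiableOn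
  simp only [Complex.ofReal_zero, zero_mul, add_zero] at h
  have h2 : (∫ y : ℝ in (0:ℝ)..η, q1G t k (Real.pi + y * Complex.I)) =
      ∫ y : ℝ in (0:ℝ)..η, q1G t k ((-Real.pi : ℝ) + y * Complex.I) := by
    apply intervalIntegral.integral_congr
    intro y _
    simp only
    rw [← q1G_periodic t k ((-Real.pi : ℝ) + y * Complex.I)]
    congr 1
    push_cast
    ring
  rw [h2] at h
  have h3 : (∫ x : ℝ in (-Real.pi)..Real.pi, q1G t k x) -
      (∫ x : ℝ in (-Real.pi)..Real.pi, q1G t k (x + η * Complex.I)) = 0 := by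
    linear_combination h
  exact sub_eq_zero.mp h3

lemma norm_q1G (t : ℝ) (k : ℤ) (η θ : ℝ) :
    ‖q1G t k (θ + η * Complex.I)‖ =
      Real.exp (-k * η) * Real.exp (-t * (1 - Real.cos θ * Real.cosh η)) := by
  unfold q1G
  rw [norm_mul, Complex.norm_exp, Complex.norm_exp]
  congr 2
  · simp [Complex.mul_re]
  · rw [Complex.cos_add_mul_I]
    rw [← Complex.ofReal_cos, ← Complex.ofReal_cosh, ← Complex.ofReal_sin, ← Complex.ofReal_sinh]
    have : (-(t : ℂ) * (1 - (((Real.cos θ : ℝ) : ℂ) * ((Real.cosh η : ℝ) : ℂ) -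
        ((Real.sin θ : ℝ) : ℂ) * ((Real.sinh η : ℝ) : ℂ) * Complex.I))) =
        ((-t * (1 - Real.cos θ * Real.cosh η) : ℝ) : ℂ) +
        ((-t * (Real.sin θ * Real.sinh η) : ℝ) : ℂ) * Complex.I := by
      push_cast; ring
    rw [this, Complex.add_re, Complex.ofReal_re, Complex.re_ofReal_mul, Complex.I_re]
    ring

/-- Key bound -/
lemma abs_q1_le_shift (t : ℝ) (k : ℤ) (η : ℝ) :
    |q1 t k| ≤ (2 * Real.pi)⁻¹ * ∫ θ in (-Real.pi)..Real.pi,
      Real.exp (-k * η) * Real.exp (-t * (1 - Real.cos θ * Real.cosh η)) := by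
  rw [q1_eq_re, q1G_shift t k η, abs_mul, abs_of_pos (by positivity : (0:ℝ) < (2 * Real.pi)⁻¹)]
  gcongr
  refine (Complex.abs_re_le_norm _).trans ?_
  refine (intervalIntegral.norm_integral_le_integral_norm (by linarith [Real.pi_pos])).trans ?_
  apply le_of_eq
  apply intervalIntegral.integral_congr
  intro θ _
  exact norm_q1G t k η θ

lemma one_sub_cos_ge {θ : ℝ} (h : |θ| ≤ Real.pi) :
    2 / Real.pi ^ 2 * θ ^ 2 ≤ 1 - Real.cos θ := by
  linarith [Real.cos_le_one_sub_mul_cos_sq h]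

/-- The constant in the bound -/
noncomputable def q1C : ℝ := (2 * Real.pi)⁻¹ * (Real.exp 3 * Real.sqrt (Real.pi ^ 3 / 2))

lemma q1C_pos : 0 < q1C := by unfold q1C; positivity

lemma cosh_sub_one_le {η : ℝ} (h : |η| ≤ 1) : Real.cosh η - 1 ≤ η ^ 2 := by
  have h1 := Real.cosh_le_exp_half_sq η
  have h2 : η ^ 2 ≤ 1 := by rw [← sq_abs]; nlinarith [abs_nonneg η]
  have h3 : Real.exp (η ^ 2 / 2) ≤ 1 / (1 - η ^ 2 / 2) := by
    have := Real.one_sub_le_exp_neg (η ^ 2 / 2)
    rw [Real.exp_neg] at this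
    rw [le_div_iff₀ (by linarith)]
    calc Real.exp (η ^ 2 / 2) * (1 - η ^ 2 / 2) ≤ Real.exp (η ^ 2 / 2) * (Real.exp (η ^ 2 / 2))⁻¹ := by
          gcongr
      _ = 1 := mul_inv_cancel₀ (Real.exp_pos _).ne'
  have h4 : 1 / (1 - η ^ 2 / 2) ≤ 1 + η ^ 2 := by
    rw [div_le_iff₀ (by linarith)]
    nlinarith [sq_nonneg η]
  linarith

lemma abs_q1_le (t : ℝ) (ht : 0 ≤ t) (k : ℤ) :
    |q1 t k| ≤ q1C / Real.sqrt (1 + t) * Real.exp (-|(k : ℝ)| / Real.sqrt (1 + t)) := by
  have hpi := Real.pi_pos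
  set r := Real.sqrt (1 + t) with hr
  have hrpos : 0 < r := Real.sqrt_pos.mpr (by linarith)
  have hr2 : r ^ 2 = 1 + t := Real.sq_sqrt (by linarith)
  have hr1 : 1 ≤ r := by
    rw [hr, Real.one_le_sqrt]; linarith
  obtain ⟨η, hη, hkη⟩ : ∃ η : ℝ, |η| = 1 / r ∧ (k : ℝ) * η = |(k : ℝ)| / r := by
    rcases le_total 0 (k : ℝ) with h | h
    · exact ⟨1 / r, abs_of_pos (by positivity), by rw [abs_of_nonneg h]; ring⟩
    · exact ⟨-(1 / r), by rw [abs_neg]; exact abs_of_pos (by positivity), by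
        rw [abs_of_nonpos h]; ring⟩
  have hη1 : |η| ≤ 1 := by rw [hη, div_le_one hrpos]; exact hr1
  have hη2 : η ^ 2 = 1 / (1 + t) := by rw [← sq_abs, hη, div_pow, hr2, one_pow]
  have hch : t * (Real.cosh η - 1) ≤ 1 := by
    have := cosh_sub_one_le hη1
    calc t * (Real.cosh η - 1) ≤ t * η ^ 2 := by gcongr
      _ = t / (1 + t) := by rw [hη2]; ring
      _ ≤ 1 := by rw [div_le_one (by linarith)]; linarith
  have hch1 : 1 ≤ Real.cosh η := Real.one_le_cosh η
  refine (abs_q1_le_shift t k η).trans ?_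
  -- bound the integrand
  have hb : ∫ θ in (-Real.pi)..Real.pi,
      Real.exp (-k * η) * Real.exp (-t * (1 - Real.cos θ * Real.cosh η)) ≤
      ∫ θ in (-Real.pi)..Real.pi, Real.exp (-|(k : ℝ)| / r) * (Real.exp 3 *
        Real.exp (-((2 / Real.pi ^ 2) * (1 + t)) * θ ^ 2)) := by
    apply intervalIntegral.integral_mono_on (by linarith)
    · exact Continuous.intervalIntegrable (by fun_prop) _ _
    · exact Continuous.intervalIntegrable (by fun_prop) _ _
    · intro θ hθ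
      have hθ' : |θ| ≤ Real.pi := abs_le.mpr hθ
      have hc := one_sub_cos_ge hθ'
      have hsq : 2 / Real.pi ^ 2 * θ ^ 2 ≤ 2 := by
        have : θ ^ 2 ≤ Real.pi ^ 2 := by
          rw [← sq_abs]; gcongr
        calc 2 / Real.pi ^ 2 * θ ^ 2 ≤ 2 / Real.pi ^ 2 * Real.pi ^ 2 := by gcongr
          _ = 2 := by field_simp
      rw [show -(k : ℝ) * η = -|(k : ℝ)| / r by rw [neg_mul, hkη]; ring, ← Real.exp_add 3]
      gcongr
      have e1 : -t * (1 - Real.cos θ * Real.cosh η) =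
          t * (Real.cosh η - 1) - t * Real.cosh η * (1 - Real.cos θ) := by ring
      have e2 : t * (2 / Real.pi ^ 2 * θ ^ 2) ≤ t * Real.cosh η * (1 - Real.cos θ) := by
        have h0 : 0 ≤ 1 - Real.cos θ := by linarith [Real.cos_le_one θ]
        calc t * (2 / Real.pi ^ 2 * θ ^ 2) ≤ t * (1 - Real.cos θ) := by gcongr
          _ = t * 1 * (1 - Real.cos θ) := by ring
          _ ≤ t * Real.cosh η * (1 - Real.cos θ) := by gcongr
      rw [e1]
      nlinarith
  have hgauss : ∫ θ in (-Real.pi)..Real.pi, Real.exp (-((2 / Real.pi ^ 2) * (1 + t)) * θ ^ 2) ≤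
      Real.sqrt (Real.pi / ((2 / Real.pi ^ 2) * (1 + t))) := by
    rw [← integral_gaussian, intervalIntegral.integral_of_le (by linarith)]
    apply setIntegral_le_integral
    · exact integrable_exp_neg_mul_sq (by positivity)
    · exact Eventually.of_forall fun x => (Real.exp_pos _).le
  have hs : Real.sqrt (Real.pi / ((2 / Real.pi ^ 2) * (1 + t))) = Real.sqrt (Real.pi ^ 3 / 2) / r := by
    rw [hr, ← Real.sqrt_div (by positivity)]
    congr 1
    field_simp
  calc (2 * Real.pi)⁻¹ * ∫ θ in (-Real.pi)..Real.pi,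
      Real.exp (-k * η) * Real.exp (-t * (1 - Real.cos θ * Real.cosh η))
      ≤ (2 * Real.pi)⁻¹ * ∫ θ in (-Real.pi)..Real.pi, Real.exp (-|(k : ℝ)| / r) * (Real.exp 3 *
        Real.exp (-((2 / Real.pi ^ 2) * (1 + t)) * θ ^ 2)) := by gcongr
    _ = (2 * Real.pi)⁻¹ * (Real.exp (-|(k : ℝ)| / r) * (Real.exp 3 *
        ∫ θ in (-Real.pi)..Real.pi, Real.exp (-((2 / Real.pi ^ 2) * (1 + t)) * θ ^ 2))) := by
        rw [intervalIntegral.integral_const_mul, intervalIntegral.integral_const_mul]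
    _ ≤ (2 * Real.pi)⁻¹ * (Real.exp (-|(k : ℝ)| / r) * (Real.exp 3 *
        (Real.sqrt (Real.pi ^ 3 / 2) / r))) := by
        rw [← hs]; gcongr
    _ = q1C / r * Real.exp (-|(k : ℝ)| / r) := by
        unfold q1C; ring

end Pool.Agent.LoopPerc
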