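import Pool.Agent.LoopPerc.RW1DA

/-!
# The one-dimensional kernel: uniform local limit theorem (package A, part 2)
-/

namespace Pool.Agent.LoopPerc

open MeasureTheory ProbabilityTheory Filter Topology Set
open scoped ENNReal NNReal

lemma integrable_gauss : Integrable (fun u : ℝ => Real.exp (-u ^ 2 / 2)) := by
  have := integrable_exp_neg_mul_sq (b := 1/2) (by norm_num)
  refine this.congr (Eventually.of_forall fun u => ?_)
  simp only
  congr 1
  ring

lemma integral_cos_gauss (a : ℝ) :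
    ∫ u : ℝ, Real.cos (a * u) * Real.exp (-u ^ 2 / 2) = Real.sqrt (2 * Real.pi) *
      Real.exp (-a ^ 2 / 2) := by
  have h := fourierIntegral_gaussian (b := (1/2 : ℂ)) (by norm_num) (a : ℂ)
  have h1 : ((Real.pi : ℂ) / (1/2)) ^ (1 / 2 : ℂ) = ((Real.sqrt (2 * Real.pi) : ℝ) : ℂ) := by
    rw [Real.sqrt_eq_rpow, Complex.ofReal_cpow (by positivity)]
    congr 1
    · push_cast; ring
    · push_cast; ring
  have h2 : Complex.exp (-(a : ℂ) ^ 2 / (4 * (1/2))) = ((Real.exp (-a ^ 2 / 2) : ℝ) : ℂ) := by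
    push_cast
    congr 1
    ring
  rw [h1, h2, ← Complex.ofReal_mul] at h
  have h3 := congrArg Complex.re h
  rw [Complex.ofReal_re] at h3
  rw [← h3]
  have hi : Integrable (fun x : ℝ => Complex.exp (Complex.I * a * x) *
      Complex.exp (-(1/2) * (x : ℂ) ^ 2)) := by
    have := integrable_cexp_quadratic (b := (1/2 : ℂ)) (by norm_num) (Complex.I * a) 0
    refine this.congr (Eventually.of_forall fun u => ?_)
    simp only
    rw [← Complex.exp_add]
    congr 1
    ring
  have h4 := integral_re (𝕜 := ℂ) hi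
  simp only [RCLike.re_eq_complex_re] at h4
  rw [← h4]
  apply integral_congr_ae
  refine Eventually.of_forall fun u => ?_
  simp only
  have e1 : Complex.exp (-(1/2) * (u : ℂ) ^ 2) = ((Real.exp (-u ^ 2 / 2) : ℝ) : ℂ) := by
    push_cast
    congr 1
    ring
  rw [e1, Complex.re_mul_ofReal,
    show Complex.I * (a : ℂ) * (u : ℂ) = ((a * u : ℝ) : ℂ) * Complex.I by push_cast; ring,
    Complex.exp_ofReal_mul_I_re]

/-- truncated rescaled weight -/
noncomputable def wt (t : ℝ) : ℝ → ℝ :=
  (Ioc (-(Real.pi * Real.sqrt t)) (Real.pi * Real.sqrt t)).indicator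
    fun u => Real.exp (-t * (1 - Real.cos (u / Real.sqrt t)))

/-- the error in the local limit theorem -/
noncomputable def errq (t : ℝ) : ℝ := (2 * Real.pi)⁻¹ * ∫ u : ℝ, |wt t u - Real.exp (-u ^ 2 / 2)|

lemma wt_nonneg (t u : ℝ) : 0 ≤ wt t u := by
  unfold wt
  exact indicator_nonneg (fun _ _ => (Real.exp_pos _).le) _

lemma wt_le {t : ℝ} (ht : 0 < t) (u : ℝ) : wt t u ≤ Real.exp (-(2 / Real.pi ^ 2) * u ^ 2) := by
  unfold wt
  apply indicator_le' (g := fun u => Real.exp (-(2 / Real.pi ^ 2) * u ^ 2))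
  · intro u hu
    have hst : 0 < Real.sqrt t := Real.sqrt_pos.mpr ht
    have h1 : |u / Real.sqrt t| ≤ Real.pi := by
      rw [abs_div, abs_of_pos hst, div_le_iff₀ hst]
      exact abs_le.mpr ⟨hu.1.le, hu.2⟩
    have h2 := one_sub_cos_ge h1
    have h3 : t * (2 / Real.pi ^ 2 * (u / Real.sqrt t) ^ 2) = 2 / Real.pi ^ 2 * u ^ 2 := by
      rw [div_pow, Real.sq_sqrt ht.le]
      field_simp
    apply Real.exp_le_exp.mpr
    have : t * (2 / Real.pi ^ 2 * (u / Real.sqrt t) ^ 2) ≤ t * (1 - Real.cos (u / Real.sqrt t)) :=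
      mul_le_mul_of_nonneg_left h2 ht.le
    linarith
  · intro u _
    positivity

lemma wt_measurable (t : ℝ) : Measurable (wt t) := by
  unfold wt
  apply Measurable.indicator _ measurableSet_Ioc
  fun_prop

lemma wt_integrable {t : ℝ} (ht : 0 < t) : Integrable (wt t) := by
  apply Integrable.mono' (integrable_exp_neg_mul_sq (b := 2 / Real.pi ^ 2) (by positivity))
    (wt_measurable t).aestronglyMeasurable
  refine Eventually.of_forall fun u => ?_
  rw [Real.norm_of_nonneg (wt_nonneg t u)]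
  exact wt_le ht u

lemma sqrt_mul_q1k {t : ℝ} (ht : 0 < t) (k : ℤ) :
    Real.sqrt t * q1 t k = (2 * Real.pi)⁻¹ *
      ∫ u : ℝ, Real.cos (k / Real.sqrt t * u) * wt t u := by
  have hst : 0 < Real.sqrt t := Real.sqrt_pos.mpr ht
  have h := intervalIntegral.integral_comp_div (a := -(Real.pi * Real.sqrt t))
    (b := Real.pi * Real.sqrt t)
    (fun θ : ℝ => Real.cos (k * θ) * Real.exp (-t * (1 - Real.cos θ))) hst.ne'
  rw [show -(Real.pi * Real.sqrt t) / Real.sqrt t = -Real.pi by field_simp,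
    show Real.pi * Real.sqrt t / Real.sqrt t = Real.pi by field_simp, smul_eq_mul] at h
  unfold q1
  rw [mul_left_comm, ← h, intervalIntegral.integral_of_le (by nlinarith [Real.pi_pos]),
    ← integral_indicator measurableSet_Ioc]
  congr 1
  apply integral_congr_ae
  refine Eventually.of_forall fun u => ?_
  simp only [wt]
  by_cases hu : u ∈ Ioc (-(Real.pi * Real.sqrt t)) (Real.pi * Real.sqrt t)
  · rw [indicator_of_mem hu, indicator_of_mem hu]
    congr 2
    ring
  · rw [indicator_of_notMem hu, indicator_of_notMem hu, mul_zero]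

lemma local_limit {t : ℝ} (ht : 0 < t) (k : ℤ) :
    |Real.sqrt t * q1 t k - (Real.sqrt (2 * Real.pi))⁻¹ * Real.exp (-(k / Real.sqrt t) ^ 2 / 2)|
      ≤ errq t := by
  have hpi := Real.pi_pos
  have hg := integral_cos_gauss (k / Real.sqrt t)
  have h2 : (Real.sqrt (2 * Real.pi))⁻¹ * Real.exp (-(k / Real.sqrt t) ^ 2 / 2) =
      (2 * Real.pi)⁻¹ * ∫ u : ℝ, Real.cos (k / Real.sqrt t * u) * Real.exp (-u ^ 2 / 2) := by
    rw [hg]
    rw [← mul_assoc, inv_mul_eq_div (2 * Real.pi) (Real.sqrt (2 * Real.pi)), Real.sqrt_div_self',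
      one_div]
  rw [sqrt_mul_q1k ht, h2, ← mul_sub, abs_mul, abs_of_pos (by positivity : (0:ℝ) < (2 * Real.pi)⁻¹)]
  unfold errq
  gcongr
  have hi1 : Integrable (fun u : ℝ => Real.cos (k / Real.sqrt t * u) * wt t u) := by
    apply (wt_integrable ht).bdd_mul (c := 1) (by fun_prop)
    exact Eventually.of_forall fun u => Real.abs_cos_le_one _
  have hi2 : Integrable (fun u : ℝ => Real.cos (k / Real.sqrt t * u) * Real.exp (-u ^ 2 / 2)) := by
    apply integrable_gauss.bdd_mul (c := 1) (by fun_prop)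
    exact Eventually.of_forall fun u => Real.abs_cos_le_one _
  rw [← integral_sub hi1 hi2]
  refine (abs_integral_le_integral_abs).trans ?_
  apply integral_mono_of_nonneg
  · exact Eventually.of_forall fun u => abs_nonneg _
  · exact ((wt_integrable ht).sub integrable_gauss).abs
  · refine Eventually.of_forall fun u => ?_
    simp only
    rw [← mul_sub, abs_mul]
    calc |Real.cos (k / Real.sqrt t * u)| * |wt t u - Real.exp (-u ^ 2 / 2)|
        ≤ 1 * |wt t u - Real.exp (-u ^ 2 / 2)| := by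
          gcongr; exact Real.abs_cos_le_one _
      _ = _ := one_mul _

lemma tendsto_wt (u : ℝ) : Tendsto (fun t : ℝ => wt t u) atTop (𝓝 (Real.exp (-u ^ 2 / 2))) := by
  have hst : Tendsto Real.sqrt atTop atTop := Real.tendsto_sqrt_atTop
  -- eventually in the interval
  have h1 : ∀ᶠ t in atTop, u ∈ Ioc (-(Real.pi * Real.sqrt t)) (Real.pi * Real.sqrt t) := by
    filter_upwards [hst.eventually_gt_atTop |u|] with t ht
    have hpi : 1 < Real.pi := by linarith [Real.pi_gt_three]
    have h0 : 0 ≤ Real.sqrt t := Real.sqrt_nonneg t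
    have : |u| < Real.pi * Real.sqrt t := by nlinarith [abs_nonneg u]
    rw [abs_lt] at this
    exact ⟨this.1, this.2.le⟩
  have h2 : Tendsto (fun t : ℝ => -t * (1 - Real.cos (u / Real.sqrt t))) atTop
      (𝓝 (-u ^ 2 / 2)) := by
    rw [tendsto_iff_norm_sub_tendsto_zero]
    have h3 : Tendsto (fun t : ℝ => (5 / 96 * u ^ 4) * t⁻¹) atTop (𝓝 0) := by
      have := (tendsto_inv_atTop_zero (𝕜 := ℝ)).const_mul (5 / 96 * u ^ 4)
      rwa [mul_zero] at this
    refine squeeze_zero' (Eventually.of_forall fun t => norm_nonneg _) ?_ h3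
    filter_upwards [eventually_gt_atTop 0, hst.eventually_ge_atTop |u|] with t ht hu
    have hs : 0 < Real.sqrt t := Real.sqrt_pos.mpr ht
    have hb := Real.cos_bound (x := u / Real.sqrt t) (by
      rw [abs_div, abs_of_pos hs, div_le_one hs]; exact hu)
    have e1 : -t * (1 - Real.cos (u / Real.sqrt t)) - -u ^ 2 / 2 =
        t * (Real.cos (u / Real.sqrt t) - (1 - (u / Real.sqrt t) ^ 2 / 2)) := by
      rw [div_pow, Real.sq_sqrt ht.le]
      field_simp
      ring
    rw [e1, Real.norm_eq_abs, abs_mul, abs_of_pos ht]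
    calc t * |Real.cos (u / Real.sqrt t) - (1 - (u / Real.sqrt t) ^ 2 / 2)|
        ≤ t * (|u / Real.sqrt t| ^ 4 * (5 / 96)) := by gcongr
      _ = (5 / 96 * u ^ 4) * t⁻¹ := by
        have e2 : Real.sqrt t ^ 4 = t ^ 2 := by
          rw [show Real.sqrt t ^ 4 = (Real.sqrt t ^ 2) ^ 2 by ring, Real.sq_sqrt ht.le]
        have e3 : |u| ^ 4 = u ^ 4 := by
          rw [show |u| ^ 4 = (|u| ^ 2) ^ 2 by ring, sq_abs]; ring
        rw [abs_div, abs_of_pos hs, div_pow, e2, e3]
        field_simp
  have h3 : Tendsto (fun t : ℝ => Real.exp (-t * (1 - Real.cos (u / Real.sqrt t)))) atTop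
      (𝓝 (Real.exp (-u ^ 2 / 2))) := (Real.continuous_exp.tendsto _).comp h2
  apply h3.congr'
  filter_upwards [h1] with t ht
  unfold wt
  rw [indicator_of_mem ht]

lemma tendsto_errq : Tendsto errq atTop (𝓝 0) := by
  unfold errq
  rw [show (0 : ℝ) = (2 * Real.pi)⁻¹ * ∫ u : ℝ, (0 : ℝ) by simp]
  apply Tendsto.const_mul
  apply tendsto_integral_filter_of_dominated_convergence
    (fun u => Real.exp (-(2 / Real.pi ^ 2) * u ^ 2) + Real.exp (-u ^ 2 / 2))
  · refine Eventually.of_forall fun t => ?_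
    apply Measurable.aestronglyMeasurable
    have := wt_measurable t
    fun_prop
  · filter_upwards [eventually_gt_atTop 0] with t ht
    refine Eventually.of_forall fun u => ?_
    rw [Real.norm_eq_abs, abs_abs]
    calc |wt t u - Real.exp (-u ^ 2 / 2)| ≤ |wt t u| + |Real.exp (-u ^ 2 / 2)| := abs_sub _ _
      _ ≤ _ := by
        rw [abs_of_nonneg (wt_nonneg t u), abs_of_pos (Real.exp_pos _)]
        gcongr
        exact wt_le ht u
  · exact (integrable_exp_neg_mul_sq (by positivity)).add integrable_gauss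
  · refine Eventually.of_forall fun u => ?_
    have := ((tendsto_wt u).sub_const (Real.exp (-u ^ 2 / 2))).abs
    simpa using this

end Pool.Agent.LoopPerc
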