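import Pool.Agent.LoopPerc.RW1DB

/-!
# Scaling limit of the Green function integral (package A, part 3)
-/

namespace Pool.Agent.LoopPerc

open MeasureTheory ProbabilityTheory Filter Topology Set
open scoped ENNReal NNReal

lemma continuous_q1 (k : ℤ) : Continuous fun t : ℝ => q1 t k := by
  unfold q1
  apply Continuous.mul continuous_const
  apply intervalIntegral.continuous_parametric_intervalIntegral_of_continuous'
  fun_prop

lemma integrableOn_dom {c : ℝ} (hc : 1 < c) :
    IntegrableOn (fun s : ℝ => (1 + s) ^ (-c)) (Ioi 0) := by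
  have h := (integrable_one_add_norm (E := ℝ) (μ := volume) (r := c) (by simpa using hc)).integrableOn
    (s := Ioi (0:ℝ))
  apply h.congr_fun _ measurableSet_Ioi
  intro s hs
  simp only
  rw [Real.norm_of_nonneg (le_of_lt hs)]

lemma enorm2_nonneg {d : ℕ} (x : Lat d) : 0 ≤ enorm2 x := Real.sqrt_nonneg _

lemma enorm2_le_sum {d : ℕ} (x : Lat d) : enorm2 x ≤ ∑ i, |(x i : ℝ)| := by
  unfold enorm2
  rw [Real.sqrt_le_left (Finset.sum_nonneg fun i _ => abs_nonneg _)]
  calc ∑ i, (x i : ℝ) ^ 2 = ∑ i, |(x i : ℝ)| ^ 2 := by simp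
    _ ≤ (∑ i, |(x i : ℝ)|) ^ 2 := Finset.sum_sq_le_sq_sum_of_nonneg fun i _ => abs_nonneg _

/-- bound for the product kernel -/
lemma abs_prod_q1_le {d : ℕ} {t : ℝ} (ht : 0 ≤ t) (x : Lat d) :
    |∏ i, q1 t (x i)| ≤ (q1C / Real.sqrt (1 + t)) ^ d *
      Real.exp (-(enorm2 x / Real.sqrt (1 + t))) := by
  rw [Finset.abs_prod]
  calc ∏ i, |q1 t (x i)| ≤ ∏ i : Fin d, (q1C / Real.sqrt (1 + t) *
        Real.exp (-|(x i : ℝ)| / Real.sqrt (1 + t))) :=
        Finset.prod_le_prod (fun i _ => abs_nonneg _) (fun i _ => abs_q1_le t ht (x i))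
    _ = (q1C / Real.sqrt (1 + t)) ^ d * Real.exp (-((∑ i, |(x i : ℝ)|) / Real.sqrt (1 + t))) := by
        rw [Finset.prod_mul_distrib, Finset.prod_const, Finset.card_univ, Fintype.card_fin,
          ← Real.exp_sum]
        congr 2
        rw [Finset.sum_div, ← Finset.sum_neg_distrib]
        exact Finset.sum_congr rfl fun i _ => by ring
    _ ≤ _ := by
        have := q1C_pos
        gcongr
        exact enorm2_le_sum x

lemma sqrt_pow_eq_rpow {a : ℝ} (ha : 0 ≤ a) (d : ℕ) :
    (1 / Real.sqrt a) ^ d = a ^ (-((d : ℝ) / 2)) := by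
  rw [Real.sqrt_eq_rpow, one_div, ← Real.rpow_neg ha, ← Real.rpow_natCast, ← Real.rpow_mul ha]
  congr 1
  ring

lemma q1_prod_integrable' (d : ℕ) (hd : 3 ≤ d) (x : Lat d) :
    IntegrableOn (fun t : ℝ => ∏ i, q1 t (x i)) (Set.Ioi 0) := by
  have hC := q1C_pos
  have hd' : (1 : ℝ) < (d : ℝ) / 2 := by
    have : (3 : ℝ) ≤ d := by exact_mod_cast hd
    linarith
  apply Integrable.mono' ((integrableOn_dom hd').const_mul (q1C ^ d))
  · apply Continuous.aestronglyMeasurable
    exact continuous_finsetProd _ fun i _ => continuous_q1 (x i)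
  · refine (ae_restrict_iff' measurableSet_Ioi).mpr (Eventually.of_forall fun t ht => ?_)
    have ht' : (0 : ℝ) ≤ t := le_of_lt ht
    rw [Real.norm_eq_abs]
    refine (abs_prod_q1_le ht' x).trans ?_
    rw [← sqrt_pow_eq_rpow (by linarith), ← mul_pow, mul_one_div]
    calc (q1C / Real.sqrt (1 + t)) ^ d * Real.exp (-(enorm2 x / Real.sqrt (1 + t)))
        ≤ (q1C / Real.sqrt (1 + t)) ^ d * 1 := by
          gcongr
          rw [Real.exp_le_one_iff]
          have := enorm2_nonneg x
          have h2 := Real.sqrt_nonneg (1 + t)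
          have : 0 ≤ enorm2 x / Real.sqrt (1 + t) := by positivity
          linarith
      _ = _ := mul_one _

theorem q1_prod_integrable (d : ℕ) (hd : 3 ≤ d) (x : Lat d) :
    IntegrableOn (fun t : ℝ => ∏ i, q1 (t / d) (x i)) (Set.Ioi 0) := by
  have hd0 : (0 : ℝ) < d := by
    have : (3 : ℝ) ≤ d := by exact_mod_cast hd
    linarith
  have h := (integrableOn_Ioi_comp_mul_left_iff (fun t : ℝ => ∏ i, q1 t (x i)) 0
    (a := (d : ℝ)⁻¹) (by positivity)).mpr (by rw [mul_zero]; exact q1_prod_integrable' d hd x)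
  apply h.congr_fun _ measurableSet_Ioi
  intro t _
  simp only
  refine Finset.prod_congr rfl fun i _ => ?_
  congr 1
  ring

/-- products are Lipschitz on bounded sets -/
lemma abs_prod_sub_prod_le {ι : Type*} (S : Finset ι) (a b : ι → ℝ) {M e : ℝ} (hM : 1 ≤ M)
    (he : 0 ≤ e) (ha : ∀ i ∈ S, |a i| ≤ M) (hb : ∀ i ∈ S, |b i| ≤ M)
    (hab : ∀ i ∈ S, |a i - b i| ≤ e) :
    |∏ i ∈ S, a i - ∏ i ∈ S, b i| ≤ S.card * M ^ S.card * e := by
  classical
  induction S using Finset.induction_on with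
  | empty => simp
  | insert j S hj ih =>
    rw [Finset.prod_insert hj, Finset.prod_insert hj, Finset.card_insert_of_notMem hj]
    have ih' := ih (fun i hi => ha i (Finset.mem_insert_of_mem hi))
      (fun i hi => hb i (Finset.mem_insert_of_mem hi))
      (fun i hi => hab i (Finset.mem_insert_of_mem hi))
    have h1 : |∏ i ∈ S, a i| ≤ M ^ S.card := by
      rw [Finset.abs_prod, ← Finset.prod_const]
      exact Finset.prod_le_prod (fun i _ => abs_nonneg _)
        fun i hi => ha i (Finset.mem_insert_of_mem hi)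
    have h2 := hb j (Finset.mem_insert_self _ _)
    have h3 := hab j (Finset.mem_insert_self _ _)
    have hMS : 0 ≤ M ^ S.card := by positivity
    calc |a j * ∏ i ∈ S, a i - b j * ∏ i ∈ S, b i|
        = |(a j - b j) * ∏ i ∈ S, a i + b j * (∏ i ∈ S, a i - ∏ i ∈ S, b i)| := by ring_nf
      _ ≤ |a j - b j| * |∏ i ∈ S, a i| + |b j| * |∏ i ∈ S, a i - ∏ i ∈ S, b i| := by
          rw [← abs_mul, ← abs_mul]; exact abs_add_le _ _
      _ ≤ e * M ^ S.card + M * (S.card * M ^ S.card * e) := by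
          have hM0 : 0 ≤ M := by linarith
          gcongr
      _ ≤ M * (e * M ^ S.card) + M * (S.card * M ^ S.card * e) := by
          have : 0 ≤ e * M ^ S.card := by positivity
          nlinarith
      _ = ((S.card + 1 : ℕ) : ℝ) * M ^ (S.card + 1) * e := by
          push_cast; ring

instance cofinite_lat_countablyGenerated (d : ℕ) :
    (cofinite : Filter (Lat d)).IsCountablyGenerated :=
  HasCountableBasis.isCountablyGenerated ⟨hasBasis_cofinite, Set.Countable.ofPred_finite⟩

lemma enorm2_tendsto (d : ℕ) : Tendsto (fun x : Lat d => enorm2 x) cofinite atTop := by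
  rw [tendsto_atTop]
  intro b
  -- finitely many x with enorm2 x < b
  rw [eventually_cofinite]
  obtain ⟨n, hn⟩ := exists_nat_ge b
  apply Set.Finite.subset (Set.Finite.pi' (fun i : Fin d => Set.finite_Icc (-(n : ℤ)) (n : ℤ)))
  intro x hx i
  have hx' : enorm2 x < b := not_le.mp hx
  have h1 : |(x i : ℝ)| ≤ enorm2 x := by
    unfold enorm2
    apply Real.le_sqrt_of_sq_le
    rw [sq_abs]
    exact Finset.single_le_sum (f := fun i => (x i : ℝ) ^ 2) (fun i _ => sq_nonneg _)
      (Finset.mem_univ i)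
  have h2 : |(x i : ℝ)| ≤ n := by linarith
  have h3 := abs_le.mp h2
  constructor
  · exact_mod_cast h3.1
  · exact_mod_cast h3.2

/-- the limit function -/
noncomputable def gLim (d : ℕ) (s : ℝ) : ℝ :=
  ((Real.sqrt s)⁻¹ * (Real.sqrt (2 * Real.pi))⁻¹) ^ d * Real.exp (-(1 / (2 * s)))

lemma gLim_pos (d : ℕ) {s : ℝ} (hs : 0 < s) : 0 < gLim d s := by
  unfold gLim; positivity

/-- the rescaled integrand -/
lemma tendsto_gInt (d : ℕ) {s : ℝ} (hs : 0 < s) :
    Tendsto (fun x : Lat d => enorm2 x ^ d * ∏ i, q1 (enorm2 x ^ 2 * s) (x i)) cofinite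
      (𝓝 (gLim d s)) := by
  have hr := enorm2_tendsto d
  have hss : 0 < Real.sqrt s := Real.sqrt_pos.mpr hs
  have ht : Tendsto (fun x : Lat d => enorm2 x ^ 2 * s) cofinite atTop :=
    ((tendsto_pow_atTop (by norm_num)).comp hr).atTop_mul_const hs
  have hE : Tendsto (fun x : Lat d => (Real.sqrt s)⁻¹ * errq (enorm2 x ^ 2 * s)) cofinite (𝓝 0) := by
    have := (tendsto_errq.comp ht).const_mul (Real.sqrt s)⁻¹
    rwa [mul_zero] at this
  set a : Lat d → Fin d → ℝ := fun x i => enorm2 x * q1 (enorm2 x ^ 2 * s) (x i) with ha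
  set b : Lat d → Fin d → ℝ := fun x i => (Real.sqrt s)⁻¹ * (Real.sqrt (2 * Real.pi))⁻¹ *
    Real.exp (-((x i : ℝ) / (enorm2 x * Real.sqrt s)) ^ 2 / 2) with hb
  -- difference
  have hdiff : ∀ᶠ x : Lat d in cofinite, ∀ i, |a x i - b x i| ≤
      (Real.sqrt s)⁻¹ * errq (enorm2 x ^ 2 * s) := by
    filter_upwards [hr.eventually_gt_atTop 0] with x hx i
    have hpos : 0 < enorm2 x ^ 2 * s := by positivity
    have hl := local_limit hpos (x i)
    have hsq : Real.sqrt (enorm2 x ^ 2 * s) = enorm2 x * Real.sqrt s := by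
      rw [Real.sqrt_mul (by positivity), Real.sqrt_sq hx.le]
    rw [hsq] at hl
    have e1 : a x i - b x i = (Real.sqrt s)⁻¹ * (enorm2 x * Real.sqrt s * q1 (enorm2 x ^ 2 * s) (x i)
        - (Real.sqrt (2 * Real.pi))⁻¹ *
          Real.exp (-((x i : ℝ) / (enorm2 x * Real.sqrt s)) ^ 2 / 2)) := by
      simp only [ha, hb]
      field_simp
    rw [e1, abs_mul, abs_of_pos (inv_pos.mpr hss)]
    gcongr
  set B : ℝ := (Real.sqrt s)⁻¹ * (Real.sqrt (2 * Real.pi))⁻¹ with hB
  have hBpos : 0 < B := by positivity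
  have hbb : ∀ x i, |b x i| ≤ B := by
    intro x i
    simp only [hb]
    rw [abs_mul, abs_of_pos hBpos, abs_of_pos (Real.exp_pos _)]
    calc B * Real.exp (-((x i : ℝ) / (enorm2 x * Real.sqrt s)) ^ 2 / 2) ≤ B * 1 := by
          gcongr
          rw [Real.exp_le_one_iff]
          have := sq_nonneg ((x i : ℝ) / (enorm2 x * Real.sqrt s))
          linarith
      _ = B := mul_one _
  have hprodb : ∀ᶠ x : Lat d in cofinite, ∏ i, b x i = gLim d s := by
    filter_upwards [hr.eventually_gt_atTop 0] with x hx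
    simp only [hb]
    rw [Finset.prod_mul_distrib, Finset.prod_const, Finset.card_univ, Fintype.card_fin,
      ← Real.exp_sum]
    unfold gLim
    congr 2
    have h1 : ∑ i, (x i : ℝ) ^ 2 = enorm2 x ^ 2 := by
      unfold enorm2
      rw [Real.sq_sqrt (Finset.sum_nonneg fun i _ => sq_nonneg _)]
    calc ∑ i, (-((x i : ℝ) / (enorm2 x * Real.sqrt s)) ^ 2 / 2)
        = ∑ i, (x i : ℝ) ^ 2 * (-(1 / (enorm2 x ^ 2 * s)) / 2) := by
          refine Finset.sum_congr rfl fun i _ => ?_
          rw [div_pow, mul_pow, Real.sq_sqrt hs.le]; ring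
      _ = -(1 / (2 * s)) := by
          rw [← Finset.sum_mul, h1]
          field_simp
  -- conclusion
  have hmain : Tendsto (fun x : Lat d => ∏ i, a x i - ∏ i, b x i) cofinite (𝓝 0) := by
    have hlim : Tendsto (fun x : Lat d => (d : ℝ) * (B + 1) ^ d *
        ((Real.sqrt s)⁻¹ * errq (enorm2 x ^ 2 * s))) cofinite (𝓝 0) := by
      have := hE.const_mul ((d : ℝ) * (B + 1) ^ d)
      rwa [mul_zero] at this
    rw [tendsto_zero_iff_norm_tendsto_zero]
    refine squeeze_zero' (Eventually.of_forall fun t => norm_nonneg _) ?_ hlim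
    have hsmall : ∀ᶠ x : Lat d in cofinite, (Real.sqrt s)⁻¹ * errq (enorm2 x ^ 2 * s) ≤ 1 :=
      hE.eventually_le_const (by norm_num)
    filter_upwards [hdiff, hsmall] with x h1 h2
    rcases Nat.eq_zero_or_pos d with h0 | h0
    · subst h0; simp
    have he : 0 ≤ (Real.sqrt s)⁻¹ * errq (enorm2 x ^ 2 * s) := (abs_nonneg _).trans (h1 ⟨0, h0⟩)
    have := abs_prod_sub_prod_le Finset.univ (a x) (b x) (M := B + 1)
      (e := (Real.sqrt s)⁻¹ * errq (enorm2 x ^ 2 * s)) (by linarith) he
      (fun i _ => by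
        have e1 : a x i = (a x i - b x i) + b x i := by ring
        rw [e1]
        refine (abs_add_le _ _).trans ?_
        linarith [h1 i, hbb x i])
      (fun i _ => by linarith [hbb x i]) (fun i _ => h1 i)
    simpa using this
  have hfin : Tendsto (fun x : Lat d => ∏ i, a x i) cofinite (𝓝 (gLim d s)) := by
    have h2 : Tendsto (fun x : Lat d => ∏ i, b x i) cofinite (𝓝 (gLim d s)) :=
      tendsto_const_nhds.congr' (hprodb.mono fun x hx => hx.symm)
    have := hmain.add h2
    simpa using this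
  refine hfin.congr fun x => ?_
  simp only [ha]
  rw [Finset.prod_mul_distrib, Finset.prod_const, Finset.card_univ, Fintype.card_fin]

/-- `y^d e^{-y} ≤ d!` -/
lemma pow_mul_exp_neg_le (d : ℕ) {y : ℝ} (hy : 0 ≤ y) : y ^ d * Real.exp (-y) ≤ d.factorial := by
  have h := Real.pow_div_factorial_le_exp y hy d
  have h2 : (0 : ℝ) < d.factorial := by positivity
  rw [Real.exp_neg]
  rw [div_le_iff₀ h2] at h
  rw [← div_eq_mul_inv, div_le_iff₀ (Real.exp_pos _)]
  linarith

/-- dominating function -/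
lemma gInt_bound (d : ℕ) {s : ℝ} (hs : 0 < s) (x : Lat d) :
    |enorm2 x ^ d * ∏ i, q1 (enorm2 x ^ 2 * s) (x i)| ≤
      (q1C ^ d * (d.factorial + 1) * 2 ^ d) * (1 + s) ^ (-((d : ℝ) / 2)) := by
  have hC := q1C_pos
  set r := enorm2 x with hr
  have hr0 : 0 ≤ r := enorm2_nonneg x
  have ht : 0 ≤ r ^ 2 * s := by positivity
  set y := r / Real.sqrt (1 + r ^ 2 * s) with hy
  have hsq : 0 < Real.sqrt (1 + r ^ 2 * s) := Real.sqrt_pos.mpr (by positivity)
  have hy0 : 0 ≤ y := by positivity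
  have h1 : |r ^ d * ∏ i, q1 (r ^ 2 * s) (x i)| ≤ q1C ^ d * (y ^ d * Real.exp (-y)) := by
    rw [abs_mul, abs_of_nonneg (by positivity : 0 ≤ r ^ d)]
    calc r ^ d * |∏ i, q1 (r ^ 2 * s) (x i)| ≤ r ^ d * ((q1C / Real.sqrt (1 + r ^ 2 * s)) ^ d *
        Real.exp (-(enorm2 x / Real.sqrt (1 + r ^ 2 * s)))) := by
          gcongr
          exact abs_prod_q1_le ht x
      _ = q1C ^ d * (y ^ d * Real.exp (-y)) := by
          rw [hy, div_pow, div_pow]
          ring
  have h2 : y ^ d * Real.exp (-y) ≤ d.factorial := pow_mul_exp_neg_le d hy0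
  have h3 : y ^ d * Real.exp (-y) ≤ (1 / Real.sqrt s) ^ d := by
    have h4 : y ≤ 1 / Real.sqrt s := by
      rw [hy, div_le_div_iff₀ hsq (Real.sqrt_pos.mpr hs), one_mul]
      calc r * Real.sqrt s = Real.sqrt (r ^ 2 * s) := by
            rw [Real.sqrt_mul (by positivity), Real.sqrt_sq hr0]
        _ ≤ Real.sqrt (1 + r ^ 2 * s) := Real.sqrt_le_sqrt (by linarith)
    calc y ^ d * Real.exp (-y) ≤ y ^ d * 1 := by
          gcongr
          rw [Real.exp_le_one_iff]; linarith
      _ = y ^ d := mul_one _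
      _ ≤ _ := by gcongr
  -- comparison with (1+s)^{-d/2}
  rw [← sqrt_pow_eq_rpow (by linarith)]
  have h5 : y ^ d * Real.exp (-y) ≤ (d.factorial + 1) * 2 ^ d * (1 / Real.sqrt (1 + s)) ^ d := by
    rcases le_total s 1 with h | h
    · have h6 : (1 : ℝ) ≤ 2 ^ d * (1 / Real.sqrt (1 + s)) ^ d := by
        rw [← mul_pow]
        apply one_le_pow₀
        rw [mul_one_div, le_div_iff₀ (Real.sqrt_pos.mpr (by linarith)), one_mul]
        rw [Real.sqrt_le_left (by norm_num)]
        linarith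
      calc y ^ d * Real.exp (-y) ≤ d.factorial := h2
        _ ≤ (d.factorial + 1) * 1 := by linarith
        _ ≤ (d.factorial + 1) * (2 ^ d * (1 / Real.sqrt (1 + s)) ^ d) := by gcongr
        _ = _ := by ring
    · calc y ^ d * Real.exp (-y) ≤ (1 / Real.sqrt s) ^ d := h3
        _ ≤ (2 * (1 / Real.sqrt (1 + s))) ^ d := by
            gcongr
            rw [mul_one_div, div_le_div_iff₀ (Real.sqrt_pos.mpr hs)
              (Real.sqrt_pos.mpr (by linarith)), one_mul]
            rw [Real.sqrt_le_left (by positivity), mul_pow, Real.sq_sqrt hs.le]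
            linarith
        _ = 1 * (2 ^ d * (1 / Real.sqrt (1 + s)) ^ d) := by rw [mul_pow, one_mul]
        _ ≤ (d.factorial + 1) * (2 ^ d * (1 / Real.sqrt (1 + s)) ^ d) := by
            gcongr
            have : (0 : ℝ) < d.factorial := by positivity
            linarith
        _ = _ := by ring
  calc |r ^ d * ∏ i, q1 (r ^ 2 * s) (x i)| ≤ q1C ^ d * (y ^ d * Real.exp (-y)) := h1
    _ ≤ q1C ^ d * ((d.factorial + 1) * 2 ^ d * (1 / Real.sqrt (1 + s)) ^ d) := by gcongr
    _ = _ := by ring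

theorem q1_green_asymp (d : ℕ) (hd : 3 ≤ d) :
    ∃ c : ℝ, 0 < c ∧ Tendsto (fun x : Lat d =>
      enorm2 x ^ (d - 2) * ∫ t in Set.Ioi (0 : ℝ), ∏ i, q1 (t / d) (x i)) cofinite (𝓝 c) := by
  have hd0 : (0 : ℝ) < d := by
    have : (3 : ℝ) ≤ d := by exact_mod_cast hd
    linarith
  have hd' : (1 : ℝ) < (d : ℝ) / 2 := by
    have : (3 : ℝ) ≤ d := by exact_mod_cast hd
    linarith
  -- the integral of the limit
  have hdom := (integrableOn_dom hd').const_mul (q1C ^ d * (d.factorial + 1) * 2 ^ d)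
  have hmeas : ∀ x : Lat d, Continuous
      (fun s : ℝ => enorm2 x ^ d * ∏ i, q1 (enorm2 x ^ 2 * s) (x i)) := by
    intro x
    apply Continuous.mul continuous_const
    exact continuous_finsetProd _ fun i _ => (continuous_q1 (x i)).comp (by fun_prop)
  have hne : (cofinite : Filter (Lat d)).NeBot := by
    have : Infinite (Lat d) := by
      have : Nonempty (Fin d) := ⟨⟨0, by omega⟩⟩
      infer_instance
    infer_instance
  have hglim_bound : ∀ s ∈ Ioi (0:ℝ), |gLim d s| ≤
      (q1C ^ d * (d.factorial + 1) * 2 ^ d) * (1 + s) ^ (-((d : ℝ) / 2)) := by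
    intro s hs
    exact le_of_tendsto (tendsto_gInt d hs).abs (Eventually.of_forall fun x => gInt_bound d hs x)
  have hgmeas : Measurable (gLim d) := by
    unfold gLim
    fun_prop
  have hgint : IntegrableOn (gLim d) (Ioi 0) := by
    apply Integrable.mono' hdom hgmeas.aestronglyMeasurable
    exact (ae_restrict_iff' measurableSet_Ioi).mpr (Eventually.of_forall fun s hs =>
      hglim_bound s hs)
  have hpos : 0 < ∫ s in Ioi (0:ℝ), gLim d s := by
    rw [setIntegral_pos_iff_support_of_nonneg_ae]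
    · have : Function.support (gLim d) ∩ Ioi 0 = Ioi 0 := by
        apply inter_eq_self_of_subset_right
        intro s hs
        exact (gLim_pos d hs).ne'
      rw [this, Real.volume_Ioi]
      exact ENNReal.zero_lt_top
    · exact (ae_restrict_iff' measurableSet_Ioi).mpr (Eventually.of_forall fun s hs =>
        (gLim_pos d hs).le)
    · exact hgint
  have htend : Tendsto (fun x : Lat d => ∫ s in Ioi (0:ℝ),
      enorm2 x ^ d * ∏ i, q1 (enorm2 x ^ 2 * s) (x i)) cofinite
      (𝓝 (∫ s in Ioi (0:ℝ), gLim d s)) := by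
    apply tendsto_integral_filter_of_dominated_convergence _ _ _ hdom
    · exact (ae_restrict_iff' measurableSet_Ioi).mpr (Eventually.of_forall fun s hs =>
        tendsto_gInt d hs)
    · exact Eventually.of_forall fun x => (hmeas x).aestronglyMeasurable
    · exact Eventually.of_forall fun x => (ae_restrict_iff' measurableSet_Ioi).mpr
        (Eventually.of_forall fun s hs => gInt_bound d hs x)
  refine ⟨d * ∫ s in Ioi (0:ℝ), gLim d s, by positivity, ?_⟩
  refine (htend.const_mul (d : ℝ)).congr' ?_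
  filter_upwards [(enorm2_tendsto d).eventually_gt_atTop 0] with x hx
  have hb : 0 < (d : ℝ) * enorm2 x ^ 2 := by positivity
  have h := integral_comp_mul_left_Ioi' (fun t : ℝ => ∏ i, q1 (t / d) (x i)) 0 hb
  rw [mul_zero, smul_eq_mul] at h
  rw [← h, integral_const_mul]
  have h2 : ∀ s : ℝ, (∏ i, q1 ((d : ℝ) * enorm2 x ^ 2 * s / d) (x i)) =
      ∏ i, q1 (enorm2 x ^ 2 * s) (x i) := by
    intro s
    refine Finset.prod_congr rfl fun i _ => ?_
    congr 1
    field_simp
  simp_rw [h2]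
  obtain ⟨m, rfl⟩ : ∃ m, d = m + 2 := ⟨d - 2, by omega⟩
  rw [Nat.add_sub_cancel]
  ring

end Pool.Agent.LoopPerc
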