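import Pool.Agent.LoopPerc.RW1DC

/-!
# Aliasing formula and the theta function comparison (package A, part 4)
-/

namespace Pool.Agent.LoopPerc

open MeasureTheory ProbabilityTheory Filter Topology Set
open scoped ENNReal NNReal

local instance : Fact (0 < 2 * Real.pi) := ⟨Real.two_pi_pos⟩

/-- the weight as a function on the circle -/
noncomputable def gCirc (t : ℝ) : C(AddCircle (2 * Real.pi), ℂ) where
  toFun := fun x => ((Real.exp (-t * (1 - Real.Angle.cos x)) : ℝ) : ℂ)
  continuous_toFun := by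
    have : Continuous fun x : AddCircle (2 * Real.pi) => Real.Angle.cos x :=
      Real.Angle.continuous_cos
    fun_prop

lemma gCirc_coe (t θ : ℝ) : gCirc t (θ : AddCircle (2 * Real.pi)) =
    ((Real.exp (-t * (1 - Real.cos θ)) : ℝ) : ℂ) := by
  show ((Real.exp (-t * (1 - Real.Angle.cos ((θ : ℝ) : Real.Angle))) : ℝ) : ℂ) = _
  rw [Real.Angle.cos_coe]

lemma q1G_im (t : ℝ) (k : ℤ) : (∫ θ in (-Real.pi)..Real.pi, q1G t k θ).im = 0 := by
  have h := intervalIntegral.intervalIntegral_im (μ := volume) (𝕜 := ℂ) (f := fun θ : ℝ => q1G t k θ)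
    (a := -Real.pi) (b := Real.pi)
    (((q1G_continuous t k).comp Complex.continuous_ofReal).intervalIntegrable _ _)
  simp only [RCLike.im_eq_complex_im] at h
  rw [← h]
  have h2 : ∀ θ : ℝ, (q1G t k θ).im = Real.sin (k * θ) * Real.exp (-t * (1 - Real.cos θ)) := by
    intro θ
    unfold q1G
    have h1 : Complex.exp (-t * (1 - Complex.cos θ)) =
        ((Real.exp (-t * (1 - Real.cos θ)) : ℝ) : ℂ) := by
      push_cast
      rfl
    rw [h1, Complex.im_mul_ofReal]
    congr 1
    rw [show Complex.I * (k : ℂ) * (θ : ℂ) = ((k * θ : ℝ) : ℂ) * Complex.I by push_cast; ring,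
      Complex.exp_ofReal_mul_I_im]
  simp_rw [h2]
  -- odd function
  have h3 := intervalIntegral.integral_comp_neg (a := -Real.pi) (b := Real.pi)
    (fun θ : ℝ => Real.sin (k * θ) * Real.exp (-t * (1 - Real.cos θ)))
  simp only [neg_neg] at h3
  have h4 : (∫ x in (-Real.pi)..Real.pi, Real.sin (k * -x) * Real.exp (-t * (1 - Real.cos (-x)))) =
      -∫ x in (-Real.pi)..Real.pi, Real.sin (k * x) * Real.exp (-t * (1 - Real.cos x)) := by
    rw [← intervalIntegral.integral_neg]
    apply intervalIntegral.integral_congr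
    intro x _
    simp only [mul_neg, Real.sin_neg, Real.cos_neg, neg_mul]
  rw [h4] at h3
  linarith

lemma q1_eqC (t : ℝ) (k : ℤ) : (q1 t k : ℂ) = (2 * Real.pi)⁻¹ *
    ∫ θ in (-Real.pi)..Real.pi, q1G t k θ := by
  rw [q1_eq_re]
  have := Complex.re_add_im (∫ θ in (-Real.pi)..Real.pi, q1G t k θ)
  rw [q1G_im, Complex.ofReal_zero, zero_mul, add_zero] at this
  rw [Complex.ofReal_mul, this]

lemma q1_neg (t : ℝ) (k : ℤ) : q1 t (-k) = q1 t k := by
  unfold q1
  congr 1
  apply intervalIntegral.integral_congr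
  intro θ _
  simp only [Int.cast_neg, neg_mul, Real.cos_neg]

lemma fourierCoeff_gCirc (t : ℝ) (k : ℤ) : fourierCoeff (gCirc t) k = (q1 t k : ℂ) := by
  rw [fourierCoeff_eq_intervalIntegral (gCirc t) k (-Real.pi), ← q1_neg, q1_eqC]
  rw [show -Real.pi + 2 * Real.pi = Real.pi by ring]
  rw [Complex.real_smul]
  congr 1
  · push_cast
    rw [one_div]
  · apply intervalIntegral.integral_congr
    intro θ _
    simp only
    rw [gCirc_coe, fourier_coe_apply, smul_eq_mul]
    unfold q1G
    congr 1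
    · congr 1
      have : (Real.pi : ℂ) ≠ 0 := by exact_mod_cast Real.pi_ne_zero
      push_cast
      field_simp
    · push_cast
      rfl

lemma summable_q1 {t : ℝ} (ht : 0 ≤ t) : Summable fun k : ℤ => q1 t k := by
  set ρ := Real.exp (-(1 / Real.sqrt (1 + t))) with hρ
  have hs : 0 < Real.sqrt (1 + t) := Real.sqrt_pos.mpr (by linarith)
  have hρ1 : ρ < 1 := by
    rw [hρ, Real.exp_lt_one_iff]
    have : 0 < 1 / Real.sqrt (1 + t) := by positivity
    linarith
  have hgeo : Summable fun k : ℤ => q1C / Real.sqrt (1 + t) * ρ ^ k.natAbs := by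
    apply Summable.mul_left
    have h1 : Summable fun n : ℕ => ρ ^ n := summable_geometric_of_lt_one (Real.exp_pos _).le hρ1
    apply Summable.of_nat_of_neg
    · simpa using h1
    · simpa using h1
  apply Summable.of_norm_bounded hgeo
  intro k
  rw [Real.norm_eq_abs]
  refine (abs_q1_le t ht k).trans (le_of_eq ?_)
  congr 1
  rw [hρ, ← Real.exp_nat_mul]
  congr 1
  have : ((k.natAbs : ℕ) : ℝ) = |(k : ℝ)| := by
    rw [Nat.cast_natAbs]; push_cast; rfl
  rw [this]
  ring

lemma hasSum_q1_cos {t : ℝ} (ht : 0 ≤ t) (θ : ℝ) :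
    HasSum (fun k : ℤ => q1 t k * Real.cos (k * θ)) (Real.exp (-t * (1 - Real.cos θ))) := by
  have hsum : Summable (fourierCoeff (gCirc t)) := by
    have : fourierCoeff (gCirc t) = fun k : ℤ => ((q1 t k : ℝ) : ℂ) := by
      funext k; exact fourierCoeff_gCirc t k
    rw [this]
    exact Complex.summable_ofReal.mpr (summable_q1 ht)
  have h := has_pointwise_sum_fourier_series_of_summable hsum (θ : AddCircle (2 * Real.pi))
  rw [gCirc_coe] at h
  have h2 := Complex.hasSum_re h
  rw [Complex.ofReal_re] at h2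
  convert h2 using 2 with k
  rw [fourierCoeff_gCirc, fourier_coe_apply, smul_eq_mul, Complex.re_ofReal_mul]
  congr 1
  have : (2 * Real.pi * Complex.I * k * θ / ((2 * Real.pi : ℝ) : ℂ)) =
      ((k * θ : ℝ) : ℂ) * Complex.I := by
    have : (Real.pi : ℂ) ≠ 0 := by exact_mod_cast Real.pi_ne_zero
    push_cast
    field_simp
  rw [this, Complex.exp_ofReal_mul_I_re]

/-- averages of `cos (kθ)` over the nodes -/
noncomputable def cavg (n : ℕ) (k : ℤ) : ℝ :=
  (1 / (n : ℝ)) * ∑ j ∈ Finset.range n, Real.cos (k * (Real.pi * (2 * j + 1) / (2 * n)))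

lemma hasSum_q1box {n : ℕ} {t : ℝ} (ht : 0 ≤ t) :
    HasSum (fun k : ℤ => q1 t k * cavg n k) (q1box n t) := by
  unfold q1box cavg
  have h : ∀ j ∈ Finset.range n, HasSum (fun k : ℤ => q1 t k *
      Real.cos (k * (Real.pi * (2 * j + 1) / (2 * n))))
      (Real.exp (-t * (1 - Real.cos (Real.pi * (2 * j + 1) / (2 * n))))) :=
    fun j _ => hasSum_q1_cos ht _
  have h2 := (hasSum_sum h).mul_left (1 / (n : ℝ))
  refine h2.congr_fun fun k => ?_
  rw [Finset.mul_sum, Finset.mul_sum, Finset.mul_sum]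
  refine Finset.sum_congr rfl fun j _ => ?_
  ring

lemma sum_cos_odd (n : ℕ) (x : ℝ) :
    2 * Real.sin x * ∑ j ∈ Finset.range n, Real.cos ((2 * j + 1) * x) = Real.sin (2 * n * x) := by
  induction n with
  | zero => simp
  | succ n ih =>
    rw [Finset.sum_range_succ, mul_add, ih]
    have h1 : Real.sin (2 * (n + 1 : ℕ) * x) = Real.sin ((2 * n + 1) * x + x) := by
      congr 1; push_cast; ring
    have h2 : Real.sin (2 * n * x) = Real.sin ((2 * n + 1) * x - x) := by
      congr 1; ring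
    rw [h1, h2, Real.sin_add, Real.sin_sub]
    ring

lemma cavg_eq_zero {n : ℕ} (hn : 1 ≤ n) {k : ℤ} (hk : ¬ (2 * (n : ℤ)) ∣ k) : cavg n k = 0 := by
  have hn0 : (n : ℝ) ≠ 0 := by
    have : (1 : ℝ) ≤ n := by exact_mod_cast hn
    linarith
  unfold cavg
  set x := k * Real.pi / (2 * n) with hx
  have h1 : ∀ j : ℕ, Real.cos (k * (Real.pi * (2 * j + 1) / (2 * n))) =
      Real.cos ((2 * j + 1) * x) := by
    intro j
    congr 1
    rw [hx]; ring
  simp_rw [h1]
  have h2 := sum_cos_odd n x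
  have h3 : Real.sin (2 * n * x) = 0 := by
    rw [hx, show 2 * (n : ℝ) * (k * Real.pi / (2 * n)) = k * Real.pi by field_simp]
    exact Real.sin_int_mul_pi k
  have h4 : Real.sin x ≠ 0 := by
    intro h0
    rw [Real.sin_eq_zero_iff] at h0
    obtain ⟨m, hm⟩ := h0
    apply hk
    rw [hx] at hm
    have hpi := Real.pi_ne_zero
    have h5 : (m : ℝ) * (2 * n) = k := by
      field_simp at hm
      linarith
    refine ⟨m, ?_⟩
    have h6 : ((m * (2 * n) : ℤ) : ℝ) = ((k : ℤ) : ℝ) := by push_cast; exact h5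
    have h7 := Int.cast_injective h6
    linarith
  rw [h3] at h2
  have h5 : ∑ j ∈ Finset.range n, Real.cos ((2 * j + 1) * x) = 0 := by
    have : 2 * Real.sin x ≠ 0 := mul_ne_zero two_ne_zero h4
    exact (mul_eq_zero.mp h2).resolve_left this
  rw [h5, mul_zero]

lemma cavg_zero {n : ℕ} (hn : 1 ≤ n) : cavg n 0 = 1 := by
  have hn0 : (n : ℝ) ≠ 0 := by
    have : (1 : ℝ) ≤ n := by exact_mod_cast hn
    linarith
  unfold cavg
  simp
  field_simp

lemma abs_cavg_le {n : ℕ} (hn : 1 ≤ n) (k : ℤ) : |cavg n k| ≤ 1 := by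
  have hn0 : (0 : ℝ) < n := by
    have : (1 : ℝ) ≤ n := by exact_mod_cast hn
    linarith
  unfold cavg
  rw [abs_mul, abs_of_pos (by positivity)]
  calc (1 / (n : ℝ)) * |∑ j ∈ Finset.range n, Real.cos (k * (Real.pi * (2 * j + 1) / (2 * n)))|
      ≤ (1 / (n : ℝ)) * ∑ j ∈ Finset.range n, |Real.cos (k * (Real.pi * (2 * j + 1) / (2 * n)))| := by
        gcongr
        exact Finset.abs_sum_le_sum_abs _ _
    _ ≤ (1 / (n : ℝ)) * ∑ j ∈ Finset.range n, 1 := by
        gcongr
        exact Real.abs_cos_le_one _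
    _ = 1 := by simp; field_simp

/-- The aliasing bound. -/
lemma abs_q1box_sub_le {n : ℕ} (hn : 1 ≤ n) {t : ℝ} (ht : 0 ≤ t) :
    |q1box n t - q1 t 0| ≤ 2 * (q1C / Real.sqrt (1 + t)) *
      (Real.exp (-(2 * n / Real.sqrt (1 + t))) / (1 - Real.exp (-(2 * n / Real.sqrt (1 + t))))) := by
  have hC := q1C_pos
  have hs : 0 < Real.sqrt (1 + t) := Real.sqrt_pos.mpr (by linarith)
  have hn0 : (0 : ℝ) < n := by
    have : (1 : ℝ) ≤ n := by exact_mod_cast hn
    linarith
  have hnz : (n : ℤ) ≠ 0 := by positivity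
  set A := q1C / Real.sqrt (1 + t) with hA
  set ρ := Real.exp (-(2 * n / Real.sqrt (1 + t))) with hρ
  have hρ0 : 0 < ρ := Real.exp_pos _
  have hρ1 : ρ < 1 := by
    rw [hρ, Real.exp_lt_one_iff]
    have : 0 < 2 * n / Real.sqrt (1 + t) := by positivity
    linarith
  have h := hasSum_q1box (n := n) ht
  have hinj : Function.Injective (fun m : ℤ => 2 * (n : ℤ) * m) := by
    intro a b hab
    simp only at hab
    exact mul_left_cancel₀ (mul_ne_zero two_ne_zero hnz) hab
  have h2 : HasSum ((fun k : ℤ => q1 t k * cavg n k) ∘ fun m : ℤ => 2 * (n : ℤ) * m)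
      (q1box n t) := by
    rw [hinj.hasSum_iff]
    · exact h
    · intro k hk
      rw [cavg_eq_zero hn, mul_zero]
      rintro ⟨m, hm⟩
      exact hk ⟨m, hm.symm⟩
  have h3 := h2.sub (hasSum_ite_eq (0 : ℤ) (q1 t 0))
  have hgeo : HasSum (fun m : ℤ => if m = 0 then 0 else A * ρ ^ m.natAbs)
      (A * (ρ / (1 - ρ)) + A * (ρ / (1 - ρ))) := by
    have hg : HasSum (fun k : ℕ => ρ ^ k) (1 - ρ)⁻¹ := hasSum_geometric_of_lt_one hρ0.le hρ1
    have hg2 : HasSum (fun k : ℕ => A * (ρ * ρ ^ k)) (A * (ρ / (1 - ρ))) := by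
      rw [div_eq_mul_inv]
      exact (hg.mul_left ρ).mul_left A
    apply HasSum.of_nat_of_neg_add_one
    · rw [← hasSum_nat_add_iff' 1]
      simp only [Finset.sum_range_one, Nat.cast_zero, if_true, sub_zero]
      refine hg2.congr_fun fun k => ?_
      rw [if_neg (by omega), show ((((k + 1 : ℕ) : ℤ)).natAbs) = k + 1 by omega]
      ring
    · refine hg2.congr_fun fun k => ?_
      rw [if_neg (by omega), show ((-((k : ℤ) + 1)).natAbs) = k + 1 by omega]
      ring
  have h4 := h3.norm_le_of_bounded hgeo (fun m => by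
    by_cases hm : m = 0
    · subst hm
      simp [cavg_zero hn]
    · rw [if_neg hm, if_neg hm, sub_zero]
      simp only [Function.comp]
      rw [Real.norm_eq_abs, abs_mul]
      calc |q1 t (2 * n * m)| * |cavg n (2 * n * m)| ≤
          (A * Real.exp (-|((2 * n * m : ℤ) : ℝ)| / Real.sqrt (1 + t))) * 1 := by
            gcongr
            · exact abs_q1_le t ht _
            · exact abs_cavg_le hn _
        _ = A * ρ ^ m.natAbs := by
            rw [mul_one, hρ, ← Real.exp_nat_mul]
            congr 2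
            have : ((m.natAbs : ℕ) : ℝ) = |(m : ℝ)| := by
              rw [Nat.cast_natAbs]; push_cast; rfl
            rw [this]
            push_cast
            rw [abs_mul, abs_of_pos (by positivity : (0:ℝ) < 2 * n)]
            ring)
  rw [Real.norm_eq_abs] at h4
  linarith [h4]

end Pool.Agent.LoopPerc
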