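import Pool.Agent.LoopPerc.RW1DD

/-!
# Scaling limit of the box difference (package A, part 5)
-/

namespace Pool.Agent.LoopPerc

open MeasureTheory ProbabilityTheory Filter Topology Set
open scoped ENNReal NNReal

/-- the theta function of the killed Brownian motion -/
noncomputable def vth (s : ℝ) : ℝ := ∑' j : ℕ, Real.exp (-s * (Real.pi ^ 2 * (2 * j + 1) ^ 2 / 8))

section theta

/-- one-sided theta sum -/
noncomputable def Sth (a : ℝ) : ℝ := ∑' n : ℕ, Real.exp (-Real.pi * a * ((n : ℝ) + 1) ^ 2)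

noncomputable def Oth (a : ℝ) : ℝ := ∑' n : ℕ, Real.exp (-Real.pi * a * (2 * (n : ℝ) + 1) ^ 2)

lemma summable_sth {a : ℝ} (ha : 0 < a) :
    Summable fun n : ℕ => Real.exp (-Real.pi * a * ((n : ℝ) + 1) ^ 2) := by
  have hg : Summable fun n : ℕ => Real.exp (-Real.pi * a) ^ n := by
    apply summable_geometric_of_lt_one (Real.exp_pos _).le
    rw [Real.exp_lt_one_iff]
    have := mul_pos Real.pi_pos ha
    linarith
  apply Summable.of_nonneg_of_le (fun n => (Real.exp_pos _).le) _ hg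
  intro n
  rw [← Real.exp_nat_mul]
  apply Real.exp_le_exp.mpr
  have := mul_pos Real.pi_pos ha
  have hn : (0 : ℝ) ≤ n := Nat.cast_nonneg n
  nlinarith [mul_nonneg this.le hn, mul_nonneg this.le (mul_nonneg hn hn)]

lemma summable_oth {a : ℝ} (ha : 0 < a) :
    Summable fun n : ℕ => Real.exp (-Real.pi * a * (2 * (n : ℝ) + 1) ^ 2) := by
  have h := (summable_sth ha).comp_injective (i := fun n : ℕ => 2 * n)
    (fun a b hab => by simp only at hab; omega)
  refine h.congr fun n => ?_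
  simp only [Function.comp]
  push_cast
  rfl

lemma summable_eth {a : ℝ} (ha : 0 < a) :
    Summable fun n : ℕ => Real.exp (-Real.pi * a * (2 * (n : ℝ) + 2) ^ 2) := by
  have h := (summable_sth ha).comp_injective (i := fun n : ℕ => 2 * n + 1)
    (fun a b hab => by simp only at hab; omega)
  refine h.congr fun n => ?_
  simp only [Function.comp]
  congr 2
  push_cast
  ring

lemma sth_four (a : ℝ) :
    Sth (4 * a) = ∑' n : ℕ, Real.exp (-Real.pi * a * (2 * (n : ℝ) + 2) ^ 2) := by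
  unfold Sth
  apply tsum_congr
  intro n
  congr 1
  ring

lemma sth_split {a : ℝ} (ha : 0 < a) : Sth a = Oth a + Sth (4 * a) := by
  rw [sth_four]
  unfold Sth Oth
  have h0 := tsum_even_add_odd (f := fun n : ℕ => Real.exp (-Real.pi * a * ((n : ℝ) + 1) ^ 2))
    ((summable_sth ha).comp_injective (i := fun n : ℕ => 2 * n)
      (fun a b hab => by simp only at hab; omega))
    ((summable_sth ha).comp_injective (i := fun n : ℕ => 2 * n + 1)
      (fun a b hab => by simp only at hab; omega))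
  rw [← h0]
  congr 1
  · apply tsum_congr
    intro n
    push_cast
    rfl
  · apply tsum_congr
    intro n
    congr 2
    push_cast
    ring

lemma full_theta {a : ℝ} (ha : 0 < a) :
    ∑' n : ℤ, Real.exp (-Real.pi * a * (n : ℝ) ^ 2) = 1 + 2 * Sth a := by
  have h := (summable_sth ha).hasSum
  apply HasSum.tsum_eq
  rw [show 1 + 2 * Sth a = (Sth a + 1) + Sth a by ring]
  apply HasSum.of_nat_of_neg_add_one
  · rw [← hasSum_nat_add_iff' 1]
    simp only [Finset.sum_range_one, Nat.cast_zero, Int.cast_zero]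
    have : Real.exp (-Real.pi * a * 0 ^ 2) = 1 := by simp
    rw [this, add_sub_cancel_right]
    refine h.congr_fun fun n => ?_
    push_cast
    rfl
  · refine h.congr_fun fun n => ?_
    congr 2
    push_cast
    ring

lemma theta_transform {a : ℝ} (ha : 0 < a) :
    1 + 2 * Sth a = 1 / Real.sqrt a * (1 + 2 * Sth (1 / a)) := by
  rw [← full_theta ha, ← full_theta (one_div_pos.mpr ha), Real.tsum_exp_neg_mul_int_sq ha,
    Real.sqrt_eq_rpow]
  congr 1
  apply tsum_congr
  intro n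
  congr 1
  ring

/-- The strict inequality. -/
lemma oth_lt {a : ℝ} (ha : 0 < a) : Oth a < 1 / (4 * Real.sqrt a) := by
  have ha4 : 0 < 4 * a := by linarith
  set b := 1 / (4 * a) with hb
  have hb0 : 0 < b := by positivity
  have h1 := theta_transform ha
  have h2 := theta_transform ha4
  have h3 := sth_split ha
  have h4 : 1 / a = 4 * b := by rw [hb]; field_simp
  rw [h4] at h1
  rw [← hb] at h2
  have h5 := sth_split hb0
  have h6 : Sth (4 * b) < Oth b := by
    rw [sth_four]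
    unfold Oth
    apply Summable.tsum_lt_tsum (i := 0) _ _ (summable_eth hb0) (summable_oth hb0)
    · intro n
      apply Real.exp_le_exp.mpr
      have := mul_pos Real.pi_pos hb0
      have hn : (0 : ℝ) ≤ n := Nat.cast_nonneg n
      nlinarith [mul_nonneg this.le hn]
    · apply Real.exp_lt_exp.mpr
      have := mul_pos Real.pi_pos hb0
      push_cast
      nlinarith
  have hsa : 0 < Real.sqrt a := Real.sqrt_pos.mpr ha
  have h7 : Real.sqrt (4 * a) = 2 * Real.sqrt a := by
    rw [Real.sqrt_mul (by norm_num), show (4 : ℝ) = 2 ^ 2 by norm_num, Real.sqrt_sq (by norm_num)]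
  rw [h7] at h2
  -- 2 Oth a = (1 + 2 Sth a) - (1 + 2 Sth (4a))
  have h8 : 2 * Oth a = 1 / Real.sqrt a * ((1 + 2 * Sth (4 * b)) - 1 / 2 * (1 + 2 * Sth b)) := by
    have e : 1 / (2 * Real.sqrt a) * (1 + 2 * Sth b) =
        1 / Real.sqrt a * (1 / 2 * (1 + 2 * Sth b)) := by
      field_simp
    calc 2 * Oth a = (1 + 2 * Sth a) - (1 + 2 * Sth (4 * a)) := by rw [h3]; ring
      _ = _ := by rw [h1, h2, e]; ring
  have h9 : (1 + 2 * Sth (4 * b)) - 1 / 2 * (1 + 2 * Sth b) < 1 / 2 := by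
    rw [h5]; linarith
  have h10 : 2 * Oth a < 1 / Real.sqrt a * (1 / 2) := by
    rw [h8]
    apply mul_lt_mul_of_pos_left h9 (by positivity)
  have h11 : 1 / (4 * Real.sqrt a) = 1 / Real.sqrt a * (1 / 2) / 2 := by field_simp; norm_num
  rw [h11]
  linarith

end theta

lemma vth_lt {s : ℝ} (hs : 0 < s) :
    vth s < (Real.sqrt s)⁻¹ * (Real.sqrt (2 * Real.pi))⁻¹ := by
  have hpi := Real.pi_pos
  have ha : 0 < s * Real.pi / 8 := by positivity
  have h := oth_lt ha
  have h1 : vth s = Oth (s * Real.pi / 8) := by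
    unfold vth Oth
    apply tsum_congr
    intro n
    congr 1
    ring
  rw [h1]
  refine h.trans_le (le_of_eq ?_)
  rw [← mul_inv, ← Real.sqrt_mul hs.le, one_div]
  congr 1
  rw [show (4 : ℝ) = Real.sqrt 16 by
    rw [show (16 : ℝ) = 4 ^ 2 by norm_num, Real.sqrt_sq (by norm_num)],
    ← Real.sqrt_mul (by norm_num)]
  congr 1
  ring

lemma vth_nonneg (s : ℝ) : 0 ≤ vth s := tsum_nonneg fun _ => (Real.exp_pos _).le

/-- `t (1 - cos (u/√t)) → u²/2` -/
lemma tendsto_one_sub_cos (u : ℝ) :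
    Tendsto (fun t : ℝ => -t * (1 - Real.cos (u / Real.sqrt t))) atTop (𝓝 (-u ^ 2 / 2)) := by
  have hst : Tendsto Real.sqrt atTop atTop := Real.tendsto_sqrt_atTop
  rw [tendsto_iff_norm_sub_tendsto_zero]
  have h3 : Tendsto (fun t : ℝ => (5 / 96 * u ^ 4) * t⁻¹) atTop (𝓝 0) := by
    have := (tendsto_inv_atTop_zero (𝕜 := ℝ)).const_mul (5 / 96 * u ^ 4)
    rwa [mul_zero] at this
  refine squeeze_zero' (Eventually.of_forall fun t => norm_nonneg _) ?_ h3
  filter_upwards [eventually_gt_atTop 0, hst.eventually_ge_atTop |u|] with t ht hu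
  have hs : 0 < Real.sqrt t := Real.sqrt_pos.mpr ht
  have hb := Real.cos_bound (x := u / Real.sqrt t) (by
    rw [abs_div, abs_of_pos hs, div_le_one hs]; exact hu)
  have e1 : -t * (1 - Real.cos (u / Real.sqrt t)) - -u ^ 2 / 2 =
      t * (Real.cos (u / Real.sqrt t) - (1 - (u / Real.sqrt t) ^ 2 / 2)) := by
    rw [div_pow, Real.sq_sqrt ht.le]
    field_simp
    ring
  rw [e1, Real.norm_eq_abs, abs_mul, abs_of_pos ht]
  calc t * |Real.cos (u / Real.sqrt t) - (1 - (u / Real.sqrt t) ^ 2 / 2)|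
      ≤ t * (|u / Real.sqrt t| ^ 4 * (5 / 96)) := by gcongr
    _ = (5 / 96 * u ^ 4) * t⁻¹ := by
      have e2 : Real.sqrt t ^ 4 = t ^ 2 := by
        rw [show Real.sqrt t ^ 4 = (Real.sqrt t ^ 2) ^ 2 by ring, Real.sq_sqrt ht.le]
      have e3 : |u| ^ 4 = u ^ 4 := by
        rw [show |u| ^ 4 = (|u| ^ 2) ^ 2 by ring, sq_abs]; ring
      rw [abs_div, abs_of_pos hs, div_pow, e2, e3]
      field_simp

/-- individual terms of the box kernel -/
lemma box_term_le {n : ℕ} (hn : 1 ≤ n) {s : ℝ} (hs : 0 ≤ s) {j : ℕ} (hj : j < n) :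
    Real.exp (-((n : ℝ) ^ 2 * s) * (1 - Real.cos (Real.pi * (2 * j + 1) / (2 * n)))) ≤
      Real.exp (-s * ((2 * j + 1) ^ 2 / 2)) := by
  have hpi := Real.pi_pos
  have hn0 : (0 : ℝ) < n := by exact_mod_cast hn
  apply Real.exp_le_exp.mpr
  have hj' : (2 * (j : ℝ) + 1) ≤ 2 * n := by
    have : (j : ℝ) + 1 ≤ n := by exact_mod_cast hj
    linarith
  have h1 : |Real.pi * (2 * j + 1) / (2 * n)| ≤ Real.pi := by
    rw [abs_of_pos (by positivity), div_le_iff₀ (by positivity)]
    gcongr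
  have h2 := one_sub_cos_ge h1
  have h3 : (n : ℝ) ^ 2 * s * (2 / Real.pi ^ 2 * (Real.pi * (2 * j + 1) / (2 * n)) ^ 2) =
      s * ((2 * j + 1) ^ 2 / 2) := by
    field_simp
  have h4 : (n : ℝ) ^ 2 * s * (2 / Real.pi ^ 2 * (Real.pi * (2 * j + 1) / (2 * n)) ^ 2) ≤
      (n : ℝ) ^ 2 * s * (1 - Real.cos (Real.pi * (2 * j + 1) / (2 * n))) := by
    gcongr
  linarith

lemma exp_term_le {s : ℝ} (hs : 0 ≤ s) (j : ℕ) :
    Real.exp (-s * ((2 * j + 1) ^ 2 / 2)) ≤ Real.exp (-(s / 2)) * Real.exp (-s) ^ j := by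
  rw [← Real.exp_nat_mul, ← Real.exp_add]
  apply Real.exp_le_exp.mpr
  have hj : (0 : ℝ) ≤ j := Nat.cast_nonneg j
  nlinarith [mul_nonneg hs hj, mul_nonneg hs (mul_nonneg hj hj)]

lemma mul_q1box (n : ℕ) (hn : 1 ≤ n) (t : ℝ) :
    (n : ℝ) * q1box n t = ∑ j ∈ Finset.range n,
      Real.exp (-t * (1 - Real.cos (Real.pi * (2 * j + 1) / (2 * n)))) := by
  have hn0 : (n : ℝ) ≠ 0 := by
    have : (1 : ℝ) ≤ n := by exact_mod_cast hn
    linarith
  unfold q1box
  rw [← mul_assoc, mul_one_div_cancel hn0, one_mul]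

lemma tendsto_box {s : ℝ} (hs : 0 < s) :
    Tendsto (fun n : ℕ => (n : ℝ) * q1box n ((n : ℝ) ^ 2 * s)) atTop (𝓝 (vth s)) := by
  have hpi := Real.pi_pos
  have hexp : Real.exp (-s) < 1 := by rw [Real.exp_lt_one_iff]; linarith
  have hsum : Summable fun j : ℕ => Real.exp (-(s / 2)) * Real.exp (-s) ^ j :=
    (summable_geometric_of_lt_one (Real.exp_pos _).le hexp).mul_left _
  have h := tendsto_tsum_of_dominated_convergence (𝓕 := atTop)
    (f := fun (n : ℕ) (j : ℕ) => if j < n then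
      Real.exp (-((n : ℝ) ^ 2 * s) * (1 - Real.cos (Real.pi * (2 * j + 1) / (2 * n)))) else 0)
    (g := fun j : ℕ => Real.exp (-s * (Real.pi ^ 2 * (2 * j + 1) ^ 2 / 8)))
    hsum ?_ ?_
  · refine h.congr' ?_
    filter_upwards [eventually_ge_atTop 1] with n hn
    rw [mul_q1box n hn, tsum_eq_sum (s := Finset.range n)]
    · refine Finset.sum_congr rfl fun j hj => ?_
      rw [if_pos (Finset.mem_range.mp hj)]
    · intro j hj
      rw [if_neg (fun h => hj (Finset.mem_range.mpr h))]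
  · intro j
    have hss : 0 < Real.sqrt s := Real.sqrt_pos.mpr hs
    have ht : Tendsto (fun n : ℕ => (n : ℝ) ^ 2 * s) atTop atTop :=
      ((tendsto_pow_atTop (by norm_num)).comp tendsto_natCast_atTop_atTop).atTop_mul_const hs
    have h1 := (tendsto_one_sub_cos (Real.pi * (2 * j + 1) / 2 * Real.sqrt s)).comp ht
    have h2 := (Real.continuous_exp.tendsto _).comp h1
    have e : Real.exp (-(Real.pi * (2 * j + 1) / 2 * Real.sqrt s) ^ 2 / 2) =
        Real.exp (-s * (Real.pi ^ 2 * (2 * j + 1) ^ 2 / 8)) := by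
      congr 1
      rw [mul_pow, Real.sq_sqrt hs.le]
      ring
    rw [e] at h2
    refine h2.congr' ?_
    filter_upwards [eventually_gt_atTop j, eventually_ge_atTop 1] with n hn hn1
    have hn0 : (0 : ℝ) < n := by exact_mod_cast hn1
    rw [if_pos hn]
    simp only [Function.comp]
    congr 4
    rw [Real.sqrt_mul (by positivity), Real.sqrt_sq hn0.le]
    field_simp
  · filter_upwards [eventually_ge_atTop 1] with n hn j
    split_ifs with h
    · rw [Real.norm_of_nonneg (Real.exp_pos _).le]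
      exact (box_term_le hn hs.le h).trans (exp_term_le hs.le j)
    · rw [norm_zero]
      positivity

lemma box_le {n : ℕ} (hn : 1 ≤ n) {s : ℝ} (hs : 1 ≤ s) :
    (n : ℝ) * q1box n ((n : ℝ) ^ 2 * s) ≤ 2 / Real.sqrt s := by
  have hs0 : 0 < s := by linarith
  have hexp : Real.exp (-s) ≤ 1 / 2 := by
    have h1 : Real.exp (-s) ≤ Real.exp (-1) := Real.exp_le_exp.mpr (by linarith)
    have h2 : Real.exp (-1) ≤ 1 / 2 := by
      rw [Real.exp_neg, one_div]
      apply inv_anti₀ (by norm_num)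
      have := Real.add_one_le_exp (1 : ℝ)
      linarith
    exact h1.trans h2
  have hexp0 := Real.exp_pos (-s)
  rw [mul_q1box n hn]
  have hg : HasSum (fun j : ℕ => Real.exp (-(s / 2)) * Real.exp (-s) ^ j)
      (Real.exp (-(s / 2)) * (1 - Real.exp (-s))⁻¹) :=
    (hasSum_geometric_of_lt_one hexp0.le (by linarith)).mul_left _
  calc ∑ j ∈ Finset.range n,
      Real.exp (-((n : ℝ) ^ 2 * s) * (1 - Real.cos (Real.pi * (2 * j + 1) / (2 * n))))
      ≤ ∑ j ∈ Finset.range n, Real.exp (-(s / 2)) * Real.exp (-s) ^ j := by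
        apply Finset.sum_le_sum
        intro j hj
        exact (box_term_le hn hs0.le (Finset.mem_range.mp hj)).trans (exp_term_le hs0.le j)
    _ ≤ Real.exp (-(s / 2)) * (1 - Real.exp (-s))⁻¹ :=
        sum_le_hasSum _ (fun j _ => by positivity) hg
    _ ≤ Real.exp (-(s / 2)) * 2 := by
        gcongr
        rw [inv_le_comm₀ (by linarith) (by norm_num)]
        linarith
    _ ≤ 2 / Real.sqrt s := by
        rw [Real.exp_neg, ← div_eq_inv_mul]
        apply div_le_div_of_nonneg_left (by norm_num) (Real.sqrt_pos.mpr hs0)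
        have h1 := Real.add_one_le_exp (s / 2)
        have h2 : Real.sqrt s ≤ s / 2 + 1 := by
          rw [Real.sqrt_le_left (by positivity)]
          nlinarith
        linarith

lemma q1box_nonneg (n : ℕ) (t : ℝ) : 0 ≤ q1box n t := by
  unfold q1box
  positivity

lemma continuous_q1box (n : ℕ) : Continuous (q1box n) := by
  unfold q1box
  fun_prop

/-- the dominating constant -/
noncomputable def boxC (d : ℕ) : ℝ :=
  ((d : ℝ) * (q1C + 1) ^ d * q1C * (Real.exp 1 * d.factorial) + (q1C + 2) ^ d * 2) * 2 ^ d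

lemma box_int_bound (d : ℕ) {n : ℕ} (hn : 1 ≤ n) {s : ℝ} (hs : 0 < s) :
    |((n : ℝ) * q1 ((n : ℝ) ^ 2 * s) 0) ^ d - ((n : ℝ) * q1box n ((n : ℝ) ^ 2 * s)) ^ d| ≤
      boxC d * (1 + s) ^ (-((d : ℝ) / 2)) := by
  have hC := q1C_pos
  have hn0 : (0 : ℝ) < n := by exact_mod_cast hn
  set t := (n : ℝ) ^ 2 * s with ht
  have ht0 : 0 ≤ t := by positivity
  set a := (n : ℝ) * q1 t 0 with ha
  set b := (n : ℝ) * q1box n t with hb
  have hb0 : 0 ≤ b := mul_nonneg hn0.le (q1box_nonneg n t)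
  have hsq : 0 < Real.sqrt (1 + t) := Real.sqrt_pos.mpr (by linarith)
  set y := (n : ℝ) / Real.sqrt (1 + t) with hy
  have hy0 : 0 < y := by positivity
  have ha1 : |a| ≤ q1C * y := by
    rw [ha, abs_mul, abs_of_pos hn0]
    calc (n : ℝ) * |q1 t 0| ≤ n * (q1C / Real.sqrt (1 + t) *
          Real.exp (-|((0 : ℤ) : ℝ)| / Real.sqrt (1 + t))) := by
          gcongr
          exact abs_q1_le t ht0 0
      _ = q1C * y := by
          rw [hy]; simp; ring
  have hys : y ≤ 1 / Real.sqrt s := by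
    rw [hy, div_le_div_iff₀ hsq (Real.sqrt_pos.mpr hs), one_mul]
    calc n * Real.sqrt s = Real.sqrt ((n : ℝ) ^ 2 * s) := by
          rw [Real.sqrt_mul (by positivity), Real.sqrt_sq hn0.le]
      _ ≤ Real.sqrt (1 + t) := Real.sqrt_le_sqrt (by linarith)
  -- difference
  have hdiff : |a - b| ≤ q1C * Real.exp (-y) := by
    have h1 := abs_q1box_sub_le hn ht0
    have e1 : (2 * n / Real.sqrt (1 + t)) = 2 * y := by rw [hy]; ring
    rw [e1] at h1
    have e2 : |a - b| = n * |q1box n t - q1 t 0| := by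
      rw [ha, hb, ← mul_sub, abs_mul, abs_of_pos hn0, abs_sub_comm]
    rw [e2]
    -- exp(-2y)/(1-exp(-2y)) ≤ exp(-y)/(2y)
    have h2 : Real.exp (-(2 * y)) / (1 - Real.exp (-(2 * y))) ≤ Real.exp (-y) / (2 * y) := by
      have h3 : Real.exp (-(2 * y)) < 1 := by rw [Real.exp_lt_one_iff]; linarith
      rw [div_le_div_iff₀ (by linarith) (by linarith)]
      have h4 : Real.exp (-(2 * y)) = Real.exp (-y) * Real.exp (-y) := by
        rw [← Real.exp_add]; congr 1; ring
      rw [h4]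
      have h5 : 2 * y ≤ Real.exp y - Real.exp (-y) := by
        have := Real.self_le_sinh_iff.mpr hy0.le
        rw [Real.sinh_eq] at this
        linarith
      have h6 : Real.exp (-y) * Real.exp y = 1 := by
        rw [← Real.exp_add]; simp
      have h7 := Real.exp_pos (-y)
      have h8 : Real.exp (-y) * (2 * y) ≤ 1 - Real.exp (-y) * Real.exp (-y) := by
        calc Real.exp (-y) * (2 * y) ≤ Real.exp (-y) * (Real.exp y - Real.exp (-y)) := by gcongr
          _ = 1 - Real.exp (-y) * Real.exp (-y) := by rw [mul_sub, h6]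
      calc Real.exp (-y) * Real.exp (-y) * (2 * y) = Real.exp (-y) * (Real.exp (-y) * (2 * y)) := by
            ring
        _ ≤ Real.exp (-y) * (1 - Real.exp (-y) * Real.exp (-y)) := by gcongr
    calc n * |q1box n t - q1 t 0| ≤ n * (2 * (q1C / Real.sqrt (1 + t)) *
          (Real.exp (-(2 * y)) / (1 - Real.exp (-(2 * y))))) := by gcongr
      _ ≤ n * (2 * (q1C / Real.sqrt (1 + t)) * (Real.exp (-y) / (2 * y))) := by gcongr
      _ = q1C * Real.exp (-y) := by
          rw [show (n : ℝ) * (2 * (q1C / Real.sqrt (1 + t)) * (Real.exp (-y) / (2 * y))) =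
            q1C * Real.exp (-y) * ((n / Real.sqrt (1 + t)) / y) by ring, ← hy, div_self hy0.ne',
            mul_one]
  rw [← sqrt_pow_eq_rpow (by linarith)]
  have hexpy : Real.exp (-y) ≤ 1 := by rw [Real.exp_le_one_iff]; linarith
  have hP1 : 0 ≤ (d : ℝ) * (q1C + 1) ^ d * q1C * (Real.exp 1 * d.factorial) := by positivity
  have hP2 : 0 ≤ (q1C + 2) ^ d * 2 := by positivity
  rcases le_total s 1 with h | h
  · -- small s
    have h6 : (1 : ℝ) ≤ 2 ^ d * (1 / Real.sqrt (1 + s)) ^ d := by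
      rw [← mul_pow]
      apply one_le_pow₀
      rw [mul_one_div, le_div_iff₀ (Real.sqrt_pos.mpr (by linarith)), one_mul]
      rw [Real.sqrt_le_left (by norm_num)]
      linarith
    have hM : 1 ≤ (q1C + 1) * (1 + y) := by nlinarith
    have hb1 : |b| ≤ (q1C + 1) * (1 + y) := by
      have e1 : b = a - (a - b) := by ring
      rw [e1]
      refine (abs_sub _ _).trans ?_
      nlinarith
    have ha2 : |a| ≤ (q1C + 1) * (1 + y) := by nlinarith
    have h1 := abs_prod_sub_prod_le (Finset.univ : Finset (Fin d)) (fun _ => a) (fun _ => b) hM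
      (e := q1C * Real.exp (-y)) (by positivity) (fun _ _ => ha2) (fun _ _ => hb1)
      (fun _ _ => hdiff)
    simp only [Finset.prod_const, Finset.card_univ, Fintype.card_fin] at h1
    have h2 : (1 + y) ^ d * Real.exp (-y) ≤ Real.exp 1 * d.factorial := by
      have := pow_mul_exp_neg_le d (y := 1 + y) (by linarith)
      have e : Real.exp (-y) = Real.exp 1 * Real.exp (-(1 + y)) := by
        rw [← Real.exp_add]; congr 1; ring
      rw [e]
      calc (1 + y) ^ d * (Real.exp 1 * Real.exp (-(1 + y))) =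
          Real.exp 1 * ((1 + y) ^ d * Real.exp (-(1 + y))) := by ring
        _ ≤ _ := by gcongr
    calc |a ^ d - b ^ d| ≤ d * ((q1C + 1) * (1 + y)) ^ d * (q1C * Real.exp (-y)) := h1
      _ = (d : ℝ) * (q1C + 1) ^ d * q1C * ((1 + y) ^ d * Real.exp (-y)) := by
          rw [mul_pow]; ring
      _ ≤ (d : ℝ) * (q1C + 1) ^ d * q1C * (Real.exp 1 * d.factorial) := by gcongr
      _ ≤ ((d : ℝ) * (q1C + 1) ^ d * q1C * (Real.exp 1 * d.factorial) + (q1C + 2) ^ d * 2) * 1 := by
          linarith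
      _ ≤ ((d : ℝ) * (q1C + 1) ^ d * q1C * (Real.exp 1 * d.factorial) + (q1C + 2) ^ d * 2) *
          (2 ^ d * (1 / Real.sqrt (1 + s)) ^ d) := by gcongr
      _ = _ := by unfold boxC; ring
  · -- large s
    have hss : 0 < Real.sqrt s := Real.sqrt_pos.mpr hs
    have h1 : 1 / Real.sqrt s ≤ 2 * (1 / Real.sqrt (1 + s)) := by
      rw [mul_one_div, div_le_div_iff₀ (Real.sqrt_pos.mpr hs)
        (Real.sqrt_pos.mpr (by linarith)), one_mul]
      rw [Real.sqrt_le_left (by positivity), mul_pow, Real.sq_sqrt hs.le]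
      linarith
    have ha3 : |a| ≤ (q1C + 2) * (1 / Real.sqrt s) := by
      calc |a| ≤ q1C * y := ha1
        _ ≤ q1C * (1 / Real.sqrt s) := by gcongr
        _ ≤ _ := by
          have : 0 < 1 / Real.sqrt s := by positivity
          nlinarith
    have hb3 : |b| ≤ (q1C + 2) * (1 / Real.sqrt s) := by
      rw [abs_of_nonneg hb0]
      calc b ≤ 2 / Real.sqrt s := box_le hn h
        _ ≤ _ := by
          have : 0 < 1 / Real.sqrt s := by positivity
          rw [show 2 / Real.sqrt s = 2 * (1 / Real.sqrt s) by ring]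
          nlinarith
    calc |a ^ d - b ^ d| ≤ |a ^ d| + |b ^ d| := abs_sub _ _
      _ = |a| ^ d + |b| ^ d := by rw [abs_pow, abs_pow]
      _ ≤ ((q1C + 2) * (1 / Real.sqrt s)) ^ d + ((q1C + 2) * (1 / Real.sqrt s)) ^ d := by gcongr
      _ = (q1C + 2) ^ d * 2 * (1 / Real.sqrt s) ^ d := by rw [mul_pow]; ring
      _ ≤ (q1C + 2) ^ d * 2 * (2 * (1 / Real.sqrt (1 + s))) ^ d := by gcongr
      _ ≤ ((d : ℝ) * (q1C + 1) ^ d * q1C * (Real.exp 1 * d.factorial) + (q1C + 2) ^ d * 2) *
          (2 * (1 / Real.sqrt (1 + s))) ^ d := by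
          gcongr
          linarith
      _ = _ := by unfold boxC; rw [mul_pow]; ring

/-- the limit function -/
noncomputable def bLim (d : ℕ) (s : ℝ) : ℝ :=
  ((Real.sqrt s)⁻¹ * (Real.sqrt (2 * Real.pi))⁻¹) ^ d - vth s ^ d

lemma tendsto_boxInt (d : ℕ) {s : ℝ} (hs : 0 < s) :
    Tendsto (fun n : ℕ => ((n : ℝ) * q1 ((n : ℝ) ^ 2 * s) 0) ^ d -
      ((n : ℝ) * q1box n ((n : ℝ) ^ 2 * s)) ^ d) atTop (𝓝 (bLim d s)) := by
  unfold bLim
  apply Tendsto.sub _ ((tendsto_box hs).pow d)
  apply Tendsto.pow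
  have hss : 0 < Real.sqrt s := Real.sqrt_pos.mpr hs
  have ht : Tendsto (fun n : ℕ => (n : ℝ) ^ 2 * s) atTop atTop :=
    ((tendsto_pow_atTop (by norm_num)).comp tendsto_natCast_atTop_atTop).atTop_mul_const hs
  have hE := tendsto_errq.comp ht
  have h1 : Tendsto (fun n : ℕ => Real.sqrt ((n : ℝ) ^ 2 * s) * q1 ((n : ℝ) ^ 2 * s) 0) atTop
      (𝓝 (Real.sqrt (2 * Real.pi))⁻¹) := by
    rw [tendsto_iff_norm_sub_tendsto_zero]
    refine squeeze_zero' (Eventually.of_forall fun t => norm_nonneg _) ?_ hE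
    filter_upwards [eventually_ge_atTop 1] with n hn
    have hn0 : (0 : ℝ) < n := by exact_mod_cast hn
    have := local_limit (t := (n : ℝ) ^ 2 * s) (by positivity) 0
    simpa using this
  have h2 := h1.const_mul (Real.sqrt s)⁻¹
  refine h2.congr' ?_
  filter_upwards [eventually_ge_atTop 1] with n hn
  have hn0 : (0 : ℝ) < n := by exact_mod_cast hn
  rw [Real.sqrt_mul (by positivity), Real.sqrt_sq hn0.le]
  field_simp

theorem q1_box_asymp (d : ℕ) (hd : 3 ≤ d) :
    ∃ κ : ℝ, 0 < κ ∧ Tendsto (fun n : ℕ => (n : ℝ) ^ (d - 2) *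
      ∫ t in Set.Ioi (0 : ℝ), (q1 (t / d) 0 ^ d - q1box n (t / d) ^ d)) atTop (𝓝 κ) := by
  have hd0 : (0 : ℝ) < d := by
    have : (3 : ℝ) ≤ d := by exact_mod_cast hd
    linarith
  have hd' : (1 : ℝ) < (d : ℝ) / 2 := by
    have : (3 : ℝ) ≤ d := by exact_mod_cast hd
    linarith
  have hdom := (integrableOn_dom hd').const_mul (boxC d)
  have hblim_bound : ∀ s ∈ Ioi (0:ℝ), |bLim d s| ≤ boxC d * (1 + s) ^ (-((d : ℝ) / 2)) := by
    intro s hs
    refine le_of_tendsto (tendsto_boxInt d hs).abs ?_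
    filter_upwards [eventually_ge_atTop 1] with n hn
    exact box_int_bound d hn hs
  have hmeas : ∀ n : ℕ, Continuous fun s : ℝ => ((n : ℝ) * q1 ((n : ℝ) ^ 2 * s) 0) ^ d -
      ((n : ℝ) * q1box n ((n : ℝ) ^ 2 * s)) ^ d := by
    intro n
    have h1 := continuous_q1 0
    have h2 := continuous_q1box n
    fun_prop
  have hbmeas : Measurable (bLim d) := by
    unfold bLim vth
    apply Measurable.sub
    · fun_prop
    · apply Measurable.pow_const
      apply Measurable.tsum
      intro j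
      fun_prop
  have hbint : IntegrableOn (bLim d) (Ioi 0) := by
    apply Integrable.mono' hdom hbmeas.aestronglyMeasurable
    exact (ae_restrict_iff' measurableSet_Ioi).mpr (Eventually.of_forall fun s hs =>
      hblim_bound s hs)
  have hblim_pos : ∀ s ∈ Ioi (0:ℝ), 0 < bLim d s := by
    intro s hs
    unfold bLim
    have := pow_lt_pow_left₀ (vth_lt hs) (vth_nonneg s) (show d ≠ 0 by omega)
    linarith
  have hpos : 0 < ∫ s in Ioi (0:ℝ), bLim d s := by
    rw [setIntegral_pos_iff_support_of_nonneg_ae]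
    · have : Function.support (bLim d) ∩ Ioi 0 = Ioi 0 := by
        apply inter_eq_self_of_subset_right
        intro s hs
        exact (hblim_pos s hs).ne'
      rw [this, Real.volume_Ioi]
      exact ENNReal.zero_lt_top
    · exact (ae_restrict_iff' measurableSet_Ioi).mpr (Eventually.of_forall fun s hs =>
        (hblim_pos s hs).le)
    · exact hbint
  have htend : Tendsto (fun n : ℕ => ∫ s in Ioi (0:ℝ), (((n : ℝ) * q1 ((n : ℝ) ^ 2 * s) 0) ^ d -
      ((n : ℝ) * q1box n ((n : ℝ) ^ 2 * s)) ^ d)) atTop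
      (𝓝 (∫ s in Ioi (0:ℝ), bLim d s)) := by
    apply tendsto_integral_filter_of_dominated_convergence _ _ _ hdom
    · exact (ae_restrict_iff' measurableSet_Ioi).mpr (Eventually.of_forall fun s hs =>
        tendsto_boxInt d hs)
    · exact Eventually.of_forall fun n => (hmeas n).aestronglyMeasurable
    · filter_upwards [eventually_ge_atTop 1] with n hn
      exact (ae_restrict_iff' measurableSet_Ioi).mpr
        (Eventually.of_forall fun s hs => box_int_bound d hn hs)
  refine ⟨d * ∫ s in Ioi (0:ℝ), bLim d s, by positivity, ?_⟩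
  refine (htend.const_mul (d : ℝ)).congr' ?_
  filter_upwards [eventually_ge_atTop 1] with n hn
  have hn0 : (0 : ℝ) < n := by exact_mod_cast hn
  have hb : 0 < (d : ℝ) * (n : ℝ) ^ 2 := by positivity
  have h := integral_comp_mul_left_Ioi' (fun t : ℝ => q1 (t / d) 0 ^ d - q1box n (t / d) ^ d) 0 hb
  rw [mul_zero, smul_eq_mul] at h
  rw [← h]
  have h2 : ∀ s : ℝ, (d : ℝ) * (n : ℝ) ^ 2 * s / d = (n : ℝ) ^ 2 * s := by
    intro s
    field_simp
  simp_rw [h2, mul_pow, ← mul_sub]
  rw [integral_const_mul]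
  obtain ⟨m, rfl⟩ : ∃ m, d = m + 2 := ⟨d - 2, by omega⟩
  rw [Nat.add_sub_cancel]
  ring

end Pool.Agent.LoopPerc
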