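import Pool.Agent.LoopPerc.Walk

/-!
# Fourier formulas for the transition probabilities of simple random walk
-/

namespace Pool.Agent.LoopPerc

open MeasureTheory ProbabilityTheory Filter Topology Set
open scoped ENNReal NNReal Real

/-- the uniform probability measure on `(-π, π]` -/
noncomputable def nu : Measure ℝ :=
  ENNReal.ofReal (2 * π)⁻¹ • (volume.restrict (Ioc (-π) π))

lemma nu_univ : nu univ = 1 := by
  simp only [nu, Measure.smul_apply, Measure.restrict_apply MeasurableSet.univ, univ_inter,
    Real.volume_Ioc, smul_eq_mul]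
  rw [← ENNReal.ofReal_mul (by positivity)]
  rw [show (2 * π)⁻¹ * (π - -π) = 1 by field_simp; ring]
  simp

instance : IsProbabilityMeasure nu := ⟨nu_univ⟩

/-- product measure -/
noncomputable def nuP (d : ℕ) : Measure (Fin d → ℝ) := Measure.pi (fun _ => nu)

instance (d : ℕ) : IsProbabilityMeasure (nuP d) := by unfold nuP; infer_instance

lemma integral_nu (f : ℝ → ℝ) : ∫ θ, f θ ∂nu = (2 * π)⁻¹ * ∫ θ in (-π)..π, f θ := by
  rw [nu, integral_smul_measure, intervalIntegral.integral_of_le (by linarith [Real.pi_pos])]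
  simp [ENNReal.toReal_ofReal, Real.pi_pos.le]

lemma integral_nu_complex (f : ℝ → ℂ) :
    ∫ θ, f θ ∂nu = ((2 * π)⁻¹ : ℝ) • ∫ θ in (-π)..π, f θ := by
  rw [nu, integral_smul_measure, intervalIntegral.integral_of_le (by linarith [Real.pi_pos])]
  rw [ENNReal.toReal_ofReal (by positivity)]

lemma q1_eq (t : ℝ) (k : ℤ) :
    q1 t k = ∫ θ, Real.cos (k * θ) * Real.exp (-t * (1 - Real.cos θ)) ∂nu := by
  rw [integral_nu]; rfl

lemma integral_cos_nu (k : ℤ) : ∫ θ, Real.cos (k * θ) ∂nu = if k = 0 then 1 else 0 := by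
  rw [integral_nu]
  by_cases hk : k = 0
  · subst hk
    simp
    field_simp
    ring
  · have hk' : (k : ℝ) ≠ 0 := by exact_mod_cast hk
    rw [intervalIntegral.integral_comp_mul_left (fun x => Real.cos x) hk', integral_cos]
    simp [hk, Real.sin_int_mul_pi]

lemma integral_exp_nu (k : ℤ) :
    ∫ θ : ℝ, Complex.exp ((k * θ : ℝ) * Complex.I) ∂nu = if k = 0 then 1 else 0 := by
  have hre : ∀ θ : ℝ, Complex.exp ((k * θ : ℝ) * Complex.I) =
      ((Real.cos (k * θ) : ℝ) : ℂ) + ((Real.sin (k * θ) : ℝ) : ℂ) * Complex.I := by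
    intro θ
    rw [Complex.exp_mul_I]
    push_cast
    ring
  simp_rw [hre]
  rw [integral_add, integral_mul_const, integral_complex_ofReal, integral_complex_ofReal,
    integral_cos_nu, integral_nu]
  · have : ∫ θ in (-π)..π, Real.sin (k * θ) = 0 := by
      by_cases hk : k = 0
      · subst hk; simp
      · have hk' : (k : ℝ) ≠ 0 := by exact_mod_cast hk
        rw [intervalIntegral.integral_comp_mul_left (fun x => Real.sin x) hk', integral_sin]
        simp
    rw [this]
    split_ifs <;> simp
  · apply Integrable.of_bound (C := 1)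
    · fun_prop
    · filter_upwards with θ
      rw [Complex.norm_real]
      exact Real.abs_cos_le_one _
  · apply Integrable.of_bound (C := 1)
    · fun_prop
    · filter_upwards with θ
      rw [norm_mul, Complex.norm_real]
      simpa using Real.abs_sin_le_one _

/-- the characteristic function of a step -/
noncomputable def phi {d : ℕ} (θ : Fin d → ℝ) : ℝ := (∑ i, Real.cos (θ i)) / d

lemma continuous_phi {d : ℕ} : Continuous (phi (d := d)) := by
  unfold phi; fun_prop

lemma abs_phi_le {d : ℕ} (θ : Fin d → ℝ) : |phi θ| ≤ 1 := by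
  unfold phi
  rw [abs_div]
  rcases Nat.eq_zero_or_pos d with rfl | hd
  · simp
  rw [div_le_one (by simpa using hd)]
  calc |∑ i, Real.cos (θ i)| ≤ ∑ i : Fin d, |Real.cos (θ i)| := Finset.abs_sum_le_sum_abs _ _
    _ ≤ ∑ i : Fin d, 1 := Finset.sum_le_sum fun i _ => Real.abs_cos_le_one _
    _ = |(d : ℝ)| := by simp

lemma kern_le_one {d : ℕ} (D : Set (Lat d)) (m : ℕ) (x y : Lat d) : kern D m x y ≤ 1 := by
  induction m generalizing x with
  | zero => simp only [kern]; split_ifs <;> simp
  | succ m ih =>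
    simp only [kern]
    split_ifs
    · calc ∑ e : Step d, (2 * (d : ℝ≥0∞))⁻¹ * kern D m (x + stepVec e) y
          ≤ ∑ e : Step d, (2 * (d : ℝ≥0∞))⁻¹ * 1 :=
            Finset.sum_le_sum fun e _ => mul_le_mul_right (ih _) _
        _ = (2 * d : ℝ≥0∞) * (2 * (d : ℝ≥0∞))⁻¹ := by
            simp [mul_comm]
        _ ≤ 1 := ENNReal.mul_inv_le_one _
    · simp

lemma kern_ne_top {d : ℕ} (D : Set (Lat d)) (m : ℕ) (x y : Lat d) : kern D m x y ≠ ⊤ :=
  ne_top_of_le_ne_top ENNReal.one_ne_top (kern_le_one D m x y)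

open Classical in
lemma kern_toReal_zero {d : ℕ} (D : Set (Lat d)) (x y : Lat d) :
    (kern D 0 x y).toReal = if x = y ∧ x ∈ D then 1 else 0 := by
  simp only [kern]; split_ifs <;> simp

open Classical in
lemma kern_toReal_succ {d : ℕ} (D : Set (Lat d)) (m : ℕ) (x y : Lat d) :
    (kern D (m + 1) x y).toReal = if x ∈ D then
      ∑ e : Step d, (2 * (d : ℝ))⁻¹ * (kern D m (x + stepVec e) y).toReal else 0 := by
  simp only [kern]
  split_ifs
  · rw [ENNReal.toReal_sum]
    · refine Finset.sum_congr rfl fun e _ => ?_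
      rw [ENNReal.toReal_mul, ENNReal.toReal_inv]
      simp
    · intro e _
      have hd : (d : ℝ≥0∞) ≠ 0 := by
        have := e.1.pos
        simp; omega
      exact ENNReal.mul_ne_top (by simp [hd]) (kern_ne_top _ _ _ _)
  · simp

/-- sum over the steps -/
lemma sum_step {d : ℕ} {α : Type*} [AddCommMonoid α] (f : Step d → α) :
    ∑ e : Step d, f e = ∑ i : Fin d, (f (i, true) + f (i, false)) := by
  rw [Fintype.sum_prod_type]
  simp

lemma cosprod_step {d : ℕ} (θ : Fin d → ℝ) (k : Lat d) (i : Fin d) :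
    ∏ j, Real.cos ((k - stepVec (i, true)) j * θ j) +
      ∏ j, Real.cos ((k - stepVec (i, false)) j * θ j) =
      2 * Real.cos (θ i) * ∏ j, Real.cos (k j * θ j) := by
  have h : ∀ b : Bool, ∏ j, Real.cos ((k - stepVec (i, b)) j * θ j) =
      Real.cos ((k i - if b then 1 else -1 : ℤ) * θ i) *
        ∏ j ∈ Finset.univ.erase i, Real.cos (k j * θ j) := by
    intro b
    rw [← Finset.mul_prod_erase Finset.univ _ (Finset.mem_univ i)]
    congr 1
    · simp [stepVec]
    · refine Finset.prod_congr rfl fun j hj => ?_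
      have : j ≠ i := Finset.ne_of_mem_erase hj
      simp [stepVec, Pi.single_eq_of_ne this]
  rw [h, h, ← add_mul, ← Finset.mul_prod_erase Finset.univ _ (Finset.mem_univ i)]
  simp only [if_true, Bool.false_eq_true, if_false]
  push_cast
  have h1 : ((k i : ℝ) - 1) * θ i = k i * θ i - θ i := by ring
  have h2 : ((k i : ℝ) - -1) * θ i = k i * θ i + θ i := by ring
  rw [h1, h2, Real.cos_sub, Real.cos_add]
  ring

lemma sum_cosprod_step {d : ℕ} (hd : 1 ≤ d) (θ : Fin d → ℝ) (k : Lat d) :
    ∑ e : Step d, (2 * (d : ℝ))⁻¹ * ∏ j, Real.cos ((k - stepVec e) j * θ j) =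
      phi θ * ∏ j, Real.cos (k j * θ j) := by
  rw [← Finset.mul_sum, sum_step]
  simp_rw [cosprod_step]
  rw [← Finset.sum_mul, ← Finset.mul_sum, phi]
  have : (d : ℝ) ≠ 0 := by positivity
  field_simp

lemma cosin_step {d : ℕ} (θ : Fin d → ℝ) (k : Lat d) (i : Fin d) :
    Real.cos (∑ j, (k - stepVec (i, true)) j * θ j) +
      Real.cos (∑ j, (k - stepVec (i, false)) j * θ j) =
      2 * Real.cos (θ i) * Real.cos (∑ j, k j * θ j) := by
  have h : ∀ b : Bool, ∑ j, ((k - stepVec (i, b)) j : ℝ) * θ j =
      ∑ j, (k j : ℝ) * θ j - (if b then 1 else -1) * θ i := by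
    intro b
    have h2 : ∀ j, (((k - stepVec (i, b)) j : ℤ) : ℝ) * θ j =
        (k j : ℝ) * θ j - (if j = i then (if b then 1 else -1) * θ i else 0) := by
      intro j
      by_cases hj : j = i
      · subst hj
        simp [stepVec]
        split_ifs <;> ring
      · simp [stepVec, hj]
    simp_rw [h2]
    rw [Finset.sum_sub_distrib]
    simp
  rw [h, h]
  simp only [if_true, Bool.false_eq_true, if_false]
  have h1 : ∑ j, (k j : ℝ) * θ j - 1 * θ i = ∑ j, (k j : ℝ) * θ j - θ i := by ring
  have h2 : ∑ j, (k j : ℝ) * θ j - -1 * θ i = ∑ j, (k j : ℝ) * θ j + θ i := by ring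
  rw [h1, h2, Real.cos_sub, Real.cos_add]
  ring

lemma sum_cosin_step {d : ℕ} (hd : 1 ≤ d) (θ : Fin d → ℝ) (k : Lat d) :
    ∑ e : Step d, (2 * (d : ℝ))⁻¹ * Real.cos (∑ j, (k - stepVec e) j * θ j) =
      phi θ * Real.cos (∑ j, k j * θ j) := by
  rw [← Finset.mul_sum, sum_step]
  simp_rw [cosin_step]
  rw [← Finset.sum_mul, ← Finset.mul_sum, phi]
  have : (d : ℝ) ≠ 0 := by positivity
  field_simp

lemma integrable_of_cont_bdd {d : ℕ} {f : (Fin d → ℝ) → ℝ} (hf : Continuous f) (C : ℝ)
    (hC : ∀ θ, |f θ| ≤ C) : Integrable f (nuP d) :=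
  Integrable.of_bound (C := C) hf.aestronglyMeasurable (by simpa using Eventually.of_forall hC)

lemma abs_cosprod_le {d : ℕ} (k : Lat d) (θ : Fin d → ℝ) :
    |∏ j, Real.cos (k j * θ j)| ≤ 1 := by
  rw [Finset.abs_prod]
  exact Finset.prod_le_one (fun i _ => abs_nonneg _) fun i _ => Real.abs_cos_le_one _

/-- Fourier formula, product form. -/
theorem kern_univ_eq {d : ℕ} (hd : 1 ≤ d) (m : ℕ) (x y : Lat d) :
    (kern univ m x y).toReal =
      ∫ θ, (∏ j, Real.cos ((y - x) j * θ j)) * phi θ ^ m ∂(nuP d) := by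
  induction m generalizing x with
  | zero =>
    rw [kern_toReal_zero]
    simp only [mem_univ, and_true, pow_zero, mul_one]
    rw [nuP, integral_fintype_prod_eq_prod (f := fun (j : Fin d) (θ : ℝ) => Real.cos (((y - x) j : ℤ) * θ))]
    simp_rw [integral_cos_nu]
    rw [Finset.prod_ite_zero]
    simp only [Finset.prod_const_one]
    congr 1
    rw [eq_iff_iff]
    constructor
    · rintro rfl i _
      simp
    · intro h
      funext i
      have := h i (Finset.mem_univ i)
      simp at this
      omega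
  | succ m ih =>
    rw [kern_toReal_succ]
    simp only [mem_univ, if_true]
    simp_rw [ih, ← integral_const_mul]
    rw [← integral_finsetSum]
    · refine integral_congr_ae (Eventually.of_forall fun θ => ?_)
      simp only
      have h := sum_cosprod_step hd θ (y - x)
      calc ∑ e : Step d, (2 * (d : ℝ))⁻¹ *
            ((∏ j, Real.cos (((y - (x + stepVec e)) j : ℤ) * θ j)) * phi θ ^ m)
          = (∑ e : Step d, (2 * (d : ℝ))⁻¹ *
            (∏ j, Real.cos (((y - x - stepVec e) j : ℤ) * θ j))) * phi θ ^ m := by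
            rw [Finset.sum_mul]
            refine Finset.sum_congr rfl fun e _ => ?_
            rw [sub_add_eq_sub_sub]
            ring
        _ = _ := by rw [h]; ring
    · intro e _
      apply integrable_of_cont_bdd (C := |(2 * (d : ℝ))⁻¹|)
      · have := continuous_phi (d := d)
        fun_prop
      · intro θ
        rw [abs_mul, abs_mul, abs_pow]
        calc _ ≤ |(2 * (d : ℝ))⁻¹| * (1 * 1) := by
              gcongr
              · exact abs_cosprod_le _ _
              · exact pow_le_one₀ (abs_nonneg _) (abs_phi_le _)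
          _ = _ := by ring

/-- Fourier formula, inner product form. -/
theorem kern_univ_eq' {d : ℕ} (hd : 1 ≤ d) (m : ℕ) (x y : Lat d) :
    (kern univ m x y).toReal =
      ∫ θ, Real.cos (∑ j, (y - x) j * θ j) * phi θ ^ m ∂(nuP d) := by
  induction m generalizing x with
  | zero =>
    rw [kern_toReal_zero]
    simp only [mem_univ, and_true, pow_zero, mul_one]
    have h1 : ∀ θ : Fin d → ℝ, Real.cos (∑ j, (y - x) j * θ j) =
        (∏ j, Complex.exp ((((y - x) j : ℤ) * θ j : ℝ) * Complex.I)).re := by
      intro θ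
      rw [← Complex.exp_sum, ← Finset.sum_mul, ← Complex.ofReal_sum, Complex.exp_ofReal_mul_I_re]
    simp_rw [h1]
    have hint : Integrable (fun θ : Fin d → ℝ =>
        ∏ j, Complex.exp ((((y - x) j : ℤ) * θ j : ℝ) * Complex.I)) (nuP d) := by
      apply Integrable.of_bound (C := 1)
      · apply Continuous.aestronglyMeasurable
        fun_prop
      · filter_upwards with θ
        rw [norm_prod]
        simp_rw [Complex.norm_exp_ofReal_mul_I]
        simp
    have h2 := integral_re (𝕜 := ℂ) hint
    simp only [RCLike.re_eq_complex_re] at h2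
    rw [h2, nuP, integral_fintype_prod_eq_prod (𝕜 := ℂ)
      (f := fun (j : Fin d) (θ : ℝ) => Complex.exp ((((y - x) j : ℤ) * θ : ℝ) * Complex.I))]
    simp_rw [integral_exp_nu]
    rw [Finset.prod_ite_zero]
    simp only [Finset.prod_const_one]
    by_cases hxy : x = y
    · subst hxy
      simp
    · rw [if_neg hxy, if_neg]
      · simp
      · intro h
        apply hxy
        funext i
        have := h i (Finset.mem_univ i)
        simp at this
        omega
  | succ m ih =>
    rw [kern_toReal_succ]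
    simp only [mem_univ, if_true]
    simp_rw [ih, ← integral_const_mul]
    rw [← integral_finsetSum]
    · refine integral_congr_ae (Eventually.of_forall fun θ => ?_)
      simp only
      have h := sum_cosin_step hd θ (y - x)
      calc ∑ e : Step d, (2 * (d : ℝ))⁻¹ *
            ((Real.cos (∑ j, ((y - (x + stepVec e)) j : ℤ) * θ j)) * phi θ ^ m)
          = (∑ e : Step d, (2 * (d : ℝ))⁻¹ *
            (Real.cos (∑ j, ((y - x - stepVec e) j : ℤ) * θ j))) * phi θ ^ m := by
            rw [Finset.sum_mul]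
            refine Finset.sum_congr rfl fun e _ => ?_
            rw [sub_add_eq_sub_sub]
            ring
        _ = _ := by rw [h]; ring
    · intro e _
      apply integrable_of_cont_bdd (C := |(2 * (d : ℝ))⁻¹|)
      · have := continuous_phi (d := d)
        fun_prop
      · intro θ
        rw [abs_mul, abs_mul, abs_pow]
        calc _ ≤ |(2 * (d : ℝ))⁻¹| * (1 * 1) := by
              gcongr
              · exact Real.abs_cos_le_one _
              · exact pow_le_one₀ (abs_nonneg _) (abs_phi_le _)
          _ = _ := by ring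

end Pool.Agent.LoopPerc
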