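import Mathlib

/-!
# Asymptotics of tails of series
-/

namespace Pool.Agent.LoopPerc

open Filter Topology Set

/-- ratio of tails -/
lemma tail_ratio (a b : ℕ → ℝ) (hb : ∀ k, 0 < b k) (hbs : Summable b) (L : ℝ)
    (h : Tendsto (fun k => a k / b k) atTop (𝓝 L)) :
    Summable a ∧
    Tendsto (fun K => (∑' k, a (K + k)) / (∑' k, b (K + k))) atTop (𝓝 L) := by
  have key : ∀ ε > 0, ∃ K₀, ∀ k ≥ K₀, |a k - L * b k| ≤ ε * b k := by
    intro ε hε
    obtain ⟨K₀, hK₀⟩ := (Metric.tendsto_atTop.1 h) ε hε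
    refine ⟨K₀, fun k hk => ?_⟩
    have h1 := (hK₀ k hk).le
    rw [Real.dist_eq] at h1
    have h2 : a k - L * b k = (a k / b k - L) * b k := by
      have := (hb k).ne'
      field_simp
    rw [h2, abs_mul, abs_of_pos (hb k)]
    exact mul_le_mul_of_nonneg_right h1 (hb k).le
  have hdiff : Summable fun k => a k - L * b k := by
    obtain ⟨K₀, hK₀⟩ := key 1 one_pos
    refine Summable.of_norm_bounded_eventually_nat (g := b) hbs ?_
    filter_upwards [eventually_ge_atTop K₀] with k hk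
    rw [Real.norm_eq_abs]
    simpa using hK₀ k hk
  have ha : Summable a := by
    have := hdiff.add (hbs.mul_left L)
    simpa using this
  refine ⟨ha, ?_⟩
  rw [Metric.tendsto_atTop]
  intro ε hε
  obtain ⟨K₀, hK₀⟩ := key (ε / 2) (by positivity)
  refine ⟨K₀, fun K hK => ?_⟩
  have hbK : Summable fun k => b (K + k) := by
    simpa [add_comm] using (summable_nat_add_iff K).2 hbs
  have haK : Summable fun k => a (K + k) := by
    simpa [add_comm] using (summable_nat_add_iff K).2 ha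
  have hpos : 0 < ∑' k, b (K + k) := hbK.tsum_pos (fun k => (hb _).le) 0 (hb _)
  rw [Real.dist_eq]
  have h2 : (∑' k, a (K + k)) / (∑' k, b (K + k)) - L =
      (∑' k, (a (K + k) - L * b (K + k))) / ∑' k, b (K + k) := by
    rw [haK.tsum_sub (hbK.mul_left L), tsum_mul_left]
    field_simp
  rw [h2, abs_div, abs_of_pos hpos, div_lt_iff₀ hpos]
  have h3 : |∑' k, (a (K + k) - L * b (K + k))| ≤ ∑' k, ε / 2 * b (K + k) := by
    rw [← Real.norm_eq_abs]
    refine tsum_of_norm_bounded (hbK.mul_left (ε / 2)).hasSum fun k => ?_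
    rw [Real.norm_eq_abs]
    exact hK₀ _ (by omega)
  rw [tsum_mul_left] at h3
  nlinarith

lemma rpow_diff_asymp (β : ℝ) (hβ : 0 < β) :
    Tendsto (fun k : ℕ => ((k : ℝ) + 1) ^ (β + 1) *
      (((k : ℝ) + 1) ^ (-β) - ((k : ℝ) + 2) ^ (-β))) atTop (𝓝 β) := by
  -- mean value theorem
  have hmv : ∀ k : ℕ, ∃ ξ : ℝ, (k : ℝ) + 1 < ξ ∧ ξ < (k : ℝ) + 2 ∧
      ((k : ℝ) + 1) ^ (-β) - ((k : ℝ) + 2) ^ (-β) = β * ξ ^ (-β - 1) := by
    intro k
    have hk : (0 : ℝ) ≤ k := Nat.cast_nonneg k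
    obtain ⟨ξ, hξ, he⟩ := exists_hasDerivAt_eq_slope (fun x : ℝ => x ^ (-β))
      (fun x => -β * x ^ (-β - 1)) (a := (k : ℝ) + 1) (b := (k : ℝ) + 2) (by linarith)
      (by
        refine ContinuousOn.rpow_const continuousOn_id fun x hx => Or.inl ?_
        have := hx.1
        exact ne_of_gt (show (0 : ℝ) < x by linarith))
      (by
        intro x hx
        exact Real.hasDerivAt_rpow_const (Or.inl (by linarith [hx.1])))
    refine ⟨ξ, hξ.1, hξ.2, ?_⟩
    have h1 : ((k : ℝ) + 2) - ((k : ℝ) + 1) = 1 := by ring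
    rw [h1, div_one] at he
    linarith
  choose ξ h1 h2 h3 using hmv
  have hξpos : ∀ k, 0 < ξ k := fun k => by
    have hk : (0 : ℝ) ≤ k := Nat.cast_nonneg k
    linarith [h1 k]
  have hratio : Tendsto (fun k : ℕ => ((k : ℝ) + 1) / ξ k) atTop (𝓝 1) := by
    have hl : Tendsto (fun k : ℕ => ((k : ℝ) + 1) / ((k : ℝ) + 2)) atTop (𝓝 1) := by
      have h4 : Tendsto (fun k : ℕ => 1 - 1 / ((k : ℝ) + 2)) atTop (𝓝 (1 - 0)) := by
        refine tendsto_const_nhds.sub ?_
        have h5 : Tendsto (fun k : ℕ => ((k : ℝ) + 2)) atTop atTop :=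
          tendsto_atTop_add_const_right _ _ tendsto_natCast_atTop_atTop
        simp only [one_div]
        exact h5.inv_tendsto_atTop
      rw [sub_zero] at h4
      refine h4.congr fun k => ?_
      have hk : (0 : ℝ) ≤ k := Nat.cast_nonneg k
      field_simp
      ring
    refine tendsto_of_tendsto_of_tendsto_of_le_of_le hl tendsto_const_nhds ?_ ?_
    · intro k
      have hk : (0 : ℝ) ≤ k := Nat.cast_nonneg k
      simp only
      gcongr
      · exact hξpos k
      · exact (h2 k).le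
    · intro k
      simp only
      rw [div_le_one (hξpos k)]
      exact (h1 k).le
  have h5 : ∀ k : ℕ, ((k : ℝ) + 1) ^ (β + 1) * (((k : ℝ) + 1) ^ (-β) - ((k : ℝ) + 2) ^ (-β)) =
      β * (((k : ℝ) + 1) / ξ k) ^ (β + 1) := by
    intro k
    have hk : (0 : ℝ) ≤ k := Nat.cast_nonneg k
    rw [h3, Real.div_rpow (by linarith) (hξpos k).le]
    have h6 : (ξ k) ^ (-β - 1) = ((ξ k) ^ (β + 1))⁻¹ := by
      rw [← Real.rpow_neg (hξpos k).le]
      congr 1; ring
    rw [h6]
    ring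
  simp_rw [h5]
  have h7 : Tendsto (fun k : ℕ => β * (((k : ℝ) + 1) / ξ k) ^ (β + 1)) atTop
      (𝓝 (β * 1 ^ (β + 1))) := by
    refine tendsto_const_nhds.mul ?_
    exact hratio.rpow_const (Or.inl one_ne_zero)
  simpa using h7

/-- tails of a series with a power asymptotics -/
lemma tail_asymp (a : ℕ → ℝ) (β : ℝ) (hβ : 0 < β) (c : ℝ)
    (h : Tendsto (fun k : ℕ => ((k : ℝ) + 1) ^ (β + 1) * a k) atTop (𝓝 c)) :
    Summable a ∧
    Tendsto (fun K : ℕ => ((K : ℝ) + 1) ^ β * ∑' k, a (K + k)) atTop (𝓝 (c / β)) := by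
  set b : ℕ → ℝ := fun k => ((k : ℝ) + 1) ^ (-β) - ((k : ℝ) + 2) ^ (-β) with hb
  have hbpos : ∀ k, 0 < b k := by
    intro k
    have hk : (0 : ℝ) ≤ k := Nat.cast_nonneg k
    simp only [hb]
    rw [sub_pos]
    exact Real.rpow_lt_rpow_of_neg (by linarith) (by linarith) (by linarith)
  have hlim : Tendsto (fun k : ℕ => ((k : ℝ) + 1) ^ (-β)) atTop (𝓝 0) := by
    have h5 : Tendsto (fun k : ℕ => ((k : ℝ) + 1)) atTop atTop :=
      tendsto_atTop_add_const_right _ _ tendsto_natCast_atTop_atTop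
    exact (tendsto_rpow_neg_atTop hβ).comp h5
  have htel : ∀ K : ℕ, HasSum (fun k => b (K + k)) (((K : ℝ) + 1) ^ (-β)) := by
    intro K
    rw [hasSum_iff_tendsto_nat_of_nonneg (fun k => (hbpos _).le)]
    have h6 : ∀ n : ℕ, ∑ k ∈ Finset.range n, b (K + k) =
        ((K : ℝ) + 1) ^ (-β) - (((K + n : ℕ) : ℝ) + 1) ^ (-β) := by
      intro n
      induction n with
      | zero => simp
      | succ n ih =>
        rw [Finset.sum_range_succ, ih]
        simp only [hb]
        push_cast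
        ring_nf
    simp_rw [h6]
    have h7 : Tendsto (fun n : ℕ => (((K + n : ℕ) : ℝ) + 1) ^ (-β)) atTop (𝓝 0) :=
      hlim.comp (tendsto_atTop_mono (fun n => Nat.le_add_left n K) tendsto_id)
    simpa using tendsto_const_nhds.sub h7
  have hbs : Summable b := by simpa using (htel 0).summable
  have hr : Tendsto (fun k => a k / b k) atTop (𝓝 (c / β)) := by
    have h8 := h.div (rpow_diff_asymp β hβ) hβ.ne'
    refine h8.congr fun k => ?_
    have hk : (0 : ℝ) ≤ k := Nat.cast_nonneg k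
    have h9 : (0 : ℝ) < ((k : ℝ) + 1) ^ (β + 1) := Real.rpow_pos_of_pos (by linarith) _
    simp only [Pi.div_apply, hb]
    rw [mul_div_mul_left _ _ h9.ne']
  obtain ⟨hs, ht⟩ := tail_ratio a b hbpos hbs _ hr
  refine ⟨hs, ht.congr fun K => ?_⟩
  rw [(htel K).tsum_eq, Real.rpow_neg (by positivity), div_inv_eq_mul, mul_comm]

end Pool.Agent.LoopPerc
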