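import Pool.Agent.LoopPerc.Abs3

/-!
# Translation invariance
-/

namespace Pool.Agent.LoopPerc.HSys

open MeasureTheory ProbabilityTheory Filter Topology Set
open scoped ENNReal NNReal

variable {d : ℕ} {ι : Type*} {H : HSys (Lat d) ι} (sh : H.Shift)

namespace Shift

/-- translation of configurations -/
def tr (v : Lat d) (ω : ι → ℕ) : ι → ℕ := fun i => ω ((sh.act v).symm i)

lemma measurable_tr (v : Lat d) : Measurable (sh.tr v) :=
  measurable_pi_lambda _ fun _ => measurable_pi_apply _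

lemma measurePreserving_tr (v : Lat d) : MeasurePreserving (sh.tr v) H.P H.P := by
  classical
  refine ⟨sh.measurable_tr v, ?_⟩
  unfold HSys.P
  refine Measure.eq_infinitePi _ fun s t ht => ?_
  rw [Measure.map_apply (sh.measurable_tr v) (MeasurableSet.pi s.countable_toSet fun i _ => ht i)]
  have h1 : sh.tr v ⁻¹' (Set.pi (s : Set ι) t) =
      Set.pi ((s.map (sh.act v).symm.toEmbedding : Finset ι) : Set ι)
        (fun j => t (sh.act v j)) := by
    ext ω
    simp only [tr, mem_preimage, Set.mem_pi, Finset.mem_coe, Finset.mem_map_equiv, Equiv.symm_symm]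
    constructor
    · intro h j hj; simpa using h _ hj
    · intro h i hi; simpa using h ((sh.act v).symm i) (by simpa using hi)
  rw [h1, Measure.infinitePi_pi _ (fun i _ => ht _), Finset.prod_map]
  refine Finset.prod_congr rfl fun i _ => ?_
  have h2 : H.lam ((sh.act v).symm i) = H.lam i := by
    conv_rhs => rw [← (sh.act v).apply_symm_apply i]
    rw [sh.lam_act]
  simp [h2]

lemma mem_s_act {v : Lat d} {i : ι} {x : Lat d} : x + v ∈ H.s (sh.act v i) ↔ x ∈ H.s i := by
  rw [sh.s_act]
  simp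

lemma adj_tr {v : Lat d} {J : Set ι} {ω : ι → ℕ} {x y : Lat d} :
    H.Adj J (sh.tr v ω) (x + v) (y + v) ↔ H.Adj (sh.act v ⁻¹' J) ω x y := by
  constructor
  · rintro ⟨i, hi, h0, hx, hy⟩
    have e : sh.act v ((sh.act v).symm i) = i := (sh.act v).apply_symm_apply i
    refine ⟨(sh.act v).symm i, ?_, h0, ?_, ?_⟩
    · rw [mem_preimage, e]; exact hi
    · rw [← e, sh.mem_s_act] at hx; exact hx
    · rw [← e, sh.mem_s_act] at hy; exact hy
  · rintro ⟨i, hi, h0, hx, hy⟩
    refine ⟨sh.act v i, hi, ?_, sh.mem_s_act.2 hx, sh.mem_s_act.2 hy⟩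
    simpa [tr] using h0

lemma conn_tr {v : Lat d} {J : Set ι} {ω : ι → ℕ} {x y : Lat d} :
    H.Conn J (sh.tr v ω) (x + v) (y + v) ↔ H.Conn (sh.act v ⁻¹' J) ω x y := by
  constructor
  · intro h
    have h1 : ∀ a b : Lat d, H.Conn J (sh.tr v ω) a b →
        H.Conn (sh.act v ⁻¹' J) ω (a - v) (b - v) := by
      intro a b hab
      induction hab with
      | refl => exact Conn.refl _
      | @tail b c _ hbc ih =>
        refine Relation.ReflTransGen.tail ih ?_
        rw [← sh.adj_tr]; simpa using hbc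
    simpa using h1 _ _ h
  · intro h
    induction h with
    | refl => exact Conn.refl _
    | @tail b c _ hbc ih => exact Relation.ReflTransGen.tail ih (sh.adj_tr.2 hbc)

lemma clus_tr (v : Lat d) (J : Set ι) (ω : ι → ℕ) (x : Lat d) :
    H.clus J (sh.tr v ω) (x + v) = (fun y => y + v) '' H.clus (sh.act v ⁻¹' J) ω x := by
  ext y
  constructor
  · intro hy
    refine ⟨y - v, ?_, by simp⟩
    have : H.Conn J (sh.tr v ω) (x + v) (y - v + v) := by rw [sub_add_cancel]; exact hy
    exact sh.conn_tr.1 this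
  · rintro ⟨z, hz, rfl⟩
    exact sh.conn_tr.2 hz

variable [Countable ι]

lemma tau_shift (v : Lat d) (J : Set ι) (x y : Lat d) :
    H.tau J (x + v) (y + v) = H.tau (sh.act v ⁻¹' J) x y := by
  unfold tau
  rw [← (sh.measurePreserving_tr v).measure_preimage
    (sig_le _ _ (measurableSet_conn J (x + v) (y + v))).nullMeasurableSet]
  congr 1
  ext ω
  exact sh.conn_tr

lemma tauT_shift (v : Lat d) (J : Set ι) (x : Lat d) (T : Set (Lat d)) :
    H.tauT J (x + v) T = H.tauT (sh.act v ⁻¹' J) x ((fun y => y + v) ⁻¹' T) := by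
  unfold tauT
  rw [← (sh.measurePreserving_tr v).measure_preimage
    (sig_le _ _ (measurableSet_connT J (x + v) T)).nullMeasurableSet]
  congr 1
  ext ω
  constructor
  · rintro ⟨t, ht, hc⟩
    refine ⟨t - v, by simpa using ht, ?_⟩
    rw [← sh.conn_tr]; simpa using hc
  · rintro ⟨t, ht, hc⟩
    exact ⟨t + v, ht, sh.conn_tr.2 hc⟩

/-- a translation invariant family -/
def Inv (J : Set ι) : Prop := ∀ v i, sh.act v i ∈ J ↔ i ∈ J

omit [Countable ι] in
lemma Inv.preimage {J : Set ι} (h : sh.Inv J) (v : Lat d) : sh.act v ⁻¹' J = J := by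
  ext i; exact h v i

omit [Countable ι] in
lemma inv_univ : sh.Inv (Set.univ : Set ι) := fun _ _ => by simp

lemma tau_eq_sub {J : Set ι} (h : sh.Inv J) (x y : Lat d) : H.tau J x y = H.tau J 0 (y - x) := by
  have := sh.tau_shift x J 0 (y - x)
  rw [h.preimage] at this
  simpa using this

lemma tau_zero_neg {J : Set ι} (h : sh.Inv J) (y : Lat d) : H.tau J 0 (-y) = H.tau J 0 y := by
  rw [tau_symm, sh.tau_eq_sub h]; simp

/-- law of the cluster of `v` -/
lemma P_clus_shift {J : Set ι} (h : sh.Inv J) (v : Lat d) (A : Set (Lat d)) :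
    H.P {ω | H.clus J ω v = (fun y => y + v) '' A} = H.P {ω | H.clus J ω 0 = A} := by
  rw [← (sh.measurePreserving_tr v).measure_preimage
    (sig_le _ _ (measurableSet_clus_eq J v _)).nullMeasurableSet]
  congr 1
  ext ω
  simp only [mem_preimage, mem_ofPred_eq]
  have := sh.clus_tr v J ω 0
  rw [zero_add, h.preimage] at this
  rw [this]
  exact (Set.image_injective.2 (add_left_injective v)).eq_iff

omit [Countable ι] in
lemma rate_shift {K : Set ι} (v u : Lat d) (g g' : ι → ℝ≥0∞)
    (hg : ∀ i, g (sh.act v i) = g' i) :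
    H.rate K (u + v) g = H.rate (sh.act v ⁻¹' K) u g' := by
  unfold rate
  rw [← (sh.act v).tsum_eq]
  refine tsum_congr fun i => ?_
  by_cases hi : i ∈ sh.act v ⁻¹' K ∩ {i | u ∈ H.s i}
  · rw [indicator_of_mem hi, indicator_of_mem (show sh.act v i ∈ K ∩ {i | u + v ∈ H.s i} from
      ⟨hi.1, sh.mem_s_act.2 hi.2⟩), sh.lam_act, hg]
  · rw [indicator_of_notMem hi, indicator_of_notMem]
    rintro ⟨h1, h2⟩
    exact hi ⟨h1, sh.mem_s_act.1 h2⟩

end Shift

end Pool.Agent.LoopPerc.HSys
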