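import Pool.Agent.LoopPerc.Bounds

/-!
# The two-point function and the one-arm probability
-/

namespace Pool.Agent.LoopPerc.HSys

open MeasureTheory ProbabilityTheory Filter Topology Set
open scoped ENNReal NNReal

variable {d : ℕ} {ι : Type*} {H : HSys (Lat d) ι} [Countable ι] (sh : H.Shift)

/-- supremum of the two-point function at distance at least `r` -/
noncomputable def supTau (H : HSys (Lat d) ι) (r : ℝ) : ℝ≥0∞ :=
  ⨆ (y : Lat d) (_ : r ≤ ‖y‖), H.tau Set.univ 0 y

/-- one-arm probability -/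
noncomputable def arm (H : HSys (Lat d) ι) (r : ℝ) : ℝ≥0∞ := H.tauT Set.univ 0 {y | r ≤ ‖y‖}

omit [Countable ι] in
lemma tau_le_supTau {r : ℝ} {y : Lat d} (h : r ≤ ‖y‖) : H.tau Set.univ 0 y ≤ H.supTau r :=
  le_iSup₂ (f := fun (y : Lat d) (_ : r ≤ ‖y‖) => H.tau Set.univ 0 y) y h

omit [Countable ι] in
include sh in
lemma Kr_univ (u v : Lat d) : H.Kr Set.univ u v = H.Kr Set.univ 0 (v - u) := by
  have h1 : ∀ i, v ∈ H.s (sh.act u i) ↔ v - u ∈ H.s i := by
    intro i
    have := sh.mem_s_act (v := u) (i := i) (x := v - u)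
    rwa [sub_add_cancel] at this
  have := sh.rate_shift (K := Set.univ) u 0 ({i | v ∈ H.s i}.indicator fun _ => (1 : ℝ≥0∞))
    ({i | v - u ∈ H.s i}.indicator fun _ => (1 : ℝ≥0∞)) (fun i => by
      by_cases h : v - u ∈ H.s i
      · rw [indicator_of_mem (show i ∈ {i | v - u ∈ H.s i} from h),
          indicator_of_mem (show sh.act u i ∈ {i | v ∈ H.s i} from (h1 i).2 h)]
      · rw [indicator_of_notMem (show i ∉ {i | v - u ∈ H.s i} from h),
          indicator_of_notMem (show sh.act u i ∉ {i | v ∈ H.s i} from fun h' => h ((h1 i).1 h'))])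
  rw [zero_add, preimage_univ] at this
  exact this

include sh in
/-- bound for `Kr` sums at a distance -/
lemma two_point_step (CK s : ℝ) (hs : 0 ≤ s) (hCK : 0 ≤ CK)
    (hK : ∀ v : Lat d, v ≠ 0 → H.Kr Set.univ 0 v ≤ ENNReal.ofReal (CK * ‖v‖ ^ (-s)))
    (hchi : H.chi ≠ ⊤) {R r : ℝ} (hR : 0 < R) (hr : 4 * R ≤ r) {x : Lat d} (hx : r ≤ ‖x‖) :
    H.tau Set.univ 0 x ≤ H.kap R * H.supTau (r / 2) +
      ENNReal.ofReal (CK * (r / 4) ^ (-s)) * (H.chi * H.chi) := by
  classical
  have hx0 : x ≠ 0 := by rintro rfl; simp at hx; linarith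
  rw [← tauT_singleton]
  set g : ι → ℝ≥0∞ := fun i => ∑ v ∈ H.s i, H.tau Set.univ v x with hg
  have h1 := tauT_le (H := H) (S := H.ins R) (J := Set.univ) 0 {x}
    (clus_finite sh hchi _ _) g (by
      intro i _ A _
      refine (connWT_le _ _ _).trans (Finset.sum_le_sum fun v _ => ?_)
      rw [tauT_singleton]
      exact tau_mono (subset_univ _) _ _)
  refine h1.trans ?_
  rw [tauT_ins_eq_zero (T := {x}) (by rintro y rfl; exact ⟨hx0, by linarith⟩), zero_add,
    univ_diff_ins]
  set h : Lat d → ℝ≥0∞ := fun v => if r / 2 < ‖v‖ then H.tau Set.univ v x else 0 with hh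
  have hgle : ∀ i, g i ≤ ((H.s i).card : ℝ≥0∞) * H.supTau (r / 2) + ∑ v ∈ H.s i, h v := by
    intro i
    rw [← nsmul_eq_mul, ← Finset.sum_const, ← Finset.sum_add_distrib]
    refine Finset.sum_le_sum fun v _ => ?_
    by_cases hv : r / 2 < ‖v‖
    · simp only [hh, if_pos hv]; exact le_add_self
    · simp only [hh, if_neg hv, add_zero]
      rw [sh.tau_eq_sub sh.inv_univ]
      refine tau_le_supTau ?_
      have := norm_sub_norm_le x v
      push Not at hv
      linarith
  have h2 : ∀ u, H.tau (H.ins R) 0 u * H.rate (H.out R) u g ≤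
      H.tau Set.univ 0 u * H.rate (H.out R) u (fun i => ((H.s i).card : ℝ≥0∞)) *
        H.supTau (r / 2) +
      H.tau Set.univ 0 u * (ENNReal.ofReal (CK * (r / 4) ^ (-s)) * H.chi) := by
    intro u
    by_cases hu : H.tau (H.ins R) 0 u = 0
    · rw [hu]; simp
    have huR : ‖u‖ < R := by
      by_contra hc
      push Not at hc
      have hu0 : u ≠ 0 := by rintro rfl; simp at hc; linarith
      exact hu (tau_ins_eq_zero hu0 hc)
    have h3 : H.rate (H.out R) u g ≤ H.rate (H.out R) u (fun i => ((H.s i).card : ℝ≥0∞)) *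
        H.supTau (r / 2) + ENNReal.ofReal (CK * (r / 4) ^ (-s)) * H.chi := by
      refine (rate_mono_fun u fun i _ => hgle i).trans ?_
      rw [rate_add, rate_mul_const, rate_sum_eq]
      gcongr
      rw [← sum_tau_univ sh x, ← ENNReal.tsum_mul_left]
      refine ENNReal.tsum_le_tsum fun v => ?_
      by_cases hv : r / 2 < ‖v‖
      · simp only [hh, if_pos hv]
        rw [tau_symm Set.univ x v]
        gcongr
        refine (Kr_mono_set (subset_univ _) _ _).trans ?_
        rw [Kr_univ sh]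
        have h5 : r / 4 ≤ ‖v - u‖ := by
          have := norm_sub_norm_le v u
          linarith
        refine (hK _ (by
          intro h0
          rw [h0] at h5; simp at h5; linarith)).trans ?_
        refine ENNReal.ofReal_le_ofReal ?_
        refine mul_le_mul_of_nonneg_left ?_ hCK
        exact Real.rpow_le_rpow_of_nonpos (by linarith) h5 (by linarith)
      · simp only [hh, if_neg hv]; simp
    calc H.tau (H.ins R) 0 u * H.rate (H.out R) u g
        ≤ H.tau Set.univ 0 u * (H.rate (H.out R) u (fun i => ((H.s i).card : ℝ≥0∞)) *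
          H.supTau (r / 2) + ENNReal.ofReal (CK * (r / 4) ^ (-s)) * H.chi) := by
          refine mul_le_mul' (tau_mono (subset_univ _) _ _) h3
      _ = _ := by rw [mul_add, ← mul_assoc]
  refine (ENNReal.tsum_le_tsum h2).trans ?_
  rw [ENNReal.tsum_add, ENNReal.tsum_mul_right, ENNReal.tsum_mul_right]
  refine add_le_add le_rfl (le_of_eq ?_)
  change H.chi * (_ * H.chi) = _
  ring

include sh in
/-- **Two-point function bound.** -/
theorem two_point (CK s : ℝ) (hs : 0 ≤ s) (hCK : 0 ≤ CK)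
    (hK : ∀ v : Lat d, v ≠ 0 → H.Kr Set.univ 0 v ≤ ENNReal.ofReal (CK * ‖v‖ ^ (-s)))
    (hchi : H.chi ≠ ⊤) (hrho : H.rho ≠ ⊤) :
    ∃ C : ℝ, 0 < C ∧ ∀ x : Lat d, x ≠ 0 → H.tau Set.univ 0 x ≤ ENNReal.ofReal (C * ‖x‖ ^ (-s)) := by
  have hpos : (0 : ℝ≥0∞) < ENNReal.ofReal ((2 : ℝ) ^ (-s) / 2) := by
    rw [ENNReal.ofReal_pos]; positivity
  obtain ⟨N, hN⟩ := ((kap_tendsto sh hchi hrho).eventually (gt_mem_nhds hpos)).exists_forall_of_atTop
  have hN1 := hN (max N 1) (le_max_left _ _)
  set R : ℝ := ((max N 1 : ℕ) : ℝ) with hR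
  have hR1 : 1 ≤ R := by rw [hR]; exact_mod_cast le_max_right _ _
  obtain ⟨C', hC', h⟩ := dyadic_decay (H.supTau) (fun r => iSup₂_le fun y _ => tau_le_one _ _ _)
    s hs (H.kap R) (CK * 4 ^ s * (H.chi * H.chi).toReal) (4 * R) (by linarith) hN1.le (by
      intro r hr
      refine iSup₂_le fun y hy => ?_
      refine (two_point_step sh CK s hs hCK hK hchi (by linarith) hr hy).trans ?_
      refine add_le_add le_rfl (le_of_eq ?_)
      have hr0 : 0 < r := by linarith
      have e1 : (r / 4) ^ (-s) = 4 ^ s * r ^ (-s) := by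
        rw [Real.div_rpow hr0.le (by norm_num), Real.rpow_neg (by norm_num : (0:ℝ) ≤ 4)]
        field_simp
      have e2 : H.chi * H.chi = ENNReal.ofReal ((H.chi * H.chi).toReal) :=
        (ENNReal.ofReal_toReal (ENNReal.mul_ne_top hchi hchi)).symm
      rw [e2, ← ENNReal.ofReal_mul (by positivity), e1]
      congr 1
      rw [ENNReal.toReal_ofReal ENNReal.toReal_nonneg]
      ring)
  refine ⟨C', hC', fun x hx => ?_⟩
  exact (tau_le_supTau le_rfl).trans (h _ (norm_pos_iff.2 hx))

include sh in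
lemma arm_step (CM σ : ℝ)
    (hM : ∀ r : ℝ, 0 < r → H.rate Set.univ 0 ((H.out r).indicator fun _ => 1) ≤
      ENNReal.ofReal (CM * r ^ (-σ)))
    (hchi : H.chi ≠ ⊤) {R r : ℝ} (hR : 0 < R) (hr : 4 * R ≤ r) :
    H.arm r ≤ H.kap R * H.arm (r / 2) + ENNReal.ofReal (CM * (r / 4) ^ (-σ)) * H.chi := by
  classical
  unfold arm
  set T : Set (Lat d) := {y | r ≤ ‖y‖} with hT
  set g : ι → ℝ≥0∞ := fun i => ((H.s i).card : ℝ≥0∞) * H.arm (r / 2) +
    (H.out (r / 2)).indicator (fun _ => 1) i with hg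
  have h1 := tauT_le (H := H) (S := H.ins R) (J := Set.univ) 0 T
    (clus_finite sh hchi _ _) g (by
      intro i _ A _
      by_cases hi : i ∈ H.out (r / 2)
      · rw [hg]; simp only [indicator_of_mem hi]
        exact prob_le_one.trans le_add_self
      · rw [hg]; simp only [indicator_of_notMem hi, add_zero]
        refine (connWT_le _ _ _).trans ?_
        rw [← nsmul_eq_mul, ← Finset.sum_const]
        refine Finset.sum_le_sum fun v hv => ?_
        refine (tauT_mono (subset_univ _) _ _).trans ?_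
        have h5 := sh.tauT_shift v Set.univ 0 T
        rw [zero_add, preimage_univ] at h5
        rw [h5]
        refine tauT_mono_target _ _ ?_
        intro y hy
        have hy' : r ≤ ‖y + v‖ := hy
        have hv' : ‖v‖ < r / 2 := by
          by_contra hc
          exact hi ⟨v, hv, not_lt.1 hc⟩
        have := norm_add_le y v
        simp only [mem_ofPred_eq]
        linarith)
  refine h1.trans ?_
  rw [tauT_ins_eq_zero (T := T) (by
    intro y hy
    have hy' : r ≤ ‖y‖ := hy
    refine ⟨?_, by linarith⟩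
    rintro rfl; simp at hy'; linarith), zero_add, univ_diff_ins]
  have h2 : ∀ u, H.tau (H.ins R) 0 u * H.rate (H.out R) u g ≤
      H.tau Set.univ 0 u * H.rate (H.out R) u (fun i => ((H.s i).card : ℝ≥0∞)) *
        H.arm (r / 2) +
      H.tau Set.univ 0 u * ENNReal.ofReal (CM * (r / 4) ^ (-σ)) := by
    intro u
    by_cases hu : H.tau (H.ins R) 0 u = 0
    · rw [hu]; simp
    have huR : ‖u‖ < R := by
      by_contra hc
      push Not at hc
      have hu0 : u ≠ 0 := by rintro rfl; simp at hc; linarith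
      exact hu (tau_ins_eq_zero hu0 hc)
    have h3 : H.rate (H.out R) u g ≤ H.rate (H.out R) u (fun i => ((H.s i).card : ℝ≥0∞)) *
        H.arm (r / 2) + ENNReal.ofReal (CM * (r / 4) ^ (-σ)) := by
      rw [hg, rate_add, rate_mul_const]
      gcongr
      refine (rate_mono_set (subset_univ _) _ _).trans ?_
      have h6 := sh.rate_shift (K := Set.univ) u 0
        ((H.out (r / 2)).indicator fun _ => (1 : ℝ≥0∞))
        (fun i => (H.out (r / 2)).indicator (fun _ => (1 : ℝ≥0∞)) (sh.act u i)) (fun i => rfl)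
      rw [zero_add, preimage_univ] at h6
      rw [h6]
      refine le_trans (rate_mono_fun 0 fun i _ => ?_) (hM (r / 4) (by linarith))
      refine indicator_apply_le' (fun hi => ?_) (fun _ => zero_le)
      obtain ⟨y, hy, hy2⟩ := hi
      rw [indicator_of_mem]
      have hy' : y - u ∈ H.s i := by
        rw [← sh.mem_s_act (v := u)]; simpa using hy
      refine ⟨y - u, hy', ?_⟩
      have := norm_sub_norm_le y u
      linarith
    calc H.tau (H.ins R) 0 u * H.rate (H.out R) u g
        ≤ H.tau Set.univ 0 u * (H.rate (H.out R) u (fun i => ((H.s i).card : ℝ≥0∞)) *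
          H.arm (r / 2) + ENNReal.ofReal (CM * (r / 4) ^ (-σ))) := by
          refine mul_le_mul' (tau_mono (subset_univ _) _ _) h3
      _ = _ := by rw [mul_add, ← mul_assoc]
  refine (ENNReal.tsum_le_tsum h2).trans ?_
  rw [ENNReal.tsum_add, ENNReal.tsum_mul_right, ENNReal.tsum_mul_right]
  refine add_le_add le_rfl (le_of_eq ?_)
  change H.chi * _ = _
  ring

include sh in
/-- **One-arm bound.** -/
theorem one_arm (CM σ : ℝ) (hσ : 0 ≤ σ) (hCM : 0 ≤ CM)
    (hM : ∀ r : ℝ, 0 < r → H.rate Set.univ 0 ((H.out r).indicator fun _ => 1) ≤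
      ENNReal.ofReal (CM * r ^ (-σ)))
    (hchi : H.chi ≠ ⊤) (hrho : H.rho ≠ ⊤) :
    ∃ C : ℝ, 0 < C ∧ ∀ r : ℝ, 0 < r → H.arm r ≤ ENNReal.ofReal (C * r ^ (-σ)) := by
  have hpos : (0 : ℝ≥0∞) < ENNReal.ofReal ((2 : ℝ) ^ (-σ) / 2) := by
    rw [ENNReal.ofReal_pos]; positivity
  obtain ⟨N, hN⟩ := ((kap_tendsto sh hchi hrho).eventually (gt_mem_nhds hpos)).exists_forall_of_atTop
  have hN1 := hN (max N 1) (le_max_left _ _)
  set R : ℝ := ((max N 1 : ℕ) : ℝ) with hR
  have hR1 : 1 ≤ R := by rw [hR]; exact_mod_cast le_max_right _ _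
  refine dyadic_decay (H.arm) (fun r => tauT_le_one _ _ _)
    σ hσ (H.kap R) (CM * 4 ^ σ * H.chi.toReal) (4 * R) (by linarith) hN1.le (by
      intro r hr
      refine (arm_step sh CM σ hM hchi (by linarith) hr).trans ?_
      refine add_le_add le_rfl (le_of_eq ?_)
      have hr0 : 0 < r := by linarith
      have e1 : (r / 4) ^ (-σ) = 4 ^ σ * r ^ (-σ) := by
        rw [Real.div_rpow hr0.le (by norm_num), Real.rpow_neg (by norm_num : (0:ℝ) ≤ 4)]
        field_simp
      have e2 : H.chi = ENNReal.ofReal (H.chi.toReal) := (ENNReal.ofReal_toReal hchi).symm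
      rw [e2, ← ENNReal.ofReal_mul (by positivity), e1]
      congr 1
      rw [ENNReal.toReal_ofReal ENNReal.toReal_nonneg]
      ring)

end Pool.Agent.LoopPerc.HSys
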