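import Pool.Agent.LoopPerc.Tools

/-!
# Upper bounds: small and big hyperedges
-/

namespace Pool.Agent.LoopPerc.HSys

open MeasureTheory ProbabilityTheory Filter Topology Set
open scoped ENNReal NNReal

variable {d : ℕ} {ι : Type*} {H : HSys (Lat d) ι}

/-- hyperedges of diameter `< r` -/
def small (H : HSys (Lat d) ι) (r : ℝ) : Set ι := {i | ∀ y ∈ H.s i, ∀ z ∈ H.s i, ‖y - z‖ < r}

/-- hyperedges of diameter `≥ r` -/
def big (H : HSys (Lat d) ι) (r : ℝ) : Set ι := (H.small r)ᶜ

lemma big_anti {r r' : ℝ} (h : r ≤ r') : H.big r' ⊆ H.big r := by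
  intro i hi hi'
  exact hi fun y hy z hz => (hi' y hy z hz).trans_le h

lemma small_inv (sh : H.Shift) (r : ℝ) : sh.Inv (H.small r) := by
  intro v i
  constructor
  · intro h y hy z hz
    have := h (y + v) (sh.mem_s_act.2 hy) (z + v) (sh.mem_s_act.2 hz)
    simpa using this
  · intro h y hy z hz
    rw [← sub_add_cancel y v, sh.mem_s_act] at hy
    rw [← sub_add_cancel z v, sh.mem_s_act] at hz
    have := h _ hy _ hz
    simpa using this

lemma big_inv (sh : H.Shift) (r : ℝ) : sh.Inv (H.big r) := by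
  intro v i
  exact not_congr (small_inv sh r v i)

lemma mem_big_of_hit {r : ℝ} {i : ι} {y z : Lat d} (hy : y ∈ H.s i) (hz : z ∈ H.s i)
    (h : r ≤ ‖y - z‖) : i ∈ H.big r := fun hi => absurd (hi y hy z hz) (not_lt.2 h)

variable [Countable ι] (sh : H.Shift)

include sh in
/-- small hyperedges do not connect -/
lemma tau_small_le (hchi : H.chi ≠ ⊤) {n : ℝ} (hn : 0 < n) {x : Lat d} (hx : n ≤ ‖x‖) :
    H.tau (H.small (n / 4)) 0 x ≤ H.kap (n / 4) * H.supTau (n / 2) := by
  have hx0 : x ≠ 0 := by rintro rfl; simp at hx; linarith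
  rw [← tauT_singleton]
  set S := H.ins (n / 4) ∩ H.small (n / 4) with hS
  have h1 := tauT_le (H := H) (S := S) (J := H.small (n / 4)) 0 {x}
    (clus_finite sh hchi _ _) (fun i => ∑ v ∈ H.s i, H.tau Set.univ v x) (by
      intro i _ A _
      refine (connWT_le _ _ _).trans (Finset.sum_le_sum fun v _ => ?_)
      rw [tauT_singleton]
      exact tau_mono (subset_univ _) _ _)
  refine h1.trans ?_
  have h0 : H.tauT S 0 {x} = 0 := by
    refine le_antisymm ?_ zero_le
    refine (tauT_mono inter_subset_left _ _).trans (le_of_eq ?_)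
    exact tauT_ins_eq_zero (by rintro y rfl; exact ⟨hx0, by linarith⟩)
  rw [h0, zero_add]
  unfold kap
  rw [← ENNReal.tsum_mul_right]
  refine ENNReal.tsum_le_tsum fun u => ?_
  by_cases hu : H.tau S 0 u = 0
  · rw [hu]; simp
  have huR : ‖u‖ < n / 4 := by
    by_contra hc
    push Not at hc
    have hu0 : u ≠ 0 := by rintro rfl; simp at hc; linarith
    refine hu (le_antisymm ((tau_mono inter_subset_left _ _).trans ?_) zero_le)
    exact (tau_ins_eq_zero hu0 hc).le
  rw [mul_assoc]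
  refine mul_le_mul' (tau_mono (subset_univ _) _ _) ?_
  rw [← rate_mul_const]
  have hsub : H.small (n / 4) \ S ⊆ H.small (n / 4) ∩ H.out (n / 4) := by
    rintro i ⟨hi, hi'⟩
    refine ⟨hi, ?_⟩
    by_contra hc
    exact hi' ⟨hc, hi⟩
  refine (rate_mono_set hsub _ _).trans ?_
  refine le_trans ?_ (rate_mono_set (K := H.small (n / 4) ∩ H.out (n / 4))
    inter_subset_right _ _)
  unfold rate
  refine ENNReal.tsum_le_tsum fun i => ?_
  by_cases hi : i ∈ H.small (n / 4) ∩ H.out (n / 4) ∩ {i | u ∈ H.s i}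
  · rw [indicator_of_mem hi, indicator_of_mem hi]
    refine mul_le_mul' le_rfl ?_
    change ∑ v ∈ H.s i, H.tau Set.univ v x ≤ ((H.s i).card : ℝ≥0∞) * H.supTau (n / 2)
    rw [← nsmul_eq_mul, ← Finset.sum_const]
    refine Finset.sum_le_sum fun v hv => ?_
    rw [sh.tau_eq_sub sh.inv_univ]
    refine tau_le_supTau ?_
    have h3 := hi.1.1 v hv u hi.2
    have h4 := norm_sub_norm_le x v
    have h5 : ‖v‖ ≤ ‖v - u‖ + ‖u‖ := by
      have := norm_add_le (v - u) u; simpa using this
    linarith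
  · rw [indicator_of_notMem hi, indicator_of_notMem hi]

/-- the error term: double connections through big hyperedges -/
noncomputable def Qerr (H : HSys (Lat d) ι) (r : ℝ) (x v : Lat d) : ℝ≥0∞ :=
  ∑' w, H.tau Set.univ x w * ∑' z, H.Kr (H.big r) w z * H.tau Set.univ z v

include sh in
lemma P_connWT_le (hchi : H.chi ≠ ⊤) (r : ℝ) (x : Lat d) (J : Set ι) (i : ι) :
    H.P {ω | H.ConnWT J ω (H.s i) {x}} ≤
      H.tauT (H.small r) x (H.s i) + ∑ v ∈ H.s i, H.Qerr r x v := by
  have h0 : H.P {ω | H.ConnWT J ω (H.s i) {x}} = H.tauT J x (H.s i) := by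
    unfold tauT
    congr 1
    ext ω
    constructor
    · rintro ⟨v, hv, t, ht, hc⟩
      rw [mem_singleton_iff] at ht
      subst ht
      exact ⟨v, hv, hc.symm⟩
    · rintro ⟨v, hv, hc⟩
      exact ⟨v, hv, x, rfl, hc.symm⟩
  rw [h0]
  have h1 := tauT_le (H := H) (S := H.small r ∩ J) (J := J) x (H.s i)
    (clus_finite sh hchi _ _)
    (fun j => ∑ z ∈ H.s j, ∑ v ∈ H.s i, H.tau Set.univ z v) (by
      intro j _ A _
      refine (connWT_le _ _ _).trans (Finset.sum_le_sum fun z _ => ?_)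
      have h2 : {ω | H.ConnT (J \ H.hit A) ω z (H.s i)} ⊆ ⋃ v ∈ H.s i, {ω | H.Conn Set.univ ω z v} := by
        rintro ω ⟨v, hv, hc⟩
        exact mem_biUnion hv (Conn.mono_set (subset_univ _) hc)
      exact (measure_mono h2).trans (measure_biUnion_finset_le _ _))
  refine h1.trans (add_le_add (tauT_mono inter_subset_left _ _) ?_)
  have h3 : ∀ w, H.tau (H.small r ∩ J) x w * H.rate (J \ (H.small r ∩ J)) w
      (fun j => ∑ z ∈ H.s j, ∑ v ∈ H.s i, H.tau Set.univ z v) ≤
      H.tau Set.univ x w * ∑' z, H.Kr (H.big r) w z * ∑ v ∈ H.s i, H.tau Set.univ z v := by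
    intro w
    rw [← rate_sum_eq]
    refine mul_le_mul' (tau_mono (subset_univ _) _ _) (rate_mono_set ?_ _ _)
    rintro j ⟨hj, hj'⟩ hs
    exact hj' ⟨hs, hj⟩
  refine (ENNReal.tsum_le_tsum h3).trans (le_of_eq ?_)
  unfold Qerr
  rw [← Summable.tsum_finsetSum fun _ _ => ENNReal.summable]
  refine tsum_congr fun w => ?_
  rw [← Finset.mul_sum]
  congr 1
  rw [← Summable.tsum_finsetSum fun _ _ => ENNReal.summable]
  exact tsum_congr fun z => by rw [Finset.mul_sum]

/-- the main term of the two-point function -/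
noncomputable def mainTerm (H : HSys (Lat d) ι) (r : ℝ) (x : Lat d) : ℝ≥0∞ :=
  H.EC (H.small r) 0 fun A => H.EC (H.small r) x fun A' =>
    H.mass (H.big r ∩ H.hit A ∩ H.hit A')

/-- the error term of the two-point function -/
noncomputable def errTerm (H : HSys (Lat d) ι) (r : ℝ) (x : Lat d) : ℝ≥0∞ :=
  ∑' u, H.tau Set.univ 0 u * ∑' v, H.Kr (H.big r) u v * H.Qerr r x v

include sh in
/-- **Upper bound for the two-point function.** -/
theorem tau_le_main (hchi : H.chi ≠ ⊤) (r : ℝ) (x : Lat d) :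
    H.tau Set.univ 0 x ≤ H.tau (H.small r) 0 x + H.mainTerm r x + H.errTerm r x := by
  classical
  have hsub : {ω | H.Conn Set.univ ω 0 x} ⊆ {ω | H.Conn (H.small r) ω 0 x} ∪
      {ω | H.ConnT Set.univ ω 0 {x} ∧ ¬ H.ConnT (H.small r) ω 0 {x}} := by
    intro ω hω
    by_cases h : H.Conn (H.small r) ω 0 x
    · left; exact h
    · right
      refine ⟨⟨x, rfl, hω⟩, ?_⟩
      rintro ⟨t, ht, hc⟩
      rw [mem_singleton_iff] at ht
      subst ht
      exact h hc
  unfold tau
  refine (measure_mono hsub).trans ((measure_union_le _ _).trans ?_)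
  rw [add_assoc]
  refine add_le_add le_rfl ?_
  refine (exploration 0 {x} (clus_finite sh hchi _ _)).trans ?_
  have hd : Set.univ \ H.small r = H.big r := by ext i; simp [big]
  rw [hd]
  have h1 : ∀ A : Finset (Lat d), ∑' i : ι, (H.big r ∩ H.hit A).indicator
      (fun i => (H.lam i : ℝ≥0∞) * H.P {ω | H.ConnWT (Set.univ \ H.hit A) ω (H.s i) {x}}) i ≤
      H.EC (H.small r) x (fun A' => H.mass (H.big r ∩ H.hit A ∩ H.hit A')) +
      ∑ u ∈ A, H.rate (H.big r) u (fun i => ∑ v ∈ H.s i, H.Qerr r x v) := by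
    intro A
    have h2 : ∀ i, (H.big r ∩ H.hit A).indicator
        (fun i => (H.lam i : ℝ≥0∞) * H.P {ω | H.ConnWT (Set.univ \ H.hit A) ω (H.s i) {x}}) i ≤
        (H.big r ∩ H.hit A).indicator (fun i => (H.lam i : ℝ≥0∞) * H.tauT (H.small r) x (H.s i)) i +
        (H.big r ∩ H.hit A).indicator (fun i => (H.lam i : ℝ≥0∞) * ∑ v ∈ H.s i, H.Qerr r x v) i := by
      intro i
      by_cases hi : i ∈ H.big r ∩ H.hit A
      · rw [indicator_of_mem hi, indicator_of_mem hi, indicator_of_mem hi, ← mul_add]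
        exact mul_le_mul' le_rfl (P_connWT_le sh hchi r x _ i)
      · rw [indicator_of_notMem hi, indicator_of_notMem hi, indicator_of_notMem hi]; simp
    refine (ENNReal.tsum_le_tsum h2).trans ?_
    rw [ENNReal.tsum_add]
    refine add_le_add (le_of_eq ?_) (hit_sum_le _ _ _)
    -- express the connection probability through the cluster law
    unfold EC mass
    simp_rw [← ENNReal.tsum_mul_left]
    rw [ENNReal.tsum_comm]
    refine tsum_congr fun i => ?_
    by_cases hi : i ∈ H.big r ∩ H.hit A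
    · rw [indicator_of_mem hi, tauT_eq_EC _ _ _ (clus_finite sh hchi _ _)]
      unfold EC
      rw [← ENNReal.tsum_mul_left]
      refine tsum_congr fun A' => ?_
      by_cases h' : i ∈ H.hit (A' : Set (Lat d))
      · rw [indicator_of_mem, indicator_of_mem (show i ∈ H.big r ∩ H.hit A ∩ H.hit A' from ⟨hi, h'⟩)]
        · ring
        · obtain ⟨y, hy, hy'⟩ := h'
          exact ⟨y, hy', hy⟩
      · rw [indicator_of_notMem, indicator_of_notMem]
        · simp
        · exact fun h => h' h.2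
        · rintro ⟨y, hy, hy'⟩
          exact h' ⟨y, hy', hy⟩
    · rw [indicator_of_notMem hi]
      symm
      rw [ENNReal.tsum_eq_zero]
      intro A'
      rw [indicator_of_notMem (fun h => hi h.1)]; simp
  have h3 : ∀ A : Finset (Lat d), H.P {ω | H.clus (H.small r) ω 0 = A} *
      ∑' i : ι, (H.big r ∩ H.hit A).indicator
      (fun i => (H.lam i : ℝ≥0∞) * H.P {ω | H.ConnWT (Set.univ \ H.hit A) ω (H.s i) {x}}) i ≤
      H.P {ω | H.clus (H.small r) ω 0 = A} *
        H.EC (H.small r) x (fun A' => H.mass (H.big r ∩ H.hit A ∩ H.hit A')) +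
      H.P {ω | H.clus (H.small r) ω 0 = A} *
        ∑ u ∈ A, H.rate (H.big r) u (fun i => ∑ v ∈ H.s i, H.Qerr r x v) := by
    intro A
    rw [← mul_add]
    exact mul_le_mul' le_rfl (h1 A)
  refine (ENNReal.tsum_le_tsum h3).trans ?_
  rw [ENNReal.tsum_add]
  refine add_le_add le_rfl ?_
  refine (tsum_clus_mul_sum_le _ _ _).trans ?_
  unfold errTerm
  refine ENNReal.tsum_le_tsum fun u => ?_
  rw [rate_sum_eq]
  exact mul_le_mul' (tau_mono (subset_univ _) _ _) le_rfl

end Pool.Agent.LoopPerc.HSys
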