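import Pool.Agent.LoopPerc.VolMT
import Pool.Agent.LoopPerc.Bounds

/-!
# The expected size of the cluster of a set as an integral
-/

namespace Pool.Agent.LoopPerc.HSys

open MeasureTheory ProbabilityTheory Filter Topology Set
open scoped ENNReal NNReal

variable {d : ℕ} {ι : Type*} {H : HSys (Lat d) ι} [Countable ι]

lemma measurable_ncard_clusW {A : (ι → ℕ) → Set (Lat d)}
    (hA : ∀ y, MeasurableSet {ω | y ∈ A ω}) : Measurable fun ω => (A ω).ncard := by
  have h1 : ∀ n : ℕ, MeasurableSet {ω | (n : ℕ∞) < (A ω).encard} :=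
    fun n => measurableSet_lt_encard A hA n
  have h2 : ∀ k : ℕ, 1 ≤ k → MeasurableSet ((fun ω => (A ω).ncard) ⁻¹' {k}) := by
    intro k hk
    have : ((fun ω => (A ω).ncard) ⁻¹' {k}) = {ω | ((k - 1 : ℕ) : ℕ∞) < (A ω).encard} \
        {ω | (k : ℕ∞) < (A ω).encard} := by
      ext ω
      simp only [mem_preimage, mem_singleton_iff, mem_diff, mem_ofPred_eq, not_lt]
      constructor
      · intro h
        have hfin : (A ω).Finite := Set.finite_of_ncard_ne_zero (by omega)
        have h3 : (A ω).encard = k := by rw [← hfin.cast_ncard_eq, h]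
        rw [h3]
        exact ⟨by exact_mod_cast (by omega : k - 1 < k), le_rfl⟩
      · rintro ⟨h3, h4⟩
        have hfin : (A ω).Finite := Set.finite_of_encard_le_coe h4
        rw [← hfin.cast_ncard_eq] at h3 h4
        have h5 : k - 1 < (A ω).ncard := by exact_mod_cast h3
        have h6 : (A ω).ncard ≤ k := by exact_mod_cast h4
        omega
    rw [this]
    exact (h1 _).diff (h1 _)
  refine measurable_to_countable' fun k => ?_
  rcases Nat.eq_zero_or_pos k with hk | hk
  · subst hk
    have : ((fun ω => (A ω).ncard) ⁻¹' {0}) =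
        (⋃ k : ℕ, ⋃ (_ : 1 ≤ k), (fun ω => (A ω).ncard) ⁻¹' {k})ᶜ := by
      ext ω
      simp only [mem_preimage, mem_singleton_iff, mem_compl_iff, mem_iUnion, exists_prop, not_exists,
        not_and]
      constructor
      · intro h k hk hk'; omega
      · intro h
        by_contra hc
        exact h _ (by omega) rfl
    rw [this]
    exact (MeasurableSet.iUnion fun k => MeasurableSet.iUnion fun hk => h2 k hk).compl
  · exact h2 k hk

lemma ae_clusW_finite (sh : H.Shift) (hchi : H.chi ≠ ⊤) (S : Set ι) {W : Set (Lat d)}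
    (hW : W.Finite) : ∀ᵐ ω ∂H.P, (H.clusW S ω W).Finite := by
  have h1 : ∀ᵐ ω ∂H.P, ∀ v : Lat d, (H.clus S ω v).Finite := by
    rw [ae_all_iff]
    exact fun v => clus_finite sh hchi S v
  filter_upwards [h1] with ω hω
  have : H.clusW S ω W = ⋃ v ∈ W, H.clus S ω v := by
    ext y; simp [clusW, clus]
  rw [this]
  exact hW.biUnion fun v _ => hω v

lemma EW_eq_lintegral (sh : H.Shift) (hchi : H.chi ≠ ⊤) (S : Set ι) {W : Set (Lat d)}
    (hW : W.Finite) (n : ℕ) :
    H.EW S W n = ∫⁻ ω, ENNReal.ofReal (if n < (H.clusW S ω W).ncard then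
      ((H.clusW S ω W).ncard : ℝ) else 0) ∂H.P := by
  classical
  unfold EW
  have m1 : ∀ y, MeasurableSet {ω | y ∈ H.clusW S ω W ∧ (n : ℕ∞) < (H.clusW S ω W).encard} :=
    fun y => (sig_le S _ (measurableSet_mem_clusW S _ _)).inter
      (sig_le S _ (measurableSet_lt_encard _ (fun y => measurableSet_mem_clusW S _ y) n))
  have h1 : ∀ y, H.P {ω | y ∈ H.clusW S ω W ∧ (n : ℕ∞) < (H.clusW S ω W).encard} =
      ∫⁻ ω, {ω | y ∈ H.clusW S ω W ∧ (n : ℕ∞) < (H.clusW S ω W).encard}.indicator 1 ω ∂H.P :=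
    fun y => (lintegral_indicator_one (m1 y)).symm
  simp_rw [h1]
  rw [← lintegral_tsum fun y => (measurable_one.indicator (m1 y)).aemeasurable]
  refine lintegral_congr_ae ?_
  filter_upwards [ae_clusW_finite sh hchi S hW] with ω hω
  have h2 : (H.clusW S ω W).encard = ((H.clusW S ω W).ncard : ℕ∞) := hω.cast_ncard_eq.symm
  by_cases hn : n < (H.clusW S ω W).ncard
  · rw [if_pos hn, tsum_eq_sum (s := hω.toFinset)]
    · have h3 : ∀ y ∈ hω.toFinset, {ω | y ∈ H.clusW S ω W ∧
          (n : ℕ∞) < (H.clusW S ω W).encard}.indicator (1 : (ι → ℕ) → ℝ≥0∞) ω = 1 := by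
        intro y hy
        rw [Set.Finite.mem_toFinset] at hy
        rw [indicator_of_mem]
        · rfl
        · exact ⟨hy, by rw [h2]; exact_mod_cast hn⟩
      rw [Finset.sum_congr rfl h3, Finset.sum_const, nsmul_eq_mul, mul_one,
        ENNReal.ofReal_natCast, Set.ncard_eq_toFinset_card _ hω]
    · intro y hy
      rw [Set.Finite.mem_toFinset] at hy
      rw [indicator_of_notMem]
      exact fun h => hy h.1
  · rw [if_neg hn, ENNReal.ofReal_zero, ENNReal.tsum_eq_zero]
    intro y
    rw [indicator_of_notMem]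
    rintro ⟨-, h⟩
    rw [h2] at h
    exact hn (by exact_mod_cast h)

lemma integrable_ncard (sh : H.Shift) (hchi : H.chi ≠ ⊤) (S : Set ι) {W : Set (Lat d)}
    (hW : W.Finite) : Integrable (fun ω => ((H.clusW S ω W).ncard : ℝ)) H.P := by
  classical
  have hmeas : Measurable fun ω => ((H.clusW S ω W).ncard : ℝ) :=
    measurable_from_top.comp (measurable_ncard_clusW fun y => sig_le S _ (measurableSet_mem_clusW S _ y))
  refine ⟨hmeas.aestronglyMeasurable, ?_⟩
  rw [hasFiniteIntegral_iff_ofReal (Eventually.of_forall fun ω => by positivity)]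
  have h1 : ∫⁻ ω, ENNReal.ofReal ((H.clusW S ω W).ncard : ℝ) ∂H.P = H.EW S W 0 := by
    rw [EW_eq_lintegral sh hchi S hW 0]
    refine lintegral_congr fun ω => ?_
    split_ifs with h
    · rfl
    · have : (H.clusW S ω W).ncard = 0 := by omega
      rw [this]; simp
  rw [h1]
  unfold EW
  have h2 : ∀ y, H.P {ω | y ∈ H.clusW S ω W ∧ ((0 : ℕ) : ℕ∞) < (H.clusW S ω W).encard} ≤
      ∑ v ∈ hW.toFinset, H.tau Set.univ v y := by
    intro y
    have h3 : {ω | y ∈ H.clusW S ω W ∧ ((0 : ℕ) : ℕ∞) < (H.clusW S ω W).encard} ⊆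
        ⋃ v ∈ hW.toFinset, {ω | H.Conn Set.univ ω v y} := by
      rintro ω ⟨⟨v, hv, hc⟩, -⟩
      exact mem_biUnion (show v ∈ ((hW.toFinset : Finset (Lat d)) : Set (Lat d)) by simpa using hv)
        (hc.mono_set (subset_univ _))
    exact (measure_mono h3).trans (measure_biUnion_finset_le _ _)
  refine lt_of_le_of_lt (ENNReal.tsum_le_tsum h2) ?_
  rw [Summable.tsum_finsetSum fun _ _ => ENNReal.summable]
  simp_rw [sum_tau_univ sh]
  rw [Finset.sum_const, nsmul_eq_mul]
  exact ENNReal.mul_lt_top (ENNReal.natCast_lt_top _) (lt_top_iff_ne_top.2 hchi)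

/-- comparison of truncated variables -/
lemma trunc_compare {X θ t ε : ℝ} (hX : 0 ≤ X) (hθ : 0 < θ) (hε : 0 < ε) :
    (if t < X then X else 0) ≤ (if t < θ then θ else 0) + (if |t - θ| < ε then θ else 0) +
        (1 + θ / ε) * |X - θ| ∧
    (if t < θ then θ else 0) ≤ (if t < X then X else 0) + ((if |t - θ| < ε then θ else 0) +
        (1 + θ / ε) * |X - θ|) := by
  have h1 : X - θ ≤ |X - θ| := le_abs_self _
  have h2 : θ - X ≤ |X - θ| := by rw [abs_sub_comm]; exact le_abs_self _
  have h0 : 0 ≤ |X - θ| := abs_nonneg _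
  have h3 : |X - θ| ≤ (1 + θ / ε) * |X - θ| := by
    have : 0 ≤ θ / ε * |X - θ| := by positivity
    linarith
  have h5 : ε ≤ |X - θ| → θ ≤ θ / ε * |X - θ| := by
    intro h
    calc θ = θ / ε * ε := by field_simp
      _ ≤ θ / ε * |X - θ| := by gcongr
  have h6 : (1 + θ / ε) * |X - θ| = |X - θ| + θ / ε * |X - θ| := by ring
  by_cases hw : |t - θ| < ε
  · rw [if_pos hw]
    constructor <;> split_ifs <;> linarith
  · rw [if_neg hw]
    push Not at hw
    by_cases hX1 : t < X <;> by_cases hX2 : t < θ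
    · rw [if_pos hX1, if_pos hX2]; constructor <;> linarith
    · rw [if_pos hX1, if_neg hX2]
      push Not at hX2
      have h7 : |t - θ| = t - θ := abs_of_nonneg (by linarith)
      have h8 : ε ≤ |X - θ| := by linarith
      have h9 := h5 h8
      constructor
      · linarith
      · linarith
    · rw [if_neg hX1, if_pos hX2]
      push Not at hX1
      have h7 : |t - θ| = -(t - θ) := abs_of_neg (by linarith)
      have h8 : ε ≤ |X - θ| := by linarith
      have h9 := h5 h8
      constructor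
      · have : 0 ≤ θ := hθ.le
        linarith
      · linarith
    · rw [if_neg hX1, if_neg hX2]; constructor <;> linarith

end Pool.Agent.LoopPerc.HSys
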