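import Pool.Agent.LoopPerc.VolEW

/-!
# Comparison of the main term with the law of large numbers
-/

namespace Pool.Agent.LoopPerc

open MeasureTheory ProbabilityTheory Filter Topology Set
open scoped ENNReal NNReal

lemma range0_finite {d k : ℕ} {w : Fin (k + 1) → Step d} (hw : IsClosedWalk w) :
    (range0 w).Finite := by
  refine ((Set.finite_lt_nat (k + 1)).image fun j => ppos w j).subset ?_
  rintro x ⟨j, rfl⟩
  exact ⟨j % (k + 1), Nat.mod_lt _ (Nat.succ_pos k), ppos_mod hw j⟩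

/-- number of closed walks -/
def numClosed (d k : ℕ) : ℕ :=
  (Finset.univ.filter fun w : Fin (k + 1) → Step d => IsClosedWalk w).card

lemma kern_eq_numClosed (d k : ℕ) :
    kern (Set.univ : Set (Lat d)) (k + 1) 0 0 =
      (numClosed d k : ℝ≥0∞) * ((2 * (d : ℝ≥0∞))⁻¹) ^ (k + 1) := by
  classical
  rw [kern_succ_eq_sum]
  trans ∑ w : Fin (k + 1) → Step d,
    if IsClosedWalk w then ((2 * (d : ℝ≥0∞))⁻¹) ^ (k + 1) else 0
  · refine Finset.sum_congr rfl fun w _ => ?_
    by_cases hw : IsClosedWalk w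
    · rw [if_pos hw, if_pos]
      rw [IsClosedWalk] at hw
      simpa using hw
    · rw [if_neg hw, if_neg]
      rw [IsClosedWalk] at hw
      rintro ⟨h, -⟩
      exact hw (by simpa using h)
  rw [← Finset.sum_filter, Finset.sum_const, nsmul_eq_mul, numClosed]

namespace HSys

variable {d : ℕ} {ι : Type*} {H : HSys (Lat d) ι} [Countable ι]

lemma EW_bounds (sh : H.Shift) (hchi : H.chi ≠ ⊤) (S : Set ι) {W : Set (Lat d)}
    (hW : W.Finite) (n m : ℕ) (hm : 1 ≤ m) {θ ε : ℝ} (hθ : 0 < θ) (hε : 0 < ε) :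
    ((m : ℝ≥0∞)⁻¹ * H.EW S W n ≤ ENNReal.ofReal ((if (n : ℝ) / m < θ then θ else 0) +
      (if |(n : ℝ) / m - θ| < ε then θ else 0) +
      (1 + θ / ε) * ∫ ω, |((H.clusW S ω W).ncard : ℝ) / m - θ| ∂H.P)) ∧
    (ENNReal.ofReal (if (n : ℝ) / m < θ then θ else 0) ≤ (m : ℝ≥0∞)⁻¹ * H.EW S W n +
      ENNReal.ofReal ((if |(n : ℝ) / m - θ| < ε then θ else 0) +
      (1 + θ / ε) * ∫ ω, |((H.clusW S ω W).ncard : ℝ) / m - θ| ∂H.P)) := by
  have hm' : (0 : ℝ) < m := by exact_mod_cast hm
  set X : (ι → ℕ) → ℝ := fun ω => ((H.clusW S ω W).ncard : ℝ) / m with hX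
  have hXi : Integrable X H.P := (integrable_ncard sh hchi S hW).div_const _
  have hXm : Measurable X := (measurable_from_top.comp (measurable_ncard_clusW fun y =>
    sig_le S _ (measurableSet_mem_clusW S _ y)) : Measurable fun ω =>
      ((H.clusW S ω W).ncard : ℝ)).div_const _
  have hI : Integrable (fun ω => |X ω - θ|) H.P := (hXi.sub (integrable_const θ)).abs
  have hE : (m : ℝ≥0∞)⁻¹ * H.EW S W n =
      ∫⁻ ω, ENNReal.ofReal (if (n : ℝ) / m < X ω then X ω else 0) ∂H.P := by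
    rw [EW_eq_lintegral sh hchi S hW, ← lintegral_const_mul']
    · refine lintegral_congr fun ω => ?_
      have e1 : ((m : ℝ≥0∞)⁻¹) = ENNReal.ofReal ((m : ℝ)⁻¹) := by
        rw [ENNReal.ofReal_inv_of_pos hm', ENNReal.ofReal_natCast]
      rw [e1, ← ENNReal.ofReal_mul (by positivity)]
      congr 1
      simp only [hX]
      have e2 : (n : ℝ) / m < ((H.clusW S ω W).ncard : ℝ) / m ↔ n < (H.clusW S ω W).ncard := by
        rw [div_lt_div_iff_of_pos_right hm']
        exact Nat.cast_lt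
      by_cases h : n < (H.clusW S ω W).ncard
      · rw [if_pos h, if_pos (e2.2 h)]; ring
      · rw [if_neg h, if_neg (fun h' => h (e2.1 h')), mul_zero]
    · exact ENNReal.inv_ne_top.2 (by exact_mod_cast (by omega : m ≠ 0))
  have hJ : ∫⁻ ω, ENNReal.ofReal |X ω - θ| ∂H.P = ENNReal.ofReal (∫ ω, |X ω - θ| ∂H.P) :=
    (ofReal_integral_eq_lintegral_ofReal hI (Eventually.of_forall fun ω => abs_nonneg _)).symm
  have hθε : 0 ≤ 1 + θ / ε := by positivity
  have hmabs : Measurable fun ω => ENNReal.ofReal |X ω - θ| :=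
    ENNReal.measurable_ofReal.comp (by fun_prop)
  have hint0 : 0 ≤ ∫ ω, |X ω - θ| ∂H.P := integral_nonneg fun ω => abs_nonneg _
  constructor
  · rw [hE]
    calc ∫⁻ ω, ENNReal.ofReal (if (n : ℝ) / m < X ω then X ω else 0) ∂H.P
        ≤ ∫⁻ ω, (ENNReal.ofReal ((if (n : ℝ) / m < θ then θ else 0) +
            (if |(n : ℝ) / m - θ| < ε then θ else 0)) +
            ENNReal.ofReal (1 + θ / ε) * ENNReal.ofReal |X ω - θ|) ∂H.P := by
          refine lintegral_mono fun ω => ?_
          rw [← ENNReal.ofReal_mul hθε, ← ENNReal.ofReal_add (by split_ifs <;> positivity)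
            (by positivity)]
          exact ENNReal.ofReal_le_ofReal (trunc_compare (by positivity) hθ hε).1
      _ = ENNReal.ofReal ((if (n : ℝ) / m < θ then θ else 0) +
            (if |(n : ℝ) / m - θ| < ε then θ else 0)) +
            ENNReal.ofReal (1 + θ / ε) * ENNReal.ofReal (∫ ω, |X ω - θ| ∂H.P) := by
          rw [lintegral_add_left measurable_const, lintegral_const, measure_univ, mul_one,
            lintegral_const_mul _ hmabs, hJ]
      _ = _ := by
          rw [← ENNReal.ofReal_mul hθε, ← ENNReal.ofReal_add (by split_ifs <;> positivity)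
            (by positivity)]
  · rw [hE]
    calc ENNReal.ofReal (if (n : ℝ) / m < θ then θ else 0)
        = ∫⁻ ω, ENNReal.ofReal (if (n : ℝ) / m < θ then θ else 0) ∂H.P := by
          rw [lintegral_const, measure_univ, mul_one]
      _ ≤ ∫⁻ ω, (ENNReal.ofReal (if (n : ℝ) / m < X ω then X ω else 0) +
            (ENNReal.ofReal (if |(n : ℝ) / m - θ| < ε then θ else 0) +
            ENNReal.ofReal (1 + θ / ε) * ENNReal.ofReal |X ω - θ|)) ∂H.P := by
          refine lintegral_mono fun ω => ?_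
          have hX0 : 0 ≤ X ω := by positivity
          rw [← ENNReal.ofReal_mul hθε, ← ENNReal.ofReal_add (by split_ifs <;> positivity)
            (by positivity), ← ENNReal.ofReal_add (by split_ifs <;> positivity)
            (by split_ifs <;> positivity)]
          exact ENNReal.ofReal_le_ofReal (trunc_compare hX0 hθ hε).2
      _ = ∫⁻ ω, ENNReal.ofReal (if (n : ℝ) / m < X ω then X ω else 0) ∂H.P +
          (ENNReal.ofReal (if |(n : ℝ) / m - θ| < ε then θ else 0) +
            ENNReal.ofReal (1 + θ / ε) * ENNReal.ofReal (∫ ω, |X ω - θ| ∂H.P)) := by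
          have hm2 : Measurable fun ω => ENNReal.ofReal (if |(n : ℝ) / m - θ| < ε then θ else 0) +
              ENNReal.ofReal (1 + θ / ε) * ENNReal.ofReal |X ω - θ| :=
            measurable_const.add (hmabs.const_mul _)
          rw [lintegral_add_right _ hm2,
            lintegral_add_left measurable_const, lintegral_const, measure_univ, mul_one,
            lintegral_const_mul _ hmabs, hJ]
      _ = _ := by
          rw [← ENNReal.ofReal_mul hθε, ← ENNReal.ofReal_add (by split_ifs <;> positivity)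
            (by positivity)]

/-- comparison of the contribution of the walks of length `k + 1` -/
lemma g_bounds (sh : H.Shift) (hchi : H.chi ≠ ⊤) (S : Set ι) (n k : ℕ) (hd : 1 ≤ d)
    {θ ε η : ℝ} (hθ : 0 < θ) (hε : 0 < ε)
    (hη : ∑ w : Fin (k + 1) → Step d, (if IsClosedWalk w then
        ∫ ω, |((H.clusW S ω (range0 w)).ncard : ℝ) / (k + 1) - θ| ∂H.P else 0) ≤
      η * numClosed d k) :
    (((k : ℝ≥0∞) + 1)⁻¹ * ((2 * (d : ℝ≥0∞))⁻¹) ^ (k + 1) *
      ∑ w : Fin (k + 1) → Step d, (if IsClosedWalk w then H.EW S (range0 w) n else 0) ≤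
      ENNReal.ofReal ((kern (Set.univ : Set (Lat d)) (k + 1) 0 0).toReal *
        ((if (n : ℝ) / (k + 1) < θ then θ else 0) +
        (if |(n : ℝ) / (k + 1) - θ| < ε then θ else 0) + (1 + θ / ε) * η))) ∧
    (ENNReal.ofReal ((kern (Set.univ : Set (Lat d)) (k + 1) 0 0).toReal *
        (if (n : ℝ) / (k + 1) < θ then θ else 0)) ≤
      ((k : ℝ≥0∞) + 1)⁻¹ * ((2 * (d : ℝ≥0∞))⁻¹) ^ (k + 1) *
      ∑ w : Fin (k + 1) → Step d, (if IsClosedWalk w then H.EW S (range0 w) n else 0) +
      ENNReal.ofReal ((kern (Set.univ : Set (Lat d)) (k + 1) 0 0).toReal *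
        ((if |(n : ℝ) / (k + 1) - θ| < ε then θ else 0) + (1 + θ / ε) * η))) := by
  classical
  set a : ℝ := if (n : ℝ) / (k + 1) < θ then θ else 0 with ha
  set b : ℝ := if |(n : ℝ) / (k + 1) - θ| < ε then θ else 0 with hb
  have ha0 : 0 ≤ a := by rw [ha]; split_ifs <;> positivity
  have hb0 : 0 ≤ b := by rw [hb]; split_ifs <;> positivity
  set F := Finset.univ.filter fun w : Fin (k + 1) → Step d => IsClosedWalk w with hF
  set I : (Fin (k + 1) → Step d) → ℝ := fun w =>
    ∫ ω, |((H.clusW S ω (range0 w)).ncard : ℝ) / (k + 1) - θ| ∂H.P with hI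
  have hI0 : ∀ w, 0 ≤ I w := fun w => integral_nonneg fun ω => abs_nonneg _
  set q : ℝ := ((2 * (d : ℝ))⁻¹) ^ (k + 1) with hq
  have hd' : (0 : ℝ) < d := by exact_mod_cast hd
  have hq0 : 0 ≤ q := by positivity
  have hqE : ((2 * (d : ℝ≥0∞))⁻¹) ^ (k + 1) = ENNReal.ofReal q := by
    rw [hq, ENNReal.ofReal_pow (by positivity), ENNReal.ofReal_inv_of_pos (by positivity),
      ENNReal.ofReal_mul (by norm_num)]
    simp
  have hkern : (kern (Set.univ : Set (Lat d)) (k + 1) 0 0).toReal = q * F.card := by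
    rw [kern_eq_numClosed, hqE, ENNReal.toReal_mul, ENNReal.toReal_ofReal hq0]
    simp only [ENNReal.toReal_natCast, numClosed, ← hF]
    ring
  have hη' : ∑ w ∈ F, I w ≤ η * F.card := by
    rw [Finset.sum_filter]; exact hη
  have hsum : ((k : ℝ≥0∞) + 1)⁻¹ * ((2 * (d : ℝ≥0∞))⁻¹) ^ (k + 1) *
      ∑ w : Fin (k + 1) → Step d, (if IsClosedWalk w then H.EW S (range0 w) n else 0) =
      ENNReal.ofReal q * ∑ w ∈ F, (((k + 1 : ℕ) : ℝ≥0∞)⁻¹ * H.EW S (range0 w) n) := by
    rw [← Finset.sum_filter, ← Finset.mul_sum, hqE]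
    push_cast
    ring
  have hbd : ∀ w ∈ F, ((((k + 1 : ℕ) : ℝ≥0∞)⁻¹ * H.EW S (range0 w) n ≤
      ENNReal.ofReal (a + b + (1 + θ / ε) * I w)) ∧
      (ENNReal.ofReal a ≤ ((k + 1 : ℕ) : ℝ≥0∞)⁻¹ * H.EW S (range0 w) n +
        ENNReal.ofReal (b + (1 + θ / ε) * I w))) := by
    intro w hw
    have hcl : IsClosedWalk w := by simpa [hF] using hw
    have := EW_bounds sh hchi S (range0_finite hcl) n (k + 1) (by omega) hθ hε
    push_cast at this ⊢
    exact this
  have hθε : 0 ≤ 1 + θ / ε := by positivity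
  constructor
  · rw [hsum]
    calc ENNReal.ofReal q * ∑ w ∈ F, (((k + 1 : ℕ) : ℝ≥0∞)⁻¹ * H.EW S (range0 w) n)
        ≤ ENNReal.ofReal q * ∑ w ∈ F, ENNReal.ofReal (a + b + (1 + θ / ε) * I w) :=
          mul_le_mul' le_rfl (Finset.sum_le_sum fun w hw => (hbd w hw).1)
      _ = ENNReal.ofReal (q * ∑ w ∈ F, (a + b + (1 + θ / ε) * I w)) := by
          rw [ENNReal.ofReal_mul hq0, ENNReal.ofReal_sum_of_nonneg]
          intro w _
          have := hI0 w
          positivity
      _ ≤ _ := by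
          refine ENNReal.ofReal_le_ofReal ?_
          rw [hkern, mul_assoc]
          refine mul_le_mul_of_nonneg_left ?_ hq0
          rw [Finset.sum_add_distrib, Finset.sum_const, ← Finset.mul_sum, nsmul_eq_mul]
          nlinarith [mul_le_mul_of_nonneg_left hη' hθε]
  · have h1 : ∑ w ∈ F, ENNReal.ofReal a ≤ ∑ w ∈ F,
        (((k + 1 : ℕ) : ℝ≥0∞)⁻¹ * H.EW S (range0 w) n +
          ENNReal.ofReal (b + (1 + θ / ε) * I w)) :=
      Finset.sum_le_sum fun w hw => (hbd w hw).2
    rw [Finset.sum_add_distrib] at h1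
    rw [hsum]
    calc ENNReal.ofReal ((kern (Set.univ : Set (Lat d)) (k + 1) 0 0).toReal * a)
        = ENNReal.ofReal q * ∑ w ∈ F, ENNReal.ofReal a := by
          rw [hkern, Finset.sum_const, nsmul_eq_mul, ← ENNReal.ofReal_natCast,
            ← ENNReal.ofReal_mul (by positivity), ← ENNReal.ofReal_mul hq0]
          congr 1; ring
      _ ≤ ENNReal.ofReal q * (∑ w ∈ F, ((k + 1 : ℕ) : ℝ≥0∞)⁻¹ * H.EW S (range0 w) n +
          ∑ w ∈ F, ENNReal.ofReal (b + (1 + θ / ε) * I w)) := mul_le_mul' le_rfl h1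
      _ = ENNReal.ofReal q * ∑ w ∈ F, ((k + 1 : ℕ) : ℝ≥0∞)⁻¹ * H.EW S (range0 w) n +
          ENNReal.ofReal (q * ∑ w ∈ F, (b + (1 + θ / ε) * I w)) := by
          rw [mul_add, ENNReal.ofReal_mul hq0, ENNReal.ofReal_sum_of_nonneg]
          intro w _
          have := hI0 w
          positivity
      _ ≤ _ := by
          refine add_le_add le_rfl (ENNReal.ofReal_le_ofReal ?_)
          rw [hkern, mul_assoc]
          refine mul_le_mul_of_nonneg_left ?_ hq0
          rw [Finset.sum_add_distrib, Finset.sum_const, ← Finset.mul_sum, nsmul_eq_mul]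
          nlinarith [mul_le_mul_of_nonneg_left hη' hθε]

end HSys

end Pool.Agent.LoopPerc
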