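import Pool.Agent.LoopPerc.LoopRates
import Pool.Agent.LoopPerc.BridgeLLN
import Pool.Agent.LoopPerc.ExpMoment

/-!
# The volume tail: existence of the limit
-/

namespace Pool.Agent.LoopPerc

open MeasureTheory ProbabilityTheory Filter Topology Set HSys
open scoped ENNReal NNReal

lemma length_map_cycle {α β : Type*} (f : α → β) (c : Cycle α) : (c.map f).length = c.length := by
  induction c using Quotient.inductionOn' with
  | h l => 
    change ((l : Cycle α).map f).length = (l : Cycle α).length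
    simp

/-- the expectation of the size of a large cluster tends to zero -/
lemma big_cluster_tendsto {d : ℕ} {ι : Type*} [Countable ι] {H : HSys (Lat d) ι}
    (hchi : H.chi ≠ ⊤) :
    Tendsto (fun n : ℕ => H.EC Set.univ 0 (fun A => if n < A.card then (A.card : ℝ≥0∞) else 0))
      atTop (𝓝 0) := by
  unfold EC
  refine tsum_tendsto_zero_of_dominated _
    (fun A : Finset (Lat d) => H.P {ω | H.clus Set.univ ω 0 = A} * (A.card : ℝ≥0∞)) ?_ ?_ ?_
  · refine ne_top_of_le_ne_top hchi ?_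
    have := tsum_clus_mul_sum_le (H := H) Set.univ 0 (fun _ => 1)
    simp only [Finset.sum_const, nsmul_eq_mul, mul_one] at this
    exact this
  · intro n A
    refine mul_le_mul' le_rfl ?_
    simp only
    split_ifs
    · exact le_rfl
    · exact zero_le
  · intro A
    refine tendsto_const_nhds.congr' ?_
    filter_upwards [eventually_ge_atTop A.card] with n hn
    rw [if_neg (by omega), mul_zero]

lemma ofReal_rpow_tendsto_zero (C e : ℝ) (he : e < 0) :
    Tendsto (fun n : ℕ => ENNReal.ofReal (C * (n : ℝ) ^ e)) atTop (𝓝 0) := by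
  have h1 : Tendsto (fun n : ℕ => C * (n : ℝ) ^ e) atTop (𝓝 (C * 0)) := by
    refine Tendsto.const_mul _ ?_
    have := (tendsto_rpow_neg_atTop (y := -e) (by linarith)).comp tendsto_natCast_atTop_atTop
    simpa [Function.comp_def] using this
  have h2 := (ENNReal.continuous_ofReal.tendsto _).comp h1
  simpa [Function.comp_def] using h2

/-- **Existence of the limit for the volume tail.** -/
theorem volume_limit {d : ℕ} (hd : 5 ≤ d) (α : ℝ≥0) (H : HSys (Lat d) (Cycle (Lat d)))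
    (hH : H = loopSys d α) (sh : H.Shift)
    (hact : ∀ v (c : Cycle (Lat d)), sh.act v c = c.map (· + v)) (hchi : H.chi ≠ ⊤) :
    ∃ L : ℝ, 0 ≤ L ∧ Tendsto (fun n : ℕ => ENNReal.ofReal ((n : ℝ) ^ ((d : ℝ) / 2 - 1)) *
      H.P {ω | (n : ℕ∞) < (H.clus Set.univ ω 0).encard}) atTop (𝓝 (ENNReal.ofReal L)) := by
  classical
  have hd' : (5 : ℝ) ≤ d := by exact_mod_cast hd
  set β : ℝ := (d : ℝ) / 2 - 1 with hβ
  have hβ1 : 3 / 2 ≤ β := by rw [hβ]; linarith
  have hlen : ∀ v (c : Cycle (Lat d)), (sh.act v c).length = c.length := fun v c => by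
    rw [hact, length_map_cycle]
  have hinv : ∀ N, sh.Inv (shortLoops d N) := by
    intro N v c
    simp only [shortLoops, mem_ofPred_eq, hlen]
  have hmono : Monotone (shortLoops d) := fun a b hab c hc => lt_of_lt_of_le hc hab
  have hU : ⋃ k, shortLoops d k = Set.univ := by
    ext c
    simp only [mem_iUnion, mem_univ, iff_true]
    exact ⟨c.length + 1, Nat.lt_succ_self _⟩
  have hχ : ∫⁻ ω, ((H.clus Set.univ ω 0).encard : ℝ≥0∞) ∂H.P < ⊤ := by
    rw [HSys.lintegral_encard_clus]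
    exact lt_top_iff_ne_top.2 hchi
  obtain ⟨θ, hθ, hLLN⟩ := bridge_lln hd H sh hχ (shortLoops d) hmono hU hinv
  obtain ⟨C, hC⟩ := rate_len_le hd α
  obtain ⟨δ₀, hδ₀, htail⟩ := truncated_cluster_tail H sh (fun c => c.length)
    (by rw [hH]; exact card_s_le) hlen hχ C (by rw [hH]; exact hC) 1 d one_pos
  set δ : ℝ := min δ₀ (1 / (2 * θ)) with hδdef
  have hδ : 0 < δ := lt_min hδ₀ (by positivity)
  have hδθ : δ < 1 / θ := by
    refine lt_of_le_of_lt (min_le_right _ _) ?_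
    refine one_div_lt_one_div_of_lt hθ (by linarith)
  obtain ⟨C', hC'⟩ := htail δ (min_le_left _ _)
  obtain ⟨L, hL0, hL⟩ := volMain_limit (by omega) α H hH sh hinv hchi hθ hLLN hδ hδθ
  refine ⟨L, hL0, ?_⟩
  obtain ⟨C₁, hC₁, hr1⟩ := rate_long_one hd α
  obtain ⟨C₂, hC₂, hr2⟩ := rate_long_card hd α
  rw [← hH] at hr1 hr2
  set b : ℝ := C₁ * δ ^ (-β) with hb
  set k : ℝ := C₂ * δ ^ (1 - β) with hk
  have hb0 : 0 ≤ b := by positivity
  have hk0 : 0 ≤ k := by positivity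
  set χ := H.chi with hχdef
  set bn : ℕ → ℝ≥0∞ := fun n => ENNReal.ofReal (b * (n : ℝ) ^ (-β)) with hbn
  set kn : ℕ → ℝ≥0∞ := fun n => ENNReal.ofReal (k * (n : ℝ) ^ (1 - β)) with hkn
  set S : ℕ → Set (Cycle (Lat d)) := fun n => shortLoops d ⌈δ * n⌉₊ with hS
  have hceil : ∀ n : ℕ, 1 ≤ n → 1 ≤ ⌈δ * n⌉₊ ∧ δ * n ≤ (⌈δ * n⌉₊ : ℝ) := by
    intro n hn
    have hn' : (0 : ℝ) < n := by exact_mod_cast hn
    exact ⟨Nat.one_le_iff_ne_zero.2 (Nat.ceil_pos.2 (by positivity)).ne', Nat.le_ceil _⟩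
  have hB : ∀ n : ℕ, 1 ≤ n → ∀ u, H.rate (S n)ᶜ u (fun _ => 1) ≤ bn n := by
    intro n hn u
    have hn' : (0 : ℝ) < n := by exact_mod_cast hn
    obtain ⟨h1, h2⟩ := hceil n hn
    refine (hr1 _ h1 u).trans (ENNReal.ofReal_le_ofReal ?_)
    rw [hb, mul_assoc, ← Real.mul_rpow hδ.le hn'.le]
    refine mul_le_mul_of_nonneg_left ?_ hC₁.le
    have e1 : 1 - (d : ℝ) / 2 = -β := by rw [hβ]; ring
    rw [e1]
    exact Real.rpow_le_rpow_of_nonpos (by positivity) h2 (by linarith)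
  have hK : ∀ n : ℕ, 1 ≤ n → ∀ u, H.rate (S n)ᶜ u (fun i => ((H.s i).card : ℝ≥0∞)) ≤ kn n := by
    intro n hn u
    have hn' : (0 : ℝ) < n := by exact_mod_cast hn
    obtain ⟨h1, h2⟩ := hceil n hn
    have h3 := hr2 _ h1 u
    refine (le_trans (le_of_eq ?_) h3).trans (ENNReal.ofReal_le_ofReal ?_)
    · rw [hH]
    rw [hk, mul_assoc, ← Real.mul_rpow hδ.le hn'.le]
    refine mul_le_mul_of_nonneg_left ?_ hC₂.le
    have e1 : 2 - (d : ℝ) / 2 = 1 - β := by rw [hβ]; ring
    rw [e1]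
    exact Real.rpow_le_rpow_of_nonpos (by positivity) h2 (by linarith)
  have hX : ∀ v, ∑' u, H.tau Set.univ v u ≤ χ := fun v => (sum_tau_univ sh v).le
  set en : ℕ → ℝ≥0∞ := fun n =>
    H.EC Set.univ 0 (fun A => if n < A.card then (A.card : ℝ≥0∞) else 0) with hen
  have hen0 : Tendsto en atTop (𝓝 0) := big_cluster_tendsto hchi
  -- main inequalities
  have up : ∀ n : ℕ, 1 ≤ n → H.P {ω | (n : ℕ∞) < (H.clus Set.univ ω 0).encard} ≤
      H.P {ω | (n : ℕ∞) < (H.clus (S n) ω 0).encard} + H.volMain (S n) 0 n +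
        χ * (n * bn n * bn n + kn n * (χ * bn n)) :=
    fun n hn => vol_upper (S n) 0 n (hB n hn) (hK n hn) hX
  have low : ∀ n : ℕ, 1 ≤ n → H.volMain (S n) 0 n ≤
      H.P {ω | (n : ℕ∞) < (H.clus Set.univ ω 0).encard} +
      χ * (n * bn n * bn n) + bn n * (χ * bn n) + en n * bn n := by
    intro n hn
    refine (vol_lower (S n) 0 n (clus_finite sh hchi _ _) (hB n hn) hX).trans ?_
    refine add_le_add le_rfl (mul_le_mul' ?_ le_rfl)
    refine EC_mono (subset_univ _) 0 ?_ (clus_finite sh hchi _ _)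
    intro A B hAB
    have hc : A.card ≤ B.card := Finset.card_le_card hAB
    simp only
    split_ifs with h1 h2
    · exact_mod_cast hc
    · omega
    · exact zero_le
    · exact le_rfl
  -- small terms
  have hnb : ∀ n : ℕ, 1 ≤ n → ENNReal.ofReal ((n : ℝ) ^ β) * bn n = ENNReal.ofReal b := by
    intro n hn
    have hn' : (0 : ℝ) < n := by exact_mod_cast hn
    simp only [hbn]
    rw [← ENNReal.ofReal_mul (by positivity)]
    congr 1
    rw [mul_left_comm, ← Real.rpow_add hn']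
    simp
  have hnbn : ∀ n : ℕ, 1 ≤ n → (n : ℝ≥0∞) * bn n = ENNReal.ofReal (b * (n : ℝ) ^ (1 - β)) := by
    intro n hn
    have hn' : (0 : ℝ) < n := by exact_mod_cast hn
    simp only [hbn]
    rw [← ENNReal.ofReal_natCast, ← ENNReal.ofReal_mul hn'.le]
    congr 1
    rw [mul_left_comm]
    congr 1
    rw [Real.rpow_sub hn', Real.rpow_neg hn'.le, Real.rpow_one]
    field_simp
  have t1 : Tendsto (fun n : ℕ => ENNReal.ofReal (b * (n : ℝ) ^ (1 - β))) atTop (𝓝 0) :=
    ofReal_rpow_tendsto_zero _ _ (by linarith)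
  have t2 : Tendsto kn atTop (𝓝 0) := ofReal_rpow_tendsto_zero _ _ (by linarith)
  have t3 : Tendsto bn atTop (𝓝 0) := ofReal_rpow_tendsto_zero _ _ (by linarith)
  have mul0 : ∀ {f : ℕ → ℝ≥0∞} (a : ℝ≥0∞), a ≠ ⊤ → Tendsto f atTop (𝓝 0) →
      Tendsto (fun n => a * f n) atTop (𝓝 0) := by
    intro f a ha hf
    have := ENNReal.Tendsto.const_mul (a := a) hf (Or.inr ha)
    simpa using this
  have add0 : ∀ {f g : ℕ → ℝ≥0∞}, Tendsto f atTop (𝓝 0) → Tendsto g atTop (𝓝 0) →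
      Tendsto (fun n => f n + g n) atTop (𝓝 0) := by
    intro f g hf hg
    simpa using hf.add hg
  set E2 : ℕ → ℝ≥0∞ := fun n => χ * (ENNReal.ofReal b * ENNReal.ofReal (b * (n : ℝ) ^ (1 - β))) +
    χ * (χ * (ENNReal.ofReal b * kn n)) with hE2
  have tE2 : Tendsto E2 atTop (𝓝 0) :=
    add0 (mul0 _ hchi (mul0 _ ENNReal.ofReal_ne_top t1))
      (mul0 _ hchi (mul0 _ hchi (mul0 _ ENNReal.ofReal_ne_top t2)))
  set E3 : ℕ → ℝ≥0∞ := fun n => χ * (ENNReal.ofReal b * ENNReal.ofReal (b * (n : ℝ) ^ (1 - β))) +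
    χ * (ENNReal.ofReal b * bn n) + ENNReal.ofReal b * en n with hE3
  have tE3 : Tendsto E3 atTop (𝓝 0) :=
    add0 (add0 (mul0 _ hchi (mul0 _ ENNReal.ofReal_ne_top t1))
      (mul0 _ hchi (mul0 _ ENNReal.ofReal_ne_top t3))) (mul0 _ ENNReal.ofReal_ne_top hen0)
  set E1 : ℕ → ℝ≥0∞ := fun n => ENNReal.ofReal (C' * (n : ℝ) ^ (β - d)) with hE1
  have tE1 : Tendsto E1 atTop (𝓝 0) :=
    ofReal_rpow_tendsto_zero _ _ (by rw [hβ]; linarith)
  have hE1le : ∀ n : ℕ, 1 ≤ n → ENNReal.ofReal ((n : ℝ) ^ β) *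
      H.P {ω | (n : ℕ∞) < (H.clus (S n) ω 0).encard} ≤ E1 n := by
    intro n hn
    have hn' : (0 : ℝ) < n := by exact_mod_cast hn
    have h1 : H.P {ω | (n : ℕ∞) < (H.clus (S n) ω 0).encard} ≤
        ENNReal.ofReal (C' * (n : ℝ) ^ (-(d : ℝ))) := by
      refine le_trans (measure_mono ?_) (hC' n hn)
      intro ω hω
      have h2 : (n : ℕ∞) < (H.clus (S n) ω 0).encard := hω
      have h3 : {i : Cycle (Lat d) | ((fun c : Cycle (Lat d) => c.length) i : ℝ) < δ * n} = S n := by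
        ext c
        simp only [hS, shortLoops, mem_ofPred_eq, Nat.lt_ceil]
      simp only [mem_ofPred_eq] at h3 ⊢
      rw [h3, one_mul, ENNReal.ofReal_natCast]
      exact_mod_cast ENat.toENNReal_lt.2 h2
    refine (mul_le_mul' le_rfl h1).trans ?_
    rw [← ENNReal.ofReal_mul (by positivity)]
    refine ENNReal.ofReal_le_ofReal (le_of_eq ?_)
    rw [mul_left_comm, ← Real.rpow_add hn']
    rfl
  have lim1 : Tendsto (fun n : ℕ => ENNReal.ofReal ((n : ℝ) ^ β) * H.volMain (S n) 0 n - E3 n) atTop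
      (𝓝 (ENNReal.ofReal L)) := by
    have := ENNReal.Tendsto.sub hL tE3 (Or.inl ENNReal.ofReal_ne_top)
    simpa using this
  have lim2 : Tendsto (fun n : ℕ => E1 n + ENNReal.ofReal ((n : ℝ) ^ β) * H.volMain (S n) 0 n +
      E2 n) atTop (𝓝 (ENNReal.ofReal L)) := by
    have := (tE1.add hL).add tE2
    simpa using this
  refine tendsto_of_tendsto_of_tendsto_of_le_of_le' lim1 lim2 ?_ ?_
  · filter_upwards [eventually_ge_atTop 1] with n hn
    rw [tsub_le_iff_right]
    refine (mul_le_mul' le_rfl (low n hn)).trans (le_of_eq ?_)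
    have e1 := hnb n hn
    have e2 := hnbn n hn
    simp only [hE3]
    rw [← e2, ← e1]
    ring
  · filter_upwards [eventually_ge_atTop 1] with n hn
    refine (mul_le_mul' le_rfl (up n hn)).trans ?_
    rw [mul_add, mul_add]
    refine add_le_add (add_le_add (hE1le n hn) le_rfl) (le_of_eq ?_)
    have e1 := hnb n hn
    have e2 := hnbn n hn
    simp only [hE2]
    rw [← e2, ← e1]
    ring

end Pool.Agent.LoopPerc
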