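import Pool.Agent.LoopPerc.Volume2
import Pool.Agent.LoopPerc.LoopsWalks

/-!
# Mass transport for the main term of the volume tail
-/

namespace Pool.Agent.LoopPerc

open MeasureTheory ProbabilityTheory Filter Topology Set
open scoped ENNReal NNReal

namespace HSys

variable {d : ℕ} {ι : Type*} {H : HSys (Lat d) ι}

lemma clusW_tr (sh : H.Shift) {S : Set ι} (hS : sh.Inv S) (v : Lat d) (ω : ι → ℕ)
    (W : Set (Lat d)) :
    H.clusW S (sh.tr v ω) ((fun y => y + v) '' W) = (fun y => y + v) '' H.clusW S ω W := by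
  ext y
  constructor
  · rintro ⟨_, ⟨u, hu, rfl⟩, hc⟩
    refine ⟨y - v, ⟨u, hu, ?_⟩, by simp⟩
    have h1 : H.Conn S (sh.tr v ω) (u + v) (y - v + v) := by rw [sub_add_cancel]; exact hc
    have h2 := sh.conn_tr.1 h1
    rwa [hS.preimage] at h2
  · rintro ⟨z, ⟨u, hu, hc⟩, rfl⟩
    refine ⟨u + v, ⟨u, hu, rfl⟩, ?_⟩
    rw [sh.conn_tr, hS.preimage]
    exact hc

variable [Countable ι]

lemma P_mem_clusW_shift (sh : H.Shift) {S : Set ι} (hS : sh.Inv S) (v y : Lat d) (W : Set (Lat d))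
    (n : ℕ) :
    H.P {ω | y + v ∈ H.clusW S ω ((fun y => y + v) '' W) ∧
      (n : ℕ∞) < (H.clusW S ω ((fun y => y + v) '' W)).encard} =
    H.P {ω | y ∈ H.clusW S ω W ∧ (n : ℕ∞) < (H.clusW S ω W).encard} := by
  have hm : MeasurableSet {ω | y + v ∈ H.clusW S ω ((fun y => y + v) '' W) ∧
      (n : ℕ∞) < (H.clusW S ω ((fun y => y + v) '' W)).encard} :=
    (sig_le S _ (measurableSet_mem_clusW S _ _)).inter
      (sig_le S _ (measurableSet_lt_encard _ (fun y => measurableSet_mem_clusW S _ y) n))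
  rw [← (sh.measurePreserving_tr v).measure_preimage hm.nullMeasurableSet]
  congr 1
  ext ω
  simp only [mem_preimage, mem_ofPred_eq]
  rw [clusW_tr sh hS, Set.InjOn.encard_image (add_left_injective v).injOn]
  refine and_congr_left fun _ => ?_
  constructor
  · rintro ⟨z, hz, hzy⟩
    have : z = y := add_left_injective v hzy
    exact this ▸ hz
  · intro h; exact ⟨y, h, rfl⟩

/-- expectation of the size of the cluster of `W`, restricted to the event that it is `> n` -/
noncomputable def EW (H : HSys (Lat d) ι) (S : Set ι) (W : Set (Lat d)) (n : ℕ) : ℝ≥0∞ :=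
  ∑' y, H.P {ω | y ∈ H.clusW S ω W ∧ (n : ℕ∞) < (H.clusW S ω W).encard}

lemma tsum_shift_eq_EW (sh : H.Shift) {S : Set ι} (hS : sh.Inv S) (W : Set (Lat d)) (n : ℕ) :
    ∑' x : Lat d, H.P {ω | (0 : Lat d) ∈ H.clusW S ω ((fun y => y + x) '' W) ∧
      (n : ℕ∞) < (H.clusW S ω ((fun y => y + x) '' W)).encard} = H.EW S W n := by
  unfold EW
  rw [← (Equiv.neg (Lat d)).tsum_eq]
  refine tsum_congr fun x => ?_
  rw [← P_mem_clusW_shift sh hS (-x) x W n]
  simp

end HSys

open HSys

section loops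

variable {d : ℕ}

lemma coe_toFinset_verts {k : ℕ} (x : Lat d) (w : Fin (k + 1) → Step d) (hw : IsClosedWalk w) :
    (((verts x w : Cycle (Lat d)).toFinset : Finset (Lat d)) : Set (Lat d)) =
      (fun y => y + x) '' range0 w := by
  ext a
  have h1 : a ∈ (((verts x w : Cycle (Lat d)).toFinset : Finset (Lat d)) : Set (Lat d)) ↔
      a ∈ (verts x w : Cycle (Lat d)) := by
    rw [Finset.mem_coe, Cycle.coe_toFinset, List.mem_toFinset, Cycle.mem_coe_iff]
  rw [h1, mem_verts]
  constructor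
  · rintro ⟨j, rfl⟩
    exact ⟨ppos w j, ⟨j, rfl⟩, add_comm _ _⟩
  · rintro ⟨_, ⟨j, rfl⟩, rfl⟩
    refine ⟨⟨j % (k + 1), Nat.mod_lt _ (Nat.succ_pos k)⟩, ?_⟩
    simp only
    rw [ppos_mod hw]
    exact add_comm _ _

lemma length_verts {k : ℕ} (x : Lat d) (w : Fin (k + 1) → Step d) :
    (verts x w : Cycle (Lat d)).length = k + 1 := by
  simp [verts]

/-- loops of length `< N` -/
def shortLoops (d N : ℕ) : Set (Cycle (Lat d)) := {c | c.length < N}

/-- the main term of the volume tail as a sum over closed walks -/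
theorem volMain_eq (hd : 1 ≤ d) (α : ℝ≥0) (H : HSys (Lat d) (Cycle (Lat d)))
    (hH : H = loopSys d α) (sh : H.Shift)
    (hinv : ∀ N, sh.Inv (shortLoops d N)) (N n : ℕ) :
    H.volMain (shortLoops d N) 0 n =
      α * ∑' k : ℕ, if N ≤ k + 1 then ((k : ℝ≥0∞) + 1)⁻¹ * ((2 * (d : ℝ≥0∞))⁻¹) ^ (k + 1) *
        ∑ w : Fin (k + 1) → Step d, (if IsClosedWalk w then
          H.EW (shortLoops d N) (range0 w) n else 0) else 0 := by
  classical
  set S := shortLoops d N with hS
  set h : Cycle (Lat d) → ℝ≥0∞ := Sᶜ.indicator (fun c => H.P {ω | c ∈ H.hit (H.clus S ω 0) ∧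
    (n : ℕ∞) < (H.clusW S ω (H.s c)).encard}) with hh
  have h1 : H.volMain S 0 n = α * ∑' c : Cycle (Lat d), (loopMeasure c : ℝ≥0∞) * h c := by
    unfold volMain
    rw [← ENNReal.tsum_mul_left]
    refine tsum_congr fun c => ?_
    by_cases hc : c ∈ Sᶜ
    · simp only [hh, indicator_of_mem hc]
      have : ((H.lam c : ℝ≥0) : ℝ≥0∞) = α * (loopMeasure c : ℝ≥0∞) := by
        simp [hH, loopSys]
      rw [this, mul_assoc]
    · simp only [hh, indicator_of_notMem hc, mul_zero]
  rw [h1, tsum_loopMeasure_mul d hd h]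
  congr 1
  rw [ENNReal.tsum_comm]
  refine tsum_congr fun k => ?_
  rw [Summable.tsum_finsetSum fun _ _ => ENNReal.summable]
  by_cases hk : N ≤ k + 1
  swap
  · rw [if_neg hk]
    refine Finset.sum_eq_zero fun w _ => ?_
    rw [ENNReal.tsum_eq_zero]
    intro x
    split_ifs with hw
    · have : (verts x w : Cycle (Lat d)) ∉ Sᶜ := by
        simp only [hS, shortLoops, mem_compl_iff, mem_ofPred_eq, length_verts, not_not]
        omega
      rw [hh, indicator_of_notMem this, mul_zero]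
    · rfl
  rw [if_pos hk, Finset.mul_sum]
  refine Finset.sum_congr rfl fun w _ => ?_
  by_cases hw : IsClosedWalk w
  swap
  · simp [hw]
  simp only [if_pos hw]
  rw [ENNReal.tsum_mul_left]
  congr 1
  rw [← tsum_shift_eq_EW sh (hinv N)]
  refine tsum_congr fun x => ?_
  have hmem : (verts x w : Cycle (Lat d)) ∈ Sᶜ := by
    simp only [hS, shortLoops, mem_compl_iff, mem_ofPred_eq, length_verts, not_lt]
    omega
  rw [hh, indicator_of_mem hmem]
  have hs : ((H.s (verts x w : Cycle (Lat d)) : Finset (Lat d)) : Set (Lat d)) =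
      (fun y => y + x) '' range0 w := by
    rw [← coe_toFinset_verts x w hw]
    simp only [hH, loopSys]
  rw [hs]
  congr 1
  ext ω
  simp only [mem_ofPred_eq]
  refine and_congr_left fun _ => ?_
  constructor
  · rintro ⟨y, hy, hc⟩
    refine ⟨y, ?_, Conn.symm hc⟩
    rw [← hs]; exact hy
  · rintro ⟨y, hy, hc⟩
    refine ⟨y, ?_, Conn.symm hc⟩
    rw [← hs] at hy; exact hy

end loops

end Pool.Agent.LoopPerc
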