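import Pool.Agent.LoopPerc.RealTail

/-!
# Real analysis for the volume tail
-/

namespace Pool.Agent.LoopPerc

open Filter Topology Set
open scoped ENNReal

lemma ennreal_tendsto_of_ofReal {f : ℕ → ℝ≥0∞} {A : ℝ}
    (h : ∀ e > 0, ∀ᶠ n in atTop, f n ≤ ENNReal.ofReal (A + e) ∧ ENNReal.ofReal (A - e) ≤ f n) :
    Tendsto f atTop (𝓝 (ENNReal.ofReal A)) := by
  rw [ENNReal.tendsto_nhds ENNReal.ofReal_ne_top]
  intro ε hε
  by_cases hεt : ε = ⊤
  · subst hεt
    refine Eventually.of_forall fun n => ?_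
    rw [mem_Icc]
    exact ⟨by simp, by simp⟩
  · have he : 0 < ε.toReal := ENNReal.toReal_pos hε.ne' hεt
    filter_upwards [h _ he] with n hn
    rw [mem_Icc]
    constructor
    · refine le_trans (le_of_eq ?_) hn.2
      rw [ENNReal.ofReal_sub _ he.le, ENNReal.ofReal_toReal hεt]
    · refine hn.1.trans (ENNReal.ofReal_add_le.trans ?_)
      rw [ENNReal.ofReal_toReal hεt]

/-- tail of `p` along the even numbers -/
noncomputable def evenTail (p : ℕ → ℝ) (N : ℕ) : ℝ :=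
  ∑' j : ℕ, if N ≤ 2 * (j + 1) then p (2 * (j + 1)) else 0

variable {p : ℕ → ℝ} {β c : ℝ}

lemma even_summable (hβ : 0 < β)
    (h : Tendsto (fun k : ℕ => (k : ℝ) ^ (β + 1) * p (2 * k)) atTop (𝓝 c)) :
    Summable fun j : ℕ => p (2 * (j + 1)) := by
  have h1 := h.comp (tendsto_add_atTop_nat 1)
  refine (tail_asymp (fun j => p (2 * (j + 1))) β hβ c (h1.congr fun k => ?_)).1
  simp only [Function.comp, Nat.cast_add, Nat.cast_one]

lemma evenTail_asymp (hβ : 0 < β)
    (h : Tendsto (fun k : ℕ => (k : ℝ) ^ (β + 1) * p (2 * k)) atTop (𝓝 c)) :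
    Tendsto (fun N : ℕ => (N : ℝ) ^ β * evenTail p N) atTop (𝓝 (c / β * 2 ^ β)) := by
  have h1 := h.comp (tendsto_add_atTop_nat 1)
  have h2 := (tail_asymp (fun j => p (2 * (j + 1))) β hβ c (h1.congr fun k => by
    simp only [Function.comp, Nat.cast_add, Nat.cast_one])).2
  have hK : Tendsto (fun N : ℕ => (N - 1) / 2) atTop atTop := by
    rw [tendsto_atTop]
    intro b
    filter_upwards [eventually_ge_atTop (2 * b + 1)] with N hN
    omega
  have h3 := h2.comp hK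
  have hr : Tendsto (fun N : ℕ => (N : ℝ) / ((((N - 1) / 2 : ℕ) : ℝ) + 1)) atTop (𝓝 2) := by
    have hl : Tendsto (fun N : ℕ => 2 - 2 / ((N : ℝ) + 1)) atTop (𝓝 (2 - 0)) := by
      refine tendsto_const_nhds.sub ?_
      have h5 : Tendsto (fun k : ℕ => ((k : ℝ) + 1)) atTop atTop :=
        tendsto_atTop_add_const_right _ _ tendsto_natCast_atTop_atTop
      have h6 := h5.inv_tendsto_atTop.const_mul 2
      simpa [div_eq_mul_inv] using h6
    rw [sub_zero] at hl
    refine tendsto_of_tendsto_of_tendsto_of_le_of_le' hl tendsto_const_nhds ?_ ?_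
    · filter_upwards [eventually_ge_atTop 1] with N hN
      have e1 : 2 * (((N - 1) / 2 : ℕ) : ℝ) ≤ N - 1 := by
        have : 2 * ((N - 1) / 2) + 1 ≤ N := by omega
        have h7 : (2 : ℝ) * (((N - 1) / 2 : ℕ) : ℝ) + 1 ≤ N := by exact_mod_cast this
        linarith
      have e2 : (0 : ℝ) ≤ (((N - 1) / 2 : ℕ) : ℝ) := Nat.cast_nonneg _
      have e3 : (1 : ℝ) ≤ N := by exact_mod_cast hN
      rw [le_div_iff₀ (by linarith)]
      have e4 : 2 - 2 / ((N : ℝ) + 1) = 2 * N / (N + 1) := by field_simp; ring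
      rw [e4, div_mul_eq_mul_div, div_le_iff₀ (by linarith)]
      nlinarith
    · filter_upwards [eventually_ge_atTop 1] with N hN
      have e1 : (N : ℝ) ≤ 2 * ((((N - 1) / 2 : ℕ) : ℝ) + 1) := by
        have : N ≤ 2 * ((N - 1) / 2 + 1) := by omega
        exact_mod_cast this
      have e2 : (0 : ℝ) ≤ (((N - 1) / 2 : ℕ) : ℝ) := Nat.cast_nonneg _
      rw [div_le_iff₀ (by linarith)]
      exact e1
  have h4 := h3.mul (hr.rpow_const (p := β) (Or.inl two_ne_zero))
  refine h4.congr' ?_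
  filter_upwards [eventually_ge_atTop 1] with N hN
  have e2 : (0 : ℝ) ≤ (((N - 1) / 2 : ℕ) : ℝ) := Nat.cast_nonneg _
  have e5 : evenTail p N = ∑' k, p (2 * ((N - 1) / 2 + k + 1)) := by
    unfold evenTail
    rw [← (add_right_injective ((N - 1) / 2)).tsum_eq]
    · refine tsum_congr fun k => ?_
      rw [if_pos (by omega)]
    · intro j hj
      rw [Function.mem_support] at hj
      have : N ≤ 2 * (j + 1) := by
        by_contra hc
        rw [if_neg hc] at hj
        exact hj rfl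
      exact ⟨j - (N - 1) / 2, by simp only; omega⟩
  simp only [Function.comp]
  rw [e5, Real.div_rpow (Nat.cast_nonneg _) (by linarith)]
  have e6 : (0 : ℝ) < ((((N - 1) / 2 : ℕ) : ℝ) + 1) ^ β := Real.rpow_pos_of_pos (by linarith) _
  field_simp

/-- scaled tails -/
lemma evenTail_scale (hβ : 0 < β)
    (h : Tendsto (fun k : ℕ => (k : ℝ) ^ (β + 1) * p (2 * k)) atTop (𝓝 c))
    (N : ℕ → ℕ) (a : ℝ) (ha : 0 < a) (hN : Tendsto (fun n : ℕ => (N n : ℝ) / n) atTop (𝓝 a⁻¹)) :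
    Tendsto (fun n : ℕ => (n : ℝ) ^ β * evenTail p (N n)) atTop
      (𝓝 (c / β * 2 ^ β * a ^ β)) := by
  have hNt : Tendsto N atTop atTop := by
    have h1 : Tendsto (fun n : ℕ => (N n : ℝ) / n * n) atTop atTop :=
      hN.pos_mul_atTop (inv_pos.2 ha) tendsto_natCast_atTop_atTop
    have h2 : Tendsto (fun n : ℕ => (N n : ℝ)) atTop atTop := by
      refine h1.congr' ?_
      filter_upwards [eventually_ge_atTop 1] with n hn
      have : (0 : ℝ) < n := by exact_mod_cast hn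
      field_simp
    exact tendsto_natCast_atTop_iff.1 h2
  have h1 := (evenTail_asymp hβ h).comp hNt
  have h2 : Tendsto (fun n : ℕ => ((n : ℝ) / N n) ^ β) atTop (𝓝 (a ^ β)) := by
    have h3 := (hN.inv₀ (inv_ne_zero ha.ne'))
    rw [inv_inv] at h3
    refine (h3.rpow_const (p := β) (Or.inl ha.ne')).congr fun n => ?_
    rw [inv_div]
  refine (h1.mul h2).congr' ?_
  filter_upwards [hNt.eventually_ge_atTop 1, eventually_ge_atTop 1] with n hn hn1
  have e1 : (0 : ℝ) < N n := by exact_mod_cast hn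
  have e2 : (0 : ℝ) < n := by exact_mod_cast hn1
  simp only [Function.comp]
  rw [Real.div_rpow e2.le e1.le]
  have e3 : (0 : ℝ) < (N n : ℝ) ^ β := Real.rpow_pos_of_pos e1 _
  field_simp

lemma floor_scale (a : ℝ) (ha : 0 < a) :
    Tendsto (fun n : ℕ => ((⌊(n : ℝ) / a⌋₊ + 1 : ℕ) : ℝ) / n) atTop (𝓝 a⁻¹) := by
  have hu : Tendsto (fun n : ℕ => a⁻¹ + 1 / (n : ℝ)) atTop (𝓝 (a⁻¹ + 0)) :=
    tendsto_const_nhds.add tendsto_one_div_atTop_nhds_zero_nat
  rw [add_zero] at hu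
  refine tendsto_of_tendsto_of_tendsto_of_le_of_le' tendsto_const_nhds hu ?_ ?_
  · filter_upwards [eventually_ge_atTop 1] with n hn
    have hn' : (0 : ℝ) < n := by exact_mod_cast hn
    rw [le_div_iff₀ hn']
    push_cast
    have := (Nat.lt_floor_add_one ((n : ℝ) / a)).le
    have e0 : a⁻¹ * (n : ℝ) = n / a := by rw [div_eq_mul_inv, mul_comm]
    rw [e0]; exact this
  · filter_upwards [eventually_ge_atTop 1] with n hn
    have hn' : (0 : ℝ) < n := by exact_mod_cast hn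
    rw [div_le_iff₀ hn']
    push_cast
    have := Nat.floor_le (show 0 ≤ (n : ℝ) / a by positivity)
    have e : (a⁻¹ + 1 / (n : ℝ)) * n = (n : ℝ) / a + 1 := by field_simp
    rw [e]; linarith

lemma ceil_scale (a : ℝ) (ha : 0 < a) :
    Tendsto (fun n : ℕ => ((⌈(n : ℝ) / a⌉₊ : ℕ) : ℝ) / n) atTop (𝓝 a⁻¹) := by
  have hu : Tendsto (fun n : ℕ => a⁻¹ + 1 / (n : ℝ)) atTop (𝓝 (a⁻¹ + 0)) :=
    tendsto_const_nhds.add tendsto_one_div_atTop_nhds_zero_nat
  rw [add_zero] at hu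
  refine tendsto_of_tendsto_of_tendsto_of_le_of_le' tendsto_const_nhds hu ?_ ?_
  · filter_upwards [eventually_ge_atTop 1] with n hn
    have hn' : (0 : ℝ) < n := by exact_mod_cast hn
    rw [le_div_iff₀ hn']
    have := Nat.le_ceil ((n : ℝ) / a)
    have e0 : a⁻¹ * (n : ℝ) = n / a := by rw [div_eq_mul_inv, mul_comm]
    rw [e0]; exact this
  · filter_upwards [eventually_ge_atTop 1] with n hn
    have hn' : (0 : ℝ) < n := by exact_mod_cast hn
    rw [div_le_iff₀ hn']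
    have := (Nat.ceil_lt_add_one (show 0 ≤ (n : ℝ) / a by positivity)).le
    have e : (a⁻¹ + 1 / (n : ℝ)) * n = (n : ℝ) / a + 1 := by field_simp
    rw [e]; linarith


lemma evenTail_summand (hβ : 0 < β) (hp : ∀ m, 0 ≤ p m)
    (h : Tendsto (fun k : ℕ => (k : ℝ) ^ (β + 1) * p (2 * k)) atTop (𝓝 c)) (q : ℕ → Prop)
    [DecidablePred q] : Summable fun j : ℕ => if q j then p (2 * (j + 1)) else 0 := by
  refine Summable.of_nonneg_of_le (fun j => ?_) (fun j => ?_) (even_summable hβ h)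
  · split_ifs
    · exact hp _
    · exact le_rfl
  · split_ifs
    · exact le_rfl
    · exact hp _

lemma evenTail_nonneg (hp : ∀ m, 0 ≤ p m) (N : ℕ) : 0 ≤ evenTail p N :=
  tsum_nonneg fun j => by
    split_ifs
    · exact hp _
    · exact le_rfl

/-- the main term of the volume tail -/
theorem vol_real (hβ : 0 < β) (hp : ∀ m, 0 ≤ p m)
    (h : Tendsto (fun k : ℕ => (k : ℝ) ^ (β + 1) * p (2 * k)) atTop (𝓝 c))
    {θ δ : ℝ} (hθ : 0 < θ) (hδ : 0 < δ) (hδθ : δ < 1 / θ) (g : ℕ → ℕ → ℝ≥0∞)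
    (hg : ∀ ε, 0 < ε → ε < θ → ∀ η, 0 < η → ∀ᶠ n : ℕ in atTop, ∀ j : ℕ, ⌈δ * n⌉₊ ≤ 2 * (j + 1) →
      g n j ≤ ENNReal.ofReal (p (2 * (j + 1)) * ((if (n : ℝ) / (2 * (j + 1)) < θ then θ else 0) +
        (if |(n : ℝ) / (2 * (j + 1)) - θ| < ε then θ else 0) + (1 + θ / ε) * η)) ∧
      ENNReal.ofReal (p (2 * (j + 1)) * (if (n : ℝ) / (2 * (j + 1)) < θ then θ else 0)) ≤
        g n j + ENNReal.ofReal (p (2 * (j + 1)) *
          ((if |(n : ℝ) / (2 * (j + 1)) - θ| < ε then θ else 0) + (1 + θ / ε) * η))) :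
    Tendsto (fun n : ℕ => ENNReal.ofReal ((n : ℝ) ^ β) *
      ∑' j : ℕ, if ⌈δ * n⌉₊ ≤ 2 * (j + 1) then g n j else 0) atTop
      (𝓝 (ENNReal.ofReal (θ * (c / β * 2 ^ β * θ ^ β)))) := by
  set C₁ : ℝ := c / β * 2 ^ β with hC₁
  refine ennreal_tendsto_of_ofReal fun e he => ?_
  -- choice of `ε`
  obtain ⟨ε, hε0, hεθ, hε⟩ : ∃ ε : ℝ, 0 < ε ∧ ε < θ ∧
      θ * (C₁ * (θ + ε) ^ β - C₁ * (θ - ε) ^ β) < e / 4 := by
    have hcont : Tendsto (fun ε : ℝ => θ * (C₁ * (θ + ε) ^ β - C₁ * (θ - ε) ^ β)) (𝓝[>] 0)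
        (𝓝 (θ * (C₁ * (θ + 0) ^ β - C₁ * (θ - 0) ^ β))) := by
      have hid : Tendsto (fun ε : ℝ => ε) (𝓝[>] 0) (𝓝 0) := tendsto_id.mono_left nhdsWithin_le_nhds
      refine tendsto_const_nhds.mul ((tendsto_const_nhds.mul ?_).sub (tendsto_const_nhds.mul ?_))
      · exact (tendsto_const_nhds.add hid).rpow_const (Or.inl (by simpa using hθ.ne'))
      · exact (tendsto_const_nhds.sub hid).rpow_const (Or.inl (by simpa using hθ.ne'))
    have h0 : θ * (C₁ * (θ + 0) ^ β - C₁ * (θ - 0) ^ β) = 0 := by simp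
    rw [h0] at hcont
    have h1 := hcont.eventually (gt_mem_nhds (show (0 : ℝ) < e / 4 by positivity))
    have h2 : ∀ᶠ ε : ℝ in 𝓝[>] 0, ε < θ :=
      (tendsto_id.mono_left nhdsWithin_le_nhds : Tendsto (fun ε : ℝ => ε) (𝓝[>] 0) (𝓝 0)).eventually
        (gt_mem_nhds hθ)
    have h3 : ∀ᶠ ε : ℝ in 𝓝[>] 0, 0 < ε := self_mem_nhdsWithin
    obtain ⟨ε, h4, h5, h6⟩ := (h1.and (h2.and h3)).exists
    exact ⟨ε, h6, h5, h4⟩
  -- choice of `η`
  obtain ⟨η, hη0, hη⟩ : ∃ η : ℝ, 0 < η ∧ (1 + θ / ε) * η * (C₁ * (δ⁻¹) ^ β) < e / 4 := by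
    have hcont : Tendsto (fun η : ℝ => (1 + θ / ε) * η * (C₁ * (δ⁻¹) ^ β)) (𝓝[>] 0)
        (𝓝 ((1 + θ / ε) * 0 * (C₁ * (δ⁻¹) ^ β))) := by
      have hid : Tendsto (fun ε : ℝ => ε) (𝓝[>] 0) (𝓝 0) := tendsto_id.mono_left nhdsWithin_le_nhds
      exact (tendsto_const_nhds.mul hid).mul tendsto_const_nhds
    rw [mul_zero, zero_mul] at hcont
    have h1 := hcont.eventually (gt_mem_nhds (show (0 : ℝ) < e / 4 by positivity))
    have h3 : ∀ᶠ ε : ℝ in 𝓝[>] 0, 0 < ε := self_mem_nhdsWithin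
    obtain ⟨η, h4, h6⟩ := (h1.and h3).exists
    exact ⟨η, h6, h4⟩
  set N1 : ℕ → ℕ := fun n => ⌊(n : ℝ) / θ⌋₊ + 1 with hN1
  set N2 : ℕ → ℕ := fun n => ⌊(n : ℝ) / (θ + ε)⌋₊ + 1 with hN2
  set N3 : ℕ → ℕ := fun n => ⌈(n : ℝ) / (θ - ε)⌉₊ with hN3
  set N : ℕ → ℕ := fun n => ⌈δ * n⌉₊ with hN
  have hθε : 0 < θ - ε := by linarith
  have t1 := evenTail_scale hβ h N1 θ hθ (floor_scale θ hθ)
  have t2 := evenTail_scale hβ h N2 (θ + ε) (by linarith) (floor_scale _ (by linarith))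
  have t3 := evenTail_scale hβ h N3 (θ - ε) hθε (ceil_scale _ hθε)
  have t0 := evenTail_scale hβ h N δ⁻¹ (inv_pos.2 hδ) (by
    have := ceil_scale δ⁻¹ (inv_pos.2 hδ)
    refine this.congr fun n => ?_
    simp only [hN, div_inv_eq_mul, mul_comm])
  rw [← hC₁] at t0 t1 t2 t3
  -- the errors
  set err : ℕ → ℝ := fun n => θ * (evenTail p (N2 n) - evenTail p (N3 n)) +
    (1 + θ / ε) * η * evenTail p (N n) with herr
  have t4 : Tendsto (fun n : ℕ => (n : ℝ) ^ β * err n) atTop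
      (𝓝 (θ * (C₁ * (θ + ε) ^ β - C₁ * (θ - ε) ^ β) + (1 + θ / ε) * η * (C₁ * (δ⁻¹) ^ β))) := by
    have h5 := ((t2.sub t3).const_mul θ).add (t0.const_mul ((1 + θ / ε) * η))
    refine h5.congr fun n => ?_
    simp only [herr]; ring
  have t5 : Tendsto (fun n : ℕ => (n : ℝ) ^ β * (θ * evenTail p (N1 n))) atTop
      (𝓝 (θ * (C₁ * θ ^ β))) := by
    refine (t1.const_mul θ).congr fun n => ?_
    ring
  have ev1 : ∀ᶠ n : ℕ in atTop, (n : ℝ) ^ β * err n < e / 2 :=
    t4.eventually (gt_mem_nhds (by linarith))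
  have ev2 : ∀ᶠ n : ℕ in atTop, (n : ℝ) ^ β * (θ * evenTail p (N1 n)) < θ * (C₁ * θ ^ β) + e / 2 :=
    t5.eventually (gt_mem_nhds (by linarith))
  have ev3 : ∀ᶠ n : ℕ in atTop, θ * (C₁ * θ ^ β) - e / 2 < (n : ℝ) ^ β * (θ * evenTail p (N1 n)) :=
    t5.eventually (lt_mem_nhds (by linarith))
  have ev4 : ∀ᶠ n : ℕ in atTop, N n ≤ N1 n := by
    filter_upwards [eventually_ge_atTop 1] with n hn
    have hn' : (0 : ℝ) < n := by exact_mod_cast hn
    simp only [hN, hN1]
    refine Nat.ceil_le.2 ?_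
    push_cast
    have h6 := (Nat.lt_floor_add_one ((n : ℝ) / θ)).le
    refine le_trans ?_ h6
    have h7 : δ * n ≤ 1 / θ * n := mul_le_mul_of_nonneg_right hδθ.le hn'.le
    rw [div_eq_mul_inv]
    rw [one_div] at h7
    linarith
  -- pointwise facts
  have hjpos : ∀ j : ℕ, (0 : ℝ) < 2 * ((j : ℝ) + 1) := fun j => by positivity
  have f1 : ∀ (n j : ℕ), (n : ℝ) / (2 * (j + 1)) < θ ↔ N1 n ≤ 2 * (j + 1) := by
    intro n j
    simp only [hN1]
    rw [Nat.add_one_le_iff, Nat.floor_lt (by positivity), div_lt_iff₀ (hjpos j),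
      div_lt_iff₀ hθ]
    push_cast
    constructor <;> intro h8 <;> linarith
  have f2 : ∀ (n j : ℕ), |(n : ℝ) / (2 * (j + 1)) - θ| < ε →
      N2 n ≤ 2 * (j + 1) ∧ ¬ N3 n ≤ 2 * (j + 1) := by
    intro n j hab
    rw [abs_lt] at hab
    constructor
    · simp only [hN2]
      rw [Nat.add_one_le_iff, Nat.floor_lt (by positivity), div_lt_iff₀ (by linarith)]
      have h8 : (n : ℝ) / (2 * (j + 1)) < θ + ε := by linarith [hab.2]
      rw [div_lt_iff₀ (hjpos j)] at h8
      push_cast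
      linarith
    · simp only [hN3]
      rw [not_le, Nat.lt_ceil, lt_div_iff₀ hθε]
      have h8 : θ - ε < (n : ℝ) / (2 * (j + 1)) := by linarith [hab.1]
      rw [lt_div_iff₀ (hjpos j)] at h8
      push_cast
      linarith
  -- sums
  have hsum : ∀ (q : ℕ → Prop) [DecidablePred q],
      Summable fun j : ℕ => if q j then p (2 * (j + 1)) else 0 :=
    fun q _ => evenTail_summand hβ hp h q
  have hwin : ∀ n : ℕ, 1 ≤ n → ∑' j : ℕ, (if N2 n ≤ 2 * (j + 1) ∧ ¬ N3 n ≤ 2 * (j + 1) then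
      p (2 * (j + 1)) else 0) ≤ evenTail p (N2 n) - evenTail p (N3 n) := by
    intro n hn
    have hn' : (0 : ℝ) < n := by exact_mod_cast hn
    have hle : N2 n ≤ N3 n := by
      by_contra hc
      simp only [hN2, hN3, not_le, Nat.lt_succ_iff] at hc
      have h9 : (n : ℝ) / (θ + ε) < (n : ℝ) / (θ - ε) :=
        div_lt_div_of_pos_left hn' hθε (by linarith)
      have h10 : (n : ℝ) / (θ - ε) ≤ (⌈(n : ℝ) / (θ - ε)⌉₊ : ℝ) := Nat.le_ceil _
      have h11 : ((⌊(n : ℝ) / (θ + ε)⌋₊ : ℕ) : ℝ) ≤ (n : ℝ) / (θ + ε) :=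
        Nat.floor_le (by positivity)
      have h12 : ((⌈(n : ℝ) / (θ - ε)⌉₊ : ℕ) : ℝ) ≤ ((⌊(n : ℝ) / (θ + ε)⌋₊ : ℕ) : ℝ) := by
        exact_mod_cast hc
      linarith
    rw [evenTail, evenTail, ← (hsum _).tsum_sub (hsum _)]
    refine (hsum _).tsum_le_tsum (fun j => ?_) ((hsum _).sub (hsum _))
    have := hp (2 * (j + 1))
    split_ifs <;> first | linarith | (exfalso; omega) | simp
  set w : ℕ → ℕ → ℝ := fun n j => θ * (if N2 n ≤ 2 * (j + 1) ∧ ¬ N3 n ≤ 2 * (j + 1) then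
      p (2 * (j + 1)) else 0) + (1 + θ / ε) * η * (if N n ≤ 2 * (j + 1) then p (2 * (j + 1)) else 0)
    with hw
  have hw0 : ∀ n j, 0 ≤ w n j := by
    intro n j
    have := hp (2 * (j + 1))
    simp only [hw]
    split_ifs <;> positivity
  have hws : ∀ n, Summable (w n) := fun n => ((hsum _).mul_left θ).add ((hsum _).mul_left _)
  have hwt : ∀ n, 1 ≤ n → ∑' j, w n j ≤ err n := by
    intro n hn
    simp only [hw]
    rw [((hsum _).mul_left θ).tsum_add ((hsum _).mul_left _), tsum_mul_left, tsum_mul_left]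
    simp only [herr]
    have := mul_le_mul_of_nonneg_left (hwin n hn) hθ.le
    unfold evenTail at this ⊢
    linarith
  have hm0 : ∀ n j, 0 ≤ θ * (if N1 n ≤ 2 * (j + 1) then p (2 * (j + 1)) else 0) := by
    intro n j
    have := hp (2 * (j + 1))
    split_ifs <;> positivity
  have hms : ∀ n, Summable fun j => θ * (if N1 n ≤ 2 * (j + 1) then p (2 * (j + 1)) else 0) :=
    fun n => (hsum _).mul_left θ
  have hmt : ∀ n, ∑' j, θ * (if N1 n ≤ 2 * (j + 1) then p (2 * (j + 1)) else 0) =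
      θ * evenTail p (N1 n) := fun n => tsum_mul_left
  filter_upwards [ev1, ev2, ev3, ev4, hg ε hε0 hεθ η hη0, eventually_ge_atTop 1] with
    n h1 h2 h3 h4 h5 h6
  have hn' : (0 : ℝ) < n := by exact_mod_cast h6
  have hnb : (0 : ℝ) < (n : ℝ) ^ β := Real.rpow_pos_of_pos hn' _
  have hηε : 0 ≤ (1 + θ / ε) * η := by positivity
  constructor
  · have hu : ∑' j : ℕ, (if N n ≤ 2 * (j + 1) then g n j else 0) ≤
        ENNReal.ofReal (θ * evenTail p (N1 n) + err n) := by
      calc ∑' j : ℕ, (if N n ≤ 2 * (j + 1) then g n j else 0)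
          ≤ ∑' j : ℕ, ENNReal.ofReal (θ * (if N1 n ≤ 2 * (j + 1) then p (2 * (j + 1)) else 0) +
              w n j) := by
            refine ENNReal.tsum_le_tsum fun j => ?_
            by_cases hNj : N n ≤ 2 * (j + 1)
            swap
            · rw [if_neg hNj]; exact zero_le
            rw [if_pos hNj]
            refine (h5 j hNj).1.trans (ENNReal.ofReal_le_ofReal ?_)
            simp only [hw]
            rw [if_pos hNj]
            have hpj := hp (2 * (j + 1))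
            have g1 : p (2 * (j + 1)) * (if (n : ℝ) / (2 * (j + 1)) < θ then θ else 0) =
                θ * (if N1 n ≤ 2 * (j + 1) then p (2 * (j + 1)) else 0) := by
              by_cases hq : (n : ℝ) / (2 * (j + 1)) < θ
              · rw [if_pos hq, if_pos ((f1 n j).1 hq)]; ring
              · rw [if_neg hq, if_neg (fun hh => hq ((f1 n j).2 hh))]; ring
            have g2 : p (2 * (j + 1)) * (if |(n : ℝ) / (2 * (j + 1)) - θ| < ε then θ else 0) ≤
                θ * (if N2 n ≤ 2 * (j + 1) ∧ ¬ N3 n ≤ 2 * (j + 1) then p (2 * (j + 1)) else 0) := by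
              by_cases hq : |(n : ℝ) / (2 * (j + 1)) - θ| < ε
              · rw [if_pos hq, if_pos (f2 n j hq)]
                exact le_of_eq (mul_comm _ _)
              · rw [if_neg hq, mul_zero]
                split_ifs <;> positivity
            calc p (2 * (j + 1)) * ((if (n : ℝ) / (2 * (j + 1)) < θ then θ else 0) +
                  (if |(n : ℝ) / (2 * (j + 1)) - θ| < ε then θ else 0) + (1 + θ / ε) * η)
                = p (2 * (j + 1)) * (if (n : ℝ) / (2 * (j + 1)) < θ then θ else 0) +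
                  p (2 * (j + 1)) * (if |(n : ℝ) / (2 * (j + 1)) - θ| < ε then θ else 0) +
                  (1 + θ / ε) * η * p (2 * (j + 1)) := by ring
              _ ≤ _ := by rw [g1]; linarith
        _ = ENNReal.ofReal (∑' j, (θ * (if N1 n ≤ 2 * (j + 1) then p (2 * (j + 1)) else 0) +
              w n j)) :=
            (ENNReal.ofReal_tsum_of_nonneg (fun j => add_nonneg (hm0 n j) (hw0 n j))
              ((hms n).add (hws n))).symm
        _ ≤ _ := by
            refine ENNReal.ofReal_le_ofReal ?_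
            rw [(hms n).tsum_add (hws n), hmt n]
            linarith [hwt n h6]
    calc ENNReal.ofReal ((n : ℝ) ^ β) * ∑' j : ℕ, (if ⌈δ * n⌉₊ ≤ 2 * (j + 1) then g n j else 0)
        ≤ ENNReal.ofReal ((n : ℝ) ^ β) * ENNReal.ofReal (θ * evenTail p (N1 n) + err n) :=
          mul_le_mul' le_rfl hu
      _ = ENNReal.ofReal ((n : ℝ) ^ β * (θ * evenTail p (N1 n) + err n)) :=
          (ENNReal.ofReal_mul hnb.le).symm
      _ ≤ _ := by
          refine ENNReal.ofReal_le_ofReal ?_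
          rw [mul_add]
          linarith
  · have hl : ENNReal.ofReal (θ * evenTail p (N1 n)) ≤
        (∑' j : ℕ, (if N n ≤ 2 * (j + 1) then g n j else 0)) + ENNReal.ofReal (err n) := by
      calc ENNReal.ofReal (θ * evenTail p (N1 n))
          = ∑' j, ENNReal.ofReal (θ * (if N1 n ≤ 2 * (j + 1) then p (2 * (j + 1)) else 0)) := by
            rw [← hmt n, ENNReal.ofReal_tsum_of_nonneg (hm0 n) (hms n)]
        _ ≤ ∑' j, ((if N n ≤ 2 * (j + 1) then g n j else 0) + ENNReal.ofReal (w n j)) := by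
            refine ENNReal.tsum_le_tsum fun j => ?_
            by_cases hN1j : N1 n ≤ 2 * (j + 1)
            swap
            · rw [if_neg hN1j, mul_zero, ENNReal.ofReal_zero]; exact zero_le
            have hNj : N n ≤ 2 * (j + 1) := h4.trans hN1j
            have hq := (f1 n j).2 hN1j
            have h7 := (h5 j hNj).2
            rw [if_pos hq] at h7
            rw [if_pos hN1j, if_pos hNj, mul_comm θ]
            refine h7.trans (add_le_add le_rfl (ENNReal.ofReal_le_ofReal ?_))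
            have hpj := hp (2 * (j + 1))
            have g2 : p (2 * (j + 1)) * (if |(n : ℝ) / (2 * (j + 1)) - θ| < ε then θ else 0) ≤
                θ * (if N2 n ≤ 2 * (j + 1) ∧ ¬ N3 n ≤ 2 * (j + 1) then p (2 * (j + 1)) else 0) := by
              by_cases hq : |(n : ℝ) / (2 * (j + 1)) - θ| < ε
              · rw [if_pos hq, if_pos (f2 n j hq)]
                exact le_of_eq (mul_comm _ _)
              · rw [if_neg hq, mul_zero]
                split_ifs <;> positivity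
            simp only [hw]
            rw [if_pos hNj, mul_add]
            linarith
        _ = (∑' j : ℕ, (if N n ≤ 2 * (j + 1) then g n j else 0)) +
            ENNReal.ofReal (∑' j, w n j) := by
            rw [ENNReal.tsum_add, ENNReal.ofReal_tsum_of_nonneg (hw0 n) (hws n)]
        _ ≤ _ := add_le_add le_rfl (ENNReal.ofReal_le_ofReal (hwt n h6))
    have herr0 : 0 ≤ err n := le_trans (tsum_nonneg (hw0 n)) (hwt n h6)
    calc ENNReal.ofReal (θ * (C₁ * θ ^ β) - e)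
        ≤ ENNReal.ofReal ((n : ℝ) ^ β * (θ * evenTail p (N1 n)) - (n : ℝ) ^ β * err n) :=
          ENNReal.ofReal_le_ofReal (by linarith)
      _ = ENNReal.ofReal ((n : ℝ) ^ β) * ENNReal.ofReal (θ * evenTail p (N1 n)) -
          ENNReal.ofReal ((n : ℝ) ^ β) * ENNReal.ofReal (err n) := by
          rw [ENNReal.ofReal_sub _ (by positivity), ENNReal.ofReal_mul hnb.le,
            ENNReal.ofReal_mul hnb.le]
      _ ≤ _ := by
          rw [tsub_le_iff_right, ← mul_add]
          exact mul_le_mul' le_rfl hl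

end Pool.Agent.LoopPerc
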