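import Pool.Agent.LoopPerc.VolEW2
import Pool.Agent.LoopPerc.VolReal
import Pool.Agent.LoopPerc.RWTime

/-!
# Asymptotics of the main term of the volume tail
-/

namespace Pool.Agent.LoopPerc

open MeasureTheory ProbabilityTheory Filter Topology Set HSys
open scoped ENNReal NNReal

lemma numClosed_eq_zero {d k : ℕ} (hd : 1 ≤ d) (hk : Even k) : numClosed d k = 0 := by
  have h1 : kern (Set.univ : Set (Lat d)) (k + 1) 0 0 = 0 := by
    refine kern_parity _ _ _ _ ?_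
    intro h
    have h2 : Even ((k : ℤ) + 1) := by simpa using h
    have h3 : Even (k : ℤ) := by exact_mod_cast hk
    exact (Int.even_add_one.1 h2) h3
  rw [kern_eq_numClosed] at h1
  rcases mul_eq_zero.1 h1 with h | h
  · exact_mod_cast h
  · exfalso
    have : ((2 * (d : ℝ≥0∞))⁻¹) ≠ 0 := ENNReal.inv_ne_zero.2
      (ENNReal.mul_ne_top (by norm_num) (ENNReal.natCast_ne_top d))
    exact pow_ne_zero _ this h

/-- the law of large numbers for the volume connected to a closed walk -/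
def WalkLLN {d : ℕ} {ι : Type*} [Countable ι] (H : HSys (Lat d) ι) (sh : H.Shift)
    (Jk : ℕ → Set ι) (θ : ℝ) : Prop :=
  ∀ η > 0, ∃ k n₀ : ℕ, ∀ n ≥ n₀, Odd n → ∀ J : Set ι, Jk k ⊆ J →
      (∀ v i, sh.act v i ∈ J ↔ i ∈ J) →
      ∑ w : Fin (n + 1) → Step d, (if IsClosedWalk w then
        ∫ ω, |((H.clusW J ω (range0 w)).ncard : ℝ) / (n + 1) - θ| ∂H.P else 0) ≤
      η * (Finset.univ.filter fun w : Fin (n + 1) → Step d => IsClosedWalk w).card

theorem volMain_limit {d : ℕ} (hd : 3 ≤ d) (α : ℝ≥0) (H : HSys (Lat d) (Cycle (Lat d)))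
    (hH : H = loopSys d α) (sh : H.Shift) (hinv : ∀ N, sh.Inv (shortLoops d N))
    (hchi : H.chi ≠ ⊤) {θ δ : ℝ} (hθ : 0 < θ) (hLLN : WalkLLN H sh (shortLoops d) θ)
    (hδ : 0 < δ) (hδθ : δ < 1 / θ) :
    ∃ L : ℝ, 0 ≤ L ∧ Tendsto (fun n : ℕ => ENNReal.ofReal ((n : ℝ) ^ ((d : ℝ) / 2 - 1)) *
      H.volMain (shortLoops d ⌈δ * n⌉₊) 0 n) atTop (𝓝 (ENNReal.ofReal L)) := by
  have hd1 : 1 ≤ d := by omega
  obtain ⟨c, hc, hev⟩ := kern_even_asymp d hd1
  set p : ℕ → ℝ := fun m => (kern (Set.univ : Set (Lat d)) m 0 0).toReal with hp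
  set β : ℝ := (d : ℝ) / 2 - 1 with hβdef
  have hβ : 0 < β := by
    have : (3 : ℝ) ≤ d := by exact_mod_cast hd
    rw [hβdef]; linarith
  have hp0 : ∀ m, 0 ≤ p m := fun m => ENNReal.toReal_nonneg
  have hev' : Tendsto (fun k : ℕ => (k : ℝ) ^ (β + 1) * p (2 * k)) atTop (𝓝 c) := by
    refine hev.congr fun k => ?_
    rw [hβdef, sub_add_cancel]
  set G : ℕ → ℕ → ℝ≥0∞ := fun n k => ((k : ℝ≥0∞) + 1)⁻¹ * ((2 * (d : ℝ≥0∞))⁻¹) ^ (k + 1) *
    ∑ w : Fin (k + 1) → Step d, (if IsClosedWalk w then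
      H.EW (shortLoops d ⌈δ * n⌉₊) (range0 w) n else 0) with hG
  have hGz : ∀ n k, Even k → G n k = 0 := by
    intro n k hk
    have h1 := numClosed_eq_zero hd1 hk
    rw [numClosed, Finset.card_eq_zero, Finset.filter_eq_empty_iff] at h1
    simp only [hG]
    rw [Finset.sum_eq_zero, mul_zero]
    intro w hw
    rw [if_neg (h1 hw)]
  have hmain := vol_real hβ hp0 hev' hθ hδ hδθ (fun n j => G n (2 * j + 1)) (by
    intro ε hε hεθ η hη
    obtain ⟨k₀, n₀, hk⟩ := hLLN η hη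
    have hceil : Tendsto (fun n : ℕ => ⌈δ * n⌉₊) atTop atTop := by
      refine tendsto_nat_ceil_atTop.comp ?_
      exact tendsto_natCast_atTop_atTop.const_mul_atTop hδ
    filter_upwards [hceil.eventually_ge_atTop k₀, hceil.eventually_ge_atTop (n₀ + 1)] with n h1 h2
    intro j hj
    have h3 := hk (2 * j + 1) (by omega) ⟨j, rfl⟩ (shortLoops d ⌈δ * n⌉₊)
      (fun c hc => lt_of_lt_of_le hc h1) (hinv _)
    have h4 := g_bounds sh hchi (shortLoops d ⌈δ * n⌉₊) n (2 * j + 1) hd1 (θ := θ) (ε := ε)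
      (η := η) hθ hε h3
    have e1 : (((2 * j + 1 : ℕ) : ℝ) + 1) = 2 * ((j : ℝ) + 1) := by push_cast; ring
    have e2 : 2 * (j + 1) = 2 * j + 1 + 1 := by ring
    rw [e1] at h4
    simp only [hG, hp]
    rw [e2]
    exact h4)
  refine ⟨(α : ℝ) * (θ * (c / β * 2 ^ β * θ ^ β)), by positivity, ?_⟩
  have h5 : ∀ n : ℕ, H.volMain (shortLoops d ⌈δ * n⌉₊) 0 n =
      α * ∑' j : ℕ, if ⌈δ * n⌉₊ ≤ 2 * (j + 1) then G n (2 * j + 1) else 0 := by
    intro n
    rw [volMain_eq hd1 α H hH sh hinv]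
    congr 1
    have hinj : Function.Injective fun j : ℕ => 2 * j + 1 := fun a b h => by
      simp only at h; omega
    rw [← hinj.tsum_eq]
    · refine tsum_congr fun j => ?_
      have e2 : 2 * j + 1 + 1 = 2 * (j + 1) := by ring
      refine if_congr (by rw [e2]) ?_ rfl
      simp only [hG]
    · intro k hk
      rw [Function.mem_support] at hk
      rcases Nat.even_or_odd k with h | h
      · exfalso
        apply hk
        have := hGz n k h
        simp only [hG] at this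
        rw [this]; simp
      · obtain ⟨j, hj⟩ := h
        exact ⟨j, by simp only; omega⟩
  have h6 := ENNReal.Tendsto.const_mul (a := (α : ℝ≥0∞)) hmain (Or.inr ENNReal.coe_ne_top)
  have h7 : ENNReal.ofReal ((α : ℝ) * (θ * (c / β * 2 ^ β * θ ^ β))) =
      (α : ℝ≥0∞) * ENNReal.ofReal (θ * (c / β * 2 ^ β * θ ^ β)) := by
    rw [ENNReal.ofReal_mul (NNReal.coe_nonneg α), ENNReal.ofReal_coe_nnreal]
  rw [h7]
  refine h6.congr fun n => ?_
  rw [h5 n]
  ring

end Pool.Agent.LoopPerc
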