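import Pool.Agent.LoopPerc.Volume

/-!
# The volume of the cluster: lower bound by one big hyperedge
-/

namespace Pool.Agent.LoopPerc.HSys

open MeasureTheory ProbabilityTheory Filter Topology Set
open scoped ENNReal NNReal

variable {V ι : Type*} {H : HSys V ι}

lemma lam_le (i : ι) : (H.lam i : ℝ≥0∞) ≤ H.P {ω | ω i ≠ 0} + H.lam i * H.lam i := by
  rw [P_present]
  have h1 : (H.lam i : ℝ) ≤ (1 - Real.exp (-(H.lam i : ℝ))) + H.lam i * H.lam i := by
    have h0 : (0 : ℝ) ≤ H.lam i := (H.lam i).2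
    by_cases h : (H.lam i : ℝ) ≤ 1
    · have := Real.exp_bound' (x := -(H.lam i : ℝ)) 
      have h2 : Real.exp (-(H.lam i : ℝ)) ≤ 1 - H.lam i + (H.lam i) ^ 2 := by
        have h3 := Real.abs_exp_sub_one_sub_id_le (x := -(H.lam i : ℝ)) (by rw [abs_neg, abs_of_nonneg h0]; exact h)
        have h4 := (abs_le.1 h3).2
        nlinarith
      nlinarith
    · push Not at h
      have h2 : Real.exp (-(H.lam i : ℝ)) ≤ 1 := Real.exp_le_one_iff.2 (by linarith)
      nlinarith
  calc (H.lam i : ℝ≥0∞) = ENNReal.ofReal (H.lam i : ℝ) := by rw [ENNReal.ofReal_coe_nnreal]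
    _ ≤ ENNReal.ofReal ((1 - Real.exp (-(H.lam i : ℝ))) + H.lam i * H.lam i) :=
        ENNReal.ofReal_le_ofReal h1
    _ ≤ ENNReal.ofReal (1 - Real.exp (-(H.lam i : ℝ))) + ENNReal.ofReal (H.lam i * H.lam i) :=
        ENNReal.ofReal_add_le
    _ = _ := by
        congr 1
        rw [ENNReal.ofReal_mul (NNReal.coe_nonneg _), ENNReal.ofReal_coe_nnreal]

lemma clusW_singleton (S : Set ι) (ω : ι → ℕ) (x : V) : H.clusW S ω {x} = H.clus S ω x := by
  ext y; simp [clusW, clus]

lemma lam_le_rate {B : Set ι} {i : ι} (hi : i ∈ B) {u : V} (hu : u ∈ H.s i) :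
    (H.lam i : ℝ≥0∞) ≤ H.rate B u (fun _ => 1) := by
  unfold rate
  refine le_trans (le_of_eq ?_) (ENNReal.le_tsum i)
  rw [indicator_of_mem (show i ∈ B ∩ {i | u ∈ H.s i} from ⟨hi, hu⟩), mul_one]

variable [Countable V] [Countable ι]

/-- lower bound of the volume tail -/
theorem vol_lower (S : Set ι) (x : V) (n : ℕ) {β χ : ℝ≥0∞}
    (hfin : ∀ᵐ ω ∂H.P, (H.clus S ω x).Finite)
    (hβ : ∀ u, H.rate Sᶜ u (fun _ => 1) ≤ β)
    (hχ : ∀ v, ∑' u, H.tau Set.univ v u ≤ χ) :
    H.volMain S x n ≤ H.P {ω | (n : ℕ∞) < (H.clus Set.univ ω x).encard} +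
      χ * (n * β * β) + β * (χ * β) +
      (∑' A : Finset V, H.P {ω | H.clus S ω x = A} * (if n < A.card then (A.card : ℝ≥0∞) else 0)) *
        β := by
  classical
  set M : ι → Set (ι → ℕ) := fun i =>
    {ω | i ∈ H.hit (H.clus S ω x) ∧ (n : ℕ∞) < (H.clusW S ω (H.s i)).encard} with hM
  have mM : ∀ i, MeasurableSet[sig ι S] (M i) := fun i => measurableSet_main S x i n
  set E : ι → Set (ι → ℕ) := fun i => {ω | i ∈ Sᶜ ∧ ω i ≠ 0 ∧ ω ∈ M i} with hE
  have mE : ∀ i, MeasurableSet (E i) := by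
    intro i
    have h : E i = {ω | i ∈ Sᶜ} ∩ ({ω : ι → ℕ | ω i ≠ 0} ∩ M i) := by ext ω; simp [hE]
    rw [h]
    exact (MeasurableSet.const _).inter ((sig_le {i} _ (measurableSet_present rfl)).inter
      (sig_le S _ (mM i)))
  -- first step
  have s1 : H.volMain S x n ≤ ∑' i, H.P (E i) + β * (χ * β) := by
    have h1 : ∀ i, Sᶜ.indicator (fun i => (H.lam i : ℝ≥0∞) * H.P (M i)) i ≤
        H.P (E i) + β * Sᶜ.indicator (fun i => (H.lam i : ℝ≥0∞) *
          H.P {ω | i ∈ H.hit (H.clusW S ω ({x} : Finset V))}) i := by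
      intro i
      by_cases hi : i ∈ Sᶜ
      swap
      · rw [indicator_of_notMem hi]; exact zero_le
      simp only [indicator_of_mem hi]
      have e1 : H.P (E i) = H.P {ω | ω i ≠ 0} * H.P (M i) := by
        have h : E i = {ω : ι → ℕ | ω i ≠ 0} ∩ M i := by ext ω; simp [hE]; tauto
        rw [h, P_inter (J := {i}) (J' := S) (by simpa using hi) (measurableSet_present rfl) (mM i)]
      have e2 : (H.lam i : ℝ≥0∞) * H.P (M i) ≤
          (H.P {ω | ω i ≠ 0} + H.lam i * H.lam i) * H.P (M i) := mul_le_mul' (lam_le i) le_rfl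
      refine e2.trans ?_
      rw [add_mul, e1]
      refine add_le_add le_rfl ?_
      by_cases hs : (H.s i).Nonempty
      · obtain ⟨u, hu⟩ := hs
        have h3 : (H.lam i : ℝ≥0∞) ≤ β := (lam_le_rate hi hu).trans (hβ u)
        rw [mul_assoc]
        refine mul_le_mul' h3 (mul_le_mul' le_rfl (measure_mono ?_))
        rintro ω ⟨h, -⟩
        simpa [clusW_singleton] using h
      · have h4 : M i = ∅ := by
          ext ω
          simp only [hM, mem_ofPred_eq, mem_empty_iff_false, iff_false]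
          rintro ⟨⟨y, hy, -⟩, -⟩
          exact hs ⟨y, hy⟩
        rw [h4, measure_empty, mul_zero]; exact zero_le
    refine (ENNReal.tsum_le_tsum h1).trans ?_
    rw [ENNReal.tsum_add, ENNReal.tsum_mul_left]
    refine add_le_add le_rfl (mul_le_mul' le_rfl ?_)
    have := tsum_hit_clusW_le (H := H) Sᶜ S {x} hβ hχ
    simpa using this
  -- second step
  set U : Set (ι → ℕ) := {ω | (n : ℕ∞) < (H.clus Set.univ ω x).encard} with hU
  have mU : MeasurableSet U :=
    sig_le Set.univ _ (measurableSet_lt_encard _ (fun y => measurableSet_conn Set.univ x y) n)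
  set D : Finset V → ι → ι → Set (ι → ℕ) := fun A i j =>
    {ω | A.card ≤ n ∧ i ∈ Sᶜ ∩ H.hit A ∧ j ∈ Sᶜ ∩ H.hit A ∧ j ≠ i ∧ H.clus S ω x = A ∧
      ω i ≠ 0 ∧ ω j ≠ 0} with hD
  set F : Finset V → ι → Set (ι → ℕ) := fun A i =>
    {ω | n < A.card ∧ i ∈ Sᶜ ∩ H.hit A ∧ H.clus S ω x = A ∧ ω i ≠ 0} with hF
  have m1 : ∀ A : Finset V, MeasurableSet {ω | H.clus S ω x = A} := fun A =>
    sig_le _ _ (measurableSet_clus_eq S x A)
  have m2 : ∀ i, MeasurableSet {ω : ι → ℕ | ω i ≠ 0} := fun i =>
    sig_le {i} _ (measurableSet_present rfl)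
  have mD : ∀ A i j, MeasurableSet (D A i j) := by
    intro A i j
    refine (MeasurableSet.const _).inter ((MeasurableSet.const _).inter
      ((MeasurableSet.const _).inter ((MeasurableSet.const _).inter ((m1 A).inter
      ((m2 i).inter (m2 j))))))
  have mF : ∀ A i, MeasurableSet (F A i) := by
    intro A i
    exact (MeasurableSet.const _).inter ((MeasurableSet.const _).inter ((m1 A).inter (m2 i)))
  have s2 : ∑' i, H.P (E i) ≤ H.P U + (∑' A, ∑' i, ∑' j, H.P (D A i j)) +
      ∑' A, ∑' i, H.P (F A i) := by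
    have l1 : ∑' i, H.P (E i) = ∫⁻ ω, ∑' i, (E i).indicator 1 ω ∂H.P := by
      rw [lintegral_tsum fun i => (measurable_one.indicator (mE i)).aemeasurable]
      exact tsum_congr fun i => (lintegral_indicator_one (mE i)).symm
    have l2 : H.P U + (∑' A, ∑' i, ∑' j, H.P (D A i j)) + ∑' A, ∑' i, H.P (F A i) =
        ∫⁻ ω, (U.indicator 1 ω + (∑' A, ∑' i, ∑' j, (D A i j).indicator 1 ω) +
          ∑' A, ∑' i, (F A i).indicator 1 ω) ∂H.P := by
      have a1 : ∀ A i j, Measurable fun ω => (D A i j).indicator (1 : (ι → ℕ) → ℝ≥0∞) ω :=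
        fun A i j => measurable_one.indicator (mD A i j)
      have a2 : ∀ A i, Measurable fun ω => (F A i).indicator (1 : (ι → ℕ) → ℝ≥0∞) ω :=
        fun A i => measurable_one.indicator (mF A i)
      have a0 : Measurable fun ω => U.indicator (1 : (ι → ℕ) → ℝ≥0∞) ω :=
        measurable_one.indicator mU
      have b1 : ∀ A i, Measurable fun ω => ∑' j, (D A i j).indicator (1 : (ι → ℕ) → ℝ≥0∞) ω :=
        fun A i => Measurable.ennreal_tsum (a1 A i)
      have b2 : ∀ A, Measurable fun ω => ∑' i, ∑' j, (D A i j).indicator (1 : (ι → ℕ) → ℝ≥0∞) ω :=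
        fun A => Measurable.ennreal_tsum (b1 A)
      have b3 : Measurable fun ω => ∑' A, ∑' i, ∑' j, (D A i j).indicator (1 : (ι → ℕ) → ℝ≥0∞) ω :=
        Measurable.ennreal_tsum b2
      have c1 : ∀ A, Measurable fun ω => ∑' i, (F A i).indicator (1 : (ι → ℕ) → ℝ≥0∞) ω :=
        fun A => Measurable.ennreal_tsum (a2 A)
      have c2 : Measurable fun ω => ∑' A, ∑' i, (F A i).indicator (1 : (ι → ℕ) → ℝ≥0∞) ω :=
        Measurable.ennreal_tsum c1
      rw [lintegral_add_right _ c2, lintegral_add_right _ b3, lintegral_indicator_one mU,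
        lintegral_tsum fun A => (b2 A).aemeasurable, lintegral_tsum fun A => (c1 A).aemeasurable]
      congr 1
      · congr 1
        refine tsum_congr fun A => ?_
        rw [lintegral_tsum fun i => (b1 A i).aemeasurable]
        refine tsum_congr fun i => ?_
        rw [lintegral_tsum fun j => (a1 A i j).aemeasurable]
        exact tsum_congr fun j => (lintegral_indicator_one (mD A i j)).symm
      · refine tsum_congr fun A => ?_
        rw [lintegral_tsum fun i => (a2 A i).aemeasurable]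
        exact tsum_congr fun i => (lintegral_indicator_one (mF A i)).symm
    rw [l1, l2]
    refine lintegral_mono_ae ?_
    filter_upwards [hfin] with ω hω
    by_cases hex : ∃ i, ω ∈ E i
    swap
    · push Not at hex
      have : ∑' i, (E i).indicator (1 : (ι → ℕ) → ℝ≥0∞) ω = 0 := by
        rw [ENNReal.tsum_eq_zero]
        exact fun i => indicator_of_notMem (hex i) _
      rw [this]; exact zero_le
    obtain ⟨i₀, hi₀⟩ := hex
    have hA : ((hω.toFinset : Finset V) : Set V) = H.clus S ω x := hω.coe_toFinset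
    have hhit : ∀ i, ω ∈ E i → i ∈ Sᶜ ∩ H.hit (hω.toFinset : Finset V) := by
      rintro i ⟨h1, h2, h3, h4⟩
      refine ⟨h1, ?_⟩
      rw [hA]; exact h3
    have hωU : ω ∈ U := by
      obtain ⟨h1, h2, h3, h4⟩ := hi₀
      exact lt_of_lt_of_le h4 (Set.encard_le_encard (clusW_subset_clus h2 h3))
    by_cases hn : hω.toFinset.card ≤ n
    · refine le_trans ?_ le_self_add
      rw [indicator_of_mem hωU, ENNReal.tsum_eq_add_tsum_ite i₀, indicator_of_mem hi₀]
      refine add_le_add le_rfl ?_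
      refine le_trans ?_ (ENNReal.le_tsum hω.toFinset)
      refine le_trans ?_ (ENNReal.le_tsum i₀)
      refine ENNReal.tsum_le_tsum fun j => ?_
      by_cases hj : j = i₀
      · rw [if_pos hj]; exact zero_le
      · rw [if_neg hj]
        by_cases hjE : ω ∈ E j
        · rw [indicator_of_mem hjE, indicator_of_mem]
          · exact ⟨hn, hhit _ hi₀, hhit _ hjE, hj, hA.symm, hi₀.2.1, hjE.2.1⟩
        · rw [indicator_of_notMem hjE]; exact zero_le
    · push Not at hn
      refine le_trans ?_ le_add_self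
      refine le_trans ?_ (ENNReal.le_tsum hω.toFinset)
      refine ENNReal.tsum_le_tsum fun j => ?_
      by_cases hjE : ω ∈ E j
      · rw [indicator_of_mem hjE, indicator_of_mem]
        exact ⟨hn, hhit _ hjE, hA.symm, hjE.2.1⟩
      · rw [indicator_of_notMem hjE]; exact zero_le
  -- third step
  have hmass : ∀ A : Finset V, ∑' i, (Sᶜ ∩ H.hit A).indicator (fun i => (H.lam i : ℝ≥0∞)) i ≤
      A.card * β := by
    intro A
    have h1 := hit_sum_le (H := H) Sᶜ A (fun _ => 1)
    simp only [mul_one] at h1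
    refine h1.trans ((Finset.sum_le_sum fun u _ => hβ u).trans ?_)
    simp
  have s3 : ∑' A, ∑' i, ∑' j, H.P (D A i j) ≤ χ * (n * β * β) := by
    refine le_trans (ENNReal.tsum_le_tsum fun A => ?_)
      (tsum_clus_le S x (c := n * β * β) (G := fun A => if A.card ≤ n then
        (A.card * β) * (A.card * β) else 0)
        ((ENNReal.tsum_le_tsum fun u => tau_mono (subset_univ _) _ _).trans (hχ x)) ?_)
    · by_cases hn : A.card ≤ n
      swap
      · have : ∀ i j, H.P (D A i j) = 0 := by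
          intro i j
          have : D A i j = ∅ := by ext ω; simp [hD, hn]
          rw [this, measure_empty]
        simp [this]
      rw [if_pos hn]
      have h1 : ∀ i j, H.P (D A i j) ≤ H.P {ω | H.clus S ω x = A} *
          ((Sᶜ ∩ H.hit A).indicator (fun i => (H.lam i : ℝ≥0∞)) i *
            (Sᶜ ∩ H.hit A).indicator (fun i => (H.lam i : ℝ≥0∞)) j) := by
        intro i j
        by_cases hij : i ∈ Sᶜ ∩ H.hit A ∧ j ∈ Sᶜ ∩ H.hit A ∧ j ≠ i
        swap
        · have : D A i j = ∅ := by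
            ext ω; simp only [hD, mem_ofPred_eq, mem_empty_iff_false, iff_false]; tauto
          rw [this, measure_empty]; exact zero_le
        obtain ⟨hi, hj, hji⟩ := hij
        rw [indicator_of_mem hi, indicator_of_mem hj]
        have h2 : D A i j = {ω | H.clus S ω x = A} ∩ ({ω : ι → ℕ | ω i ≠ 0} ∩
            {ω : ι → ℕ | ω j ≠ 0}) := by
          ext ω
          exact ⟨fun h => ⟨h.2.2.2.2.1, h.2.2.2.2.2.1, h.2.2.2.2.2.2⟩,
            fun h => ⟨hn, hi, hj, hji, h.1, h.2.1, h.2.2⟩⟩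
        have e1 : MeasurableSet[sig ι (S ∩ H.hit A)] {ω | H.clus S ω x = A} :=
          measurableSet_clus_eq S x A
        have e2 : MeasurableSet[sig ι ({i} : Set ι)] {ω : ι → ℕ | ω i ≠ 0} :=
          measurableSet_present rfl
        have e3 : MeasurableSet[sig ι ({j} : Set ι)] {ω : ι → ℕ | ω j ≠ 0} :=
          measurableSet_present rfl
        have e5 : MeasurableSet[sig ι ({i} ∪ {j})] ({ω : ι → ℕ | ω i ≠ 0} ∩
            {ω : ι → ℕ | ω j ≠ 0}) :=
          @MeasurableSet.inter _ (sig ι ({i} ∪ {j})) _ _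
            (sig_mono subset_union_left _ e2) (sig_mono subset_union_right _ e3)
        have d1 : Disjoint (S ∩ H.hit A) ({i} ∪ {j}) := by
          rw [Set.disjoint_left]
          rintro l ⟨hl1, hl2⟩ (hl | hl)
          · rw [mem_singleton_iff] at hl; subst hl; exact hi.1 hl1
          · rw [mem_singleton_iff] at hl; subst hl; exact hj.1 hl1
        have d2 : Disjoint ({i} : Set ι) {j} := by simpa using hji.symm
        rw [h2, P_inter d1 e1 e5, P_inter d2 e2 e3]
        exact mul_le_mul' le_rfl (mul_le_mul' (P_present_le i) (P_present_le j))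
      calc ∑' i, ∑' j, H.P (D A i j) ≤ ∑' i, ∑' j, H.P {ω | H.clus S ω x = A} *
          ((Sᶜ ∩ H.hit A).indicator (fun i => (H.lam i : ℝ≥0∞)) i *
            (Sᶜ ∩ H.hit A).indicator (fun i => (H.lam i : ℝ≥0∞)) j) :=
            ENNReal.tsum_le_tsum fun i => ENNReal.tsum_le_tsum fun j => h1 i j
        _ = H.P {ω | H.clus S ω x = A} *
          ((∑' i, (Sᶜ ∩ H.hit A).indicator (fun i => (H.lam i : ℝ≥0∞)) i) *
            ∑' j, (Sᶜ ∩ H.hit A).indicator (fun i => (H.lam i : ℝ≥0∞)) j) := by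
            simp_rw [ENNReal.tsum_mul_left, ENNReal.tsum_mul_right]
        _ ≤ _ := mul_le_mul' le_rfl (mul_le_mul' (hmass A) (hmass A))
    · intro A
      split_ifs with hA
      · have h1 : (A.card : ℝ≥0∞) ≤ n := by exact_mod_cast hA
        calc (A.card : ℝ≥0∞) * β * (A.card * β) ≤ (A.card : ℝ≥0∞) * β * (n * β) := by gcongr
          _ = A.card * (n * β * β) := by ring
      · exact zero_le
  have s4 : ∑' A, ∑' i, H.P (F A i) ≤ (∑' A : Finset V, H.P {ω | H.clus S ω x = A} *
      (if n < A.card then (A.card : ℝ≥0∞) else 0)) * β := by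
    rw [← ENNReal.tsum_mul_right]
    refine ENNReal.tsum_le_tsum fun A => ?_
    by_cases hn : n < A.card
    swap
    · have : ∀ i, H.P (F A i) = 0 := by
        intro i
        have : F A i = ∅ := by ext ω; simp [hF, hn]
        rw [this, measure_empty]
      simp [this]
    rw [if_pos hn]
    have h1 : ∀ i, H.P (F A i) ≤ H.P {ω | H.clus S ω x = A} *
        (Sᶜ ∩ H.hit A).indicator (fun i => (H.lam i : ℝ≥0∞)) i := by
      intro i
      by_cases hi : i ∈ Sᶜ ∩ H.hit A
      swap
      · have : F A i = ∅ := by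
          ext ω; simp only [hF, mem_ofPred_eq, mem_empty_iff_false, iff_false]; tauto
        rw [this, measure_empty]; exact zero_le
      rw [indicator_of_mem hi]
      have h2 : F A i = {ω | H.clus S ω x = A} ∩ {ω : ι → ℕ | ω i ≠ 0} := by
        ext ω
        exact ⟨fun h => ⟨h.2.2.1, h.2.2.2⟩, fun h => ⟨hn, hi, h.1, h.2⟩⟩
      have d1 : Disjoint (S ∩ H.hit A) ({i} : Set ι) := by
        rw [Set.disjoint_left]
        rintro l ⟨hl1, hl2⟩ hl
        rw [mem_singleton_iff] at hl; subst hl; exact hi.1 hl1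
      rw [h2, P_inter d1 (measurableSet_clus_eq S x A) (measurableSet_present rfl)]
      exact mul_le_mul' le_rfl (P_present_le i)
    refine (ENNReal.tsum_le_tsum h1).trans ?_
    rw [ENNReal.tsum_mul_left, mul_assoc]
    exact mul_le_mul' le_rfl (hmass A)
  calc H.volMain S x n ≤ ∑' i, H.P (E i) + β * (χ * β) := s1
    _ ≤ (H.P U + χ * (n * β * β) + (∑' A : Finset V, H.P {ω | H.clus S ω x = A} *
      (if n < A.card then (A.card : ℝ≥0∞) else 0)) * β) + β * (χ * β) :=
        add_le_add (s2.trans (add_le_add (add_le_add le_rfl s3) s4)) le_rfl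
    _ = _ := by ring

end Pool.Agent.LoopPerc.HSys
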