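import Pool.Agent.LoopPerc.Defs
import Pool.Agent.LoopPerc.Abs2

/-!
# Walks, kernels, Green functions and the loop system: definitions
-/

namespace Pool.Agent.LoopPerc

open MeasureTheory ProbabilityTheory Filter Topology
open scoped ENNReal NNReal

/-- The `2d` unit steps. -/
abbrev Step (d : ℕ) : Type := Fin d × Bool

/-- The vector of a step. -/
def stepVec {d : ℕ} (e : Step d) : Lat d := Pi.single e.1 (if e.2 then 1 else -1)

open Classical in
/-- `kern D m x y` is the probability that simple random walk started at `x` is at `y` at time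
`m` and that all the positions at times `0, …, m` are in `D`. -/
noncomputable def kern {d : ℕ} (D : Set (Lat d)) : ℕ → Lat d → Lat d → ℝ≥0∞
  | 0, x, y => if x = y ∧ x ∈ D then 1 else 0
  | m + 1, x, y => if x ∈ D then ∑ e : Step d, (2 * (d : ℝ≥0∞))⁻¹ * kern D m (x + stepVec e) y
      else 0

/-- Green function of the walk killed outside of `D`. -/
noncomputable def green {d : ℕ} (D : Set (Lat d)) (x y : Lat d) : ℝ≥0∞ := ∑' m, kern D m x y

/-- The open box `{x : ‖x‖∞ < n} = B(0, n-1)`. -/
def box (d n : ℕ) : Set (Lat d) := {x | ‖x‖ < (n : ℝ)}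

/-- Position at time `k` of the walk with steps `w 0, w 1, …` (periodically continued). -/
def ppos {d n : ℕ} (w : Fin (n + 1) → Step d) (k : ℕ) : Lat d :=
  ∑ i ∈ Finset.range k, stepVec (w (Fin.ofNat (n + 1) i))

/-- The walk with `n + 1` steps `w` is closed. -/
def IsClosedWalk {d n : ℕ} (w : Fin (n + 1) → Step d) : Prop := ppos w (n + 1) = 0

instance {d n : ℕ} (w : Fin (n + 1) → Step d) : Decidable (IsClosedWalk w) := by
  unfold IsClosedWalk; infer_instance

/-- Cyclic rotation of the steps: start at time `k`. -/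
def rot {d n : ℕ} (k : ℕ) (w : Fin (n + 1) → Step d) : Fin (n + 1) → Step d :=
  fun j => w (j + Fin.ofNat (n + 1) k)

/-- The `n + 1` vertices `x, x + w 0, …` of the based loop with base point `x` and steps `w`. -/
def verts {d n : ℕ} (x : Lat d) (w : Fin (n + 1) → Step d) : List (Lat d) :=
  List.ofFn fun k : Fin (n + 1) => x + ppos w k

/-- The system of hyperedges of the loop soup: the hyperedges are the loops, the support of a
loop is its set of vertices. -/
noncomputable def loopSys (d : ℕ) (α : ℝ≥0) : HSys (Lat d) (Cycle (Lat d)) where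
  s c := c.toFinset
  lam c := α * loopMeasure c

lemma loopSys_P (d : ℕ) (α : ℝ≥0) : (loopSys d α).P = soup d α := rfl

/-- Translation invariance of a hyperedge system on `ℤ^d`. -/
structure HSys.Shift {d : ℕ} {ι : Type*} (H : HSys (Lat d) ι) where
  /-- the action of the translations -/
  act : Lat d → Equiv.Perm ι
  s_act : ∀ v i, H.s (act v i) = (H.s i).map (addRightEmbedding v)
  lam_act : ∀ v i, H.lam (act v i) = H.lam i

/-- one-dimensional continuous time walk kernel, `q1 t k = e^{-t} I_k(t)` -/
noncomputable def q1 (t : ℝ) (k : ℤ) : ℝ :=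
  (2 * Real.pi)⁻¹ * ∫ θ in (-Real.pi)..Real.pi, Real.cos (k * θ) * Real.exp (-t * (1 - Real.cos θ))

/-- one-dimensional continuous time kernel at `0` of the walk killed at `± n` -/
noncomputable def q1box (n : ℕ) (t : ℝ) : ℝ :=
  (1 / (n : ℝ)) * ∑ j ∈ Finset.range n,
    Real.exp (-t * (1 - Real.cos (Real.pi * (2 * j + 1) / (2 * n))))

end Pool.Agent.LoopPerc
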